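import Pool.Agent.Lib.MP_2add11_gt.FG.Words

/-!
The universal property of the Whitehead group and transfer of closure under inverses.
-/

noncomputable section

namespace Pool.Agent.Lib.MP_2add11_gt.IG

open Matrix MonoidAlgebra FG

variable {R W G C : Type} [Ring R] [AddCommGroup W] [Group G] [Group C]

theorem exists_kLift (c : Inv R W) :
    ∃ φ : K1 R →+ W, ∀ (j : ℕ) (A : GL (Fin j) R), φ (K1.cls A) = c.c A.val := by
  refine ⟨QuotientAddGroup.lift _ (FreeAbelianGroup.lift fun p => c.c p.2.val) ?_, fun j A => ?_⟩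
  · refine (AddSubgroup.closure_le _).2 ?_
    rintro _ (⟨n, A, B, rfl⟩ | ⟨n, A, B, h1, h2, h3, rfl⟩)
    · simp [c.mul A.isUnit B.isUnit]
    · let e' : Fin (n + 1) ≃ Fin n ⊕ Unit :=
        finSuccEquivLast.trans (Equiv.optionEquivSumPUnit _)
      have hB := isUnit_blocks A.isUnit (isUnit_one (M := Matrix Unit Unit R))
      have e : B.val = (fromBlocks A.val 0 0 (1 : Matrix Unit Unit R)).submatrix e' e' := by
        ext1 i j
        induction i using Fin.lastCases <;> induction j using Fin.lastCases <;>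
          simp [e', h1, h2, h3]
      have : c.c B.val = c.c A.val := by rw [e, c.sub e' hB, c.stab A.isUnit]
      simp [this]
  · simp [K1.cls]

theorem exists_whLift (c : Inv (MonoidAlgebra ℤ G) W)
    (h : ∀ (g : G) (x : MonoidAlgebra ℤ G), x = .single g 1 ∨ x = -.single g 1 →
      c.c (Matrix.of fun _ _ : Unit => x) = 0) :
    ∃ φ : Wh G →+ W, ∀ (n : Type) [Fintype n] [DecidableEq n] (A : Matrix n n (MonoidAlgebra ℤ G)),
      IsUnit A → φ ((whInv G).c A) = c.c A := by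
  obtain ⟨φ, hφ⟩ := exists_kLift c
  refine ⟨QuotientAddGroup.lift _ φ ?_, fun n _ _ A hA => ?_⟩
  · refine (AddSubgroup.closure_le _).2 ?_
    rintro _ ⟨g, A, hA, rfl⟩
    have := h g _ hA
    rw [SetLike.mem_coe, AddMonoidHom.mem_ker, hφ, ← c.sub (Equiv.ofUnique Unit (Fin 1)) A.isUnit,
      ← this]
    congr 1
  · have hB := isUnit_sub (Fintype.equivFin n).symm hA
    rw [← (whInv G).sub (Fintype.equivFin n).symm hA, ← c.sub (Fintype.equivFin n).symm hA,
      ← hB.unit_spec, whInv_val]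
    exact hφ _ _

theorem neg_of_wh (hG : ∀ x ∈ Alg (whInv G), -x ∈ Alg (whInv G)) (c : Inv (MonoidAlgebra ℤ G) W)
    (h : ∀ (g : G) (x : MonoidAlgebra ℤ G), x = .single g 1 ∨ x = -.single g 1 →
      c.c (Matrix.of fun _ _ : Unit => x) = 0) {x : W} (hx : x ∈ Alg c) : -x ∈ Alg c := by
  obtain ⟨φ, hφ⟩ := exists_whLift c h
  obtain ⟨ι, _, _, r, h1, h2, rfl⟩ := hx
  obtain ⟨ι', _, _, r', h1', h2', e⟩ := hG _ ⟨ι, _, _, r, h1, h2, rfl⟩
  exact ⟨ι', _, _, r', h1', h2', by rw [← hφ _ _ h2, ← hφ _ _ h2', ← e, map_neg]⟩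

theorem neg_pull (hC : ∀ x ∈ Alg (whInv C), -x ∈ Alg (whInv C)) (f : C →* G) {x : Wh G}
    (hx : x ∈ Alg ((whInv G).pull (mapDomainRingHom ℤ f))) : -x ∈ Alg (whInv G) := by
  refine Alg.push _ f (neg_of_wh hC _ (fun g x h => ?_) hx)
  refine (whInv_triv (x := mapDomainRingHom ℤ f x) (f g) ?_).2
  rcases h with rfl | rfl
  · exact .inl (by simp)
  · exact .inr (by rw [map_neg]; simp)

end Pool.Agent.Lib.MP_2add11_gt.IG
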