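import Pool.Agent.Lib.MP_2add11_gt.IG.AmalA

/-!
Closure of the algebraic model under inverses for amalgamated products over a finite retract.
-/

noncomputable section

namespace Pool.Agent.Lib.MP_2add11_gt.IG

open Matrix MonoidAlgebra Monoid FG Classical

/-- A group that is a split extension of `B` by a free product whose factors `B` normalises. -/
structure Amal (Γ B : Type) [Group Γ] [Group B] {K : Type} (G : K → Type) [∀ i, Group (G i)] where
  s : B →* Γ
  j : CoprodI G →* Γ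
  π : Γ →* B
  πs : ∀ b, π (s b) = b
  πj : ∀ w, π (j w) = 1
  inj : Function.Injective j
  surj : ∀ γ, ∃ b w, γ = s b * j w
  f : K → Γ →* Γ
  hf : ∀ i b w, f i (s b * j w) = s b * j (CoprodI.of (retr i w))

namespace Amal

variable {Γ B K W n : Type} [Group Γ] [Group B] {G : K → Type} [∀ i, Group (G i)]
  [AddCommGroup W] [Fintype n] [DecidableEq n] (A : Amal Γ B G)

theorem uniq {b b' : B} {w w' : CoprodI G} (h : A.s b * A.j w = A.s b' * A.j w') :
    b = b' ∧ w = w' := by
  have := congrArg A.π h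
  simp only [map_mul, A.πs, A.πj, mul_one] at this
  subst this
  exact ⟨rfl, A.inj (mul_left_cancel h)⟩

theorem fs (i : K) (b : B) : A.f i (A.s b) = A.s b := by simpa using A.hf i b 1

def φ : MonoidAlgebra ℤ B →+* MonoidAlgebra ℤ Γ := mapDomainRingHom ℤ A.s

def ag : MonoidAlgebra ℤ Γ →+* MonoidAlgebra ℤ B := mapDomainRingHom ℤ A.π

def e (i : K) : MonoidAlgebra ℤ Γ →+* MonoidAlgebra ℤ Γ := mapDomainRingHom ℤ (A.f i)

def ε : MonoidAlgebra ℤ Γ →+* MonoidAlgebra ℤ Γ := mapDomainRingHom ℤ (A.s.comp A.π)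

theorem ag_φ (r : MonoidAlgebra ℤ B) : A.ag (A.φ r) = r :=
  hom_ext3 (f := A.ag.comp A.φ) (g := RingHom.id _) (fun x a => by simp [ag, φ, A.πs]) r

theorem e_φ (i : K) (r : MonoidAlgebra ℤ B) : A.e i (A.φ r) = A.φ r :=
  hom_ext3 (f := (A.e i).comp A.φ) (g := A.φ) (fun x a => by simp [e, φ, A.fs]) r

def cw (w : CoprodI G) : MonoidAlgebra ℤ Γ →+ MonoidAlgebra ℤ B where
  toFun x := .ofCoeff (x.coeff.comapDomain (fun b => A.s b * A.j w) fun _ _ _ _ h => (A.uniq h).1)
  map_zero' := by ext; simp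
  map_add' x y := by ext; rfl

theorem cw_coeff (w : CoprodI G) (x : MonoidAlgebra ℤ Γ) (b : B) :
    (A.cw w x).coeff b = x.coeff (A.s b * A.j w) := rfl

theorem cw_φ (w : CoprodI G) (r : MonoidAlgebra ℤ B) (x : MonoidAlgebra ℤ Γ) :
    A.cw w (A.φ r * x) = r * A.cw w x := by
  induction r using MonoidAlgebra.induction_linear with
  | zero => simp
  | add a b ha hb => rw [map_add, add_mul, map_add, ha, hb, add_mul]
  | single g a =>
    ext h
    simp [φ, cw_coeff, coeff_single_mul_apply, mul_assoc]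

theorem cw_j (v w : CoprodI G) (x : MonoidAlgebra ℤ Γ) :
    A.cw v (x * single (A.j w) 1) = A.cw (v * w⁻¹) x := by
  ext h
  simp [cw_coeff, coeff_mul_single_apply, mul_assoc]

theorem cw_one (v : CoprodI G) : A.cw v 1 = if v = 1 then 1 else 0 := by
  ext h
  have : 1 = A.s h * A.j v ↔ 1 = h ∧ 1 = v :=
    ⟨fun e => A.uniq (by simpa using e), by rintro ⟨rfl, rfl⟩; simp⟩
  rw [cw_coeff, MonoidAlgebra.one_def, coeff_single, Finsupp.single_apply, if_congr this rfl rfl]
  by_cases hj : v = 1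
  · simp [MonoidAlgebra.one_def, Finsupp.single_apply, hj]
  · simp [hj, Ne.symm hj]

def co (w : CoprodI G) : Matrix n n (MonoidAlgebra ℤ Γ) →+ Matrix n n (MonoidAlgebra ℤ B) :=
  (A.cw w).mapMatrix

def sc (w : CoprodI G) : Matrix n n (MonoidAlgebra ℤ Γ) := scalar n (single (A.j w) 1)

theorem co_φ (w : CoprodI G) (X : Matrix n n (MonoidAlgebra ℤ B))
    (Y : Matrix n n (MonoidAlgebra ℤ Γ)) : A.co w (A.φ.mapMatrix X * Y) = X * A.co w Y := by
  ext1 p q
  simp [co, Matrix.mul_apply, map_sum, cw_φ]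

theorem co_sc (v w : CoprodI G) (Y : Matrix n n (MonoidAlgebra ℤ Γ)) :
    A.co v (Y * A.sc w) = A.co (v * w⁻¹) Y := by
  ext1 p q
  simp [co, sc, cw_j]

omit [Fintype n] in
theorem co_one (v : CoprodI G) :
    A.co v (1 : Matrix n n (MonoidAlgebra ℤ Γ)) = if v = 1 then 1 else 0 := by
  ext1 p q
  by_cases hpq : p = q <;> split_ifs with hj <;> simp [co, hpq, cw_one, hj, Matrix.one_apply]

theorem co_term (v w : CoprodI G) (X : Matrix n n (MonoidAlgebra ℤ B)) :
    A.co v (A.φ.mapMatrix X * A.sc w) = if v = w then X else 0 := by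
  rw [co_φ, ← one_mul (A.sc w), co_sc, co_one]
  simp [mul_inv_eq_one]

theorem expand (Y : Matrix n n (MonoidAlgebra ℤ Γ)) (T : Finset (CoprodI G))
    (h : ∀ w, w ∉ T → A.co w Y = 0) : Y = ∑ w ∈ T, A.φ.mapMatrix (A.co w Y) * A.sc w := by
  ext p q γ
  obtain ⟨b, v, rfl⟩ := A.surj γ
  have : A.co v Y = A.co v (∑ w ∈ T, A.φ.mapMatrix (A.co w Y) * A.sc w) := by
    simp only [map_sum, co_term, Finset.sum_ite_eq]
    split_ifs with hv
    exacts [rfl, h v hv]
  exact congrArg (fun Z => (Z p q).coeff b) this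

omit [DecidableEq n] in
theorem exists_supp (Y : Matrix n n (MonoidAlgebra ℤ Γ)) :
    ∃ T : Finset (CoprodI G), ∀ w, w ∉ T → A.co w Y = 0 := by
  choose β τ h using A.surj
  refine ⟨(Finset.univ.biUnion fun p : n × n => (Y p.1 p.2).coeff.support).image τ, fun w hw => ?_⟩
  ext p q b
  by_contra h0
  exact hw (Finset.mem_image.2 ⟨_, Finset.mem_biUnion.2 ⟨(p, q), Finset.mem_univ _,
    Finsupp.mem_support_iff.2 h0⟩, (A.uniq (h _)).2.symm⟩)

theorem cw_letter {i : K} {x : MonoidAlgebra ℤ Γ} (h : A.e i x = x) {w : CoprodI G}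
    (hw : A.cw w x ≠ 0) : ∃ g : G i, w = CoprodI.of g := by
  by_contra h0
  refine hw ?_
  rw [← h]
  clear h hw
  induction x using MonoidAlgebra.induction_linear with
  | zero => simp
  | add a b ha hb => rw [map_add, map_add, ha, hb, add_zero]
  | single γ a =>
    obtain ⟨b, v, rfl⟩ := A.surj γ
    ext b'
    have : A.s b * A.j (CoprodI.of (retr i v)) ≠ A.s b' * A.j w := fun e =>
      h0 ⟨_, (A.uniq e).2.symm⟩
    simp only [e, mapDomainRingHom_apply, mapDomain_single, A.hf, cw_coeff]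
    simp [this]

theorem coloured [Finite B] (c : Inv (MonoidAlgebra ℤ Γ) W) (col : n → K)
    (N : Matrix n n (MonoidAlgebra ℤ Γ)) (ha : ∀ p q, A.e (col p) (N p q) = N p q)
    (hb : A.ag.mapMatrix N = 0) (hc : ∀ p q, col p = col q → N p q = 0) (hu : IsUnit (1 - N)) :
    IsOfFinAddOrder (c.c (1 - N)) := by
  obtain ⟨U, hU⟩ := hu.exists_right_inv
  let ν : CoprodI G → Matrix n n (MonoidAlgebra ℤ B) →+ Matrix n n (MonoidAlgebra ℤ B) := fun γ =>
    (A.co γ).comp ((AddMonoidHom.mulLeft N).comp A.φ.mapMatrix.toAddMonoidHom)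
  have hν : ∀ γ X, ν γ X = A.co γ (N * A.φ.mapMatrix X) := fun _ _ => rfl
  have hrow : ∀ γ X p q, ν γ X p q ≠ 0 → ∃ g : G (col p), γ = CoprodI.of g := fun γ X p q h =>
    A.cw_letter (x := (N * A.φ.mapMatrix X) p q) (by
      simp [Matrix.mul_apply, map_sum, ha, e_φ]) h
  obtain ⟨S, hS⟩ := Module.Finite.fg_top (R := ℤ) (M := Matrix n n (MonoidAlgebra ℤ B))
  choose T0 hT0 using fun X : Matrix n n (MonoidAlgebra ℤ B) => A.exists_supp (N * A.φ.mapMatrix X)
  let T := (S.biUnion T0).filter fun γ => γ ≠ 1 ∧ ν γ ≠ 0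
  have hT' : ∀ γ, γ ≠ 1 → γ ∉ T → ν γ = 0 := fun γ h1 h2 => by
    by_contra h3
    refine h3 (AddMonoidHom.ext fun X => ?_)
    have hX : X ∈ Submodule.span ℤ (S : Set _) := hS ▸ Submodule.mem_top
    induction hX using Submodule.span_induction with
    | mem X hX =>
      exact hT0 X γ fun h => h2 (Finset.mem_filter.2 ⟨Finset.mem_biUnion.2 ⟨X, hX, h⟩, h1, h3⟩)
    | zero => simp
    | add a b _ _ p q => rw [map_add, p, q]; simp
    | smul a b _ p => rw [map_zsmul, p]; simp
  have h1T : (1 : CoprodI G) ∉ T := fun h => (Finset.mem_filter.1 h).2.1 rfl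
  have hout : ∀ γ, γ ∉ insert 1 T → ν γ = 0 := fun γ h =>
    hT' γ (fun e => h (e ▸ Finset.mem_insert_self _ _)) fun e => h (Finset.mem_insert_of_mem e)
  have hexp : ∀ X, N * A.φ.mapMatrix X = ∑ γ ∈ insert 1 T, A.φ.mapMatrix (ν γ X) * A.sc γ :=
    fun X => A.expand _ _ fun γ h => by rw [← hν, hout γ h]; rfl
  have hsum : ∀ X, ν 1 X = -∑ γ ∈ T, ν γ X := fun X => by
    have := congrArg A.ag.mapMatrix (hexp X)
    rw [map_mul, hb, zero_mul, map_sum, Finset.sum_congr rfl (g := fun γ => ν γ X) fun γ _ => by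
      ext1 p q
      simp [sc, ag_φ, show A.ag (single (A.j γ) 1) = 1 by simp [ag, A.πj, MonoidAlgebra.one_def]],
      Finset.sum_insert h1T] at this
    exact eq_neg_of_add_eq_zero_left this.symm
  have hmul : ∀ v Y, A.co v (N * Y) = ∑ γ ∈ insert 1 T, ν γ (A.co (γ⁻¹ * v) Y) := fun v Y => by
    obtain ⟨T', h'⟩ := A.exists_supp Y
    rw [A.expand Y T' h']
    simp only [Finset.mul_sum, map_sum]
    rw [Finset.sum_comm]
    refine Finset.sum_congr rfl fun w _ => ?_
    rw [← mul_assoc, co_sc, ← hν, Finset.sum_eq_single (v * w⁻¹) (fun γ _ h => by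
      rw [co_term, if_neg fun e => h (by rw [← e]; group), map_zero])
      fun h => by rw [hout _ h]; rfl, co_term, if_pos (by group)]
  obtain ⟨TU, hTU⟩ := A.exists_supp U
  have key := rec_nil (ν := ν) T hT' (fun γ hγ => by
      obtain ⟨-, h1, h2⟩ := Finset.mem_filter.1 hγ
      by_contra h3
      refine h2 (AddMonoidHom.ext fun X => ?_)
      ext1 p q
      by_contra h4
      obtain ⟨g, rfl⟩ := hrow γ X p q h4
      exact h3 ⟨_, g, fun e => h1 (by rw [e, map_one]), rfl⟩)
    (fun c g x hg hx X => by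
      ext1 p r
      by_contra h0
      obtain ⟨g', e1⟩ := hrow _ _ p r h0
      refine h0 ?_
      change A.cw _ ((N * A.φ.mapMatrix (ν (CoprodI.of x) X)) p r) = 0
      rw [Matrix.mul_apply, Finset.sum_eq_zero fun q _ => ?_, map_zero]
      by_cases h2 : ν (CoprodI.of x) X q r = 0
      · simp [h2]
      · obtain ⟨x', e2⟩ := hrow _ _ q r h2
        rw [hc p q ((col_unique hg e1).symm.trans (col_unique hx e2)), zero_mul])
    (fun w => A.co w U) 1 (TU.sup len) (fun w hw => hTU w fun h => by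
      have := Finset.le_sup (f := len) h
      omega)
    fun w => by
      have e : U = 1 + N * U := by rw [← hU, sub_mul, one_mul, sub_add_cancel]
      conv_lhs => rw [e, map_add, co_one, hmul, Finset.sum_insert h1T, hsum]
      simp only [map_sub, Finset.sum_sub_distrib, inv_one, one_mul]
      abel
  have hN : ∀ j, ∀ X ∈ Vn ν (j + 1), -N * A.φ.mapMatrix X ∈ Rg A.φ (Vn ν j) := fun j X hX => by
    rw [neg_mul, hexp]
    refine neg_mem (sum_mem fun γ _ => Submodule.subset_span ⟨_, ?_, _, rfl⟩)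
    by_cases h : γ = 1
    · rw [h, hsum]
      exact neg_mem (sum_mem fun γ hγ => mem_Vn.1 hX γ (Finset.mem_filter.1 hγ).2.1)
    · exact mem_Vn.1 hX γ h
  rw [sub_eq_add_neg]
  exact (chain_torsR A.φ c _ (Vn ν) rfl Vn_mono _ (by simpa using hN _ _ key) hN).2

theorem ε_single (b : B) (w : CoprodI G) (a : ℤ) :
    A.ε (single (A.s b * A.j w) a) = single (A.s b * A.j 1) a := by
  simp [ε, A.πs, A.πj]

theorem e_single (i : K) (b : B) (w : CoprodI G) (a : ℤ) :
    A.e i (single (A.s b * A.j w) a) = single (A.s b * A.j (CoprodI.of (retr i w))) a := by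
  simp only [e, mapDomainRingHom_apply, mapDomain_single, A.hf]

theorem ext {S : Type} [Ring S] {f g : MonoidAlgebra ℤ Γ →+* S}
    (h : ∀ b w a, f (single (A.s b * A.j w) a) = g (single (A.s b * A.j w) a))
    (x : MonoidAlgebra ℤ Γ) : f x = g x :=
  hom_ext3 (fun γ a => by
    obtain ⟨b, w, rfl⟩ := A.surj γ
    exact h b w a) x

theorem εε (x : MonoidAlgebra ℤ Γ) : A.ε (A.ε x) = A.ε x :=
  A.ext (f := A.ε.comp A.ε) (fun b w a => by simp only [RingHom.comp_apply, ε_single]) x

theorem eε (i : K) (x : MonoidAlgebra ℤ Γ) : A.e i (A.ε x) = A.ε x :=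
  A.ext (f := (A.e i).comp A.ε) (fun b w a => by
    simp only [RingHom.comp_apply, ε_single, e_single, map_one (retr _), map_one CoprodI.of]) x

theorem εe (i : K) (x : MonoidAlgebra ℤ Γ) : A.ε (A.e i x) = A.ε x :=
  A.ext (f := A.ε.comp (A.e i)) (fun b w a => by
    simp only [RingHom.comp_apply, ε_single, e_single]) x

theorem ee (i : K) (x : MonoidAlgebra ℤ Γ) : A.e i (A.e i x) = A.e i x :=
  A.ext (f := (A.e i).comp (A.e i)) (fun b w a => by
    simp only [RingHom.comp_apply, e_single, retr_same]) x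

theorem ee' {i k : K} (h : i ≠ k) (x : MonoidAlgebra ℤ Γ) : A.e k (A.e i x) = A.ε x :=
  A.ext (f := (A.e k).comp (A.e i)) (fun b w a => by
    simp only [RingHom.comp_apply, e_single, ε_single, retr_ne h, map_one]) x

theorem φ_ag (x : MonoidAlgebra ℤ Γ) : A.φ (A.ag x) = A.ε x :=
  hom_ext3 (f := A.φ.comp A.ag) (fun x a => by simp [φ, ag, ε]) x

variable [Fintype K] [Finite B]

theorem tors (c : Inv (MonoidAlgebra ℤ Γ) W)
    (h0 : ∀ (n : Type) [Fintype n] [DecidableEq n] (M : Matrix n n (MonoidAlgebra ℤ Γ)),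
      IsUnit M → c.c (M.map A.ε) = 0)
    (h1 : ∀ i (n : Type) [Fintype n] [DecidableEq n] (M : Matrix n n (MonoidAlgebra ℤ Γ)),
      IsUnit M → c.c (M.map (A.e i)) = 0)
    {M : Matrix n n (MonoidAlgebra ℤ Γ)} (hM : IsUnit M) : IsOfFinAddOrder (c.c M) := by
  let S : Submodule ℤ (MonoidAlgebra ℤ Γ) :=
    { carrier := {x | x = A.ε x + ∑ k, (A.e k x - A.ε x)}
      zero_mem' := by simp
      add_mem' := fun {a b} ha hb => by
        change a = _ at ha
        change b = _ at hb
        change a + b = _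
        conv_lhs => rw [ha, hb]
        simp only [map_add, Finset.sum_sub_distrib, Finset.sum_add_distrib]
        abel
      smul_mem' := fun k a ha => by
        change a = _ at ha
        change k • a = _
        conv_lhs => rw [ha]
        simp only [map_zsmul, smul_add, Finset.smul_sum, smul_sub] }
  have s2 : ∀ i b (g : G i) (a : ℤ), MonoidAlgebra.single (A.s b * A.j (CoprodI.of g)) a ∈ S := by
    intro i b g a
    change _ = _
    rw [Finset.sum_eq_single i (fun k _ hk => by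
      rw [e_single, ε_single, retr_ne hk.symm, map_one CoprodI.of, sub_self]) (by simp), e_single,
      retr_same, add_sub_cancel]
  have s0 : ∀ b (a : ℤ), MonoidAlgebra.single (A.s b * A.j 1) a ∈ S := fun b a => by
    change _ = _
    simp only [e_single, ε_single, map_one (retr _), map_one CoprodI.of, sub_self,
      Finset.sum_const_zero, add_zero]
  have s1 : (1 : MonoidAlgebra ℤ Γ) ∈ S := by simpa [MonoidAlgebra.one_def] using s0 1 1
  have s3 : ∀ w : CoprodI G, ∃ k, MonoidAlgebra.single (A.j w) (1 : ℤ) ∈ S ^ k := fun g => by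
    induction g using CoprodI.induction_left with
    | one => exact ⟨1, by rw [pow_one, map_one]; exact s1⟩
    | mul m x ih =>
      obtain ⟨k, hk⟩ := ih
      refine ⟨k + 1, ?_⟩
      rw [pow_succ', ← mul_one (1 : ℤ), map_mul, ← single_mul_single]
      exact Submodule.mul_mem_mul (by simpa using s2 _ 1 m 1) hk
  let d := c.map (QuotientAddGroup.mk' (AddCommGroup.torsion W))
  have hd : ∀ {n : Type} (M : Matrix n n (MonoidAlgebra ℤ Γ)),
      d.c M = 0 ↔ IsOfFinAddOrder (c.c M) := fun M => QuotientAddGroup.eq_zero_iff _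
  refine (hd M).1 (higman d S s1 (fun x => ?_) (fun n _ _ M hM hS => block_step d A.e A.ε A.εε A.eε
    (fun n _ _ M hM => (hd _).2 (h0 n M hM ▸ .zero))
    (fun i n _ _ M hM => (hd _).2 (h1 i n M hM ▸ .zero))
    (fun n _ _ col N g1 g2 g3 => (hd _).2 (A.coloured c col N (fun p q => ?_) ?_ g2 g3)) hM hS) hM)
  · induction x using MonoidAlgebra.induction_linear with
    | zero => exact ⟨0, zero_mem _⟩
    | add a b ha hb =>
      obtain ⟨k, hk⟩ := ha
      obtain ⟨l, hl⟩ := hb
      exact ⟨max k l, add_mem (pow_mono s1 (le_max_left _ _) hk) (pow_mono s1 (le_max_right _ _) hl)⟩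
    | single g a =>
      obtain ⟨b, w, rfl⟩ := A.surj g
      obtain ⟨k, hk⟩ := s3 w
      refine ⟨k + 1, ?_⟩
      rw [pow_succ', ← mul_one a, ← single_mul_single]
      exact Submodule.mul_mem_mul (by simpa using s0 b a) hk
  · obtain ⟨x, hx⟩ := g1 p q
    rw [hx, map_sub, ee, eε]
  · ext1 p q
    obtain ⟨x, hx⟩ := g1 p q
    change A.ag (N p q) = 0
    rw [← A.ag_φ (A.ag _), φ_ag, hx, map_sub, εe, εε, sub_self, map_zero]

theorem split (c : Inv (MonoidAlgebra ℤ Γ) W) {M : Matrix n n (MonoidAlgebra ℤ Γ)}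
    (hM : IsUnit M) : IsOfFinAddOrder (c.c M - (c.c (M.map A.ε) +
      ∑ i, (c.c (M.map (A.e i)) - c.c (M.map A.ε)))) := by
  let d : Inv (MonoidAlgebra ℤ Γ) W :=
    { c := fun M => c.c M - ((c.pull A.ε).c M + ∑ i, ((c.pull (A.e i)).c M - (c.pull A.ε).c M))
      mul := fun hA hB => by
        simp only [c.mul hA hB, (c.pull _).mul hA hB, Finset.sum_sub_distrib,
          Finset.sum_add_distrib]
        abel
      sub := fun e _ hA => by simp only [c.sub e hA, (c.pull _).sub e hA]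
      stab := fun hA => by simp only [c.stab hA, (c.pull _).stab hA] }
  have m : ∀ {f g h : MonoidAlgebra ℤ Γ →+* MonoidAlgebra ℤ Γ}, (∀ x, g (f x) = h x) →
      ∀ {n : Type} (M : Matrix n n (MonoidAlgebra ℤ Γ)), (M.map f).map g = M.map h := by
    intro f g h hh n M
    ext1 i j
    exact hh _
  refine A.tors d (fun n _ _ M _ => ?_) (fun i n _ _ M _ => ?_) hM
  · change c.c _ - (c.c ((M.map A.ε).map A.ε) + ∑ i,
      (c.c ((M.map A.ε).map (A.e i)) - c.c ((M.map A.ε).map A.ε))) = 0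
    rw [m A.εε, Finset.sum_eq_zero fun j _ => by rw [m (A.eε j), sub_self]]
    simp
  · change c.c _ - (c.c ((M.map (A.e i)).map A.ε) + ∑ j,
      (c.c ((M.map (A.e i)).map (A.e j)) - c.c ((M.map (A.e i)).map A.ε))) = 0
    rw [m (A.εe i), Finset.sum_eq_single i
      (fun j _ hj => by rw [m (A.ee' hj.symm), sub_self]) (by simp), m (A.ee i)]
    simp

theorem negCl {C : K → Type} [∀ i, Group (C i)] (h : ∀ i, NegCl (C i)) (r : ∀ i, Γ →* C i)
    (g : ∀ i, C i →* Γ) (hf : ∀ i, A.f i = (g i).comp (r i)) : NegCl Γ := by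
  rintro W _ c _ ⟨ι, _, _, x, h1, h2, rfl⟩
  have k0 : c.c ((jac x).map A.ε) ∈ symm c := (NegCl.finite B).via c _ _ h1 h2
  have k1 : ∀ i, c.c ((jac x).map (A.e i)) ∈ symm c := fun i => by
    rw [e, hf]
    exact (h i).via c _ _ h1 h2
  obtain ⟨k, hk, hz⟩ := isOfFinAddOrder_iff_nsmul_eq_zero.1 (A.split c h2)
  rw [nsmul_sub, sub_eq_zero] at hz
  refine neg_mem_of hk ⟨ι, _, _, x, h1, h2, rfl⟩ ?_
  rw [hz]
  exact ((symm c).nsmul_mem (add_mem k0 (sum_mem fun i _ => sub_mem (k1 i) k0)) k).2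

end Amal

section Pushout

variable {K B : Type} {G : K → Type} [∀ i, Group (G i)] [Group B] (φ : ∀ i, B →* G i)
  (ρ : ∀ i, G i →* B) (h : ∀ i b, ρ i (φ i b) = b)

/-- Conjugation of the kernel of a retraction. -/
def cj (i : K) (b : B) : (ρ i).ker →* (ρ i).ker :=
  (MulAut.conjNormal (φ i b) : MulAut (ρ i).ker).toMonoidHom

def cjI (b : B) : CoprodI (fun i => (ρ i).ker) →* CoprodI fun i => (ρ i).ker :=
  CoprodI.lift fun i => CoprodI.of.comp (cj φ ρ i b)

theorem cjI_mul (b b' : B) (w : CoprodI fun i => (ρ i).ker) :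
    cjI φ ρ (b * b') w = cjI φ ρ b (cjI φ ρ b' w) := by
  refine DFunLike.congr_fun (CoprodI.ext_hom _ ((cjI φ ρ b).comp (cjI φ ρ b')) fun i => ?_) w
  ext k
  simp [cjI, cj]

theorem cjI_one (w : CoprodI fun i => (ρ i).ker) : cjI φ ρ 1 w = w := by
  refine DFunLike.congr_fun (CoprodI.ext_hom _ (MonoidHom.id _) fun i => ?_) w
  ext k
  simp [cjI, cj]

def act : B →* MulAut (CoprodI fun i => (ρ i).ker) :=
  MonoidHom.mk' (fun b => (cjI φ ρ b).toMulEquiv (cjI φ ρ b⁻¹)
    (MonoidHom.ext fun w => by simp [← cjI_mul, cjI_one])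
    (MonoidHom.ext fun w => by simp [← cjI_mul, cjI_one]))
    fun b b' => MulEquiv.ext (cjI_mul φ ρ b b')

theorem act_of (b : B) {i : K} (k : (ρ i).ker) :
    act φ ρ b (CoprodI.of (i := i) k) = CoprodI.of (i := i) (cj φ ρ i b k) := by
  change cjI φ ρ b (CoprodI.of (i := i) k) = _
  simp [cjI]

def jj : CoprodI (fun i => (ρ i).ker) →* PushoutI φ :=
  CoprodI.lift fun i => (PushoutI.of i).comp (ρ i).ker.subtype

include h

def kp (i : K) (g : G i) : (ρ i).ker := ⟨g * (φ i (ρ i g))⁻¹, by simp [h]⟩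

def toSemi : PushoutI φ →* CoprodI (fun i => (ρ i).ker) ⋊[act φ ρ] B :=
  PushoutI.lift (fun i => MonoidHom.mk' (fun g => ⟨CoprodI.of (i := i) (kp φ ρ h i g), ρ i g⟩)
    fun g g' => by
      ext
      · rw [SemidirectProduct.mul_left, act_of, ← map_mul]
        exact congrArg (CoprodI.of (M := fun i => (ρ i).ker) (i := i))
          (Subtype.ext (by simp [kp, cj, mul_assoc]))
      · simp)
    SemidirectProduct.inr fun i => by
      ext b
      · simp [show kp φ ρ h i (φ i b) = 1 from Subtype.ext (by simp [kp, h])]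
      · simp [h]

theorem toSemi_jj (w : CoprodI fun i => (ρ i).ker) :
    toSemi φ ρ h (jj φ ρ w) = SemidirectProduct.inl w := by
  refine DFunLike.congr_fun (CoprodI.ext_hom ((toSemi φ ρ h).comp (jj φ ρ)) _ fun i => ?_) w
  ext k
  · simp [toSemi, jj, show kp φ ρ h i k = k from Subtype.ext (by simp [kp, show ρ i k = 1 from k.2])]
  · simp [toSemi, jj, show ρ i k = 1 from k.2]

omit h in
theorem jj_cj (b : B) (w : CoprodI fun i => (ρ i).ker) :
    jj φ ρ w * PushoutI.base φ b = PushoutI.base φ b * jj φ ρ (cjI φ ρ b⁻¹ w) := by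
  induction w using CoprodI.induction_on with
  | one => simp
  | of i k => simp [jj, cjI, cj, ← PushoutI.of_apply_eq_base φ i, mul_assoc]
  | mul x y p q => rw [map_mul, mul_assoc, q, ← mul_assoc, p, map_mul, map_mul, mul_assoc]

def rr (i : K) : PushoutI φ →* G i :=
  PushoutI.lift (fun k => if e : k = i then e ▸ MonoidHom.id (G k) else (φ i).comp (ρ k)) (φ i)
    fun k => by
      split_ifs with e
      · subst e; rfl
      · ext b; simp [h]

def amal : Amal (PushoutI φ) B fun i => (ρ i).ker where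
  s := PushoutI.base φ
  j := jj φ ρ
  π := SemidirectProduct.rightHom.comp (toSemi φ ρ h)
  πs b := by simp [toSemi]
  πj w := by simp [toSemi_jj]
  inj a b e := SemidirectProduct.inl_injective
    ((toSemi_jj φ ρ h a).symm.trans ((congrArg _ e).trans (toSemi_jj φ ρ h b)))
  surj γ := by
    induction γ using PushoutI.induction_on with
    | of i g =>
      refine ⟨ρ i g, CoprodI.of (i := i) (⟨(φ i (ρ i g))⁻¹ * g, by simp [h]⟩ : (ρ i).ker), ?_⟩
      simp [jj, ← PushoutI.of_apply_eq_base φ i]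
    | base b => exact ⟨b, 1, by simp⟩
    | mul x y p q =>
      obtain ⟨b, w, rfl⟩ := p
      obtain ⟨b', w', rfl⟩ := q
      refine ⟨b * b', cjI φ ρ b'⁻¹ w * w', ?_⟩
      rw [mul_assoc, ← mul_assoc (jj φ ρ w), jj_cj]
      simp only [map_mul, mul_assoc]
  f i := (PushoutI.of i).comp (rr φ ρ h i)
  hf i b w := by
    rw [map_mul]
    congr 1
    · simp [rr, PushoutI.of_apply_eq_base]
    · refine DFunLike.congr_fun (CoprodI.ext_hom (((PushoutI.of i).comp (rr φ ρ h i)).comp (jj φ ρ))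
        ((jj φ ρ).comp (CoprodI.of.comp (retr i))) fun k => ?_) w
      ext x
      by_cases e : k = i
      · subst e
        simp [rr, jj, retr_same]
      · simp [rr, jj, retr_ne e, e, show ρ k x = 1 from x.2]

theorem NegCl.pushoutI [Finite K] [Finite B] (hG : ∀ i, NegCl (G i)) : NegCl (PushoutI φ) :=
  have := Fintype.ofFinite K
  (amal φ ρ h).negCl hG (rr φ ρ h) PushoutI.of fun _ => rfl

end Pushout

end Pool.Agent.Lib.MP_2add11_gt.IG
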