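import Pool.Agent.Lib.MP_2add11_gt.IG.ProdFree

/-!
Unipotent matrices that lower a chain of right ideals of matrices over the integral group ring of
a finite group have classes of finite order; a nilpotence recursion along a free product.
-/

noncomputable section

namespace Pool.Agent.Lib.MP_2add11_gt.IG

open Matrix MonoidAlgebra Monoid FG

section Chain

variable {F S W n : Type} [Group F] [Finite F] [Ring S] [AddCommGroup W] [Fintype n]
  [DecidableEq n]

theorem exists_projR (J : Set (Matrix n n (MonoidAlgebra ℤ F))) :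
    ∃ (d : ℕ) (E : Matrix n n (MonoidAlgebra ℤ F)), 0 < d ∧ (∀ X ∈ J, E * X = (d : ℤ) • X) ∧
      E ∈ Submodule.span ℤ J * ⊤ := by
  have : NeZero (Nat.card F : ℚ) := ⟨by exact_mod_cast Nat.card_pos.ne'⟩
  let ι := (mapRingHom F (Int.castRingHom ℚ)).mapMatrix (m := n)
  have inj : Function.Injective ι := fun A B h => by
    ext i j g
    have := congrArg (fun Z => (Z i j).coeff g) h
    simpa [ι] using this
  have := Fintype.ofFinite F
  have den : ∀ e, ∃ (d : ℕ) (D : Matrix n n (MonoidAlgebra ℤ F)), 0 < d ∧ ι D = (d : ℤ) • e := by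
    intro e
    let d : ℕ := ∏ x : n × n × F, ((e x.1 x.2.1).coeff x.2.2).den
    refine ⟨d, .of fun i j => .ofCoeff (Finsupp.equivFunOnFinite.symm
      fun g => (d / ((e i j).coeff g).den : ℕ) * ((e i j).coeff g).num),
      Finset.prod_pos fun x _ => Rat.den_pos _, ?_⟩
    ext i j g
    obtain ⟨q, hq⟩ := Finset.dvd_prod_of_mem
      (fun x : n × n × F => ((e x.1 x.2.1).coeff x.2.2).den) (Finset.mem_univ (i, j, g))
    have hq' : d = ((e i j).coeff g).den * q := hq
    simp only [ι, RingHom.mapMatrix_apply, map_apply, Matrix.of_apply, coeff_mapRingHom,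
      Matrix.smul_apply, coeff_smul_apply, Finsupp.equivFunOnFinite_symm_apply_apply, eq_intCast]
    rw [hq', Nat.mul_div_cancel_left _ ((e i j).coeff g).den_pos, zsmul_eq_mul]
    push_cast
    rw [mul_right_comm, Rat.den_mul_eq_num, mul_comm]
  obtain ⟨e, he, hI⟩ := IsSemisimpleRing.ideal_eq_span_idempotent
    (Ideal.span ((fun X => MulOpposite.op (ι X)) '' J))
  have key : ∀ a ∈ Ideal.span ((fun X => MulOpposite.op (ι X)) '' J), ∃ d : ℕ, 0 < d ∧
      ∃ E ∈ Submodule.span ℤ J * ⊤, ι E = (d : ℤ) • a.unop := fun a ha => by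
    induction ha using Submodule.span_induction with
    | mem a ha =>
      obtain ⟨X, hX, rfl⟩ := ha
      exact ⟨1, one_pos, X * 1, Submodule.mul_mem_mul (Submodule.subset_span hX) trivial, by simp⟩
    | zero => exact ⟨1, one_pos, 0, zero_mem _, by simp⟩
    | add a b _ _ p q =>
      obtain ⟨d, hd, E, h1, h2⟩ := p
      obtain ⟨d', hd', E', h1', h2'⟩ := q
      refine ⟨d * d', mul_pos hd hd', (d' : ℤ) • E + (d : ℤ) • E',
        add_mem (Submodule.smul_mem _ _ h1) (Submodule.smul_mem _ _ h1'), ?_⟩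
      rw [map_add, map_zsmul, map_zsmul, h2, h2', smul_smul, smul_smul, MulOpposite.unop_add,
        smul_add, Nat.cast_mul, mul_comm]
    | smul a b _ p =>
      obtain ⟨d, hd, E, h1, h2⟩ := p
      obtain ⟨d', D, hd', h3⟩ := den a.unop
      refine ⟨d * d', mul_pos hd hd', E * D, ?_, ?_⟩
      · refine Submodule.mul_induction_on h1 (fun x hx y _ => ?_) fun x y p q => by
          rw [add_mul]; exact add_mem p q
        rw [mul_assoc]
        exact Submodule.mul_mem_mul hx trivial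
      · rw [map_mul, h2, h3, smul_eq_mul, MulOpposite.unop_mul, smul_mul_smul_comm, Nat.cast_mul]
  obtain ⟨d, hd, E, h1, h2⟩ := key e (hI ▸ Ideal.subset_span rfl)
  refine ⟨d, E, hd, fun X hX => inj ?_, h1⟩
  have h3 : MulOpposite.op (ι X) ∈ Ideal.span ((fun X => MulOpposite.op (ι X)) '' J) :=
    Ideal.subset_span ⟨X, hX, rfl⟩
  obtain ⟨a, ha⟩ := Ideal.mem_span_singleton'.1 (hI ▸ h3)
  have h4 : ι X = e.unop * a.unop := (congrArg MulOpposite.unop ha).symm
  have h5 : e.unop * e.unop = e.unop := congrArg MulOpposite.unop he.eq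
  rw [map_mul, h2, map_zsmul, smul_mul_assoc, h4, ← mul_assoc, h5]

variable (φ : MonoidAlgebra ℤ F →+* S)

/-- The right ideal generated by the image of a group of matrices. -/
def Rg (V : AddSubgroup (Matrix n n (MonoidAlgebra ℤ F))) : Submodule ℤ (Matrix n n S) :=
  .span ℤ {Y | ∃ X ∈ V, ∃ s, Y = φ.mapMatrix X * s}

omit [Finite F] in
theorem Rg_mul {V : AddSubgroup (Matrix n n (MonoidAlgebra ℤ F))} {Y : Matrix n n S}
    (h : Y ∈ Rg φ V) (s : Matrix n n S) : Y * s ∈ Rg φ V := by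
  induction h using Submodule.span_induction with
  | mem Y hY =>
    obtain ⟨X, hX, t, rfl⟩ := hY
    exact Submodule.subset_span ⟨X, hX, t * s, mul_assoc _ _ _⟩
  | zero => simp
  | add a b _ _ p q => rw [add_mul]; exact add_mem p q
  | smul a b _ p => rw [smul_mul_assoc]; exact Submodule.smul_mem _ _ p

omit [Finite F] in
theorem Rg_left {V V' : AddSubgroup (Matrix n n (MonoidAlgebra ℤ F))} {Z : Matrix n n S}
    (hZ : ∀ X ∈ V, Z * φ.mapMatrix X ∈ Rg φ V') {Y : Matrix n n S} (h : Y ∈ Rg φ V) :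
    Z * Y ∈ Rg φ V' := by
  induction h using Submodule.span_induction with
  | mem Y hY =>
    obtain ⟨X, hX, t, rfl⟩ := hY
    rw [← mul_assoc]
    exact Rg_mul φ (hZ X hX) t
  | zero => simp
  | add a b _ _ p q => rw [mul_add]; exact add_mem p q
  | smul a b _ p => rw [mul_smul_comm]; exact Submodule.smul_mem _ _ p

omit [Finite F] in
theorem Rg_bot {Z : Matrix n n S} (h : Z ∈ Rg φ ⊥) : Z = 0 := by
  rw [← Submodule.mem_bot ℤ]
  refine Submodule.span_le.2 ?_ h
  rintro _ ⟨X, hX, s, rfl⟩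
  simp [AddSubgroup.mem_bot.1 hX]

theorem chain_torsR (c : Inv S W) (m : ℕ) :
    ∀ V : ℕ → AddSubgroup (Matrix n n (MonoidAlgebra ℤ F)), V 0 = ⊥ → (∀ j, V j ≤ V (j + 1)) →
      ∀ Z ∈ Rg φ (V m), (∀ j, ∀ X ∈ V (j + 1), Z * φ.mapMatrix X ∈ Rg φ (V j)) →
        IsUnit (1 + Z) ∧ IsOfFinAddOrder (c.c (1 + Z)) := by
  induction m with
  | zero =>
    intro V h _ Z hZ _
    rw [Rg_bot φ (Z := Z) (h ▸ hZ), add_zero, c.one]
    exact ⟨isUnit_one, .zero⟩
  | succ m ih =>
    intro V h0 hm Z hZ hZ'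
    let T : Submodule ℤ (Matrix n n S) :=
      { carrier := {Z | Z ∈ Rg φ (V (m + 1)) ∧
          ∀ j, ∀ X ∈ V (j + 1), Z * φ.mapMatrix X ∈ Rg φ (V j)}
        zero_mem' := ⟨zero_mem _, fun _ _ _ => by simp⟩
        add_mem' := fun p q => ⟨add_mem p.1 q.1, fun j X hX => by
          rw [add_mul]; exact add_mem (p.2 j X hX) (q.2 j X hX)⟩
        smul_mem' := fun a b p => ⟨Submodule.smul_mem _ _ p.1, fun j X hX => by
          rw [smul_mul_assoc]; exact Submodule.smul_mem _ _ (p.2 j X hX)⟩ }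
    have h1 : ∀ j, ∀ Y ∈ Rg φ (V j), Z * Y ∈ Rg φ (V j) := fun j Y hY =>
      Rg_left φ (fun X hX => hZ' j X (hm j hX)) hY
    have h2 : ∀ k, Z ^ (k + 1) ∈ T := fun k => by
      induction k with
      | zero => simpa using ⟨hZ, hZ'⟩
      | succ k ih =>
        rw [pow_succ']
        exact ⟨Rg_mul φ hZ _, fun j X hX => by rw [mul_assoc]; exact h1 j _ (ih.2 j X hX)⟩
    have h3 : ∀ k, ∀ Y ∈ Rg φ (V k), Z ^ k * Y = 0 := fun k => by
      induction k with
      | zero => exact fun Y hY => by rw [Rg_bot φ (Z := Y) (h0 ▸ hY), mul_zero]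
      | succ k ih =>
        intro Y hY
        rw [pow_succ, mul_assoc]
        exact ih _ (Rg_left φ (hZ' k) hY)
    have h4 : Z ^ (m + 1 + 1) = 0 := (pow_succ _ _).trans (h3 _ _ hZ)
    have hu : IsUnit (1 + Z) := IsNilpotent.isUnit_one_add ⟨_, h4⟩
    obtain ⟨d, E, hd, hE, hE'⟩ := exists_projR (V 1 : Set (Matrix n n (MonoidAlgebra ℤ F)))
    obtain ⟨q, hq, Z', hT, e⟩ := pow_cong h2 h4 hd
    let D := (d : ℤ) • 1 - E
    have h5 : Z' * φ.mapMatrix D = (d : ℤ) • Z' := by
      have : Z' * φ.mapMatrix E = 0 := by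
        refine Submodule.mul_induction_on hE' (fun a ha b _ => ?_) fun a b p q => by
          rw [map_add, mul_add, p, q, add_zero]
        have := hT.2 0 a ((Submodule.span_le (p := (V 1).toIntSubmodule)).2 subset_rfl ha)
        rw [h0] at this
        rw [map_mul, ← mul_assoc, Rg_bot φ this, zero_mul]
      rw [map_sub, map_zsmul, map_one, mul_sub, this, sub_zero, mul_smul_comm, mul_one]
    have h6 : ∀ j, ∀ Y ∈ Rg φ (V j), φ.mapMatrix D * Y ∈
        Rg φ ((V j).map (AddMonoidHom.mulLeft D)) := fun j Y hY =>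
      Rg_left φ (fun X hX => Submodule.subset_span
        ⟨D * X, AddSubgroup.mem_map.2 ⟨X, hX, rfl⟩, 1, by simp⟩) hY
    obtain ⟨h8, h9⟩ := ih (fun j => (V (j + 1)).map (AddMonoidHom.mulLeft D))
      (eq_bot_iff.2 (by
        rintro _ ⟨X, hX, rfl⟩
        change D * X = 0
        rw [sub_mul, hE X hX, smul_mul_assoc, one_mul, sub_self]))
      (fun j => AddSubgroup.map_mono (hm _)) _ (h6 _ _ hT.1) (by
        rintro j _ ⟨X, hX, rfl⟩
        change _ * φ.mapMatrix (D * X) ∈ _
        rw [map_mul, mul_assoc, ← mul_assoc Z', h5, smul_mul_assoc]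
        exact h6 _ _ (Submodule.smul_mem _ _ (hT.2 _ X hX)))
    rw [← c.one_add_swap h8, h5, ← e, c.pow hu] at h9
    exact ⟨hu, (isOfFinAddOrder_nsmul.1 h9).resolve_right hq.ne'⟩

end Chain

section Rec

variable {K M : Type} {G : K → Type} [∀ i, Group (G i)] [AddCommGroup M]

/-- The elements killed by all `j`-fold composites of the maps `ν γ`, `γ ≠ 1`. -/
def Vn (ν : CoprodI G → M →+ M) : ℕ → AddSubgroup M
  | 0 => ⊥
  | j + 1 => ⨅ γ, ⨅ _ : γ ≠ 1, (Vn ν j).comap (ν γ)

variable {ν : CoprodI G → M →+ M}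

theorem mem_Vn {j : ℕ} {X : M} : X ∈ Vn ν (j + 1) ↔ ∀ γ, γ ≠ 1 → ν γ X ∈ Vn ν j := by
  simp [Vn, AddSubgroup.mem_iInf]

theorem Vn_mono (j : ℕ) : Vn ν j ≤ Vn ν (j + 1) := by
  induction j with
  | zero => exact bot_le
  | succ j ih => exact fun X hX => mem_Vn.2 fun γ h => ih (mem_Vn.1 hX γ h)

theorem Vn_left {j : ℕ} {X : M} (hX : X ∈ Vn ν j) {γ : CoprodI G} (h : γ ≠ 1) :
    ν γ X ∈ Vn ν j := mem_Vn.1 (Vn_mono j hX) γ h

open Classical in
theorem rec_nil (T : Finset (CoprodI G)) (hT' : ∀ γ, γ ≠ 1 → γ ∉ T → ν γ = 0)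
    (hlet : ∀ γ ∈ T, ∃ (c : K) (g : G c), g ≠ 1 ∧ γ = CoprodI.of g)
    (hzero : ∀ (c : K) (g x : G c), g ≠ 1 → x ≠ 1 → ∀ X,
      ν (CoprodI.of g) (ν (CoprodI.of x) X) = 0)
    (U : CoprodI G → M) (o : M) (L : ℕ) (hL : ∀ w, L < len w → U w = 0)
    (hrec : ∀ w, U w = (if w = 1 then o else 0) + ∑ γ ∈ T, ν γ (U (γ⁻¹ * w) - U w)) :
    o ∈ Vn ν (L + 1) := by
  have hne : ∀ {c : K} {g : G c}, g ≠ 1 → (CoprodI.of g : CoprodI G) ≠ 1 := fun hg e =>
    hg (CoprodI.of_injective _ (by rw [e, map_one]))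
  have hT : ∀ γ ∈ T, γ ≠ 1 := fun γ h => by
    obtain ⟨c, g, hg, rfl⟩ := hlet γ h
    exact hne hg
  have key : ∀ j w, L < len w + j → U w ∈ Vn ν j := fun j => by
    induction j with
    | zero =>
      intro w hw
      rw [hL w hw]
      exact zero_mem _
    | succ j ih =>
      intro w hw
      have ih' : ∀ v, len w < len v → U v ∈ Vn ν j := fun v hv => ih v (by omega)
      have cA : ∀ (c : K), (∀ x : G c, x ≠ 1 → len w < len (CoprodI.of x * w)) →
          ∀ g : G c, g ≠ 1 → ν (CoprodI.of g) (U w) ∈ Vn ν j := fun c hcw g hg => by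
        by_cases hgT : CoprodI.of g ∈ T
        swap
        · rw [hT' _ (hne hg) hgT]
          exact zero_mem _
        have h1 := hcw g hg
        have h2 := ih' _ h1
        have h3 := hrec (CoprodI.of g * w)
        rw [if_neg (fun e => by rw [e, len_one] at h1; omega), zero_add,
          ← Finset.add_sum_erase _ _ hgT, inv_mul_cancel_left, map_sub] at h3
        have h4 : ∑ γ ∈ T.erase (CoprodI.of g), ν γ
            (U (γ⁻¹ * (CoprodI.of g * w)) - U (CoprodI.of g * w)) ∈ Vn ν j := by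
          refine sum_mem fun γ hγ => ?_
          obtain ⟨h5, h6⟩ := Finset.mem_erase.1 hγ
          refine Vn_left (sub_mem (ih' _ ?_) h2) (hT γ h6)
          obtain ⟨c', x, hx, rfl⟩ := hlet γ h6
          by_cases e : c' = c
          · subst e
            rw [← mul_assoc, ← map_inv, ← map_mul]
            exact hcw _ fun e => h5 (by rw [inv_mul_eq_one.1 e])
          · rw [← map_inv]
            exact h1.trans (len_second hg h1 e (inv_ne_one.2 hx))
        have h7 := add_mem (sub_mem h2 h4) (Vn_left h2 (hT _ hgT))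
        rwa [sub_eq_iff_eq_add.2 h3, sub_add_cancel] at h7
      refine mem_Vn.2 fun γ h1 => ?_
      by_cases hγ : γ ∈ T
      swap
      · rw [hT' γ h1 hγ]
        exact zero_mem _
      obtain ⟨c, g, hg, rfl⟩ := hlet γ hγ
      by_cases hw1 : w = 1
      · refine cA c (fun x hx => ?_) g hg
        rw [hw1, len_one, mul_one]
        exact len_pos (hne hx)
      obtain ⟨c0, -, h0⟩ := exists_first w c
      by_cases e : c = c0
      swap
      · exact cA c (h0 c e) g hg
      rw [hrec w, if_neg hw1, zero_add, map_sum]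
      refine sum_mem fun η hη => ?_
      obtain ⟨c', x, hx, rfl⟩ := hlet η hη
      by_cases e' : c' = c
      · subst e'
        rw [hzero _ g x hg hx]
        exact zero_mem _
      · have h2 := h0 c' (e ▸ e')
        refine Vn_left ?_ h1
        rw [map_sub]
        refine sub_mem (Vn_left (ih' _ ?_) (hT _ hη)) (cA c' h2 x hx)
        rw [← map_inv]
        exact h2 _ (inv_ne_one.2 hx)
  have all : ∀ w, U w ∈ Vn ν (L + 1) := fun w => key _ w (by omega)
  have h1 := hrec 1
  rw [if_pos rfl] at h1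
  rw [← sub_eq_iff_eq_add.2 h1]
  exact sub_mem (all 1) (sum_mem fun γ hγ => Vn_left (sub_mem (all _) (all _)) (hT γ hγ))

end Rec

end Pool.Agent.Lib.MP_2add11_gt.IG
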