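import Pool.Agent.Lib.MP_2add11_gt.IG.BHS2

/-!
Artin induction along a finite quotient for the classes of unipotent matrices.
-/

noncomputable section

namespace Pool.Agent.Lib.MP_2add11_gt.IG

open Matrix MonoidAlgebra Subgroup FG

variable {G Q W n : Type} [Group G] [Group Q] [AddCommGroup W] [Fintype n] [DecidableEq n]
variable {m m' : Type} [Fintype m] [DecidableEq m] [Fintype m'] [DecidableEq m']

theorem cm_unip {R S : Type} [Ring R] [Ring S] (f : R →+* Matrix m m S) {Y : Matrix n n R}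
    (hY : IsNilpotent Y) : ∃ Z, IsNilpotent Z ∧ comp n n m m S ((1 - Y).map f) = 1 - Z := by
  let φ := (compRingEquiv n m S).toRingHom.comp (f.mapMatrix (m := n))
  exact ⟨φ Y, hY.map φ, (map_sub φ 1 Y).trans (by rw [map_one])⟩

theorem theta_unip [Finite Q] (q : G →* Q) (c : Inv (MonoidAlgebra ℤ G) W)
    {A : Matrix n n (MonoidAlgebra ℤ G)} (hA : IsNilpotent A) (ρ : Q →* Matrix m m ℤ)
    (σ : Q →* Matrix m' m' ℤ) (h : ∀ g, (ρ g).trace = (σ g).trace) :
    IsOfFinAddOrder ((c.comap (theta (ρ.comp q))).c (1 - A) -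
      (c.comap (theta (σ.comp q))).c (1 - A)) := by
  obtain ⟨X, Y, d, hd, hXY, hYX, hX⟩ := int_equiv ρ σ h
  let big : ∀ {a b : Type}, Matrix a b ℤ → Matrix (n × a) (n × b) (MonoidAlgebra ℤ G) :=
    fun Z => .of fun p q => if p.1 = q.1 then (Z p.2 q.2 : MonoidAlgebra ℤ G) else 0
  have hb : ∀ {a b : Type} [Fintype a] [DecidableEq a] [Fintype b] (Z : Matrix a b ℤ)
      (Z' : Matrix b a ℤ), Z * Z' = (d : ℤ) • 1 → big Z * big Z' = (d : ℤ) • 1 := fun Z Z' e => by
    ext1 ⟨i, k⟩ ⟨j, l⟩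
    have := congrArg (fun Z => ((Z k l : ℤ) : MonoidAlgebra ℤ G)) e
    simp only [Matrix.mul_apply, Int.cast_sum, Int.cast_mul] at this
    by_cases h : i = j
    · simp [big, Matrix.mul_apply, Fintype.sum_prod_type, h, this, Matrix.one_apply,
        Matrix.smul_apply]
    · simp [big, Matrix.mul_apply, Fintype.sum_prod_type, h, Matrix.smul_apply]
  obtain ⟨P, hP⟩ := isUnit_cm (theta (ρ.comp q)) hA.isUnit_one_sub
  obtain ⟨P', hQ⟩ := isUnit_cm (theta (σ.comp q)) hA.isUnit_one_sub
  have h1 : big X * P.val = P'.val * big X := by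
    ext1 ⟨i, k⟩ ⟨j, l⟩
    simpa [big, Matrix.mul_apply, Fintype.sum_prod_type, hP, hQ] using
      theta_inter (ρ := ρ.comp q) (σ := σ.comp q) (fun g => hX (q g)) ((1 - A) i j) k l
  have h2 : ∀ k : ℕ, big X * P.val ^ k = P'.val ^ k * big X := fun k => by
    induction k with
    | zero => simp
    | succ k ih => rw [pow_succ, pow_succ, ← Matrix.mul_assoc, ih, Matrix.mul_assoc, h1,
        Matrix.mul_assoc]
  obtain ⟨Z0, hZ0, e0⟩ := cm_unip (theta (ρ.comp q)) hA
  obtain ⟨N, hN⟩ := hZ0.neg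
  obtain ⟨k, hk, Z, -, h3⟩ := pow_cong (T := ⊤) (fun _ => Submodule.mem_top) hN hd
  rw [← sub_eq_add_neg, ← e0, ← hP] at h3
  have h4 : 1 + big X * Z * big Y = P'.val ^ k := by
    have : (d : ℤ) • (1 + big X * Z * big Y) = (d : ℤ) • P'.val ^ k := by
      have e := congrArg (· * big Y) (h2 k)
      simp only [h3, Matrix.mul_add, Matrix.add_mul, Matrix.mul_one, Matrix.mul_assoc _ (big X),
        hb X Y hXY, Matrix.mul_smul, Matrix.smul_mul] at e
      rw [smul_add, e]
    ext p q g
    have := congrArg (fun Z => (Z p q).coeff g) this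
    simp only [Matrix.smul_apply, coeff_smul_apply, smul_eq_mul] at this
    exact mul_left_cancel₀ (by exact_mod_cast hd.ne') this
  refine isOfFinAddOrder_iff_nsmul_eq_zero.2 ⟨k, hk, ?_⟩
  change k • (c.c (comp _ _ _ _ _ _) - c.c (comp _ _ _ _ _ _)) = 0
  rw [← hP, ← hQ, nsmul_sub, ← c.pow P.isUnit, ← c.pow P'.isUnit, ← h4, h3,
    ← c.one_add_swap (h4 ▸ P'.isUnit.pow k), ← Matrix.mul_assoc, hb Y X hYX, Matrix.smul_mul,
    Matrix.one_mul, sub_self]

theorem addR_comp (q : G →* Q) (ρ : Q →* Matrix m m ℤ) (σ : Q →* Matrix m' m' ℤ) :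
    (addR ρ σ).comp q = addR (ρ.comp q) (σ.comp q) := rfl

/-- Pairs of a virtual character of the quotient and the class twisted by it. -/
def virQ (q : G →* Q) (c : Inv (MonoidAlgebra ℤ G) W) {A : Matrix n n (MonoidAlgebra ℤ G)}
    (hA : IsUnit A) : AddSubgroup ((Q → ℤ) × W) where
  carrier := {p | ∃ r s : IRep Q, (∀ g, p.1 g = (r.ρ g).trace - (s.ρ g).trace) ∧
    p.2 = (c.comap (theta (r.ρ.comp q))).c A - (c.comap (theta (s.ρ.comp q))).c A}
  zero_mem' := ⟨⟨Unit, 1⟩, ⟨Unit, 1⟩, by simp, by simp⟩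
  add_mem' := by
    rintro p q ⟨r, s, h1, h2⟩ ⟨r', s', h1', h2'⟩
    refine ⟨⟨_, addR r.ρ r'.ρ⟩, ⟨_, addR s.ρ s'.ρ⟩, fun g => ?_, ?_⟩
    · simp only [Prod.fst_add, Pi.add_apply, h1, h1', trace_addR]
      ring
    · simp only [Prod.snd_add, h2, h2', addR_comp, comap_addR _ _ c hA]
      abel
  neg_mem' := by
    rintro p ⟨r, s, h1, h2⟩
    exact ⟨s, r, fun g => by simp [h1], by simp [h2]⟩

theorem mem_virQ (q : G →* Q) (c : Inv (MonoidAlgebra ℤ G) W)
    {A : Matrix n n (MonoidAlgebra ℤ G)} (hA : IsUnit A) (ρ : Q →* Matrix m m ℤ) :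
    (fun g => (ρ g).trace, (c.comap (theta (ρ.comp q))).c A) ∈ virQ q c hA :=
  ⟨⟨_, addR ρ (1 : Q →* Matrix Unit Unit ℤ)⟩, ⟨Unit, 1⟩, fun g => by simp [trace_addR],
    by simp only [addR_comp, comap_addR _ _ c hA, add_sub_cancel_right]⟩

theorem exists_tr_comap (q : G →* Q) (hq : Function.Surjective q) (H : Subgroup Q)
    (T : Tr H Q) (hT : T.i = H.subtype) : ∃ (t : T.κ → G) (e : G ≃ H.comap q × T.κ)
      (he : ∀ x, e.symm x = (H.comap q).subtype x.1 * t x.2),
        Tr.perm ⟨(H.comap q).subtype, T.κ, t, e, he⟩ = T.perm.comp q := by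
  choose s hs using hq
  have h1 : ∀ g, g * (s (T.t (T.e (q g)).2))⁻¹ ∈ H.comap q := fun g => by
    have := T.spec (q g)
    rw [← eq_mul_inv_iff_mul_eq, hT] at this
    rw [mem_comap, map_mul, map_inv, hs, ← this]
    exact (T.e (q g)).1.2
  have h2 : ∀ (h : H.comap q) k, (T.e (q (h.1 * s (T.t k)))).2 = k := fun h k => by
    have := T.he (⟨q h.1, h.2⟩, k)
    rw [hT] at this
    rw [map_mul, hs]
    exact congrArg Prod.snd (T.e.symm_apply_eq.1 this).symm
  refine ⟨fun k => s (T.t k), ⟨fun g => (⟨_, h1 g⟩, (T.e (q g)).2), fun x => x.1.1 * s (T.t x.2),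
    fun g => by simp, fun x => ?_⟩, fun _ => rfl, ?_⟩
  · ext
    · simp only [h2, mul_inv_cancel_right]
    · exact h2 _ _
  · ext g k l
    simp [Tr.perm, hs]

/-- Artin induction: unipotent classes are torsion once they are over the preimages of the cyclic
subgroups of a finite quotient. -/
theorem NilTors.of_quot [Finite Q] (q : G →* Q) (hq : Function.Surjective q)
    (h : ∀ x : Q, NilTors ((zpowers x).comap q)) : NilTors G := by
  intro W _ c n _ _ A hA
  have hu := hA.isUnit_one_sub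
  have := Fintype.ofFinite Q
  let Φ : (Q → ℤ) →+ (Q → ℤ) :=
    { toFun := fun f g => ∑ x, f (x * g * x⁻¹)
      map_zero' := by ext; simp
      map_add' := fun f f' => by ext; simp [Finset.sum_add_distrib] }
  let U := AddCommGroup.torsion W
  have h1 := span_ind (((virQ q c hu ⊓ U.comap (AddMonoidHom.snd _ _)).map
    (AddMonoidHom.fst _ _)).comap Φ) (fun x => ?_) 1 fun _ _ _ => rfl
  · obtain ⟨⟨f, u⟩, ⟨h2, h3⟩, h4⟩ := h1
    have h5 := (virQ q c hu).nsmul_mem (mem_virQ q c hu (m := Unit) 1) (Fintype.card Q)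
    obtain ⟨r, s, h6, h7⟩ := (virQ q c hu).sub_mem h5 h2
    have h8 := theta_unip q c hA r.ρ s.ρ fun g => by
      have := h6 g
      rw [show f = Φ 1 from h4] at this
      simp [Φ] at this
      linarith
    rw [← h7] at h8
    have h9 : (c.comap (theta ((1 : Q →* Matrix Unit Unit ℤ).comp q))).c (1 - A) =
        c.c (1 - A) := by
      rw [← c.sub (Equiv.prodUnique n Unit) hu]
      refine congrArg c.c ?_
      ext1 p p'
      have : ∀ a : MonoidAlgebra ℤ G,
          theta ((1 : Q →* Matrix Unit Unit ℤ).comp q) a p.2 p'.2 = a := fun a => by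
        induction a using MonoidAlgebra.induction_linear with
        | zero => simp
        | add a b ha hb => rw [map_add, Matrix.add_apply, ha, hb]
        | single g a => simp [theta_single]
      exact this _
    simp only [Prod.smul_mk, Prod.mk_sub_mk, h9] at h8
    have h10 : Fintype.card Q • c.c (1 - A) ∈ U := by
      have := U.add_mem h8 h3
      simpa using this
    exact (isOfFinAddOrder_nsmul.1 h10).resolve_right Fintype.card_pos.ne'
  · obtain ⟨T, hT⟩ := exists_tr (zpowers x)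
    have := Fintype.ofFinite (zpowers x)
    obtain ⟨t, e, he, hp⟩ := exists_tr_comap q hq _ T hT
    refine ⟨Fintype.card (zpowers x) • _, ⟨(virQ q c hu).nsmul_mem (mem_virQ q c hu T.perm) _,
      U.nsmul_mem ?_ _⟩, ?_⟩
    · change IsOfFinAddOrder ((c.comap (theta (T.perm.comp q))).c (1 - A))
      rw [← hp, Tr.comap_res _ c hu]
      obtain ⟨Z, hZ, e0⟩ := cm_unip
        (Tr.res ⟨((zpowers x).comap q).subtype, T.κ, t, e, he⟩) hA
      have := h x W (c.pull (mapDomainRingHom ℤ ((zpowers x).comap q).subtype)) _ Z hZ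
      rw [← e0] at this
      exact this
    · ext g
      simpa [Φ] using (T.trace_perm x (by simp [hT]) g).symm

/-- The product with a finite group reduces to the products with its cyclic subgroups. -/
theorem NilTors.prod_fin {F A : Type} [Group F] [Finite F] [Group A]
    (h : ∀ x : F, NilTors (zpowers x × A)) : NilTors (F × A) :=
  NilTors.of_quot (MonoidHom.fst F A) Prod.fst_surjective fun x => (h x).retract
    (MonoidHom.prod (((MonoidHom.fst F A).comp (Subgroup.subtype _)).codRestrict _ fun y => y.2)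
      ((MonoidHom.snd F A).comp (Subgroup.subtype _)))
    (((zpowers x).subtype.prodMap (MonoidHom.id A)).codRestrict _ fun y => y.1.2) fun _ => rfl

theorem NilTors.prod_cyclic {F A : Type} [Group F] [Finite F] [Group A]
    (h : ∀ (C : Type) [Group C] [Finite C] [IsCyclic C], NilTors (C × A)) : NilTors (F × A) :=
  NilTors.prod_fin fun x => h (zpowers x)

theorem NilTors.prod_comm {F A : Type} [Group F] [Finite F] [Group A]
    (h : ∀ (C : Type) [CommGroup C] [Finite C] [IsCyclic C], NilTors (C × A)) :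
    NilTors (F × A) :=
  NilTors.prod_cyclic fun C _ _ _ => @h C IsCyclic.commGroup _ ‹_›

end Pool.Agent.Lib.MP_2add11_gt.IG
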