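import Pool.Agent.Lib.MP_2add11_gt.IG.Nil

/-!
The product of a finite group with an infinite cyclic group.
-/

noncomputable section

namespace Pool.Agent.Lib.MP_2add11_gt.IG

open Matrix MonoidAlgebra FG Multiplicative

theorem comm_ids0 {A : Type} [CommRing A] {b e s u : A} (he : e * e = e) (hs : s * u = 1) :
    (1 - e + e * s) * (1 + (b * (1 - e) * (s - 1) + (1 - b) * e * (u - 1))) = 1 + b * (s - 1) ∧
      (1 - e + e * s) * (1 - e + e * u) = 1 ∧ (1 - e + e * u) * (1 - e + e * s) = 1 := by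
  refine ⟨?_, ?_, ?_⟩ <;> grind

theorem comm_ids {A : Type} [Ring A] {b e s u : A} (h1 : Commute b e) (h2 : ∀ x, Commute s x)
    (h3 : ∀ x, Commute u x) (he : e * e = e) (hs : s * u = 1) :
    (1 - e + e * s) * (1 + (b * (1 - e) * (s - 1) + (1 - b) * e * (u - 1))) = 1 + b * (s - 1) ∧
      (1 - e + e * s) * (1 - e + e * u) = 1 ∧ (1 - e + e * u) * (1 - e + e * s) = 1 := by
  let K := Subring.closure ({b, e, s, u} : Set A)
  have : IsMulCommutative K := Subring.isMulCommutative_closure (by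
    rintro x (rfl | rfl | rfl | rfl) y (rfl | rfl | rfl | rfl) <;>
      first | rfl | exact h1.eq | exact h1.symm.eq | exact (h2 _).eq | exact (h2 _).symm.eq |
        exact (h3 _).eq | exact (h3 _).symm.eq)
  let : CommRing K := { (inferInstance : Ring K) with mul_comm := mul_comm' }
  obtain ⟨a1, a2, a3⟩ := comm_ids0 (A := K) (b := ⟨b, Subring.subset_closure (by simp)⟩)
    (e := ⟨e, Subring.subset_closure (by simp)⟩) (s := ⟨s, Subring.subset_closure (by simp)⟩)
    (u := ⟨u, Subring.subset_closure (by simp)⟩) (Subtype.ext he) (Subtype.ext hs)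
  exact ⟨congrArg Subtype.val a1, congrArg Subtype.val a2, congrArg Subtype.val a3⟩

theorem nil_of_rec {A : Type} [Ring A] {b : A} {γ : ℤ → A} (hf : {j | γ j ≠ 0}.Finite)
    (h : ∀ j, (1 - b) * γ j + b * γ (j - 1) = if j = 0 then 1 else 0) :
    ∃ k : ℕ, (b * (1 - b)) ^ (k + 1) = 0 := by
  have hc : Commute b (1 - b) := (Commute.one_right b).sub_right (Commute.refl b)
  have h1 : ∀ k : ℕ, b ^ k * γ 0 = (b - 1) ^ k * γ k := fun k => by
    induction k with
    | zero => simp
    | succ k ih =>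
      have := h (k + 1)
      rw [if_neg (by omega), add_sub_cancel_right, add_eq_zero_iff_neg_eq, ← neg_mul, neg_sub] at this
      rw [pow_succ', mul_assoc, ih, ← mul_assoc,
        (((Commute.refl b).sub_right (Commute.one_right b)).pow_right k).eq, mul_assoc, ← this,
        pow_succ, mul_assoc]
      rfl
  have h2 : ∀ k : ℕ, (1 - b) ^ k * γ (-1) = (-b) ^ k * γ (-1 - k) := fun k => by
    induction k with
    | zero => simp
    | succ k ih =>
      have := h (-1 - k)
      rw [if_neg (by omega), add_eq_zero_iff_eq_neg, ← neg_mul] at this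
      rw [pow_succ', mul_assoc, ih, ← mul_assoc, (hc.symm.neg_right.pow_right k).eq, mul_assoc,
        this, pow_succ, mul_assoc]
      congr 3
      push_cast
      ring
  obtain ⟨k, hk⟩ := (hf.image Int.natAbs).bddAbove
  have h3 : ∀ j : ℤ, k < j.natAbs → γ j = 0 := fun j hj => by
    by_contra h'
    exact absurd (hk ⟨j, h', rfl⟩) (not_le.2 hj)
  have h4 := h1 (k + 1)
  have h5 := h2 (k + 1)
  rw [h3 ((k + 1 : ℕ) : ℤ) (by omega), mul_zero] at h4
  rw [h3 (-1 - ((k + 1 : ℕ) : ℤ)) (by omega), mul_zero] at h5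
  have h6 := h 0
  rw [if_pos rfl, zero_sub] at h6
  refine ⟨k, ?_⟩
  refine ((mul_one _).symm.trans (congrArg _ h6.symm)).trans ?_
  rw [mul_add, hc.mul_pow]
  have e1 : b ^ (k + 1) * (1 - b) ^ (k + 1) * ((1 - b) * γ 0) = 0 := by
    rw [mul_assoc, ← mul_assoc _ (1 - b), ← pow_succ, ← mul_assoc, (hc.pow_pow _ _).eq, mul_assoc,
      h4, mul_zero]
  have e2 : b ^ (k + 1) * (1 - b) ^ (k + 1) * (b * γ (-1)) = 0 := by
    rw [mul_assoc, ← mul_assoc _ b, ← (hc.pow_right _).eq, mul_assoc, h5, mul_zero, mul_zero]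
  rw [e1, e2, add_zero]

theorem exists_idem {A : Type} [Ring A] {b : A} {k : ℕ} (h : (b * (1 - b)) ^ (k + 1) = 0) :
    ∃ (e : A) (J : Submodule ℤ A), Commute b e ∧ e * e = e ∧ J * J ≤ J ∧ J ^ (k + 1) = ⊥ ∧
      b * (1 - e) ∈ J ∧ (1 - b) * e ∈ J := by
  let f := Polynomial.aeval (R := ℤ) b
  obtain ⟨u, v, huv⟩ : IsCoprime ((Polynomial.X : Polynomial ℤ) ^ (k + 1))
      ((1 - Polynomial.X) ^ (k + 1)) := IsCoprime.pow ⟨1, 1, by ring⟩
  let I : Ideal (Polynomial ℤ) := Ideal.span {Polynomial.X * (1 - Polynomial.X)}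
  have h0 : ∀ p, f (p * (Polynomial.X * (1 - Polynomial.X)) ^ (k + 1)) = 0 := fun p => by
    simp [f, h]
  let J : ℕ → Submodule ℤ A := fun j => ((I ^ j).restrictScalars ℤ).map f.toLinearMap
  have h1 : ∀ i j, J i * J j ≤ J (i + j) := fun i j => by
    rw [Submodule.mul_le]
    rintro _ ⟨p, hp, rfl⟩ _ ⟨q, hq, rfl⟩
    exact ⟨p * q, pow_add I i j ▸ Ideal.mul_mem_mul hp hq, map_mul f p q⟩
  have h2 : ∀ j, J 1 ^ (j + 1) ≤ J (j + 1) := fun j => by
    induction j with
    | zero => simp
    | succ j ih => exact (pow_succ _ _).le.trans ((mul_le_mul_left ih _).trans (h1 _ _))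
  have h3 : ∀ p, f (p * (Polynomial.X * (1 - Polynomial.X))) ∈ J 1 := fun p =>
    ⟨_, by simpa [I] using Ideal.mem_span_singleton'.2 ⟨p, rfl⟩, rfl⟩
  refine ⟨f (u * Polynomial.X ^ (k + 1)), J 1, ?_, ?_, (h1 1 1).trans (Submodule.map_mono
    fun p hp => Ideal.pow_le_pow_right one_le_two hp), eq_bot_iff.2 ((h2 k).trans ?_), ?_, ?_⟩
  · have := (Commute.all Polynomial.X (u * Polynomial.X ^ (k + 1))).map f
    simpa only [f, Polynomial.aeval_X] using this
  · rw [← map_mul, ← sub_eq_zero, ← map_sub, ← h0 (-(u * v))]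
    congr 1
    rw [mul_pow]
    linear_combination (u * Polynomial.X ^ (k + 1)) * huv
  · rintro _ ⟨p, hp, rfl⟩
    obtain ⟨q, rfl⟩ := Ideal.mem_span_singleton'.1
      (show p ∈ Ideal.span {(Polynomial.X * (1 - Polynomial.X)) ^ (k + 1)} by
        rw [← Ideal.span_singleton_pow]; exact hp)
    exact h0 q
  · have := h3 (v * (1 - Polynomial.X) ^ k)
    rwa [show v * (1 - Polynomial.X) ^ k * (Polynomial.X * (1 - Polynomial.X)) =
      Polynomial.X * (1 - u * Polynomial.X ^ (k + 1)) by linear_combination Polynomial.X * huv,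
      map_mul, map_sub, map_one, Polynomial.aeval_X] at this
  · have := h3 (u * Polynomial.X ^ k)
    rwa [show u * Polynomial.X ^ k * (Polynomial.X * (1 - Polynomial.X)) =
      (1 - Polynomial.X) * (u * Polynomial.X ^ (k + 1)) by ring,
      map_mul, map_sub, map_one, Polynomial.aeval_X] at this

variable {F W n : Type} [Group F] [AddCommGroup W] [Fintype n] [DecidableEq n]

variable (F) in
def tt (k : ℤ) : MonoidAlgebra ℤ (F × Multiplicative ℤ) := .single (1, ofAdd k) 1

theorem tt_add (j k : ℤ) : tt F j * tt F k = tt F (j + k) := by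
  simp [tt, single_mul_single, ofAdd_add]

theorem tt_zero : tt F 0 = 1 := rfl

theorem tt_comm (k : ℤ) (x : MonoidAlgebra ℤ (F × Multiplicative ℤ)) : Commute (tt F k) x := by
  induction x using MonoidAlgebra.induction_linear with
  | zero => exact Commute.zero_right _
  | add a b ha hb => exact ha.add_right hb
  | single g a =>
    obtain ⟨g, j⟩ := g
    simp [Commute, SemiconjBy, tt, single_mul_single, mul_comm]

variable (F) in
def inc : MonoidAlgebra ℤ F →+* MonoidAlgebra ℤ (F × Multiplicative ℤ) :=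
  mapDomainRingHom ℤ (MonoidHom.inl F _)

variable (F) in
def sig : F × Multiplicative ℤ →* F × Multiplicative ℤ := (MonoidHom.id F).prodMap invMonoidHom

variable (F) in
def epz : F × Multiplicative ℤ →* F × Multiplicative ℤ :=
  (MonoidHom.inl F _).comp (MonoidHom.fst F _)

theorem map_inc {G : Type} [Group G] (f : F × Multiplicative ℤ →* G) (x : MonoidAlgebra ℤ F) :
    mapDomainRingHom ℤ f (inc F x) = mapDomainRingHom ℤ (f.comp (MonoidHom.inl F _)) x := by
  rw [mapDomainRingHom_comp]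
  rfl

theorem sig_inc (x : MonoidAlgebra ℤ F) : mapDomainRingHom ℤ (sig F) (inc F x) = inc F x :=
  (map_inc _ x).trans (by congr 2)

theorem epz_inc (x : MonoidAlgebra ℤ F) : mapDomainRingHom ℤ (epz F) (inc F x) = inc F x :=
  (map_inc _ x).trans (by congr 2)

theorem fst_inc (x : MonoidAlgebra ℤ F) :
    mapDomainRingHom ℤ (MonoidHom.fst F _) (inc F x) = x :=
  (map_inc _ x).trans (by rw [MonoidHom.fst_comp_inl, mapDomainRingHom_id]; rfl)

theorem sig_tt (k : ℤ) : mapDomainRingHom ℤ (sig F) (tt F k) = tt F (-k) := by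
  simp [tt, sig]

theorem epz_tt (k : ℤ) : mapDomainRingHom ℤ (epz F) (tt F k) = 1 := by
  simp [tt, epz, MonoidAlgebra.one_def, Prod.one_eq_mk]

theorem fst_tt (k : ℤ) : mapDomainRingHom ℤ (MonoidHom.fst F _) (tt F k) = 1 := by
  simp [tt, MonoidAlgebra.one_def]

theorem scalar_comm (k : ℤ) (X : Matrix n n (MonoidAlgebra ℤ (F × Multiplicative ℤ))) :
    Commute (scalar n (tt F k)) X := scalar_commute _ (tt_comm k) X

theorem map_scalar {R S : Type} [Ring R] [Ring S] (f : R →+* S) (x : R) :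
    f.mapMatrix (scalar n x) = scalar n (f x) := by
  ext i j
  by_cases h : i = j <;> simp [h]

/-- The symmetrised invariant. -/
def sym (c : Inv (MonoidAlgebra ℤ (F × Multiplicative ℤ)) W) :
    Inv (MonoidAlgebra ℤ (F × Multiplicative ℤ)) W where
  c A := c.c A + (c.pull (mapDomainRingHom ℤ (sig F))).c A -
    2 • (c.pull (mapDomainRingHom ℤ (epz F))).c A
  mul hA hB := by
    rw [c.mul hA hB, (c.pull _).mul hA hB, (c.pull _).mul hA hB]
    abel
  sub e _ hA := by rw [c.sub e hA, (c.pull _).sub e hA, (c.pull _).sub e hA]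
  stab hA := by rw [c.stab hA, (c.pull _).stab hA, (c.pull _).stab hA]

variable (c : Inv (MonoidAlgebra ℤ (F × Multiplicative ℤ)) W)

theorem sym_c (A : Matrix n n (MonoidAlgebra ℤ (F × Multiplicative ℤ))) :
    (sym c).c A = c.c A + c.c ((mapDomainRingHom ℤ (sig F)).mapMatrix A) -
      2 • c.c ((mapDomainRingHom ℤ (epz F)).mapMatrix A) := rfl

theorem sym_zero {A B : Matrix n n (MonoidAlgebra ℤ (F × Multiplicative ℤ))} (h1 : A * B = 1)
    (h2 : B * A = 1) (h3 : (mapDomainRingHom ℤ (sig F)).mapMatrix A = B)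
    (h4 : (mapDomainRingHom ℤ (epz F)).mapMatrix A = 1) : (sym c).c A = 0 := by
  rw [sym_c, h3, h4, ← c.mul (isUnit_of_inv h1 h2) (isUnit_of_inv h2 h1), h1, c.one]
  simp

theorem mm_inc {S : Type} [Ring S] {f : MonoidAlgebra ℤ (F × Multiplicative ℤ) →+* S}
    {g : MonoidAlgebra ℤ F →+* S} (h : ∀ x, f (inc F x) = g x)
    (X : Matrix n n (MonoidAlgebra ℤ F)) : f.mapMatrix ((inc F).mapMatrix X) = g.mapMatrix X := by
  ext1 i j
  exact h _

theorem sym_inc (X : Matrix n n (MonoidAlgebra ℤ F)) : (sym c).c ((inc F).mapMatrix X) = 0 := by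
  rw [sym_c, mm_inc sig_inc, mm_inc epz_inc, two_nsmul, sub_self]

variable [Finite F]

def cz (j : ℤ) : MonoidAlgebra ℤ (F × Multiplicative ℤ) →+ MonoidAlgebra ℤ F where
  toFun x := .ofCoeff (Finsupp.equivFunOnFinite.symm fun g => x.coeff (g, ofAdd j))
  map_zero' := by ext; simp
  map_add' x y := by ext; simp

omit [Group F] in
theorem cz_coeff (j : ℤ) (x : MonoidAlgebra ℤ (F × Multiplicative ℤ)) (g : F) :
    (cz j x).coeff g = x.coeff (g, ofAdd j) := rfl

theorem cz_inc (j : ℤ) (r : MonoidAlgebra ℤ F) (x : MonoidAlgebra ℤ (F × Multiplicative ℤ)) :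
    cz j (inc F r * x) = r * cz j x := by
  induction r using MonoidAlgebra.induction_linear with
  | zero => simp
  | add a b ha hb => rw [map_add, add_mul, map_add, ha, hb, add_mul]
  | single g a =>
    ext h
    simp [inc, cz_coeff, coeff_single_mul_apply]

theorem cz_tt (j : ℤ) (x : MonoidAlgebra ℤ (F × Multiplicative ℤ)) :
    cz j (tt F 1 * x) = cz (j - 1) x := by
  ext h
  simp [tt, cz_coeff, coeff_single_mul_apply, sub_eq_neg_add, ofAdd_add]

theorem cz_one (j : ℤ) : cz j (1 : MonoidAlgebra ℤ (F × Multiplicative ℤ)) =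
    if j = 0 then 1 else 0 := by
  classical
  ext h
  split_ifs with hj <;> 
    simp [cz_coeff, MonoidAlgebra.one_def, Finsupp.single_apply, hj, Prod.ext_iff]

theorem nil_of_unit {B : Matrix n n (MonoidAlgebra ℤ F)}
    (h : IsUnit (1 + (inc F).mapMatrix B * (scalar n (tt F 1) - 1))) :
    ∃ k : ℕ, (B * (1 - B)) ^ (k + 1) = 0 := by
  obtain ⟨Γ, hΓ⟩ := h.exists_right_inv
  have h1 : ∀ j X (Y : Matrix n n (MonoidAlgebra ℤ (F × Multiplicative ℤ))),
      ((inc F).mapMatrix X * Y).map (cz j) = X * Y.map (cz j) := fun j X Y => by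
    ext1 p q
    simp [Matrix.mul_apply, map_sum, cz_inc]
  refine nil_of_rec (γ := fun j => Γ.map (cz j)) ?_ fun j => ?_
  · refine (Set.finite_iUnion fun p : n × n => ((Γ p.1 p.2).coeff.support.finite_toSet.image
      fun x => x.2.toAdd)).subset fun j hj => ?_
    by_contra h'
    refine hj ?_
    ext p q g
    by_contra h2
    exact h' (Set.mem_iUnion.2 ⟨(p, q), (g, ofAdd j), Finsupp.mem_support_iff.2 h2, rfl⟩)
  · have e : (inc F).mapMatrix (1 - B) * Γ + (inc F).mapMatrix B * (scalar n (tt F 1) * Γ) = 1 := by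
      rw [← hΓ, map_sub, map_one]
      noncomm_ring
    have h2 : (scalar n (tt F 1) * Γ).map (cz j) = Γ.map (cz (j - 1)) := by
      ext1 p q
      simp [cz_tt]
    have h3 := congrArg (fun Z => Z.map (cz j)) e
    simp only [Matrix.map_add _ (map_add (cz j)), h1, h2] at h3
    rw [h3]
    ext1 p q
    by_cases hpq : p = q <;> split_ifs with hj <;> simp [hpq, cz_one, hj, Matrix.one_apply]

theorem sym_tors {A : Matrix n n (MonoidAlgebra ℤ (F × Multiplicative ℤ))} (hA : IsUnit A) :
    IsOfFinAddOrder ((sym c).c A) := by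
  let Q : Submodule ℤ (MonoidAlgebra ℤ (F × Multiplicative ℤ)) :=
    { carrier := {x | ∃ a b, x = inc F a + inc F b * (tt F 1 - 1)}
      zero_mem' := ⟨0, 0, by simp⟩
      add_mem' := by
        rintro _ _ ⟨a, b, rfl⟩ ⟨a', b', rfl⟩
        exact ⟨a + a', b + b', by simp only [map_add, add_mul]; abel⟩
      smul_mem' := by
        rintro k _ ⟨a, b, rfl⟩
        exact ⟨k • a, k • b, by simp only [map_zsmul, smul_add, smul_mul_assoc]⟩ }
  have ht : ∀ k : ℕ, tt F k ∈ Subring.closure (Q : Set _) := fun k => by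
    induction k with
    | zero => exact one_mem _
    | succ k ih =>
      rw [Nat.cast_succ, ← tt_add]
      exact mul_mem ih (Subring.subset_closure ⟨1, 1, by simp⟩)
  have h1 : ∀ x, ∃ k : ℕ, ∀ l : ℕ, k ≤ l → x * tt F l ∈ Subring.closure (Q : Set _) := fun x => by
    induction x using MonoidAlgebra.induction_linear with
    | zero => exact ⟨0, fun _ _ => by simp⟩
    | add a b ha hb =>
      obtain ⟨k, ha⟩ := ha
      obtain ⟨k', hb⟩ := hb
      exact ⟨k + k', fun l hl => by
        rw [add_mul]; exact add_mem (ha l (by omega)) (hb l (by omega))⟩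
    | single g a =>
      refine ⟨g.2.toAdd.natAbs, fun l hl => ?_⟩
      have : MonoidAlgebra.single g a * tt F l =
          inc F (.single g.1 a) * tt F ((g.2.toAdd + l).toNat : ℕ) := by
        rw [Int.toNat_of_nonneg (by omega)]
        obtain ⟨g, j⟩ := g
        simp [tt, inc, single_mul_single, ofAdd_add]
      rw [this]
      exact mul_mem (Subring.subset_closure ⟨.single g.1 a, 0, by simp⟩) (ht _)
  have hs : ∀ k, scalar n (tt F k) * scalar n (tt F (-k)) = 1 ∧
      scalar n (tt F (-k)) * scalar n (tt F k) = 1 := fun k => by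
    simp only [← map_mul, tt_add, add_neg_cancel, neg_add_cancel, tt_zero, map_one, and_self]
  choose k hk using fun p : n × n => h1 (A p.1 p.2)
  have hu := isUnit_of_inv (hs (Finset.univ.sup k : ℕ)).1 (hs _).2
  have h2 := (sym c).mul hA hu
  rw [sym_zero c (hs _).1 (hs _).2 (by rw [map_scalar, sig_tt])
    (by rw [map_scalar, epz_tt, map_one]), add_zero] at h2
  rw [← h2]
  refine linearize (sym c) Q ⟨1, 0, by simp⟩ IsOfFinAddOrder (fun m _ _ M hM hQ => ?_) (hA.mul hu)
    fun i j => by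
      rw [scalar_apply, mul_diagonal]
      exact hk (i, j) _ (Finset.le_sup (Finset.mem_univ _))
  choose X Y hXY using hQ
  have e1 : M = (inc F).mapMatrix (.of X) + (inc F).mapMatrix (.of Y) * (scalar m (tt F 1) - 1) := by
    rw [← map_one (scalar m), ← map_sub]
    ext1 i j
    simp [hXY]
  have e2 : (mapDomainRingHom ℤ (MonoidHom.fst F _)).mapMatrix M = .of X := by
    rw [e1, map_add, map_mul, map_sub, map_scalar, fst_tt, map_one, map_one, sub_self, mul_zero,
      add_zero, mm_inc (g := RingHom.id _) fst_inc]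
    rfl
  obtain ⟨U, hU⟩ : IsUnit (Matrix.of X) := e2 ▸ hM.map _
  have e3 : M = (inc F).mapMatrix U.val *
      (1 + (inc F).mapMatrix (U⁻¹.val * .of Y) * (scalar m (tt F 1) - 1)) := by
    rw [mul_add, mul_one, ← mul_assoc, ← map_mul, U.mul_inv_cancel_left, hU, e1]
  generalize U⁻¹.val * Matrix.of Y = B at e3
  have h3 : IsUnit ((inc F).mapMatrix U.val) := U.isUnit.map _
  have h4 : IsUnit (1 + (inc F).mapMatrix B * (scalar m (tt F 1) - 1)) :=
    (h3.mul_left_iff).1 (e3 ▸ hM)
  obtain ⟨l, hl⟩ := nil_of_unit h4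
  obtain ⟨E, J, a1, a2, a3, a4, a5, a6⟩ := exists_idem hl
  obtain ⟨b1, b2, b3⟩ := comm_ids (b := (inc F).mapMatrix B) (e := (inc F).mapMatrix E)
    (s := scalar m (tt F 1)) (u := scalar m (tt F (-1))) (a1.map _) (scalar_comm _) (scalar_comm _)
    (by rw [← map_mul, a2]) (by rw [← map_mul, tt_add]; exact map_one _)
  have h5 : ∀ k r, Commute (inc F r) (tt F k - 1) := fun k r =>
    (tt_comm k _).symm.sub_right (Commute.one_right _)
  obtain ⟨h6, h7⟩ := nil_tors (inc F) (sym c) l J a3 a4 _ (add_mem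
    (Submodule.subset_span ⟨_, a5, _, h5 1, rfl⟩) (Submodule.subset_span ⟨_, a6, _, h5 (-1), rfl⟩))
  simp only [map_mul, map_sub, map_one] at h6 h7
  rw [e3, (sym c).mul h3 h4, sym_inc, zero_add, ← b1, (sym c).mul (isUnit_of_inv b2 b3) h6,
    sym_zero c b2 b3, zero_add]
  · exact h7
  · simp only [map_add, map_mul, map_sub, map_one, mm_inc (g := inc F) sig_inc, map_scalar,
      sig_tt]
  · simp only [map_add, map_mul, map_sub, map_one, mm_inc (g := inc F) epz_inc, map_scalar,
      epz_tt, mul_one,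
      sub_add_cancel]

variable (F) in
theorem NegCl.prodInt : NegCl (F × Multiplicative ℤ) := by
  intro W _ c x hx
  obtain ⟨ι, _, _, r, h1, h2, rfl⟩ := id hx
  obtain ⟨k, hk, h⟩ := isOfFinAddOrder_iff_nsmul_eq_zero.1 (sym_tors c h2)
  have h3 := push_mem c (sig F) h1 h2
  have h4 := ((NegCl.finite F).via c (MonoidHom.fst F _) (MonoidHom.inl F _) h1 h2).2
  refine neg_mem_of hk hx ?_
  have := (Alg c).nsmul_mem (add_mem h3 ((Alg c).nsmul_mem h4 2)) k
  rw [sym_c, add_sub_assoc, nsmul_add, add_eq_zero_iff_neg_eq] at h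
  rw [h, sub_eq_add_neg, ← neg_nsmul]
  exact this

end Pool.Agent.Lib.MP_2add11_gt.IG
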