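import Pool.Agent.Lib.MP_2add11_gt.IG.BHS

/-!
The product of an arbitrary group with an infinite cyclic group.
-/

noncomputable section

namespace Pool.Agent.Lib.MP_2add11_gt.IG

open Matrix MonoidAlgebra FG Multiplicative

/-- Unipotent matrices over the integral group ring have classes of finite order. -/
def NilTors (G : Type) [Group G] : Prop :=
  ∀ (W : Type) [AddCommGroup W] (c : Inv (MonoidAlgebra ℤ G) W) (n : Type) [Fintype n]
    [DecidableEq n] (Y : Matrix n n (MonoidAlgebra ℤ G)), IsNilpotent Y →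
      IsOfFinAddOrder (c.c (1 - Y))

variable {F W n : Type} [Group F] [AddCommGroup W] [Fintype n] [DecidableEq n]

theorem Zs_nil {S : Type} [Ring S] (φ : MonoidAlgebra ℤ F →+* S)
    {J : Submodule ℤ (Matrix n n (MonoidAlgebra ℤ F))} {m : ℕ} (h : J ^ (m + 1) = ⊥)
    {Z : Matrix n n S} (hZ : Z ∈ Zs φ J) : IsNilpotent Z := by
  have h1 : ∀ j, Z ^ (j + 1) ∈ Zs φ (J ^ (j + 1)) := fun j => by
    induction j with
    | zero => simpa using hZ
    | succ j ih =>
      rw [pow_succ, pow_succ J]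
      exact Zs_mul φ _ _ (Submodule.mul_mem_mul ih hZ)
  exact ⟨_, Zs_bot φ (h ▸ h1 m)⟩

def cf (j : ℤ) : MonoidAlgebra ℤ (F × Multiplicative ℤ) →+ MonoidAlgebra ℤ F where
  toFun x := .ofCoeff (x.coeff.comapDomain (fun g => (g, ofAdd j))
    fun _ _ _ _ h => congrArg Prod.fst h)
  map_zero' := by ext; simp
  map_add' x y := by ext; rfl

omit [Group F] in
theorem cf_coeff (j : ℤ) (x : MonoidAlgebra ℤ (F × Multiplicative ℤ)) (g : F) :
    (cf j x).coeff g = x.coeff (g, ofAdd j) := rfl

theorem cf_inc (j : ℤ) (r : MonoidAlgebra ℤ F) (x : MonoidAlgebra ℤ (F × Multiplicative ℤ)) :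
    cf j (inc F r * x) = r * cf j x := by
  induction r using MonoidAlgebra.induction_linear with
  | zero => simp
  | add a b ha hb => rw [map_add, add_mul, map_add, ha, hb, add_mul]
  | single g a =>
    ext h
    simp [inc, cf_coeff, coeff_single_mul_apply]

theorem cf_tt (j : ℤ) (x : MonoidAlgebra ℤ (F × Multiplicative ℤ)) :
    cf j (tt F 1 * x) = cf (j - 1) x := by
  ext h
  simp [tt, cf_coeff, coeff_single_mul_apply, sub_eq_neg_add, ofAdd_add]

theorem cf_one (j : ℤ) : cf j (1 : MonoidAlgebra ℤ (F × Multiplicative ℤ)) =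
    if j = 0 then 1 else 0 := by
  classical
  ext h
  split_ifs with hj <;> 
    simp [cf_coeff, MonoidAlgebra.one_def, Finsupp.single_apply, hj, Prod.ext_iff]

theorem nil_of_unit' {B : Matrix n n (MonoidAlgebra ℤ F)}
    (h : IsUnit (1 + (inc F).mapMatrix B * (scalar n (tt F 1) - 1))) :
    ∃ k : ℕ, (B * (1 - B)) ^ (k + 1) = 0 := by
  obtain ⟨Γ, hΓ⟩ := h.exists_right_inv
  have h1 : ∀ j X (Y : Matrix n n (MonoidAlgebra ℤ (F × Multiplicative ℤ))),
      ((inc F).mapMatrix X * Y).map (cf j) = X * Y.map (cf j) := fun j X Y => by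
    ext1 p q
    simp [Matrix.mul_apply, map_sum, cf_inc]
  refine nil_of_rec (γ := fun j => Γ.map (cf j)) ?_ fun j => ?_
  · refine (Set.finite_iUnion fun p : n × n => ((Γ p.1 p.2).coeff.support.finite_toSet.image
      fun x => x.2.toAdd)).subset fun j hj => ?_
    by_contra h'
    refine hj ?_
    ext p q g
    by_contra h2
    exact h' (Set.mem_iUnion.2 ⟨(p, q), (g, ofAdd j), Finsupp.mem_support_iff.2 h2, rfl⟩)
  · have e : (inc F).mapMatrix (1 - B) * Γ + (inc F).mapMatrix B * (scalar n (tt F 1) * Γ) = 1 := by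
      rw [← hΓ, map_sub, map_one]
      noncomm_ring
    have h2 : (scalar n (tt F 1) * Γ).map (cf j) = Γ.map (cf (j - 1)) := by
      ext1 p q
      simp [cf_tt]
    have h3 := congrArg (fun Z => Z.map (cf j)) e
    simp only [Matrix.map_add _ (map_add (cf j)), h1, h2] at h3
    rw [h3]
    ext1 p q
    by_cases hpq : p = q <;> split_ifs with hj <;> simp [hpq, cf_one, hj, Matrix.one_apply]

theorem sym_tors' (c : Inv (MonoidAlgebra ℤ (F × Multiplicative ℤ)) W)
    (hN : NilTors (F × Multiplicative ℤ))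
    {A : Matrix n n (MonoidAlgebra ℤ (F × Multiplicative ℤ))} (hA : IsUnit A) :
    IsOfFinAddOrder ((sym c).c A) := by
  let Q : Submodule ℤ (MonoidAlgebra ℤ (F × Multiplicative ℤ)) :=
    { carrier := {x | ∃ a b, x = inc F a + inc F b * (tt F 1 - 1)}
      zero_mem' := ⟨0, 0, by simp⟩
      add_mem' := by
        rintro _ _ ⟨a, b, rfl⟩ ⟨a', b', rfl⟩
        exact ⟨a + a', b + b', by simp only [map_add, add_mul]; abel⟩
      smul_mem' := by
        rintro k _ ⟨a, b, rfl⟩
        exact ⟨k • a, k • b, by simp only [map_zsmul, smul_add, smul_mul_assoc]⟩ }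
  have ht : ∀ k : ℕ, tt F k ∈ Subring.closure (Q : Set _) := fun k => by
    induction k with
    | zero => exact one_mem _
    | succ k ih =>
      rw [Nat.cast_succ, ← tt_add]
      exact mul_mem ih (Subring.subset_closure ⟨1, 1, by simp⟩)
  have h1 : ∀ x, ∃ k : ℕ, ∀ l : ℕ, k ≤ l → x * tt F l ∈ Subring.closure (Q : Set _) := fun x => by
    induction x using MonoidAlgebra.induction_linear with
    | zero => exact ⟨0, fun _ _ => by simp⟩
    | add a b ha hb =>
      obtain ⟨k, ha⟩ := ha
      obtain ⟨k', hb⟩ := hb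
      exact ⟨k + k', fun l hl => by
        rw [add_mul]; exact add_mem (ha l (by omega)) (hb l (by omega))⟩
    | single g a =>
      refine ⟨g.2.toAdd.natAbs, fun l hl => ?_⟩
      have : MonoidAlgebra.single g a * tt F l =
          inc F (.single g.1 a) * tt F ((g.2.toAdd + l).toNat : ℕ) := by
        rw [Int.toNat_of_nonneg (by omega)]
        obtain ⟨g, j⟩ := g
        simp [tt, inc, single_mul_single, ofAdd_add]
      rw [this]
      exact mul_mem (Subring.subset_closure ⟨.single g.1 a, 0, by simp⟩) (ht _)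
  have hs : ∀ k, scalar n (tt F k) * scalar n (tt F (-k)) = 1 ∧
      scalar n (tt F (-k)) * scalar n (tt F k) = 1 := fun k => by
    simp only [← map_mul, tt_add, add_neg_cancel, neg_add_cancel, tt_zero, map_one, and_self]
  choose k hk using fun p : n × n => h1 (A p.1 p.2)
  have hu := isUnit_of_inv (hs (Finset.univ.sup k : ℕ)).1 (hs _).2
  have h2 := (sym c).mul hA hu
  rw [sym_zero c (hs _).1 (hs _).2 (by rw [map_scalar, sig_tt])
    (by rw [map_scalar, epz_tt, map_one]), add_zero] at h2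
  rw [← h2]
  refine linearize (sym c) Q ⟨1, 0, by simp⟩ IsOfFinAddOrder (fun m _ _ M hM hQ => ?_) (hA.mul hu)
    fun i j => by
      rw [scalar_apply, mul_diagonal]
      exact hk (i, j) _ (Finset.le_sup (Finset.mem_univ _))
  choose X Y hXY using hQ
  have e1 : M = (inc F).mapMatrix (.of X) + (inc F).mapMatrix (.of Y) * (scalar m (tt F 1) - 1) := by
    rw [← map_one (scalar m), ← map_sub]
    ext1 i j
    simp [hXY]
  have e2 : (mapDomainRingHom ℤ (MonoidHom.fst F _)).mapMatrix M = .of X := by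
    rw [e1, map_add, map_mul, map_sub, map_scalar, fst_tt, map_one, map_one, sub_self, mul_zero,
      add_zero, mm_inc (g := RingHom.id _) fst_inc]
    rfl
  obtain ⟨U, hU⟩ : IsUnit (Matrix.of X) := e2 ▸ hM.map _
  have e3 : M = (inc F).mapMatrix U.val *
      (1 + (inc F).mapMatrix (U⁻¹.val * .of Y) * (scalar m (tt F 1) - 1)) := by
    rw [mul_add, mul_one, ← mul_assoc, ← map_mul, U.mul_inv_cancel_left, hU, e1]
  generalize U⁻¹.val * Matrix.of Y = B at e3
  have h3 : IsUnit ((inc F).mapMatrix U.val) := U.isUnit.map _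
  have h4 : IsUnit (1 + (inc F).mapMatrix B * (scalar m (tt F 1) - 1)) :=
    (h3.mul_left_iff).1 (e3 ▸ hM)
  obtain ⟨l, hl⟩ := nil_of_unit' h4
  obtain ⟨E, J, a1, a2, a3, a4, a5, a6⟩ := exists_idem hl
  obtain ⟨b1, b2, b3⟩ := comm_ids (b := (inc F).mapMatrix B) (e := (inc F).mapMatrix E)
    (s := scalar m (tt F 1)) (u := scalar m (tt F (-1))) (a1.map _) (scalar_comm _) (scalar_comm _)
    (by rw [← map_mul, a2]) (by rw [← map_mul, tt_add]; exact map_one _)
  have h5 : ∀ k r, Commute (inc F r) (tt F k - 1) := fun k r =>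
    (tt_comm k _).symm.sub_right (Commute.one_right _)
  have h8 := Zs_nil (inc F) a4 (add_mem
    (Submodule.subset_span ⟨_, a5, _, h5 1, rfl⟩) (Submodule.subset_span ⟨_, a6, _, h5 (-1), rfl⟩))
  have h6 := h8.isUnit_one_add
  have h7 := hN _ (sym c) _ _ h8.neg
  rw [sub_neg_eq_add] at h7
  simp only [map_mul, map_sub, map_one] at h6 h7
  rw [e3, (sym c).mul h3 h4, sym_inc, zero_add, ← b1, (sym c).mul (isUnit_of_inv b2 b3) h6,
    sym_zero c b2 b3, zero_add]
  · exact h7
  · simp only [map_add, map_mul, map_sub, map_one, mm_inc (g := inc F) sig_inc, map_scalar,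
      sig_tt]
  · simp only [map_add, map_mul, map_sub, map_one, mm_inc (g := inc F) epz_inc, map_scalar,
      epz_tt, mul_one,
      sub_add_cancel]

theorem NegCl.prodInt' (hF : NegCl F) (hN : NilTors (F × Multiplicative ℤ)) :
    NegCl (F × Multiplicative ℤ) := by
  intro W _ c x hx
  obtain ⟨ι, _, _, r, h1, h2, rfl⟩ := id hx
  obtain ⟨k, hk, h⟩ := isOfFinAddOrder_iff_nsmul_eq_zero.1 (sym_tors' c hN h2)
  have h3 := push_mem c (sig F) h1 h2
  have h4 := (hF.via c (MonoidHom.fst F _) (MonoidHom.inl F _) h1 h2).2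
  refine neg_mem_of hk hx ?_
  have := (Alg c).nsmul_mem (add_mem h3 ((Alg c).nsmul_mem h4 2)) k
  rw [sym_c, add_sub_assoc, nsmul_add, add_eq_zero_iff_neg_eq] at h
  rw [h, sub_eq_add_neg, ← neg_nsmul]
  exact this

theorem NilTors.retract {G C : Type} [Group G] [Group C] (hC : NilTors C) (f : G →* C)
    (g : C →* G) (h : ∀ x, g (f x) = x) : NilTors G := by
  intro W _ c n _ _ Y hY
  have := hC W (c.pull (mapDomainRingHom ℤ g)) n _ (hY.map (mapDomainRingHom ℤ f).mapMatrix)
  rw [← map_one (mapDomainRingHom ℤ f).mapMatrix, ← map_sub] at this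
  change IsOfFinAddOrder (c.c (((1 - Y).map _).map _)) at this
  rwa [Matrix.map_map, ← RingHom.coe_comp, ← mapDomainRingHom_comp,
    show g.comp f = MonoidHom.id G from MonoidHom.ext h, mapDomainRingHom_id, RingHom.coe_id,
    Matrix.map_id] at this

theorem NilTors.equiv {G C : Type} [Group G] [Group C] (hC : NilTors C) (e : G ≃* C) :
    NilTors G := hC.retract e.toMonoidHom e.symm.toMonoidHom e.symm_apply_apply

end Pool.Agent.Lib.MP_2add11_gt.IG
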