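import Pool.Agent.Lib.MP_2add11_gt.IG.Space

/-!
A locally finite union of discs whose boundaries contract in the union is simply connected;
classes of paths; trivialising a cocycle on the Cayley graph of a presentation.
-/

noncomputable section

namespace Pool.Agent.Lib.MP_2add11_gt.FG

open unitInterval Set Metric Topology

theorem closedMap_lf {Y Z ι : Type} [TopologicalSpace Y] [T2Space Y] [TopologicalSpace Z]
    [CompactSpace Z] [TopologicalSpace ι] [DiscreteTopology ι] (φ : ι → Z → Y)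
    (hφ : ∀ i, Continuous (φ i)) (hl : LocallyFinite fun i => range (φ i)) :
    IsClosedMap fun x : ι × Z => φ x.1 x.2 := fun C hC => by
  have : (fun x : ι × Z => φ x.1 x.2) '' C = ⋃ i, φ i '' (Prod.mk i ⁻¹' C) := by
    ext y
    simp
  rw [this]
  exact (hl.subset fun i => image_subset_range _ _).isClosed_iUnion fun i =>
    (hφ i).isClosedMap _ (hC.preimage (by fun_prop))

theorem radial_defI {Y ι : Type} [TopologicalSpace Y] [T2Space Y]
    (φ : ι → Sq → Y) (hφ : ∀ i, Continuous (φ i)) (hl : LocallyFinite fun i => range (φ i))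
    (hs : ∀ y, ∃ i z, φ i z = y)
    (hi : ∀ i j z z', ‖z.1‖ ≠ 1 → φ i z = φ j z' → i = j ∧ z = z') {W : Set Y} (hWo : IsOpen W)
    (hW : ∀ i z, φ i z ∈ W ↔ z.1 ≠ 0) : ∃ G : C(I × W, Y), (∀ y, G (0, y) = y) ∧
      ∀ y, ∃ i z, ‖z.1‖ = 1 ∧ φ i z = G (1, y) := by
  let : TopologicalSpace ι := ⊥
  have : DiscreteTopology ι := ⟨rfl⟩
  let q : ι × Sq → Y := fun x => φ x.1 x.2
  have hqc : Continuous q := continuous_prod_of_discrete_left.2 hφ
  have hq : IsQuotientMap q := (closedMap_lf φ hφ hl).isQuotientMap hqc fun y => by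
    obtain ⟨i, z, e⟩ := hs y
    exact ⟨(i, z), e⟩
  obtain ⟨G, hG⟩ := descend (hq.restrictPreimage_isOpen hWo)
    (fun x : I × (q ⁻¹' W) => q (x.2.1.1, radial x.1 x.2.1.2 ((hW _ _).1 x.2.2)))
    (hqc.comp (Continuous.prodMk (by fun_prop) (Continuous.subtype_mk (Continuous.smul
      (Continuous.add (by fun_prop) (Continuous.div (by fun_prop) (by fun_prop)
        fun x => norm_ne_zero_iff.2 ((hW _ _).1 x.2.2))) (by fun_prop)) _))) (by
      rintro s ⟨⟨i, z⟩, hz⟩ ⟨⟨j, z'⟩, hz'⟩ e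
      have e' : φ i z = φ j z' := congrArg Subtype.val e
      by_cases h1 : ‖z.1‖ = 1
      · by_cases h2 : ‖z'.1‖ = 1
        · simp only [radial_sphere _ _ _ h1, radial_sphere _ _ _ h2, q, e']
        · obtain ⟨rfl, rfl⟩ := hi _ _ _ _ h2 e'.symm
          rfl
      · obtain ⟨rfl, rfl⟩ := hi _ _ _ _ h1 e'
        rfl)
  refine ⟨G, fun y => ?_, fun y => ?_⟩
  · obtain ⟨a, rfl⟩ := (hq.restrictPreimage_isOpen hWo).surjective y
    rw [hG]
    simp only [radial_zero]
    rfl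
  · obtain ⟨a, rfl⟩ := (hq.restrictPreimage_isOpen hWo).surjective y
    rw [hG]
    exact ⟨_, _, radial_one _ ((hW _ _).1 a.2), rfl⟩

theorem simply_of_cellsI {Y ι : Type} [TopologicalSpace Y] [T2Space Y]
    (φ : ι → Sq → Y) (hφ : ∀ i, Continuous (φ i)) (hl : LocallyFinite fun i => range (φ i))
    (hs : ∀ y, ∃ i z, φ i z = y)
    (hi : ∀ i j z z', ‖z.1‖ ≠ 1 → φ i z = φ j z' → i = j ∧ z = z') (y0 : Y) {B : Set Y}
    (hB : ∀ i z, ‖z.1‖ = 1 → φ i z ∈ B) (C : C(I × B, Y)) (C0 : ∀ y, C (0, y) = y)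
    (C1 : ∀ y, C (1, y) = y0) : SimplyConnectedSpace Y := by
  let o : Sq := ⟨0, by simp⟩
  let W : Set Y := (range fun i => φ i o)ᶜ
  have hWo : IsOpen W := by
    refine IsClosed.isOpen_compl (self := ?_)
    rw [← iUnion_singleton_eq_range]
    exact (hl.subset fun i => singleton_subset_iff.2 ⟨o, rfl⟩).isClosed_iUnion
      fun _ => isClosed_singleton
  have hW : ∀ i z, φ i z ∈ W ↔ z.1 ≠ 0 := fun i z => by
    refine not_congr ⟨?_, fun h => ⟨i, congrArg _ (Subtype.ext h.symm)⟩⟩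
    rintro ⟨j, e⟩
    rw [← (hi j i o z (by simp [o]) e).2]
  obtain ⟨G, G0, G1⟩ := radial_defI φ hφ hl hs hi hWo hW
  have hGB : ∀ y, G (1, y) ∈ B := fun y => by
    obtain ⟨i, z, h, e⟩ := G1 y
    exact e ▸ hB i z h
  obtain ⟨N⟩ : (⟨Subtype.val, continuous_subtype_val⟩ : C(W, Y)).Homotopic (.const _ y0) :=
    ContinuousMap.Homotopic.trans (g := ⟨fun y => G (1, y), by fun_prop⟩) ⟨⟨G, G0, fun _ => rfl⟩⟩
      ⟨⟨⟨fun x => C (x.1, ⟨_, hGB x.2⟩), by fun_prop⟩, fun y => C0 _, fun y => C1 _⟩⟩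
  let δ0 : ∀ y : W, Path y0 y := fun y =>
    ⟨⟨fun s => N (σ s, y), by fun_prop⟩, by simp, by simp⟩
  have h0 : ∀ (a b : W) (γ : Path a.1 b.1), (∀ s, γ s ∈ W) →
      ((δ0 a).trans γ).Homotopic (δ0 b) := fun a b γ hγ => by
    let f : ℝ × ℝ → Y := fun x => N (projIcc 0 1 zero_le_one x.1,
      ⟨γ (projIcc 0 1 zero_le_one x.2), hγ _⟩)
    have hf : Continuous f := N.continuous.comp (Continuous.prodMk
      (continuous_projIcc.comp continuous_fst) (Continuous.subtype_mk
        (γ.continuous.comp (continuous_projIcc.comp continuous_snd)) _))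
    have e : ∀ (s u : I), f (s, u) = N (s, ⟨γ u, hγ u⟩) := fun s u => by simp [f]
    let D : Path y0 b.1 := ⟨⟨fun s => N (σ s, ⟨γ s, hγ s⟩), by fun_prop⟩, by simp, by simp⟩
    let D' : Path ((1 : ℝ), (0 : ℝ)) (0, 1) := ⟨⟨fun s => (σ s, s), by fun_prop⟩, by simp, by simp⟩
    refine (tri_homotopic hf _ _ D (b' := (0, 0)) ⟨⟨fun s => (σ s, (0 : I)), by fun_prop⟩, by simp,
      by simp⟩ ⟨⟨fun s => ((0 : I), s), by fun_prop⟩, by simp, by simp⟩ D' (fun s => ?_)
      (fun s => ?_) fun s => (e _ _).symm).trans ((tri_homotopic hf (Path.refl _) (δ0 b) D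
        (b' := (1, 1)) ⟨⟨fun s => ((1 : I), s), by fun_prop⟩, by simp, by simp⟩
        ⟨⟨fun s => (σ s, (1 : I)), by fun_prop⟩, by simp, by simp⟩ D' (fun s => ?_) (fun s => ?_)
        fun s => (e _ _).symm).symm.trans (Path.Homotopic.refl_trans _))
    · exact Eq.trans (by simp [δ0]) (e _ _).symm
    · exact Eq.trans (by simp) (e _ _).symm
    · exact Eq.trans (by simp) (e _ _).symm
    · exact Eq.trans (by simp [δ0]) (e _ _).symm
  have : ContractibleSpace Sq := (convex_closedBall _ _).contractibleSpace (by simp)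
  let z0 : Sq := ⟨1, by simp⟩
  have hz0 : ‖z0.1‖ = 1 := by simp [z0]
  have hz0' : ∀ i, φ i z0 ∈ W := fun i => (hW _ _).2 fun e => by simp [e] at hz0
  let δ1 : ∀ i z, Path y0 (φ i z) := fun i z =>
    (δ0 ⟨_, hz0' i⟩).trans ((PathConnectedSpace.somePath z0 z).map (hφ i))
  have hex : ∀ y, ∃ d : Path y0 y, (∀ h : y ∈ W, d.Homotopic (δ0 ⟨y, h⟩)) ∧
      ∀ i z (e : y = φ i z), ‖z.1‖ ≠ 1 → d.Homotopic ((δ1 i z).cast rfl e) := fun y => by
    obtain ⟨i, z, rfl⟩ := hs y
    by_cases h : ‖z.1‖ = 1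
    · refine ⟨δ0 ⟨_, (hW _ _).2 fun e => by simp [e] at h⟩, fun _ => .refl _, fun j z' e h' => ?_⟩
      exact absurd ((hi _ _ _ _ h' e.symm).2 ▸ h) h'
    · refine ⟨δ1 i z, fun hz => ?_, fun j z' e _ => ?_⟩
      · obtain ⟨p, hp⟩ := punct_joined hz0 ((hW _ _).1 hz)
        exact ((Path.Homotopic.refl _).hcomp ((SimplyConnectedSpace.paths_homotopic _ p).map
          ⟨_, hφ i⟩)).trans (h0 ⟨_, hz0' i⟩ ⟨_, hz⟩ _ fun s => (hW _ _).2 (hp s))
      · obtain ⟨rfl, rfl⟩ := hi _ _ _ _ h e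
        exact .refl _
  choose δ hδ0 hδ1 using hex
  let U : Option ι → Set Y := fun k => k.elim W fun i =>
    ((⋃ j ∈ ({i}ᶜ : Set ι), range (φ j)) ∪ φ i '' {z | ‖z.1‖ = 1})ᶜ
  have hU : ∀ i y, y ∈ U (some i) → ∃ z : Sq, ‖z.1‖ ≠ 1 ∧ φ i z = y := fun i y hy => by
    obtain ⟨j, z, rfl⟩ := hs y
    obtain rfl : j = i := by
      by_contra h
      exact hy (.inl (mem_biUnion h ⟨z, rfl⟩))
    exact ⟨z, fun h => hy (.inr ⟨z, h, rfl⟩), rfl⟩
  refine simply_of_delta y0 U (fun k => ?_) (fun y => ?_) δ fun k a b γ hγ => ?_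
  · cases k with
    | none => exact hWo
    | some i => exact (((hl.subset fun j => iUnion_subset fun _ => Subset.rfl).isClosed_iUnion fun j =>
        isClosed_iUnion_of_finite fun _ => (isCompact_range (hφ j)).isClosed).union
        ((isClosed_eq (by fun_prop) continuous_const).isCompact.image (hφ i)).isClosed).isOpen_compl
  · by_cases h : y ∈ W
    · exact ⟨none, h⟩
    · obtain ⟨i, rfl⟩ := not_not.1 h
      refine ⟨some i, ?_⟩
      rintro (h | ⟨z, hz, e⟩)
      · obtain ⟨j, hj, z, e⟩ := mem_iUnion₂.1 h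
        exact hj (hi _ _ _ _ (by simp [o]) e.symm).1.symm
      · rw [← (hi _ _ _ _ (by simp [o]) e.symm).2] at hz
        simp [o] at hz
  · cases k with
    | none =>
      have ha : a ∈ W := γ.source ▸ hγ 0
      have hb : b ∈ W := γ.target ▸ hγ 1
      exact (((hδ0 a ha).hcomp (.refl _)).trans (h0 ⟨a, ha⟩ ⟨b, hb⟩ γ hγ)).trans (hδ0 b hb).symm
    | some i =>
      choose g g1 g2 using fun s => hU i _ (hγ s)
      have hg : Continuous g := by
        classical
        let inv : Y → (Fin 2 → ℝ) := fun y =>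
          if h : ∃ z : Sq, ‖z.1‖ ≠ 1 ∧ φ i z = y then h.choose.1 else 0
        have hinv : ∀ z : Sq, ‖z.1‖ ≠ 1 → inv (φ i z) = z.1 := fun z hz => by
          have h : ∃ z' : Sq, ‖z'.1‖ ≠ 1 ∧ φ i z' = φ i z := ⟨z, hz, rfl⟩
          simp only [inv, dif_pos h]
          rw [(hi _ _ _ _ h.choose_spec.1 h.choose_spec.2).2]
        have h1 := continuousOn_inv_cell (f := fun v => φ i (prj v)) (g := inv)
          ((hφ i).comp continuous_prj).continuousOn (fun z hz z' hz' e => by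
            have := (hi _ _ _ _ (ball2 hz) e).2
            rw [prj_of_mem (ball_subset_closedBall hz), prj_of_mem hz'] at this
            exact congrArg Subtype.val this)
          fun z hz => by rw [hinv _ (ball2 hz), prj_of_mem (ball_subset_closedBall hz)]
        refine continuous_induced_rng.2 ((h1.comp_continuous γ.continuous fun s =>
          ⟨(g s).1, mem_ball_zero_iff.2 (lt_of_le_of_ne (mem_closedBall_zero_iff.1 (g s).2)
            (g1 s)), by simp only [prj_val, g2]⟩).congr fun s => ?_)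
        simp only [Function.comp_apply, ← g2, hinv _ (g1 s)]
      obtain rfl : a = φ i (g 0) := by rw [g2, γ.source]
      have eb : b = φ i (g 1) := by rw [g2, γ.target]
      refine (((hδ1 _ i _ rfl (g1 0)).hcomp (.refl _)).trans ?_).trans (hδ1 _ i _ eb (g1 1)).symm
      refine (Path.Homotopic.trans_assoc _ _ _).trans ((Path.Homotopic.refl _).hcomp
        (tri_homotopic (hφ i) _ γ (((PathConnectedSpace.somePath z0 (g 1)).map (hφ i)).cast rfl eb)
          (PathConnectedSpace.somePath z0 (g 0)) ⟨⟨g, hg⟩, rfl, rfl⟩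
          (PathConnectedSpace.somePath z0 (g 1)) (fun _ => rfl) (fun s => (g2 s).symm)
          fun _ => rfl))

open CategoryTheory in
theorem exists_cls {Y : Type} [TopologicalSpace Y] (y0 : Y) (β : ∀ y, Path y0 y) :
    ∃ (Γ : Type) (_ : Group Γ) (cls : ∀ {a b : Y}, Path a b → Γ),
      (∀ a b c (p : Path a b) (q : Path b c), cls (p.trans q) = cls p * cls q) ∧
      (∀ a b (p q : Path a b), cls p = cls q ↔ p.Homotopic q) ∧
      ∀ a b x, ∃ p : Path a b, cls p = x := by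
  let m : ∀ {a b : Y}, Path a b → (FundamentalGroupoid.mk a ⟶ FundamentalGroupoid.mk b) :=
    fun p => Path.Homotopic.Quotient.mk p
  have hm : ∀ {a b c : Y} (p : Path a b) (q : Path b c), m (p.trans q) = m p ≫ m q :=
    fun p q => rfl
  refine ⟨(End (FundamentalGroupoid.mk y0))ᵐᵒᵖ, inferInstance,
    fun {a b} p => MulOpposite.op (m (β a) ≫ m p ≫ inv (m (β b))), fun a b c p q => ?_,
    fun a b p q => ?_, fun a b x => ?_⟩
  · dsimp only
    rw [← MulOpposite.op_mul, End.mul_def, hm]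
    simp
  · rw [MulOpposite.op_inj]
    refine Iff.trans ⟨fun h => ?_, fun h => by rw [h]⟩
      (show m p = m q ↔ _ from Path.Homotopic.Quotient.eq)
    exact (cancel_mono _).1 ((cancel_epi _).1 h)
  · obtain ⟨p, hp⟩ := Path.Homotopic.Quotient.mk_surjective
      (show Path.Homotopic.Quotient a b from inv (m (β a)) ≫ x.unop ≫ m (β b))
    refine ⟨p, ?_⟩
    dsimp only
    rw [show m p = inv (m (β a)) ≫ x.unop ≫ m (β b) from hp]
    simp

theorem square_of_homotopic {Y : Type} [TopologicalSpace Y] {y0 a b : Y} (p : Path y0 a)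
    (e : Path a b) (q : Path y0 b) (h : (p.trans e).Homotopic q) :
    ∃ F : C(I × I, Y), (∀ u, F (0, u) = e u) ∧ (∀ u, F (1, u) = y0) ∧
      (∀ s, F (s, 0) = p.extend (2 - 3 * s)) ∧ ∀ s, F (s, 1) = q.extend (2 - 3 * s) := by
  obtain ⟨H⟩ := h
  let c : ℝ → I := projIcc 0 1 zero_le_one
  have hc : Continuous c := continuous_projIcc
  have c0 : c 0 = 0 := projIcc_left _
  have c1 : c 1 = 1 := projIcc_right _
  refine ⟨⟨fun x => H (x.2 * c (3 * x.1), c ((1 + x.2) / 2 * c (2 - 3 * x.1))), by fun_prop⟩,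
    fun u => ?_, fun u => ?_, fun s => ?_, fun s => ?_⟩
  · have h1 : c (2 - 3 * ((0 : I) : ℝ)) = 1 := projIcc_of_right_le _ (by norm_num)
    have h2 := nonneg u
    simp only [ContinuousMap.coe_mk, h1]
    rw [show (3 : ℝ) * ((0 : I) : ℝ) = 0 by simp, c0, mul_zero, H.apply_zero]
    change (p.trans e).extend _ = _
    rw [Path.extend_trans_of_half_le _ _ (by simp; linarith), ← e.extend_extends' u]
    congr 1
    simp
    ring
  · have h1 : c (2 - 3 * ((1 : I) : ℝ)) = 0 := projIcc_of_le_left _ (by norm_num)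
    simp only [ContinuousMap.coe_mk, h1]
    rw [show (1 + (u : ℝ)) / 2 * ((0 : I) : ℝ) = 0 by simp, c0, H.source]
  · have h2 := le_one (c (2 - 3 * s))
    simp only [ContinuousMap.coe_mk, zero_mul]
    rw [H.apply_zero]
    change (p.trans e).extend _ = p (c _)
    rw [Path.extend_trans_of_le_half _ _ (by simp; linarith), ← p.extend_extends' (c _)]
    congr 1
    simp
  · simp only [ContinuousMap.coe_mk, one_mul]
    rw [show (1 + ((1 : I) : ℝ)) / 2 * (c (2 - 3 * s) : ℝ) = c (2 - 3 * s) by simp,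
      show c (c (2 - 3 * s)) = c (2 - 3 * s) from projIcc_val _ _]
    change _ = q (c _)
    rcases le_total (3 * (s : ℝ)) 1 with h | h
    · rw [show c (2 - 3 * s) = 1 from projIcc_of_right_le _ (by linarith), H.target, q.target]
    · rw [show c (3 * s) = 1 from projIcc_of_right_le _ h, H.apply_one]
      rfl

/-- The value of a cocycle on a word. -/
def kw {G S Γ : Type} [Group G] [Group Γ] (d : S → G) (κ : G → S → Γ) :
    G → List (S × Bool) → Γ
  | _, [] => 1
  | g, l :: w => (if l.2 then κ g l.1 else (κ (g * (d l.1)⁻¹) l.1)⁻¹) * kw d κ (nxt d g l) w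

theorem foldl_nxt {G S : Type} [Group G] (d : S → G) (w : List (S × Bool)) (g : G) :
    w.foldl (nxt d) g = g * FreeGroup.lift d (FreeGroup.mk w) := by
  induction w generalizing g with
  | nil => simp
  | cons l w ih =>
    rw [List.foldl_cons, ih, FreeGroup.lift_mk, FreeGroup.lift_mk, List.map_cons, List.prod_cons]
    obtain ⟨a, _ | _⟩ := l <;> simp [nxt, mul_assoc]

theorem exists_prim {G S T Γ : Type} [Group G] [Group Γ] (d : S → G) (R : T → List (S × Bool))
    (closed : ∀ g c, (R c).foldl (nxt d) g = g)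
    (gen : ∀ g, ∃ w, FreeGroup.lift d (FreeGroup.mk w) = g)
    (univ : ∀ (Δ : Type) [Group Δ] (f : S → Δ), (∀ c, FreeGroup.lift f (FreeGroup.mk (R c)) = 1) →
      ∃ φ : G →* Δ, ∀ s, φ (d s) = f s)
    (κ : G → S → Γ) (hκ : ∀ g c, kw d κ g (R c) = 1) :
    ∃ ξ : G → Γ, ∀ g s, ξ (g * d s) = ξ g * κ g s := by
  let ρ : S → Equiv.Perm (G × Γ) := fun s =>
    { toFun := fun x => (x.1 * d s, x.2 * κ x.1 s)
      invFun := fun x => (x.1 * (d s)⁻¹, x.2 * (κ (x.1 * (d s)⁻¹) s)⁻¹)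
      left_inv := fun x => by simp
      right_inv := fun x => by simp }
  have key : ∀ w g x, (FreeGroup.lift (fun s => (ρ s)⁻¹) (FreeGroup.mk w))⁻¹ (g, x) =
      (w.foldl (nxt d) g, x * kw d κ g w) := fun w => by
    induction w with
    | nil => simp [kw]
    | cons l w ih =>
      intro g x
      rw [FreeGroup.lift_mk] at ih ⊢
      rw [List.map_cons, List.prod_cons, mul_inv_rev, Equiv.Perm.mul_apply, List.foldl_cons, kw,
        ← mul_assoc, ← ih]
      obtain ⟨a, _ | _⟩ := l <;> rfl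
  obtain ⟨φ, hφ⟩ := univ _ (fun s => (ρ s)⁻¹) fun c => inv_eq_one.1 (Equiv.ext fun x => by
    rw [key, closed, hκ]
    simp)
  have h1 : ∀ g, ((φ g)⁻¹ (1, 1)).1 = g := fun g => by
    obtain ⟨w, rfl⟩ := gen g
    rw [← MonoidHom.comp_apply, show φ.comp (FreeGroup.lift d) = FreeGroup.lift fun s => (ρ s)⁻¹ by
      ext1 s; simp [hφ], key, foldl_nxt, one_mul]
  refine ⟨fun g => ((φ g)⁻¹ (1, 1)).2, fun g s => ?_⟩
  dsimp only
  rw [map_mul, mul_inv_rev, hφ, inv_inv, Equiv.Perm.mul_apply]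
  change _ * κ _ s = _
  rw [h1]

end Pool.Agent.Lib.MP_2add11_gt.FG
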