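import Pool.Agent.Lib.MP_2add11_gt.IG.Nil

/-!
Matrices that lower a chain of right ideals over the integral group ring of a finite group.
-/

noncomputable section

namespace Pool.Agent.Lib.MP_2add11_gt.IG

open Matrix MonoidAlgebra FG

variable {F S W n : Type} [Group F] [Finite F] [Ring S] [AddCommGroup W] [Fintype n]
  [DecidableEq n]

theorem exists_clear (e : Matrix n n (MonoidAlgebra ℚ F)) :
    ∃ (d : ℕ) (D : Matrix n n (MonoidAlgebra ℤ F)), 0 < d ∧
      (mapRingHom F (Int.castRingHom ℚ)).mapMatrix D = (d : ℤ) • e := by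
  have := Fintype.ofFinite F
  let d : ℕ := ∏ x : n × n × F, ((e x.1 x.2.1).coeff x.2.2).den
  refine ⟨d, .of fun i j => .ofCoeff (Finsupp.equivFunOnFinite.symm
    fun g => (d / ((e i j).coeff g).den : ℕ) * ((e i j).coeff g).num),
    Finset.prod_pos fun x _ => Rat.den_pos _, ?_⟩
  ext i j g
  obtain ⟨q, hq⟩ := Finset.dvd_prod_of_mem
    (fun x : n × n × F => ((e x.1 x.2.1).coeff x.2.2).den) (Finset.mem_univ (i, j, g))
  have hq' : d = ((e i j).coeff g).den * q := hq
  simp only [RingHom.mapMatrix_apply, map_apply, Matrix.of_apply, coeff_mapRingHom,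
    Matrix.smul_apply, coeff_smul_apply, Finsupp.equivFunOnFinite_symm_apply_apply, eq_intCast]
  rw [hq', Nat.mul_div_cancel_left _ ((e i j).coeff g).den_pos, zsmul_eq_mul]
  push_cast
  rw [mul_right_comm, Rat.den_mul_eq_num, mul_comm]

theorem exists_unit_right (V : Submodule ℤ (Matrix n n (MonoidAlgebra ℤ F)))
    (hV : ∀ Y ∈ V, ∀ B, Y * B ∈ V) :
    ∃ (d : ℕ) (D : Matrix n n (MonoidAlgebra ℤ F)), 0 < d ∧ D ∈ V ∧
      ∀ Y ∈ V, D * Y = (d : ℤ) • Y := by
  have : NeZero (Nat.card F : ℚ) := ⟨by exact_mod_cast Nat.card_pos.ne'⟩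
  let ι := (mapRingHom F (Int.castRingHom ℚ)).mapMatrix (m := n)
  have inj : Function.Injective ι := fun A B h => by
    ext i j g
    have := congrArg (fun Z => (Z i j).coeff g) h
    simpa [ι] using this
  obtain ⟨e, he, hI⟩ := IsSemisimpleRing.ideal_eq_span_idempotent
    (Ideal.span ((fun Y => MulOpposite.op (ι Y)) '' V))
  have h1 : ∀ a ∈ Ideal.span ((fun Y => MulOpposite.op (ι Y)) '' V), ∃ (d : ℕ) (D : _), 0 < d ∧
      D ∈ V ∧ ι D = (d : ℤ) • a.unop := fun a ha => by
    induction ha using Submodule.span_induction with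
    | mem a ha =>
      obtain ⟨Y, hY, rfl⟩ := ha
      exact ⟨1, Y, one_pos, hY, by simp⟩
    | zero => exact ⟨1, 0, one_pos, zero_mem _, by simp⟩
    | add a b _ _ p q =>
      obtain ⟨d, D, h1, h2, h3⟩ := p
      obtain ⟨d', D', h1', h2', h3'⟩ := q
      refine ⟨d * d', (d' : ℤ) • D + (d : ℤ) • D', mul_pos h1 h1',
        add_mem (V.smul_mem _ h2) (V.smul_mem _ h2'), ?_⟩
      rw [map_add, map_zsmul, map_zsmul, h3, h3', smul_smul, smul_smul, MulOpposite.unop_add,
        smul_add, Nat.cast_mul, mul_comm (d' : ℤ)]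
    | smul b a _ p =>
      obtain ⟨d, D, h1, h2, h3⟩ := p
      obtain ⟨d', B, h1', h3'⟩ := exists_clear b.unop
      refine ⟨d * d', D * B, mul_pos h1 h1', hV D h2 B, ?_⟩
      rw [map_mul, h3, h3', smul_mul_smul_comm, smul_eq_mul, MulOpposite.unop_mul, Nat.cast_mul]
  obtain ⟨d, D, hd, hD, h2⟩ := h1 e (hI ▸ Ideal.subset_span rfl)
  refine ⟨d, D, hd, hD, fun Y hY => inj ?_⟩
  have h3 : MulOpposite.op (ι Y) ∈ Ideal.span ((fun Y => MulOpposite.op (ι Y)) '' V) :=
    Ideal.subset_span ⟨Y, hY, rfl⟩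
  obtain ⟨a, ha⟩ := Ideal.mem_span_singleton'.1 (hI ▸ h3)
  have h4 : ι Y = e.unop * a.unop := (congrArg MulOpposite.unop ha).symm
  rw [map_mul, h2, map_zsmul, smul_mul_assoc, h4, ← mul_assoc, ← MulOpposite.unop_mul, he.eq]

variable (φ : MonoidAlgebra ℤ F →+* S)

/-- The right ideal generated by the image of `V`. -/
def RS (V : Submodule ℤ (Matrix n n (MonoidAlgebra ℤ F))) : Submodule ℤ (Matrix n n S) :=
  .span ℤ {X | ∃ Y ∈ V, ∃ B, X = φ.mapMatrix Y * B}

omit [Finite F] in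
theorem RS_left {V : Submodule ℤ (Matrix n n (MonoidAlgebra ℤ F))}
    {V' : Submodule ℤ (Matrix n n (MonoidAlgebra ℤ F))} {Z : Matrix n n S}
    (h : ∀ Y ∈ V, Z * φ.mapMatrix Y ∈ RS φ V') {X : Matrix n n S} (hX : X ∈ RS φ V) :
    Z * X ∈ RS φ V' := by
  induction hX using Submodule.span_induction with
  | mem X hX =>
    obtain ⟨Y, hY, B, rfl⟩ := hX
    rw [← mul_assoc]
    have := h Y hY
    generalize Z * φ.mapMatrix Y = U at this
    induction this using Submodule.span_induction with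
    | mem U hU =>
      obtain ⟨Y', hY', B', rfl⟩ := hU
      exact Submodule.subset_span ⟨Y', hY', B' * B, mul_assoc _ _ _⟩
    | zero => simp
    | add a b _ _ p q => rw [add_mul]; exact add_mem p q
    | smul k a _ p => rw [smul_mul_assoc]; exact Submodule.smul_mem _ _ p
  | zero => simp
  | add a b _ _ p q => rw [mul_add]; exact add_mem p q
  | smul k a _ p => rw [mul_smul_comm]; exact Submodule.smul_mem _ _ p

omit [Finite F] in
theorem RS_bot {X : Matrix n n S} (h : X ∈ RS φ ⊥) : X = 0 := by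
  rw [← Submodule.mem_bot ℤ]
  refine Submodule.span_le.2 ?_ h
  rintro _ ⟨Y, hY, B, rfl⟩
  simp [(Submodule.mem_bot ℤ).1 hY]

omit [Finite F] in
theorem RS_self {V : Submodule ℤ (Matrix n n (MonoidAlgebra ℤ F))}
    {Y : Matrix n n (MonoidAlgebra ℤ F)} (h : Y ∈ V) : φ.mapMatrix Y ∈ RS φ V :=
  Submodule.subset_span ⟨Y, h, 1, (mul_one _).symm⟩

theorem chain_tors (c : Inv S W) (m : ℕ) :
    ∀ V : ℕ → Submodule ℤ (Matrix n n (MonoidAlgebra ℤ F)), (∀ j, ∀ Y ∈ V j, ∀ B, Y * B ∈ V j) →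
      Monotone V → V 0 = ⊥ → 1 ∈ V (m + 1) → ∀ Z : Matrix n n S,
      (∀ j, ∀ Y ∈ V (j + 1), Z * φ.mapMatrix Y ∈ RS φ (V j)) →
      IsUnit (1 + Z) ∧ IsOfFinAddOrder (c.c (1 + Z)) := by
  induction m with
  | zero =>
    intro V _ _ h0 h1 Z hZ
    have := hZ 0 1 h1
    rw [h0, map_one, mul_one] at this
    rw [RS_bot φ this, add_zero, c.one]
    exact ⟨isUnit_one, .zero⟩
  | succ m ih =>
    intro V hV hm h0 h1 Z hZ
    let J : Submodule ℤ (Matrix n n S) :=
      { carrier := {Z | ∀ j, ∀ Y ∈ V (j + 1), Z * φ.mapMatrix Y ∈ RS φ (V j)}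
        zero_mem' := fun j Y _ => by simp
        add_mem' := fun ha hb j Y hY => by rw [add_mul]; exact add_mem (ha j Y hY) (hb j Y hY)
        smul_mem' := fun k a ha j Y hY => by
          rw [smul_mul_assoc]; exact Submodule.smul_mem _ _ (ha j Y hY) }
    have h2 : ∀ k, Z ^ (k + 1) ∈ J := fun k => by
      induction k with
      | zero =>
        rw [zero_add, pow_one]
        exact hZ
      | succ k ih =>
        intro j Y hY
        rw [pow_succ', mul_assoc]
        exact RS_left φ (fun Y' hY' => hZ j Y' (hm j.le_succ hY')) (ih j Y hY)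
    have h3 : ∀ j : ℕ, ∀ X ∈ RS φ (V j), Z ^ j * X = 0 := fun j => by
      induction j with
      | zero => exact fun X hX => by rw [RS_bot φ (X := X) (h0 ▸ hX), mul_zero]
      | succ j ih =>
        intro X hX
        rw [pow_succ, mul_assoc]
        exact ih _ (RS_left φ (hZ j) hX)
    have h4 : Z ^ (m + 1 + 1) = 0 := by simpa using h3 _ _ (RS_self φ h1)
    have hu : IsUnit (1 + Z) := IsNilpotent.isUnit_one_add ⟨_, h4⟩
    obtain ⟨d, D, hd, hD, hD'⟩ := exists_unit_right (V 1) (hV 1)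
    obtain ⟨q, hq, Z', hZ', e⟩ := pow_cong h2 h4 hd
    have h5 : Z' * φ.mapMatrix ((d : ℤ) • 1 - D) = (d : ℤ) • Z' := by
      have := hZ' 0 D hD
      rw [h0] at this
      rw [map_sub, mul_sub, RS_bot φ this, sub_zero, map_zsmul, map_one, mul_smul_comm, mul_one]
    obtain ⟨h8, h9⟩ := ih (fun j => j.casesOn ⊥ fun j => V (j + 2))
      (by
        rintro (_ | j) Y hY B
        · simp [(Submodule.mem_bot ℤ).1 hY]
        · exact hV _ Y hY B)
      (monotone_nat_of_le_succ fun j => by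
        cases j with
        | zero => exact bot_le
        | succ j => exact hm (Nat.le_succ _)) rfl h1 (φ.mapMatrix ((d : ℤ) • 1 - D) * Z') (by
      rintro (_ | j) Y hY
      · rw [mul_assoc]
        refine RS_left φ (fun Y' hY' => ?_) (hZ' 1 Y hY)
        rw [← map_mul, sub_mul, hD' Y' hY', smul_mul_assoc, one_mul, sub_self, map_zero]
        exact zero_mem _
      · rw [mul_assoc]
        refine RS_left φ (fun Y' hY' => ?_) (hZ' (j + 2) Y hY)
        rw [← map_mul, sub_mul, smul_mul_assoc, one_mul]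
        exact RS_self φ (sub_mem (Submodule.smul_mem _ _ hY')
          (hm (Nat.le_add_left 1 (j + 1)) (hV 1 D hD Y'))))
    rw [← c.one_add_swap h8, h5, ← e, c.pow hu] at h9
    exact ⟨hu, (isOfFinAddOrder_nsmul.1 h9).resolve_right hq.ne'⟩

end Pool.Agent.Lib.MP_2add11_gt.IG
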