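import Mathlib

/-! Finitely generated commutative groups: finite presentation and an induction principle. -/

namespace IG

open Group

theorem fg_subgroup_comm {G : Type*} [CommGroup G] [Group.FG G] (H : Subgroup G) : Group.FG H := by
  have h0 : Module.Finite ℤ (Additive G) := Module.Finite.iff_addGroup_fg.2 inferInstance
  have h1 : (AddSubgroup.toIntSubmodule (Subgroup.toAddSubgroup H)).FG :=
    IsNoetherian.noetherian _
  rw [Submodule.fg_iff_addSubgroup_fg] at h1
  exact (Group.fg_iff_subgroup_fg H).2 ((Subgroup.fg_iff_add_fg H).2 h1)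

theorem fp_commGroup (G : Type*) [CommGroup G] [hG : Group.FG G] :
    Group.IsFinitelyPresented G := by
  obtain ⟨α, _, φ, hφ⟩ := Group.fg_iff_exists_freeGroup_hom_surjective_finite.1 hG
  let S : Set (FreeGroup α) := Set.range fun p : α × α =>
    (FreeGroup.of p.1 * FreeGroup.of p.2)⁻¹ * (FreeGroup.of p.2 * FreeGroup.of p.1)
  have hS : Finite S := (Set.finite_range _).to_subtype
  have c1 : ∀ a b : α, Commute (PresentedGroup.of a : PresentedGroup S) (PresentedGroup.of b) :=
    fun a b => QuotientGroup.eq.2 (Subgroup.subset_normalClosure ⟨(a, b), rfl⟩)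
  have c2 : ∀ (a : α) (x : PresentedGroup S), Commute (PresentedGroup.of a) x := fun a x =>
    PresentedGroup.generated_by S (Subgroup.centralizer {PresentedGroup.of a})
      (fun b => by rintro _ rfl; exact c1 a b) x _ rfl
  have c3 : ∀ x y : PresentedGroup S, x * y = y * x := fun x y =>
    PresentedGroup.generated_by S (Subgroup.centralizer {x})
      (fun b => by rintro _ rfl; exact (c2 b _).symm) y _ rfl
  let _ : CommGroup (PresentedGroup S) := { (inferInstance : Group (PresentedGroup S)) with
    mul_comm := c3 }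
  have hr : ∀ r ∈ S, FreeGroup.lift (fun a => φ (FreeGroup.of a)) r = 1 := by
    rintro _ ⟨p, rfl⟩
    simp only [map_mul, map_inv, FreeGroup.lift_apply_of]
    rw [mul_comm (φ (FreeGroup.of p.2)), inv_mul_cancel]
  have fgP : Group.FG (PresentedGroup S) :=
    Group.fg_of_surjective (f := PresentedGroup.mk S) (PresentedGroup.mk_surjective S)
  have := fg_subgroup_comm (PresentedGroup.toGroup hr).ker
  refine IsFinitelyPresented.of_surjective (PresentedGroup.toGroup hr) (fun g => ?_) (.of_FG _)
  obtain ⟨x, rfl⟩ := hφ g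
  refine ⟨PresentedGroup.mk S x, ?_⟩
  have e : (PresentedGroup.toGroup hr).comp (PresentedGroup.mk S) = φ :=
    FreeGroup.ext_hom _ _ fun a => PresentedGroup.toGroup.of hr
  exact DFunLike.congr_fun e x

/-- splitting off one infinite cyclic factor -/
def succEquiv (n : ℕ) (T : Type) [CommGroup T] :
    ((Fin (n + 1) → Multiplicative ℤ) × T) ≃* (((Fin n → Multiplicative ℤ) × T) × Multiplicative ℤ) where
  toFun x := ((fun i => x.1 i.succ, x.2), x.1 0)
  invFun y := (Fin.cons y.2 y.1.1, y.1.2)
  left_inv x := Prod.ext (Fin.cons_self_tail x.1) rfl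
  right_inv _ := rfl
  map_mul' _ _ := rfl

theorem fg_induction (P : ∀ (G : Type) [CommGroup G], Prop)
    (fin : ∀ (F : Type) [CommGroup F] [Finite F], P F)
    (prod : ∀ (H : Type) [CommGroup H] [Group.FG H], P H → P (H × Multiplicative ℤ))
    (iso : ∀ (G H : Type) [CommGroup G] [CommGroup H], (G ≃* H) → P H → P G)
    (G : Type) [CommGroup G] [Group.FG G] : P G := by
  obtain ⟨ι, j, _, _, p, hp, e, ⟨f⟩⟩ := CommGroup.equiv_free_prod_prod_multiplicative_zmod G
  have : ∀ i, NeZero (p i ^ e i) := fun i => ⟨pow_ne_zero _ (hp i).ne_zero⟩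
  have key : ∀ n : ℕ, P ((Fin n → Multiplicative ℤ) × ((i : ι) → Multiplicative (ZMod (p i ^ e i)))) := by
    intro n
    induction n with
    | zero => exact fin _
    | succ n ih => exact iso _ _ (succEquiv n _) (prod _ ih)
  exact iso _ _ (f.trans (MulEquiv.prodCongr
    (MulEquiv.arrowCongr (Fintype.equivFin j) (MulEquiv.refl _)) (MulEquiv.refl _))) (key _)

end IG
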