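import Pool.Agent.Lib.MP_2add11_gt.IG.NilRes
import Pool.Agent.Lib.MP_2add11_gt.IG.BHS2
import Pool.Agent.Lib.MP_2add11_gt.IG.FPab

/-!
Unipotent classes are torsion over the group ring of a finitely generated abelian group, and the
algebraic model of such a group is closed under inverses.
-/

noncomputable section

namespace Pool.Agent.Lib.MP_2add11_gt.IG

open Function Matrix FG

variable {S L W : Type} [CommRing S] [CommRing L] [AddCommGroup W]

theorem clear (f : S →+* L) (hd : ∀ x : L, ∃ d : ℕ, 0 < d ∧ ∃ y, f y = d • x) {m n : Type}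
    [Fintype m] [Fintype n] (X : Matrix m n L) :
    ∃ e : ℕ, 0 < e ∧ ∀ a : ℕ, e ∣ a → ∃ X0 : Matrix m n S, X0.map f = a • X := by
  classical
  choose d h1 y h2 using hd
  refine ⟨∏ p : m × n, d (X p.1 p.2), Finset.prod_pos fun p _ => h1 _, fun a ha => ?_⟩
  have : ∀ p q, ∃ z, f z = a • X p q := fun p q => by
    obtain ⟨b, rfl⟩ := (Finset.dvd_prod_of_mem (fun p : m × n => d (X p.1 p.2))
      (Finset.mem_univ (p, q))).trans ha
    exact ⟨b • y (X p q), by rw [map_nsmul, h2, smul_smul, mul_comm]⟩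
  choose z hz using this
  exact ⟨.of z, by ext p q; exact hz p q⟩

/-- Sufficiently divisible multiples of the matrix have trivial class. -/
def triv (c : FG.Inv S W) (f : S →+* L) (hf : Injective f)
    (hd : ∀ x : L, ∃ d : ℕ, 0 < d ∧ ∃ y, f y = d • x) : Triv L where
  Z {n} _ _ Y := ∃ d : ℕ, 0 < d ∧ ∀ a : ℕ, d ∣ a → ∀ Y0 : Matrix n n S, Y0.map f = a • Y →
    IsUnit (1 + Y0) ∧ c.c (1 + Y0) = 0
  zero := ⟨1, one_pos, fun a _ Y0 h => by
    obtain rfl : Y0 = 0 := Matrix.map_injective hf (by simpa using h)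
    rw [add_zero]
    exact ⟨isUnit_one, c.one⟩⟩
  swap H X := by
    rintro ⟨d, d0, h⟩
    obtain ⟨e, e0, he⟩ := clear f hd H
    obtain ⟨e', e0', he'⟩ := clear f hd X
    refine ⟨d * e * e', by positivity, ?_⟩
    rintro _ ⟨b, rfl⟩ Y0 hY
    obtain ⟨H0, h1⟩ := he e dvd_rfl
    obtain ⟨X0, h2⟩ := he' (d * e' * b) ⟨d * b, by ring⟩
    obtain rfl : Y0 = H0 * X0 := Matrix.map_injective hf (by
      change Y0.map f = (H0 * X0).map f
      rw [hY, Matrix.map_mul, h1, h2, Matrix.smul_mul, Matrix.mul_smul, smul_smul]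
      congr 1
      ring)
    have := h (d * e' * b * e) ⟨e' * b * e, by ring⟩ (X0 * H0) (by
      rw [Matrix.map_mul, h1, h2, Matrix.smul_mul, Matrix.mul_smul, smul_smul])
    exact ⟨isUnit_swap this.1, by rw [c.one_add_swap this.1, this.2]⟩
  tri {m n} _ _ _ _ P X Q := by
    rintro ⟨d, d0, h⟩ ⟨d', d0', h'⟩
    obtain ⟨e, e0, he⟩ := clear f hd P
    obtain ⟨e', e0', he'⟩ := clear f hd X
    refine ⟨d * d' * e * e', by positivity, ?_⟩
    rintro _ ⟨b, rfl⟩ Q0 hQ
    obtain ⟨P0, h1⟩ := he (d * d' * e * e' * b) ⟨d * d' * e' * b, by ring⟩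
    obtain ⟨X0, h2⟩ := he' (d * d' * e * e' * b) ⟨d * d' * e * b, by ring⟩
    have k1 := h' _ ⟨d * e * e' * b, by ring⟩ P0 h1
    have k2 := h (d * d' * e * e' * b) ⟨d' * e * e' * b, by ring⟩ (fromBlocks P0 X0 0 Q0) (by
      rw [fromBlocks_map, h1, h2, hQ, fromBlocks_smul, smul_zero, Matrix.map_zero _ (map_zero f)])
    have e1 : 1 + fromBlocks P0 X0 0 Q0 = (fromBlocks (1 + Q0) 0 X0 (1 + P0)).submatrix
        (Equiv.sumComm m n) (Equiv.sumComm m n) := by
      ext (i | i) (j | j) <;> simp [one_apply]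
    have e2 : 1 + fromBlocks P0 X0 0 Q0 = fromBlocks (1 + P0) X0 0 (1 + Q0) := by
      rw [← fromBlocks_one, fromBlocks_add]
      simp
    have u := (isUnit_fromBlocks_zero₂₁.1 (e2 ▸ k2.1)).2
    have := c.tri u k1.1 X0
    rw [← c.sub (Equiv.sumComm m n) this.1, ← e1, k2.2, k1.2, add_zero] at this
    exact ⟨u, this.2.symm⟩

open Polynomial in
theorem tors_of {n : Type} [Fintype n] [DecidableEq n] (c : FG.Inv S W) {Y : Matrix n n S}
    (hY : IsNilpotent Y)
    (h : ∀ j : ℕ, ∃ d : ℕ, 0 < d ∧ ∀ a : ℤ, c.c (1 + (d * a) • Y ^ (j + 1)) = 0) :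
    IsOfFinAddOrder (c.c (1 - Y)) := by
  obtain ⟨k, hk⟩ := hY
  choose d d0 hd using h
  set D : ℕ := ∏ j ∈ Finset.range k, d j with hD
  have hu : ∀ p : ℤ[X], IsUnit (1 + aeval Y (X * p)) := fun p => by
    refine IsNilpotent.isUnit_one_add ⟨k, ?_⟩
    rw [← map_pow, mul_pow, map_mul, map_pow, aeval_X, hk, zero_mul]
  have key : ∀ (i j : ℕ), k ≤ j + i → ∀ p : ℤ[X],
      c.c (aeval Y (1 + C (D : ℤ) * X ^ (j + 1) * p)) = 0 := by
    intro i
    induction i with
    | zero =>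
      intro j hj p
      have : Y ^ (j + 1) = 0 := pow_eq_zero_of_le (by omega) hk
      simp [this, c.one]
    | succ i ih =>
      intro j hj p
      by_cases hjk : k ≤ j
      · exact ih j (by omega) p
      let u : ℤ[X] := C (D * p.coeff 0 : ℤ) * X ^ (j + 1)
      let v : ℤ[X] := ∑ l ∈ Finset.range k, (-u) ^ l
      have e0 : aeval Y ((1 + u) * v) = 1 := by
        have := mul_neg_geom_sum (-u) k
        rw [sub_neg_eq_add] at this
        rw [this, show -u = X * (-C (D * p.coeff 0 : ℤ) * X ^ j) by simp only [u]; ring, mul_pow,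
          map_sub, map_one, map_mul, map_pow, aeval_X, hk, zero_mul, sub_zero]
      have e1 : aeval Y (1 + C (D : ℤ) * X ^ (j + 1) * p) =
          aeval Y (1 + u) * aeval Y (1 + C (D : ℤ) * X ^ (j + 1 + 1) * (v * p.divX)) := by
        have : (1 + u) * (1 + C (D : ℤ) * X ^ (j + 1 + 1) * (v * p.divX)) =
            1 + u + ((1 + u) * v) * (C (D : ℤ) * X ^ (j + 1 + 1) * p.divX) := by ring
        rw [← map_mul, this, map_add _ (1 + u), map_mul _ ((1 + u) * v), e0, one_mul, ← map_add]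
        congr 1
        conv_lhs => rw [← X_mul_divX_add p]
        simp only [u, map_mul]
        ring
      have u1 : IsUnit (aeval Y (1 + u)) := by
        have := hu (C (D * p.coeff 0 : ℤ) * X ^ j)
        rwa [← map_one (aeval (R := ℤ) Y), ← map_add, show X * (C (D * p.coeff 0 : ℤ) * X ^ j) = u by
          simp only [u]; ring] at this
      have u2 : IsUnit (aeval Y (1 + C (D : ℤ) * X ^ (j + 1 + 1) * (v * p.divX))) := by
        have := hu (C (D : ℤ) * X ^ (j + 1) * (v * p.divX))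
        rwa [← map_one (aeval (R := ℤ) Y), ← map_add, show X * (C (D : ℤ) * X ^ (j + 1) * (v * p.divX)) =
          C (D : ℤ) * X ^ (j + 1 + 1) * (v * p.divX) by ring] at this
      rw [e1, c.mul u1 u2, ih (j + 1) (by omega), add_zero]
      obtain ⟨b, hb⟩ : d j ∣ D := Finset.dvd_prod_of_mem _ (Finset.mem_range.2 (by omega))
      rw [← hd j (b * p.coeff 0)]
      congr 1
      simp only [u, map_add, map_one, map_mul (aeval Y), map_pow, aeval_X, aeval_C]
      rw [← Algebra.smul_def, hb]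
      congr 2
      push_cast
      ring
  have D0 : 0 < D := Finset.prod_pos fun j _ => d0 j
  have hb : ∃ p : ℤ[X], aeval Y ((1 - X : ℤ[X]) ^ (D * k.factorial)) =
      aeval Y (1 + C (D : ℤ) * X ^ (0 + 1) * p) := by
    have h1 : ∀ l, ∃ p : ℤ[X], aeval Y ((-X : ℤ[X]) ^ (l + 1) *
        ((D * k.factorial).choose (l + 1) : ℤ[X])) = aeval Y (C (D : ℤ) * X ^ (0 + 1) * p) := by
      intro l
      by_cases hl : k ≤ l + 1
      · refine ⟨0, ?_⟩
        rw [mul_zero, map_zero, map_mul, map_pow, map_neg, aeval_X, neg_pow,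
          pow_eq_zero_of_le hl hk, mul_zero, zero_mul]
      obtain ⟨b, hb⟩ : l + 1 ∣ k.factorial := Nat.dvd_factorial (by omega) (by omega)
      obtain ⟨N, hN⟩ : ∃ N, D * k.factorial = N + 1 :=
        Nat.exists_eq_add_one_of_ne_zero (Nat.mul_pos D0 k.factorial_pos).ne'
      have h2 := Nat.add_one_mul_choose_eq N l
      rw [← hN] at h2
      have h3 : (D * k.factorial).choose (l + 1) = D * (b * N.choose l) := by
        refine Nat.eq_of_mul_eq_mul_right (Nat.succ_pos l) ?_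
        rw [← h2, hb]
        simp only [Nat.succ_eq_add_one]
        ring
      refine ⟨-(-X) ^ l * ((b * N.choose l : ℕ) : ℤ[X]), congrArg _ ?_⟩
      rw [h3]
      simp only [map_natCast]
      push_cast
      ring
    choose p hp using h1
    refine ⟨∑ l ∈ Finset.range (D * k.factorial), p l, ?_⟩
    rw [sub_eq_neg_add, add_pow, Finset.sum_range_succ', Finset.mul_sum, map_add, map_add, map_sum,
      map_sum, add_comm]
    simp only [one_pow, mul_one, hp]
    simp
  obtain ⟨p, hp⟩ := hb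
  refine isOfFinAddOrder_iff_nsmul_eq_zero.2 ⟨_, Nat.mul_pos D0 k.factorial_pos, ?_⟩
  rw [← c.pow (IsNilpotent.isUnit_one_sub ⟨k, hk⟩), ← key k 0 (by omega) p, ← hp]
  simp

theorem nil_tors_gd (f : S →+* L) (hf : Injective f)
    (hd : ∀ x : L, ∃ d : ℕ, 0 < d ∧ ∃ y, f y = d • x) [IsNoetherianRing L] {m : ℕ} (h : GD L m)
    (c : FG.Inv S W) {n : Type} [Fintype n] [DecidableEq n] {Y : Matrix n n S}
    (hY : IsNilpotent Y) : IsOfFinAddOrder (c.c (1 - Y)) := by
  refine tors_of c hY fun j => ?_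
  have h1 : IsNilpotent (Y ^ (j + 1)) := hY.pow_succ j
  obtain ⟨d, d0, k1⟩ := (triv c f hf hd).nil h (h1.map f.mapMatrix)
  obtain ⟨e, e0, k2⟩ := (triv c f hf hd).nil h (h1.neg.map f.mapMatrix)
  refine ⟨d * e, by positivity, fun a => ?_⟩
  obtain ⟨b, rfl | rfl⟩ := a.eq_nat_or_neg
  · refine (k1 (d * e * b) ⟨e * b, by ring⟩ _ ?_).2
    rw [← Nat.cast_mul, natCast_zsmul]
    exact map_nsmul f.mapMatrix _ _
  · refine (k2 (d * e * b) ⟨d * b, by ring⟩ _ ?_).2
    rw [mul_neg, neg_smul, ← smul_neg, ← Nat.cast_mul, natCast_zsmul]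
    exact map_nsmul f.mapMatrix _ _

theorem gd_fg (G : Type) [CommGroup G] [Group.FG G] : ∃ m, GD (MonoidAlgebra ℚ G) m :=
  _root_.IG.fg_induction (fun G _ => ∃ m, GD (MonoidAlgebra ℚ G) m) (fun F _ _ => ⟨0, gd_finite F⟩)
    (fun _ _ _ ⟨m, h⟩ => ⟨m + 1, h.prod⟩) (fun _ _ _ _ e ⟨m, h⟩ => ⟨m, h.iso e⟩) G

theorem nilTors_of_fg (G : Type) [CommGroup G] [Group.FG G] : NilTors G := by
  intro W _ c n _ _ Y hY
  obtain ⟨m, h⟩ := gd_fg G
  have : IsNoetherianRing (MonoidAlgebra ℚ G) := Algebra.FiniteType.isNoetherianRing ℚ _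
  refine nil_tors_gd (MonoidAlgebra.mapRingHom G (Int.castRingHom ℚ))
    (MonoidAlgebra.map_injective _ Int.cast_injective) (fun x => ?_) h c hY
  induction x using MonoidAlgebra.induction_linear with
  | zero => exact ⟨1, one_pos, 0, by simp⟩
  | add a b ha hb =>
    obtain ⟨d, d0, y, hy⟩ := ha
    obtain ⟨e, e0, z, hz⟩ := hb
    exact ⟨d * e, by positivity, e • y + d • z, by
      rw [map_add, map_nsmul, map_nsmul, hy, hz, smul_smul, smul_smul, smul_add, mul_comm e d]⟩
  | single g q =>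
    refine ⟨q.den, q.den_pos, .single g q.num, ?_⟩
    simp

/-- The algebraic model of a finitely generated abelian group is closed under inverses. -/
theorem NegCl.commGroup (G : Type) [CommGroup G] [Group.FG G] : NegCl G :=
  _root_.IG.fg_induction (fun G _ => NegCl G) (fun F _ _ => NegCl.finite F)
    (fun _ _ _ h => h.prodInt' (nilTors_of_fg _)) (fun _ _ _ _ e h => h.equiv e) G

end Pool.Agent.Lib.MP_2add11_gt.IG
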