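import Pool.Agent.Lib.MP_2add11_gt.IG.FamRes
import Pool.Agent.Lib.MP_2add11_gt.IG.NilAb

/-!
Unipotent classes with coefficients in a nilpotent ring of matrices over the group ring of a
product of a finite group and a finitely generated abelian group are torsion.
-/

noncomputable section

namespace Pool.Agent.Lib.MP_2add11_gt.IG

open Function Matrix FG

/-- The torsion property of the base group. -/
def NT (B : Type) [Group B] : Prop :=
  ∀ (S W : Type) [Ring S] [AddCommGroup W] (φ : MonoidAlgebra ℤ B →+* S) (c : FG.Inv S W)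
    (n : Type) [Fintype n] [DecidableEq n] (m : ℕ)
    (J : Submodule ℤ (Matrix n n (MonoidAlgebra ℤ B))), J * J ≤ J → J ^ (m + 1) = ⊥ →
    ∀ Z ∈ Zs φ J, IsOfFinAddOrder (c.c (1 + Z))

namespace Fam

variable {R S L W U : Type} [Ring R] [Ring S] [Ring L] [AddCommGroup W]

theorem clear (f : R →+* L) (hd : ∀ x : L, ∃ d : ℕ, 0 < d ∧ ∃ y, f y = d • x) [Fintype U]
    {m n : Type} [Fintype m] [Fintype n] (X : U → Matrix m n L) :
    ∃ e : ℕ, 0 < e ∧ ∀ a : ℕ, e ∣ a → ∃ X0 : U → Matrix m n R, ∀ u, (X0 u).map f = a • X u := by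
  classical
  choose d h1 y h2 using hd
  refine ⟨∏ p : U × m × n, d (X p.1 p.2.1 p.2.2), Finset.prod_pos fun p _ => h1 _, fun a ha => ?_⟩
  have : ∀ u p q, ∃ z, f z = a • X u p q := fun u p q => by
    obtain ⟨b, rfl⟩ := (Finset.dvd_prod_of_mem (fun p : U × m × n => d (X p.1 p.2.1 p.2.2))
      (Finset.mem_univ (u, p, q))).trans ha
    exact ⟨b • y (X u p q), by rw [map_nsmul, h2, smul_smul, mul_comm]⟩
  choose z hz using this
  exact ⟨fun u => .of (z u), fun u => by ext p q; exact hz u p q⟩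

/-- The combination of a family of matrices with scalars. -/
def E [Fintype U] (φ : R →+* S) (s : U → S) {m n : Type} (X : U → Matrix m n R) : Matrix m n S :=
  .of fun p q => ∑ u, φ (X u p q) * s u

theorem E_left [Fintype U] (φ : R →+* S) (s : U → S) {l m n : Type} [Fintype m]
    (H : Matrix l m R) (X : U → Matrix m n R) :
    (E φ s fun u => H * X u) = H.map φ * E φ s X := by
  ext p q
  simp only [E, of_apply, mul_apply, map_sum, map_mul, Finset.sum_mul, Finset.mul_sum, map_apply,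
    mul_assoc]
  exact Finset.sum_comm

theorem E_right [Fintype U] (φ : R →+* S) {s : U → S} (hs : ∀ u r, Commute (φ r) (s u))
    {l m n : Type} [Fintype m] (H : Matrix m n R) (X : U → Matrix l m R) :
    (E φ s fun u => X u * H) = E φ s X * H.map φ := by
  ext p q
  simp only [E, of_apply, mul_apply, map_sum, map_mul, Finset.sum_mul, map_apply]
  rw [Finset.sum_comm]
  exact Finset.sum_congr rfl fun r _ => Finset.sum_congr rfl fun u _ => by
    rw [mul_assoc, (hs u _).eq, mul_assoc]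

theorem unit_block {m n : Type} [Fintype m] [DecidableEq m] [Fintype n] [DecidableEq n]
    (c : FG.Inv S W) {P : Matrix m m S} {X : Matrix n m S} {Q : Matrix n n S} (hP : IsUnit P)
    (h : IsUnit (fromBlocks P 0 X Q)) : IsUnit Q := by
  have e : fromBlocks P 0 X Q = fromBlocks P 0 X 1 * (1 + fromRows (0 : Matrix m n S) 1 *
      fromCols (0 : Matrix n m S) (Q - 1)) := by
    rw [fromRows_mul_fromCols, ← fromBlocks_one, fromBlocks_add, fromBlocks_multiply]
    simp
  rw [e, (c.tri hP isUnit_one X).1.mul_left_iff] at h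
  have := isUnit_swap h
  rw [fromCols_mul_fromRows] at this
  simpa using this

/-- Sufficiently divisible multiples of the family have trivial class. -/
def triv [Fintype U] (φ : R →+* S) (c : FG.Inv S W) (f : R →+* L) (hf : Injective f)
    (hd : ∀ x : L, ∃ d : ℕ, 0 < d ∧ ∃ y, f y = d • x) : Triv L U where
  Z {n} _ _ Y := ∃ d : ℕ, 0 < d ∧ ∀ a : ℕ, d ∣ a → ∀ s : U → S, (∀ u r, Commute (φ r) (s u)) →
    ∀ Y0 : U → Matrix n n R, (∀ u, (Y0 u).map f = a • Y u) →
      IsUnit (1 + E φ s Y0) ∧ c.c (1 + E φ s Y0) = 0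
  zero := ⟨1, one_pos, fun a _ s _ Y0 h => by
    have h0 : ∀ u, Y0 u = 0 := fun u => Matrix.map_injective hf (by simpa using h u)
    have : E φ s Y0 = 0 := by
      ext p q
      simp [E, h0]
    rw [this, add_zero]
    exact ⟨isUnit_one, c.one⟩⟩
  swap H X := by
    rintro ⟨d, d0, h⟩
    obtain ⟨e, e0, he⟩ := clear f hd fun _ : Unit => H
    obtain ⟨e', e0', he'⟩ := clear f hd X
    refine ⟨d * e * e', by positivity, ?_⟩
    rintro _ ⟨b, rfl⟩ s hs Y0 hY
    obtain ⟨H0, h1⟩ := he e dvd_rfl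
    obtain ⟨X0, h2⟩ := he' (d * e' * b) ⟨d * b, by ring⟩
    obtain rfl : Y0 = fun u => X0 u * H0 () := funext fun u => Matrix.map_injective hf (by
      change (Y0 u).map f = (X0 u * H0 ()).map f
      rw [hY, Matrix.map_mul, h1, h2, Matrix.smul_mul, Matrix.mul_smul, smul_smul]
      congr 1
      ring)
    have := h (e * (d * e' * b)) ⟨e * e' * b, by ring⟩ s hs (fun u => H0 () * X0 u) fun u => by
      rw [Matrix.map_mul, h1, h2, Matrix.smul_mul, Matrix.mul_smul, smul_smul]
    rw [E_left] at this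
    rw [E_right φ hs]
    exact ⟨isUnit_swap this.1, by rw [c.one_add_swap this.1, this.2]⟩
  tri {m n} _ _ _ _ P X Q := by
    rintro ⟨d, d0, h⟩ ⟨d', d0', h'⟩
    obtain ⟨e, e0, he⟩ := clear f hd P
    obtain ⟨e', e0', he'⟩ := clear f hd X
    refine ⟨d * d' * e * e', by positivity, ?_⟩
    rintro _ ⟨b, rfl⟩ s hs Q0 hQ
    obtain ⟨P0, h1⟩ := he (d * d' * e * e' * b) ⟨d * d' * e' * b, by ring⟩
    obtain ⟨X0, h2⟩ := he' (d * d' * e * e' * b) ⟨d * d' * e * b, by ring⟩
    have k1 := h' _ ⟨d * e * e' * b, by ring⟩ s hs P0 h1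
    have k2 := h (d * d' * e * e' * b) ⟨d' * e * e' * b, by ring⟩ s hs
      (fun u => fromBlocks (P0 u) 0 (X0 u) (Q0 u)) fun u => by
        rw [fromBlocks_map, h1, h2, hQ, fromBlocks_smul, smul_zero,
          Matrix.map_zero _ (map_zero f)]
    have e2 : (1 + E φ s fun u => fromBlocks (P0 u) 0 (X0 u) (Q0 u)) =
        fromBlocks (1 + E φ s P0) 0 (E φ s X0) (1 + E φ s Q0) := by
      ext (i | i) (j | j) <;> simp [E, one_apply]
    rw [e2] at k2
    have u := unit_block c k1.1 k2.1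
    have := (c.tri k1.1 u (E φ s X0)).2
    rw [k2.2, k1.2, zero_add] at this
    exact ⟨u, this.symm⟩

theorem nt_of {B : Type} [Group B] (f : MonoidAlgebra ℤ B →+* L) (hf : Injective f)
    (hd : ∀ x : L, ∃ d : ℕ, 0 < d ∧ ∃ y, f y = d • x) [IsNoetherianRing L] {g : ℕ} (h : GD L g) :
    NT B := by
  classical
  intro S W _ _ φ c n _ _ m J hJ hm Z hZ
  obtain ⟨k, hk⟩ := Zs_nil φ hm hZ
  have hp : ∀ j, Z ^ (j + 1) ∈ Zs φ J := fun j => by
    induction j with
    | zero => simpa using hZ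
    | succ j ih =>
      rw [pow_succ]
      exact Zs_mono φ hJ (Zs_mul φ _ _ (Submodule.mul_mem_mul ih hZ))
  let T : Finset (Matrix n n (MonoidAlgebra ℤ B)) → Submodule ℤ (Matrix n n S) := fun t =>
    .span ℤ {Y | ∃ X ∈ t, ∃ s, (∀ r, Commute (φ r) s) ∧ Y = φ.mapMatrix X * scalar n s}
  have mono : ∀ t t', t ⊆ t' → T t ≤ T t' := fun t t' h =>
    Submodule.span_mono fun _ ⟨X, hX, e⟩ => ⟨X, h hX, e⟩
  have h1 : ∀ Y ∈ Zs φ J, ∃ t, (∀ X ∈ t, X ∈ J) ∧ Y ∈ T t := fun Y hY => by
    induction hY using Submodule.span_induction with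
    | mem Y hY =>
      obtain ⟨X, hX, e⟩ := hY
      exact ⟨{X}, by simpa using hX, Submodule.subset_span ⟨X, by simp, e⟩⟩
    | zero => exact ⟨∅, by simp, zero_mem _⟩
    | add a b _ _ ha hb =>
      obtain ⟨t, a1, a2⟩ := ha
      obtain ⟨t', b1, b2⟩ := hb
      exact ⟨t ∪ t', fun X hX => (Finset.mem_union.1 hX).elim (a1 X) (b1 X),
        add_mem (mono _ _ Finset.subset_union_left a2) (mono _ _ Finset.subset_union_right b2)⟩
    | smul a b _ hb =>
      obtain ⟨t, b1, b2⟩ := hb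
      exact ⟨t, b1, Submodule.smul_mem _ a b2⟩
  choose t t1 t2 using fun j => h1 _ (hp j)
  let t0 := (Finset.range k).biUnion t
  have h2 : ∀ j, Z ^ (j + 1) ∈ T t0 := fun j => by
    by_cases hj : j < k
    · exact mono _ _ (Finset.subset_biUnion_of_mem t (Finset.mem_range.2 hj)) (t2 j)
    · rw [pow_eq_zero_of_le (by omega) hk]
      exact zero_mem _
  have h3 : ∀ Y ∈ T t0, ∃ s : t0 → S, (∀ u r, Commute (φ r) (s u)) ∧
      Y = E φ s fun u : t0 => u.1 := fun Y hY => by
    induction hY using Submodule.span_induction with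
    | mem Y hY =>
      obtain ⟨X, hX, s, hs, rfl⟩ := hY
      refine ⟨Pi.single ⟨X, hX⟩ s, fun u r => ?_, ?_⟩
      · rw [Pi.single_apply]
        split_ifs
        exacts [hs r, Commute.zero_right _]
      · ext p q
        simp [E, Pi.single_apply]
    | zero => exact ⟨0, fun _ _ => Commute.zero_right _, by ext p q; simp [E]⟩
    | add a b _ _ ha hb =>
      obtain ⟨s, a1, rfl⟩ := ha
      obtain ⟨s', b1, rfl⟩ := hb
      exact ⟨s + s', fun u r => (a1 u r).add_right (b1 u r), by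
        ext p q; simp [E, mul_add, Finset.sum_add_distrib]⟩
    | smul a b _ hb =>
      obtain ⟨s, b1, rfl⟩ := hb
      exact ⟨a • s, fun u r => (b1 u r).smul_right a, by
        ext p q
        simp only [E, Matrix.smul_apply, of_apply, Pi.smul_apply, Finset.smul_sum, mul_smul_comm]⟩
  let ψ := (f.mapMatrix (m := n)).toIntAlgHom
  obtain ⟨d, d0, hd'⟩ := (triv (U := t0) φ c f hf hd).nil h (J := J.map ψ.toLinearMap) (k := m)
    (by rw [← Submodule.map_pow, hm, Submodule.map_bot])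
    (Y := fun u : t0 => u.1.map f) fun u => by
      obtain ⟨j, -, hj⟩ := Finset.mem_biUnion.1 u.2
      exact ⟨u.1, t1 j _ hj, rfl⟩
  obtain ⟨q, q0, Z', hZ', e⟩ := pow_cong h2 hk d0
  obtain ⟨s, hs, rfl⟩ := h3 Z' hZ'
  refine isOfFinAddOrder_iff_nsmul_eq_zero.2 ⟨q, q0, ?_⟩
  rw [← c.pow (IsNilpotent.isUnit_one_add ⟨k, hk⟩), e,
    ← (hd' d dvd_rfl s hs (fun u => d • u.1) fun u => map_nsmul f.mapMatrix d u.1).2]
  congr 2
  ext p q
  simp only [E, Matrix.smul_apply, of_apply, Finset.smul_sum, map_nsmul, smul_mul_assoc,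
    natCast_zsmul]

end Fam

theorem den_clear {G : Type} [Group G] (x : MonoidAlgebra ℚ G) : ∃ d : ℕ, 0 < d ∧
    ∃ y, MonoidAlgebra.mapRingHom G (Int.castRingHom ℚ) y = d • x := by
  induction x using MonoidAlgebra.induction_linear with
  | zero => exact ⟨1, one_pos, 0, by simp⟩
  | add a b ha hb =>
    obtain ⟨d, d0, y, hy⟩ := ha
    obtain ⟨e, e0, z, hz⟩ := hb
    exact ⟨d * e, by positivity, e • y + d • z, by
      rw [map_add, map_nsmul, map_nsmul, hy, hz, smul_smul, smul_smul, smul_add, mul_comm e d]⟩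
  | single g q =>
    refine ⟨q.den, q.den_pos, .single g q.num, ?_⟩
    simp

theorem nt_prod (F A : Type) [Group F] [Finite F] [CommGroup A] [Group.FG A] : NT (F × A) := by
  obtain ⟨m, h⟩ := gd_fg A
  have : IsNoetherianRing (MonoidAlgebra ℚ A) := Algebra.FiniteType.isNoetherianRing ℚ _
  have : IsNoetherianRing (MonoidAlgebra (MonoidAlgebra ℚ A) F) :=
    IsNoetherianRing.of_finite (MonoidAlgebra ℚ A) _
  let e : MonoidAlgebra ℚ (F × A) ≃+* MonoidAlgebra (MonoidAlgebra ℚ A) F :=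
    MonoidAlgebra.curryRingEquiv
  refine Fam.nt_of (e.toRingHom.comp (MonoidAlgebra.mapRingHom (F × A) (Int.castRingHom ℚ)))
    (e.injective.comp (MonoidAlgebra.map_injective _ Int.cast_injective)) (fun x => ?_)
    (Fam.gd_group h F ?_)
  · obtain ⟨d, d0, y, hy⟩ := den_clear (e.symm x)
    exact ⟨d, d0, y, by rw [RingHom.comp_apply, hy, map_nsmul]; simp⟩
  · rw [← map_natCast (algebraMap ℚ (MonoidAlgebra ℚ A))]
    exact (IsUnit.mk0 _ (Nat.cast_ne_zero.2 Nat.card_pos.ne')).map _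

end Pool.Agent.Lib.MP_2add11_gt.IG
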