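import Pool.Agent.Lib.MP_2add11_gt.IG.NegCl

/-!
Closure of the algebraic model under inverses passes to subgroups of finite index.
-/

noncomputable section

namespace Pool.Agent.Lib.MP_2add11_gt.IG

open Matrix MonoidAlgebra FG

theorem isUnit_right_block {R m n : Type} [Ring R] [Fintype m] [DecidableEq m] [Fintype n]
    [DecidableEq n] {A : Matrix m m R} {B : Matrix n n R} (h : IsUnit (fromBlocks A 0 0 B)) :
    IsUnit B := by
  obtain ⟨u, hu⟩ := h
  have h1 := u.val_inv
  have h2 := u.inv_val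
  rw [hu, ← fromBlocks_toBlocks u.inv, fromBlocks_multiply, ← fromBlocks_one] at h1 h2
  refine isUnit_of_inv (B := u.inv.toBlocks₂₂) ?_ ?_
  · simpa using (fromBlocks_inj.1 h1).2.2.2
  · simpa using (fromBlocks_inj.1 h2).2.2.2

variable {G H : Type} [Group G] [Group H]

theorem NegCl.of_tr (hG : NegCl G) (T : Tr H G) (k0 : T.κ) (h0 : T.t k0 = 1) : NegCl H := by
  rintro W _ c _ ⟨ι, _, _, r, h1, h2, rfl⟩
  have a0 : ∀ h : H, T.e (T.t k0 * T.i h) = (h, k0) := fun h => by
    rw [← Equiv.eq_symm_apply, T.he, h0, one_mul, mul_one]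
  have a1 : ∀ (k : T.κ) (h : H), k ≠ k0 → (T.e (T.t k * T.i h)).2 ≠ k0 := fun k h hk e => by
    have e1 := T.spec (T.t k * T.i h)
    rw [e, h0, mul_one] at e1
    have e2 : T.t k = T.e.symm ((T.e (T.t k * T.i h)).1 * h⁻¹, k0) := by
      rw [T.he, map_mul, map_inv, e1, h0, mul_one, mul_inv_cancel_right]
    have e3 := T.e_t k
    rw [e2, Equiv.apply_symm_apply] at e3
    exact hk (congrArg Prod.snd e3).symm
  have hy : (c.comap T.res).c ((jac r).map (mapDomainRingHom ℤ T.i)) ∈ Alg (c.comap T.res) :=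
    Alg.push _ T.i ⟨ι, _, _, r, h1, h2, rfl⟩
  have hny := Alg.res c T (hG _ _ _ hy)
  let s : ι × {k // k ≠ k0} → FreeGroup (H × (ι × {k // k ≠ k0})) := fun p => FreeGroup.map
    (fun x => ((T.e (T.t p.2 * T.i x.1)).1, x.2, ⟨(T.e (T.t p.2 * T.i x.1)).2, a1 _ _ p.2.2⟩))
    (r p.1)
  let E : ι ⊕ ι × {k // k ≠ k0} ≃ ι × T.κ :=
    { toFun := Sum.elim (fun i => (i, k0)) fun p => (p.1, p.2.1)
      invFun := fun p => if h : p.2 = k0 then .inl p.1 else .inr (p.1, ⟨p.2, h⟩)
      left_inv := by
        rintro (i | ⟨i, k, hk⟩)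
        · simp
        · simp [hk]
      right_inv := by
        rintro ⟨i, k⟩
        by_cases h : k = k0 <;> simp [h] }
  have b0 : ∀ (a : MonoidAlgebra ℤ H) (l : T.κ),
      T.res (mapDomainRingHom ℤ T.i a) k0 l = if l = k0 then a else 0 := fun a l => by
    induction a using MonoidAlgebra.induction_linear with
    | zero => simp
    | add a b ha hb =>
      rw [map_add, map_add, Matrix.add_apply, ha, hb]
      split_ifs <;> simp
    | single g a =>
      have : mapDomainRingHom ℤ T.i (single g a) = single (T.i g) a := by simp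
      rw [this, T.res_single, a0]
      by_cases h : l = k0
      · simp [h]
      · simp [h, Ne.symm h]
  have b1 : ∀ (a : MonoidAlgebra ℤ H) (k : T.κ), k ≠ k0 →
      T.res (mapDomainRingHom ℤ T.i a) k k0 = 0 := fun a k hk => by
    induction a using MonoidAlgebra.induction_linear with
    | zero => simp
    | add a b ha hb => rw [map_add, map_add, Matrix.add_apply, ha, hb, add_zero]
    | single g a =>
      have : mapDomainRingHom ℤ T.i (single g a) = single (T.i g) a := by simp
      rw [this, T.res_single, if_neg (a1 k g hk)]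
  have e : (comp _ _ _ _ _ (((jac r).map (mapDomainRingHom ℤ T.i)).map T.res)).submatrix E E =
      fromBlocks (jac r) 0 0 (jac s) := by
    ext1 (i | ⟨i, k⟩) (j | ⟨j, l⟩)
    · exact (b0 (jac r i j) k0).trans (if_pos rfl)
    · exact (b0 (jac r i j) l.1).trans (if_neg l.2)
    · exact b1 (jac r i j) k.1 k.2
    · refine (fox_map _ ((entryAddMonoidHom _ k.1 l.1).comp (T.res.toAddMonoidHom.comp
        (mapDomainRingHom ℤ T.i).toAddMonoidHom)) j (j, l) (fun x => ?_) _).symm
      by_cases h : x.2 = j <;> simp [h, T.res_single, Subtype.ext_iff]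
  have hu := isUnit_cm T.res (h2.map (mapDomainRingHom ℤ T.i).mapMatrix)
  have hs : IsUnit (jac s) := isUnit_right_block (e ▸ isUnit_sub E hu)
  have hz : c.c (jac s) ∈ Alg c := by
    refine ⟨_, inferInstance, inferInstance, s, fun Γ _ γ h x => ?_, hs, rfl⟩
    obtain ⟨g0, j, k, hk⟩ := x
    have := h1 Γ (fun y => γ (g0 * (T.e (T.t k * T.i y.1)).1, y.2,
      ⟨(T.e (T.t k * T.i y.1)).2, a1 _ _ hk⟩)) (fun g i => by
      have := h (g0 * (T.e (T.t k * T.i g)).1) (i, ⟨(T.e (T.t k * T.i g)).2, a1 _ _ hk⟩)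
      rw [lift_map] at this
      rw [← this]
      congr 2
      funext y
      simp only [map_mul, T.e_mul, mul_assoc]) (1, j)
    simpa [T.e_t] using this
  have ey : (c.comap T.res).c ((jac r).map (mapDomainRingHom ℤ T.i)) =
      c.c (jac r) + c.c (jac s) := by
    rw [← c.blocks h2 hs, ← e]
    exact (c.sub E hu).symm
  have := add_mem hny hz
  rwa [ey, neg_add, neg_add_cancel_right] at this

theorem NegCl.subgroup (hG : NegCl G) (K : Subgroup G) [K.FiniteIndex] : NegCl K := by
  classical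
  obtain ⟨S, hS, h1⟩ := K.exists_isComplement_right 1
  have : Finite S := hS.finite_right
  have := Fintype.ofFinite S
  exact hG.of_tr ⟨K.subtype, S, Subtype.val, hS.equiv, fun _ => rfl⟩ ⟨1, h1⟩ rfl

theorem NegCl.of_finiteIndex (hG : NegCl G) (i : H →* G) (hi : Function.Injective i)
    [i.range.FiniteIndex] : NegCl H :=
  (hG.subgroup i.range).equiv (MonoidHom.ofInjective hi)

end Pool.Agent.Lib.MP_2add11_gt.IG
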