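import Pool.Agent.Lib.MP_2add11_gt.IG.ProdFree
import Pool.Agent.Lib.MP_2add11_gt.IG.Mackey
import Pool.Agent.Lib.MP_2add11_gt.IG.FamTor

/-!
Closure of the algebraic model under inverses for the product of a free product with a base group
that has the torsion property (the proofs follow those for a finite base group).
-/

noncomputable section

namespace Pool.Agent.Lib.MP_2add11_gt.IG

open Matrix MonoidAlgebra Monoid FG

variable {K W F : Type} [Fintype K] [DecidableEq K] {G : K → Type} [∀ i, Group (G i)]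
  [AddCommGroup W] [Group F]

omit [Fintype K] [DecidableEq K] in
theorem coloured_tors' (hB : NT F) {n : Type} [Fintype n] [DecidableEq n]
    (c : Inv (MonoidAlgebra (MonoidAlgebra ℤ F) (CoprodI G)) W) (col : n → K)
    (N : Matrix n n (MonoidAlgebra (MonoidAlgebra ℤ F) (CoprodI G)))
    (ha : ∀ p q γ, (N p q).coeff γ ≠ 0 → ∃ g : G (col p), γ = CoprodI.of g)
    (hb : ∀ p q, ((N p q).coeff.sum fun _ a => a) = 0)
    (hc : ∀ p q, col p = col q → N p q = 0) (hu : IsUnit (1 - N)) :
    IsOfFinAddOrder (c.c (1 - N)) := by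
  obtain ⟨m, hm⟩ := coeff_nil col N ha hb hc hu
  obtain ⟨J, h1, h2, h3⟩ := exists_nil_ring _ hm
  obtain ⟨T, hT, -, hN⟩ := expand N hb
  rw [sub_eq_add_neg]
  refine hB _ _ singleOneRingHom c n m J h2 h3 _ (neg_mem ?_)
  rw [hN]
  refine sum_mem fun γ hγ => Submodule.subset_span ⟨_, h1 (Submodule.subset_span
    ⟨γ, (hT γ hγ).1, rfl⟩), _, fun r => ?_, rfl⟩
  refine Commute.sub_right ?_ (Commute.one_right _)
  change single 1 r * single γ 1 = single γ 1 * single 1 r
  simp [single_mul_single]

theorem stallings_tors' (hN : NT F) (c : Inv (MonoidAlgebra (MonoidAlgebra ℤ F) (CoprodI G)) W)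
    (h0 : ∀ (n : Type) [Fintype n] [DecidableEq n]
      (A : Matrix n n (MonoidAlgebra (MonoidAlgebra ℤ F) (CoprodI G))),
      IsUnit A → c.c (A.map (epsR _ _)) = 0)
    (h1 : ∀ i (n : Type) [Fintype n] [DecidableEq n]
      (A : Matrix n n (MonoidAlgebra (MonoidAlgebra ℤ F) (CoprodI G))),
      IsUnit A → c.c (A.map (eeR _ G i)) = 0)
    {n : Type} [Fintype n] [DecidableEq n]
    {A : Matrix n n (MonoidAlgebra (MonoidAlgebra ℤ F) (CoprodI G))} (hA : IsUnit A) :
    IsOfFinAddOrder (c.c A) := by
  let S : Submodule ℤ (MonoidAlgebra (MonoidAlgebra ℤ F) (CoprodI G)) :=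
    { carrier := {x | x = epsR _ _ x + ∑ k, (eeR _ G k x - epsR _ _ x)}
      zero_mem' := by simp
      add_mem' := fun {a b} ha hb => by
        change a = _ at ha
        change b = _ at hb
        change a + b = _
        conv_lhs => rw [ha, hb]
        simp only [map_add, Finset.sum_sub_distrib, Finset.sum_add_distrib]
        abel
      smul_mem' := fun k a ha => by
        change a = _ at ha
        change k • a = _
        conv_lhs => rw [ha]
        simp only [map_zsmul, smul_add, Finset.smul_sum, smul_sub] }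
  have s0 : ∀ a : MonoidAlgebra ℤ F, single (1 : CoprodI G) a ∈ S := fun a => by
    change _ = _
    simp [eeR_single, epsR_single]
  have s1 : (1 : MonoidAlgebra (MonoidAlgebra ℤ F) (CoprodI G)) ∈ S := s0 1
  have s2 : ∀ i (g : G i), single (CoprodI.of g) (1 : MonoidAlgebra ℤ F) ∈ S := fun i g => by
    change _ = _
    rw [Finset.sum_eq_single i (fun k _ hk => by
      rw [eeR_single, epsR_single, retr_ne hk.symm, map_one, sub_self]) (by simp), eeR_single,
      retr_same, add_sub_cancel]
  have s3 : ∀ (g : CoprodI G) (a : MonoidAlgebra ℤ F), ∃ k, single g a ∈ S ^ k := fun g a => by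
    induction g using CoprodI.induction_left with
    | one => exact ⟨1, by rw [pow_one]; exact s0 a⟩
    | mul m x ih =>
      obtain ⟨k, hk⟩ := ih
      refine ⟨k + 1, ?_⟩
      rw [pow_succ', ← one_mul a, ← single_mul_single]
      exact Submodule.mul_mem_mul (s2 _ m) hk
  let d := c.map (QuotientAddGroup.mk' (AddCommGroup.torsion W))
  have hd : ∀ {n : Type} (A : Matrix n n (MonoidAlgebra (MonoidAlgebra ℤ F) (CoprodI G))),
      d.c A = 0 ↔ IsOfFinAddOrder (c.c A) := fun A => QuotientAddGroup.eq_zero_iff _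
  refine (hd A).1 (higman d S s1 (fun x => ?_) (fun n _ _ A hA hS => block_step d (eeR _ G)
    (epsR _ _) (hom_ext3 (f := (epsR _ (CoprodI G)).comp (epsR _ (CoprodI G)))
      (g := epsR _ (CoprodI G)) fun x a => by simp [epsR_single])
    (fun i => hom_ext3 (f := (eeR _ G i).comp (epsR _ (CoprodI G))) (g := epsR _ (CoprodI G))
      fun x a => by simp [epsR_single, eeR_single])
    (fun n _ _ A hA => (hd _).2 (h0 n A hA ▸ .zero))
    (fun i n _ _ A hA => (hd _).2 (h1 i n A hA ▸ .zero))
    (fun n _ _ col N g1 g2 g3 => (hd _).2 (coloured_tors' hN c col N (fun p q => ?_) (fun p q => ?_)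
      g2 g3)) hA hS) hA)
  · induction x using MonoidAlgebra.induction_linear with
    | zero => exact ⟨0, zero_mem _⟩
    | add a b ha hb =>
      obtain ⟨k, hk⟩ := ha
      obtain ⟨l, hl⟩ := hb
      exact ⟨max k l, add_mem (pow_mono s1 (le_max_left _ _) hk) (pow_mono s1 (le_max_right _ _) hl)⟩
    | single g a => exact s3 g a
  · obtain ⟨x, hx⟩ := g1 p q
    rw [hx]
    exact (eeR_sub _ x).1
  · obtain ⟨x, hx⟩ := g1 p q
    rw [hx]
    exact (eeR_sub _ x).2

theorem split_tors' (hN : NT F) (c : Inv (MonoidAlgebra (MonoidAlgebra ℤ F) (CoprodI G)) W)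
    {n : Type} [Fintype n] [DecidableEq n]
    {A : Matrix n n (MonoidAlgebra (MonoidAlgebra ℤ F) (CoprodI G))} (hA : IsUnit A) :
    IsOfFinAddOrder (c.c A - (c.c (A.map (epsR _ _)) +
      ∑ i, (c.c (A.map (eeR _ G i)) - c.c (A.map (epsR _ _))))) := by
  let d : Inv (MonoidAlgebra (MonoidAlgebra ℤ F) (CoprodI G)) W :=
    { c := fun A => c.c A - ((c.pull (epsR _ _)).c A +
        ∑ i, ((c.pull (eeR _ G i)).c A - (c.pull (epsR _ _)).c A))
      mul := fun hA hB => by
        simp only [c.mul hA hB, (c.pull _).mul hA hB, Finset.sum_sub_distrib,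
          Finset.sum_add_distrib]
        abel
      sub := fun e _ hA => by simp only [c.sub e hA, (c.pull _).sub e hA]
      stab := fun hA => by simp only [c.stab hA, (c.pull _).stab hA] }
  have m : ∀ {f g h : MonoidAlgebra (MonoidAlgebra ℤ F) (CoprodI G) →+*
      MonoidAlgebra (MonoidAlgebra ℤ F) (CoprodI G)},
      (∀ x a, g (f (single x a)) = h (single x a)) → ∀ {n : Type}
      (A : Matrix n n (MonoidAlgebra (MonoidAlgebra ℤ F) (CoprodI G))),
      (A.map f).map g = A.map h := by
    intro f g h hh n A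
    ext1 i j
    exact hom_ext3 (f := g.comp f) hh _
  refine stallings_tors' hN d (fun n _ _ A _ => ?_) (fun i n _ _ A _ => ?_) hA
  · change c.c _ - (c.c ((A.map (epsR _ _)).map (epsR _ _)) + ∑ i,
      (c.c ((A.map (epsR _ _)).map (eeR _ G i)) - c.c ((A.map (epsR _ _)).map (epsR _ _)))) = 0
    rw [m (h := epsR _ _) (by simp [epsR_single]), Finset.sum_eq_zero fun j _ => by
      rw [m (h := epsR _ _) (by simp [epsR_single, eeR_single]), sub_self]]
    simp
  · change c.c _ - (c.c ((A.map (eeR _ G i)).map (epsR _ _)) + ∑ j,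
      (c.c ((A.map (eeR _ G i)).map (eeR _ G j)) - c.c ((A.map (eeR _ G i)).map (epsR _ _)))) = 0
    rw [m (h := epsR _ _) (by simp [epsR_single, eeR_single]), Finset.sum_eq_single i
      (fun j _ hj => by
        rw [m (h := epsR _ _) (by simp [epsR_single, eeR_single, retr_ne hj.symm]), sub_self])
      (by simp), m (h := eeR _ G i) (by simp [eeR_single, retr_same])]
    simp

omit [DecidableEq K] in
theorem NegCl.coprodI_prod' (hN : NT F) (hF : NegCl F) (h : ∀ i, NegCl (G i × F)) :
    NegCl (CoprodI G × F) := by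
  classical
  rintro W _ c _ ⟨ι, _, _, r, h1, h2, rfl⟩
  let Φ : MonoidAlgebra ℤ (CoprodI G × F) ≃+* MonoidAlgebra (MonoidAlgebra ℤ F) (CoprodI G) :=
    curryRingEquiv
  have m : ∀ {e : MonoidAlgebra (MonoidAlgebra ℤ F) (CoprodI G) →+*
      MonoidAlgebra (MonoidAlgebra ℤ F) (CoprodI G)} {f : CoprodI G × F →* CoprodI G × F},
      (∀ x y a, e (single x (single y a)) = single (f (x, y)).1 (single (f (x, y)).2 a)) →
      (c.pull Φ.symm.toRingHom).c (((jac r).map Φ.toRingHom).map e) =
        c.c ((jac r).map (mapDomainRingHom ℤ f)) := by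
    intro e f hf
    refine congrArg c.c ?_
    ext1 i j
    refine hom_ext3 (f := Φ.symm.toRingHom.comp (e.comp Φ.toRingHom))
      (g := mapDomainRingHom ℤ f) (fun x a => ?_) (jac r i j)
    obtain ⟨x, y⟩ := x
    simp [Φ, hf]
  have t := split_tors' hN (c.pull Φ.symm.toRingHom) (h2.map Φ.toRingHom.mapMatrix)
  have e0 : (c.pull Φ.symm.toRingHom).c (Φ.toRingHom.mapMatrix (jac r)) = c.c (jac r) := by
    refine congrArg c.c ?_
    ext1 i j
    exact Φ.symm_apply_apply _
  have k0 : (c.pull Φ.symm.toRingHom).c ((Φ.toRingHom.mapMatrix (jac r)).map (epsR _ _)) ∈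
      symm c := by
    rw [RingHom.mapMatrix_apply, m (f := (MonoidHom.inr _ F).comp (MonoidHom.snd _ F))
      (by simp [epsR_single])]
    exact hF.via c _ _ h1 h2
  have k1 : ∀ i, (c.pull Φ.symm.toRingHom).c
      ((Φ.toRingHom.mapMatrix (jac r)).map (eeR _ G i)) ∈ symm c := fun i => by
    rw [RingHom.mapMatrix_apply, m (f := (MonoidHom.prodMap CoprodI.of (MonoidHom.id F)).comp
      (MonoidHom.prodMap (retr i) (MonoidHom.id F))) (by simp [eeR_single])]
    exact (h i).via c _ _ h1 h2
  obtain ⟨k, hk, hz⟩ := isOfFinAddOrder_iff_nsmul_eq_zero.1 t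
  rw [e0, nsmul_sub, sub_eq_zero] at hz
  refine neg_mem_of hk ⟨ι, _, _, r, h1, h2, rfl⟩ ?_
  rw [hz]
  exact ((symm c).nsmul_mem (add_mem k0 (sum_mem fun i _ => sub_mem (k1 i) k0)) k).2

theorem NT.nilTors (h : NT F) : NilTors F := by
  intro W _ c n _ _ Y hY
  obtain ⟨k, hk⟩ := hY
  obtain ⟨J, h1, h2, h3⟩ := exists_nil_ring (Submodule.span ℤ {Y}) (m := k) (by
    rw [Submodule.span_pow, Set.singleton_pow, pow_succ, hk, zero_mul]
    simp)
  rw [sub_eq_add_neg]
  exact h _ _ (RingHom.id _) c n k J h2 h3 _ (neg_mem (Submodule.subset_span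
    ⟨Y, h1 (Submodule.subset_span rfl), 1, fun _ => Commute.one_right _, by simp⟩))

/-- Products of a finite group and a finitely generated abelian group. -/
theorem NegCl.fin_ab (F A : Type) [Group F] [Finite F] [CommGroup A] [Group.FG A] :
    NegCl (F × A) :=
  _root_.IG.fg_induction (fun A _ => NegCl (F × A)) (fun _ _ _ => NegCl.finite _)
    (fun H _ _ h => (h.prodInt' ((nt_prod F (H × Multiplicative ℤ)).nilTors.equiv
      MulEquiv.prodAssoc)).equiv MulEquiv.prodAssoc.symm)
    (fun _ _ _ _ e h => h.equiv ((MulEquiv.refl F).prodCongr e)) A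

/-- The model is closed under inverses for all products with finite groups and with finitely
generated abelian groups. -/
def NegClS (G : Type) [Group G] : Prop :=
  ∀ (F A : Type) [Group F] [Finite F] [CommGroup A] [Group.FG A], NegCl (G × (F × A))

theorem NegClS.negCl {G : Type} [Group G] (h : NegClS G) : NegCl G :=
  (h PUnit PUnit).retract (MonoidHom.inl _ _) (MonoidHom.fst _ _) fun _ => rfl

theorem NegClS.equiv {G H : Type} [Group G] [Group H] (h : NegClS H) (e : G ≃* H) : NegClS G :=
  fun F A _ _ _ _ => (h F A).equiv (e.prodCongr (MulEquiv.refl _))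

theorem NegClS.retract {G H : Type} [Group G] [Group H] (h : NegClS H) (f : G →* H) (g : H →* G)
    (e : ∀ x, g (f x) = x) : NegClS G := fun F A _ _ _ _ =>
  (h F A).retract (f.prodMap (MonoidHom.id _)) (g.prodMap (MonoidHom.id _)) fun x =>
    Prod.ext (e x.1) rfl

theorem NegClS.finite (G : Type) [Group G] [Finite G] : NegClS G := fun F A _ _ _ _ =>
  (NegCl.fin_ab (G × F) A).equiv MulEquiv.prodAssoc.symm

theorem NegClS.prod_fin {G : Type} [Group G] (h : NegClS G) (E : Type) [Group E] [Finite E] :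
    NegClS (G × E) := fun F A _ _ _ _ =>
  (h (E × F) A).equiv (MulEquiv.prodAssoc.trans
    ((MulEquiv.refl G).prodCongr MulEquiv.prodAssoc.symm))

theorem NegClS.prod_comm {G : Type} [Group G] (h : NegClS G) (B : Type) [CommGroup B]
    [Group.FG B] : NegClS (G × B) := fun F A _ _ _ _ =>
  (h F (B × A)).equiv (MulEquiv.prodAssoc.trans ((MulEquiv.refl G).prodCongr
    (MulEquiv.prodAssoc.symm.trans ((MulEquiv.prodComm.prodCongr (MulEquiv.refl A)).trans
      MulEquiv.prodAssoc))))

theorem NegClS.coprodI {K : Type} [Finite K] {G : K → Type} [∀ i, Group (G i)]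
    (h : ∀ i, NegClS (G i)) : NegClS (CoprodI G) := fun F A _ _ _ _ =>
  have := Fintype.ofFinite K
  NegCl.coprodI_prod' (nt_prod F A) (NegCl.fin_ab F A) fun i => h i F A

theorem NegClS.of_finiteIndex {G H : Type} [Group G] [Group H] (h : NegClS G) (i : H →* G)
    (hi : Function.Injective i) [i.range.FiniteIndex] : NegClS H := fun F A _ _ _ _ => by
  have : (i.prodMap (MonoidHom.id (F × A))).range.FiniteIndex := by
    rw [MonoidHom.range_prodMap, (MonoidHom.range_eq_top (f := MonoidHom.id (F × A))).2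
      Function.surjective_id]
    exact ⟨by
      rw [Subgroup.index_prod, Subgroup.index_top, mul_one]
      exact Subgroup.FiniteIndex.index_ne_zero⟩
  exact (h F A).of_finiteIndex (i.prodMap (MonoidHom.id _)) (hi.prodMap Function.injective_id)

end Pool.Agent.Lib.MP_2add11_gt.IG
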