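import Pool.Agent.Lib.MP_2add11_gt.IG.Cells
import Pool.Agent.Lib.MP_2add11_gt.FG.Real

/-!
Every system of relators of the algebraic model over a finitely presented group is realised by a
pair.
-/

noncomputable section

namespace Pool.Agent.Lib.MP_2add11_gt.FG.RI

open Set Metric Topology ML Classical

/-- A presentation of `G` with non-empty relators. -/
structure FP (G S T : Type) [Group G] extends Pres G S T where
  pos : ∀ c, R c ≠ []
  gen : ∀ g, ∃ w, FreeGroup.lift d (FreeGroup.mk w) = g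
  univ : ∀ (Δ : Type) [Group Δ] (f : S → Δ), (∀ c, FreeGroup.lift f (FreeGroup.mk (R c)) = 1) →
    ∃ φ : G →* Δ, ∀ s, φ (d s) = f s

theorem lift_cons {S Δ : Type} [Group Δ] (f : S → Δ) (l : S × Bool) (w : List (S × Bool)) :
    FreeGroup.lift f (FreeGroup.mk (l :: w)) =
      (if l.2 then f l.1 else (f l.1)⁻¹) * FreeGroup.lift f (FreeGroup.mk w) := by
  obtain ⟨a, _ | _⟩ := l <;> simp [FreeGroup.lift_mk]

theorem lift_mapw {S S' Δ : Type} [Group Δ] (j : S → S') (f : S' → Δ) (w : List (S × Bool)) :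
    FreeGroup.lift f (FreeGroup.mk (w.map fun l => (j l.1, l.2))) =
      FreeGroup.lift (fun s => f (j s)) (FreeGroup.mk w) := by
  rw [← FreeGroup.map.mk, lift_map]

theorem exists_FP {G : Type} [Group G] [h : Group.IsFinitelyPresented G] {A : Set G}
    (hA : A.Finite) : ∃ (S T : Type) (_ : Finite S) (_ : Finite T) (Q : FP G S T),
      ∀ a ∈ A, ∃ s, Q.d s = a := by
  obtain ⟨n, φ, hφ, N, hN, hk⟩ := h
  have := (hA.insert 1).to_subtype
  have := hN.to_subtype
  choose u hu using hφ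
  let S := Fin n ⊕ (insert 1 A : Set G)
  let d : S → G := Sum.elim (fun k => φ (.of k)) Subtype.val
  let s0 : S := .inr ⟨1, mem_insert _ _⟩
  let m : FreeGroup (Fin n) → List (S × Bool) := fun x => x.toWord.map fun l => (.inl l.1, l.2)
  have hm : ∀ {Δ : Type} [Group Δ] (f : S → Δ) x, FreeGroup.lift f (FreeGroup.mk (m x)) =
      FreeGroup.lift (fun k => f (.inl k)) x := fun f x => by
    rw [lift_mapw, FreeGroup.mk_toWord]
  have hd : FreeGroup.lift (fun k => d (.inl k)) = φ := by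
    ext k
    simp [d]
  let R : N ⊕ S → List (S × Bool) := Sum.elim (fun r => (s0, true) :: (s0, false) :: m r.1)
    fun s => (s, true) :: m (u (d s))⁻¹
  refine ⟨S, N ⊕ S, inferInstance, inferInstance, ⟨⟨d, R, ?_, fun s => ⟨.inr s, by simp [R]⟩, s0⟩,
    ?_, fun g => ⟨m (u g), by rw [hm, hd, hu]⟩, fun Δ _ f hf => ?_⟩,
    fun a ha => ⟨.inr ⟨a, mem_insert_of_mem _ ha⟩, rfl⟩⟩
  · rintro g (r | s)
    · have : φ r.1 = 1 := (hk ▸ Subgroup.subset_normalClosure r.2 : r.1 ∈ φ.ker)
      simp only [foldl_nxt, R, Sum.elim_inl, lift_cons, hm, hd, this]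
      simp
    · simp only [foldl_nxt, R, Sum.elim_inr, lift_cons, hm, hd, map_inv, hu]
      simp
  · rintro (r | s) <;> simp [R]
  · have h1 : φ.ker ≤ (FreeGroup.lift fun k => f (.inl k)).ker := by
      rw [← hk]
      refine Subgroup.normalClosure_le_normal fun r hr => ?_
      have := hf (.inl ⟨r, hr⟩)
      simp only [R, Sum.elim_inl, lift_cons, hm] at this
      simpa using this
    refine ⟨φ.liftOfRightInverse u hu ⟨_, h1⟩, fun s => ?_⟩
    have := hf (.inr s)
    simp only [R, Sum.elim_inr, lift_cons, hm, map_inv, if_true, mul_inv_eq_one] at this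
    exact ((congrArg _ (hu (d s)).symm).trans
      (φ.liftOfRightInverse_comp_apply u hu ⟨_, h1⟩ _)).trans this.symm

variable {G S T ι : Type} [Group G] (Q : FP G S T) (sec : G → S)

def blk (x : (G × ι) × Bool) : List ((S ⊕ ι) × Bool) :=
  [(.inl (sec x.1.1), true), (.inr x.1.2, x.2), (.inl (sec x.1.1), false)]

def up (ι : Type) (w : List (S × Bool)) : List ((S ⊕ ι) × Bool) := w.map fun l => (.inl l.1, l.2)

def dg (ι : Type) : S ⊕ ι → G := Sum.elim Q.d fun _ => 1

theorem nxt_blk (g : G) (x : (G × ι) × Bool) : (blk sec x).foldl (nxt (dg Q ι)) g = g := by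
  obtain ⟨x, _ | _⟩ := x <;> simp [blk, nxt, dg]

theorem foldl_up (g : G) (w : List (S × Bool)) :
    (up ι w).foldl (nxt (dg Q ι)) g = w.foldl (nxt Q.d) g := by
  rw [up, List.foldl_map]
  rfl

def pres (w : ι → List ((G × ι) × Bool)) (hw : ∀ i, ((1, i), true) ∈ w i) :
    Pres G (S ⊕ ι) (T ⊕ ι) where
  d := dg Q ι
  R := Sum.elim (fun c => up ι (Q.R c)) fun i => (w i).flatMap (blk sec)
  closed := by
    rintro g (p | i)
    · exact (foldl_up Q g _).trans (Q.closed g p)
    · simp only [Sum.elim_inr]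
      induction w i with
      | nil => rfl
      | cons x l ih => rw [List.flatMap_cons, List.foldl_append, nxt_blk, ih]
  occ := by
    rintro (a | i)
    · obtain ⟨c, hc⟩ := Q.occ a
      exact ⟨.inl c, List.mem_map.2 ⟨_, hc, rfl⟩⟩
    · exact ⟨.inr i, List.mem_flatMap.2 ⟨_, hw i, by simp [blk]⟩⟩
  s0 := .inl Q.s0

variable {w : ι → List ((G × ι) × Bool)} (hw : ∀ i, ((1, i), true) ∈ w i)

theorem R_inl (c : T) : (pres Q sec w hw).R (.inl c) = up ι (Q.R c) := rfl

theorem R_inr (i : ι) : (pres Q sec w hw).R (.inr i) = (w i).flatMap (blk sec) := rfl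

omit [Group G] in
theorem len_blk (l : List ((G × ι) × Bool)) :
    ((l.flatMap (blk sec)).length : ℝ) = 3 * l.length := by
  induction l with
  | nil => simp
  | cons x l ih =>
    rw [List.flatMap_cons, List.length_append, Nat.cast_add, ih]
    simp [blk]
    ring

theorem pres_pos (c : T ⊕ ι) : (0 : ℝ) < ((pres Q sec w hw).R c).length := by
  rcases c with p | i
  · simpa [R_inl, up, List.length_pos_iff] using Q.pos p
  · rw [R_inr, len_blk]
    have := List.length_pos_of_mem (hw i)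
    positivity

omit [Group G] in
theorem wl_blk {X : Type} [TopologicalSpace X] {x0 : X} (a : S ⊕ ι → ML x0) (t : G → ML x0)
    (l : List ((G × ι) × Bool)) (h : ∀ x ∈ l, t x.1.1 = a (.inl (sec x.1.1))) :
    wl a (l.flatMap (blk sec)) =
      rel t (fun g => rev (t g)) (fun i => a (.inr i)) (fun i => rev (a (.inr i))) l := by
  induction l with
  | nil => rfl
  | cons x l ih =>
    rw [List.flatMap_cons, rel_cons, ← ih fun y hy => h y (List.mem_cons_of_mem _ hy),
      h x List.mem_cons_self]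
    simp [blk, wl, mul_assoc]

theorem wl_up {X : Type} [TopologicalSpace X] {x0 : X} (a : S ⊕ ι → ML x0) (l : List (S × Bool)) :
    wl a (up ι l) = wl (fun s => a (.inl s)) l := by
  rw [wl, up, List.map_map]
  rfl

theorem cnt_blk (h : G) (j : ι) (l : List ((G × ι) × Bool))
    (hl : ∀ x ∈ l, Q.d (sec x.1.1) = x.1.1) :
    (pres Q sec w hw).cnt h (.inr j) 1 (l.flatMap (blk sec)) =
      (fox j (FreeGroup.mk l)).coeff h := by
  induction l with
  | nil => simp [Pres.cnt, fox]
  | cons x l ih =>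
    rw [List.flatMap_cons, fox_cons, MonoidAlgebra.coeff_add, Finsupp.add_apply,
      ← ih fun y hy => hl y (List.mem_cons_of_mem _ hy)]
    have h2 := hl x List.mem_cons_self
    obtain ⟨⟨g, i⟩, _ | _⟩ := x <;> by_cases h1 : i = j <;> simp only at h2 <;>
      simp [blk, Pres.cnt, Pres.co, nxt, pres, dg, h1, h2, Finsupp.single_apply, apply_ite Neg.neg]


theorem exists_tree {Y : Type} [TopologicalSpace Y] (V : G → Y) (hJ : ∀ y, ∃ g, Joined (V g) y)
    (ep : ∀ g a, Path (V g) (V (g * Q.d a))) (ω : G → List (S × Bool) → ℝ → Y)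
    (hω : ∀ g l, Continuous (ω g l)) (ω0 : ∀ g s, ω g [] s = V g)
    (ω1 : ∀ g l w (u : unitInterval), ω g (l :: w) u =
      if l.2 then ep g l.1 u else ep (g * (Q.d l.1)⁻¹) l.1 (unitInterval.symm u))
    (ω2 : ∀ g l w s, 0 ≤ s → ω g (l :: w) (s + 1) = ω (nxt Q.d g l) w s)
    (hR : ∀ g c, ∃ p : Path (V g) (V g), (∀ u, p u = ω g (Q.R c) ((Q.R c).length * u)) ∧
      p.Homotopic (.refl _)) :
    ∃ γ : ∀ g, Path (V 1) (V g), ∀ g a, ((γ g).trans (ep g a)).Homotopic (γ (g * Q.d a)) := by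
  have h1 : ∀ (l : List (S × Bool)) g, Joined (V g) (V (l.foldl (nxt Q.d) g)) := fun l => by
    induction l with
    | nil => exact fun _ => .refl _
    | cons x l ih =>
      refine fun g => Joined.trans ?_ (ih _)
      unfold nxt
      split_ifs
      · exact ⟨ep _ _⟩
      · simpa using Joined.symm ⟨ep (g * (Q.d x.1)⁻¹) x.1⟩
  have h2 : ∀ y, Joined (V 1) y := fun y => by
    obtain ⟨g, h⟩ := hJ y
    obtain ⟨l, rfl⟩ := Q.gen g
    have := h1 l 1
    rw [foldl_nxt, one_mul] at this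
    exact this.trans h
  obtain ⟨Γ, _, cls, c1, c2, c3⟩ := exists_cls (V 1) fun y => (h2 y).somePath
  have c4 : ∀ a b a' b' (p : Path a b) (q : Path a' b'), (∀ u, p u = q u) → cls p = cls q := by
    intro a b a' b' p q h
    obtain rfl : a = a' := by simpa using h 0
    obtain rfl : b = b' := by simpa using h 1
    rw [show p = q from Path.ext (funext h)]
  have c5 : ∀ a, cls (Path.refl a) = 1 := fun a =>
    mul_eq_left.1 ((c1 _ _ _ _ _).symm.trans ((c2 _ _ _ _).2 (Path.Homotopic.refl_trans _)))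
  have c6 : ∀ a b (p : Path a b), cls p.symm = (cls p)⁻¹ := fun a b p =>
    eq_inv_of_mul_eq_one_right ((c1 _ _ _ _ _).symm.trans
      (((c2 _ _ _ _).2 (Path.Homotopic.trans_symm p)).trans (c5 a)))
  have key : ∀ (l : List (S × Bool)) g a b (p : Path a b), (∀ u, p u = ω g l (l.length * u)) →
      cls p = kw Q.d (fun g a => cls (ep g a)) g l := fun l => by
    induction l with
    | nil =>
      exact fun g a b p h =>
        (c4 _ _ _ _ p (.refl (V g)) fun u => (h u).trans (ω0 _ _)).trans (c5 _)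
    | cons x l ih =>
      intro g a b p h
      let p1 : Path (0 : ℝ) 1 := ⟨⟨fun u => u, by fun_prop⟩, rfl, rfl⟩
      let p2 : Path (1 : ℝ) (l.length + 1) := ⟨⟨fun u => l.length * u + 1, by fun_prop⟩, by simp,
        by simp⟩
      let p3 : Path (0 : ℝ) (l.length + 1) := ⟨⟨fun u => (l.length + 1) * u, by fun_prop⟩, by simp,
        by simp⟩
      have hc := hω g (x :: l)
      rw [c4 _ _ _ _ p (p3.map hc) fun u => (h u).trans (by simp [p3]),
        ← (c2 _ _ _ _).2 (tri_homotopic hc (p1.map hc) (p2.map hc) (p3.map hc) p1 p2 p3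
          (fun _ => rfl) (fun _ => rfl) fun _ => rfl), c1, kw,
        ← ih (nxt Q.d g x) _ _ (p2.map hc) fun u =>
          ω2 _ _ _ _ (mul_nonneg (Nat.cast_nonneg _) (unitInterval.nonneg u))]
      congr 1
      split_ifs with hx
      · exact c4 _ _ _ _ _ _ fun u => (ω1 g x l u).trans (if_pos hx)
      · rw [← c6]
        exact c4 _ _ _ _ _ _ fun u => (ω1 g x l u).trans (if_neg hx)
  obtain ⟨ξ, hξ⟩ := exists_prim Q.d Q.R Q.closed Q.gen Q.univ (fun g a => cls (ep g a))
    fun g c => by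
      obtain ⟨p, h, h'⟩ := hR g c
      rw [← key _ _ _ _ p h, (c2 _ _ _ _).2 h', c5]
  choose γ hγ using fun g => c3 (V 1) (V g) (ξ g)
  exact ⟨γ, fun g a => (c2 _ _ _ _).1 (by rw [c1, hγ, hγ, hξ])⟩

open unitInterval in
theorem exists_contr {Y : Type} [TopologicalSpace Y] [T2Space Y] (d : S → G) (V : G → Y)
    (hV : Function.Injective V) (ep : ∀ g a, Path (V g) (V (g * d a)))
    (hl : LocallyFinite fun p : G × S => range (ep p.1 p.2))
    (hi : ∀ x x' : (G × S) × I, (0 : ℝ) < x.2 ∧ (x.2 : ℝ) < 1 →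
      ep x.1.1 x.1.2 x.2 = ep x'.1.1 x'.1.2 x'.2 → x = x') {y0 : Y}
    (γ : ∀ g, Path y0 (V g)) (hγ : ∀ g a, ((γ g).trans (ep g a)).Homotopic (γ (g * d a))) :
    ∃ C : C(I × range fun x : (G × S) × I => ep x.1.1 x.1.2 x.2, Y), (∀ y, C (0, y) = y) ∧
      ∀ y, C (1, y) = y0 := by
  let : TopologicalSpace (G × S) := ⊥
  have : DiscreteTopology (G × S) := ⟨rfl⟩
  let q : (G × S) × I → Y := fun x => ep x.1.1 x.1.2 x.2
  have hqc : Continuous q := continuous_prod_of_discrete_left.2 fun p => (ep p.1 p.2).continuous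
  have hq : IsQuotientMap (rangeFactorization q) :=
    ((closedMap_lf (fun p : G × S => ep p.1 p.2) (fun p => (ep p.1 p.2).continuous) hl).codRestrict
      mem_range_self).isQuotientMap hqc.rangeFactorization rangeFactorization_surjective
  choose F F0 F1 F2 F3 using fun p : G × S => square_of_homotopic _ _ _ (hγ p.1 p.2)
  have hFd : Continuous fun x : (G × S) × (I × I) => F x.1 x.2 :=
    continuous_prod_of_discrete_left.2 fun p => (F p).continuous
  have hv : ∀ (s : I) (x : (G × S) × I), ¬((0 : ℝ) < x.2 ∧ (x.2 : ℝ) < 1) → ∃ k,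
      q x = V k ∧ F x.1 (s, x.2) = (γ k).extend (2 - 3 * s) := by
    rintro s ⟨p, u⟩ h
    rcases (nonneg u).eq_or_lt with h0 | h0
    · obtain rfl : u = 0 := Subtype.ext h0.symm
      exact ⟨_, (ep _ _).source, F2 p s⟩
    · obtain rfl : u = 1 := Subtype.ext (le_antisymm (le_one u) (not_lt.1 fun h1 => h ⟨h0, h1⟩))
      exact ⟨_, (ep _ _).target, F3 p s⟩
  obtain ⟨C, hC⟩ := descend hq (fun x => F x.2.1 (x.1, x.2.2))
    (hFd.comp (f := fun x : I × ((G × S) × I) => (x.2.1, x.1, x.2.2)) (by fun_prop)) (by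
    intro s x x' e
    have e' : q x = q x' := congrArg Subtype.val e
    by_cases h : (0 : ℝ) < x.2 ∧ (x.2 : ℝ) < 1
    · rw [hi _ _ h e']
    · by_cases h' : (0 : ℝ) < x'.2 ∧ (x'.2 : ℝ) < 1
      · rw [hi _ _ h' e'.symm]
      · obtain ⟨k, h1, h2⟩ := hv s x h
        obtain ⟨k', h1', h2'⟩ := hv s x' h'
        obtain rfl := hV (h1.symm.trans (e'.trans h1'))
        exact h2.trans h2'.symm)
  refine ⟨C, fun y => ?_, fun y => ?_⟩
  · obtain ⟨x, rfl⟩ := rangeFactorization_surjective y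
    exact (hC _ _).trans (F0 _ _)
  · obtain ⟨x, rfl⟩ := rangeFactorization_surjective y
    exact (hC _ _).trans (F1 _ _)

theorem locFinE [Finite S] (P : Pres G S T) :
    LocallyFinite fun p : G × S => range (P.eE p.1 p.2) := by
  intro x
  obtain ⟨g, c, z, rfl⟩ := P.exists_eF x
  obtain ⟨k, hk⟩ := P.face_pos g c z
  have hc : Continuous fun y : P.E => (y.1 k).1 :=
    continuous_fst.comp ((continuous_apply k).comp (continuous_subtype_val (p := fun x : VV G S T =>
      ∃ (g : G) (c : T) (z : Sq), P.face g c z.1 = x)))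
  refine ⟨{y | (y.1 k).1 ≠ 0}, (isOpen_ne_fun hc continuous_const).mem_nhds hk,
    ((finite_range fun a => (k, a)).union (finite_range fun a => (k * (P.d a)⁻¹, a))).subset ?_⟩
  rintro ⟨g', a⟩ ⟨_, ⟨s, rfl⟩, hy⟩
  by_cases h1 : k = g'
  · exact .inl ⟨a, by rw [h1]⟩
  by_cases h2 : k = g' * P.d a
  · exact .inr ⟨a, by simp [h2]⟩
  exact absurd (by simp [Pres.eE, Pres.edge, h1, h2]) hy

section
variable {X : Type} [TopologicalSpace X] {x0 : X}

theorem wl_mem {L : Set X} (h0 : x0 ∈ L) {a : S → ML x0} (ha : ∀ b s, (a b).f s ∈ L)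
    (l : List (S × Bool)) (s : ℝ) : (wl a l).f s ∈ L := by
  induction l generalizing s with
  | nil => exact h0
  | cons x l ih =>
    rw [wl_cons, mul_f]
    split_ifs
    exacts [ha _ _, ih _, ha _ _, ih _]

theorem joined_scale (a : ML x0) (h : 0 < a.len) : Joined (scale a 1 one_pos) a := by
  have hp : ∀ s : unitInterval, 0 < (1 - s) + s * a.len := fun s => by
    have h1 := mul_nonneg (unitInterval.nonneg s) h.le
    rcases (unitInterval.le_one s).eq_or_lt with h3 | h3
    · rw [h3]; simpa using h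
    · linarith
  refine ⟨⟨⟨fun s => scale a _ (hp s), continuous_scale continuous_const (by fun_prop) hp⟩, ?_,
    scale_self _ (hp 1) (by simp)⟩⟩
  change scale a _ (hp 0) = _
  congr 1
  simp

theorem exists_loops (a : S → ML x0) (ha : ∀ b, (a b).len = 1)
    (hR : ∀ c, Joined (wl a (Q.R c)) 1) {L : Set X} (h0 : x0 ∈ L) (hL : ∀ b s, (a b).f s ∈ L) :
    ∃ t : G → ML x0, (∀ g, (t g).len = 1) ∧ (∀ g h, Joined (t g * (t h * rev (t (g * h)))) 1) ∧
      (∀ g s, (t g).f s ∈ L) ∧ ∀ g, Q.d (sec g) = g → t g = a (sec g) := by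
  let q := (jcon (ML x0)).mk'
  have e : ∀ {a b : ML x0}, Joined a b → q a = q b := fun h => (jcon _).eq.2 h
  let u : S → (jcon (ML x0)).Quotientˣ := fun s => ⟨q (a s), q (rev (a s)),
    by simpa using e (joined_rev (a s)), by simpa using e (joined_rev' (a s))⟩
  have hu : ∀ l, q (wl a l) = (FreeGroup.lift u (FreeGroup.mk l)).1 := fun l => by
    induction l with
    | nil => exact map_one q
    | cons x l ih =>
      rw [wl_cons, map_mul, ih, lift_cons, Units.val_mul]
      split_ifs <;> rfl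
  obtain ⟨φ, hφ⟩ := Q.univ _ u fun c => Units.ext ((hu _).symm.trans ((e (hR c)).trans (map_one q)))
  have : ∀ g, ∃ t : ML x0, t.len = 1 ∧ q t = (φ g).1 ∧ (∀ s, t.f s ∈ L) ∧
      (Q.d (sec g) = g → t = a (sec g)) := fun g => by
    by_cases h : Q.d (sec g) = g
    · exact ⟨a (sec g), ha _, by rw [← congrArg φ h, hφ], hL _, fun _ => rfl⟩
    · obtain ⟨l, rfl⟩ := Q.gen g
      have h1 := (wl a l).len_nonneg
      refine ⟨scale (c1 * wl a l) 1 one_pos, rfl, ?_, fun s => ?_, fun h' => absurd h' h⟩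
      · rw [e (joined_scale _ (by simp; linarith)), map_mul, e ⟨shrink _ _⟩, map_one, one_mul, hu,
          ← MonoidHom.comp_apply φ, show φ.comp (FreeGroup.lift Q.d) = FreeGroup.lift u by
            ext1 s; simp [hφ]]
      · change (c1 * wl a l).f _ ∈ L
        rw [mul_f]
        split_ifs
        exacts [h0, wl_mem h0 hL _ _]
  choose t t1 t2 t3 t4 using this
  refine ⟨t, t1, fun g h => (jcon _).eq.1 ?_, t3, t4⟩
  change q _ = q 1
  rw [map_mul, map_mul, t2, t2, ← mul_assoc, ← Units.val_mul, ← map_mul, ← t2, ← map_mul]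
  exact e (joined_rev _)

end

variable [Finite T] [Finite ι]

def Lset : Set (pres Q sec w hw).K :=
  range fun x : T × Sq => (pres Q sec w hw).pr ((pres Q sec w hw).eF 1 (.inl x.1) x.2)

theorem mem_L_E (a : S) (s : ℝ) :
    (pres Q sec w hw).pr ((pres Q sec w hw).eE 1 (.inl a) s) ∈ Lset Q sec hw := by
  obtain ⟨c, hc⟩ := Q.occ a
  obtain ⟨z, -, e⟩ := (pres Q sec w hw).pr_E_FI (c := .inl c) (b := .inl a)
    (List.mem_map.2 ⟨_, hc, rfl⟩) s
  exact ⟨(c, z), e.symm⟩

def LI (S T ι : Type) : ∀ n, Set (Cel (S ⊕ ι) (T ⊕ ι) n)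
  | 0 => univ
  | 1 => range Sum.inl
  | 2 => range Sum.inl
  | _ + 3 => univ

def Lsub [Finite S] : CWComplex.Subcomplex (univ : Set (pres Q sec w hw).K) where
  carrier := Lset Q sec hw
  I := LI S T ι
  closed' := by
    let : TopologicalSpace T := ⊥
    have : DiscreteTopology T := ⟨rfl⟩
    exact (isCompact_range (continuous_prod_of_discrete_left.2 fun p =>
      (pres Q sec w hw).continuous_prI.comp
        ((pres Q sec w hw).continuous_eF 1 (.inl p)))).isClosed
  union' := by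
    rw [empty_union]
    ext x
    simp only [mem_iUnion]
    constructor
    · rintro ⟨n, ⟨j, hj⟩, z, -, rfl⟩
      match n, j, hj with
      | 0, _, _ => exact mem_L_E Q sec hw Q.s0 0
      | 1, _, ⟨a, rfl⟩ => exact mem_L_E Q sec hw a _
      | 2, _, ⟨p, rfl⟩ => exact ⟨(p, prj z), rfl⟩
      | _ + 3, j, _ => exact j.elim
    · rintro ⟨⟨p, z⟩, rfl⟩
      by_cases h : ‖z.1‖ = 1
      · rcases (pres Q sec w hw).pr_sphereI (.inl p) h with e | ⟨l, hl, s, h0, h1, e⟩
        · exact ⟨0, ⟨(), trivial⟩, 0, by simp, e.symm⟩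
        · refine ⟨1, ⟨l.1, ?_⟩, vec1 s, Pres.vec1_memI h0 h1,
            (congrArg _ ((pres Q sec w hw).chi_vec1 _ _)).trans e.symm⟩
          obtain ⟨l', -, rfl⟩ := List.mem_map.1 hl
          exact ⟨_, rfl⟩
      · exact ⟨2, ⟨.inl p, p, rfl⟩, z.1, mem_ball_zero_iff.2
          (lt_of_le_of_ne (mem_closedBall_zero_iff.1 z.2) h),
          congrArg (fun v => (pres Q sec w hw).pr ((pres Q sec w hw).eF 1 (.inl p) v)) (prj_val z)⟩

theorem connected_L : IsConnected (Lset Q sec hw) := by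
  have : ConnectedSpace Sq := isConnected_iff_connectedSpace.1
    ((convex_closedBall _ _).isConnected (by simp))
  refine ⟨⟨_, mem_L_E Q sec hw Q.s0 0⟩, isPreconnected_of_forall (pres Q sec w hw).x0I ?_⟩
  rintro _ ⟨⟨p, z⟩, rfl⟩
  refine ⟨range fun z => (pres Q sec w hw).pr ((pres Q sec w hw).eF 1 (.inl p) z), ?_,
    ⟨⟨1, by simp⟩, (pres Q sec w hw).pr_restI _ (.inr (.inl rfl))⟩, ⟨z, rfl⟩,
    isPreconnected_range ((pres Q sec w hw).continuous_prI.comp
      ((pres Q sec w hw).continuous_eF _ _))⟩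
  rintro _ ⟨z, rfl⟩
  exact ⟨(p, z), rfl⟩

open unitInterval

theorem retract_L [Fintype ι] (hs : ∀ i, ∀ x ∈ w i, Q.d (sec x.1.1) = x.1.1)
    (hn : NS fun i => FreeGroup.mk (w i)) (hu : IsUnit (jac fun i => FreeGroup.mk (w i))) :
    ∃ H : C(I × (pres Q sec w hw).K, (pres Q sec w hw).K), (∀ x, H (0, x) = x) ∧
      (∀ x, H (1, x) ∈ Lset Q sec hw) ∧ ∀ s, ∀ x ∈ Lset Q sec hw, H (s, x) = x := by
  let P := pres Q sec w hw
  have hp := pres_pos Q sec hw
  have e1 : ∀ i, (cst (3 * (w i).length) (by positivity) : ML P.x0I) =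
      cst (P.R (.inr i)).length (hp _).le := fun i =>
    ext' (fun _ => rfl) (len_blk sec _).symm
  obtain ⟨t, t1, t2, t3, t4⟩ := exists_loops Q sec (fun s => P.loopEI (.inl s)) (fun _ => rfl)
    (fun c => ⟨((P.facePathI (.inl c) (hp _)).trans (shrink _ _)).cast (wl_up _ _).symm rfl⟩)
    (mem_L_E Q sec hw Q.s0 0) (mem_L_E Q sec hw)
  obtain ⟨A, F, hA, F0, F1, F2, F3⟩ := square (t := t)
    (y := fun i => P.loopEI (.inr i)) hn hu t1 (fun _ => rfl) t2
    fun i => (P.facePathI (.inr i) (hp _)).cast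
      (wl_blk sec _ t _ fun x hx => t4 _ (hs i x hx)).symm (e1 i)
  obtain ⟨H, hH⟩ := P.deformI hp (fun s => Sum.elim (fun g => P.loopEI (.inl g)) (A s))
    (Sum.elim (fun p => ⟨fun x => P.facePathI (.inl p) (hp _) x.2, by fun_prop⟩) F)
    (by rintro s (g | i); exacts [rfl, hA s i])
    (by
      rintro (p | i) s
      · exact (P.facePathI _ (hp _)).source.trans ((wl_up _ _).trans
          (wl_up (Sum.elim (fun g => P.loopEI (.inl g)) (A s)) _).symm)
      · exact (F1 i s).trans (wl_blk sec (Sum.elim (fun g => P.loopEI (.inl g)) (A s)) t _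
          fun x hx => t4 _ (hs i x hx)).symm)
    (by
      rintro (p | i) s u
      · exact congrArg (fun a => a.f u) (P.facePathI _ (hp _)).target
      · exact congrArg (fun a => a.f u) (F2 i s))
  refine ⟨H, fun x => ?_, fun x => ?_, ?_⟩
  · obtain ⟨c, z, rfl⟩ := P.exists_prI x
    obtain ⟨v, -, h⟩ := hH 0 c z
    rcases c with p | i
    exacts [h rfl, h (F0 i v)]
  · obtain ⟨c, z, rfl⟩ := P.exists_prI x
    obtain ⟨v, ⟨u, h1⟩, h⟩ := hH 1 c z
    rcases c with p | i
    · exact ⟨(p, z), (h rfl).symm⟩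
    · rw [h1]
      rcases F3 i v u with e | ⟨g, s, e⟩
      · exact e.symm ▸ mem_L_E Q sec hw Q.s0 0
      · exact e.symm ▸ t3 g s
  · rintro s _ ⟨⟨p, z⟩, rfl⟩
    obtain ⟨v, -, h⟩ := hH s (.inl p) z
    exact h rfl

theorem simply_L [Finite S] : SimplyConnectedSpace ((pres Q sec w hw).pr ⁻¹' Lset Q sec hw) := by
  let P := pres Q sec w hw
  let Y := P.pr ⁻¹' Lset Q sec hw
  have ext : ∀ {a b : Y}, a.1.1 = b.1.1 → a = b := fun h => Subtype.ext (Subtype.ext h)
  let φ : G × T → Sq → Y := fun c z =>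
    ⟨P.eF c.1 (.inl c.2) z, (c.2, z), (P.pr_eFI _ _ z).symm⟩
  have hφ : ∀ c, Continuous (φ c) := fun c => Continuous.subtype_mk (by fun_prop) _
  have hj : ∀ {α β : Type}, Function.Injective fun c : G × α => (c.1, (.inl c.2 : α ⊕ β)) :=
    fun h => by simpa [Prod.ext_iff] using h
  have hs : ∀ y, ∃ i z, φ i z = y := by
    rintro ⟨y, ⟨p, z⟩, e⟩
    obtain ⟨g, e'⟩ := Pres.pr_eqI e.symm
    exact ⟨(g * 1, p), z, ext ((P.sh_face _ _ _ _).symm.trans e')⟩
  let E : G → S → ℝ → Y := fun g a s =>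
    ⟨P.eE g (.inl a) s, by rw [mem_preimage, P.pr_eEI]; exact mem_L_E Q sec hw _ _⟩
  let V : G → Y := fun g => E g Q.s0 0
  have hV : ∀ g, (V g).1.1 = P.vtx g := P.eV_val
  let ep : ∀ g a, Path (V g) (V (g * Q.d a)) := fun g a =>
    ⟨⟨fun u => E g a u, Continuous.subtype_mk (by fun_prop) _⟩,
      Subtype.ext (P.eE_le _ _ le_rfl), Subtype.ext (P.eE_ge _ _ le_rfl)⟩
  have hep : ∀ g a u, (ep g a u).1.1 = P.edge g (.inl a) u := fun g a u =>
    congrArg (P.edge _ _) (clamp_of_mem (nonneg _) (le_one _))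
  have : ∀ g l s, ∃ x : (G × S) × I, (ep x.1.1 x.1.2 x.2).1.1 = P.wp g (up ι l) s := fun g l s => by
    rcases P.wp_cases g (up ι l) s with ⟨k, e⟩ | ⟨l', hl, k, s', h0, h1, e⟩
    · exact ⟨((k, Q.s0), 0), (hep _ _ _).trans ((P.edge_zero _ _).trans e.symm)⟩
    · obtain ⟨a, -, rfl⟩ := List.mem_map.1 hl
      exact ⟨((k, a.1), ⟨s', h0, h1⟩), (hep _ _ _).trans e⟩
  choose x hx using this
  let ω : G → List (S × Bool) → ℝ → Y := fun g l s => ep (x g l s).1.1 (x g l s).1.2 (x g l s).2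
  have : ContractibleSpace Sq := (convex_closedBall _ _).contractibleSpace (by simp)
  have hr : ∀ g c (z : Sq), z.1 0 = -1 ∨ z.1 0 = 1 ∨ z.1 1 = 1 → φ (g, c) z = V g := fun g c z h =>
    ext ((P.face_rest g (.inl c) h).trans (hV g).symm)
  obtain ⟨γ, hγ⟩ := exists_tree Q V (fun y => by
      obtain ⟨⟨g, c⟩, z, rfl⟩ := hs y
      exact ⟨g, hr g c ⟨1, by simp⟩ (.inr (.inl rfl)) ▸
        ⟨(PathConnectedSpace.somePath _ z).map (hφ (g, c))⟩⟩) ep ω
    (fun g l => continuous_induced_rng.2 (continuous_induced_rng.2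
      ((P.continuous_wp g (up ι l)).congr fun s => (hx g l s).symm)))
    (fun g s => ext ((hx _ _ _).trans (hV g).symm))
    (fun g l w u => ext ((hx _ _ _).trans (by
      rw [up, List.map_cons, Pres.wp, if_pos (le_one u), clamp_of_mem (nonneg u) (le_one u),
        Pres.lp]
      split_ifs
      exacts [(hep _ _ _).symm, (hep _ _ (σ u)).symm])))
    (fun g l w s h => ext ((hx _ _ _).trans (Eq.trans (by
      rw [up, List.map_cons, P.wp_cons _ _ _ (by linarith), add_sub_cancel_right]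
      rfl) (hx _ _ _).symm)))
    fun g c => by
      let p : Path (prj ![-1, -1]) (prj ![1, -1]) :=
        ⟨⟨fun u => prj ![2 * u - 1, -1], by fun_prop⟩, by simp, by norm_num⟩
      let q : Path (prj ![1, -1]) (prj ![1, 1]) :=
        ⟨⟨fun u => prj ![1, 2 * u - 1], by fun_prop⟩, by simp, by norm_num⟩
      let r : Path (prj ![-1, -1]) (prj ![1, 1]) :=
        ⟨⟨fun u => prj ![4 * u - 3, 4 * u - 1], by fun_prop⟩, by
          ext i; fin_cases i <;> simp [prj], by ext i; fin_cases i <;> norm_num [prj]⟩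
      let p' : Path (V g) (V g) := (p.map (hφ (g, c))).cast
        (hr g c _ (.inl (by simp [prj]))).symm (hr g c _ (.inr (.inl (by simp [prj])))).symm
      refine ⟨p', fun u => ext (Eq.trans ?_ (hx _ _ _).symm),
        (Path.Homotopic.trans_refl _).symm.trans (tri_homotopic (hφ (g, c)) p' (.refl _) (.refl _)
          p q r (fun _ => rfl) (fun u => (hr g c (prj ![1, 2 * u - 1])
            (.inr (.inl (by simp [prj])))).symm)
          fun u => (hr g c _ ?_).symm)⟩
      · refine (P.face_bottom g (.inl c) (z := (prj ![2 * u - 1, -1]).1) (by simp [prj])).trans ?_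
        simp only [prj, Matrix.cons_val_zero]
        rw [min_eq_right (by linarith [le_one u]), max_eq_right (by linarith [nonneg u])]
        congr 1
        simp [P, R_inl, up]
      · rcases le_total (u : ℝ) (1 / 2) with h | h
        · exact .inl (max_eq_left ((min_le_right _ _).trans
            (show 4 * (u : ℝ) - 3 ≤ -1 by linarith)))
        · refine .inr (.inr ?_)
          change max (-1) (min 1 (4 * (u : ℝ) - 1)) = 1
          rw [min_eq_left (by linarith), max_eq_right (by norm_num)]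
  obtain ⟨C, C0, C1⟩ := exists_contr Q.d V
    (fun g g' e => Pres.vtx_inj ((hV g).symm.trans ((congrArg (fun y => y.1.1) e).trans (hV g'))))
    ep ((((locFinE P).comp_injective hj).preimage_continuous continuous_subtype_val).subset
      fun c => range_subset_iff.2 fun z => ⟨z, rfl⟩)
    (fun x x' h e => by
      obtain ⟨a, b, c⟩ := Pres.edge_inj h.1 h.2
        ((hep _ _ _).symm.trans ((congrArg (fun y => y.1.1) e).trans (hep _ _ _)))
      exact Prod.ext (Prod.ext a (Sum.inl_injective b)) (Subtype.ext c)) γ hγ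
  refine simply_of_cellsI φ hφ (((P.locFin.comp_injective hj).preimage_continuous
    continuous_subtype_val).subset fun c => range_subset_iff.2 fun z => ⟨z, rfl⟩) hs ?_ _ ?_ C C0 C1
  · intro i j z z' h e
    have := Pres.face_inj (Sq.rho_ne h) (congrArg (fun y => y.1.1) e)
    exact ⟨Prod.ext this.1 (Sum.inl_injective this.2.1), Subtype.ext this.2.2⟩
  · intro c z hz
    obtain ⟨u, -, -, e⟩ := P.face_sphere c.1 (.inl c.2) hz
    exact ⟨_, ext ((hx _ _ _).trans e.symm)⟩

def pairOf [Finite S] [Fintype ι] (hs : ∀ i, ∀ x ∈ w i, Q.d (sec x.1.1) = x.1.1)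
    (hn : NS fun i => FreeGroup.mk (w i))
    (hu : IsUnit (jac fun i => FreeGroup.mk (w i))) : Pair G where
  K := (pres Q sec w hw).K
  finite := (pres Q sec w hw).finiteKI
  L := Lsub Q sec hw
  connected := connected_L Q sec hw
  retract := retract_L Q sec hw hs hn hu
  dim := fun k hk i => by
    obtain ⟨k, rfl⟩ := Nat.exists_eq_add_of_le' hk
    exact trivial
  E := (pres Q sec w hw).E
  p := (pres Q sec w hw).pr
  simply := by
    obtain ⟨H, h0, h1, h2⟩ := retract_L Q sec hw hs hn hu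
    have := simply_L Q sec hw
    exact simplyConnected_of_retract (pres Q sec w hw).pr_coverI.isCoveringMap H h0 h1 h2
  cover := (pres Q sec w hw).pr_coverI

theorem pairOf_torsion [Finite S] [Fintype ι] (hs : ∀ i, ∀ x ∈ w i, Q.d (sec x.1.1) = x.1.1)
    (hn : NS fun i => FreeGroup.mk (w i)) (hu : IsUnit (jac fun i => FreeGroup.mk (w i))) :
    (pairOf Q sec hw hs hn hu).HasTorsion (-(whInv G).c (jac fun i => FreeGroup.mk (w i))) := by
  have e0 : IsEmpty ((pairOf Q sec hw hs hn hu).Cell 0) := ⟨fun x => x.2 trivial⟩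
  let e := (Fintype.equivFin ι).symm
  let e2 : ι ≃ (pairOf Q sec hw hs hn hu).Cell 2 := notInl T ι
  refine ⟨_, e.trans (notInl S ι), (Equiv.sumEmpty _ _).trans (e2.symm.trans e.symm),
    fun k i => (pres Q sec w hw).chi k i.1, (isUnit_sub e hu).unit, fun _ v => e0.elim v,
    fun k i => ⟨((pres Q sec w hw).continuous_chi k i.1).continuousOn, fun _ _ => rfl⟩, ?_,
    fun _ v => e0.elim v, fun v => e0.elim v, ?_⟩
  · intro c j g
    obtain ⟨i, rfl⟩ := e2.surjective c
    have := (pres Q sec w hw).incidence g (.inr (e j)) (.inr i)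
    rw [R_inr, cnt_blk Q sec hw _ _ _ (hs i)] at this
    simp only [IsUnit.unit_spec, Matrix.submatrix_apply, Equiv.trans_apply,
      Equiv.sumEmpty_apply_inl, Equiv.symm_apply_apply, Equiv.apply_symm_apply]
    exact this
  · rw [← whInv_val, IsUnit.unit_spec, (whInv G).sub e hu]

end Pool.Agent.Lib.MP_2add11_gt.FG.RI

namespace Pool.Agent.Lib.MP_2add11_gt.IG

open FG Classical

/-- Realisation for every finitely presented group. -/
theorem mem_whStarI {G : Type} [Group G] [Group.IsFinitelyPresented G] {x : Wh G}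
    (hx : x ∈ Alg (whInv G)) : -x ∈ WhStar G := by
  obtain ⟨ι, _, _, r, h1, h2, rfl⟩ := hx
  have : ∀ i, ∃ l, ((1, i), true) ∈ l ∧ FreeGroup.mk l = r i := fun i =>
    ⟨((1, i), true) :: ((1, i), false) :: (r i).toWord, List.mem_cons_self, by
      refine Eq.trans ?_ (FreeGroup.mk_toWord (x := r i))
      exact Quot.sound FreeGroup.Red.Step.cons_not⟩
  choose w hw hr using this
  obtain rfl : r = fun i => FreeGroup.mk (w i) := funext fun i => (hr i).symm
  obtain rfl : ‹DecidableEq ι› = fun a b => propDecidable (a = b) := Subsingleton.elim _ _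
  obtain ⟨S, T, _, _, Q, hQ⟩ := RI.exists_FP (A := ⋃ i, (fun x => x.1.1) '' {x | x ∈ w i})
    (Set.finite_iUnion fun i => (List.finite_toSet (w i)).image _)
  have : ∀ g, ∃ s, g ∈ ⋃ i, (fun x => x.1.1) '' {x | x ∈ w i} → Q.d s = g := fun g => by
    by_cases h : g ∈ ⋃ i, (fun x => x.1.1) '' {x | x ∈ w i}
    · exact (hQ g h).imp fun s hs _ => hs
    · exact ⟨Q.s0, fun h' => absurd h' h⟩
  choose sec hs using this
  exact ⟨_, RI.pairOf_torsion Q sec hw (fun i x hx => hs _ (Set.mem_iUnion.2 ⟨i, x, hx, rfl⟩)) h1 h2⟩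

end Pool.Agent.Lib.MP_2add11_gt.IG
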