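import Pool.Agent.Lib.MP_2add11_gt.IG.Pot

/-!
A group that acts on a tree with finite stabilisers and finitely many orbits of edges has a
subgroup of finite index that acts freely and without inversions.
-/

namespace Pool.Agent.Lib.MP_2add11_gt.IG

open MulAction Equiv

section Free

variable {H X : Type} [Group H]

theorem free_std (α : H →* Perm X) (hα : ∀ h x, α h x = x → h = 1) :
    ∃ (Ω : Type) (e : Ω × H ≃ X), ∀ h' ω h, α h' (e (ω, h)) = e (ω, h' * h) := by
  let : MulAction H X := MulAction.compHom X α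
  have hs : ∀ (h : H) (x : X), h • x = α h x := fun _ _ => rfl
  refine ⟨orbitRel.Quotient H X, Equiv.ofBijective (fun p => α p.2 p.1.out) ⟨?_, fun x => ?_⟩,
    fun h' ω h => by simp⟩
  · rintro ⟨ω, h⟩ ⟨ω', h'⟩ e
    have e' : (h'⁻¹ * h) • ω.out = ω'.out := by
      rw [hs, map_mul, Perm.mul_apply, show α h ω.out = α h' ω'.out from e]
      simp
    obtain rfl : ω = ω' := by
      rw [← Quotient.out_eq ω, ← Quotient.out_eq ω']
      exact (Quotient.sound (show orbitRel H X ω'.out ω.out from ⟨_, e'⟩)).symm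
    rw [inv_mul_eq_one.1 (hα _ _ e')]
  · obtain ⟨h, e⟩ : orbitRel H X x (Quotient.mk (orbitRel H X) x).out :=
      Quotient.exact (Quotient.out_eq _).symm
    exact ⟨(Quotient.mk _ x, h), e⟩

theorem free_conj [Finite X] (α β : H →* Perm X) (hα : ∀ h x, α h x = x → h = 1)
    (hβ : ∀ h x, β h x = x → h = 1) [Finite H] : ∃ u : Perm X, ∀ h, α h * u = u * β h := by
  obtain ⟨Ω, e, he⟩ := free_std α hα
  obtain ⟨Ω', e', he'⟩ := free_std β hβ
  have : Finite Ω := .of_injective (fun ω => e (ω, 1)) fun a b h => by simpa using h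
  have : Finite Ω' := .of_injective (fun ω => e' (ω, 1)) fun a b h => by simpa using h
  obtain ⟨f⟩ : Nonempty (Ω' ≃ Ω) := Finite.card_eq.1 (Nat.eq_of_mul_eq_mul_right
    (Nat.card_pos (α := H)) (by
      rw [← Nat.card_prod, ← Nat.card_prod, Nat.card_congr e, Nat.card_congr e']))
  refine ⟨e'.symm.trans ((f.prodCongr (Equiv.refl H)).trans e), fun h => Equiv.ext fun x => ?_⟩
  obtain ⟨⟨ω, k⟩, rfl⟩ := e'.surjective x
  simp [he, he']

theorem exists_free [Finite H] {m : ℕ} (hm : Nat.card H ∣ m) :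
    ∃ α : H →* Perm (Fin m), ∀ h x, α h x = x → h = 1 := by
  obtain ⟨k, rfl⟩ := hm
  obtain ⟨e⟩ : Nonempty (H × Fin k ≃ Fin (Nat.card H * k)) := Finite.card_eq.1 (by simp)
  refine ⟨MonoidHom.mk' (fun h => e.permCongr ((Equiv.mulLeft h).prodCongr (Equiv.refl _)))
    fun a b => Equiv.ext fun x => by simp [Prod.map], fun h x e' => ?_⟩
  obtain ⟨⟨a, j⟩, rfl⟩ := e.surjective x
  simpa using e'

end Free

variable {G : Type} [Group G]

theorem exists_reps (Y : Type) [MulAction G Y] : ∃ (r : Y → Y) (t : Y → G),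
    (∀ y, t y • r y = y) ∧ ∀ (g : G) y, r (g • y) = r y := by
  have : ∀ y : Y, ∃ g : G, g • (Quotient.mk (orbitRel G Y) y).out = y := fun y =>
    (Quotient.exact (Quotient.out_eq (Quotient.mk (orbitRel G Y) y)).symm :)
  choose t ht using this
  exact ⟨_, t, ht, fun g y => congrArg _ (Quotient.sound ⟨g, rfl⟩)⟩

variable {V : Type} [MulAction G V]

theorem exists_coc {m : ℕ} (hf : ∀ x : V, Finite (stabilizer G x))
    (hm : ∀ x : V, Nat.card (stabilizer G x) ∣ m) : ∃ a : G → V → Perm (Fin m),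
      (∀ g h x, a (g * h) x = a g (h • x) * a h x) ∧
      ∀ g x i, g • x = x → a g x i = i → g = 1 := by
  classical
  obtain ⟨r, t, h1, h2⟩ := exists_reps (G := G) V
  choose α hα using fun x : V => exists_free (hm x)
  have h3 : ∀ g x, (t (g • x))⁻¹ * g * t x ∈ stabilizer G (r x) := fun g x => by
    rw [mem_stabilizer_iff, mul_smul, mul_smul, h1, inv_smul_eq_iff, ← h2 g x, h1]
  let l : V → G → Perm (Fin m) := fun v g => if h : g ∈ stabilizer G v then α v ⟨g, h⟩ else 1
  refine ⟨fun g x => l (r x) ((t (g • x))⁻¹ * g * t x), fun g h x => ?_, fun g x i e e' => ?_⟩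
  · have h4 := h3 g (h • x)
    rw [h2] at h4
    simp only [h2, l, dif_pos (h3 _ _), dif_pos h4, ← map_mul]
    congr 1
    ext
    simp [mul_smul, mul_assoc]
  · simp only [l, dif_pos (h3 _ _)] at e'
    have := congrArg Subtype.val (hα _ _ _ e')
    simp only [e, OneMemClass.coe_one] at this
    rw [mul_assoc, inv_mul_eq_one] at this
    simpa using this

theorem exists_transport {m : ℕ} (hf : ∀ x : V, Finite (stabilizer G x))
    {a : G → V → Perm (Fin m)} (ha : ∀ g h x, a (g * h) x = a g (h • x) * a h x)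
    (hb : ∀ g x i, g • x = x → a g x i = i → g = 1) : ∃ U : V × V → Perm (Fin m),
      ∀ (g : G) p, a g p.1 * U p = U (g • p) * a g p.2 := by
  obtain ⟨r, t, h1, h2⟩ := exists_reps (G := G) (V × V)
  have : ∀ p : V × V, ∃ u : Perm (Fin m), ∀ h : G, h • p = p → a h p.1 * u = u * a h p.2 := by
    intro p
    have e1 : ∀ h : stabilizer G p, h.1 • p.1 = p.1 := fun h => congrArg Prod.fst h.2
    have e2 : ∀ h : stabilizer G p, h.1 • p.2 = p.2 := fun h => congrArg Prod.snd h.2
    have := hf p.1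
    have : Finite (stabilizer G p) := .of_injective
      (fun h => (⟨h.1, e1 h⟩ : stabilizer G p.1)) fun a b h => Subtype.ext (congrArg (·.1) h)
    obtain ⟨u, hu⟩ := free_conj (H := stabilizer G p)
      (MonoidHom.mk' (fun h => a h.1 p.1) fun g h => by rw [Subgroup.coe_mul, ha, e1])
      (MonoidHom.mk' (fun h => a h.1 p.2) fun g h => by rw [Subgroup.coe_mul, ha, e2])
      (fun h i e => Subtype.ext (hb _ _ i (e1 h) e)) fun h i e => Subtype.ext (hb _ _ i (e2 h) e)
    exact ⟨u, fun h e => hu ⟨h, e⟩⟩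
  choose u hu using this
  refine ⟨fun p => a (t p) (r p).1 * u (r p) * (a (t p) (r p).2)⁻¹, fun g p => ?_⟩
  have h3 : ((t (g • p))⁻¹ * g * t p) • r p = r p := by
    rw [mul_smul, mul_smul, h1, inv_smul_eq_iff, ← h2 g p, h1]
  have h4 : ∀ x y, ((t (g • p))⁻¹ * g * t p) • x = x → t p • x = y →
      a g y * a (t p) x = a (t (g • p)) x * a ((t (g • p))⁻¹ * g * t p) x := fun x y e e' => by
    rw [← e', ← ha]
    conv_rhs => rw [← congrArg (a (t (g • p))) e, ← ha]
    congr 1
    group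
  have h5 := h4 _ _ (congrArg Prod.fst h3) (congrArg Prod.fst (h1 p))
  have h6 := h4 _ _ (congrArg Prod.snd h3) (congrArg Prod.snd (h1 p))
  simp only [h2]
  rw [← mul_assoc, ← mul_assoc, h5, mul_assoc (a _ _), hu _ _ h3, eq_mul_inv_of_mul_eq h6]
  group

theorem const_of_adj {T : SimpleGraph V} (hT : T.Preconnected) {C : Type} {f : V → C}
    (h : ∀ x y, T.Adj x y → f x = f y) (x y : V) : f x = f y := by
  obtain ⟨p⟩ := hT x y
  induction p with
  | nil => rfl
  | cons e _ ih => exact (h _ _ e).trans ih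

theorem tree_free (G V : Type) [Group G] [MulAction G V] (T : SimpleGraph V) (hT : T.IsTree)
    (hG : ∀ (g : G) x y, T.Adj x y → T.Adj (g • x) (g • y))
    (s : Set (V × V)) (hs : s.Finite) (hc : ∀ x y, T.Adj x y → ∃ g : G, (g • x, g • y) ∈ s)
    (hf : ∀ x : V, Finite (stabilizer G x)) :
    ∃ N : Subgroup G, N.FiniteIndex ∧ (∀ n ∈ N, ∀ x : V, n • x = x → n = 1) ∧
      ∀ n ∈ N, ∀ x y, T.Adj x y → n • x = y → n • y ≠ x := by
  classical
  obtain ⟨v0⟩ := hT.connected.nonempty
  have hp := hT.connected.preconnected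
  let m := Nat.card (stabilizer G v0) * ∏ p ∈ hs.toFinset, Nat.card (stabilizer G p.1)
  have hm0 : 0 < m := mul_pos Nat.card_pos (Finset.prod_pos fun _ _ => Nat.card_pos)
  obtain ⟨a, ha, hb⟩ := exists_coc (m := m) hf fun x => by
    obtain ⟨p⟩ := hp x v0
    cases p with
    | nil => exact dvd_mul_right _ _
    | cons e _ =>
      obtain ⟨g, hg⟩ := hc _ _ e
      rw [Nat.card_congr (stabilizerEquivStabilizer (rfl : g • x = g • x)).toEquiv]
      exact (Finset.dvd_prod_of_mem (fun p : V × V => Nat.card (stabilizer G p.1))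
        (hs.mem_toFinset.2 hg)).mul_left _
  obtain ⟨U, hU⟩ := exists_transport hf ha hb
  let z : Multiplicative (ZMod 2) := .ofAdd 1
  have z2 : ∀ c : Multiplicative (ZMod 2), c * z ≠ c ∧ (c = 1 ↔ c * z ≠ 1) := by decide
  obtain ⟨par, hpar⟩ := tree_pot hT (fun _ _ => z) fun _ _ _ => by decide
  let δ : G → V → Multiplicative (ZMod 2) := fun g x => par (g • x) / par x
  have hδ : ∀ g x y, δ g x = δ g y := fun g => const_of_adj hp fun x y e => by
    simp only [δ, hpar _ _ e, hpar _ _ (hG g _ _ e), mul_div_mul_right_eq_div]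
  let κ : G →* Multiplicative (ZMod 2) := MonoidHom.mk' (fun g => δ g v0) fun g h => by
    rw [hδ g v0 (h • v0)]
    simp [δ, mul_smul]
  have hκ : ∀ g ∈ κ.ker, ∀ x, par (g • x) = par x := fun g hg x =>
    div_eq_one.1 ((hδ g x v0).trans hg)
  let u : V → V → Perm (Fin m) := fun x y => if par x = 1 then U (x, y) else (U (y, x))⁻¹
  obtain ⟨om, hom⟩ := tree_pot hT u fun x y e => by
    by_cases h : par x = 1
    · simp only [u, if_pos h, if_neg (hpar _ _ e ▸ (z2 _).2.1 h), mul_inv_cancel]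
    · simp only [u, if_neg h, if_pos (hpar _ _ e ▸ not_not.1 fun h' => h ((z2 _).2.2 h')),
        inv_mul_cancel]
  let ρ : G → V → Perm (Fin m) := fun g x => om (g • x) * a g x * (om x)⁻¹
  have hρ : ∀ g ∈ κ.ker, ∀ x y, ρ g x = ρ g y := fun g hg => const_of_adj hp fun x y e => by
    have : a g x * u x y = u (g • x) (g • y) * a g y := by
      simp only [u, hκ g hg]
      split_ifs
      · exact hU g (x, y)
      · rw [eq_inv_mul_iff_mul_eq, ← mul_assoc, mul_inv_eq_iff_eq_mul]
        exact (hU g (y, x)).symm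
    simp only [ρ, hom _ _ e, hom _ _ (hG g _ _ e)]
    rw [mul_assoc (om _) (u _ _), ← this]
    group
  let ψ : κ.ker →* Perm (Fin m) := MonoidHom.mk' (fun g => ρ g v0) fun g h => by
    rw [hρ g g.2 v0 (h.1 • v0)]
    simp only [ρ, Subgroup.coe_mul, ha, mul_smul]
    group
  refine ⟨ψ.ker.map κ.ker.subtype, ⟨?_⟩, ?_, ?_⟩
  · rw [Subgroup.index_map_subtype]
    exact mul_ne_zero Subgroup.FiniteIndex.index_ne_zero Subgroup.FiniteIndex.index_ne_zero
  · rintro _ ⟨g, hg, rfl⟩ x e
    have h1 : ρ g x = 1 := (hρ g g.2 x v0).trans hg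
    have e' : g.1 • x = x := e
    simp only [ρ, e', mul_inv_eq_one, mul_eq_left] at h1
    exact hb _ x ⟨0, hm0⟩ e (by rw [show a (κ.ker.subtype g) x = 1 from h1]; rfl)
  · rintro _ ⟨g, -, rfl⟩ x y e e' -
    have := hκ g g.2 x
    rw [show g.1 • x = y from e', hpar _ _ e] at this
    exact (z2 _).1 this

end Pool.Agent.Lib.MP_2add11_gt.IG
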