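import Pool.Agent.Lib.MP_2add11_gt.IG.Wr

/-!
A group acting on a tree with finitely many orbits of edges and a finite-index subgroup acting
freely on the vertices is a retract of a finite-index subgroup of a free wreath product.
-/

noncomputable section

namespace Pool.Agent.Lib.MP_2add11_gt.IG

open Monoid Pointwise

section Potential

variable {V M : Type} [Group M] {T : SimpleGraph V}

theorem conn_ind (hc : T.Connected) (P : V → Prop) (v0 : V) (h0 : P v0)
    (hs : ∀ x y, T.Adj x y → P x → P y) (x : V) : P x := by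
  obtain ⟨p⟩ := hc.preconnected v0 x
  induction p with
  | nil => exact h0
  | cons h _ ih => exact ih (hs _ _ h h0)

/-- The product of the labels along a walk. -/
def wt (ω : V → V → M) : ∀ {u v : V}, T.Walk u v → M
  | _, _, .nil => 1
  | u, _, .cons (v := v) _ p => ω u v * wt ω p

theorem exists_potential (hT : T.IsTree) (ω : V → V → M)
    (hω : ∀ x y, T.Adj x y → ω x y * ω y x = 1) (v0 : V) :
    ∃ om : V → M, om v0 = 1 ∧ ∀ x y, T.Adj x y → om y = om x * ω x y := by
  classical
  choose p hp hu using fun x => hT.existsUnique_path x v0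
  have key : ∀ x y (h : T.Adj x y), x ∉ (p y).support → wt ω (p x) = ω x y * wt ω (p y) :=
    fun x y h hx => by
      rw [← hu x (.cons h (p y)) ((SimpleGraph.Walk.cons_isPath_iff _ _).2 ⟨hp y, hx⟩)]
      rfl
  have lt : ∀ x y, x ≠ y → x ∈ (p y).support → (p x).length < (p y).length := fun x y h hx => by
    have h1 := congrArg SimpleGraph.Walk.length ((p y).take_spec hx)
    rw [SimpleGraph.Walk.length_append, hu x _ ((hp y).dropUntil hx)] at h1
    have h2 : ((p y).takeUntil x hx).length ≠ 0 := fun e =>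
      h (SimpleGraph.Walk.eq_of_length_eq_zero e).symm
    omega
  refine ⟨fun x => (wt ω (p x))⁻¹, ?_, fun x y h => ?_⟩
  · simp only
    rw [← hu v0 .nil SimpleGraph.Walk.IsPath.nil]
    exact inv_one
  · by_cases hx : x ∈ (p y).support
    · have hy : y ∉ (p x).support := fun hy => by
        have := lt x y h.ne hx
        have := lt y x h.ne' hy
        omega
      simp only [key y x h.symm hy, mul_inv_rev]
      rw [eq_inv_of_mul_eq_one_left (hω x y h)]
    · simp only [key x y h hx, mul_inv_rev, inv_mul_cancel_right]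

end Potential

theorem two_cases (k : Multiplicative (ZMod 2)) : k = 1 ∨ k = Multiplicative.ofAdd 1 := by
  revert k
  decide

/-- The homomorphism from the group of order two given by an involution. -/
def invHom {M : Type} [Group M] (a : M) (h : a * a = 1) : Multiplicative (ZMod 2) →* M where
  toFun k := if k = 1 then 1 else a
  map_one' := if_pos rfl
  map_mul' k l := by
    have h1 : (Multiplicative.ofAdd 1 : Multiplicative (ZMod 2)) ≠ 1 := by decide
    have h2 : (Multiplicative.ofAdd 1 : Multiplicative (ZMod 2)) * Multiplicative.ofAdd 1 = 1 := by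
      decide
    rcases two_cases k with rfl | rfl <;> rcases two_cases l with rfl | rfl <;> simp [h1, h2, h]

theorem invHom_gen {M : Type} [Group M] (a : M) (h : a * a = 1) :
    invHom a h (Multiplicative.ofAdd 1) = a := by
  change (if (Multiplicative.ofAdd 1 : Multiplicative (ZMod 2)) = 1 then 1 else a) = a
  rw [if_neg (by decide)]

section Colours

variable {G V : Type} [Group G] [MulAction G V] (N : Subgroup G)

/-- The colour of an edge: its orbit under `N`, as a symmetric set of pairs. -/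
def ecl (x y : V) : Set (V × V) := {p | ∃ n ∈ N, p = (n • x, n • y) ∨ p = (n • y, n • x)}

theorem ecl_symm (x y : V) : ecl N x y = ecl N y x := by
  ext p
  exact exists_congr fun n => and_congr_right fun _ => or_comm

theorem mem_ecl (x y : V) : (x, y) ∈ ecl N x y := ⟨1, one_mem _, .inl (by simp)⟩

theorem smul_ecl [hN : N.Normal] (g : G) (x y : V) : g • ecl N x y = ecl N (g • x) (g • y) := by
  ext p
  rw [Set.mem_smul_set_iff_inv_smul_mem]
  constructor
  · rintro ⟨n, hn, h⟩
    refine ⟨g * n * g⁻¹, hN.conj_mem n hn g, ?_⟩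
    simpa [inv_smul_eq_iff, mul_smul] using h
  · rintro ⟨n, hn, h⟩
    refine ⟨g⁻¹ * n * g, hN.conj_mem' n hn g, ?_⟩
    simpa [inv_smul_eq_iff, mul_smul] using h

theorem ecl_smul {n : G} (hn : n ∈ N) (x y : V) : ecl N (n • x) (n • y) = ecl N x y := by
  ext p
  constructor
  · rintro ⟨m, hm, h⟩
    exact ⟨m * n, mul_mem hm hn, by simpa [mul_smul] using h⟩
  · rintro ⟨m, hm, h⟩
    exact ⟨m * n⁻¹, mul_mem hm (inv_mem hn), by simpa [mul_smul] using h⟩

open Classical in
/-- Crossing the edge of a given colour, if there is one. -/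
def cross (e : Set (V × V)) (u : V) : V := if h : ∃ v, (u, v) ∈ e then h.choose else u

theorem cross_eq {e : Set (V × V)} (he : ∀ u v v', (u, v) ∈ e → (u, v') ∈ e → v = v') {u v : V}
    (h : (u, v) ∈ e) : cross e u = v := by
  rw [cross, dif_pos ⟨v, h⟩]
  exact he u _ _ (Exists.choose_spec (⟨v, h⟩ : ∃ v, (u, v) ∈ e)) h

theorem cross_cross {e : Set (V × V)} (he : ∀ u v v', (u, v) ∈ e → (u, v') ∈ e → v = v')
    (hs : ∀ u v, (u, v) ∈ e → (v, u) ∈ e) (u : V) : cross e (cross e u) = u := by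
  by_cases h : ∃ v, (u, v) ∈ e
  · obtain ⟨v, h⟩ := h
    rw [cross_eq he h, cross_eq he (hs _ _ h)]
  · have : cross e u = u := dif_neg h
    rw [this, this]

theorem cross_smul {e : Set (V × V)} (g : G)
    (he : ∀ u v v', (u, v) ∈ e → (u, v') ∈ e → v = v')
    (he' : ∀ u v v', (u, v) ∈ g • e → (u, v') ∈ g • e → v = v') (u : V) :
    cross (g • e) (g • u) = g • cross e u := by
  by_cases h : ∃ v, (u, v) ∈ e
  · obtain ⟨v, h⟩ := h
    rw [cross_eq he h, cross_eq he' (Set.smul_mem_smul_set (a := g) h)]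
  · have h1 : cross e u = u := dif_neg h
    have h2 : cross (g • e) (g • u) = g • u := dif_neg fun ⟨v, hv⟩ => h ⟨g⁻¹ • v, by
      simpa [Set.mem_smul_set_iff_inv_smul_mem] using hv⟩
    rw [h1, h2]

end Colours

theorem tree_retract_aux (G V : Type) [Group G] [MulAction G V] (T : SimpleGraph V)
    (hT : T.IsTree) (hG : ∀ (g : G) x y, T.Adj x y → T.Adj (g • x) (g • y))
    (s : Set (V × V)) (hs : s.Finite) (hc : ∀ x y, T.Adj x y → ∃ g : G, (g • x, g • y) ∈ s)
    (N : Subgroup G) [N.FiniteIndex] [hN : N.Normal] (h1 : ∀ n ∈ N, ∀ x : V, n • x = x → n = 1)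
    (h2 : ∀ n ∈ N, ∀ x y, T.Adj x y → n • x ≠ y) :
    ∃ (Q E : Type) (_ : Group Q) (_ : Finite Q) (_ : Finite E) (_ : MulAction Q E)
      (H : Subgroup (Wr (Multiplicative (ZMod 2)) Q E)) (_ : H.FiniteIndex)
      (f : G →* H) (g : H →* G), ∀ x, g (f x) = x := by
  classical
  obtain ⟨v0⟩ := hT.connected.nonempty
  let E : SubMulAction G (Set (V × V)) :=
    { carrier := {e | ∃ x y, T.Adj x y ∧ e = ecl N x y}
      smul_mem' := by
        rintro g _ ⟨x, y, h, rfl⟩
        exact ⟨_, _, hG g x y h, smul_ecl N g x y⟩ }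
  have hfs : Finite s := hs
  have hout : ∀ g : G, ∃ n ∈ N, ∀ x : V, ((g⁻¹ : G) : G ⧸ N).out • g • x = n • x := fun g => by
    obtain ⟨n, hn⟩ := QuotientGroup.mk_out_eq_mul N g⁻¹
    exact ⟨g⁻¹ * n * g, hN.conj_mem' n n.2 g, fun x => by rw [hn, smul_smul]⟩
  have hE : Finite E := by
    refine (Set.finite_range fun p : (G ⧸ N) × s =>
      ecl N (p.1.out • p.2.1.1) (p.1.out • p.2.1.2)).subset ?_
    rintro _ ⟨x, y, h, rfl⟩
    obtain ⟨g, hg⟩ := hc x y h
    obtain ⟨n, hn, e⟩ := hout g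
    exact ⟨((g⁻¹ : G), ⟨_, hg⟩), by simp only [e, ecl_smul N hn]⟩
  have hfun : ∀ e : E, ∀ u v v', (u, v) ∈ e.1 → (u, v') ∈ e.1 → v = v' := by
    rintro ⟨_, x, y, h, rfl⟩ u v v' ⟨n, hn, a⟩ ⟨m, hm, b⟩
    have same : ∀ z : V, n • z = m • z → n = m := fun z e => by
      have := h1 (m⁻¹ * n) (mul_mem (inv_mem hm) hn) z (by rw [mul_smul, e, inv_smul_smul])
      exact (inv_mul_eq_one.1 this).symm
    have diff : ∀ z w : V, T.Adj z w → n • z ≠ m • w := fun z w hzw e =>
      h2 (m⁻¹ * n) (mul_mem (inv_mem hm) hn) z w hzw (by rw [mul_smul, e, inv_smul_smul])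
    rcases a with a | a <;> rcases b with b | b <;> simp only [Prod.mk.injEq] at a b
    · rw [a.2, b.2, same x (a.1.symm.trans b.1)]
    · exact absurd (a.1.symm.trans b.1) (diff x y h)
    · exact absurd (a.1.symm.trans b.1) (diff y x h.symm)
    · rw [a.2, b.2, same y (a.1.symm.trans b.1)]
  have hsym : ∀ e : E, ∀ u v, (u, v) ∈ e.1 → (v, u) ∈ e.1 := by
    rintro ⟨_, x, y, h, rfl⟩ u v ⟨n, hn, a⟩
    refine ⟨n, hn, ?_⟩
    simp only [Prod.mk.injEq] at a ⊢
    tauto
  let ψ : G ⧸ N →* Equiv.Perm E := QuotientGroup.lift N (MulAction.toPermHom G E) fun n hn => by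
    ext1 ⟨_, x, y, h, rfl⟩
    exact Subtype.ext ((smul_ecl N n x y).trans (ecl_smul N hn x y))
  let _ : MulAction (G ⧸ N) E := MulAction.compHom E ψ
  have hψ : ∀ (g : G) (e : E), (g : G ⧸ N) • e = g • e := fun _ _ => rfl
  let σ : E → Equiv.Perm V := fun e =>
    Function.Involutive.toPerm (cross e.1) (cross_cross (hfun e) (hsym e))
  have hσ : ∀ e, σ e * σ e = 1 := fun e => Equiv.ext (cross_cross (hfun e) (hsym e))
  let φ : Fp (Multiplicative (ZMod 2)) E →* Equiv.Perm V :=
    CoprodI.lift fun e => invHom (σ e) (hσ e)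
  have hφ : ∀ e, φ (Fp.of e (Multiplicative.ofAdd 1)) = σ e := fun e =>
    (CoprodI.lift_of _ _).trans (invHom_gen _ _)
  have equi : ∀ (g : G) w u, φ (wrAut _ (G ⧸ N) E g w) (g • u) = g • φ w u := fun g w => by
    induction w using CoprodI.induction_left with
    | one => simp
    | @mul e k w ih =>
      intro u
      rw [map_mul, map_mul, map_mul, Equiv.Perm.mul_apply, Equiv.Perm.mul_apply, ih]
      rcases two_cases k with rfl | rfl
      · simp
      · change φ (wrAut _ (G ⧸ N) E g (Fp.of e (Multiplicative.ofAdd 1))) _ =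
          g • φ (Fp.of e (Multiplicative.ofAdd 1)) _
        rw [wrAut_of, hφ, hφ]
        exact cross_smul g (hfun e) (hfun (g • e)) _
  have equiN : ∀ n ∈ N, ∀ w u, φ w (n • u) = n • φ w u := fun n hn w u => by
    have := equi n w u
    rwa [(QuotientGroup.eq_one_iff n).2 hn, map_one, MulAut.one_apply] at this
  let ω : V → V → Fp (Multiplicative (ZMod 2)) E := fun x y =>
    if h : T.Adj x y then Fp.of ⟨ecl N x y, x, y, h, rfl⟩ (Multiplicative.ofAdd 1) else 1
  have hω : ∀ x y (h : T.Adj x y),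
      ω x y = Fp.of ⟨ecl N x y, x, y, h, rfl⟩ (Multiplicative.ofAdd 1) := fun x y h => dif_pos h
  obtain ⟨om, om0, hom⟩ := exists_potential hT ω (fun x y h => by
    rw [hω x y h, hω y x h.symm]
    simp only [ecl_symm N y x]
    rw [← map_mul, show (Multiplicative.ofAdd 1 : Multiplicative (ZMod 2)) *
      Multiplicative.ofAdd 1 = 1 by decide, map_one]) v0
  have hback : ∀ x, φ (om x) x = v0 := conn_ind hT.connected _ v0 (by rw [om0, map_one]; rfl)
    fun x y h hx => by
      rw [hom x y h, map_mul, hω x y h, hφ, Equiv.Perm.mul_apply, ← hx]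
      congr 1
      exact cross_eq (hfun _) (hsym ⟨ecl N x y, x, y, h, rfl⟩ _ _ (mem_ecl N x y))
  have hcoc : ∀ (g : G) x, om (g • x) = om (g • v0) * wrAut _ (G ⧸ N) E g (om x) := fun g =>
    conn_ind hT.connected _ v0 (by rw [om0, map_one, mul_one]) fun x y h hx => by
      rw [hom _ _ (hG g x y h), hom x y h, hx, map_mul, mul_assoc, hω _ _ (hG g x y h), hω x y h,
        wrAut_of]
      exact congrArg (fun e : E => om (g • v0) * (wrAut _ (G ⧸ N) E g (om x) *
        Fp.of e (Multiplicative.ofAdd 1))) (Subtype.ext (smul_ecl N g x y).symm)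
  let H : Subgroup (Wr (Multiplicative (ZMod 2)) (G ⧸ N) E) :=
    { carrier := {γ | ∃ g : G, (g : G ⧸ N) = γ.right ∧ φ γ.left (g • v0) = v0}
      one_mem' := ⟨1, rfl, by simp⟩
      mul_mem' := by
        rintro γ δ ⟨g, a, b⟩ ⟨h, c, d⟩
        refine ⟨g * h, by rw [QuotientGroup.mk_mul, a, c]; rfl, ?_⟩
        rw [SemidirectProduct.mul_left, map_mul, Equiv.Perm.mul_apply, ← a, mul_smul, equi, d, b]
      inv_mem' := by
        rintro γ ⟨g, a, b⟩
        refine ⟨g⁻¹, by rw [QuotientGroup.mk_inv, a]; rfl, ?_⟩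
        rw [SemidirectProduct.inv_left, ← a, ← QuotientGroup.mk_inv, equi, map_inv,
          inv_smul_eq_iff, Equiv.Perm.inv_eq_iff_eq, b] }
  have uniq : ∀ γ : Wr (Multiplicative (ZMod 2)) (G ⧸ N) E, ∀ g h : G,
      ((g : G ⧸ N) = γ.right ∧ φ γ.left (g • v0) = v0) →
      ((h : G ⧸ N) = γ.right ∧ φ γ.left (h • v0) = v0) → g = h := fun γ g h a b => by
    have e : g • v0 = h • v0 := (φ γ.left).injective (a.2.trans b.2.symm)
    exact inv_mul_eq_one.1 (h1 _ (QuotientGroup.eq.1 (a.1.trans b.1.symm)) v0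
      (by rw [mul_smul, ← e, inv_smul_smul]))
  have hX : (Set.range fun x : V => MulAction.orbit N x).Finite := by
    refine ((Set.finite_range fun p : (G ⧸ N) × s =>
      MulAction.orbit N (p.1.out • p.2.1.1)).insert (MulAction.orbit N v0)).subset ?_
    rintro _ ⟨x, rfl⟩
    by_cases hx : x = v0
    · exact .inl (by rw [hx])
    · obtain ⟨p⟩ := hT.connected.preconnected x v0
      obtain ⟨y, h, -⟩ := SimpleGraph.Walk.exists_eq_cons_of_ne hx p
      obtain ⟨g, hg⟩ := hc x y h
      obtain ⟨n, hn, e⟩ := hout g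
      refine .inr ⟨((g⁻¹ : G), ⟨_, hg⟩), ?_⟩
      simp only [e]
      exact MulAction.orbit_smul (⟨n, hn⟩ : N) x
  have hH : H.FiniteIndex := by
    let μ : Wr (Multiplicative (ZMod 2)) (G ⧸ N) E ⧸ H → Set V := fun k =>
      MulAction.orbit N (φ k.out.left (k.out.right.out • v0))
    have inj : Function.Injective μ := fun k l e => by
      rw [← k.out_eq', ← l.out_eq', QuotientGroup.eq]
      obtain ⟨⟨n, hn⟩, e⟩ := MulAction.orbit_eq_iff.1 e
      replace e : n • φ l.out.left (l.out.right.out • v0) = φ k.out.left (k.out.right.out • v0) := e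
      refine ⟨(k.out.right.out)⁻¹ * n * l.out.right.out, ?_, ?_⟩
      · rw [QuotientGroup.mk_mul, QuotientGroup.mk_mul, (QuotientGroup.eq_one_iff n).2 hn,
          QuotientGroup.mk_inv, QuotientGroup.out_eq', QuotientGroup.out_eq', mul_one]
        rfl
      · have a : k.out.right⁻¹ = ((k.out.right.out⁻¹ : G) : G ⧸ N) := by
          rw [QuotientGroup.mk_inv, QuotientGroup.out_eq']
        rw [SemidirectProduct.mul_left, SemidirectProduct.inv_left, SemidirectProduct.inv_right,
          ← map_mul, a, mul_smul, mul_smul, equi, map_mul, Equiv.Perm.mul_apply, equiN n hn, e,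
          map_inv, ← Equiv.Perm.mul_apply, inv_mul_cancel, Equiv.Perm.one_apply, inv_smul_smul]
    have : Finite (Wr (Multiplicative (ZMod 2)) (G ⧸ N) E ⧸ H) :=
      (Set.finite_range_iff inj).1 (hX.subset (by rintro _ ⟨k, rfl⟩; exact ⟨_, rfl⟩))
    exact Subgroup.finiteIndex_of_finite_quotient
  let f : G →* H := MonoidHom.mk' (fun g => ⟨⟨om (g • v0), g⟩, g, rfl, hback _⟩) fun g h =>
    Subtype.ext (SemidirectProduct.ext ((congrArg om (mul_smul g h v0)).trans (hcoc g _)) rfl)
  choose ρ hρ using fun γ : H => γ.2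
  let r : H →* G := MonoidHom.mk' ρ fun γ δ => by
    refine uniq (γ * δ).1 _ _ (hρ (γ * δ)) ?_
    obtain ⟨a, b⟩ := hρ γ
    obtain ⟨c, d⟩ := hρ δ
    refine ⟨by rw [QuotientGroup.mk_mul, a, c]; rfl, ?_⟩
    rw [Subgroup.coe_mul, SemidirectProduct.mul_left, map_mul, Equiv.Perm.mul_apply, ← a, mul_smul,
      equi, d, b]
  exact ⟨G ⧸ N, E, inferInstance, inferInstance, hE, inferInstance, H, hH, f, r, fun g =>
    uniq (f g).1 _ _ (hρ (f g)) ⟨rfl, hback _⟩⟩

theorem tree_retract' (G V : Type) [Group G] [MulAction G V] (T : SimpleGraph V) (hT : T.IsTree)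
    (hG : ∀ (g : G) x y, T.Adj x y → T.Adj (g • x) (g • y))
    (s : Set (V × V)) (hs : s.Finite) (hc : ∀ x y, T.Adj x y → ∃ g : G, (g • x, g • y) ∈ s)
    (N : Subgroup G) [N.FiniteIndex] (h1 : ∀ n ∈ N, ∀ x : V, n • x = x → n = 1) :
    ∃ (Q E : Type) (_ : Group Q) (_ : Finite Q) (_ : Finite E) (_ : MulAction Q E)
      (H : Subgroup (Wr (Multiplicative (ZMod 2)) Q E)) (_ : H.FiniteIndex)
      (f : G →* H) (g : H →* G), ∀ x, g (f x) = x := by
  obtain ⟨v0⟩ := hT.connected.nonempty
  obtain ⟨τ, τ0, hτ⟩ := exists_potential hT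
    (fun _ _ => (Multiplicative.ofAdd 1 : Multiplicative (ZMod 2))) (fun _ _ _ => by decide) v0
  have hcoc : ∀ (g : G) x, τ (g • x) = τ (g • v0) * τ x := fun g =>
    conn_ind hT.connected _ v0 (by rw [τ0, mul_one]) fun x y h hx => by
      rw [hτ _ _ (hG g x y h), hτ x y h, hx, mul_assoc]
  let χ : G →* Multiplicative (ZMod 2) :=
    MonoidHom.mk' (fun g => τ (g • v0)) fun g h => by rw [mul_smul]; exact hcoc g _
  have : χ.ker.FiniteIndex := Subgroup.finiteIndex_ker χ
  refine tree_retract_aux G V T hT hG s hs hc (N.normalCore ⊓ χ.ker)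
    (fun n hn => h1 n (N.normalCore_le hn.1)) fun n hn x y h e => ?_
  have a := hcoc n x
  rw [e, hτ x y h, show τ (n • v0) = 1 from hn.2, one_mul, mul_eq_left] at a
  exact absurd a (by decide)

theorem tree_retract (G V : Type) [Group G] [MulAction G V] (T : SimpleGraph V) (hT : T.IsTree)
    (hG : ∀ (g : G) x y, T.Adj x y → T.Adj (g • x) (g • y))
    (s : Set (V × V)) (hs : s.Finite) (hc : ∀ x y, T.Adj x y → ∃ g : G, (g • x, g • y) ∈ s)
    (N : Subgroup G) [N.FiniteIndex] (h1 : ∀ n ∈ N, ∀ x : V, n • x = x → n = 1)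
    (_h2 : ∀ n ∈ N, ∀ x y, T.Adj x y → n • x = y → n • y ≠ x) :
    ∃ (Q E : Type) (_ : Group Q) (_ : Finite Q) (_ : Finite E) (_ : MulAction Q E)
      (H : Subgroup (Wr (Multiplicative (ZMod 2)) Q E)) (_ : H.FiniteIndex)
      (f : G →* H) (g : H →* G), ∀ x, g (f x) = x :=
  tree_retract' G V T hT hG s hs hc N h1

end Pool.Agent.Lib.MP_2add11_gt.IG
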