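import Pool.Agent.Lib.MP_2add11_gt.IG.Wr

/-!
Reduction of an invertible matrix over a free wreath product to a coloured unipotent shape.
-/

noncomputable section

namespace Pool.Agent.Lib.MP_2add11_gt.IG

open Matrix MonoidAlgebra Monoid FG

/-- Elements of the group ring supported on a set. -/
def Sp {G : Type} (s : Set G) : Submodule ℤ (MonoidAlgebra ℤ G) :=
  .span ℤ {x | ∃ g ∈ s, x = single g 1}

theorem Sp_single {G : Type} (s : Set G) (g : G) (h : g ∈ s) (a : ℤ) :
    MonoidAlgebra.single g a ∈ Sp s := by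
  have := (Sp s).smul_mem a (Submodule.subset_span ⟨g, h, rfl⟩)
  simpa using this

theorem Sp_coeff {G : Type} {s : Set G} {x : MonoidAlgebra ℤ G} (h : x ∈ Sp s) (g : G)
    (hg : x.coeff g ≠ 0) : g ∈ s := by
  classical
  by_contra hs
  refine hg ?_
  clear hg
  induction h using Submodule.span_induction with
  | mem x hx =>
    obtain ⟨k, hk, rfl⟩ := hx
    have : k ≠ g := fun e => hs (e ▸ hk)
    simp [this]
  | zero => simp
  | add a b _ _ p q => simp [p, q]
  | smul a b _ p => simp [p]

theorem Sp_mul {G : Type} [Group G] {s t u : Set G} (h : ∀ g ∈ s, ∀ k ∈ t, g * k ∈ u)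
    {x y : MonoidAlgebra ℤ G} (hx : x ∈ Sp s) (hy : y ∈ Sp t) : x * y ∈ Sp u := by
  have : Sp s * Sp t ≤ Sp u := by
    rw [Sp, Sp, Submodule.span_mul_span, Submodule.span_le]
    rintro _ ⟨_, ⟨g, hg, rfl⟩, _, ⟨k, hk, rfl⟩, rfl⟩
    exact Submodule.subset_span ⟨g * k, h g hg k hk, by simp [single_mul_single]⟩
  exact this (Submodule.mul_mem_mul hx hy)

variable {K Q E W : Type} [Group K] [Group Q] [MulAction Q E] [DecidableEq E] [Fintype E]
  [AddCommGroup W]

variable (K Q E) in
/-- The ring map that forgets the letters. -/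
abbrev epR : MonoidAlgebra ℤ (Wr K Q E) →+* MonoidAlgebra ℤ (Wr K Q E) :=
  mapDomainRingHom ℤ (epw K Q E)

omit [DecidableEq E] [Fintype E] in
theorem epR_single (g : Wr K Q E) (a : ℤ) :
    epR K Q E (single g a) = MonoidAlgebra.single (epw K Q E g) a := by
  simp

omit [DecidableEq E] [Fintype E] in
theorem epR_epR (x : MonoidAlgebra ℤ (Wr K Q E)) : epR K Q E (epR K Q E x) = epR K Q E x := by
  induction x using MonoidAlgebra.induction_linear with
  | zero => simp
  | add a b ha hb => rw [map_add, map_add, ha, hb]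
  | single g a =>
    rw [epR_single, epR_single]
    rfl

theorem Th_single (g : Wr K Q E) (a : ℤ) (e f : E) :
    Th K Q E (single g a) e f = if g.right⁻¹ • e = f then single (keep e g) a else 0 :=
  thHom_single _ _ g a e f

theorem Th0_single (g : Wr K Q E) (a : ℤ) (e f : E) : Th0 K Q E (single g a) e f =
    if g.right⁻¹ • e = f then MonoidAlgebra.single (epw K Q E g) a else 0 :=
  thHom_single _ _ g a e f

omit [Fintype E] in
theorem keep_one {g : Wr K Q E} (h : g.left = 1) (e : E) :
    keep e g = epw K Q E g := by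
  ext <;> simp [keep, h, epw]

theorem Th_epR (x : MonoidAlgebra ℤ (Wr K Q E)) :
    Th K Q E (epR K Q E x) = Th0 K Q E x ∧ Th0 K Q E (epR K Q E x) = Th0 K Q E x := by
  induction x using MonoidAlgebra.induction_linear with
  | zero => simp
  | add a b ha hb => simp only [map_add, ha.1, ha.2, hb.1, hb.2, and_self]
  | single g a =>
    constructor <;> ext1 e f
    · rw [epR_single, Th_single, Th0_single, keep_one rfl]
      rfl
    · rw [epR_single, Th0_single, Th0_single]
      rfl

/-- The part of an element that uses letters of the copy `e`. -/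
def pe (e : E) : MonoidAlgebra ℤ (Wr K Q E) →+ MonoidAlgebra ℤ (Wr K Q E) :=
  (∑ f : E, (entryAddMonoidHom _ e f).comp (Th K Q E).toAddMonoidHom) -
    (epR K Q E).toAddMonoidHom

theorem pe_single (e : E) (g : Wr K Q E) (a : ℤ) :
    pe e (single g a) = single (keep e g) a - MonoidAlgebra.single (epw K Q E g) a := by
  have := epR_single g a
  simp only [pe, AddMonoidHom.sub_apply, AddMonoidHom.finsetSum_apply, AddMonoidHom.comp_apply,
    RingHom.toAddMonoidHom_eq_coe, AddMonoidHom.coe_coe, entryAddMonoidHom_apply, Th_single,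
    Finset.sum_ite_eq, Finset.mem_univ, if_true, this]

variable (K Q E) in
/-- Elements with at most one letter. -/
def Lin : Set (Wr K Q E) := {g | g.left = 1 ∨ ∃ e k, g.left = Fp.of e k}

theorem sum_pe {x : MonoidAlgebra ℤ (Wr K Q E)} (h : x ∈ Sp (Lin K Q E)) :
    ∑ e, pe e x = x - epR K Q E x := by
  induction h using Submodule.span_induction with
  | mem x hx =>
    obtain ⟨g, hg | ⟨e, k, hg⟩, rfl⟩ := hx
    · have : g = epw K Q E g := by ext <;> simp [hg, epw]
      simp only [pe_single, keep_one hg, sub_self, Finset.sum_const_zero, epR_single, ← this]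
    · rw [Finset.sum_eq_single e, pe_single, epR_single]
      · congr 2
        ext
        · simp only [keep, hg]
          exact congrArg _ (retr_same (G := fun _ : E => K) e k)
        · rfl
      · intro f _ hf
        rw [pe_single, sub_eq_zero]
        congr 1
        ext
        · simp only [keep, hg]
          exact (congrArg _ (retr_ne (G := fun _ : E => K) hf.symm k)).trans (map_one _)
        · rfl
      · simp
  | zero => simp
  | add a b _ _ p q =>
    simp only [map_add, Finset.sum_add_distrib, p, q]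
    abel
  | smul a b _ p => simp only [map_zsmul, ← Finset.smul_sum, p, smul_sub]

/-- Elements with one letter of the copy `e` and a condition on the moved index. -/
def Cl (e : E) (P : E → Prop) : Set (Wr K Q E) :=
  {g | (∃ k, g.left = Fp.of e k) ∧ P (g.right⁻¹ • e)}

theorem Th_mem (x : MonoidAlgebra ℤ (Wr K Q E)) (e f : E) :
    Th K Q E x e f ∈ Sp (Cl e (· = f)) := by
  induction x using MonoidAlgebra.induction_linear with
  | zero => simp
  | add a b ha hb =>
    rw [map_add]
    exact add_mem ha hb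
  | single g a =>
    rw [Th_single]
    split_ifs with h
    exacts [Sp_single (Cl e (· = f)) (keep e g) ⟨⟨_, rfl⟩, h⟩ a, zero_mem _]

theorem rest_mem (x : MonoidAlgebra ℤ (Wr K Q E)) (e f : E) :
    pe e x - Th K Q E x e f + Th0 K Q E x e f ∈ Sp (Cl e (· ≠ f)) ∧
      epR K Q E (pe e x - Th K Q E x e f + Th0 K Q E x e f) = 0 := by
  induction x using MonoidAlgebra.induction_linear with
  | zero => simp
  | add a b ha hb =>
    have : pe e (a + b) - Th K Q E (a + b) e f + Th0 K Q E (a + b) e f =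
        (pe e a - Th K Q E a e f + Th0 K Q E a e f) +
          (pe e b - Th K Q E b e f + Th0 K Q E b e f) := by
      simp only [map_add, Matrix.add_apply]
      abel
    rw [this, map_add, ha.2, hb.2, add_zero]
    exact ⟨add_mem ha.1 hb.1, rfl⟩
  | single g a =>
    rw [pe_single, Th_single, Th0_single]
    split_ifs with h
    · simp
    · rw [sub_zero, add_zero, map_sub, epR_single, epR_single]
      exact ⟨sub_mem (Sp_single (Cl e (· ≠ f)) (keep e g) ⟨⟨_, rfl⟩, h⟩ a)
        (Sp_single (Cl e (· ≠ f)) (epw K Q E g) ⟨⟨1, (map_one _).symm⟩, h⟩ a), sub_self _⟩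

/-- The invariant whose values are shown to be torsion. -/
def dW (c : Inv (MonoidAlgebra ℤ (Wr K Q E)) W) : Inv (MonoidAlgebra ℤ (Wr K Q E)) W where
  c A := c.c A - (c.pull (epR K Q E)).c A - (c.comap (Th K Q E)).c A + (c.comap (Th0 K Q E)).c A
  mul hA hB := by
    rw [c.mul hA hB, (c.pull _).mul hA hB, (c.comap _).mul hA hB, (c.comap _).mul hA hB]
    abel
  sub e _ hA := by rw [c.sub e hA, (c.pull _).sub e hA, (c.comap _).sub e hA, (c.comap _).sub e hA]
  stab hA := by rw [c.stab hA, (c.pull _).stab hA, (c.comap _).stab hA, (c.comap _).stab hA]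

theorem dW_epR (c : Inv (MonoidAlgebra ℤ (Wr K Q E)) W) {n : Type}
    (A : Matrix n n (MonoidAlgebra ℤ (Wr K Q E))) : (dW c).c (A.map (epR K Q E)) = 0 := by
  have h1 : (A.map (epR K Q E)).map (epR K Q E) = A.map (epR K Q E) := by
    ext1 p q
    exact epR_epR _
  have h2 : (A.map (epR K Q E)).map (Th K Q E) = (A.map (epR K Q E)).map (Th0 K Q E) := by
    ext1 p q
    exact (Th_epR _).1.trans (Th_epR _).2.symm
  change c.c _ - c.c (Matrix.map _ _) - c.c (comp _ _ _ _ _ _) + c.c (comp _ _ _ _ _ _) = 0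
  rw [h1, h2]
  abel

omit [DecidableEq E] [Fintype E] in
theorem lin_gen (x : MonoidAlgebra ℤ (Wr K Q E)) :
    x ∈ Subring.closure (Sp (Lin K Q E) : Set (MonoidAlgebra ℤ (Wr K Q E))) := by
  induction x using MonoidAlgebra.induction_linear with
  | zero => exact zero_mem _
  | add a b ha hb => exact add_mem ha hb
  | single g a =>
    have h1 : ∀ w : Fp K E, single (SemidirectProduct.inl w : Wr K Q E) (1 : ℤ) ∈
        Subring.closure (Sp (Lin K Q E) : Set (MonoidAlgebra ℤ (Wr K Q E))) := fun w => by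
      induction w using CoprodI.induction_on with
      | one => exact Subring.subset_closure (Sp_single (Lin K Q E) _ (Or.inl rfl) 1)
      | of e k => exact Subring.subset_closure (Sp_single (Lin K Q E) _ (Or.inr ⟨e, k, rfl⟩) 1)
      | mul u v hu hv =>
        have := mul_mem hu hv
        rwa [single_mul_single, ← map_mul, mul_one] at this
    have := mul_mem (h1 g.left) (Subring.subset_closure
      (Sp_single (Lin K Q E) (SemidirectProduct.inr g.right) (Or.inl rfl) a))
    rwa [single_mul_single, SemidirectProduct.inl_left_mul_inr_right, one_mul] at this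

omit [DecidableEq E] [Fintype E] in
theorem lin_mul {x : MonoidAlgebra ℤ (Wr K Q E)} (h : x ∈ Sp (Lin K Q E))
    (y : MonoidAlgebra ℤ (Wr K Q E)) : x * epR K Q E y ∈ Sp (Lin K Q E) := by
  refine Sp_mul (t := {g | g.left = 1}) (fun g hg k hk => ?_) h ?_
  · have : (g * k).left = g.left := by
      rw [SemidirectProduct.mul_left, show k.left = 1 from hk, map_one, mul_one]
    simpa only [Lin, Set.mem_ofPred_eq, this] using hg
  · induction y using MonoidAlgebra.induction_linear with
    | zero => simp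
    | add a b ha hb =>
      rw [map_add]
      exact add_mem ha hb
    | single g a =>
      rw [epR_single]
      exact Sp_single {g : Wr K Q E | g.left = 1} (epw K Q E g) rfl a

theorem wr_tors_of (c : Inv (MonoidAlgebra ℤ (Wr K Q E)) W)
    (htw : ∀ (n : Type) [Fintype n] [DecidableEq n] (col : n → E)
      (N : Matrix n n (MonoidAlgebra ℤ (Wr K Q E))),
      (∀ p q g, (N p q).coeff g ≠ 0 →
        (∃ k, g.left = Fp.of (col p) k) ∧ g.right⁻¹ • col p ≠ col q) →
      (∀ p q, mapDomainRingHom ℤ (epw K Q E) (N p q) = 0) → IsUnit (1 - N) →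
      IsOfFinAddOrder (c.c (1 - N)))
    {n : Type} [Fintype n] [DecidableEq n] {A : Matrix n n (MonoidAlgebra ℤ (Wr K Q E))}
    (hA : IsUnit A) :
    IsOfFinAddOrder (c.c A - c.c (A.map (mapDomainRingHom ℤ (epw K Q E))) -
      (c.comap (Th K Q E)).c A + (c.comap (Th0 K Q E)).c A) := by
  refine linearize (dW c) (Sp (Lin K Q E)) (Sp_single (Lin K Q E) _ (Or.inl rfl) 1) IsOfFinAddOrder
    (fun m _ _ M hM hL => ?_) hA fun _ _ => lin_gen _
  obtain ⟨U, rfl⟩ := hM
  have hB : IsUnit (U⁻¹.val.map (epR K Q E)) := U⁻¹.isUnit.map (epR K Q E).mapMatrix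
  have h1 := (dW c).mul U.isUnit hB
  rw [dW_epR, add_zero] at h1
  rw [← h1]
  have h2 : ∀ p q, (U.val * U⁻¹.val.map (epR K Q E)) p q ∈ Sp (Lin K Q E) := fun p q =>
    sum_mem fun r _ => lin_mul (hL p r) _
  have h3 : (U.val * U⁻¹.val.map (epR K Q E)).map (epR K Q E) = 1 := by
    have : (U⁻¹.val.map (epR K Q E)).map (epR K Q E) = U⁻¹.val.map (epR K Q E) := by
      ext1 p q
      exact epR_epR _
    rw [Matrix.map_mul, this, ← Matrix.map_mul, U.mul_inv]
    exact map_one (epR K Q E).mapMatrix
  obtain ⟨V, hV⟩ := U.isUnit.mul hB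
  rw [← hV] at h2 h3 ⊢
  clear hV h1 hB hL U
  let H : Matrix (m × E) m (MonoidAlgebra ℤ (Wr K Q E)) := .of fun p r => pe p.2 (V.val p.1 r)
  let X : Matrix m (m × E) (MonoidAlgebra ℤ (Wr K Q E)) := .of fun r q => if r = q.1 then 1 else 0
  have e1 : 1 + X * H = V.val := by
    ext1 r s
    have := congrFun (congrFun h3 r) s
    rw [Matrix.map_apply] at this
    simp [X, H, Matrix.mul_apply, Fintype.sum_prod_type, sum_pe (h2 r s), ← this]
  let φ := (compRingEquiv m E (MonoidAlgebra ℤ (Wr K Q E))).toRingHom.comp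
    ((Th K Q E).mapMatrix (m := m))
  have e2 : comp _ _ _ _ _ (V.val.map (Th0 K Q E)) = 1 := by
    have : V.val.map (Th0 K Q E) = (V.val.map (epR K Q E)).map (Th0 K Q E) := by
      ext1 p q
      exact (Th_epR _).2.symm
    rw [this, h3]
    exact map_one ((compRingEquiv m E _).toRingHom.comp ((Th0 K Q E).mapMatrix (m := m)))
  let R : Matrix (m × E) (m × E) (MonoidAlgebra ℤ (Wr K Q E)) := .of fun p q =>
    pe p.2 (V.val p.1 q.1) - Th K Q E (V.val p.1 q.1) p.2 q.2 + Th0 K Q E (V.val p.1 q.1) p.2 q.2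
  have e3 : 1 + H * X = φ V.val * (1 - -(φ V⁻¹.val * R)) := by
    rw [sub_neg_eq_add, mul_add, mul_one, ← mul_assoc, ← map_mul, V.mul_inv, map_one, one_mul,
      ← e2]
    ext1 p q
    have : (H * X) p q = pe p.2 (V.val p.1 q.1) := by simp [X, H, Matrix.mul_apply]
    rw [Matrix.add_apply, this]
    change Th0 K Q E (V.val p.1 q.1) p.2 q.2 + _ = Th K Q E (V.val p.1 q.1) p.2 q.2 + R p q
    simp only [R, Matrix.of_apply]
    abel
  have hu : IsUnit (1 + X * H) := e1 ▸ V.isUnit
  have hφ : IsUnit (φ V.val) := V.isUnit.map φ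
  have h4 : IsUnit (1 - -(φ V⁻¹.val * R)) := hφ.mul_left_iff.1 (e3 ▸ isUnit_swap hu)
  have h5 := htw _ Prod.snd (-(φ V⁻¹.val * R)) (fun p q g hg => ?_) (fun p q => ?_) h4
  · have h6 := c.one_add_swap hu
    rw [e3, c.mul hφ h4, e1] at h6
    change IsOfFinAddOrder (c.c _ - c.c (Matrix.map _ _) - c.c (φ V.val) +
      c.c (comp _ _ _ _ _ _))
    rw [h3, e2, c.one, c.one, ← h6]
    simpa using h5
  · refine Sp_coeff (s := Cl p.2 (· ≠ q.2)) (neg_mem (sum_mem fun r _ => ?_)) g hg
    refine Sp_mul ?_ (Th_mem (V⁻¹.val p.1 r.1) p.2 r.2) (rest_mem (V.val r.1 q.1) r.2 q.2).1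
    rintro g ⟨⟨k, hk⟩, h⟩ g' ⟨⟨k', hk'⟩, h'⟩
    refine ⟨⟨k * k', ?_⟩, ?_⟩
    · rw [SemidirectProduct.mul_left, hk, hk', wrAut_of, ← show g.right⁻¹ • p.2 = r.2 from h,
        smul_inv_smul, map_mul]
    · rw [SemidirectProduct.mul_right, _root_.mul_inv_rev, mul_smul,
        show g.right⁻¹ • p.2 = r.2 from h]
      exact h'
  · rw [Matrix.neg_apply, map_neg, Matrix.mul_apply, map_sum, neg_eq_zero]
    refine Finset.sum_eq_zero fun r _ => ?_
    rw [map_mul]
    exact mul_eq_zero_of_right _ (rest_mem (V.val r.1 q.1) r.2 q.2).2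

end Pool.Agent.Lib.MP_2add11_gt.IG
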