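import Pool.Agent.Lib.MP_2add11_gt.IG.ProdNil

/-!
Free products of copies of one group, extended by a group that permutes the copies.
-/

noncomputable section

namespace Pool.Agent.Lib.MP_2add11_gt.IG

open Matrix MonoidAlgebra Monoid FG

variable (K Q E : Type) [Group K] [Group Q] [MulAction Q E]

/-- The free product of copies of `K` indexed by `E`. -/
abbrev Fp : Type := CoprodI fun _ : E => K

variable {K E} in
/-- The element `k` of the copy with index `e`. -/
def Fp.of (e : E) : K →* Fp K E := CoprodI.of (M := fun _ : E => K) (i := e)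

variable {Q} in
def wrHom (a : Q) : Fp K E →* Fp K E := CoprodI.lift fun e => Fp.of (a • e)

variable {K Q E} in
@[simp] theorem wrHom_of (a : Q) (e : E) (k : K) : wrHom K E a (Fp.of e k) = Fp.of (a • e) k :=
  CoprodI.lift_of _ _

/-- `Q` permutes the free factors. -/
def wrAut : Q →* MulAut (Fp K E) where
  toFun a := MonoidHom.toMulEquiv (wrHom K E a) (wrHom K E a⁻¹)
    (CoprodI.ext_hom _ _ fun e => MonoidHom.ext fun k => by
      change wrHom K E a⁻¹ (wrHom K E a (Fp.of e k)) = Fp.of e k
      simp)
    (CoprodI.ext_hom _ _ fun e => MonoidHom.ext fun k => by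
      change wrHom K E a (wrHom K E a⁻¹ (Fp.of e k)) = Fp.of e k
      simp)
  map_one' := MulEquiv.toMonoidHom_injective (CoprodI.ext_hom _ _ fun e => MonoidHom.ext fun k => by
    change wrHom K E 1 (Fp.of e k) = Fp.of e k
    simp)
  map_mul' a b := MulEquiv.toMonoidHom_injective (CoprodI.ext_hom _ _ fun e =>
    MonoidHom.ext fun k => by
      change wrHom K E (a * b) (Fp.of e k) = wrHom K E a (wrHom K E b (Fp.of e k))
      simp [mul_smul])

variable {K Q E} in
@[simp] theorem wrAut_of (a : Q) (e : E) (k : K) : wrAut K Q E a (Fp.of e k) = Fp.of (a • e) k :=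
  wrHom_of a e k

/-- The free wreath product. -/
abbrev Wr : Type := Fp K E ⋊[wrAut K Q E] Q

variable {K Q E} [DecidableEq E]

theorem retr_wrAut (a : Q) (e : E) (w : Fp K E) :
    retr (G := fun _ : E => K) (a • e) (wrAut K Q E a w) = retr (G := fun _ : E => K) e w := by
  have : (retr (G := fun _ : E => K) (a • e)).comp (wrAut K Q E a).toMonoidHom =
      retr (G := fun _ : E => K) e := CoprodI.ext_hom _ _ fun f => MonoidHom.ext fun k => by
    change retr (G := fun _ : E => K) (a • e) (wrAut K Q E a (Fp.of f k)) =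
      retr (G := fun _ : E => K) e (Fp.of f k)
    rw [wrAut_of]
    by_cases h : f = e
    · subst h
      exact (retr_same (G := fun _ : E => K) _ k).trans (retr_same (G := fun _ : E => K) _ k).symm
    · exact (retr_ne (G := fun _ : E => K) (fun h' => h (smul_left_cancel a h')) k).trans
        (retr_ne (G := fun _ : E => K) h k).symm
  exact DFunLike.congr_fun this w

/-- The element that keeps only the letters of the copy `e`. -/
def keep (e : E) (g : Wr K Q E) : Wr K Q E := ⟨Fp.of e (retr (G := fun _ : E => K) e g.left), g.right⟩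

theorem keep_mul (e : E) (g h : Wr K Q E) : keep e (g * h) = keep e g * keep (g.right⁻¹ • e) h := by
  ext
  · simp only [keep, SemidirectProduct.mul_left, map_mul, wrAut_of, smul_inv_smul]
    rw [← retr_wrAut g.right (g.right⁻¹ • e), smul_inv_smul]
  · rfl

def thM (u : E → Wr K Q E → Wr K Q E) (g : Wr K Q E) : Matrix E E (MonoidAlgebra ℤ (Wr K Q E)) :=
  .of fun e f => if g.right⁻¹ • e = f then .single (u e g) 1 else 0

variable [Fintype E]

def thHom (u : E → Wr K Q E → Wr K Q E) (h1 : ∀ e, u e 1 = 1)
    (h2 : ∀ e g h, u e (g * h) = u e g * u (g.right⁻¹ • e) h) :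
    MonoidAlgebra ℤ (Wr K Q E) →+* Matrix E E (MonoidAlgebra ℤ (Wr K Q E)) :=
  (MonoidAlgebra.lift ℤ _ (Wr K Q E)
    { toFun := thM u
      map_one' := by
        ext1 e f
        simp [thM, h1, Matrix.one_apply, MonoidAlgebra.one_def]
      map_mul' := fun g h => by
        ext1 e f
        simp only [thM, Matrix.mul_apply, Matrix.of_apply, ite_mul, zero_mul, Finset.sum_ite_eq,
          Finset.mem_univ, if_true, h2, SemidirectProduct.mul_right, _root_.mul_inv_rev, mul_smul]
        split_ifs <;> simp [single_mul_single] }).toRingHom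

theorem thHom_single {u : E → Wr K Q E → Wr K Q E} (h1 : ∀ e, u e 1 = 1)
    (h2 : ∀ e g h, u e (g * h) = u e g * u (g.right⁻¹ • e) h) (g : Wr K Q E) (a : ℤ) (e f : E) :
    thHom u h1 h2 (.single g a) e f = if g.right⁻¹ • e = f then .single (u e g) a else 0 := by
  simp [thHom, thM]

variable (K Q E)

/-- The representation that keeps, in row `e`, the letters of the copy `e`. -/
def Th : MonoidAlgebra ℤ (Wr K Q E) →+* Matrix E E (MonoidAlgebra ℤ (Wr K Q E)) :=
  thHom keep (fun e => by ext <;> simp [keep]) keep_mul

/-- The representation that forgets all letters. -/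
def Th0 : MonoidAlgebra ℤ (Wr K Q E) →+* Matrix E E (MonoidAlgebra ℤ (Wr K Q E)) :=
  thHom (fun _ g => SemidirectProduct.inr g.right) (fun _ => by simp) fun _ _ _ => by simp

/-- The projection onto `Q`, as an endomorphism. -/
def epw : Wr K Q E →* Wr K Q E := SemidirectProduct.inr.comp SemidirectProduct.rightHom

end Pool.Agent.Lib.MP_2add11_gt.IG
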