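import Pool.Agent.Lib.MP_2add11_gt.IG.AmalA
import Pool.Agent.Lib.MP_2add11_gt.IG.Wr

/-!
Twisted coloured matrices over the group ring of a free wreath product have classes of finite order.
-/

noncomputable section

namespace Pool.Agent.Lib.MP_2add11_gt.IG

open Matrix MonoidAlgebra Monoid FG Classical

/-- A group that is a split extension of `B` by a free product. -/
structure Spl (Γ B : Type) [Group Γ] [Group B] {K : Type} (G : K → Type) [∀ i, Group (G i)] where
  s : B →* Γ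
  j : CoprodI G →* Γ
  π : Γ →* B
  πs : ∀ b, π (s b) = b
  πj : ∀ w, π (j w) = 1
  inj : Function.Injective j
  surj : ∀ γ, ∃ b w, γ = s b * j w

namespace Spl

variable {Γ B K W n : Type} [Group Γ] [Group B] {G : K → Type} [∀ i, Group (G i)]
  [AddCommGroup W] [Fintype n] [DecidableEq n] (A : Spl Γ B G)

theorem uniq {b b' : B} {w w' : CoprodI G} (h : A.s b * A.j w = A.s b' * A.j w') :
    b = b' ∧ w = w' := by
  have := congrArg A.π h
  simp only [map_mul, A.πs, A.πj, mul_one] at this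
  subst this
  exact ⟨rfl, A.inj (mul_left_cancel h)⟩

def φ : MonoidAlgebra ℤ B →+* MonoidAlgebra ℤ Γ := mapDomainRingHom ℤ A.s

def ag : MonoidAlgebra ℤ Γ →+* MonoidAlgebra ℤ B := mapDomainRingHom ℤ A.π

def ε : MonoidAlgebra ℤ Γ →+* MonoidAlgebra ℤ Γ := mapDomainRingHom ℤ (A.s.comp A.π)

theorem ag_φ (r : MonoidAlgebra ℤ B) : A.ag (A.φ r) = r :=
  hom_ext3 (f := A.ag.comp A.φ) (g := RingHom.id _) (fun x a => by simp [ag, φ, A.πs]) r

theorem φ_ag (x : MonoidAlgebra ℤ Γ) : A.φ (A.ag x) = A.ε x :=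
  hom_ext3 (f := A.φ.comp A.ag) (fun x a => by simp [φ, ag, ε]) x

def cw (w : CoprodI G) : MonoidAlgebra ℤ Γ →+ MonoidAlgebra ℤ B where
  toFun x := .ofCoeff (x.coeff.comapDomain (fun b => A.s b * A.j w) fun _ _ _ _ h => (A.uniq h).1)
  map_zero' := by ext; simp
  map_add' x y := by ext; rfl

theorem cw_coeff (w : CoprodI G) (x : MonoidAlgebra ℤ Γ) (b : B) :
    (A.cw w x).coeff b = x.coeff (A.s b * A.j w) := rfl

theorem cw_φ (w : CoprodI G) (r : MonoidAlgebra ℤ B) (x : MonoidAlgebra ℤ Γ) :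
    A.cw w (A.φ r * x) = r * A.cw w x := by
  induction r using MonoidAlgebra.induction_linear with
  | zero => simp
  | add a b ha hb => rw [map_add, add_mul, map_add, ha, hb, add_mul]
  | single g a =>
    ext h
    simp [φ, cw_coeff, coeff_single_mul_apply, mul_assoc]

theorem cw_j (v w : CoprodI G) (x : MonoidAlgebra ℤ Γ) :
    A.cw v (x * single (A.j w) 1) = A.cw (v * w⁻¹) x := by
  ext h
  simp [cw_coeff, coeff_mul_single_apply, mul_assoc]

theorem cw_one (v : CoprodI G) : A.cw v 1 = if v = 1 then 1 else 0 := by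
  ext h
  have : 1 = A.s h * A.j v ↔ 1 = h ∧ 1 = v :=
    ⟨fun e => A.uniq (by simpa using e), by rintro ⟨rfl, rfl⟩; simp⟩
  rw [cw_coeff, MonoidAlgebra.one_def, coeff_single, Finsupp.single_apply, if_congr this rfl rfl]
  by_cases hj : v = 1
  · simp [MonoidAlgebra.one_def, Finsupp.single_apply, hj]
  · simp [hj, Ne.symm hj]

def co (w : CoprodI G) : Matrix n n (MonoidAlgebra ℤ Γ) →+ Matrix n n (MonoidAlgebra ℤ B) :=
  (A.cw w).mapMatrix

def sc (w : CoprodI G) : Matrix n n (MonoidAlgebra ℤ Γ) := scalar n (single (A.j w) 1)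

theorem co_φ (w : CoprodI G) (X : Matrix n n (MonoidAlgebra ℤ B))
    (Y : Matrix n n (MonoidAlgebra ℤ Γ)) : A.co w (A.φ.mapMatrix X * Y) = X * A.co w Y := by
  ext1 p q
  simp [co, Matrix.mul_apply, map_sum, cw_φ]

theorem co_sc (v w : CoprodI G) (Y : Matrix n n (MonoidAlgebra ℤ Γ)) :
    A.co v (Y * A.sc w) = A.co (v * w⁻¹) Y := by
  ext1 p q
  simp [co, sc, cw_j]

omit [Fintype n] in
theorem co_one (v : CoprodI G) :
    A.co v (1 : Matrix n n (MonoidAlgebra ℤ Γ)) = if v = 1 then 1 else 0 := by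
  ext1 p q
  by_cases hpq : p = q <;> split_ifs with hj <;> simp [co, hpq, cw_one, hj, Matrix.one_apply]

theorem co_term (v w : CoprodI G) (X : Matrix n n (MonoidAlgebra ℤ B)) :
    A.co v (A.φ.mapMatrix X * A.sc w) = if v = w then X else 0 := by
  rw [co_φ, ← one_mul (A.sc w), co_sc, co_one]
  simp [mul_inv_eq_one]

theorem expand (Y : Matrix n n (MonoidAlgebra ℤ Γ)) (T : Finset (CoprodI G))
    (h : ∀ w, w ∉ T → A.co w Y = 0) : Y = ∑ w ∈ T, A.φ.mapMatrix (A.co w Y) * A.sc w := by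
  ext p q γ
  obtain ⟨b, v, rfl⟩ := A.surj γ
  have : A.co v Y = A.co v (∑ w ∈ T, A.φ.mapMatrix (A.co w Y) * A.sc w) := by
    simp only [map_sum, co_term, Finset.sum_ite_eq]
    split_ifs with hv
    exacts [rfl, h v hv]
  exact congrArg (fun Z => (Z p q).coeff b) this

omit [DecidableEq n] in
theorem exists_supp (Y : Matrix n n (MonoidAlgebra ℤ Γ)) :
    ∃ T : Finset (CoprodI G), ∀ w, w ∉ T → A.co w Y = 0 := by
  choose β τ h using A.surj
  refine ⟨(Finset.univ.biUnion fun p : n × n => (Y p.1 p.2).coeff.support).image τ, fun w hw => ?_⟩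
  ext p q b
  by_contra h0
  exact hw (Finset.mem_image.2 ⟨_, Finset.mem_biUnion.2 ⟨(p, q), Finset.mem_univ _,
    Finsupp.mem_support_iff.2 h0⟩, (A.uniq (h _)).2.symm⟩)

theorem coloured [Finite B] (c : Inv (MonoidAlgebra ℤ Γ) W) (N : Matrix n n (MonoidAlgebra ℤ Γ))
    (ha : ∀ γ X, A.co γ (N * A.φ.mapMatrix X) ≠ 0 → ∃ (c : K) (g : G c), γ = CoprodI.of g)
    (hb : A.ag.mapMatrix N = 0)
    (hc : ∀ (c : K) (g x : G c), g ≠ 1 → x ≠ 1 → ∀ X, A.co (CoprodI.of g) (N * A.φ.mapMatrix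
      (A.co (CoprodI.of x) (N * A.φ.mapMatrix X))) = 0) (hu : IsUnit (1 - N)) :
    IsOfFinAddOrder (c.c (1 - N)) := by
  obtain ⟨U, hU⟩ := hu.exists_right_inv
  let ν : CoprodI G → Matrix n n (MonoidAlgebra ℤ B) →+ Matrix n n (MonoidAlgebra ℤ B) := fun γ =>
    (A.co γ).comp ((AddMonoidHom.mulLeft N).comp A.φ.mapMatrix.toAddMonoidHom)
  have hν : ∀ γ X, ν γ X = A.co γ (N * A.φ.mapMatrix X) := fun _ _ => rfl
  obtain ⟨S, hS⟩ := Module.Finite.fg_top (R := ℤ) (M := Matrix n n (MonoidAlgebra ℤ B))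
  choose T0 hT0 using fun X : Matrix n n (MonoidAlgebra ℤ B) => A.exists_supp (N * A.φ.mapMatrix X)
  let T := (S.biUnion T0).filter fun γ => γ ≠ 1 ∧ ν γ ≠ 0
  have hT' : ∀ γ, γ ≠ 1 → γ ∉ T → ν γ = 0 := fun γ h1 h2 => by
    by_contra h3
    refine h3 (AddMonoidHom.ext fun X => ?_)
    have hX : X ∈ Submodule.span ℤ (S : Set _) := hS ▸ Submodule.mem_top
    induction hX using Submodule.span_induction with
    | mem X hX =>
      exact hT0 X γ fun h => h2 (Finset.mem_filter.2 ⟨Finset.mem_biUnion.2 ⟨X, hX, h⟩, h1, h3⟩)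
    | zero => simp
    | add a b _ _ p q => rw [map_add, p, q]; simp
    | smul a b _ p => rw [map_zsmul, p]; simp
  have h1T : (1 : CoprodI G) ∉ T := fun h => (Finset.mem_filter.1 h).2.1 rfl
  have hout : ∀ γ, γ ∉ insert 1 T → ν γ = 0 := fun γ h =>
    hT' γ (fun e => h (e ▸ Finset.mem_insert_self _ _)) fun e => h (Finset.mem_insert_of_mem e)
  have hexp : ∀ X, N * A.φ.mapMatrix X = ∑ γ ∈ insert 1 T, A.φ.mapMatrix (ν γ X) * A.sc γ :=
    fun X => A.expand _ _ fun γ h => by rw [← hν, hout γ h]; rfl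
  have hsum : ∀ X, ν 1 X = -∑ γ ∈ T, ν γ X := fun X => by
    have := congrArg A.ag.mapMatrix (hexp X)
    rw [map_mul, hb, zero_mul, map_sum, Finset.sum_congr rfl (g := fun γ => ν γ X) fun γ _ => by
      ext1 p q
      simp [sc, ag_φ, show A.ag (single (A.j γ) 1) = 1 by simp [ag, A.πj, MonoidAlgebra.one_def]],
      Finset.sum_insert h1T] at this
    exact eq_neg_of_add_eq_zero_left this.symm
  have hmul : ∀ v Y, A.co v (N * Y) = ∑ γ ∈ insert 1 T, ν γ (A.co (γ⁻¹ * v) Y) := fun v Y => by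
    obtain ⟨T', h'⟩ := A.exists_supp Y
    rw [A.expand Y T' h']
    simp only [Finset.mul_sum, map_sum]
    rw [Finset.sum_comm]
    refine Finset.sum_congr rfl fun w _ => ?_
    rw [← mul_assoc, co_sc, ← hν, Finset.sum_eq_single (v * w⁻¹) (fun γ _ h => by
      rw [co_term, if_neg fun e => h (by rw [← e]; group), map_zero])
      fun h => by rw [hout _ h]; rfl, co_term, if_pos (by group)]
  obtain ⟨TU, hTU⟩ := A.exists_supp U
  have key := rec_nil (ν := ν) T hT' (fun γ hγ => by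
      obtain ⟨-, h1, h2⟩ := Finset.mem_filter.1 hγ
      by_contra h3
      refine h2 (AddMonoidHom.ext fun X => ?_)
      by_contra h4
      obtain ⟨c, g, rfl⟩ := ha γ X h4
      exact h3 ⟨_, g, fun e => h1 (by rw [e, map_one]), rfl⟩) hc
    (fun w => A.co w U) 1 (TU.sup len) (fun w hw => hTU w fun h => by
      have := Finset.le_sup (f := len) h
      omega)
    fun w => by
      have e : U = 1 + N * U := by rw [← hU, sub_mul, one_mul, sub_add_cancel]
      conv_lhs => rw [e, map_add, co_one, hmul, Finset.sum_insert h1T, hsum]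
      simp only [map_sub, Finset.sum_sub_distrib, inv_one, one_mul]
      abel
  have hN : ∀ j, ∀ X ∈ Vn ν (j + 1), -N * A.φ.mapMatrix X ∈ Rg A.φ (Vn ν j) := fun j X hX => by
    rw [neg_mul, hexp]
    refine neg_mem (sum_mem fun γ _ => Submodule.subset_span ⟨_, ?_, _, rfl⟩)
    by_cases h : γ = 1
    · rw [h, hsum]
      exact neg_mem (sum_mem fun γ hγ => mem_Vn.1 hX γ (Finset.mem_filter.1 hγ).2.1)
    · exact mem_Vn.1 hX γ h
  rw [sub_eq_add_neg]
  exact (chain_torsR A.φ c _ (Vn ν) rfl Vn_mono _ (by simpa using hN _ _ key) hN).2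

theorem term (N : Matrix n n (MonoidAlgebra ℤ Γ)) (X : Matrix n n (MonoidAlgebra ℤ B))
    {γ : CoprodI G} {p r : n} {b : B} (h : (A.co γ (N * A.φ.mapMatrix X) p r).coeff b ≠ 0) :
    ∃ q b', (X q r).coeff b' ≠ 0 ∧ (N p q).coeff (A.s b * A.j γ * (A.s b')⁻¹) ≠ 0 := by
  by_contra h0
  refine h ?_
  change ((N * A.φ.mapMatrix X) p r).coeff (A.s b * A.j γ) = 0
  rw [Matrix.mul_apply, coeff_sum, Finsupp.finsetSum_apply]
  refine Finset.sum_eq_zero fun q _ => ?_
  change (N p q * A.φ (X q r)).coeff _ = 0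
  rw [← sum_coeff_single (X q r), Finsupp.sum, map_sum, Finset.mul_sum, coeff_sum,
    Finsupp.finsetSum_apply]
  refine Finset.sum_eq_zero fun b' hb' => ?_
  have : (N p q).coeff (A.s b * A.j γ * (A.s b')⁻¹) = 0 := by
    by_contra h1
    exact h0 ⟨q, b', Finsupp.mem_support_iff.1 hb', h1⟩
  simp [φ, coeff_mul_single_apply, this]

end Spl

variable {K Q E W : Type} [Group K] [Group Q] [MulAction Q E] [AddCommGroup W]

variable (K Q E) in
def wrSpl : Spl (Wr K Q E) Q fun _ : E => K where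
  s := SemidirectProduct.inr
  j := SemidirectProduct.inl
  π := SemidirectProduct.rightHom
  πs _ := rfl
  πj _ := rfl
  inj := SemidirectProduct.inl_injective
  surj γ := ⟨γ.right, wrAut K Q E γ.right⁻¹ γ.left, by ext <;> simp⟩

theorem tw_tors [DecidableEq E] [Fintype E] [Finite Q] (c : Inv (MonoidAlgebra ℤ (Wr K Q E)) W)
    {n : Type} [Fintype n] [DecidableEq n] (col : n → E)
    (N : Matrix n n (MonoidAlgebra ℤ (Wr K Q E)))
    (ha : ∀ p q g, (N p q).coeff g ≠ 0 →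
      (∃ k, g.left = Fp.of (col p) k) ∧ g.right⁻¹ • col p ≠ col q)
    (hb : ∀ p q, mapDomainRingHom ℤ (epw K Q E) (N p q) = 0) (hu : IsUnit (1 - N)) :
    IsOfFinAddOrder (c.c (1 - N)) := by
  let A := wrSpl K Q E
  have key : ∀ γ X p r b, (A.co γ (N * A.φ.mapMatrix X) p r).coeff b ≠ 0 →
      (∃ k, γ = Fp.of (b⁻¹ • col p) k) ∧
        ∃ q b', (X q r).coeff b' ≠ 0 ∧ b⁻¹ • col p ≠ b'⁻¹ • col q := fun γ X p r b h => by
    obtain ⟨q, b', h1, h2⟩ := A.term N X h
    obtain ⟨⟨k, h3⟩, h4⟩ := ha _ _ _ h2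
    refine ⟨⟨k, ?_⟩, q, b', h1, fun e => h4 ?_⟩
    · rw [← wrAut_of, ← h3]
      simp [A, wrSpl]
    · simp [A, wrSpl, mul_smul, e]
  refine A.coloured c N (fun γ X h => ?_) ?_ (fun e g x hg hx X => ?_) hu
  · by_contra h0
    refine h ?_
    ext p r b
    by_contra h1
    obtain ⟨k, h2⟩ := (key γ X p r b h1).1
    exact h0 ⟨_, k, h2⟩
  · ext1 p q
    change A.ag (N p q) = 0
    rw [← A.ag_φ (A.ag _), A.φ_ag, show A.ε (N p q) = 0 from hb p q, map_zero]
  · ext p r b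
    by_contra h1
    obtain ⟨⟨k, h2⟩, q, b', h3, h4⟩ := key _ _ p r b h1
    obtain ⟨k', h5⟩ := (key _ _ q r b' h3).1
    exact h4 ((col_unique (G := fun _ : E => K) hg h2).symm.trans
      (col_unique (G := fun _ : E => K) hx h5))

end Pool.Agent.Lib.MP_2add11_gt.IG
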