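import Pool.Agent.Lib.MP_2add11_gt.IG.WrCoc
import Pool.Agent.Lib.MP_2add11_gt.IG.WrLin
import Pool.Agent.Lib.MP_2add11_gt.IG.WrTw

/-!
Free wreath products over finite groups: the algebraic model is closed under inverses.
-/

noncomputable section

namespace Pool.Agent.Lib.MP_2add11_gt.IG

open Matrix MonoidAlgebra Monoid FG

variable {K Q E W : Type} [Group K] [Group Q] [MulAction Q E] [DecidableEq E] [Fintype E]
  [AddCommGroup W]

theorem wr_tors [Finite Q] (c : Inv (MonoidAlgebra ℤ (Wr K Q E)) W) {n : Type} [Fintype n]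
    [DecidableEq n] {A : Matrix n n (MonoidAlgebra ℤ (Wr K Q E))} (hA : IsUnit A) :
    IsOfFinAddOrder (c.c A - c.c (A.map (mapDomainRingHom ℤ (epw K Q E))) -
      (c.comap (Th K Q E)).c A + (c.comap (Th0 K Q E)).c A) :=
  wr_tors_of c (fun _ _ _ col N => tw_tors c col N) hA

theorem NegCl.wr [Finite Q] (h : NegCl (K × Q)) : NegCl (Wr K Q E) := by
  rintro W _ c _ ⟨ι, _, _, r, h1, h2, rfl⟩
  obtain ⟨k, hk, e⟩ := isOfFinAddOrder_iff_nsmul_eq_zero.1 (wr_tors c h2)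
  have a1 : -c.c ((jac r).map (mapDomainRingHom ℤ (epw K Q E))) ∈ Alg c :=
    ((NegCl.finite Q).via c SemidirectProduct.rightHom SemidirectProduct.inr h1 h2).2
  have a2 := (Alg c).nsmul_mem (add_mem (add_mem a1 (th_neg h c h1 h2)) (th0_mem c h1 h2)) k
  refine neg_mem_of hk ⟨ι, _, _, r, h1, h2, rfl⟩ ?_
  convert a2 using 1
  rw [← sub_eq_zero, ← neg_eq_zero, ← e, ← neg_nsmul, ← nsmul_sub, ← neg_nsmul]
  congr 1
  abel

end Pool.Agent.Lib.MP_2add11_gt.IG
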