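import Pool.Agent.Lib.MP_2add11_gt.IG.Amal
import Pool.Agent.Lib.MP_2add11_gt.IG.ArtNil
import Pool.Agent.Lib.MP_2add11_gt.IG.NilAb
import Pool.Agent.Lib.MP_2add11_gt.IG.Real
import Pool.Agent.Lib.MP_2add11_gt.IG.Conv
import Pool.Agent.Lib.MP_2add11_gt.IG.WrNeg
import Pool.Agent.Lib.MP_2add11_gt.IG.Tree
import Pool.Agent.Lib.MP_2add11_gt.IG.Stab
import Pool.Agent.Lib.MP_2add11_gt.IG.FamFree

/-!
The property `NegCl (F × G)` for all finite `F` and its closure properties.
-/

noncomputable section

namespace Pool.Agent.Lib.MP_2add11_gt.IG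

open Monoid FG

/-- `NegCl` for all products with a finite group. -/
def NegF (G : Type) [Group G] : Prop := ∀ (F : Type) [Group F] [Finite F], NegCl (F × G)

theorem NegF.negCl {G : Type} [Group G] (h : NegF G) : NegCl G :=
  (h Unit).retract (MonoidHom.inr _ _) (MonoidHom.snd _ _) fun _ => rfl

theorem NegF.retract {G C : Type} [Group G] [Group C] (hC : NegF C) (f : G →* C) (g : C →* G)
    (h : ∀ x, g (f x) = x) : NegF G := fun F _ _ =>
  (hC F).retract ((MonoidHom.id F).prodMap f) ((MonoidHom.id F).prodMap g) fun x =>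
    Prod.ext rfl (h x.2)

theorem NegF.prod {G : Type} [Group G] (h : NegF G) (F : Type) [Group F] [Finite F] :
    NegF (F × G) := fun F' _ _ => (h (F' × F)).equiv MulEquiv.prodAssoc.symm

theorem NegF.abelian (A : Type) [CommGroup A] [Group.FG A] : NegF A :=
  _root_.IG.fg_induction (fun G _ => NegF G) (fun _ _ _ _ _ _ => NegCl.finite _)
    (fun H _ _ h F _ _ => ((h F).prodInt' ((NilTors.prod_comm (F := F)
      (A := H × Multiplicative ℤ) fun _ _ _ _ => nilTors_of_fg _).equiv
        MulEquiv.prodAssoc)).equiv MulEquiv.prodAssoc.symm)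
    (fun _ _ _ _ e h => h.retract e.toMonoidHom e.symm.toMonoidHom e.symm_apply_apply) A

theorem NegF.sub {G H : Type} [Group G] [Group H] (h : NegF G) (i : H →* G)
    (hi : Function.Injective i) [i.range.FiniteIndex] : NegF H := fun F _ _ => by
  have : ((MonoidHom.id F).prodMap i).range.FiniteIndex := by
    rw [MonoidHom.range_prodMap]
    exact ⟨by simp [Subgroup.index_prod, Subgroup.FiniteIndex.index_ne_zero]⟩
  exact (h F).of_finiteIndex ((MonoidHom.id F).prodMap i) (Function.injective_id.prodMap hi)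

theorem NegF.pushoutI {K B : Type} {G : K → Type} [Finite K] [Group B] [Finite B]
    [∀ i, Group (G i)] (φ : ∀ i, B →* G i) (ρ : ∀ i, G i →* B) (h : ∀ i b, ρ i (φ i b) = b)
    (hG : ∀ i, NegF (G i)) : NegF (PushoutI φ) := fun F _ _ => by
  let ψ : ∀ i, F × B →* F × G i := fun i => (MonoidHom.id F).prodMap (φ i)
  let u : PushoutI φ →* PushoutI ψ :=
    PushoutI.lift (fun i => (PushoutI.of i).comp (MonoidHom.inr _ _))
      ((PushoutI.base ψ).comp (MonoidHom.inr _ _)) fun i => by
        ext b
        exact PushoutI.of_apply_eq_base ψ i (1, b)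
  have hu : ∀ (a : F) (y : PushoutI φ),
      Commute (((PushoutI.base ψ).comp (MonoidHom.inl _ _)) a) (u y) := fun a y => by
    induction y using PushoutI.induction_on with
    | of i g =>
      simp only [u, PushoutI.lift_of, MonoidHom.comp_apply, ← PushoutI.of_apply_eq_base ψ i]
      exact Commute.map (by simp [ψ, Commute, SemiconjBy]) _
    | base b =>
      simp only [u, PushoutI.lift_base, MonoidHom.comp_apply]
      exact Commute.map (by simp [Commute, SemiconjBy]) _
    | mul x y p q => rw [map_mul]; exact p.mul_right q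
  let v : PushoutI ψ →* F × PushoutI φ :=
    PushoutI.lift (fun i => (MonoidHom.id F).prodMap (PushoutI.of i))
      ((MonoidHom.id F).prodMap (PushoutI.base φ)) fun i => by
        ext b <;> simp [ψ, PushoutI.of_apply_eq_base]
  refine (NegCl.pushoutI ψ (fun i => (MonoidHom.id F).prodMap (ρ i)) (fun i b => Prod.ext rfl (h i b.2))
    fun i => hG i F).retract (MonoidHom.noncommCoprod _ u hu) v fun x => ?_
  have : ∀ y, v (u y) = (1, y) := fun y => by
    induction y using PushoutI.induction_on with
    | of i g => simp [u, v]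
    | base b => simp [u, v]
    | mul x y p q => rw [map_mul, map_mul, p, q, Prod.mk_mul_mk, one_mul]
  rw [MonoidHom.noncommCoprod_apply, map_mul, this]
  simp [v]

theorem NegF.wr {K Q E : Type} [Group K] [Group Q] [MulAction Q E] [Finite Q] [Finite E]
    (h : NegF K) : NegF (Wr K Q E) := fun F _ _ => by
  classical
  have := Fintype.ofFinite E
  let _ : MulAction (F × Q) E := MulAction.compHom E (MonoidHom.snd F Q)
  exact (NegCl.wr (E := E) ((h (F × Q)).equiv MulEquiv.prodComm)).retract
    { toFun := fun x => ⟨x.2.left, (x.1, x.2.right)⟩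
      map_one' := rfl
      map_mul' := fun _ _ => rfl }
    { toFun := fun x => (x.right.1, ⟨x.left, x.right.2⟩)
      map_one' := rfl
      map_mul' := fun _ _ => rfl } fun _ => rfl

theorem NegF.finite (G : Type) [Group G] [Finite G] : NegF G := fun _ _ _ => NegCl.finite _

theorem NegF.tree (G V : Type) [Group G] [MulAction G V] (T : SimpleGraph V) (hT : T.IsTree)
    (hG : ∀ (g : G) x y, T.Adj x y → T.Adj (g • x) (g • y))
    (s : Set (V × V)) (hs : s.Finite) (hc : ∀ x y, T.Adj x y → ∃ g : G, (g • x, g • y) ∈ s)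
    (N : Subgroup G) [N.FiniteIndex] (h1 : ∀ n ∈ N, ∀ x : V, n • x = x → n = 1) : NegF G := by
  obtain ⟨Q, E, _, _, _, _, H, _, f, g, hfg⟩ := tree_retract' G V T hT hG s hs hc N h1
  have : H.subtype.range.FiniteIndex := by rwa [Subgroup.range_subtype]
  exact (((NegF.finite (Multiplicative (ZMod 2))).wr (Q := Q) (E := E)).sub H.subtype
    H.subtype_injective).retract f g hfg

theorem NegF.tree_fin (G V : Type) [Group G] [MulAction G V] (T : SimpleGraph V) (hT : T.IsTree)
    (hG : ∀ (g : G) x y, T.Adj x y → T.Adj (g • x) (g • y))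
    (s : Set (V × V)) (hs : s.Finite) (hc : ∀ x y, T.Adj x y → ∃ g : G, (g • x, g • y) ∈ s)
    (hf : ∀ x : V, Finite (MulAction.stabilizer G x)) : NegF G := by
  obtain ⟨N, _, h1, -⟩ := tree_free G V T hT hG s hs hc hf
  exact NegF.tree G V T hT hG s hs hc N h1

theorem NegClS.negF {G : Type} [Group G] (h : NegClS G) : NegF G := fun F _ _ =>
  (h.prod_fin F).negCl.equiv MulEquiv.prodComm

theorem NegCl.whStar {G : Type} [Group G] [Group.IsFinitelyPresented G] (h : NegCl G) :
    ∃ H : AddSubgroup (Wh G), (H : Set (Wh G)) = WhStar G := by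
  refine ⟨{ toAddSubmonoid := Alg (whInv G), neg_mem' := h _ _ _ }, Set.ext fun x =>
    ⟨fun e => ?_, fun e => ?_⟩⟩
  · have := mem_whStarI (h _ _ _ e)
    rwa [neg_neg] at this
  · have := h _ _ _ (neg_mem_alg e)
    rwa [neg_neg] at this

end Pool.Agent.Lib.MP_2add11_gt.IG
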