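import Pool.Agent.Lib.MP_2add11_gt.IG.FamCP

/-!
The chain property of a group whose rational group ring is coherent and regular.
-/

noncomputable section

namespace Pool.Agent.Lib.MP_2add11_gt.IG

open Function Matrix LinearMap

namespace Fam

/-- Kernels of maps between finite free modules are finitely generated. -/
def Coh (R : Type) [Ring R] : Prop :=
  ∀ (a : ℕ) (n : Type) [Fintype n] (g : (Fin a → R) →ₗ[R] (n → R)), (LinearMap.ker g).FG

variable {R S L W n : Type} [Ring R] [Ring S] [Ring L] [AddCommGroup W] [Fintype n]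

theorem fr_span' (hC : Coh R) (ψ : R →+* L) (h : Fl ψ) (e : ℕ) :
    ∀ (n : Type) [Fintype n] (K : Submodule R (n → R)), K.FG → PD R K e →
      FR L e (Submodule.span L ((fun y => ψ ∘ y) '' (K : Set (n → R)))) := by
  have key : ∀ (n : Type) [Fintype n] (K : Submodule R (n → R)), K.FG →
      ∃ (a : ℕ) (g : (Fin a → R) →ₗ[R] K) (G : Matrix (Fin a) n R)
        (γ : (Fin a → L) →ₗ[L] Submodule.span L ((fun y => ψ ∘ y) '' (K : Set (n → R)))), Surjective g ∧
        (∀ y, y ᵥ* G = (g y).1) ∧ (∀ x, (γ x).1 = x ᵥ* G.map ψ) ∧ Surjective γ ∧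
        LinearMap.ker γ = Submodule.span L ((fun y => ψ ∘ y) '' (LinearMap.ker g : Set (Fin a → R))) := by
    intro n _ K hf
    have := Module.Finite.iff_fg.2 hf
    obtain ⟨a, g, hg⟩ := Module.Finite.exists_fin' R K
    let G := toMatrixRight' (K.subtype ∘ₗ g)
    have hG : ∀ y, y ᵥ* G = (g y).1 := fun y =>
      LinearMap.congr_fun (toMatrixRight'.symm_apply_apply (K.subtype ∘ₗ g)) y
    have hr : LinearMap.range (G.map ψ).vecMulLinear =
        Submodule.span L ((fun y => ψ ∘ y) '' (K : Set (n → R))) := by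
      refine le_antisymm ?_ (Submodule.span_le.2 ?_)
      · rw [range_vecMulLinear, Submodule.span_le]
        rintro _ ⟨i, rfl⟩
        exact Submodule.subset_span ⟨_, (g (Pi.single i 1)).2, rfl⟩
      · rintro _ ⟨y, hy, rfl⟩
        obtain ⟨x, hx⟩ := hg ⟨y, hy⟩
        exact ⟨ψ ∘ x, by rw [vecMulLinear_apply, map_vm, hG, hx]⟩
    refine ⟨a, g, G, (G.map ψ).vecMulLinear.codRestrict _ fun x => hr ▸ ⟨x, rfl⟩, hg, hG,
      fun _ => rfl, fun y => ?_, ?_⟩
    · obtain ⟨x, hx⟩ := hr.ge y.2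
      exact ⟨x, Subtype.ext hx⟩
    · rw [ker_codRestrict]
      refine le_antisymm (fun x hx => Submodule.span_mono (Set.image_mono fun y hy => ?_)
        (h _ _ G x hx)) (Submodule.span_le.2 ?_)
      · exact Subtype.ext ((hG y).symm.trans hy)
      · rintro _ ⟨y, hy, rfl⟩
        change (ψ ∘ y) ᵥ* G.map ψ = 0
        rw [map_vm, hG, show g y = 0 from hy]
        ext i
        simp
  induction e with
  | zero =>
    intro n _ K hf hK
    obtain ⟨a, g, G, γ, hg, hG, hγ, h1, h2⟩ := key n K hf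
    have := pd_zero.1 hK
    obtain ⟨s, hs⟩ := Module.projective_lifting_property g LinearMap.id hg
    have hs' : ∀ x, g (s x) = x := LinearMap.congr_fun hs
    let D := toMatrixRight' (s ∘ₗ g)
    have hD : ∀ y, y ᵥ* D = s (g y) := fun y =>
      LinearMap.congr_fun (toMatrixRight'.symm_apply_apply (s ∘ₗ g)) y
    have e1 : D * G = G := by
      ext p q
      have := congrFun ((vecMul_vecMul (Pi.single p 1) D G).symm.trans (by
        rw [hD, hG, hs', ← hG])) q
      simpa using this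
    have e2 : LinearMap.ker γ ≤ LinearMap.ker (D.map ψ).vecMulLinear := by
      rw [h2, Submodule.span_le]
      rintro _ ⟨y, hy, rfl⟩
      change (ψ ∘ y) ᵥ* D.map ψ = 0
      rw [map_vm, hD, show g y = 0 from hy, map_zero]
      ext i
      simp
    refine ⟨.of_surjective γ h1, .of_split ((LinearMap.ker γ).liftQ _ e2 ∘ₗ
      (γ.quotKerEquivOfSurjective h1).symm.toLinearMap) γ (LinearMap.ext fun y => ?_)⟩
    obtain ⟨x, rfl⟩ := h1 y
    refine Subtype.ext ?_
    simp only [LinearMap.comp_apply, LinearEquiv.coe_coe, quotKerEquivOfSurjective_symm_apply,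
      Submodule.liftQ_apply, hγ, vecMulLinear_apply, vecMul_vecMul, ← Matrix.map_mul, e1,
      LinearMap.id_apply]
  | succ e ih =>
    intro n _ K hf hK
    obtain ⟨a, g, G, γ, hg, -, -, h1, h2⟩ := key n K hf
    refine ⟨_, inferInstance, inferInstance, γ, inferInstance, inferInstance, h1, ?_⟩
    rw [h2]
    exact ih _ _ (by simpa [ker_comp] using hC a n (K.subtype ∘ₗ g)) (PD.ker hg (PD.of_proj e) hK)

theorem row_chain' [DecidableEq n] (hC : Coh R) {e : ℕ}
    (hR : ∀ K : Submodule R (n → R), K.FG → PD R K e) (ψ : R →+* L) (hψ : Fl ψ)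
    (c : FG.Inv S W) (f : S →+* L) (hf : Injective f)
    (hd : ∀ x : L, ∃ d : ℕ, 0 < d ∧ ∃ y, f y = d • x) (m : ℕ) (K : ℕ → Set (n → R))
    (h0 : ∀ y ∈ K 0, y = 0) (Z : Matrix n n S)
    (h1 : ∀ x, x ᵥ* Z.map f ∈ Submodule.span L ((fun y => ψ ∘ y) '' K m))
    (h2 : ∀ j, ∀ y ∈ K (j + 1), (ψ ∘ y) ᵥ* Z.map f ∈ Submodule.span L ((fun y => ψ ∘ y) '' K j)) :
    IsOfFinAddOrder (c.c (1 + Z)) := by
  let Sp : Set (n → R) → Submodule L (n → L) := fun t => Submodule.span L ((fun y => ψ ∘ y) '' t)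
  have mono : ∀ {t t'}, t ⊆ t' → Sp t ≤ Sp t' := fun h => Submodule.span_mono (Set.image_mono h)
  have fA : ∀ t, ∀ x ∈ Sp t, ∃ t', t'.Finite ∧ t' ⊆ t ∧ x ∈ Sp t' := fun t x hx => by
    induction hx using Submodule.span_induction with
    | mem x hx =>
      obtain ⟨y, hy, rfl⟩ := hx
      exact ⟨{y}, Set.finite_singleton y, by simpa using hy, Submodule.subset_span ⟨y, rfl, rfl⟩⟩
    | zero => exact ⟨∅, Set.finite_empty, Set.empty_subset _, zero_mem _⟩
    | add a b _ _ p q =>
      obtain ⟨u, a1, a2, a3⟩ := p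
      obtain ⟨v, b1, b2, b3⟩ := q
      exact ⟨u ∪ v, a1.union b1, Set.union_subset a2 b2,
        add_mem (mono Set.subset_union_left a3) (mono Set.subset_union_right b3)⟩
    | smul r a _ p =>
      obtain ⟨u, a1, a2, a3⟩ := p
      exact ⟨u, a1, a2, Submodule.smul_mem _ _ a3⟩
  have fB : ∀ {I : Type} [Finite I] (x : I → n → L) (t), (∀ i, x i ∈ Sp t) →
      ∃ t', t'.Finite ∧ t' ⊆ t ∧ ∀ i, x i ∈ Sp t' := fun x t hx => by
    choose u a1 a2 a3 using fun i => fA t _ (hx i)
    exact ⟨⋃ i, u i, Set.finite_iUnion a1, Set.iUnion_subset a2,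
      fun i => mono (Set.subset_iUnion u i) (a3 i)⟩
  have fC : ∀ (k : ℕ) (t : Set (n → R)), t.Finite → t ⊆ K k → ∃ K' : ℕ → Set (n → R),
      (∀ j, (K' j).Finite) ∧ (∀ y ∈ K' 0, y = 0) ∧ Monotone K' ∧ t ⊆ K' k ∧
        ∀ j, ∀ y ∈ K' (j + 1), (ψ ∘ y) ᵥ* Z.map f ∈ Sp (K' j) := fun k => by
    induction k with
    | zero =>
      refine fun t a1 a2 => ⟨fun _ => t, fun _ => a1, fun y hy => h0 y (a2 hy), monotone_const,
        subset_rfl, fun j y hy => ?_⟩
      rw [h0 y (a2 hy), show (ψ ∘ (0 : n → R)) = 0 by ext; simp, zero_vecMul]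
      exact zero_mem _
    | succ k ih =>
      intro t a1 a2
      have := a1.to_subtype
      obtain ⟨t', b1, b2, b3⟩ := fB (fun y : t => (ψ ∘ y.1) ᵥ* Z.map f) (K k)
        fun y => h2 k _ (a2 y.2)
      obtain ⟨K', c1, c2, c3, c4, c5⟩ := ih t' b1 b2
      refine ⟨fun j => K' j ∪ {y ∈ t | k < j}, fun j => (c1 j).union (a1.subset fun _ h => h.1),
        ?_, fun i j hij => Set.union_subset_union (c3 hij) fun _ h => ⟨h.1, h.2.trans_le hij⟩,
        fun y hy => .inr ⟨hy, k.lt_succ_self⟩, ?_⟩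
      · rintro y (hy | hy)
        exacts [c2 y hy, absurd hy.2 (Nat.not_lt_zero k)]
      · rintro j y (hy | hy)
        · exact mono Set.subset_union_left (c5 j y hy)
        · exact mono ((c4.trans (c3 (Nat.lt_succ_iff.1 hy.2))).trans Set.subset_union_left)
            (b3 ⟨y, hy.1⟩)
  obtain ⟨t, a1, a2, a3⟩ := fB (fun p : n => (Z.map f).row p) (K m) fun p => by
    simpa only [single_one_vecMul] using h1 (Pi.single p 1)
  obtain ⟨K', c1, c2, c3, c4, c5⟩ := fC m t a1 a2
  refine row_tors c f hf hd (e := e) m (fun j => Sp (K' j)) ?_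
    (fun j => mono (c3 j.le_succ)) (fun j => ?_) Z (fun x => ?_) fun j x hx => ?_
  · rw [Submodule.span_eq_bot]
    rintro _ ⟨y, hy, rfl⟩
    rw [c2 y hy]
    ext i
    simp
  · have : Sp (K' j) = Sp (Submodule.span R (K' j) : Set (n → R)) := by
      refine le_antisymm (mono Submodule.subset_span) (Submodule.span_le.2 ?_)
      rintro _ ⟨y, hy, rfl⟩
      change ψ ∘ y ∈ Submodule.span L ((fun y => ψ ∘ y) '' K' j)
      induction hy using Submodule.span_induction with
      | mem y hy => exact Submodule.subset_span ⟨y, hy, rfl⟩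
      | zero => exact (show (ψ ∘ (0 : n → R)) = 0 by ext; simp) ▸ zero_mem _
      | add a b _ _ p q => exact (show ψ ∘ (a + b) = ψ ∘ a + ψ ∘ b by ext; simp) ▸ add_mem p q
      | smul r a _ p =>
        exact (show ψ ∘ (r • a) = ψ r • (ψ ∘ a) by ext; simp) ▸ Submodule.smul_mem _ _ p
    rw [this]
    exact fr_span' hC ψ hψ e n _ (Submodule.fg_span (c1 j)) (hR _ (Submodule.fg_span (c1 j)))
  · rw [vecMul_eq_sum]
    exact Submodule.sum_mem _ fun p _ => Submodule.smul_mem _ _ (mono c4 (a3 p))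
  · refine (Submodule.span_le (p := Submodule.comap (Z.map f).vecMulLinear (Sp (K' j)))).2 ?_ hx
    rintro _ ⟨y, hy, rfl⟩
    exact c5 j y hy

end Fam

open MonoidAlgebra FG in
theorem ct_of_coh (B : Type) [Group B] (hC : Fam.Coh (MonoidAlgebra ℚ B)) {d : ℕ}
    (hR : ∀ (n : Type) [Fintype n] (K : Submodule (MonoidAlgebra ℚ B) (n → MonoidAlgebra ℚ B)),
      K.FG → Fam.PD (MonoidAlgebra ℚ B) K d) : CT B := by
  intro Γ W n _ _ _ _ s hs c m V h0 _ Z h1 h2
  let ψ := mapDomainRingHom ℚ s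
  let f := mapRingHom Γ (Int.castRingHom ℚ)
  let ι := mapRingHom B (Int.castRingHom ℚ)
  let φ := mapDomainRingHom ℤ s
  have hι : ∀ x, ψ (ι x) = f (φ x) := fun x =>
    (DFunLike.congr_fun (mapRingHom_comp_mapDomainRingHom (Int.castRingHom ℚ) s) x).symm
  let K : ℕ → Set (n → MonoidAlgebra ℚ B) :=
    fun j => {y | ∃ X ∈ V j, ∃ i, y = fun l => ι (Fam.st X i l)}
  have row : ∀ (X : Matrix n n (MonoidAlgebra ℤ B)) i,
      (ψ ∘ fun l => ι (Fam.st X i l)) = (Fam.st (φ.mapMatrix X)).map f i := fun X i => by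
    funext l
    exact (hι _).trans (congrArg f (Fam.bar_map s _).symm)
  have key : ∀ j, ∀ Y ∈ Rg φ (V j), ∀ x, x ᵥ* (Fam.st Y).map f ∈
      Submodule.span (MonoidAlgebra ℚ Γ) ((fun y => ψ ∘ y) '' K j) := by
    intro j Y hY
    induction hY using Submodule.span_induction with
    | mem Y hY =>
      obtain ⟨X, hX, t, rfl⟩ := hY
      intro x
      rw [Fam.st_mul, Matrix.map_mul, ← vecMul_vecMul, vecMul_eq_sum]
      exact Submodule.sum_mem _ fun i _ => Submodule.smul_mem _ _
        (Submodule.subset_span ⟨_, ⟨X, hX, i, rfl⟩, row X i⟩)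
    | zero =>
      intro x
      rw [Fam.st_zero, Matrix.map_zero _ (map_zero f), vecMul_zero]
      exact zero_mem _
    | add a b _ _ p q =>
      intro x
      rw [Fam.st_add, Matrix.map_add _ (map_add f), vecMul_add]
      exact add_mem (p x) (q x)
    | smul a b _ p =>
      intro x
      have e2 : x ᵥ* (Fam.st (a • b)).map f = a • (x ᵥ* (Fam.st b).map f) := by
        rw [Fam.st_smul]
        funext l
        simp only [vecMul, dotProduct, Matrix.map_apply, Matrix.smul_apply, map_zsmul,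
          Pi.smul_apply, Finset.smul_sum, mul_smul_comm]
      rw [e2]
      exact zsmul_mem (p x) a
  have := Fam.row_chain' hC (hR n) ψ (Fam.fl_group ℚ s hs) (Fam.invSt c) f
    (MonoidAlgebra.map_injective _ Int.cast_injective) den_clear m K
    (by
      rintro _ ⟨X, hX, i, rfl⟩
      rw [h0, AddSubgroup.mem_bot] at hX
      funext l
      rw [hX, Fam.st_zero]
      exact map_zero ι)
    (Fam.st Z) (key m Z h1) (by
      rintro j _ ⟨X, hX, i, rfl⟩
      have k := key j _ (h2 j X hX) (Pi.single i 1)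
      rw [Fam.st_mul, Matrix.map_mul, ← vecMul_vecMul, single_one_vecMul] at k
      rw [row]
      exact k)
  change IsOfFinAddOrder (c.c (Fam.st (1 + Fam.st Z))) at this
  rwa [Fam.st_add, Fam.st_one, Fam.st_st] at this


end Pool.Agent.Lib.MP_2add11_gt.IG
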