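import Mathlib

/-!
The group ring of a finitely generated free group over a commutative noetherian ring is coherent.
-/

noncomputable section

namespace Pool.Agent.Lib.MP_2add11_gt.IG

open MonoidAlgebra FreeGroup

theorem free_ind {X : Type} (P : FreeGroup X → Prop) (h1 : P 1)
    (h : ∀ v x, P v ↔ P (v * FreeGroup.of x)) (u : FreeGroup X) : P u := by
  have : ∀ w v, P v ↔ P (v * w) := fun w => by
    induction w using FreeGroup.induction_on with
    | C1 => simp
    | of x => exact fun v => h v x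
    | inv_of x _ => exact fun v => by simpa using (h (v * (FreeGroup.of x)⁻¹) x).symm
    | mul a b p q => exact fun v => by rw [← mul_assoc, ← q, ← p]
  simpa using (this u 1).1 h1

theorem exists_edge (X : Type) : ∃ E : FreeGroup X → FreeGroup X × X →₀ ℤ, E 1 = 0 ∧
    ∀ v x, E (v * FreeGroup.of x) = E v + Finsupp.single (v, x) 1 := by
  let τ : X → Equiv.Perm (FreeGroup X × (FreeGroup X × X →₀ ℤ)) := fun x =>
    { toFun := fun z => (z.1 * FreeGroup.of x, z.2 + Finsupp.single (z.1, x) 1)
      invFun := fun z => (z.1 * (FreeGroup.of x)⁻¹,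
        z.2 - Finsupp.single (z.1 * (FreeGroup.of x)⁻¹, x) 1)
      left_inv := fun z => by simp
      right_inv := fun z => by simp }
  let Θ := FreeGroup.lift fun x => (τ x)⁻¹
  have h1 : ∀ v x, Θ (v * FreeGroup.of x)⁻¹ (1, 0) = τ x (Θ v⁻¹ (1, 0)) := fun v x => by
    simp [Θ]
  have h2 : ∀ v, (Θ v⁻¹ (1, 0)).1 = v := free_ind _ (by simp) fun v x => by
    rw [h1]
    simp [τ]
  refine ⟨fun v => (Θ v⁻¹ (1, 0)).2, by simp, fun v x => ?_⟩
  simp only [h1, τ, Equiv.coe_fn_mk, h2]

theorem coh_free (C X : Type) [CommRing C] [IsNoetherianRing C] [Finite X] (a : ℕ) (n : Type)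
    [Fintype n] (g : (Fin a → MonoidAlgebra C (FreeGroup X)) →ₗ[MonoidAlgebra C (FreeGroup X)]
      (n → MonoidAlgebra C (FreeGroup X))) : (LinearMap.ker g).FG := by
  classical
  obtain ⟨E, e0, e1⟩ := exists_edge X
  obtain ⟨ρ, hρ⟩ : ∃ ρ : ℕ, ∀ i l p, (g (Pi.single i 1) l).coeff p ≠ 0 → p.toWord.length ≤ ρ :=
    ⟨(Finset.univ.biUnion fun q : Fin a × n => (g (Pi.single q.1 1) q.2).coeff.support).sup
      fun p => p.toWord.length, fun i l p h => Finset.le_sup
      (f := fun p : FreeGroup X => p.toWord.length)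
        (Finset.mem_biUnion.2 ⟨(i, l), Finset.mem_univ _, Finsupp.mem_support_iff.2 h⟩)⟩
  let S : Set (FreeGroup X) := FreeGroup.mk '' {L | L.length ≤ ρ}
  have hS : S.Finite := (List.finite_length_le _ ρ).image _
  let sg : FreeGroup X → MonoidAlgebra C (FreeGroup X) := fun u => single u 1
  have sm : ∀ u v, sg u * sg v = sg (u * v) := fun u v => by simp [sg, single_mul_single]
  have s1 : sg 1 = 1 := rfl
  have sc : ∀ v (z : n → MonoidAlgebra C (FreeGroup X)) l p,
      ((sg v • z) l).coeff p = (z l).coeff (v⁻¹ * p) := fun v z l p => by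
    simp [sg, coeff_single_mul_apply]
  let g' := g.restrictScalars C
  let B0 : Submodule C (n → MonoidAlgebra C (FreeGroup X)) :=
    Submodule.pi Set.univ fun _ => supported C C S
  have hB : ∀ z, z ∈ B0 ↔ ∀ l, ∀ p ∉ S, (z l).coeff p = 0 := fun z => by
    simp [B0, Submodule.mem_pi, mem_supported']
  have b1 : B0.FG := Submodule.fg_pi fun _ => by
    rw [supported_eq_span_single]
    exact Submodule.fg_span (hS.image _)
  obtain ⟨W0, w1, w2⟩ : ∃ W0 : Submodule C (Fin a → MonoidAlgebra C (FreeGroup X)), W0.FG ∧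
      ∀ z ∈ LinearMap.range g, z ∈ B0 → ∃ w ∈ W0, g w = z := by
    obtain ⟨t, ht⟩ := Submodule.FG.of_le b1 (inf_le_right : LinearMap.range g' ⊓ B0 ≤ B0)
    choose f hf using fun z : t => (ht ▸ Submodule.subset_span z.2 : z.1 ∈ _ ⊓ B0).1
    refine ⟨.span C (Set.range f), Submodule.fg_span (Set.finite_range f), fun z h1 h2 => ?_⟩
    have : Submodule.span C (t : Set _) ≤ (Submodule.span C (Set.range f)).map g' :=
      Submodule.span_le.2 fun z hz => ⟨f ⟨z, hz⟩, Submodule.subset_span ⟨_, rfl⟩, hf _⟩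
    exact this (ht ▸ ⟨h1, h2⟩)
  let W1 : Submodule C (Fin a → MonoidAlgebra C (FreeGroup X)) :=
    .span C (Set.range fun i => Pi.single i 1)
  have w3 : ∀ w ∈ W1, g w ∈ B0 := fun w hw =>
    (Submodule.span_le (p := B0.comap g')).2 (by
      rintro _ ⟨i, rfl⟩
      exact (hB _).2 fun l p hp => by_contra fun h => hp ⟨_, hρ i l p h, FreeGroup.mk_toWord⟩) hw
  let W := W0 ⊔ W1
  have w4 : W.FG := w1.sup (Submodule.fg_span (Set.finite_range _))
  let ls : X → (Fin a → MonoidAlgebra C (FreeGroup X)) →ₗ[C] Fin a → MonoidAlgebra C (FreeGroup X) :=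
    fun x => DistribSMul.toLinearMap C _ (sg (FreeGroup.of x))
  obtain ⟨t, ht⟩ := Submodule.FG.of_le (w4.sup (Submodule.fg_iSup _ fun x => w4.map (ls x)))
    (inf_le_left : (W ⊔ ⨆ x, W.map (ls x)) ⊓ LinearMap.ker g' ≤ _)
  refine ⟨t, le_antisymm (Submodule.span_le.2 fun z hz =>
    (ht ▸ Submodule.subset_span hz : z ∈ _ ⊓ LinearMap.ker g').2) fun y hy => ?_⟩
  have hN : ∀ w ∈ W ⊔ ⨆ x, W.map (ls x), g w = 0 →
      w ∈ Submodule.span (MonoidAlgebra C (FreeGroup X)) (t : Set _) := fun w h1 h2 =>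
    Submodule.span_le_restrictScalars C _ _ (ht ▸ ⟨h1, h2⟩)
  let U := Finset.univ.biUnion fun i => (y i).coeff.support
  let c : FreeGroup X → Fin a → MonoidAlgebra C (FreeGroup X) := fun u i =>
    single 1 ((y i).coeff u)
  have c1 : ∀ u, c u ∈ W1 := fun u => by
    have : c u = ∑ i, (y i).coeff u • (Pi.single i 1 : Fin a → MonoidAlgebra C (FreeGroup X)) := by
      funext j
      simp [c, Pi.single_apply, MonoidAlgebra.one_def]
    rw [this]
    exact sum_mem fun i _ => Submodule.smul_mem _ _ (Submodule.subset_span ⟨i, rfl⟩)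
  have c0 : ∀ u ∉ U, c u = 0 := fun u hu => funext fun i => by
    have : (y i).coeff u = 0 := by_contra fun h =>
      hu (Finset.mem_biUnion.2 ⟨i, Finset.mem_univ _, Finsupp.mem_support_iff.2 h⟩)
    simp [c, this]
  have c2 : y = ∑ u ∈ U, sg u • c u := by
    ext i p
    simp only [Finset.sum_apply, Pi.smul_apply, smul_eq_mul, sg, c, single_mul_single, mul_one,
      one_mul, coeff_sum, coeff_single, Finsupp.coe_finsetSum, Finsupp.single_apply,
      Finset.sum_ite_eq']
    split_ifs with h
    · rfl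
    · exact by_contra fun h' =>
        h (Finset.mem_biUnion.2 ⟨i, Finset.mem_univ _, Finsupp.mem_support_iff.2 h'⟩)
  let z : FreeGroup X → n → MonoidAlgebra C (FreeGroup X) := fun u => sg u • g (c u)
  have z0 : ∑ u ∈ U, z u = 0 := by
    have := LinearMap.mem_ker.1 hy
    rwa [c2, map_sum, Finset.sum_congr rfl fun u _ => map_smul g _ _] at this
  let Z : FreeGroup X × X → n → MonoidAlgebra C (FreeGroup X) := fun e => ∑ u ∈ U, E u e • z u
  have k1 : ∀ e, Z e ∈ LinearMap.range g := fun e => sum_mem fun u _ =>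
    zsmul_mem (Submodule.smul_mem _ _ (LinearMap.mem_range_self g _)) _
  have k2 : ∀ (e : FreeGroup X × X) l p, ¬ (e.1⁻¹ * p ∈ S ∧ (e.1 * FreeGroup.of e.2)⁻¹ * p ∈ S) →
      (Z e l).coeff p = 0 := fun e l p hp => by
    have st : ∀ v x, v⁻¹ * p ∈ S → (v * FreeGroup.of x)⁻¹ * p ∈ S →
        E (v * FreeGroup.of x) e = E v e := fun v x h1 h2 => by
      rw [e1, Finsupp.add_apply, Finsupp.single_apply, if_neg, add_zero]
      rintro rfl
      exact hp ⟨h1, h2⟩
    have cst : ∀ L : List (X × Bool), L.length ≤ ρ → E (p * (FreeGroup.mk L)⁻¹) e = E p e := by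
      intro L
      induction L with
      | nil => simp [← FreeGroup.one_eq_mk]
      | cons x L ih =>
        intro h
        have h' : L.length ≤ ρ := (Nat.le_succ _).trans h
        have m1 : (p * (FreeGroup.mk L)⁻¹)⁻¹ * p ∈ S := ⟨L, h', by group⟩
        have m2 : (p * (FreeGroup.mk (x :: L))⁻¹)⁻¹ * p ∈ S := ⟨_, h, by group⟩
        rw [← ih h']
        obtain ⟨x, _ | _⟩ := x
        · have : p * (FreeGroup.mk ((x, false) :: L))⁻¹ = p * (FreeGroup.mk L)⁻¹ * FreeGroup.of x := by
            rw [show FreeGroup.mk ((x, false) :: L) = (FreeGroup.of x)⁻¹ * FreeGroup.mk L from rfl]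
            group
          rw [this] at m2 ⊢
          exact st _ _ m1 m2
        · have : p * (FreeGroup.mk L)⁻¹ = p * (FreeGroup.mk ((x, true) :: L))⁻¹ * FreeGroup.of x := by
            rw [show FreeGroup.mk ((x, true) :: L) = FreeGroup.of x * FreeGroup.mk L from rfl]
            group
          rw [this] at m1 ⊢
          exact (st _ _ m2 m1).symm
    have : (Z e l).coeff p = (((E p e) • ∑ u ∈ U, z u) l).coeff p := by
      simp only [Z, Finset.smul_sum, Finset.sum_apply, coeff_sum, Finsupp.coe_finsetSum,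
        Pi.smul_apply, coeff_smul_apply]
      refine Finset.sum_congr rfl fun u _ => ?_
      by_cases h : u⁻¹ * p ∈ S
      · obtain ⟨L, h1, h2⟩ := h
        rw [← cst L h1, h2, show p * (u⁻¹ * p)⁻¹ = u by group]
      · rw [show (z u l).coeff p = 0 from (sc _ _ _ _).trans ((hB _).1 (w3 _ (c1 u)) l _ h),
          smul_zero, smul_zero]
    rw [this, z0]
    simp
  have k3 : ∀ e v, (v = e.1 ∨ v = e.1 * FreeGroup.of e.2) → ∃ w ∈ W, sg v • g w = Z e := by
    intro e v hv
    obtain ⟨w, h1, h2⟩ := w2 (sg v⁻¹ • Z e) (Submodule.smul_mem _ _ (k1 e)) ((hB _).2 fun l p hp => by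
      rw [sc]
      refine k2 e l _ fun h => hp ?_
      rcases hv with rfl | rfl
      · simpa using h.1
      · simpa [← mul_assoc] using h.2)
    exact ⟨w, Submodule.mem_sup_left h1, by rw [h2, smul_smul, sm, mul_inv_cancel, s1, one_smul]⟩
  choose p p1 p2 using fun e => k3 e _ (Or.inl rfl)
  choose q q1 q2 using fun e => k3 e _ (Or.inr rfl)
  let D := U.biUnion fun u => (E u).support
  have bd : ∀ (φ : FreeGroup X → ℤ) u,
      (E u).sum (fun e k => k * (φ (e.1 * FreeGroup.of e.2) - φ e.1)) = φ u - φ 1 := fun φ =>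
    free_ind _ (by simp [e0]) fun v x => by
      rw [e1, Finsupp.sum_add_index' (by simp) (fun _ _ _ => add_mul _ _ _),
        Finsupp.sum_single_index (by simp)]
      constructor <;> intro h <;> linarith
  let r : FreeGroup X → Fin a → MonoidAlgebra C (FreeGroup X) := fun v => c v -
    ∑ e ∈ D, ((if e.1 * FreeGroup.of e.2 = v then q e else 0) - if e.1 = v then p e else 0)
  have r1 : ∀ v, r v ∈ Submodule.span (MonoidAlgebra C (FreeGroup X)) (t : Set _) := fun v => by
    refine hN _ (Submodule.mem_sup_left (sub_mem (Submodule.mem_sup_right (c1 v))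
      (sum_mem fun e _ => sub_mem ?_ ?_))) ?_
    · split_ifs
      exacts [q1 e, zero_mem _]
    · split_ifs
      exacts [p1 e, zero_mem _]
    let φ : FreeGroup X → ℤ := fun u => if u = v then 1 else 0
    have h1 : sg v • g (r v) = z v - ∑ e ∈ D, (φ (e.1 * FreeGroup.of e.2) - φ e.1) • Z e := by
      simp only [r, map_sub, map_sum, smul_sub, Finset.smul_sum]
      congr 1
      refine Finset.sum_congr rfl fun e _ => ?_
      rw [sub_smul]
      congr 1
      · by_cases h : e.1 * FreeGroup.of e.2 = v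
        · simp only [φ, ← q2, h, if_true, one_smul]
        · simp [φ, h]
      · by_cases h : e.1 = v
        · simp only [φ, ← p2, h, if_true, one_smul]
        · simp [φ, h]
    have h2 : ∑ e ∈ D, (φ (e.1 * FreeGroup.of e.2) - φ e.1) • Z e = z v := by
      simp only [Z, Finset.smul_sum, smul_smul]
      rw [Finset.sum_comm, Finset.sum_congr rfl (g := fun u => (φ u - φ 1) • z u) fun u hu => by
        rw [← Finset.sum_smul, ← bd φ u, Finsupp.sum_of_support_subset _
          (Finset.subset_biUnion_of_mem (fun u => (E u).support) hu) _ (by simp)]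
        simp only [mul_comm]
        rfl]
      simp only [sub_smul, Finset.sum_sub_distrib]
      rw [← Finset.smul_sum, z0, smul_zero, sub_zero]
      simp only [φ, ite_smul, one_smul, zero_smul, Finset.sum_ite_eq']
      split_ifs with h
      · rfl
      · simp [z, c0 v h]
    rw [h2, sub_self] at h1
    rw [← one_smul (MonoidAlgebra C (FreeGroup X)) (g _), ← s1, ← inv_mul_cancel v, ← sm, mul_smul,
      h1, smul_zero]
  let U' := U ∪ (D.image fun e => e.1 * FreeGroup.of e.2) ∪ D.image Prod.fst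
  have fin : y = ∑ v ∈ U', sg v • r v - ∑ e ∈ D, sg e.1 • (p e - sg (FreeGroup.of e.2) • q e) := by
    simp only [r, smul_sub, Finset.smul_sum, Finset.sum_sub_distrib, smul_ite, smul_zero, smul_smul,
      sm]
    rw [Finset.sum_comm (s := U'), Finset.sum_comm (s := U')]
    simp only [Finset.sum_ite_eq]
    rw [Finset.sum_congr rfl fun e he => if_pos (Finset.mem_union_left _ (Finset.mem_union_right _
        (Finset.mem_image_of_mem _ he))), Finset.sum_congr rfl fun e he => if_pos
        (Finset.mem_union_right _ (Finset.mem_image_of_mem _ he)),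
      ← Finset.sum_subset (Finset.subset_union_left.trans Finset.subset_union_left)
        fun v _ hv => by rw [c0 v hv, smul_zero], ← c2]
    abel
  rw [fin]
  refine sub_mem (sum_mem fun v _ => Submodule.smul_mem _ _ (r1 v))
    (sum_mem fun e _ => Submodule.smul_mem _ _ (hN _ (sub_mem (Submodule.mem_sup_left (p1 e))
      (Submodule.mem_sup_right (Submodule.mem_iSup_of_mem e.2 ⟨_, q1 e, rfl⟩))) ?_))
  have h1 : sg e.1 • g (p e - sg (FreeGroup.of e.2) • q e) = 0 := by
    rw [map_sub, map_smul, smul_sub, smul_smul, sm, p2, q2, sub_self]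
  rw [← one_smul (MonoidAlgebra C (FreeGroup X)) (g _), ← s1, ← inv_mul_cancel e.1, ← sm, mul_smul,
    h1, smul_zero]

end Pool.Agent.Lib.MP_2add11_gt.IG
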