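import Pool.Agent.Lib.MP_2add11_gt.IG.FamRes

/-!
The global dimension of the group ring of a free group over a commutative ring.
-/

noncomputable section

namespace Pool.Agent.Lib.MP_2add11_gt.IG.Fam

open TensorProduct Function LinearMap

theorem intertw {C F U P : Type} [CommRing C] [Group F] [IsFreeGroup F] [AddCommGroup U]
    [Module C U] [AddCommGroup P] [Module C P] (α : F →* Module.End C U)
    (β : F →* Module.End C P) (L : U →ₗ[C] P)
    (h : ∀ x v, L (α (IsFreeGroup.of x) v) = β (IsFreeGroup.of x) (L v)) (g : F) (v : U) :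
    L (α g v) = β g (L v) := by
  let H : Subgroup F :=
    { carrier := {g | ∀ v, L (α g v) = β g (L v)}
      one_mem' := fun v => by simp
      mul_mem' := fun {a b} p q v => by
        rw [map_mul, map_mul, Module.End.mul_apply, Module.End.mul_apply, p, q]
      inv_mem' := fun {a} p v => by
        have := p (α a⁻¹ v)
        rw [← Module.End.mul_apply, ← map_mul, mul_inv_cancel, map_one,
          Module.End.one_apply] at this
        rw [this, ← Module.End.mul_apply, ← map_mul, inv_mul_cancel, map_one,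
          Module.End.one_apply] }
  have : H.subtype.comp (IsFreeGroup.lift fun x => (⟨IsFreeGroup.of x, h x⟩ : H)) =
      MonoidHom.id F := IsFreeGroup.ext_hom fun x => by simp
  have h2 := (IsFreeGroup.lift (fun x => (⟨IsFreeGroup.of x, h x⟩ : H)) g).2
  rw [show (IsFreeGroup.lift (fun x => (⟨IsFreeGroup.of x, h x⟩ : H)) g).1 = g from
    DFunLike.congr_fun this g] at h2
  exact h2 v

theorem gd_free {C : Type} [CommRing C] {d : ℕ} (h : IG.GD C d) (F : Type) [Group F]
    [IsFreeGroup F] : GD (MonoidAlgebra C F) (d + 1) := by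
  intro M _ _
  let : Module C M := Module.compHom M (algebraMap C (MonoidAlgebra C F))
  have : IsScalarTower C (MonoidAlgebra C F) M := IsScalarTower.of_algebraMap_smul fun _ _ => rfl
  have : SMulCommClass C (MonoidAlgebra C F) M := IsScalarTower.to_smulCommClass
  let X := IsFreeGroup.Generators F
  let o : F →* MonoidAlgebra C F := MonoidAlgebra.of C F
  let ε : MonoidAlgebra C F ⊗[C] M →ₗ[MonoidAlgebra C F] M :=
    AlgebraTensorModule.lift (toSpanSingleton (MonoidAlgebra C F) (M →ₗ[C] M) LinearMap.id)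
  have hε : ∀ (b : MonoidAlgebra C F) (y : M), ε (b ⊗ₜ y) = b • y := fun _ _ => rfl
  let act : ∀ (U : Type) [AddCommGroup U] [Module C U] [Module (MonoidAlgebra C F) U]
      [IsScalarTower C (MonoidAlgebra C F) U], F →* Module.End C U := fun U _ _ _ _ =>
    (Algebra.lsmul C C U (A := MonoidAlgebra C F)).toMonoidHom.comp o
  have hact : ∀ (U : Type) [AddCommGroup U] [Module C U] [Module (MonoidAlgebra C F) U]
      [IsScalarTower C (MonoidAlgebra C F) U] (g : F) (u : U), act U g u = o g • u :=
    fun _ _ _ _ _ _ _ => rfl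
  let p0 : (X →₀ M) →ₗ[C] MonoidAlgebra C F ⊗[C] M := Finsupp.lsum C fun x =>
    TensorProduct.mk C _ M (o (IsFreeGroup.of x)) -
      TensorProduct.mk C _ M 1 ∘ₗ act M (IsFreeGroup.of x)
  let p : MonoidAlgebra C F ⊗[C] (X →₀ M) →ₗ[MonoidAlgebra C F] MonoidAlgebra C F ⊗[C] M :=
    AlgebraTensorModule.lift (toSpanSingleton (MonoidAlgebra C F) (_ →ₗ[C] _) p0)
  have hp : ∀ b x (y : M), p (b ⊗ₜ Finsupp.single x y) =
      (b * o (IsFreeGroup.of x)) ⊗ₜ y - b ⊗ₜ (o (IsFreeGroup.of x) • y) := fun b x y => by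
    change b • p0 _ = _
    simp [p0, hact, smul_sub, smul_tmul']
  let γ := act (M × MonoidAlgebra C F ⊗[C] (X →₀ M))
  let N : X → Module.End C (M × MonoidAlgebra C F ⊗[C] (X →₀ M)) := fun x =>
    LinearMap.inr C _ _ ∘ₗ TensorProduct.mk C _ _ (o (IsFreeGroup.of x)⁻¹) ∘ₗ
      Finsupp.lsingle x ∘ₗ LinearMap.fst C _ _
  let Θ : F →* Module.End C (M × MonoidAlgebra C F ⊗[C] (X →₀ M)) :=
    (Units.coeHom _).comp (IsFreeGroup.lift fun x =>
      γ.toHomUnits (IsFreeGroup.of x) * ⟨1 + N x, 1 - N x,
        LinearMap.ext fun z => by simp [N], LinearMap.ext fun z => by simp [N]⟩)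
  have hΘ : ∀ x z, Θ (IsFreeGroup.of x) z = (o (IsFreeGroup.of x) • z.1,
      o (IsFreeGroup.of x) • z.2 + 1 ⊗ₜ Finsupp.single x z.1) := fun x z => by
    have : o (IsFreeGroup.of x) * o (IsFreeGroup.of x)⁻¹ = 1 := by
      rw [← map_mul, mul_inv_cancel, map_one]
    simp only [Θ, MonoidHom.comp_apply, IsFreeGroup.lift_of, Units.coeHom_apply, Units.val_mul,
      MonoidHom.coe_toHomUnits, Module.End.mul_apply, γ, hact]
    ext
    · simp [N]
    · simp [N, smul_tmul', this]
  have t2 := intertw (act _) Θ (LinearMap.inr C M _) fun x v => by simp [hΘ, hact]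
  have t3 := intertw Θ (act _) ((TensorProduct.mk C _ M 1).coprod (p.restrictScalars C))
    fun x z => by
      simp only [hΘ, hact, coprod_apply, mk_apply, restrictScalars_apply, map_add, map_smul, hp,
        smul_add, smul_tmul', smul_eq_mul, mul_one, one_mul]
      abel
  have t1 := intertw Θ (act M) (LinearMap.fst C M _) fun x z => by simp [hΘ, hact]
  let σ : MonoidAlgebra C F ⊗[C] M →ₗ[C] MonoidAlgebra C F ⊗[C] (X →₀ M) :=
    TensorProduct.lift ((MonoidAlgebra.basis F C).constr C fun g =>
      LinearMap.snd C _ _ ∘ₗ Θ g ∘ₗ LinearMap.inl C _ _)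
  have hσ : ∀ g (y : M), σ (o g ⊗ₜ y) = (Θ g (y, 0)).2 := fun g y => by
    have : o g = MonoidAlgebra.basis F C g := by simp [o]
    rw [this]
    simp only [σ, lift.tmul, Module.Basis.constr_basis]
    rfl
  have ind : ∀ {U : Type} [AddCommGroup U] [Module C U] {V : Type} [AddCommGroup V] [Module C V]
      (f f' : MonoidAlgebra C F ⊗[C] U →ₗ[C] V), (∀ g u, f (o g ⊗ₜ u) = f' (o g ⊗ₜ u)) → f = f' :=
    fun f f' e => TensorProduct.ext ((MonoidAlgebra.basis F C).ext fun g => LinearMap.ext fun u => by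
      simpa [o] using e g u)
  have a1 : p.restrictScalars C ∘ₗ σ =
      LinearMap.id - TensorProduct.mk C _ M 1 ∘ₗ ε.restrictScalars C := ind _ _ fun g u => by
    have k1 := t3 g (u, 0)
    have k2 := t1 g (u, 0)
    simp only [coprod_apply, mk_apply, restrictScalars_apply, hact, map_zero, add_zero, fst_apply,
      smul_tmul', smul_eq_mul, mul_one] at k1 k2
    change p (σ _) = o g ⊗ₜ u - 1 ⊗ₜ (o g • u)
    rw [hσ, ← k1, k2, add_sub_cancel_left]
  have a2 : σ ∘ₗ p.restrictScalars C = LinearMap.id := ind _ _ fun g u => by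
    induction u using Finsupp.induction_linear with
    | zero => simp
    | add a b p q => simp only [tmul_add, map_add, p, q]
    | single x y =>
      have k1 := t2 g (1 ⊗ₜ Finsupp.single x y)
      simp only [inr_apply, hact, smul_tmul', smul_eq_mul, mul_one] at k1
      change σ (p _) = o g ⊗ₜ Finsupp.single x y
      rw [hp, map_sub, ← map_mul, hσ, hσ, map_mul, Module.End.mul_apply, hΘ, ← Prod.snd_sub,
        ← map_sub]
      simp [← k1]
  refine PD.coker (f := p) (g := ε) (fun z => ⟨fun hz => ⟨σ z, ?_⟩, ?_⟩)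
    (LeftInverse.injective (g := σ) (LinearMap.congr_fun a2)) (fun y => ⟨1 ⊗ₜ y, by simp [hε]⟩)
    (PD.base d _ (h _)) ?_
  · simpa [hz] using LinearMap.congr_fun a1 z
  · rintro ⟨w, rfl⟩
    refine LinearMap.congr_fun (ind (ε.restrictScalars C ∘ₗ p.restrictScalars C) 0 fun g u => ?_) w
    induction u using Finsupp.induction_linear with
    | zero => simp
    | add a b p q => simp only [tmul_add, map_add, p, q]
    | single x y => simp [hp, hε, mul_smul]
  · have : CategoryTheory.HasProjectiveDimensionLT (ModuleCat.of (MonoidAlgebra C F)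
        (MonoidAlgebra C F ⊗[C] M)) (d + 1) := PD.base d M (h M)
    exact CategoryTheory.hasProjectiveDimensionLT_of_ge _ (d + 1) _ (by omega)

end Pool.Agent.Lib.MP_2add11_gt.IG.Fam
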