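import Pool.Agent.Lib.MP_2add11_gt.IG.CohUp
import Pool.Agent.Lib.MP_2add11_gt.IG.CohCT
import Pool.Agent.Lib.MP_2add11_gt.IG.CohGd
import Pool.Agent.Lib.MP_2add11_gt.IG.CohFree

/-!
The chain property of the product of a finitely generated virtually free group and a finitely
generated abelian group.
-/

noncomputable section

namespace Pool.Agent.Lib.MP_2add11_gt.IG

theorem ct_vf_ab (B A : Type) [Group B] [Group.FG B] (H : Subgroup B) [H.FiniteIndex]
    [IsFreeGroup H] [CommGroup A] [Group.FG A] : CT (B × A) := by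
  obtain ⟨d, hd⟩ := gd_fg A
  have : IsNoetherianRing (MonoidAlgebra ℚ A) := Algebra.FiniteType.isNoetherianRing ℚ _
  obtain ⟨h1, h2⟩ := Fam.vf_ab B A H (fun X _ a n _ g => coh_free _ X a n g)
    fun X _ => Fam.gd_free hd (FreeGroup X)
  exact ct_of_coh _ h1 fun _ _ K _ => h2 K

end Pool.Agent.Lib.MP_2add11_gt.IG
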