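import Pool.Agent.Lib.MP_2add11_gt.IG.KpsFree
import Pool.Agent.Lib.MP_2add11_gt.FG.Artin
import Pool.Agent.Lib.MP_435286_al.CF.TT
import Pool.Agent.Lib.MP_435286_al.CF.Fin
import Pool.Agent.Lib.MP_435286_al.CF.Nest
import Pool.Agent.Lib.MP_435286_al.CF.Ori
import Pool.Agent.Lib.MP_435286_al.CF.Block

/-!
A finitely generated group with a free subgroup of finite index acts on a tree with finitely many
orbits of edges so that the free subgroup acts freely and inverts no edge.
-/

namespace Pool.Agent.Lib.MP_2add11_gt.IG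

open FG

theorem finite_basis (X : Type) [h : Group.FG (FreeGroup X)] : Finite X := by
  classical
  obtain ⟨S, hS, hf⟩ := Group.fg_iff.1 h
  let φ : X → FreeGroup X →* Multiplicative ℤ := fun x =>
    FreeGroup.lift fun y => if y = x then Multiplicative.ofAdd 1 else 1
  have h1 : ∀ s, {x | φ x s ≠ 1}.Finite := fun s => by
    induction s using FreeGroup.induction_on with
    | C1 => simp
    | of y =>
      refine (Set.finite_singleton y).subset fun x hx => ?_
      by_contra h
      exact hx (by simp [φ, show y ≠ x from Ne.symm h])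
    | inv_of y ih => simpa using ih
    | mul u v hu hv =>
      refine (hu.union hv).subset fun x hx => ?_
      by_contra h
      simp only [Set.mem_union, Set.mem_ofPred_eq, not_or, not_not] at h
      exact hx (by rw [map_mul, h.1, h.2, mul_one])
  refine Set.finite_univ_iff.1 ((hf.biUnion fun s _ => h1 s).subset fun x _ => ?_)
  by_contra h
  have h2 : φ x = 1 := MonoidHom.eq_of_eqOn_dense hS fun s hs => by
    by_contra h3
    exact h (Set.mem_biUnion hs h3)
  simpa [φ] using DFunLike.congr_fun h2 (FreeGroup.of x)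

theorem treeAct_of_tr {G X : Type} [Group G] [Finite X] (T : Tr (FreeGroup X) G) :
    MP_435286_al.CF.TreeAct G := by
  classical
  let π : T.κ → G → FreeGroup X := fun k a => (T.e (T.t k * a)).1
  let τ : G → T.κ ≃ T.κ := fun g =>
    { toFun := fun k => (T.e (T.t k * g)).2
      invFun := fun k => (T.e (T.t k * g⁻¹)).2
      left_inv := fun k => by
        have := congrArg Prod.snd (T.e_mul k g g⁻¹)
        rw [mul_inv_cancel, mul_one, T.e_t] at this
        exact this.symm
      right_inv := fun k => by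
        have := congrArg Prod.snd (T.e_mul k g⁻¹ g)
        rw [inv_mul_cancel, mul_one, T.e_t] at this
        exact this.symm }
  have h1 : ∀ g k a b, fd (π k (g * a)) (π k (g * b)) = fd (π (τ g k) a) (π (τ g k) b) :=
    fun g k a b => by
      simp only [π, T.e_mul k g]
      exact fd_mul _ _ _
  have h2 : ∀ g a b, sd π (g * a) (g * b) = sd π a b := fun g a b => by
    simp only [sd, h1]
    exact (τ g).sum_comp fun k => fd (π k a) (π k b)
  have h3 : ∀ k a r, {b | fd (π k a) (π k b) ≤ r}.Finite := fun k a r => by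
    refine (((ball_finite (X := X) r).prod (Set.finite_univ (α := T.κ))).preimage
      (f := fun b => ((π k a)⁻¹ * π k b, (T.e (T.t k * b)).2)) fun b _ b' _ e => ?_).subset
      fun b hb => ⟨hb, trivial⟩
    obtain ⟨e1, e2⟩ := Prod.ext_iff.1 e
    exact mul_left_cancel (T.e.injective (Prod.ext (mul_left_cancel e1) e2))
  have hs : ∀ k, Function.Surjective (π k) := fun k u =>
    ⟨(T.t k)⁻¹ * T.e.symm (u, k), by simp [π]⟩
  have hq : ∀ r, ∃ r', ∀ k a b, fd (π k a) (π k b) ≤ r → sd π a b ≤ r' := fun r => by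
    obtain ⟨r', hr⟩ := ((Set.finite_iUnion fun k => h3 k 1 r).image (sd π 1)).bddAbove
    refine ⟨r', fun k a b h => ?_⟩
    have e1 := h1 a k 1 (a⁻¹ * b)
    have e2 := h2 a 1 (a⁻¹ * b)
    rw [mul_one, mul_inv_cancel_left] at e1 e2
    exact e2.trans_le (hr ⟨_, Set.mem_iUnion.2 ⟨_, e1.symm.trans_le h⟩, rfl⟩)
  let k0 := (T.e 1).2
  obtain ⟨K, hK⟩ := sd_chain π k0 hs hq
  obtain ⟨R, hR⟩ := hq 1
  have key := MP_435286_al.CF.tt MP_435286_al.CF.fin
    (MP_435286_al.CF.nest MP_435286_al.CF.fin) MP_435286_al.CF.ori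
    (MP_435286_al.CF.block MP_435286_al.CF.fin) G G (sd π) K R (sd_symm π) (sd_tri π) h2
    (fun a n => (h3 k0 a n).subset fun b hb => (le_sd π k0 a b).trans hb)
    (fun a => hR k0 a a (by simp [fd_self]))
  refine (key (fun a b => ?_) hK (fun v => ?_) ?_).elim fun W ⟨_, Y, _, a, b, c, d, _⟩ =>
    ⟨W, _, Y, a, b, c, d⟩
  · obtain ⟨n, y, rfl, rfl, hy⟩ := lift_geo π (hs k0) a b
    have : ∀ j ≤ n + 1, Relation.ReflTransGen (fun x y => sd π x y ≤ R) (y 0) (y j) := fun j => by
      induction j with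
      | zero => exact fun _ => .refl
      | succ j ih => exact fun hj => (ih (by omega)).tail (hR k0 _ _ (hy j (by omega)).1)
    exact this _ le_rfl
  · have : Subsingleton (MulAction.stabilizer G v) :=
      ⟨fun g h => Subtype.ext (mul_right_cancel (g.2.trans h.2.symm))⟩
    infer_instance
  · have : Subsingleton (MulAction.orbitRel.Quotient G G) := ⟨fun p q => by
      obtain ⟨p, rfl⟩ := Quotient.exists_rep p
      obtain ⟨q, rfl⟩ := Quotient.exists_rep q
      exact Quotient.sound ⟨p * q⁻¹, inv_mul_cancel_right p q⟩⟩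
    infer_instance

theorem treeAct_of_free (G : Type) [Group G] [Group.FG G] (N : Subgroup G) [N.FiniteIndex]
    [IsFreeGroup N] : MP_435286_al.CF.TreeAct G := by
  classical
  let ψ := IsFreeGroup.toFreeGroup N
  have : Group.FG (FreeGroup (IsFreeGroup.Generators N)) :=
    Group.fg_of_surjective (f := ψ.toMonoidHom) ψ.surjective
  have := finite_basis (IsFreeGroup.Generators N)
  obtain ⟨S, hS, -⟩ := N.exists_isComplement_right 1
  have : Finite S := hS.finite_right
  have := Fintype.ofFinite S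
  exact treeAct_of_tr ⟨N.subtype.comp ψ.symm.toMonoidHom, S, Subtype.val,
    hS.equiv.trans (ψ.toEquiv.prodCongr (Equiv.refl S)), fun _ => rfl⟩

theorem finite_darts {G V : Type} [Group G] [h : Group.FG G] [MulAction G V] (T : SimpleGraph V)
    (hT : T.IsTree) (hG : ∀ (g : G) x y, T.Adj x y → T.Adj (g • x) (g • y))
    (ho : Finite (MulAction.orbitRel.Quotient G V)) :
    ∃ (T' : SimpleGraph V) (s : Set (V × V)), T'.IsTree ∧
      (∀ (g : G) x y, T'.Adj x y → T'.Adj (g • x) (g • y)) ∧ s.Finite ∧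
      ∀ x y, T'.Adj x y → ∃ g : G, (g • x, g • y) ∈ s := by
  obtain ⟨S, hS, hf⟩ := Group.fg_iff.1 h
  obtain ⟨v⟩ := hT.connected.nonempty
  let p : ∀ z, T.Walk v z := fun z => (hT.connected v z).some
  let Z : Set V := Set.range (fun q : MulAction.orbitRel.Quotient G V => q.out) ∪ (· • v) '' S
  let A : Set V := ⋃ z ∈ Z, {x | x ∈ (p z).support}
  have hA : A.Finite := ((Set.finite_range _).union (hf.image _)).biUnion fun z _ =>
    List.finite_toSet _
  let T' : SimpleGraph V :=
    { Adj := fun x y => T.Adj x y ∧ ∃ g : G, g • x ∈ A ∧ g • y ∈ A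
      symm := ⟨fun _ _ ⟨a, g, b, c⟩ => ⟨a.symm, g, c, b⟩⟩
      loopless := ⟨fun _ a => a.1.ne rfl⟩ }
  have h1 : ∀ (g : G) x y, T'.Adj x y → T'.Adj (g • x) (g • y) := fun g x y ⟨a, k, b, c⟩ =>
    ⟨hG g x y a, k * g⁻¹, by simpa [mul_smul] using b, by simpa [mul_smul] using c⟩
  have h2 : ∀ (g : G) x y, T'.Reachable x y → T'.Reachable (g • x) (g • y) := fun g x y hr =>
    hr.map (⟨(g • ·), h1 g _ _⟩ : T' →g T')
  have h3 : ∀ x y (w : T.Walk x y), (∀ z ∈ w.support, z ∈ A) → T'.Reachable x y := fun x y w => by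
    induction w with
    | nil => exact fun _ => .refl _
    | @cons a b c hab w ih =>
      intro hw
      have : T'.Adj a b := ⟨hab, 1, by simpa using hw a (by simp), by simpa using hw b (by simp)⟩
      exact this.reachable.trans (ih fun z hz => hw z (by simp [hz]))
  have h4 : ∀ z ∈ Z, T'.Reachable v z := fun z hz =>
    h3 _ _ (p z) fun x hx => Set.mem_biUnion hz hx
  have h5 : ∀ g : G, T'.Reachable v (g • v) := fun g => by
    have hg : g ∈ Subgroup.closure S := hS ▸ Subgroup.mem_top g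
    induction hg using Subgroup.closure_induction with
    | mem g hg => exact h4 _ (Or.inr ⟨g, hg, rfl⟩)
    | one => rw [one_smul]
    | mul g k _ _ a b => exact a.trans (mul_smul g k v ▸ h2 g _ _ b)
    | inv g _ a => simpa using (h2 g⁻¹ _ _ a).symm
  have h6 : ∀ x, T'.Reachable v x := fun x => by
    obtain ⟨g, hg⟩ : x ∈ MulAction.orbit G (Quotient.mk (MulAction.orbitRel G V) x).out :=
      Quotient.exact (Quotient.out_eq (Quotient.mk (MulAction.orbitRel G V) x)).symm
    exact (h5 g).trans (hg ▸ h2 g _ _ (h4 _ (Or.inl ⟨_, rfl⟩)))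
  have : Nonempty V := ⟨v⟩
  exact ⟨T', A ×ˢ A, ⟨⟨fun x y => (h6 x).symm.trans (h6 y)⟩,
    hT.isAcyclic.anti fun _ _ a => a.1⟩, h1, hA.prod hA, fun _ _ a => a.2⟩

/-- The tree of a finitely generated virtually free group. -/
theorem tree_of_free (G : Type) [Group G] [Group.FG G] (N : Subgroup G) [N.FiniteIndex]
    [IsFreeGroup N] : ∃ (V : Type) (_ : MulAction G V) (T : SimpleGraph V) (s : Set (V × V)),
      T.IsTree ∧ (∀ (g : G) x y, T.Adj x y → T.Adj (g • x) (g • y)) ∧ s.Finite ∧
      (∀ x y, T.Adj x y → ∃ g : G, (g • x, g • y) ∈ s) ∧ (∀ n ∈ N, ∀ x : V, n • x = x → n = 1) ∧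
      ∀ n ∈ N, ∀ x y, T.Adj x y → n • x = y → n • y ≠ x := by
  obtain ⟨V, _, T, a, b, c, d⟩ := treeAct_of_free G N
  obtain ⟨T', s, a', b', c', d'⟩ := finite_darts T a b d
  let ψ := IsFreeGroup.toFreeGroup N
  have h0 : ∀ n ∈ N, IsOfFinOrder n → n = 1 := fun n hn h => by
    have h1 : IsOfFinOrder (⟨n, hn⟩ : N) :=
      (N.subtype_injective.isOfFinOrder_iff).1 h
    have h2 := (ψ.toMonoidHom.isOfFinOrder h1).eq_one'
    exact congrArg Subtype.val (ψ.map_eq_one_iff.1 h2)
  have h1 : ∀ n : G, ∀ x : V, n • x = x → IsOfFinOrder n := fun n x h => by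
    have := c x
    exact (MulAction.stabilizer G x).subtype.isOfFinOrder (isOfFinOrder_of_finite ⟨n, h⟩)
  refine ⟨V, _, T', s, a', b', c', d', fun n hn x h => h0 n hn (h1 n x h),
    fun n hn x y hxy e1 e2 => hxy.ne ?_⟩
  have h2 := h1 (n ^ 2) x (by rw [sq, mul_smul, e1, e2])
  rw [← e1, h0 n hn (h2.of_pow two_ne_zero), one_smul]

end Pool.Agent.Lib.MP_2add11_gt.IG
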