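import Pool.Agent.Lib.MP_2add11_gt.IG.FamVa
import Pool.Agent.Lib.MP_2add11_gt.IG.Kps

/-!
Finite generation of kernels and the global dimension pass to overgroups of finite index.
-/

noncomputable section

namespace Pool.Agent.Lib.MP_2add11_gt.IG

open Matrix MonoidAlgebra FG Function

namespace Fam

/-- Kernels of maps between finite free modules are finitely generated. -/
def Ker (R : Type) [Ring R] : Prop :=
  ∀ (a : ℕ) (n : Type) [Fintype n] (g : (Fin a → R) →ₗ[R] (n → R)), (LinearMap.ker g).FG

theorem Ker.fg {R P N n : Type} [Ring R] (h : Ker R) [AddCommGroup P] [Module R P]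
    [Module.Finite R P] [AddCommGroup N] [Module R N] [Fintype n] (f : P →ₗ[R] N)
    (j : N →ₗ[R] (n → R)) (hj : Injective j) : (LinearMap.ker f).FG := by
  obtain ⟨a, π, hπ⟩ := Module.Finite.exists_fin' R P
  have := (h a n (j ∘ₗ f ∘ₗ π)).map π
  rwa [LinearMap.ker_comp_of_ker_eq_bot _ (LinearMap.ker_eq_bot.2 hj), LinearMap.ker_comp,
    Submodule.map_comap_eq_of_surjective hπ] at this

theorem up_ring {R S : Type} [Ring R] [Ring S] (ι : R →+* S) (Q : Type) [Fintype Q]
    (i : Q → S →+ R) (t : Q → S) (hi : ∀ q r x, i q (ι r * x) = r * i q x)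
    (hp : ∀ x, ∑ q, ι (i q x) * t q = x)
    (havg : ∀ (M P : Type) [AddCommGroup M] [Module S M] [AddCommGroup P] [Module S P]
      (g : P →ₗ[S] M) (σ : M →+ P), (∀ r x, σ (ι r • x) = ι r • σ x) → (∀ x, g (σ x) = x) →
        ∃ τ : M →ₗ[S] P, ∀ x, g (τ x) = x) :
    (Ker R → Ker S) ∧ ∀ d, GD R d → GD S d := by
  let : Module R S := Module.compHom _ ι
  have sm : ∀ (r : R) (x : S), r • x = ι r * x := fun _ _ => rfl
  have : IsScalarTower R S S := ⟨fun r x y => mul_assoc (ι r) x y⟩
  let I : S →ₗ[R] (Q → R) :=
    { toFun := fun x q => i q x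
      map_add' := fun x y => funext fun q => map_add _ x y
      map_smul' := fun r x => funext fun q => hi q r x }
  let p : (Q → R) →ₗ[R] S :=
    { toFun := fun y => ∑ q, ι (y q) * t q
      map_add' := fun x y => by simp only [Pi.add_apply, map_add, add_mul, Finset.sum_add_distrib]
      map_smul' := fun r y => by
        simp only [Pi.smul_apply, smul_eq_mul, map_mul, RingHom.id_apply, sm, Finset.mul_sum,
          mul_assoc] }
  have : Module.Projective R S := Module.Projective.of_split I p (LinearMap.ext hp)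
  have : Module.Finite R S := Module.Finite.of_surjective p fun x => ⟨I x, hp x⟩
  refine ⟨fun h a n _ g => ?_, fun d hd M _ _ => ?_⟩
  · have k := h.fg (g.restrictScalars R)
      (LinearMap.pi fun z : n × Q => LinearMap.proj z.2 ∘ₗ I ∘ₗ LinearMap.proj z.1)
      fun x y e => funext fun l => by
        rw [← hp (x l), ← hp (y l)]
        exact Finset.sum_congr rfl fun q _ => congrArg (fun z => ι z * t q) (congrFun e (l, q))
    exact Submodule.FG.of_restrictScalars R k
  · let : Module R M := Module.compHom _ ι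
    have : IsScalarTower R S M := ⟨fun r x y => mul_smul (ι r) x y⟩
    refine pd_up (fun M P _ _ _ _ _ _ _ _ g σ hσ => havg M P g σ.toAddMonoidHom (fun r x => ?_) hσ)
      d M (hd M)
    change σ (ι r • x) = ι r • σ x
    rw [← mul_one (ι r), ← sm, smul_one_smul, smul_one_smul, map_smul]

theorem up_equiv {R S : Type} [Ring R] [Ring S] (e : R ≃+* S) :
    (Ker R → Ker S) ∧ ∀ d, GD R d → GD S d :=
  up_ring e.toRingHom Unit (fun _ => e.symm.toRingHom.toAddMonoidHom) (fun _ => 1)
    (fun _ r x => by simp) (fun x => by simp) fun M P _ _ _ _ g σ h1 h2 =>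
      ⟨{ toFun := σ
         map_add' := map_add σ
         map_smul' := fun r x => by simpa using h1 (e.symm r) x }, h2⟩

theorem up {A B : Type} [Group A] [Group B] (s : A →* B) (hs : Injective s)
    [Finite (B ⧸ s.range)] : (Ker (MonoidAlgebra ℚ A) → Ker (MonoidAlgebra ℚ B)) ∧
      ∀ d, GD (MonoidAlgebra ℚ A) d → GD (MonoidAlgebra ℚ B) d := by
  classical
  have := Fintype.ofFinite (B ⧸ s.range)
  let ι := mapDomainRingHom ℚ s
  have ps : ∀ b r, ι (single b r) = single (s b) r := fun b r => mapDomain_single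
  have inj : ∀ γ : B, Injective fun b => s b * γ := fun γ => (mul_left_injective γ).comp hs
  let co : B → MonoidAlgebra ℚ B →+ MonoidAlgebra ℚ A :=
    fun γ => comapDomainAddMonoidHom _ (inj γ)
  have c1 : ∀ γ b r, co γ (single (s b * γ) r) = single b r := fun γ b r =>
    comapDomain_single_map (fun b => s b * γ) (inj γ) b r
  have c0 : ∀ γ g r, (¬ ∃ b, s b * γ = g) → co γ (single g r) = 0 := fun γ g r h =>
    comapDomain_single_of_not_mem_range h (inj γ)
  have cm : ∀ γ x r, co γ (ι r * x) = r * co γ x := by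
    intro γ x r
    induction x using induction_linear with
    | zero => simp only [mul_zero, map_zero]
    | add u v p q => simp only [mul_add, map_add, p, q]
    | single g u =>
      induction r using induction_linear with
      | zero => simp only [zero_mul, map_zero]
      | add u v p q => simp only [map_add, add_mul, p, q]
      | single b v =>
        rw [ps, single_mul_single]
        by_cases h : ∃ b0, s b0 * γ = g
        · obtain ⟨b0, rfl⟩ := h
          rw [← mul_assoc, ← map_mul, c1, c1, single_mul_single]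
        · rw [c0 _ _ _ h, mul_zero, c0]
          rintro ⟨b1, e⟩
          exact h ⟨b⁻¹ * b1, by rw [map_mul, map_inv, mul_assoc, e, inv_mul_cancel_left]⟩
  have dec : ∀ x : MonoidAlgebra ℚ B,
      ∑ q : B ⧸ s.range, ι (co q.out⁻¹ x) * single q.out⁻¹ 1 = x := by
    intro x
    induction x using induction_linear with
    | zero => simp only [map_zero, zero_mul, Finset.sum_const_zero]
    | add u v p q => simp only [map_add, add_mul, Finset.sum_add_distrib, p, q]
    | single g u =>
      rw [Finset.sum_eq_single ((g⁻¹ : B) : B ⧸ s.range)]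
      · obtain ⟨⟨_, b, rfl⟩, e⟩ := QuotientGroup.mk_out_eq_mul s.range g⁻¹
        have e2 : s b * ((g⁻¹ : B) : B ⧸ s.range).out⁻¹ = g := by
          rw [e, _root_.mul_inv_rev, inv_inv]
          exact mul_inv_cancel_left (s b) g
        have e3 := c1 ((g⁻¹ : B) : B ⧸ s.range).out⁻¹ b u
        rw [e2] at e3
        rw [e3, ps, single_mul_single, e2, mul_one]
      · intro q _ hq
        rw [c0, map_zero, zero_mul]
        rintro ⟨b, rfl⟩
        exact hq (by
          rw [_root_.mul_inv_rev, inv_inv, QuotientGroup.mk_mul_of_mem _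
            (inv_mem (show s b ∈ s.range from ⟨b, rfl⟩)), QuotientGroup.out_eq'])
      · intro hq
        exact absurd (Finset.mem_univ _) hq
  refine up_ring ι (B ⧸ s.range) (fun q => co q.out⁻¹) (fun q => single q.out⁻¹ 1)
    (fun q r x => cm _ x r) dec fun M P _ _ _ _ g σ lin hσ => ?_
  let c : ℚ := (Fintype.card (B ⧸ s.range) : ℚ)⁻¹
  let φ : B → M → P := fun b x =>
    (single b c : MonoidAlgebra ℚ B) • σ ((single b⁻¹ 1 : MonoidAlgebra ℚ B) • x)
  have f1 : ∀ b a x, φ (b * s a) x = φ b x := fun b a x => by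
    have e : (single (b * s a)⁻¹ 1 : MonoidAlgebra ℚ B) = ι (single a⁻¹ 1) * single b⁻¹ 1 := by
      rw [ps, single_mul_single, _root_.mul_inv_rev, map_inv, mul_one]
    simp only [φ]
    rw [e, mul_smul, lin, smul_smul, ps, single_mul_single, map_inv, mul_inv_cancel_right, mul_one]
  have f2 : ∀ b g u x, φ b ((single g u : MonoidAlgebra ℚ B) • x) =
      (single g u : MonoidAlgebra ℚ B) • φ (g⁻¹ * b) x := fun b g u x => by
    have e : (single b⁻¹ 1 * single g u : MonoidAlgebra ℚ B) =
        ι (single 1 u) * single (g⁻¹ * b)⁻¹ 1 := by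
      rw [ps, single_mul_single, single_mul_single, _root_.mul_inv_rev, inv_inv, map_one, one_mul,
        one_mul, mul_one]
    simp only [φ]
    rw [smul_smul, e, mul_smul, lin, smul_smul, smul_smul, ps, single_mul_single,
      single_mul_single, map_one, mul_one, mul_inv_cancel_left, mul_comm]
  have f3 : ∀ b x y, φ b (x + y) = φ b x + φ b y := fun b x y => by
    simp only [φ, smul_add, map_add]
  refine ⟨{ toFun := fun x => ∑ q : B ⧸ s.range, φ q.out x
            map_add' := fun x y => by simp only [f3, Finset.sum_add_distrib]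
            map_smul' := fun r x => ?_ }, fun x => ?_⟩
  · induction r using induction_linear with
    | zero => simp [φ]
    | add u v p q =>
      simp only [RingHom.id_apply] at p q ⊢
      simp only [add_smul, f3, Finset.sum_add_distrib, p, q]
    | single g u =>
      simp only [RingHom.id_apply, f2, ← Finset.smul_sum]
      congr 1
      refine Fintype.sum_equiv (MulAction.toPerm g⁻¹) _ _ fun q => ?_
      obtain ⟨⟨_, a, rfl⟩, e⟩ := QuotientGroup.mk_out_eq_mul s.range (g⁻¹ * q.out)
      have e2 : MulAction.toPerm g⁻¹ q = ((g⁻¹ * q.out : B) : B ⧸ s.range) := by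
        rw [MulAction.toPerm_apply]
        exact (MulAction.Quotient.coe_smul_out s.range g⁻¹ q).symm
      rw [e2, e]
      exact (f1 _ a x).symm
  · change g (∑ q : B ⧸ s.range, φ q.out x) = x
    simp only [φ, map_sum, map_smul, hσ, smul_smul, single_mul_single, mul_inv_cancel, mul_one]
    rw [Finset.sum_const, Finset.card_univ, ← Nat.cast_smul_eq_nsmul (MonoidAlgebra ℚ B),
      smul_smul, natCast_def, single_mul_single, one_mul,
      mul_inv_cancel₀ (Nat.cast_ne_zero.2 Fintype.card_ne_zero), ← one_def, one_smul]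

/-- From the two properties over the coefficient ring of the abelian factor. -/
theorem vf_ab (B A : Type) [Group B] [Group.FG B] (H : Subgroup B) [H.FiniteIndex] [IsFreeGroup H]
    [CommGroup A] {d : ℕ}
    (h1 : ∀ (X : Type) [Finite X], Ker (MonoidAlgebra (MonoidAlgebra ℚ A) (FreeGroup X)))
    (h2 : ∀ (X : Type) [Finite X], GD (MonoidAlgebra (MonoidAlgebra ℚ A) (FreeGroup X)) d) :
    Ker (MonoidAlgebra ℚ (B × A)) ∧ GD (MonoidAlgebra ℚ (B × A)) d := by
  let X := IsFreeGroup.Generators H
  let u : H ≃* FreeGroup X := IsFreeGroup.toFreeGroup H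
  have : Group.FG (FreeGroup X) := Group.fg_of_surjective (f := u.toMonoidHom) u.surjective
  have := finite_basis X
  let e : MonoidAlgebra ℚ (FreeGroup X × A) ≃+* MonoidAlgebra (MonoidAlgebra ℚ A) (FreeGroup X) :=
    MonoidAlgebra.curryRingEquiv
  let s : FreeGroup X × A →* B × A :=
    (H.subtype.comp u.symm.toMonoidHom).prodMap (MonoidHom.id A)
  have hs : Injective s := (H.subtype_injective.comp u.symm.injective).prodMap injective_id
  have : Finite ((B × A) ⧸ s.range) := by
    refine Finite.of_surjective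
      (fun q : B ⧸ H => (((q.out, 1) : B × A) : (B × A) ⧸ s.range)) fun q => ?_
    obtain ⟨⟨b, a⟩, rfl⟩ := QuotientGroup.mk_surjective q
    obtain ⟨h, e⟩ := QuotientGroup.mk_out_eq_mul H b
    refine ⟨(b : B ⧸ H), QuotientGroup.eq.2 ⟨(u h⁻¹, a), ?_⟩⟩
    rw [e]
    simp [s]
  exact ⟨(up s hs).1 ((up_equiv e.symm).1 (h1 X)), (up s hs).2 d ((up_equiv e.symm).2 d (h2 X))⟩

end Fam

end Pool.Agent.Lib.MP_2add11_gt.IG
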