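import Pool.Agent.Lib.MP_2add11_gt.FG.Tree

/-!
Locally finite attachments of cells: the facts of `FG.Cx` and `FG.Jump` without finiteness of the
set of cells.
-/

noncomputable section

namespace Pool.Agent.Lib.MP_2add11_gt.IG

open Set Metric Topology Filter Classical FG

variable {E Γ S : Type} [TopologicalSpace E] [Group Γ]

structure AttL {d : ℕ} (φ : S → (Fin d → ℝ) → E) (A B : Set E) : Prop extends Att φ A B where
  lf : LocallyFinite fun s => φ s '' closedBall 0 1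

namespace AttL

section

variable {d : ℕ} {φ : S → (Fin d → ℝ) → E} {A B : Set E} (h : AttL φ A B)
include h

theorem reindex {S' : Type} (a : S' ≃ S) : AttL (fun s => φ (a s)) A B :=
  ⟨h.toAtt.reindex a, h.lf.comp_injective a.injective⟩

theorem ev_all {x : E} {P : S → E → Prop}
    (hP : ∀ s, ∀ᶠ y in 𝓝 x, y ∈ φ s '' closedBall 0 1 → P s y) :
    ∀ᶠ y in 𝓝 x, ∀ s, y ∈ φ s '' closedBall 0 1 → P s y := by
  obtain ⟨U, hU, hf⟩ := h.lf x
  filter_upwards [hU, (eventually_all_finite hf).2 fun s _ => hP s] with y a b s hs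
  exact b s ⟨y, hs, a⟩ hs

variable [T2Space E]

theorem closed' : IsClosed B := by
  have : B = A ∪ ⋃ s, φ s '' closedBall 0 1 := by
    refine Subset.antisymm (fun y hy => ?_) (union_subset h.sub (iUnion_subset ?_))
    · rcases (h.mem y).1 hy with h1 | ⟨s, v, hv, rfl⟩
      exacts [.inl h1, .inr (mem_iUnion.2 ⟨s, v, ball_subset_closedBall hv, rfl⟩)]
    · rintro s _ ⟨v, hv, rfl⟩
      exact h.cell_mem s hv
  rw [this]
  exact h.closed.union (h.lf.isClosed_iUnion fun s =>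
    ((isCompact_closedBall _ _).image_of_continuousOn (h.cont s)).isClosed)

theorem ev {x : E} {P : E → Prop} (h1 : x ∈ A → ∀ᶠ y in 𝓝[A] x, P y)
    (h2 : ∀ s, ∀ v ∈ closedBall 0 1, φ s v = x → ∀ᶠ w in 𝓝[closedBall 0 1] v, P (φ s w)) :
    ∀ᶠ y in 𝓝[B] x, P y := by
  have h3 : ∀ᶠ y in 𝓝 x, y ∈ A → P y := by
    by_cases hx : x ∈ A
    · exact eventually_nhdsWithin_iff.1 (h1 hx)
    · filter_upwards [h.closed.isOpen_compl.mem_nhds hx] with y hy hy'
      exact absurd hy' hy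
  have h4 := h.ev_all (x := x) (P := fun _ y => P y) fun s =>
    (ev_image (isCompact_closedBall _ _) (h.cont s) (h2 s)).mono fun y hy => by
      rintro ⟨v, hv, rfl⟩
      exact hy v hv rfl
  filter_upwards [nhdsWithin_le_nhds h3, nhdsWithin_le_nhds h4, self_mem_nhdsWithin] with y a b c
  rcases (h.mem y).1 c with h5 | ⟨s, v, hv, rfl⟩
  exacts [a h5, b s ⟨v, ball_subset_closedBall hv, rfl⟩]

theorem ev_ne {x : E} (hx : ∀ s, φ s 0 ≠ x) : ∀ᶠ y in 𝓝 x, ∀ s, φ s 0 ≠ y :=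
  (h.ev_all (P := fun s y => φ s 0 ≠ y) fun s =>
    (eventually_ne_nhds (hx s).symm).mono fun _ e _ => Ne.symm e).mono fun _ a s e =>
      a s ⟨0, mem_closedBall_self zero_le_one, e⟩ e

theorem ev_cell (s : S) {v : Fin d → ℝ} (hv : v ∈ ball 0 1) {P : (Fin d → ℝ) → Prop}
    (hP : ∀ᶠ w in 𝓝 v, P w) : ∀ᶠ y in 𝓝[B] φ s v, ∃ w ∈ ball 0 1, φ s w = y ∧ P w := by
  refine h.ev (fun h1 => absurd h1 (h.nmem s v hv)) fun s' v' hv' e => ?_
  obtain ⟨rfl, rfl⟩ := h.inj' hv hv' e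
  filter_upwards [nhdsWithin_le_nhds hP, nhdsWithin_le_nhds (isOpen_ball.mem_nhds hv)] with w a b
  exact ⟨w, b, rfl, a⟩

theorem extend [SimplyConnectedSpace E] [LocallyPathConnectedSpace E] (hB : ∀ y, y ∈ B)
    {j : E → E → Γ} (hj : Coc j A) (hF : ∀ s, ∃ F, Triv j (φ s) (sphere 0 1) F) :
    ∃ F, Triv j id A F := by
  choose F hF using hF
  let n : (Fin d → ℝ) → Fin d → ℝ := fun w => ‖w‖⁻¹ • w
  have n1 : ∀ w, w ≠ 0 → ‖n w‖ = 1 := fun w hw => norm_smul_inv_norm hw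
  have n2 : ∀ w, w ≠ 0 → Tendsto n (𝓝 w) (𝓝[sphere 0 1] n w) := fun w hw =>
    tendsto_nhdsWithin_iff.2 ⟨(continuous_norm.continuousAt.inv₀ (norm_ne_zero_iff.2 hw)).smul
      continuousAt_id, (eventually_ne_nhds hw).mono fun y hy => mem_sphere_zero_iff_norm.2 (n1 y hy)⟩
  have b0 : (0 : Fin d → ℝ) ∈ ball 0 1 := mem_ball_self one_pos
  have : ∀ y, ∃ p : E × Γ, (y ∈ A → p.1 = y) ∧ ∀ s, ∀ w ∈ ball 0 1, φ s w = y →
      p = (φ s (n w), F s (n w)) := fun y => by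
    rcases (h.mem y).1 (hB y) with h1 | ⟨s, v, hv, rfl⟩
    · exact ⟨(y, 1), fun _ => rfl, fun s w hw e => absurd (e ▸ h1) (h.nmem s w hw)⟩
    · refine ⟨(φ s (n v), F s (n v)), fun h1 => absurd h1 (h.nmem s v hv), fun s' w hw e => ?_⟩
      obtain ⟨rfl, rfl⟩ := h.inj _ _ _ hw _ hv e
      rfl
  choose ρ r1 r2 using this
  have r3 : ∀ s, ∀ w ∈ closedBall 0 1, (ρ (φ s w)).1 = φ s (n w) := fun s w hw => by
    rcases h.cases s hw with h1 | h1
    · rw [r2 _ s w h1 rfl]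
    · rw [r1 _ h1.2]
      simp [n, h1.1]
  have hU : ∀ x, 𝓝[B] x = 𝓝 x := fun x => by rw [eq_univ_of_forall hB, nhdsWithin_univ]
  have r4 : ∀ x, (∀ s, φ s 0 ≠ x) → (ρ x).1 ∈ A := fun x hx => by
    rcases (h.mem x).1 (hB x) with h1 | ⟨s, v, hv, rfl⟩
    · rwa [r1 _ h1]
    · rw [r2 _ s v hv rfl]
      exact h.bd s _ (n1 v fun e => hx s (by rw [e]))
  have r5 : ∀ x, (∀ s, φ s 0 ≠ x) → Tendsto (fun y => (ρ y).1) (𝓝 x) (𝓝[A] (ρ x).1) := by
    refine fun x hx => tendsto_nhdsWithin_iff.2 ⟨fun U hU' => ?_, (h.ev_ne hx).mono r4⟩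
    rw [mem_map, ← hU]
    refine h.ev (fun h1 => ?_) fun s v hv e => ?_
    · rw [r1 _ h1] at hU'
      filter_upwards [nhdsWithin_le_nhds hU', self_mem_nhdsWithin] with y a b
      rwa [r1 _ b]
    · subst e
      have h0 : v ≠ 0 := fun e => hx s (by rw [e])
      rw [r3 s v hv] at hU'
      filter_upwards [nhdsWithin_le_nhds (((h.cont s _ (sphere_subset_closedBall
        (mem_sphere_zero_iff_norm.2 (n1 v h0)))).mono sphere_subset_closedBall).tendsto.comp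
        (n2 v h0) hU'), self_mem_nhdsWithin] with w a b
      rwa [r3 s w b]
  obtain ⟨G, hG⟩ := exists_triv' (fun x y => if ∀ s, φ s 0 ≠ x then j (ρ x).1 (ρ y).1 else
      if y = x then 1 else (ρ y).2) fun x => by
    by_cases hx : ∀ s, φ s 0 ≠ x
    · filter_upwards [h.ev_ne hx, (r5 x hx).eventually (hj _ (r4 x hx))] with y a b
      simp only [if_pos hx, if_pos a]
      exact (r5 y a).eventually b
    · simp only [if_neg hx]
      obtain ⟨s, rfl⟩ : ∃ s, φ s 0 = x := by simpa using hx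
      rw [← hU]
      filter_upwards [h.ev_cell s b0 (P := fun _ => True) (.of_forall fun _ => trivial)]
      rintro _ ⟨w, hw, rfl, -⟩
      by_cases h0 : w = 0
      · subst h0
        simp [if_neg hx]
      have h1 : ∀ w ∈ ball 0 1, w ≠ 0 → ∀ s', φ s' 0 ≠ φ s w := fun w hw h0 s' e =>
        h0 (h.inj _ _ _ b0 _ hw e).2.symm
      rw [← hU]
      filter_upwards [h.ev_cell s hw ((eventually_ne_nhds h0).and ((n2 w h0).eventually
        (hF s _ (mem_sphere_zero_iff_norm.2 (n1 w h0)))))]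
      rintro _ ⟨z, hz, rfl, z0, e⟩
      rw [if_neg (h1 z hz z0 s).symm, if_neg (h1 w hw h0 s).symm, if_pos (h1 w hw h0),
        r2 _ s z hz rfl, r2 _ s w hw rfl, e]
  refine ⟨G, fun x hx => ?_⟩
  filter_upwards [nhdsWithin_le_nhds (hG x), self_mem_nhdsWithin] with y a b
  rw [a, if_pos fun s (e : φ s 0 = x) => h.nmem s 0 b0 (e ▸ hx), r1 _ hx, r1 _ b]
  rfl

end

variable {φ : S → (Fin 1 → ℝ) → E} {A B : Set E} (h : AttL φ A B) [T2Space E]
include h

theorem coc (γ : S → Γ) : Coc (jump φ γ) B := by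
  intro x _
  by_cases hx : ∀ s, φ s 0 ≠ x
  · filter_upwards [nhdsWithin_le_nhds (h.ev_ne hx)] with y hy
    simp [jump_ne γ hx, jump_ne γ hy]
  obtain ⟨s, rfl⟩ : ∃ s, φ s 0 = x := by simpa using hx
  filter_upwards [h.ev_cell s b0 (P := fun _ => True) (.of_forall fun _ => trivial)]
  rintro _ ⟨w, hw, rfl, -⟩
  by_cases h0 : w = 0
  · subst h0
    simp [h.jump_mid γ s b0]
  filter_upwards [h.ev_cell s hw (ev_sign h0)]
  rintro _ ⟨z, hz, rfl, e⟩
  simp only [h.jump_mid γ s hz, h.jump_mid γ s hw, e, mul_one,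
    jump_ne γ (h.not_mid (ball_subset_closedBall hw) h0)]

theorem exists_word {l : ℝ → E} (hl : Continuous l) (hB : ∀ t, l t ∈ B) : ∃ r, IsWord φ l r := by
  obtain ⟨F, hF⟩ := (h.coc FreeGroup.of).exists hl hB (Icc 0 4)
  exact ⟨_, F, hF, rfl⟩

theorem cob {c : E → Γ} (hc : ∀ x ∈ A, ∀ᶠ y in 𝓝[A] x, c y = c x) :
    ∃ N, Triv (jump φ fun s => (c (φ s (-1)))⁻¹ * c (φ s 1)) id B N := by
  have : ∀ y, ∃ a : Γ, (y ∈ A → a = c y) ∧ ∀ s, ∀ w ∈ ball 0 1, φ s w = y →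
      a = c (φ s (if 0 < w 0 then 1 else -1)) := fun y => by
    by_cases h1 : ∃ s, ∃ w ∈ ball 0 1, φ s w = y
    · obtain ⟨s, v, hv, rfl⟩ := h1
      refine ⟨c (φ s (if 0 < v 0 then 1 else -1)), fun h1 => absurd h1 (h.nmem s v hv),
        fun s' w hw e => ?_⟩
      obtain ⟨rfl, rfl⟩ := h.inj _ _ _ hw _ hv e
      rfl
    · exact ⟨c y, fun _ => rfl, fun s w hw e => absurd ⟨s, w, hw, e⟩ h1⟩
  choose N n1 n2 using this
  have n3 : ∀ s, ∀ w ∈ closedBall 0 1, N (φ s w) = c (φ s (if 0 < w 0 then 1 else -1)) :=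
    fun s w hw => by
      rcases h.cases s hw with h1 | h1
      · exact n2 _ s w h1 rfl
      · rw [n1 _ h1.2, ← sphere1 h1.1]
  refine ⟨N, fun x _ => h.ev (fun hx => ?_) fun s v hv e => ?_⟩
  · filter_upwards [hc x hx, self_mem_nhdsWithin] with y a b
    rw [n1 _ b, n1 _ hx, id, jump_ne _ (h.not_mid' hx), mul_one, a]
  · subst e
    by_cases h0 : v = 0
    · subst h0
      filter_upwards [nhdsWithin_le_nhds (isOpen_ball.mem_nhds b0)] with w hw
      rw [id, id, h.jump_mid _ s hw, n2 _ s w hw rfl, n2 _ s 0 b0 rfl]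
      split_ifs <;> simp_all
    · filter_upwards [nhdsWithin_le_nhds (ev_sign h0), self_mem_nhdsWithin] with w a b
      simp only [id, jump_ne _ (h.not_mid hv h0), mul_one, n3 s w b, n3 s v hv, a]

theorem word_cob {c : E → Γ} (hc : ∀ x ∈ A, ∀ᶠ y in 𝓝[A] x, c y = c x) {l : ℝ → E}
    (hl : Continuous l) (hB : ∀ t, l t ∈ B) (h04 : l 0 = l 4) {r : FreeGroup S} (hr : IsWord φ l r) :
    FreeGroup.lift (fun s => (c (φ s (-1)))⁻¹ * c (φ s 1)) r = 1 := by
  obtain ⟨N, hN⟩ := h.cob hc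
  rw [hr.eval (hN.comp hl.continuousOn fun t _ => hB t), h04, inv_mul_cancel]

theorem word_inc {l : (Fin 2 → ℝ) → E} (hl : Continuous fun t => l (sqLoop t))
    (hB : ∀ t, l (sqLoop t) ∈ B) {r : FreeGroup S} (hr : IsWord φ (fun t => l (sqLoop t)) r)
    {s : S} {d : ℤ} (hd : Incidence l (φ s) d) :
    FreeGroup.lift (fun s' => Multiplicative.ofAdd (if s' = s then (1 : ℤ) else 0)) r =
      Multiplicative.ofAdd d := by
  obtain ⟨f, hf, h04, hs⟩ := hd
  rw [hr.eval (F := fun t => Multiplicative.ofAdd ⌈f t - 1 / 2⌉) fun t ht => ?_]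
  · rw [← ofAdd_neg, ← ofAdd_add, show f 4 - 1 / 2 = f 0 - 1 / 2 + d by linarith, Int.ceil_add_intCast]
    congr 1
    ring
  by_cases h1 : l (sqLoop t) = φ s 0
  · obtain ⟨k, hk⟩ := (hs t ht).1 0 b0 h1
    have h2 : ∀ᶠ u in 𝓝[Icc 0 4] t, |f u - f t| < 1 / 2 :=
      (Metric.tendsto_nhds.1 (hf t ht)) _ (by norm_num)
    have h3 : Tendsto (fun t => l (sqLoop t)) (𝓝 t) (𝓝[B] φ s 0) :=
      tendsto_nhdsWithin_iff.2 ⟨h1 ▸ hl.tendsto t, .of_forall hB⟩
    filter_upwards [h2, nhdsWithin_le_nhds (h3.eventually (h.ev_cell s b0 (P := fun _ => True)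
      (.of_forall fun _ => trivial))), self_mem_nhdsWithin]
    rintro u a ⟨w, hw, e, -⟩ hu
    obtain ⟨k', hk'⟩ := (hs u hu).1 w hw e.symm
    have h4 := ball1 hw
    rw [abs_lt, hk, hk'] at a
    simp only [Pi.zero_apply] at a hk
    obtain rfl : k' = k := by
      have h5 : (k' : ℝ) < k + 1 := by linarith [a.2, h4.1]
      have h6 : (k : ℝ) < k' + 1 := by linarith [a.1, h4.2]
      norm_cast at h5 h6
      omega
    rw [h1, ← e, h.jump_mid _ s hw, if_pos rfl, show f t - 1 / 2 = k' by linarith, Int.ceil_intCast]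
    split_ifs with h5
    · rw [← ofAdd_add, (Int.ceil_eq_iff (z := k' + 1)).2
        ⟨by push_cast; linarith, by push_cast; linarith [h4.2]⟩]
    · rw [mul_one, (Int.ceil_eq_iff (z := k')).2 ⟨by linarith [h4.1], by linarith⟩]
  · have h2 : f t - 1 / 2 < ⌈f t - 1 / 2⌉ := by
      refine (Int.le_ceil _).lt_of_ne fun e => ?_
      by_cases h3 : l (sqLoop t) ∈ φ s '' ball 0 1
      · obtain ⟨v, hv, e'⟩ := h3
        obtain ⟨k, hk⟩ := (hs t ht).1 v hv e'.symm
        have h4 := ball1 hv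
        have h5 : (⌈f t - 1 / 2⌉ : ℝ) < k + 1 := by linarith [h4.2]
        have h6 : (k : ℝ) < ⌈f t - 1 / 2⌉ + 1 := by linarith [h4.1]
        have h7 : ⌈f t - 1 / 2⌉ = k := by
          norm_cast at h5 h6
          omega
        rw [h7] at e
        refine h1 (e'.symm.trans (congrArg _ (funext fun i => ?_)))
        rw [Subsingleton.elim i 0, Pi.zero_apply]
        linarith
      · obtain ⟨k, hk⟩ := (hs t ht).2 h3
        have h5 : (2 * k : ℝ) = 2 * ⌈f t - 1 / 2⌉ + 1 := by linarith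
        norm_cast at h5
        omega
    have h3 : ContinuousWithinAt (fun u => f u - 1 / 2) (Icc 0 4) t :=
      (hf t ht).sub continuousWithinAt_const
    filter_upwards [h3.eventually (Ioo_mem_nhds (sub_lt_iff_lt_add.2 (Int.ceil_lt_add_one _)) h2)]
      with u hu
    rw [Int.ceil_eq_iff.2 ⟨hu.1, hu.2.le⟩, left_eq_mul, jump]
    split_ifs with h4 e
    exacts [absurd (by rw [← e, h4.choose_spec.1]) h1, rfl, rfl]

end AttL

end Pool.Agent.Lib.MP_2add11_gt.IG
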