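import Mathlib

/-! Finite presentability of finite free products and of virtually cyclic groups. -/

namespace IG

open Group Monoid

theorem fp_of_section {F G : Type*} [Group F] [Group G] [IsFinitelyPresented F] (φ : F →* G)
    (hs : Function.Surjective φ) (S : Set F) (hS : S.Finite) (h1 : ∀ s ∈ S, φ s = 1)
    (h2 : ∀ x, φ x = 1 → (QuotientGroup.mk x : F ⧸ Subgroup.normalClosure S) = 1) :
    IsFinitelyPresented G := by
  refine IsFinitelyPresented.of_surjective φ hs ⟨S, hS, le_antisymm ?_ ?_⟩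
  · exact Subgroup.normalClosure_le_normal fun s hs => h1 s hs
  · intro x hx
    exact (QuotientGroup.eq_one_iff x).1 (h2 x hx)

/-- a finite free product of finitely presented groups is finitely presented -/
theorem fp_coprodI {K : Type*} [Finite K] (G : K → Type*) [∀ i, Group (G i)]
    [h : ∀ i, IsFinitelyPresented (G i)] : IsFinitelyPresented (CoprodI G) := by
  choose n φ hφ S hS hker using fun i => (h i).out
  let Φ : FreeGroup (Σ i, Fin (n i)) →* CoprodI G :=
    FreeGroup.lift fun p => CoprodI.of (φ p.1 (FreeGroup.of p.2))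
  have hΦ : ∀ i (x : FreeGroup (Fin (n i))),
      Φ (FreeGroup.map (Sigma.mk (β := fun i => Fin (n i)) i) x) = CoprodI.of (φ i x) := by
    intro i x
    have : Φ.comp (FreeGroup.map (Sigma.mk (β := fun i => Fin (n i)) i))
        = (CoprodI.of : G i →* CoprodI G).comp (φ i) := by
      refine FreeGroup.ext_hom _ _ fun j => ?_
      simp [Φ]
    exact DFunLike.congr_fun this x
  let T : Set (FreeGroup (Σ i, Fin (n i))) :=
    ⋃ i, FreeGroup.map (Sigma.mk (β := fun i => Fin (n i)) i) '' S i
  have hle : ∀ i, (φ i).ker ≤ ((QuotientGroup.mk' (Subgroup.normalClosure T)).comp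
      (FreeGroup.map (Sigma.mk (β := fun i => Fin (n i)) i))).ker := by
    intro i
    rw [← hker i]
    refine Subgroup.normalClosure_le_normal fun s hs => ?_
    exact (QuotientGroup.eq_one_iff _).2
      (Subgroup.subset_normalClosure (Set.mem_iUnion.2 ⟨i, s, hs, rfl⟩))
  let ψ : ∀ i, G i →* FreeGroup (Σ i, Fin (n i)) ⧸ Subgroup.normalClosure T := fun i =>
    (φ i).liftOfRightInverse (Function.surjInv (hφ i)) (Function.rightInverse_surjInv (hφ i))
      ⟨_, hle i⟩
  have hψ : ∀ i x, ψ i (φ i x) = QuotientGroup.mk' (Subgroup.normalClosure T)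
      (FreeGroup.map (Sigma.mk (β := fun i => Fin (n i)) i) x) := fun i x =>
    (φ i).liftOfRightInverse_comp_apply _ _ ⟨_, hle i⟩ x
  refine fp_of_section Φ ?_ T (Set.finite_iUnion fun i => (hS i).image _) ?_ ?_
  · intro y
    induction y using CoprodI.induction_on with
    | one => exact ⟨1, map_one _⟩
    | of i m =>
      obtain ⟨x, rfl⟩ := hφ i m
      exact ⟨_, hΦ i x⟩
    | mul a b ha hb =>
      obtain ⟨x, rfl⟩ := ha
      obtain ⟨y, rfl⟩ := hb
      exact ⟨x * y, map_mul _ _ _⟩
  · intro s hs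
    obtain ⟨i, x, hx, rfl⟩ := Set.mem_iUnion.1 hs
    have : φ i x = 1 := by
      have h3 : x ∈ (φ i).ker := by
        rw [← hker i]
        exact Subgroup.subset_normalClosure hx
      exact h3
    rw [hΦ, this, map_one]
  · intro x hx
    have : (CoprodI.lift ψ).comp Φ = QuotientGroup.mk' (Subgroup.normalClosure T) := by
      refine FreeGroup.ext_hom _ _ fun p => ?_
      simp only [Φ, MonoidHom.comp_apply, FreeGroup.lift_apply_of, CoprodI.lift_of, hψ,
        FreeGroup.map.of]
    have h4 := DFunLike.congr_fun this x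
    rw [MonoidHom.comp_apply, hx, map_one] at h4
    exact h4.symm

theorem fp_normal_cyclic {G : Type*} [Group G] (t : G) [hN : (Subgroup.zpowers t).Normal]
    [hfi : (Subgroup.zpowers t).FiniteIndex] (ht : ∀ k : ℤ, t ^ k = 1 → k = 0) :
    IsFinitelyPresented G := by
  set N := Subgroup.zpowers t with hNdef
  let Q := G ⧸ N
  let σ : Q → G := Quotient.out
  have hσ : ∀ q : Q, (QuotientGroup.mk (σ q) : G ⧸ N) = q := fun q => Quotient.out_eq q
  have hc : ∀ q r : Q, ∃ k : ℤ, t ^ k = (σ (q * r))⁻¹ * (σ q * σ r) := by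
    intro q r
    have : (σ (q * r))⁻¹ * (σ q * σ r) ∈ N := by
      rw [← QuotientGroup.eq, QuotientGroup.mk_mul, hσ, hσ, hσ]
    exact Subgroup.mem_zpowers_iff.1 this
  have he : ∀ g : G, ∃ k : ℤ, t ^ k = g * t * g⁻¹ := fun g =>
    Subgroup.mem_zpowers_iff.1 (hN.conj_mem t (Subgroup.mem_zpowers t) g)
  choose c hc using hc
  choose e he using he
  let x : Q → FreeGroup (Option Q) := fun q => FreeGroup.of (some q)
  let τ : FreeGroup (Option Q) := FreeGroup.of none
  let Φ : FreeGroup (Option Q) →* G := FreeGroup.lift fun o => o.elim t σ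
  have hΦx : ∀ q, Φ (x q) = σ q := fun q => by simp [Φ, x]
  have hΦτ : Φ τ = t := by simp [Φ, τ]
  let S : Set (FreeGroup (Option Q)) :=
    (Set.range fun p : Q × Q => (τ ^ c p.1 p.2)⁻¹ * ((x (p.1 * p.2))⁻¹ * (x p.1 * x p.2))) ∪
    ((Set.range fun q : Q => (τ ^ e (σ q))⁻¹ * (x q * τ * (x q)⁻¹)) ∪
     (Set.range fun q : Q => (τ ^ e (σ q)⁻¹)⁻¹ * ((x q)⁻¹ * τ * (x q)⁻¹⁻¹)))
  have hS1 : ∀ s ∈ S, Φ s = 1 := by
    rintro s (⟨p, rfl⟩ | ⟨q, rfl⟩ | ⟨q, rfl⟩)
    · simp only [map_mul, map_inv, map_zpow, hΦx, hΦτ, hc, inv_mul_cancel]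
    · simp only [map_mul, map_inv, map_zpow, hΦx, hΦτ, he, inv_mul_cancel]
    · simp only [map_mul, map_inv, map_zpow, hΦx, hΦτ, he, inv_mul_cancel]
  refine fp_of_section Φ ?_ S
    ((Set.finite_range _).union ((Set.finite_range _).union (Set.finite_range _))) hS1 ?_
  · intro g
    have : (σ (QuotientGroup.mk g))⁻¹ * g ∈ N := by rw [← QuotientGroup.eq, hσ]
    obtain ⟨k, hk⟩ := Subgroup.mem_zpowers_iff.1 this
    refine ⟨x (QuotientGroup.mk g) * τ ^ k, ?_⟩
    rw [map_mul, map_zpow, hΦx, hΦτ, hk, mul_inv_cancel_left]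
  · let π := QuotientGroup.mk' (Subgroup.normalClosure S)
    have hπ : ∀ a b : FreeGroup (Option Q), a⁻¹ * b ∈ S → π a = π b := fun a b hab =>
      QuotientGroup.eq.2 (Subgroup.subset_normalClosure hab)
    let T := Subgroup.zpowers (π τ)
    have hconj : ∀ g, g * π τ * g⁻¹ ∈ T → ∀ h ∈ T, g * h * g⁻¹ ∈ T := by
      intro g hg h hh
      obtain ⟨k, rfl⟩ := Subgroup.mem_zpowers_iff.1 hh
      rw [← conj_zpow]
      exact T.zpow_mem hg k
    have hall : ∀ y : FreeGroup (Option Q), (∀ h ∈ T, π y * h * (π y)⁻¹ ∈ T) ∧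
        (∀ h ∈ T, (π y)⁻¹ * h * (π y)⁻¹⁻¹ ∈ T) := by
      intro y
      induction y using FreeGroup.induction_on with
      | C1 => simp
      | of o =>
        cases o with
        | none =>
          have := Subgroup.mem_zpowers (π τ)
          exact ⟨fun h hh => T.mul_mem (T.mul_mem this hh) (T.inv_mem this),
            fun h hh => T.mul_mem (T.mul_mem (T.inv_mem this) hh) (T.inv_mem (T.inv_mem this))⟩
        | some q =>
          refine ⟨hconj _ ?_, hconj _ ?_⟩
          · have := hπ _ _ (Or.inr (Or.inl ⟨q, rfl⟩))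
            simp only [map_mul, map_inv, map_zpow] at this
            exact this ▸ T.zpow_mem (Subgroup.mem_zpowers (π τ)) _
          · have := hπ _ _ (Or.inr (Or.inr ⟨q, rfl⟩))
            simp only [map_mul, map_inv, map_zpow] at this
            exact this ▸ T.zpow_mem (Subgroup.mem_zpowers (π τ)) _
      | inv_of o ih =>
        rw [map_inv]
        exact ⟨ih.2, by simpa using ih.1⟩
      | mul a b iha ihb =>
        rw [map_mul]
        refine ⟨fun h hh => ?_, fun h hh => ?_⟩
        · have := iha.1 _ (ihb.1 h hh)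
          simpa [mul_assoc] using this
        · have := ihb.2 _ (iha.2 h hh)
          simpa [mul_assoc] using this
    have hT : T.Normal := ⟨fun h hh g => by
      obtain ⟨y, rfl⟩ := QuotientGroup.mk'_surjective _ g
      exact (hall y).1 h hh⟩
    let ψ : Q →* (FreeGroup (Option Q) ⧸ Subgroup.normalClosure S) ⧸ T :=
      MonoidHom.mk' (fun q => QuotientGroup.mk (π (x q))) (fun q r => by
        rw [← QuotientGroup.mk_mul, QuotientGroup.eq]
        have := hπ _ _ (Or.inl ⟨(q, r), rfl⟩)
        simp only [map_mul, map_inv, map_zpow] at this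
        exact this ▸ T.zpow_mem (Subgroup.mem_zpowers (π τ)) _)
    have hcomp : ψ.comp ((QuotientGroup.mk' N).comp Φ) = (QuotientGroup.mk' T).comp π := by
      refine FreeGroup.ext_hom _ _ fun o => ?_
      cases o with
      | none =>
        have h1 : (QuotientGroup.mk' N) (Φ τ) = 1 := by
          rw [hΦτ]
          exact (QuotientGroup.eq_one_iff _).2 (Subgroup.mem_zpowers t)
        have h2 : (QuotientGroup.mk' T) (π τ) = 1 :=
          (QuotientGroup.eq_one_iff _).2 (Subgroup.mem_zpowers _)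
        show ψ ((QuotientGroup.mk' N) (Φ τ)) = (QuotientGroup.mk' T) (π τ)
        rw [h1, h2, map_one]
      | some q =>
        show ψ ((QuotientGroup.mk' N) (Φ (x q))) = (QuotientGroup.mk' T) (π (x q))
        rw [hΦx, QuotientGroup.mk'_apply, hσ]
        rfl
    intro y hy
    have h3 := DFunLike.congr_fun hcomp y
    simp only [MonoidHom.comp_apply, hy, map_one] at h3
    obtain ⟨k, hk⟩ := Subgroup.mem_zpowers_iff.1 ((QuotientGroup.eq_one_iff _).1 h3.symm)
    have hle : Subgroup.normalClosure S ≤ Φ.ker :=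
      Subgroup.normalClosure_le_normal fun s hs => hS1 s hs
    have h4 : (τ ^ k)⁻¹ * y ∈ Subgroup.normalClosure S := by
      rw [← map_zpow] at hk
      exact QuotientGroup.eq.1 hk
    have h5 : Φ ((τ ^ k)⁻¹ * y) = 1 := hle h4
    rw [map_mul, map_inv, map_zpow, hΦτ, hy, mul_one, inv_eq_one] at h5
    have h6 := ht k h5
    rw [h6, zpow_zero] at hk
    exact hk.symm

/-- a group with a cyclic subgroup of finite index is finitely presented -/
theorem fp_virtCyclic {G : Type*} [Group G] (t : G) (h : (Subgroup.zpowers t).FiniteIndex) :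
    IsFinitelyPresented G := by
  have hle := (Subgroup.zpowers t).normalCore_le
  obtain ⟨n, hn⟩ := (Subgroup.le_zpowers_iff t _).1 hle
  have h1 : (Subgroup.zpowers (t ^ n)).Normal := hn ▸ inferInstance
  have h2 : (Subgroup.zpowers (t ^ n)).FiniteIndex := hn ▸ inferInstance
  by_cases hf : IsOfFinOrder (t ^ n)
  · have : Finite (Subgroup.zpowers (t ^ n)) := (finite_zpowers.2 hf).to_subtype
    have : Finite G := Subgroup.finite_iff_finite_and_finiteIndex _ |>.2 ⟨this, h2⟩
    infer_instance
  · refine fp_normal_cyclic (t ^ n) fun k hk => ?_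
    by_contra hk0
    exact hf (isOfFinOrder_iff_zpow_eq_one.2 ⟨k, hk0, hk⟩)

theorem fp_of_isCyclic {G : Type*} [Group G] (H : Subgroup G) [IsCyclic H] [h : H.FiniteIndex] :
    IsFinitelyPresented G := by
  obtain ⟨t, ht⟩ := (Subgroup.isCyclic_iff_exists_zpowers_eq_top H).1 inferInstance
  exact fp_virtCyclic t (ht ▸ h)

/-- finite-by-cyclic groups (finite kernel to `ℤ`) are finitely presented -/
theorem fp_of_finite_ker {G : Type*} [Group G] (f : G →* Multiplicative ℤ) [Finite f.ker] :
    IsFinitelyPresented G := by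
  obtain ⟨u, hu⟩ := (Subgroup.isCyclic_iff_exists_zpowers_eq_top f.range).1 inferInstance
  obtain ⟨t, rfl⟩ : u ∈ f.range := hu ▸ Subgroup.mem_zpowers u
  have hfin : Finite (G ⧸ Subgroup.zpowers t) := by
    refine Finite.of_surjective (fun x : f.ker => (QuotientGroup.mk x.1 : G ⧸ Subgroup.zpowers t)) ?_
    intro q
    obtain ⟨g, rfl⟩ := QuotientGroup.mk_surjective q
    have hg : f g ∈ Subgroup.zpowers (f t) := hu ▸ ⟨g, rfl⟩
    obtain ⟨k, hk⟩ := Subgroup.mem_zpowers_iff.1 hg
    refine ⟨⟨g * (t ^ k)⁻¹, ?_⟩, ?_⟩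
    · rw [MonoidHom.mem_ker, map_mul, map_inv, map_zpow, hk, mul_inv_cancel]
    · refine QuotientGroup.eq.2 ?_
      simp
  exact fp_virtCyclic t Subgroup.finiteIndex_of_finite_quotient

theorem fp_prod_int (F : Type*) [Group F] [Finite F] :
    IsFinitelyPresented (F × Multiplicative ℤ) := by
  have : Finite (MonoidHom.snd F (Multiplicative ℤ)).ker := by
    refine Finite.of_injective (fun x => x.1.1) fun x y hxy => Subtype.ext (Prod.ext hxy ?_)
    exact (show x.1.2 = 1 from x.2).trans (show y.1.2 = 1 from y.2).symm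
  exact fp_of_finite_ker (MonoidHom.snd F (Multiplicative ℤ))

theorem fp_semidirect_int (F : Type*) [Group F] [Finite F] (φ : Multiplicative ℤ →* MulAut F) :
    IsFinitelyPresented (F ⋊[φ] Multiplicative ℤ) := by
  have : Finite (SemidirectProduct.rightHom : F ⋊[φ] Multiplicative ℤ →* _).ker := by
    refine Finite.of_injective (fun x => x.1.left) fun x y hxy =>
      Subtype.ext (SemidirectProduct.ext hxy ?_)
    exact (show x.1.right = 1 from x.2).trans (show y.1.right = 1 from y.2).symm
  exact fp_of_finite_ker SemidirectProduct.rightHom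

end IG
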