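import Pool.Agent.Lib.MP_2add11_gt.IG.FP
import Pool.Agent.Lib.MP_2add11_gt.IG.Tree

/-!
Closure properties of finite presentability (all classical): finite index in both directions,
retracts, direct products, amalgams, groups acting on trees, virtually free groups.
-/

namespace Pool.Agent.Lib.MP_2add11_gt.IG

open Group Monoid Subgroup

theorem fg_of_fp (G : Type*) [Group G] [h : IsFinitelyPresented G] : Group.FG G := by
  obtain ⟨n, φ, hφ, -⟩ := h.out
  exact Group.fg_of_surjective hφ

/-- B. H. Neumann: the kernel of a map of a finitely generated group onto a finitely presented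
group is the normal closure of a finite set. -/
theorem fp_ker {M H : Type*} [Group M] [Group H] [hM : Group.FG M] [h : IsFinitelyPresented H]
    (f : M →* H) (hf : Function.Surjective f) : f.ker.IsFinitelyNormallyGenerated := by
  obtain ⟨n, ψ, hψ, R, hR, hker⟩ := h.out
  obtain ⟨T, hT, hTf⟩ := Group.fg_iff.1 hM
  choose σ hσ using hf
  choose w hw using hψ
  let ψ' : FreeGroup (Fin n) →* M := FreeGroup.lift fun i => σ (ψ (FreeGroup.of i))
  have h1 : ∀ x, f (ψ' x) = ψ x := by
    have : f.comp ψ' = ψ := FreeGroup.ext_hom _ _ fun i => by simp [ψ', hσ]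
    exact DFunLike.congr_fun this
  let S : Set M := ψ' '' R ∪ (fun t => t⁻¹ * ψ' (w (f t))) '' T
  have hle : normalClosure S ≤ f.ker := normalClosure_le_normal (by
    rintro _ (⟨r, hr, rfl⟩ | ⟨t, -, rfl⟩)
    · have : r ∈ ψ.ker := hker ▸ subset_normalClosure hr
      simpa [h1] using this
    · simp [h1, hw])
  refine ⟨S, (hR.image _).union (hTf.image _), le_antisymm hle fun x hx => ?_⟩
  let q := QuotientGroup.mk' (normalClosure S)
  have hs : ∀ x, q x ∈ (q.comp ψ').range := by
    have : ⊤ ≤ (q.comp ψ').range.comap q := by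
      rw [← hT, closure_le]
      intro t ht
      have h4 : t⁻¹ * ψ' (w (f t)) ∈ normalClosure S :=
        subset_normalClosure (Or.inr ⟨t, ht, rfl⟩)
      exact ⟨w (f t), (QuotientGroup.eq.2 h4).symm⟩
    exact fun x => this (mem_top x)
  obtain ⟨u, hu⟩ := hs x
  have hu' : x⁻¹ * ψ' u ∈ normalClosure S := QuotientGroup.eq.1 hu.symm
  have h2 : u ∈ ψ.ker := by
    have := hle hu'
    rw [MonoidHom.mem_ker] at this hx ⊢
    rwa [map_mul, map_inv, hx, inv_one, one_mul, h1] at this
  have h3 : ψ.ker ≤ (normalClosure S).comap ψ' := by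
    rw [← hker]
    exact normalClosure_le_normal fun r hr => subset_normalClosure (Or.inl ⟨r, hr, rfl⟩)
  have := (normalClosure S).mul_mem (h3 h2) ((normalClosure S).inv_mem hu')
  simpa using this

theorem fp_retract {G P : Type*} [Group G] [Group P] [IsFinitelyPresented P] (i : G →* P)
    (r : P →* G) (h : ∀ x, r (i x) = x) : IsFinitelyPresented G := by
  obtain ⟨T, hT, hTf⟩ := Group.fg_iff.1 (fg_of_fp P)
  refine _root_.IG.fp_of_section r (fun x => ⟨i x, h x⟩) ((fun t => t⁻¹ * i (r t)) '' T)
    (hTf.image _) (by rintro _ ⟨t, -, rfl⟩; simp [h]) fun x hx => ?_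
  let q := QuotientGroup.mk' (normalClosure ((fun t => t⁻¹ * i (r t)) '' T))
  have : q = q.comp (i.comp r) := MonoidHom.eq_of_eqOn_dense hT fun t ht =>
    QuotientGroup.eq.2 (subset_normalClosure ⟨t, ht, rfl⟩)
  have h2 := DFunLike.congr_fun this x
  rw [MonoidHom.comp_apply, MonoidHom.comp_apply, hx, map_one, map_one] at h2
  exact h2

theorem fp_free (G : Type*) [Group G] [IsFreeGroup G] [hG : Group.FG G] :
    IsFinitelyPresented G := by
  obtain ⟨α, _, φ, hφ⟩ := Group.fg_iff_exists_freeGroup_hom_surjective_finite.1 hG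
  choose σ hσ using hφ
  refine fp_retract (IsFreeGroup.lift fun a => σ (IsFreeGroup.of a)) φ ?_
  have : φ.comp (IsFreeGroup.lift fun a => σ (IsFreeGroup.of a)) = MonoidHom.id G :=
    IsFreeGroup.ext_hom fun a => by simp [hσ]
  exact DFunLike.congr_fun this

theorem fg_up {G : Type*} [Group G] (H : Subgroup G) [H.FiniteIndex] [hH : Group.FG H] :
    Group.FG G := by
  obtain ⟨S, hS, hSf⟩ := (Subgroup.fg_iff H).1 ((Group.fg_iff_subgroup_fg H).1 hH)
  refine Group.fg_iff.2 ⟨S ∪ Set.range fun c : G ⧸ H => c.out, top_unique fun g _ => ?_,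
    hSf.union (Set.finite_range _)⟩
  obtain ⟨h, hh⟩ := QuotientGroup.mk_out_eq_mul H g
  have h1 : (h : G) ∈ closure (S ∪ Set.range fun c : G ⧸ H => c.out) :=
    closure_mono Set.subset_union_left (hS ▸ h.2)
  have h2 : g * h ∈ closure (S ∪ Set.range fun c : G ⧸ H => c.out) :=
    subset_closure (Or.inr ⟨_, hh⟩)
  simpa using mul_mem h2 (inv_mem h1)

theorem finiteIndex_comap {F G : Type*} [Group F] [Group G] {φ : F →* G}
    (hφ : Function.Surjective φ) (H : Subgroup G) [h : H.FiniteIndex] :
    (H.comap φ).FiniteIndex :=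
  ⟨by rw [index_comap_of_surjective H hφ]; exact h.index_ne_zero⟩

/-- A group with a finitely presented subgroup of finite index is finitely presented. -/
theorem fp_up {G : Type*} [Group G] (H : Subgroup G) [H.FiniteIndex] [IsFinitelyPresented H] :
    IsFinitelyPresented G := by
  have := fg_of_fp H
  obtain ⟨α, _, φ, hφ⟩ := Group.fg_iff_exists_freeGroup_hom_surjective_finite.1 (fg_up H)
  have := finiteIndex_comap hφ H
  have : Group.FG (FreeGroup α) := fg_of_fp _
  obtain ⟨S, hS, hker⟩ := fp_ker (φ.subgroupComap H)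
    (φ.subgroupComap_surjective_of_surjective H hφ)
  refine IsFinitelyPresented.of_surjective φ hφ ⟨(H.comap φ).subtype '' S, hS.image _,
    le_antisymm (normalClosure_le_normal ?_) fun x hx => ?_⟩
  · rintro _ ⟨s, hs, rfl⟩
    have : s ∈ (φ.subgroupComap H).ker := hker ▸ subset_normalClosure hs
    exact congrArg Subtype.val (MonoidHom.mem_ker.1 this)
  · have hx' : φ x = 1 := hx
    have h1 : x ∈ H.comap φ := by rw [mem_comap, hx']; exact H.one_mem
    have h2 : (φ.subgroupComap H).ker ≤
        (normalClosure ((H.comap φ).subtype '' S)).comap (H.comap φ).subtype := by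
      rw [← hker]
      exact normalClosure_le_normal fun s hs => subset_normalClosure ⟨s, hs, rfl⟩
    exact h2 (x := ⟨x, h1⟩) (MonoidHom.mem_ker.2 (Subtype.ext hx'))

/-- Reidemeister and Schreier. -/
theorem fp_down {G : Type*} [Group G] [h : IsFinitelyPresented G] (H : Subgroup G)
    [H.FiniteIndex] : IsFinitelyPresented H := by
  obtain ⟨n, φ, hφ, R, hR, hker⟩ := h.out
  have := finiteIndex_comap hφ H
  have : Group.FG (FreeGroup (Fin n)) := fg_of_fp _
  have := fp_free (H.comap φ)
  have hR1 : ∀ r ∈ R, φ r = 1 := fun r hr =>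
    MonoidHom.mem_ker.1 (hker ▸ subset_normalClosure hr)
  let S : Set (H.comap φ) := (H.comap φ).subtype ⁻¹'
    Set.image2 (fun (c : FreeGroup (Fin n) ⧸ H.comap φ) r => c.out⁻¹ * r * c.out) Set.univ R
  refine IsFinitelyPresented.of_surjective (φ.subgroupComap H)
    (φ.subgroupComap_surjective_of_surjective H hφ) ⟨S,
    (Set.finite_univ.image2 _ hR).preimage Subtype.val_injective.injOn,
    le_antisymm (normalClosure_le_normal ?_) fun x hx => ?_⟩
  · rintro s ⟨c, -, r, hr, hs⟩
    refine MonoidHom.mem_ker.2 (Subtype.ext ?_)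
    change φ ((H.comap φ).subtype s) = 1
    rw [← hs]
    simp [hR1 r hr]
  · have h1 : φ.ker ≤ (normalClosure S).map (H.comap φ).subtype := by
      rw [← hker, normalClosure, closure_le]
      intro y hy
      obtain ⟨r, hr, hc⟩ := Group.mem_conjugatesOfSet_iff.1 hy
      obtain ⟨g, rfl⟩ := isConj_iff.1 hc
      obtain ⟨m, hm⟩ := QuotientGroup.mk_out_eq_mul (H.comap φ) g⁻¹
      have h2 : (g⁻¹ * m)⁻¹ * r * (g⁻¹ * m) ∈ H.comap φ := by
        rw [mem_comap, map_mul, map_mul, hR1 r hr, mul_one, map_inv, inv_mul_cancel]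
        exact H.one_mem
      have h3 : (⟨_, h2⟩ : H.comap φ) ∈ normalClosure S :=
        subset_normalClosure ⟨_, Set.mem_univ (QuotientGroup.mk g⁻¹), r, hr, by
          dsimp only; rw [hm]; rfl⟩
      refine ⟨_, normalClosure_normal.conj_mem _ h3 m, ?_⟩
      change (m : FreeGroup (Fin n)) * ((g⁻¹ * m)⁻¹ * r * (g⁻¹ * m)) * (m : FreeGroup (Fin n))⁻¹ = _
      group
    obtain ⟨y, hy, hyx⟩ := h1 (x := x.1) (congrArg Subtype.val (MonoidHom.mem_ker.1 hx))
    exact (Subtype.ext hyx : y = x) ▸ hy

theorem fp_prod (G H : Type*) [Group G] [Group H] [IsFinitelyPresented G]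
    [IsFinitelyPresented H] : IsFinitelyPresented (G × H) := by
  obtain ⟨A, hA, hAf⟩ := Group.fg_iff.1 (fg_of_fp G)
  obtain ⟨B, hB, hBf⟩ := Group.fg_iff.1 (fg_of_fp H)
  let S : Set (Coprod G H) := Set.image2
    (fun a b => (Coprod.inl a * Coprod.inr b)⁻¹ * (Coprod.inr b * Coprod.inl a)) A B
  let q := QuotientGroup.mk' (normalClosure S)
  have hc : ∀ a b, Commute ((q.comp Coprod.inl) a) ((q.comp Coprod.inr) b) := by
    intro a b
    have ha : a ∈ closure A := hA ▸ mem_top a
    have hb : b ∈ closure B := hB ▸ mem_top b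
    induction ha using closure_induction with
    | one => rw [map_one]; exact Commute.one_left _
    | mul x y _ _ hx hy => rw [map_mul]; exact hx.mul_left hy
    | inv x _ hx => rw [map_inv]; exact hx.inv_left
    | mem a ha =>
      induction hb using closure_induction with
      | one => rw [map_one]; exact Commute.one_right _
      | mul x y _ _ hx hy => rw [map_mul]; exact hx.mul_right hy
      | inv x _ hx => rw [map_inv]; exact hx.inv_right
      | mem b hb =>
        change q _ * q _ = q _ * q _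
        rw [← map_mul, ← map_mul]
        exact QuotientGroup.eq.2 (subset_normalClosure ⟨a, ha, b, hb, rfl⟩)
  refine _root_.IG.fp_of_section Coprod.toProd Coprod.toProd_surjective S (hAf.image2 _ hBf)
    (by rintro _ ⟨a, -, b, -, rfl⟩; simp) fun x hx => ?_
  have : (MonoidHom.noncommCoprod _ _ hc).comp Coprod.toProd = q := by
    ext x <;> simp
  have h2 := DFunLike.congr_fun this x
  rw [MonoidHom.comp_apply, hx, map_one] at h2
  exact h2.symm

theorem fp_pushoutI {K B : Type*} [Finite K] {G : K → Type*} [∀ i, Group (G i)] [Group B]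
    (φ : ∀ i, B →* G i) [∀ i, IsFinitelyPresented (G i)] [IsFinitelyPresented B] :
    IsFinitelyPresented (PushoutI φ) := by
  have := _root_.IG.fp_coprodI G
  obtain ⟨T, hT, hTf⟩ := Group.fg_iff.1 (fg_of_fp B)
  let S : Set (Coprod (CoprodI G) B) := Set.image2
    (fun i b => (Coprod.inl (CoprodI.of (φ i b)))⁻¹ * Coprod.inr b) Set.univ T
  let q := QuotientGroup.mk' (normalClosure S)
  let Φ : Coprod (CoprodI G) B →* PushoutI φ :=
    Coprod.lift (CoprodI.lift fun i => PushoutI.of i) (PushoutI.base φ)
  have hq : ∀ i, (q.comp (Coprod.inl.comp (CoprodI.of (i := i)))).comp (φ i) =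
      q.comp Coprod.inr := fun i => MonoidHom.eq_of_eqOn_dense hT fun t ht =>
    QuotientGroup.eq.2 (subset_normalClosure ⟨i, Set.mem_univ i, t, ht, rfl⟩)
  refine _root_.IG.fp_of_section Φ (fun y => ?_) S (Set.finite_univ.image2 _ hTf)
    (by rintro _ ⟨i, -, b, -, rfl⟩; simp [Φ, PushoutI.of_apply_eq_base]) fun x hx => ?_
  · induction y using PushoutI.induction_on with
    | of i g => exact ⟨Coprod.inl (CoprodI.of g), by simp [Φ]⟩
    | base b => exact ⟨Coprod.inr b, by simp [Φ]⟩
    | mul a b ha hb =>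
      obtain ⟨x, rfl⟩ := ha
      obtain ⟨y, rfl⟩ := hb
      exact ⟨x * y, map_mul _ _ _⟩
  · have : (PushoutI.lift _ _ hq).comp Φ = q := by
      refine Coprod.hom_ext (CoprodI.ext_hom _ _ fun i => MonoidHom.ext fun g => ?_)
        (MonoidHom.ext fun b => ?_) <;> simp [Φ]
    have h2 := DFunLike.congr_fun this x
    rw [MonoidHom.comp_apply, hx, map_one] at h2
    exact h2.symm

theorem fp_wr (K Q E : Type) [Group K] [Group Q] [MulAction Q E] [IsFinitelyPresented K]
    [Finite Q] [Finite E] : IsFinitelyPresented (Wr K Q E) := by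
  have : IsFinitelyPresented (Fp K E) := _root_.IG.fp_coprodI _
  have h1 : IsFinitelyPresented (SemidirectProduct.inl : Fp K E →* Wr K Q E).range :=
    IsFinitelyPresented.equiv (MonoidHom.ofInjective SemidirectProduct.inl_injective)
  rw [SemidirectProduct.range_inl_eq_ker_rightHom] at h1
  exact fp_up (SemidirectProduct.rightHom : Wr K Q E →* Q).ker

/-- A group acting on a tree with finitely many orbits of darts and a subgroup of finite index
acting freely on the vertices is finitely presented. -/
theorem fp_tree (G V : Type) [Group G] [MulAction G V] (T : SimpleGraph V) (hT : T.IsTree)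
    (hG : ∀ (g : G) x y, T.Adj x y → T.Adj (g • x) (g • y))
    (s : Set (V × V)) (hs : s.Finite) (hc : ∀ x y, T.Adj x y → ∃ g : G, (g • x, g • y) ∈ s)
    (N : Subgroup G) [N.FiniteIndex] (h1 : ∀ n ∈ N, ∀ x : V, n • x = x → n = 1) :
    IsFinitelyPresented G := by
  obtain ⟨Q, E, _, _, _, _, H, _, f, g, h⟩ := tree_retract' G V T hT hG s hs hc N h1
  have := fp_wr (Multiplicative (ZMod 2)) Q E
  have := fp_down H
  exact fp_retract f g h

/-- A finitely generated virtually free group is finitely presented. -/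
theorem fp_virtFree {G : Type*} [Group G] [Group.FG G] (H : Subgroup G) [H.FiniteIndex]
    [IsFreeGroup H] : IsFinitelyPresented G := by
  have := fp_free H
  exact fp_up H

end Pool.Agent.Lib.MP_2add11_gt.IG
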