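import Pool.Agent.Lib.MP_2add11_gt.IG.FPclo

/-!
Extensions of finitely presented groups are finitely presented (P. Hall; classical).
-/

namespace Pool.Agent.Lib.MP_2add11_gt.IG

open Group Monoid Subgroup

theorem fp_ext {G : Type*} [Group G] (N : Subgroup G) [hN : N.Normal] [IsFinitelyPresented N]
    [h : IsFinitelyPresented (G ⧸ N)] : IsFinitelyPresented G := by
  obtain ⟨n, ψ, hψ, R, hR, hker⟩ := h.out
  obtain ⟨A, hA, hAf⟩ := Group.fg_iff.1 (fg_of_fp N)
  let lam : FreeGroup (Fin n) →* G := FreeGroup.lift fun i => (ψ (FreeGroup.of i)).out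
  have h1 : ∀ w, QuotientGroup.mk' N (lam w) = ψ w := by
    have : (QuotientGroup.mk' N).comp lam = ψ := FreeGroup.ext_hom _ _ fun i => by simp [lam]
    exact DFunLike.congr_fun this
  have h2 : ∀ r : R, lam r ∈ N := fun r => by
    have : r.1 ∈ ψ.ker := hker ▸ subset_normalClosure r.2
    exact (QuotientGroup.eq_one_iff _).1 ((h1 r).trans this)
  let Φ : Coprod N (FreeGroup (Fin n)) →* G := Coprod.lift N.subtype lam
  let B : Set (FreeGroup (Fin n)) := Set.range FreeGroup.of ∪ Set.range fun i => (FreeGroup.of i)⁻¹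
  have hB : B.Finite := (Set.finite_range _).union (Set.finite_range _)
  have : Finite R := hR
  let S : Set (Coprod N (FreeGroup (Fin n))) :=
    Set.image2 (fun b a => (Coprod.inr b * Coprod.inl a * (Coprod.inr b)⁻¹)⁻¹ *
      Coprod.inl (MulAut.conjNormal (lam b) a)) B A ∪
    Set.range fun r : R => (Coprod.inr r.1)⁻¹ * Coprod.inl ⟨lam r, h2 r⟩
  have hS : ∀ s ∈ S, Φ s = 1 := by
    rintro _ (⟨b, -, a, -, rfl⟩ | ⟨r, rfl⟩)
    · simp [Φ, mul_assoc]
    · simp [Φ]
  have hle : normalClosure S ≤ Φ.ker := normalClosure_le_normal hS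
  let q := QuotientGroup.mk' (normalClosure S)
  let N' := (q.comp Coprod.inl).range
  have hb : ∀ b ∈ B, ∀ a : N, q (Coprod.inr b) * q (Coprod.inl a) * (q (Coprod.inr b))⁻¹ ∈ N' := by
    intro b hb a
    have : (MulAut.conj (q (Coprod.inr b))).toMonoidHom.comp (q.comp Coprod.inl) =
        (q.comp Coprod.inl).comp (MulAut.conjNormal (lam b)).toMonoidHom :=
      MonoidHom.eq_of_eqOn_dense hA fun t ht => by
        have h4 : (Coprod.inr b * Coprod.inl t * (Coprod.inr b)⁻¹)⁻¹ *
            Coprod.inl (MulAut.conjNormal (lam b) t) ∈ normalClosure S :=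
          subset_normalClosure (Or.inl ⟨b, hb, t, ht, rfl⟩)
        exact QuotientGroup.eq.2 h4
    exact ⟨_, (DFunLike.congr_fun this a).symm⟩
  have hw : ∀ y, ∀ z ∈ N', q y * z * (q y)⁻¹ ∈ N' := by
    have hmul : ∀ x y, (∀ z ∈ N', q x * z * (q x)⁻¹ ∈ N') → (∀ z ∈ N', q y * z * (q y)⁻¹ ∈ N') →
        ∀ z ∈ N', q (x * y) * z * (q (x * y))⁻¹ ∈ N' := fun x y hx hy z hz => by
      have := hx _ (hy z hz)
      simpa only [map_mul, mul_inv_rev, mul_assoc] using this
    intro y
    induction y using Coprod.induction_on with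
    | inl a =>
      exact fun z hz => mul_mem (mul_mem ⟨a, rfl⟩ hz) (inv_mem ⟨a, rfl⟩)
    | mul x y hx hy => exact hmul x y hx hy
    | inr w =>
      induction w using FreeGroup.induction_on with
      | C1 => simp
      | of i => rintro _ ⟨a, rfl⟩; exact hb _ (Or.inl ⟨i, rfl⟩) a
      | inv_of i _ => rintro _ ⟨a, rfl⟩; exact hb _ (Or.inr ⟨i, rfl⟩) a
      | mul x y hx hy => rw [map_mul]; exact hmul _ _ hx hy
  have hN' : N'.Normal := ⟨fun z hz g => by
    obtain ⟨y, rfl⟩ := QuotientGroup.mk'_surjective _ g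
    exact hw y z hz⟩
  let κ := (QuotientGroup.mk' N').comp q
  have h5 : κ = (κ.comp Coprod.inr).comp Coprod.snd := by
    refine Coprod.hom_ext (MonoidHom.ext fun a => ?_) (MonoidHom.ext fun w => by simp)
    simp only [MonoidHom.comp_apply, Coprod.snd_apply_inl, map_one]
    exact (QuotientGroup.eq_one_iff _).2 ⟨a, rfl⟩
  have h6 : (QuotientGroup.mk' N).comp Φ = ψ.comp Coprod.snd := by
    refine Coprod.hom_ext (MonoidHom.ext fun a => ?_) (MonoidHom.ext fun w => ?_)
    · simp [Φ]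
    · simpa [Φ] using h1 w
  have h7 : ψ.ker ≤ (κ.comp Coprod.inr).ker := by
    rw [← hker]
    refine normalClosure_le_normal fun r hr => (QuotientGroup.eq_one_iff _).2 ⟨⟨lam r, h2 ⟨r, hr⟩⟩, ?_⟩
    have h4 : (Coprod.inr r)⁻¹ * Coprod.inl ⟨lam r, h2 ⟨r, hr⟩⟩ ∈ normalClosure S :=
      subset_normalClosure (Or.inr ⟨⟨r, hr⟩, rfl⟩)
    exact (QuotientGroup.eq.2 h4).symm
  refine _root_.IG.fp_of_section Φ (fun g => ?_) S
    ((hB.image2 _ hAf).union (Set.finite_range _)) hS fun x hx => ?_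
  · obtain ⟨w, hw⟩ := hψ (QuotientGroup.mk' N g)
    have h8 : (lam w)⁻¹ * g ∈ N := QuotientGroup.eq.1 ((h1 w).trans hw)
    exact ⟨Coprod.inr w * Coprod.inl ⟨_, h8⟩, by simp [Φ]⟩
  · have h8 : Coprod.snd x ∈ ψ.ker := by
      have := DFunLike.congr_fun h6 x
      rw [MonoidHom.comp_apply, hx, map_one] at this
      exact this.symm
    have h9 : κ x = 1 := by rw [h5]; exact h7 h8
    obtain ⟨a, ha⟩ := (QuotientGroup.eq_one_iff (N := N') _).1 h9
    have h10 : (Coprod.inl a)⁻¹ * x ∈ normalClosure S := QuotientGroup.eq.1 ha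
    have h11 : a = 1 := by
      have := MonoidHom.mem_ker.1 (hle h10)
      rw [map_mul, hx, mul_one, map_inv, inv_eq_one] at this
      exact Subtype.ext (by simpa [Φ] using this)
    rw [h11, map_one] at ha
    exact ha.symm

theorem fp_semidirect {N Q : Type*} [Group N] [Group Q] (φ : Q →* MulAut N)
    [IsFinitelyPresented N] [IsFinitelyPresented Q] : IsFinitelyPresented (N ⋊[φ] Q) := by
  have h1 : IsFinitelyPresented (SemidirectProduct.inl : N →* N ⋊[φ] Q).range :=
    IsFinitelyPresented.equiv (MonoidHom.ofInjective SemidirectProduct.inl_injective)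
  rw [SemidirectProduct.range_inl_eq_ker_rightHom] at h1
  have := IsFinitelyPresented.equiv (QuotientGroup.quotientKerEquivOfSurjective
    (SemidirectProduct.rightHom : N ⋊[φ] Q →* Q) SemidirectProduct.rightHom_surjective).symm
  exact fp_ext (SemidirectProduct.rightHom : N ⋊[φ] Q →* Q).ker

theorem fp_wr' (K Q E : Type) [Group K] [Group Q] [MulAction Q E] [IsFinitelyPresented K]
    [IsFinitelyPresented Q] [Finite E] : IsFinitelyPresented (Wr K Q E) := by
  have : IsFinitelyPresented (Fp K E) := _root_.IG.fp_coprodI _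
  exact fp_semidirect _

end Pool.Agent.Lib.MP_2add11_gt.IG
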