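import Pool.Agent.Lib.MP_2add11_gt.IG.FamCP
import Pool.Agent.Lib.MP_2add11_gt.IG.Kps

/-!
Finitely generated virtually free groups times finite and finitely generated abelian groups.
-/

namespace Pool.Agent.Lib.MP_2add11_gt.IG

theorem NegClS.vf (G : Type) [Group G] [Group.FG G] (N : Subgroup G) [N.FiniteIndex]
    [IsFreeGroup N] : NegClS G := by
  obtain ⟨V, _, T, s, a, b, c, d, e, -⟩ := tree_of_free G N
  exact NegClS.tree ctAll G V T a b s c d N e

end Pool.Agent.Lib.MP_2add11_gt.IG
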