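import Pool.Agent.Lib.MP_2add11_gt.IG.WrNeg

/-!
Free wreath products over an infinite group for which lowering a chain of right ideals forces
finite order.
-/

noncomputable section

namespace Pool.Agent.Lib.MP_2add11_gt.IG

open Matrix MonoidAlgebra Monoid FG Classical

/-- Matrices that lower a chain of right ideals coming from `B` give classes of finite order. -/
def ChainAt {B S : Type} [Group B] [Ring S] (φ : MonoidAlgebra ℤ B →+* S) : Prop :=
  ∀ (W n : Type) [AddCommGroup W] [Fintype n] [DecidableEq n] (c : Inv S W) (m : ℕ)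
    (V : ℕ → AddSubgroup (Matrix n n (MonoidAlgebra ℤ B))), V 0 = ⊥ → (∀ j, V j ≤ V (j + 1)) →
      ∀ Z ∈ Rg φ (V m), (∀ j, ∀ X ∈ V (j + 1), Z * φ.mapMatrix X ∈ Rg φ (V j)) →
        IsOfFinAddOrder (c.c (1 + Z))

namespace Spl

variable {Γ B K W n : Type} [Group Γ] [Group B] {G : K → Type} [∀ i, Group (G i)]
  [AddCommGroup W] [Fintype n] [DecidableEq n] (A : Spl Γ B G)

theorem coloured_of (hch : ChainAt A.φ) (c : Inv (MonoidAlgebra ℤ Γ) W)
    (N : Matrix n n (MonoidAlgebra ℤ Γ)) (T0 : Finset (CoprodI G))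
    (hT0 : ∀ γ, γ ∉ T0 → ∀ X, A.co γ (N * A.φ.mapMatrix X) = 0)
    (ha : ∀ γ X, A.co γ (N * A.φ.mapMatrix X) ≠ 0 → ∃ (c : K) (g : G c), γ = CoprodI.of g)
    (hb : A.ag.mapMatrix N = 0)
    (hc : ∀ (c : K) (g x : G c), g ≠ 1 → x ≠ 1 → ∀ X, A.co (CoprodI.of g) (N * A.φ.mapMatrix
      (A.co (CoprodI.of x) (N * A.φ.mapMatrix X))) = 0) (hu : IsUnit (1 - N)) :
    IsOfFinAddOrder (c.c (1 - N)) := by
  obtain ⟨U, hU⟩ := hu.exists_right_inv
  let ν : CoprodI G → Matrix n n (MonoidAlgebra ℤ B) →+ Matrix n n (MonoidAlgebra ℤ B) := fun γ =>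
    (A.co γ).comp ((AddMonoidHom.mulLeft N).comp A.φ.mapMatrix.toAddMonoidHom)
  have hν : ∀ γ X, ν γ X = A.co γ (N * A.φ.mapMatrix X) := fun _ _ => rfl
  let T := T0.filter fun γ => γ ≠ 1 ∧ ν γ ≠ 0
  have hT' : ∀ γ, γ ≠ 1 → γ ∉ T → ν γ = 0 := fun γ h1 h2 => by
    by_contra h3
    exact h3 (AddMonoidHom.ext fun X =>
      hT0 γ (fun h => h2 (Finset.mem_filter.2 ⟨h, h1, h3⟩)) X)
  have h1T : (1 : CoprodI G) ∉ T := fun h => (Finset.mem_filter.1 h).2.1 rfl
  have hout : ∀ γ, γ ∉ insert 1 T → ν γ = 0 := fun γ h =>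
    hT' γ (fun e => h (e ▸ Finset.mem_insert_self _ _)) fun e => h (Finset.mem_insert_of_mem e)
  have hexp : ∀ X, N * A.φ.mapMatrix X = ∑ γ ∈ insert 1 T, A.φ.mapMatrix (ν γ X) * A.sc γ :=
    fun X => A.expand _ _ fun γ h => by rw [← hν, hout γ h]; rfl
  have hsum : ∀ X, ν 1 X = -∑ γ ∈ T, ν γ X := fun X => by
    have := congrArg A.ag.mapMatrix (hexp X)
    rw [map_mul, hb, zero_mul, map_sum, Finset.sum_congr rfl (g := fun γ => ν γ X) fun γ _ => by
      ext1 p q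
      simp [sc, ag_φ, show A.ag (single (A.j γ) 1) = 1 by simp [ag, A.πj, MonoidAlgebra.one_def]],
      Finset.sum_insert h1T] at this
    exact eq_neg_of_add_eq_zero_left this.symm
  have hmul : ∀ v Y, A.co v (N * Y) = ∑ γ ∈ insert 1 T, ν γ (A.co (γ⁻¹ * v) Y) := fun v Y => by
    obtain ⟨T', h'⟩ := A.exists_supp Y
    rw [A.expand Y T' h']
    simp only [Finset.mul_sum, map_sum]
    rw [Finset.sum_comm]
    refine Finset.sum_congr rfl fun w _ => ?_
    rw [← mul_assoc, co_sc, ← hν, Finset.sum_eq_single (v * w⁻¹) (fun γ _ h => by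
      rw [co_term, if_neg fun e => h (by rw [← e]; group), map_zero])
      fun h => by rw [hout _ h]; rfl, co_term, if_pos (by group)]
  obtain ⟨TU, hTU⟩ := A.exists_supp U
  have key := rec_nil (ν := ν) T hT' (fun γ hγ => by
      obtain ⟨-, h1, h2⟩ := Finset.mem_filter.1 hγ
      by_contra h3
      refine h2 (AddMonoidHom.ext fun X => ?_)
      by_contra h4
      obtain ⟨c, g, rfl⟩ := ha γ X h4
      exact h3 ⟨_, g, fun e => h1 (by rw [e, map_one]), rfl⟩) hc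
    (fun w => A.co w U) 1 (TU.sup len) (fun w hw => hTU w fun h => by
      have := Finset.le_sup (f := len) h
      omega)
    fun w => by
      have e : U = 1 + N * U := by rw [← hU, sub_mul, one_mul, sub_add_cancel]
      conv_lhs => rw [e, map_add, co_one, hmul, Finset.sum_insert h1T, hsum]
      simp only [map_sub, Finset.sum_sub_distrib, inv_one, one_mul]
      abel
  have hN : ∀ j, ∀ X ∈ Vn ν (j + 1), -N * A.φ.mapMatrix X ∈ Rg A.φ (Vn ν j) := fun j X hX => by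
    rw [neg_mul, hexp]
    refine neg_mem (sum_mem fun γ _ => Submodule.subset_span ⟨_, ?_, _, rfl⟩)
    by_cases h : γ = 1
    · rw [h, hsum]
      exact neg_mem (sum_mem fun γ hγ => mem_Vn.1 hX γ (Finset.mem_filter.1 hγ).2.1)
    · exact mem_Vn.1 hX γ h
  rw [sub_eq_add_neg]
  exact hch W n c _ (Vn ν) rfl Vn_mono _ (by simpa using hN _ _ key) hN

end Spl

variable {K Q E W : Type} [Group K] [Group Q] [MulAction Q E] [DecidableEq E] [Fintype E]
  [AddCommGroup W]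

theorem tw_tors_of (hch : ChainAt (wrSpl K Q E).φ) (c : Inv (MonoidAlgebra ℤ (Wr K Q E)) W)
    {n : Type} [Fintype n] [DecidableEq n] (col : n → E)
    (N : Matrix n n (MonoidAlgebra ℤ (Wr K Q E)))
    (ha : ∀ p q g, (N p q).coeff g ≠ 0 →
      (∃ k, g.left = Fp.of (col p) k) ∧ g.right⁻¹ • col p ≠ col q)
    (hb : ∀ p q, mapDomainRingHom ℤ (epw K Q E) (N p q) = 0) (hu : IsUnit (1 - N)) :
    IsOfFinAddOrder (c.c (1 - N)) := by
  let A := wrSpl K Q E
  have key : ∀ γ X p r b, (A.co γ (N * A.φ.mapMatrix X) p r).coeff b ≠ 0 →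
      (∃ k, γ = Fp.of (b⁻¹ • col p) k) ∧
        ∃ q b', (X q r).coeff b' ≠ 0 ∧ b⁻¹ • col p ≠ b'⁻¹ • col q := fun γ X p r b h => by
    obtain ⟨q, b', h1, h2⟩ := A.term N X h
    obtain ⟨⟨k, h3⟩, h4⟩ := ha _ _ _ h2
    refine ⟨⟨k, ?_⟩, q, b', h1, fun e => h4 ?_⟩
    · rw [← wrAut_of, ← h3]
      simp [A, wrSpl]
    · simp [A, wrSpl, mul_smul, e]
  let T0 : Finset (Fp K E) := (Finset.univ.biUnion fun p : n × n => (N p.1 p.2).coeff.support).biUnion
    fun g => Finset.univ.image fun e : E × E => Fp.of e.1 (retr (G := fun _ : E => K) e.2 g.left)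
  refine A.coloured_of hch c N T0 (fun γ h X => ?_) (fun γ X h => ?_) ?_
    (fun e g x hg hx X => ?_) hu
  · ext p r b
    by_contra h1
    obtain ⟨q, b', -, h2⟩ := A.term N X h1
    obtain ⟨⟨k, h3⟩, -⟩ := ha _ _ _ h2
    refine h (Finset.mem_biUnion.2 ⟨_, Finset.mem_biUnion.2 ⟨(p, q), Finset.mem_univ _,
      Finsupp.mem_support_iff.2 h2⟩, Finset.mem_image.2 ⟨(b⁻¹ • col p, col p), Finset.mem_univ _, ?_⟩⟩)
    have h4 : retr (G := fun _ : E => K) (col p) (Fp.of (col p) k) = k :=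
      retr_same (G := fun _ : E => K) _ k
    rw [h3, h4, ← wrAut_of, ← h3]
    simp [A, wrSpl]
  · by_contra h0
    refine h ?_
    ext p r b
    by_contra h1
    obtain ⟨k, h2⟩ := (key γ X p r b h1).1
    exact h0 ⟨_, k, h2⟩
  · ext1 p q
    change A.ag (N p q) = 0
    rw [← A.ag_φ (A.ag _), A.φ_ag, show A.ε (N p q) = 0 from hb p q, map_zero]
  · ext p r b
    by_contra h1
    obtain ⟨⟨k, h2⟩, q, b', h3, h4⟩ := key _ _ p r b h1
    obtain ⟨k', h5⟩ := (key _ _ q r b' h3).1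
    exact h4 ((col_unique (G := fun _ : E => K) hg h2).symm.trans
      (col_unique (G := fun _ : E => K) hx h5))

theorem NegCl.wr_of (hch : ChainAt (wrSpl K Q E).φ) (h : NegCl (K × Q)) : NegCl (Wr K Q E) := by
  rintro W _ c _ ⟨ι, _, _, r, h1, h2, rfl⟩
  obtain ⟨k, hk, e⟩ := isOfFinAddOrder_iff_nsmul_eq_zero.1
    (wr_tors_of c (fun _ _ _ col N => tw_tors_of hch c col N) h2)
  have a1 : -c.c ((jac r).map (mapDomainRingHom ℤ (epw K Q E))) ∈ Alg c :=
    ((h.retract (MonoidHom.inr K Q) (MonoidHom.snd K Q) fun _ => rfl).via c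
      SemidirectProduct.rightHom SemidirectProduct.inr h1 h2).2
  have a2 := (Alg c).nsmul_mem (add_mem (add_mem a1 (th_neg h c h1 h2)) (th0_mem c h1 h2)) k
  refine neg_mem_of hk ⟨ι, _, _, r, h1, h2, rfl⟩ ?_
  convert a2 using 1
  rw [← sub_eq_zero, ← neg_eq_zero, ← e, ← neg_nsmul, ← nsmul_sub, ← neg_nsmul]
  congr 1
  abel

end Pool.Agent.Lib.MP_2add11_gt.IG
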