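import Pool.Agent.Lib.MP_2add11_gt.IG.FamCT
import Pool.Agent.Lib.MP_2add11_gt.IG.WrVfA
import Pool.Agent.Lib.MP_2add11_gt.IG.ClsA

/-!
Free wreath products and tree groups times finite and finitely generated abelian groups.
-/

noncomputable section

namespace Pool.Agent.Lib.MP_2add11_gt.IG

open Matrix MonoidAlgebra Monoid FG

theorem CT.equiv {B C : Type} [Group B] [Group C] (h : CT C) (e : B ≃* C) : CT B := by
  intro Γ W n _ _ _ _ s hs c m V h0 hm Z h1 h2
  let ι := (mapDomainRingHom ℤ e.toMonoidHom).mapMatrix (m := n)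
  let t : C →* Γ := s.comp e.symm.toMonoidHom
  have a1 : ∀ X, (mapDomainRingHom ℤ t).mapMatrix (ι X) = (mapDomainRingHom ℤ s).mapMatrix X :=
    fun X => by
      ext1 p q
      exact hom_ext3 (f := (mapDomainRingHom ℤ t).comp (mapDomainRingHom ℤ e.toMonoidHom))
        (g := mapDomainRingHom ℤ s) (fun x a => by simp [t]) (X p q)
  have a2 : ∀ j, Rg (mapDomainRingHom ℤ s) (V j) ≤
      Rg (mapDomainRingHom ℤ t) ((V j).map ι.toAddMonoidHom) := fun j =>
    Submodule.span_mono (by
      rintro _ ⟨X, hX, u, rfl⟩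
      exact ⟨ι X, ⟨X, hX, rfl⟩, u, by rw [a1]⟩)
  refine h Γ W n t (hs.comp e.symm.injective) c m (fun j => (V j).map ι.toAddMonoidHom)
    (by simp [h0]) (fun j => AddSubgroup.map_mono (hm j)) Z (a2 _ h1) ?_
  rintro j _ ⟨X, hX, rfl⟩
  exact a2 _ (a1 X ▸ h2 j X hX)

theorem NegCl.wr' {K Q E : Type} [Group K] [Group Q] [MulAction Q E] [Finite E] (hQ : CT Q)
    (h : NegCl (K × Q)) : NegCl (Wr K Q E) := by
  classical
  have := Fintype.ofFinite E
  exact NegCl.wr_of (fun W n _ _ _ c => hQ _ W n _ SemidirectProduct.inr_injective c) h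

theorem NegCl.wr_prod {K Q E : Type} (C : Type) [Group K] [Group Q] [Group C] [MulAction Q E]
    [Finite E] (hQ : CT (Q × C)) (h : NegCl (K × (Q × C))) : NegCl (Wr K Q E × C) := by
  let _ : MulAction (Q × C) E := MulAction.compHom E (MonoidHom.fst Q C)
  exact (NegCl.wr' (E := E) hQ h).retract
    { toFun := fun x => ⟨x.1.left, (x.1.right, x.2)⟩
      map_one' := rfl
      map_mul' := fun _ _ => rfl }
    { toFun := fun x => (⟨x.left, x.right.1⟩, x.right.2)
      map_one' := rfl
      map_mul' := fun _ _ => rfl } fun _ => rfl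

/-- The chain property for all products of a finite and a finitely generated abelian group. -/
def CTAll : Prop :=
  ∀ (F A : Type) [Group F] [Finite F] [CommGroup A] [Group.FG A], CT (F × A)

theorem NegClS.wr (hct : CTAll) {K Q E : Type} [Group K] [Group Q] [MulAction Q E] [Finite Q]
    [Finite E] (h : NegClS K) : NegClS (Wr K Q E) := fun F A _ _ _ _ =>
  NegCl.wr_prod (F × A) ((hct (Q × F) A).equiv MulEquiv.prodAssoc.symm)
    ((h (Q × F) A).equiv ((MulEquiv.refl K).prodCongr MulEquiv.prodAssoc.symm))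

theorem NegClS.tree (hct : CTAll) (G V : Type) [Group G] [MulAction G V] (T : SimpleGraph V)
    (hT : T.IsTree) (hG : ∀ (g : G) x y, T.Adj x y → T.Adj (g • x) (g • y))
    (s : Set (V × V)) (hs : s.Finite) (hc : ∀ x y, T.Adj x y → ∃ g : G, (g • x, g • y) ∈ s)
    (N : Subgroup G) [N.FiniteIndex] (h1 : ∀ n ∈ N, ∀ x : V, n • x = x → n = 1) : NegClS G := by
  obtain ⟨Q, E, _, _, _, _, H, _, f, g, hfg⟩ := tree_retract' G V T hT hG s hs hc N h1
  have : H.subtype.range.FiniteIndex := by rwa [Subgroup.range_subtype]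
  exact (((NegClS.finite (Multiplicative (ZMod 2))).wr hct (Q := Q) (E := E)).of_finiteIndex
    H.subtype H.subtype_injective).retract f g hfg

theorem NegClS.tree_fin (hct : CTAll) (G V : Type) [Group G] [MulAction G V] (T : SimpleGraph V)
    (hT : T.IsTree) (hG : ∀ (g : G) x y, T.Adj x y → T.Adj (g • x) (g • y))
    (s : Set (V × V)) (hs : s.Finite) (hc : ∀ x y, T.Adj x y → ∃ g : G, (g • x, g • y) ∈ s)
    (hf : ∀ x : V, Finite (MulAction.stabilizer G x)) : NegClS G := by
  obtain ⟨N, _, h1, -⟩ := tree_free G V T hT hG s hs hc hf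
  exact NegClS.tree hct G V T hT hG s hs hc N h1

end Pool.Agent.Lib.MP_2add11_gt.IG
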