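import Pool.Agent.Lib.MP_2add11_gt.IG.HerB
import Pool.Agent.Lib.MP_2add11_gt.IG.FamWr

/-!
Amalgamated products over a retract that has the chain property.
-/

noncomputable section

namespace Pool.Agent.Lib.MP_2add11_gt.IG

open Matrix MonoidAlgebra Monoid FG

namespace Amal

open Classical

variable {Γ B K W n : Type} [Group Γ] [Group B] {G : K → Type} [∀ i, Group (G i)]
  [AddCommGroup W] [Fintype n] [DecidableEq n] (A : Amal Γ B G)

theorem colouredC (hP : CT B) (c : Inv (MonoidAlgebra ℤ Γ) W) (col : n → K)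
    (N : Matrix n n (MonoidAlgebra ℤ Γ)) (ha : ∀ p q, A.e (col p) (N p q) = N p q)
    (hb : A.ag.mapMatrix N = 0) (hc : ∀ p q, col p = col q → N p q = 0) (hu : IsUnit (1 - N)) :
    IsOfFinAddOrder (c.c (1 - N)) := by
  obtain ⟨U, hU⟩ := hu.exists_right_inv
  let ν : CoprodI G → Matrix n n (MonoidAlgebra ℤ B) →+ Matrix n n (MonoidAlgebra ℤ B) := fun γ =>
    (A.co γ).comp ((AddMonoidHom.mulLeft N).comp A.φ.mapMatrix.toAddMonoidHom)
  have hν : ∀ γ X, ν γ X = A.co γ (N * A.φ.mapMatrix X) := fun _ _ => rfl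
  have hrow : ∀ γ X p q, ν γ X p q ≠ 0 → ∃ g : G (col p), γ = CoprodI.of g := fun γ X p q h =>
    A.cw_letter (x := (N * A.φ.mapMatrix X) p q) (by
      simp [Matrix.mul_apply, map_sum, ha, e_φ]) h
  choose T0 hT0 using fun X : Matrix n n (MonoidAlgebra ℤ B) => A.exists_supp (N * A.φ.mapMatrix X)
  obtain ⟨TU, hTU⟩ := A.exists_supp U
  obtain ⟨T, hT, hT'⟩ : ∃ T : Finset (CoprodI G), (∀ γ ∈ T, γ ≠ 1 ∧ ν γ ≠ 0) ∧
      ∀ γ, γ ≠ 1 → γ ∉ T → ∀ w, ν γ (A.co w U) = 0 := by
    refine ⟨(TU.biUnion fun w => T0 (A.co w U)).filter fun γ => γ ≠ 1 ∧ ν γ ≠ 0,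
      fun γ h => (Finset.mem_filter.1 h).2, fun γ h1 h2 w => ?_⟩
    by_cases hw : w ∈ TU
    · by_contra h3
      exact h3 (hT0 _ γ fun h => h2 (Finset.mem_filter.2 ⟨Finset.mem_biUnion.2 ⟨w, hw, h⟩, h1,
        fun e => h3 (by rw [e]; rfl)⟩))
    · rw [hTU w hw, map_zero]
  have h1T : (1 : CoprodI G) ∉ T := fun h => (hT 1 h).1 rfl
  have hout : ∀ γ, γ ∉ insert 1 T → ∀ w, ν γ (A.co w U) = 0 := fun γ h =>
    hT' γ (fun e => h (e ▸ Finset.mem_insert_self _ _)) fun e => h (Finset.mem_insert_of_mem e)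
  have hsum : ∀ X (T : Finset (CoprodI G)), 1 ∉ T → (∀ γ, γ ∉ insert 1 T → ν γ X = 0) →
      ν 1 X = -∑ γ ∈ T, ν γ X := fun X T h1 h2 => by
    have := congrArg A.ag.mapMatrix (A.expand (N * A.φ.mapMatrix X) _ h2)
    rw [map_mul, hb, zero_mul, map_sum, Finset.sum_congr rfl (g := fun γ => ν γ X) fun γ _ => by
      ext1 p q
      simp [sc, ag_φ, hν,
        show A.ag (single (A.j γ) 1) = 1 by simp [ag, A.πj, MonoidAlgebra.one_def]],
      Finset.sum_insert h1] at this
    exact eq_neg_of_add_eq_zero_left this.symm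
  have hmul : ∀ v Y, (∀ γ, γ ∉ insert 1 T → ∀ w, ν γ (A.co w Y) = 0) →
      A.co v (N * Y) = ∑ γ ∈ insert 1 T, ν γ (A.co (γ⁻¹ * v) Y) := fun v Y hY => by
    obtain ⟨T', h'⟩ := A.exists_supp Y
    rw [A.expand Y T' h']
    simp only [Finset.mul_sum, map_sum]
    rw [Finset.sum_comm]
    refine Finset.sum_congr rfl fun w _ => ?_
    rw [← mul_assoc, co_sc, ← hν, Finset.sum_eq_single (v * w⁻¹) (fun γ _ h => by
      rw [co_term, if_neg fun e => h (by rw [← e]; group), map_zero])
      fun h => by rw [co_term, if_pos (by group), hY _ h], co_term, if_pos (by group)]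
  have key := rec_nilP (ν := ν) T (fun w => A.co w U) hT' (fun γ hγ => by
      obtain ⟨h1, h2⟩ := hT γ hγ
      by_contra h3
      refine h2 (AddMonoidHom.ext fun X => ?_)
      ext1 p q
      by_contra h4
      obtain ⟨g, rfl⟩ := hrow γ X p q h4
      exact h3 ⟨_, g, fun e => h1 (by rw [e, map_one]), rfl⟩)
    (fun c g x hg hx X => by
      ext1 p r
      by_contra h0
      obtain ⟨g', e1⟩ := hrow _ _ p r h0
      refine h0 ?_
      change A.cw _ ((N * A.φ.mapMatrix (ν (CoprodI.of x) X)) p r) = 0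
      rw [Matrix.mul_apply, Finset.sum_eq_zero fun q _ => ?_, map_zero]
      by_cases h2 : ν (CoprodI.of x) X q r = 0
      · simp [h2]
      · obtain ⟨x', e2⟩ := hrow _ _ q r h2
        rw [hc p q ((col_unique hg e1).symm.trans (col_unique hx e2)), zero_mul])
    1 (TU.sup len) (fun w hw => hTU w fun h => by
      have := Finset.le_sup (f := len) h
      omega)
    fun w => by
      have e : U = 1 + N * U := by rw [← hU, sub_mul, one_mul, sub_add_cancel]
      conv_lhs => rw [e, map_add, co_one, hmul _ _ hout, Finset.sum_insert h1T,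
        hsum _ T h1T fun γ h => hout γ h _]
      simp only [map_sub, Finset.sum_sub_distrib, inv_one, one_mul]
      abel
  have hN : ∀ j, ∀ X ∈ Vn ν (j + 1), -N * A.φ.mapMatrix X ∈ Rg A.φ (Vn ν j) := fun j X hX => by
    have h2 : ∀ γ, γ ∉ insert 1 ((T0 X).erase 1) → ν γ X = 0 := fun γ h =>
      hT0 X γ fun e => h (Finset.insert_erase_subset _ _ e)
    rw [neg_mul, A.expand (N * A.φ.mapMatrix X) _ h2]
    refine neg_mem (sum_mem fun γ _ => Submodule.subset_span ⟨_, ?_, _, rfl⟩)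
    by_cases h : γ = 1
    · rw [h, ← hν, hsum X _ (Finset.notMem_erase _ _) h2]
      exact neg_mem (sum_mem fun γ hγ => mem_Vn.1 hX γ (Finset.mem_erase.1 hγ).1)
    · exact mem_Vn.1 hX γ h
  rw [sub_eq_add_neg]
  exact hP Γ W n A.s (fun a b e => by rw [← A.πs a, e, A.πs]) c _ (Vn ν) rfl Vn_mono _
    (by simpa [φ] using hN _ _ key) hN

variable [Fintype K]

theorem torsC (hP : CT B) (c : Inv (MonoidAlgebra ℤ Γ) W)
    (h0 : ∀ (n : Type) [Fintype n] [DecidableEq n] (M : Matrix n n (MonoidAlgebra ℤ Γ)),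
      IsUnit M → c.c (M.map A.ε) = 0)
    (h1 : ∀ i (n : Type) [Fintype n] [DecidableEq n] (M : Matrix n n (MonoidAlgebra ℤ Γ)),
      IsUnit M → c.c (M.map (A.e i)) = 0)
    {M : Matrix n n (MonoidAlgebra ℤ Γ)} (hM : IsUnit M) : IsOfFinAddOrder (c.c M) := by
  let S : Submodule ℤ (MonoidAlgebra ℤ Γ) :=
    { carrier := {x | x = A.ε x + ∑ k, (A.e k x - A.ε x)}
      zero_mem' := by simp
      add_mem' := fun {a b} ha hb => by
        change a = _ at ha
        change b = _ at hb
        change a + b = _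
        conv_lhs => rw [ha, hb]
        simp only [map_add, Finset.sum_sub_distrib, Finset.sum_add_distrib]
        abel
      smul_mem' := fun k a ha => by
        change a = _ at ha
        change k • a = _
        conv_lhs => rw [ha]
        simp only [map_zsmul, smul_add, Finset.smul_sum, smul_sub] }
  have s2 : ∀ i b (g : G i) (a : ℤ), MonoidAlgebra.single (A.s b * A.j (CoprodI.of g)) a ∈ S := by
    intro i b g a
    change _ = _
    rw [Finset.sum_eq_single i (fun k _ hk => by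
      rw [e_single, ε_single, retr_ne hk.symm, map_one CoprodI.of, sub_self]) (by simp), e_single,
      retr_same, add_sub_cancel]
  have s0 : ∀ b (a : ℤ), MonoidAlgebra.single (A.s b * A.j 1) a ∈ S := fun b a => by
    change _ = _
    simp only [e_single, ε_single, map_one (retr _), map_one CoprodI.of, sub_self,
      Finset.sum_const_zero, add_zero]
  have s1 : (1 : MonoidAlgebra ℤ Γ) ∈ S := by simpa [MonoidAlgebra.one_def] using s0 1 1
  have s3 : ∀ w : CoprodI G, ∃ k, MonoidAlgebra.single (A.j w) (1 : ℤ) ∈ S ^ k := fun g => by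
    induction g using CoprodI.induction_left with
    | one => exact ⟨1, by rw [pow_one, map_one]; exact s1⟩
    | mul m x ih =>
      obtain ⟨k, hk⟩ := ih
      refine ⟨k + 1, ?_⟩
      rw [pow_succ', ← mul_one (1 : ℤ), map_mul, ← single_mul_single]
      exact Submodule.mul_mem_mul (by simpa using s2 _ 1 m 1) hk
  let d := c.map (QuotientAddGroup.mk' (AddCommGroup.torsion W))
  have hd : ∀ {n : Type} (M : Matrix n n (MonoidAlgebra ℤ Γ)),
      d.c M = 0 ↔ IsOfFinAddOrder (c.c M) := fun M => QuotientAddGroup.eq_zero_iff _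
  refine (hd M).1 (higman d S s1 (fun x => ?_) (fun n _ _ M hM hS => block_step d A.e A.ε A.εε A.eε
    (fun n _ _ M hM => (hd _).2 (h0 n M hM ▸ .zero))
    (fun i n _ _ M hM => (hd _).2 (h1 i n M hM ▸ .zero))
    (fun n _ _ col N g1 g2 g3 => (hd _).2 (A.colouredC hP c col N (fun p q => ?_) ?_ g2 g3)) hM hS) hM)
  · induction x using MonoidAlgebra.induction_linear with
    | zero => exact ⟨0, zero_mem _⟩
    | add a b ha hb =>
      obtain ⟨k, hk⟩ := ha
      obtain ⟨l, hl⟩ := hb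
      exact ⟨max k l, add_mem (pow_mono s1 (le_max_left _ _) hk) (pow_mono s1 (le_max_right _ _) hl)⟩
    | single g a =>
      obtain ⟨b, w, rfl⟩ := A.surj g
      obtain ⟨k, hk⟩ := s3 w
      refine ⟨k + 1, ?_⟩
      rw [pow_succ', ← mul_one a, ← single_mul_single]
      exact Submodule.mul_mem_mul (by simpa using s0 b a) hk
  · obtain ⟨x, hx⟩ := g1 p q
    rw [hx, map_sub, ee, eε]
  · ext1 p q
    obtain ⟨x, hx⟩ := g1 p q
    change A.ag (N p q) = 0
    rw [← A.ag_φ (A.ag _), φ_ag, hx, map_sub, εe, εε, sub_self, map_zero]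

theorem splitC (hP : CT B) (c : Inv (MonoidAlgebra ℤ Γ) W) {M : Matrix n n (MonoidAlgebra ℤ Γ)}
    (hM : IsUnit M) : IsOfFinAddOrder (c.c M - (c.c (M.map A.ε) +
      ∑ i, (c.c (M.map (A.e i)) - c.c (M.map A.ε)))) := by
  let d : Inv (MonoidAlgebra ℤ Γ) W :=
    { c := fun M => c.c M - ((c.pull A.ε).c M + ∑ i, ((c.pull (A.e i)).c M - (c.pull A.ε).c M))
      mul := fun hA hB => by
        simp only [c.mul hA hB, (c.pull _).mul hA hB, Finset.sum_sub_distrib,
          Finset.sum_add_distrib]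
        abel
      sub := fun e _ hA => by simp only [c.sub e hA, (c.pull _).sub e hA]
      stab := fun hA => by simp only [c.stab hA, (c.pull _).stab hA] }
  have m : ∀ {f g h : MonoidAlgebra ℤ Γ →+* MonoidAlgebra ℤ Γ}, (∀ x, g (f x) = h x) →
      ∀ {n : Type} (M : Matrix n n (MonoidAlgebra ℤ Γ)), (M.map f).map g = M.map h := by
    intro f g h hh n M
    ext1 i j
    exact hh _
  refine A.torsC hP d (fun n _ _ M _ => ?_) (fun i n _ _ M _ => ?_) hM
  · change c.c _ - (c.c ((M.map A.ε).map A.ε) + ∑ i,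
      (c.c ((M.map A.ε).map (A.e i)) - c.c ((M.map A.ε).map A.ε))) = 0
    rw [m A.εε, Finset.sum_eq_zero fun j _ => by rw [m (A.eε j), sub_self]]
    simp
  · change c.c _ - (c.c ((M.map (A.e i)).map A.ε) + ∑ j,
      (c.c ((M.map (A.e i)).map (A.e j)) - c.c ((M.map (A.e i)).map A.ε))) = 0
    rw [m (A.εe i), Finset.sum_eq_single i
      (fun j _ hj => by rw [m (A.ee' hj.symm), sub_self]) (by simp), m (A.ee i)]
    simp

theorem negClC (hP : CT B) (hB : NegCl B) {C : K → Type} [∀ i, Group (C i)] (h : ∀ i, NegCl (C i)) (r : ∀ i, Γ →* C i)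
    (g : ∀ i, C i →* Γ) (hf : ∀ i, A.f i = (g i).comp (r i)) : NegCl Γ := by
  rintro W _ c _ ⟨ι, _, _, x, h1, h2, rfl⟩
  have k0 : c.c ((jac x).map A.ε) ∈ symm c := hB.via c _ _ h1 h2
  have k1 : ∀ i, c.c ((jac x).map (A.e i)) ∈ symm c := fun i => by
    rw [e, hf]
    exact (h i).via c _ _ h1 h2
  obtain ⟨k, hk, hz⟩ := isOfFinAddOrder_iff_nsmul_eq_zero.1 (A.splitC hP c h2)
  rw [nsmul_sub, sub_eq_zero] at hz
  refine neg_mem_of hk ⟨ι, _, _, x, h1, h2, rfl⟩ ?_
  rw [hz]
  exact ((symm c).nsmul_mem (add_mem k0 (sum_mem fun i _ => sub_mem (k1 i) k0)) k).2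

end Amal

theorem NegCl.pushoutI_ct {K B : Type} {G : K → Type} [∀ i, Group (G i)] [Group B]
    (φ : ∀ i, B →* G i) (ρ : ∀ i, G i →* B) (h : ∀ i b, ρ i (φ i b) = b) [Finite K] (hP : CT B)
    (hB : NegCl B) (hG : ∀ i, NegCl (G i)) : NegCl (PushoutI φ) :=
  have := Fintype.ofFinite K
  (amal φ ρ h).negClC hP hB hG (rr φ ρ h) PushoutI.of fun _ => rfl

theorem NegCl.pushoutI_ct_prod {K B : Type} {G : K → Type} [Finite K] [Group B]
    [∀ i, Group (G i)] (φ : ∀ i, B →* G i) (ρ : ∀ i, G i →* B) (h : ∀ i b, ρ i (φ i b) = b)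
    (C : Type) [Group C] (hP : CT (B × C)) (hB : NegCl (B × C)) (hG : ∀ i, NegCl (G i × C)) :
    NegCl (PushoutI φ × C) := by
  let ψ : ∀ i, B × C →* G i × C := fun i => (φ i).prodMap (MonoidHom.id C)
  let u : PushoutI φ →* PushoutI ψ :=
    PushoutI.lift (fun i => (PushoutI.of i).comp (MonoidHom.inl _ _))
      ((PushoutI.base ψ).comp (MonoidHom.inl _ _)) fun i => by
        ext b
        exact PushoutI.of_apply_eq_base ψ i (b, 1)
  have hu : ∀ (y : PushoutI φ) (a : C),
      Commute (u y) (((PushoutI.base ψ).comp (MonoidHom.inr _ _)) a) := fun y a => by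
    induction y using PushoutI.induction_on with
    | of i g =>
      simp only [u, PushoutI.lift_of, MonoidHom.comp_apply, ← PushoutI.of_apply_eq_base ψ i]
      exact Commute.map (by simp [ψ, Commute, SemiconjBy]) _
    | base b =>
      simp only [u, PushoutI.lift_base, MonoidHom.comp_apply]
      exact Commute.map (by simp [Commute, SemiconjBy]) _
    | mul x y p q => rw [map_mul]; exact p.mul_left q
  let v : PushoutI ψ →* PushoutI φ × C :=
    PushoutI.lift (fun i => (PushoutI.of i).prodMap (MonoidHom.id C))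
      ((PushoutI.base φ).prodMap (MonoidHom.id C)) fun i => by
        ext b <;> simp [ψ, PushoutI.of_apply_eq_base]
  refine (NegCl.pushoutI_ct ψ (fun i => (ρ i).prodMap (MonoidHom.id C))
    (fun i b => Prod.ext (h i b.1) rfl) hP hB hG).retract
      (MonoidHom.noncommCoprod u _ hu) v fun x => ?_
  have : ∀ y, v (u y) = (y, 1) := fun y => by
    induction y using PushoutI.induction_on with
    | of i g => simp [u, v]
    | base b => simp [u, v]
    | mul x y p q => rw [map_mul, map_mul, p, q, Prod.mk_mul_mk, one_mul]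
  rw [MonoidHom.noncommCoprod_apply, map_mul, this]
  simp [v]

/-- Amalgams over a finite retract. -/
theorem NegClS.pushoutI (hct : CTAll) {K B : Type} {G : K → Type} [Finite K] [Group B] [Finite B]
    [∀ i, Group (G i)] (φ : ∀ i, B →* G i) (ρ : ∀ i, G i →* B) (h : ∀ i b, ρ i (φ i b) = b)
    (hG : ∀ i, NegClS (G i)) : NegClS (PushoutI φ) := fun F A _ _ _ _ =>
  NegCl.pushoutI_ct_prod φ ρ h (F × A) ((hct (B × F) A).equiv MulEquiv.prodAssoc.symm)
    (NegClS.finite B F A) fun i => hG i F A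

/-- Amalgams over a retract that is a product of a finite and a finitely generated abelian
group. -/
theorem NegClS.pushoutI_ab (hct : CTAll) {K B B0 A0 : Type} {G : K → Type} [Finite K] [Group B]
    [Group B0] [Finite B0] [CommGroup A0] [Group.FG A0] (e : B ≃* B0 × A0)
    [∀ i, Group (G i)] (φ : ∀ i, B →* G i) (ρ : ∀ i, G i →* B) (h : ∀ i b, ρ i (φ i b) = b)
    (hG : ∀ i, NegClS (G i)) : NegClS (PushoutI φ) := fun F A _ _ _ _ =>
  NegCl.pushoutI_ct_prod φ ρ h (F × A) ((hct (B0 × F) (A0 × A)).equiv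
    ((e.prodCongr (MulEquiv.refl _)).trans (MulEquiv.prodProdProdComm B0 A0 F A)))
    ((((NegClS.finite B0).prod_comm A0).equiv e) F A) fun i => hG i F A

end Pool.Agent.Lib.MP_2add11_gt.IG
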