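import Pool.Agent.Lib.MP_2add11_gt.IG.FamCT

/-!
Group rings are flat over group rings of subgroups; the chain property of the product of a finite
group and a finitely generated abelian group, from the chain lemma for rows.
-/

noncomputable section

namespace Pool.Agent.Lib.MP_2add11_gt.IG

open Matrix MonoidAlgebra FG Function

/-- The chain lemma for rows, as a statement. -/
def Fam.RowChain : Prop :=
  ∀ (R S L W n : Type) [Ring R] [Ring S] [Ring L] [AddCommGroup W] [Fintype n]
    [DecidableEq n] [IsNoetherianRing R] (e : ℕ) (_ : Fam.GD R e) (ψ : R →+* L) (_ : Fam.Fl ψ)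
    (c : FG.Inv S W) (f : S →+* L) (_ : Injective f)
    (_ : ∀ x : L, ∃ d : ℕ, 0 < d ∧ ∃ y, f y = d • x) (m : ℕ) (K : ℕ → Set (n → R))
    (_ : ∀ y ∈ K 0, y = 0) (_ : ∀ j, K j ⊆ K (j + 1)) (Z : Matrix n n S)
    (_ : ∀ x, x ᵥ* Z.map f ∈ Submodule.span L ((fun y => ψ ∘ y) '' K m))
    (_ : ∀ j, ∀ y ∈ K (j + 1), (ψ ∘ y) ᵥ* Z.map f ∈ Submodule.span L ((fun y => ψ ∘ y) '' K j)),
    IsOfFinAddOrder (c.c (1 + Z))

theorem Fam.fl_group (k : Type) [CommRing k] {B Γ : Type} [Group B] [Group Γ] (s : B →* Γ)
    (hs : Injective s) : Fam.Fl (mapDomainRingHom k s) := by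
  classical
  intro a n _ _ G x hx
  have inj : ∀ γ : Γ, Injective fun b => γ * s b := fun γ => (mul_right_injective γ).comp hs
  let co : Γ → MonoidAlgebra k Γ →+ MonoidAlgebra k B :=
    fun γ => comapDomainAddMonoidHom _ (inj γ)
  have c1 : ∀ γ b r, co γ (single (γ * s b) r) = single b r := fun γ b r =>
    comapDomain_single_map (fun b => γ * s b) (inj γ) b r
  have c0 : ∀ γ g r, (¬ ∃ b, γ * s b = g) → co γ (single g r) = 0 := fun γ g r h =>
    comapDomain_single_of_not_mem_range h (inj γ)
  have ps : ∀ b r, mapDomainRingHom k s (single b r) = single (s b) r := fun b r =>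
    mapDomain_single
  have cm : ∀ γ x r, co γ (x * mapDomainRingHom k s r) = co γ x * r := by
    intro γ x r
    induction x using induction_linear with
    | zero => simp only [zero_mul, map_zero]
    | add u v p q => simp only [add_mul, map_add, p, q]
    | single g u =>
      induction r using induction_linear with
      | zero => simp only [mul_zero, map_zero]
      | add u v p q => simp only [map_add, mul_add, p, q]
      | single b v =>
        rw [ps, single_mul_single]
        by_cases h : ∃ b0, γ * s b0 = g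
        · obtain ⟨b0, rfl⟩ := h
          rw [mul_assoc, ← map_mul, c1, c1, single_mul_single]
        · rw [c0 _ _ _ h, zero_mul, c0]
          rintro ⟨b1, e⟩
          exact h ⟨b1 * b⁻¹, by rw [map_mul, map_inv, ← mul_assoc, e, mul_inv_cancel_right]⟩
  have dec : ∀ x : MonoidAlgebra k Γ, ∃ T : Finset (Γ ⧸ s.range), ∀ T', T ⊆ T' →
      x = ∑ q ∈ T', single q.out 1 * mapDomainRingHom k s (co q.out x) := by
    intro x
    induction x using induction_linear with
    | zero => exact ⟨∅, fun T' _ => by simp only [map_zero, mul_zero, Finset.sum_const_zero]⟩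
    | add u v p q =>
      obtain ⟨T1, p⟩ := p
      obtain ⟨T2, q⟩ := q
      refine ⟨T1 ∪ T2, fun T' h => ?_⟩
      simp only [map_add, mul_add, Finset.sum_add_distrib]
      rw [← p T' (Finset.subset_union_left.trans h), ← q T' (Finset.subset_union_right.trans h)]
    | single g u =>
      refine ⟨{(g : Γ ⧸ s.range)}, fun T' h => ?_⟩
      rw [Finset.sum_eq_single (g : Γ ⧸ s.range)]
      · obtain ⟨⟨_, b, rfl⟩, e⟩ := QuotientGroup.mk_out_eq_mul s.range g
        have e2 : (g : Γ ⧸ s.range).out * s b⁻¹ = g := by
          rw [e, map_inv]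
          exact mul_inv_cancel_right g (s b)
        have e3 := c1 (g : Γ ⧸ s.range).out b⁻¹ u
        rw [e2] at e3
        rw [e3, ps, single_mul_single, e2, one_mul]
      · intro q _ hq
        rw [c0, map_zero, mul_zero]
        rintro ⟨b, rfl⟩
        exact hq (by
          rw [QuotientGroup.mk_mul_of_mem _ (show s b ∈ s.range from ⟨b, rfl⟩),
            QuotientGroup.out_eq'])
      · intro hq
        exact absurd (h (Finset.mem_singleton_self _)) hq
  choose T hT using dec
  have e : x = ∑ q ∈ Finset.univ.biUnion fun i => T (x i), (single q.out 1 : MonoidAlgebra k Γ) •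
      (mapDomainRingHom k s ∘ fun i => co q.out (x i)) := by
    funext i
    rw [Finset.sum_apply]
    exact hT (x i) _ (Finset.subset_biUnion_of_mem (fun i => T (x i)) (Finset.mem_univ i))
  rw [e]
  refine Submodule.sum_mem _ fun q _ => Submodule.smul_mem _ _
    (Submodule.subset_span ⟨_, ?_, rfl⟩)
  funext j
  have h := congrArg (co q.out) (congrFun hx j)
  simp only [vecMul, dotProduct, map_sum, Matrix.map_apply, cm, Pi.zero_apply, map_zero] at h
  exact h

theorem Fam.Fl.comp_equiv {R R' L : Type} [Ring R] [Ring R'] [Ring L] {ψ : R →+* L}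
    (h : Fam.Fl ψ) (e : R' ≃+* R) : Fam.Fl (ψ.comp e.toRingHom) := by
  intro a n _ _ G x hx
  refine Submodule.span_mono ?_ (h a n (G.map e) x hx)
  rintro _ ⟨y, hy, rfl⟩
  refine ⟨fun i => e.symm (y i), ?_, funext fun i => by simp⟩
  funext j
  apply e.injective
  have h := congrFun hy j
  simp only [vecMul, dotProduct, Matrix.map_apply, Pi.zero_apply] at h
  simp only [vecMul, dotProduct, map_sum, map_mul, RingEquiv.apply_symm_apply, Pi.zero_apply,
    map_zero]
  exact h

namespace Fam

variable {G H : Type} [Group G] [Group H]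

/-- The involution of the group ring that inverts the group elements. -/
def bar (G : Type) [Group G] : MonoidAlgebra ℤ G →+ MonoidAlgebra ℤ G where
  toFun := mapDomain fun g => g⁻¹
  map_zero' := mapDomain_zero _
  map_add' := mapDomain_add _

theorem bar_single (g : G) (r : ℤ) : bar G (single g r) = single g⁻¹ r := mapDomain_single

theorem bar_bar (x : MonoidAlgebra ℤ G) : bar G (bar G x) = x := by
  induction x using induction_linear with
  | zero => simp only [map_zero]
  | add u v p q => simp only [map_add, p, q]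
  | single g u => rw [bar_single, bar_single, inv_inv]

theorem bar_one : bar G 1 = 1 := by rw [one_def, bar_single, inv_one]

theorem bar_mul (x y : MonoidAlgebra ℤ G) : bar G (x * y) = bar G y * bar G x := by
  induction x using induction_linear with
  | zero => simp only [zero_mul, map_zero, mul_zero]
  | add u v p q => simp only [add_mul, map_add, mul_add, p, q]
  | single g u =>
    induction y using induction_linear with
    | zero => simp only [zero_mul, map_zero, mul_zero]
    | add u v p q => simp only [add_mul, map_add, mul_add, p, q]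
    | single b v => simp only [single_mul_single, bar_single, _root_.mul_inv_rev, mul_comm u v]

theorem bar_map (s : G →* H) (x : MonoidAlgebra ℤ G) :
    bar H (mapDomainRingHom ℤ s x) = mapDomainRingHom ℤ s (bar G x) := by
  have ps : ∀ b r, mapDomainRingHom ℤ s (single b r) = single (s b) r := fun b r =>
    mapDomain_single
  induction x using induction_linear with
  | zero => simp only [map_zero]
  | add u v p q => simp only [map_add, p, q]
  | single g u => rw [ps, bar_single, bar_single, ps, map_inv]

/-- The conjugate transpose over the group ring. -/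
def st {n : Type} (X : Matrix n n (MonoidAlgebra ℤ G)) : Matrix n n (MonoidAlgebra ℤ G) :=
  .of fun i j => bar G (X j i)

variable {n : Type}

theorem st_st (X : Matrix n n (MonoidAlgebra ℤ G)) : st (st X) = X := by
  ext1 i j
  exact bar_bar _

theorem st_add (X Y : Matrix n n (MonoidAlgebra ℤ G)) : st (X + Y) = st X + st Y := by
  ext1 i j
  exact map_add (bar G) _ _

theorem st_smul (a : ℤ) (X : Matrix n n (MonoidAlgebra ℤ G)) : st (a • X) = a • st X := by
  ext1 i j
  exact map_zsmul (bar G) _ _

theorem st_zero : st (0 : Matrix n n (MonoidAlgebra ℤ G)) = 0 := by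
  ext1 i j
  exact map_zero (bar G)

theorem st_one [DecidableEq n] : st (1 : Matrix n n (MonoidAlgebra ℤ G)) = 1 := by
  ext1 i j
  by_cases h : i = j
  · subst h
    simp only [st, Matrix.of_apply, one_apply_eq, bar_one]
  · simp only [st, Matrix.of_apply, one_apply_ne h, one_apply_ne' h, map_zero]

theorem st_mul [Fintype n] (X Y : Matrix n n (MonoidAlgebra ℤ G)) :
    st (X * Y) = st Y * st X := by
  ext1 i j
  simp only [st, Matrix.of_apply, Matrix.mul_apply, map_sum, bar_mul]

theorem st_unit [Fintype n] [DecidableEq n] {X : Matrix n n (MonoidAlgebra ℤ G)} (h : IsUnit X) :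
    IsUnit (st X) := by
  obtain ⟨u, rfl⟩ := h
  exact isUnit_of_inv (B := st (↑u⁻¹)) (by rw [← st_mul, u.inv_mul, st_one])
    (by rw [← st_mul, u.mul_inv, st_one])

/-- The invariant read through the conjugate transpose. -/
def invSt {W : Type} [AddCommGroup W] (c : FG.Inv (MonoidAlgebra ℤ G) W) :
    FG.Inv (MonoidAlgebra ℤ G) W where
  c X := c.c (st X)
  mul hA hB := by rw [st_mul, c.mul (st_unit hB) (st_unit hA), add_comm]
  sub e _ hA := c.sub e (st_unit hA)
  stab {n} _ _ A hA := by
    rw [← c.stab (st_unit hA)]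
    congr 1
    ext1 i j
    rcases i with i | i <;> rcases j with j | j
    exacts [rfl, map_zero (bar G), map_zero (bar G), by simp [st, bar_one]]

end Fam

theorem ct_prod_of (hrc : Fam.RowChain) (F A : Type) [Group F] [Finite F] [CommGroup A]
    [Group.FG A] : CT (F × A) := by
  intro Γ W n _ _ _ _ s hs c m V h0 hm Z h1 h2
  obtain ⟨d, h⟩ := gd_fg A
  have : IsNoetherianRing (MonoidAlgebra ℚ A) := Algebra.FiniteType.isNoetherianRing ℚ _
  have : IsNoetherianRing (MonoidAlgebra (MonoidAlgebra ℚ A) F) :=
    IsNoetherianRing.of_finite (MonoidAlgebra ℚ A) _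
  let e : MonoidAlgebra ℚ (F × A) ≃+* MonoidAlgebra (MonoidAlgebra ℚ A) F :=
    MonoidAlgebra.curryRingEquiv
  have hR : Fam.GD (MonoidAlgebra (MonoidAlgebra ℚ A) F) d := Fam.gd_group h F (by
    rw [← map_natCast (algebraMap ℚ (MonoidAlgebra ℚ A))]
    exact (IsUnit.mk0 _ (Nat.cast_ne_zero.2 Nat.card_pos.ne')).map _)
  let ψ := (mapDomainRingHom ℚ s).comp e.symm.toRingHom
  let f := mapRingHom Γ (Int.castRingHom ℚ)
  let ι := e.toRingHom.comp (mapRingHom (F × A) (Int.castRingHom ℚ))
  let φ := mapDomainRingHom ℤ s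
  have hι : ∀ x, ψ (ι x) = f (φ x) := fun x => by
    have := DFunLike.congr_fun (mapRingHom_comp_mapDomainRingHom (Int.castRingHom ℚ) s) x
    rw [RingHom.comp_apply, RingHom.comp_apply] at this
    rw [this]
    exact congrArg (mapDomainRingHom ℚ s) (e.symm_apply_apply _)
  let K : ℕ → Set (n → MonoidAlgebra (MonoidAlgebra ℚ A) F) :=
    fun j => {y | ∃ X ∈ V j, ∃ i, y = fun l => ι (Fam.st X i l)}
  have row : ∀ (X : Matrix n n (MonoidAlgebra ℤ (F × A))) i,
      (ψ ∘ fun l => ι (Fam.st X i l)) = (Fam.st (φ.mapMatrix X)).map f i := fun X i => by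
    funext l
    exact (hι _).trans (congrArg f (Fam.bar_map s _).symm)
  have key : ∀ j, ∀ Y ∈ Rg φ (V j), ∀ x, x ᵥ* (Fam.st Y).map f ∈
      Submodule.span (MonoidAlgebra ℚ Γ) ((fun y => ψ ∘ y) '' K j) := by
    intro j Y hY
    induction hY using Submodule.span_induction with
    | mem Y hY =>
      obtain ⟨X, hX, t, rfl⟩ := hY
      intro x
      rw [Fam.st_mul, Matrix.map_mul, ← vecMul_vecMul, vecMul_eq_sum]
      exact Submodule.sum_mem _ fun i _ => Submodule.smul_mem _ _
        (Submodule.subset_span ⟨_, ⟨X, hX, i, rfl⟩, row X i⟩)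
    | zero =>
      intro x
      rw [Fam.st_zero, Matrix.map_zero _ (map_zero f), vecMul_zero]
      exact zero_mem _
    | add a b _ _ p q =>
      intro x
      rw [Fam.st_add, Matrix.map_add _ (map_add f), vecMul_add]
      exact add_mem (p x) (q x)
    | smul a b _ p =>
      intro x
      have e2 : x ᵥ* (Fam.st (a • b)).map f = a • (x ᵥ* (Fam.st b).map f) := by
        rw [Fam.st_smul]
        funext l
        simp only [vecMul, dotProduct, Matrix.map_apply, Matrix.smul_apply, map_zsmul,
          Pi.smul_apply, Finset.smul_sum, mul_smul_comm]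
      rw [e2]
      exact zsmul_mem (p x) a
  have := hrc _ _ _ _ _ _ hR ψ ((Fam.fl_group ℚ s hs).comp_equiv e.symm) (Fam.invSt c) f
    (MonoidAlgebra.map_injective _ Int.cast_injective) den_clear m K
    (by
      rintro _ ⟨X, hX, i, rfl⟩
      rw [h0, AddSubgroup.mem_bot] at hX
      funext l
      rw [hX, Fam.st_zero]
      exact map_zero ι)
    (fun j _ ⟨X, hX, e⟩ => ⟨X, hm j hX, e⟩) (Fam.st Z) (key m Z h1) (by
      rintro j _ ⟨X, hX, i, rfl⟩
      have k := key j _ (h2 j X hX) (Pi.single i 1)
      rw [Fam.st_mul, Matrix.map_mul, ← vecMul_vecMul, single_one_vecMul] at k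
      rw [row]
      exact k)
  change IsOfFinAddOrder (c.c (Fam.st (1 + Fam.st Z))) at this
  rwa [Fam.st_add, Fam.st_one, Fam.st_st] at this

end Pool.Agent.Lib.MP_2add11_gt.IG
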