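import Pool.Agent.Lib.MP_2add11_gt.IG.FamCh
import Pool.Agent.Lib.MP_2add11_gt.IG.FamFlat
import Pool.Agent.Lib.MP_2add11_gt.IG.FamWr

/-!
The chain property of the product of a finite group and a finitely generated abelian group.
-/

noncomputable section

namespace Pool.Agent.Lib.MP_2add11_gt.IG

theorem ct_prod (F A : Type) [Group F] [Finite F] [CommGroup A] [Group.FG A] : CT (F × A) :=
  ct_prod_of (fun _ _ _ _ _ _ _ _ _ _ _ _ _ hR ψ hψ c f hf hd m K h0 hm Z h1 h2 =>
    Fam.row_chain hR ψ hψ c f hf hd m K h0 hm Z h1 h2) F A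

theorem ctAll : CTAll := fun F A _ _ _ _ => ct_prod F A

end Pool.Agent.Lib.MP_2add11_gt.IG
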