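import Pool.Agent.Lib.MP_2add11_gt.IG.AmalA
import Pool.Agent.Lib.MP_2add11_gt.IG.FamFree

/-!
The chain property of a base group and flatness of a ring map in the form of kernels.
-/

noncomputable section

namespace Pool.Agent.Lib.MP_2add11_gt.IG

open Matrix MonoidAlgebra FG

/-- Unipotent matrices over an overgroup that lower a chain of right ideals induced from `B` have
classes of finite order. -/
def CT (B : Type) [Group B] : Prop :=
  ∀ (Γ W n : Type) [Group Γ] [AddCommGroup W] [Fintype n] [DecidableEq n] (s : B →* Γ),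
    Function.Injective s → ∀ (c : Inv (MonoidAlgebra ℤ Γ) W) (m : ℕ)
    (V : ℕ → AddSubgroup (Matrix n n (MonoidAlgebra ℤ B))), V 0 = ⊥ → (∀ j, V j ≤ V (j + 1)) →
      ∀ Z ∈ Rg (mapDomainRingHom ℤ s) (V m), (∀ j, ∀ X ∈ V (j + 1),
        Z * (mapDomainRingHom ℤ s).mapMatrix X ∈ Rg (mapDomainRingHom ℤ s) (V j)) →
        IsOfFinAddOrder (c.c (1 + Z))

theorem CT.finite (B : Type) [Group B] [Finite B] : CT B :=
  fun _ _ _ _ _ _ _ _ _ c m V h0 hm Z h1 h2 => (chain_torsR _ c m V h0 hm Z h1 h2).2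

namespace Fam

/-- Kernels of matrices are generated by the kernels over the smaller ring. -/
def Fl {R L : Type} [Ring R] [Ring L] (ψ : R →+* L) : Prop :=
  ∀ (a n : Type) [Fintype a] [Fintype n] (G : Matrix a n R) (x : a → L), x ᵥ* G.map ψ = 0 →
    x ∈ Submodule.span L ((fun y => ψ ∘ y) '' {y | y ᵥ* G = 0})

end Fam

end Pool.Agent.Lib.MP_2add11_gt.IG
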