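import Pool.Agent.Lib.MP_2add11_gt.IG.FamCT

/-!
Matrices that lower a chain of modules with finite resolutions have unipotent classes of finite
order.
-/

noncomputable section

namespace Pool.Agent.Lib.MP_2add11_gt.IG.Fam

open Function Matrix LinearMap

/-- A resolution of length at most `m` by finite projective modules. -/
def FR (A : Type) [Ring A] : ℕ → ∀ (M : Type) [AddCommGroup M] [Module A M], Prop
  | 0, M, _, _ => Module.Finite A M ∧ Module.Projective A M
  | m + 1, M, _, _ => ∃ (P : Type) (_ : AddCommGroup P) (_ : Module A P) (g : P →ₗ[A] M),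
      Module.Finite A P ∧ Module.Projective A P ∧ Surjective g ∧ FR A m (LinearMap.ker g)

variable {A U : Type} [Ring A]

theorem FR.equiv {K M : Type} [AddCommGroup K] [Module A K] [AddCommGroup M] [Module A M] {m : ℕ}
    (h : FR A m K) (e : K ≃ₗ[A] M) : FR A m M := by
  cases m with
  | zero =>
    obtain ⟨_, _⟩ := h
    exact ⟨.equiv e, .of_equiv e⟩
  | succ m =>
    obtain ⟨P, _, _, g, h1, h2, h3, h4⟩ := h
    refine ⟨P, inferInstance, inferInstance, e.toLinearMap ∘ₗ g, h1, h2, e.surjective.comp h3, ?_⟩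
    rwa [LinearEquiv.ker_comp]

theorem FR.prod {K : Type} [AddCommGroup K] [Module A K] {m : ℕ} (h : FR A m K) (Q : Type)
    [AddCommGroup Q] [Module A Q] [Module.Finite A Q] [Module.Projective A Q] : FR A m (K × Q) := by
  cases m with
  | zero =>
    obtain ⟨_, _⟩ := h
    exact ⟨inferInstance, inferInstance⟩
  | succ m =>
    obtain ⟨P, _, _, g, _, _, h3, h4⟩ := h
    refine ⟨P × Q, inferInstance, inferInstance, g.prodMap LinearMap.id, inferInstance,
      inferInstance, h3.prodMap surjective_id, h4.equiv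
        { toFun := fun x => ⟨(x.1, 0), by simp⟩
          map_add' := fun x y => by ext <;> simp
          map_smul' := fun x y => by ext <;> simp
          invFun := fun x => ⟨x.1.1, congrArg Prod.fst x.2⟩
          left_inv := fun x => rfl
          right_inv := fun x => Subtype.ext (Prod.ext rfl (congrArg Prod.snd x.2).symm) }⟩

theorem FR.of_proj (m : ℕ) : ∀ (P : Type) [AddCommGroup P] [Module A P] [Module.Finite A P]
    [Module.Projective A P], FR A m P := by
  induction m with
  | zero => exact fun _ _ _ h1 h2 => ⟨h1, h2⟩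
  | succ m ih =>
    intro P _ _ _ _
    refine ⟨P, inferInstance, inferInstance, LinearMap.id, inferInstance, inferInstance,
      surjective_id, ?_⟩
    rw [LinearMap.ker_id]
    exact ih _

/-- A chain of shift moves of length `k` through modules with resolutions of length `≤ m`. -/
def Ch' (A U : Type) [Ring A] (m : ℕ) :
    ℕ → ∀ (M : Type) [AddCommGroup M] [Module A M], (U → M →ₗ[A] M) → Prop
  | 0, _, _, _, ν => ∀ u, ν u = 0
  | k + 1, M, _, _, ν => ∃ (K : Type) (_ : AddCommGroup K) (_ : Module A K) (j : K →ₗ[A] M)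
      (ν' : U → M →ₗ[A] K), FR A m K ∧ (fun u => j ∘ₗ ν' u) = ν ∧
        Ch' A U m k K fun u => ν' u ∘ₗ j

theorem Ch'.ch (k : ℕ) : ∀ (M : Type) [AddCommGroup M] [Module A M] (ν : U → M →ₗ[A] M),
    Ch' A U 0 k M ν → Ch A U 0 k M ν := by
  induction k with
  | zero => exact fun _ _ _ _ h => h
  | succ k ih =>
    rintro M _ _ _ ⟨K, _, _, j, ν', hK, rfl, hc⟩
    exact ⟨K, inferInstance, inferInstance, j, ν', hK.1, pd_zero.2 hK.2, rfl, ih _ _ hc⟩

theorem ch_res' {m : ℕ} (k : ℕ) :
    ∀ (M : Type) [AddCommGroup M] [Module A M] (ν : U → M →ₗ[A] M), FR A (m + 1) M →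
      Ch' A U (m + 1) k M ν → ∃ (Q : Type) (_ : AddCommGroup Q) (_ : Module A Q) (p : Q →ₗ[A] M)
        (N : U → Q →ₗ[A] Q) (μ : U → LinearMap.ker p →ₗ[A] LinearMap.ker p), Module.Finite A Q ∧
        Module.Projective A Q ∧ Surjective p ∧ (∀ u x, p (N u x) = ν u (p x)) ∧
        (∀ u x, (μ u x).1 = N u x.1) ∧ Ch A U 0 k Q N ∧ Ch' A U m k _ μ ∧
        FR A m (LinearMap.ker p) := by
  induction k with
  | zero =>
    rintro M _ _ ν ⟨P, _, _, g, _, _, hg, h0⟩ hν
    exact ⟨_, inferInstance, inferInstance, g, 0, 0, inferInstance, inferInstance, hg,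
      fun u x => by simp [hν u], fun _ _ => rfl, fun _ => rfl, fun _ => rfl, h0⟩
  | succ k ih =>
    rintro M _ _ _ ⟨P, _, _, g, _, _, hg, h0⟩ ⟨K, _, _, j, ν', hK, rfl, hc⟩
    obtain ⟨Q, _, _, p, N, μ, _, _, h1, h2, h3, h4, h5, h6⟩ := ih K _ hK hc
    choose h hh using fun u => Module.projective_lifting_property p (ν' u ∘ₗ g) h1
    obtain ⟨l, hl⟩ := Module.projective_lifting_property g (j ∘ₗ p) hg
    have hl' : ∀ x, g (l x) = j (p x) := LinearMap.congr_fun hl
    let p' : P × Q →ₗ[A] M := g.coprod (j ∘ₗ p)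
    let N' : U → P × Q →ₗ[A] Q := fun u => (h u).coprod (N u)
    have e1 : ∀ u x, p (N' u x) = ν' u (p' x) := fun u x => by
      have a1 : p (h u x.1) = ν' u (g x.1) := LinearMap.congr_fun (hh u) x.1
      simp [p', N', a1, h2]
    let J : LinearMap.ker p →ₗ[A] LinearMap.ker p' :=
      (inr A _ Q ∘ₗ (LinearMap.ker p).subtype).codRestrict _ fun x => by simp [p']
    let N'' : U → LinearMap.ker p' →ₗ[A] LinearMap.ker p := fun u =>
      (N' u ∘ₗ (LinearMap.ker p').subtype).codRestrict _ fun x => by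
        rw [mem_ker, LinearMap.comp_apply, e1, Submodule.subtype_apply, x.2, map_zero]
    refine ⟨_, inferInstance, inferInstance, p', fun u => inr A _ Q ∘ₗ N' u, fun u => J ∘ₗ N'' u,
      inferInstance, inferInstance, fun y => ?_, fun u x => ?_, fun _ _ => rfl,
      ⟨Q, inferInstance, inferInstance, inr A _ Q, N', inferInstance, PD.of_proj 0, rfl, ?_⟩,
      ⟨_, inferInstance, inferInstance, J, N'', h6, rfl, ?_⟩, (h0.prod Q).equiv
        { toFun := fun x => ⟨(x.1.1 - l x.2, x.2), by simp [p', hl']⟩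
          map_add' := fun x y => by
            ext
            · simp [add_sub_add_comm]
            · simp
          map_smul' := fun x y => by
            ext
            · simp [smul_sub]
            · simp
          invFun := fun x => (⟨x.1.1 + l x.1.2, by
            have : g x.1.1 + j (p x.1.2) = 0 := x.2
            rw [mem_ker, map_add, hl', this]⟩, x.1.2)
          left_inv := fun x => by ext <;> simp
          right_inv := fun x => by ext <;> simp }⟩
    · obtain ⟨x, rfl⟩ := hg y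
      exact ⟨(x, 0), by simp [p']⟩
    · simp only [LinearMap.comp_apply, ← e1]
      simp [p']
    · simpa only [N', coprod_inr] using h4
    · convert h5 using 2 with u
      ext x
      rw [h3]
      simp [N'', J, N']

theorem Triv.ch_all' (T : Triv A U) (m k : ℕ) : ∀ (P : Type) [AddCommGroup P] [Module A P]
    [Module.Finite A P] [Module.Projective A P] (ν : U → P →ₗ[A] P), Ch' A U m k P ν → T.Z' ν := by
  induction m with
  | zero => exact fun P _ _ _ _ ν h => Triv.ch_zero k P ν (Ch'.ch k P ν h)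
  | succ m ih =>
    intro P _ _ _ _ ν hν
    obtain ⟨Q, _, _, p, N, μ, _, _, h1, h2, h3, h4, h5, -⟩ := ch_res' k P ν (FR.of_proj _ P) hν
    obtain ⟨s, hs⟩ := Module.projective_lifting_property p LinearMap.id h1
    have hs' : ∀ x, p (s x) = x := LinearMap.congr_fun hs
    let r : Q →ₗ[A] LinearMap.ker p :=
      (LinearMap.id - s ∘ₗ p).codRestrict _ fun x => by simp [hs']
    have hr : ∀ x : LinearMap.ker p, r x.1 = x := fun x => Subtype.ext (by simp [r])
    have : Module.Projective A (LinearMap.ker p) :=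
      .of_split (LinearMap.ker p).subtype r (LinearMap.ext hr)
    have : Module.Finite A (LinearMap.ker p) := .of_surjective r fun x => ⟨x.1, hr x⟩
    obtain ⟨l, _, _, i', π', e', z1⟩ := ih _ μ h5
    obtain ⟨n, π, i, -, -, e⟩ := Module.Finite.exists_comp_eq_id_of_projective A P
    have e1 : ∀ x, π (i x) = x := LinearMap.congr_fun e
    have e2 : ∀ x, π' (i' x) = x := LinearMap.congr_fun e'
    let S := LinearEquiv.sumArrowLequivProdArrow l (Fin n) A A
    let I : Q →ₗ[A] l ⊕ Fin n → A := S.symm.toLinearMap ∘ₗ (i' ∘ₗ r).prod (i ∘ₗ p)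
    let Pr : (l ⊕ Fin n → A) →ₗ[A] Q :=
      ((LinearMap.ker p).subtype ∘ₗ π').coprod (s ∘ₗ π) ∘ₗ S.toLinearMap
    have z2 := Triv.Z'.move (T := T) (j := LinearMap.id) (ν' := N) (Triv.ch_zero k Q N h4) I Pr
      (LinearMap.ext fun x => by simp [I, Pr, e1, e2, r])
    have a1 : ∀ b : l, Pr (Pi.single (.inl b) 1) = (π' (Pi.single b 1)).1 := fun b => by
      have : S (Pi.single (.inl b) 1) = (Pi.single b 1, 0) := by
        ext a <;> simp [S, Pi.single_apply]
      simp [Pr, this]
    have a2 : ∀ b : Fin n, Pr (Pi.single (.inr b) 1) = s (π (Pi.single b 1)) := fun b => by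
      have : S (Pi.single (.inr b) 1) = (0, Pi.single b 1) := by
        ext a <;> simp [S, Pi.single_apply]
      simp [Pr, this]
    refine ⟨_, inferInstance, inferInstance, i, π, e, T.tri _
      (fun u => (toMatrixRight' (I ∘ₗ (LinearMap.id ∘ₗ N u) ∘ₗ Pr)).toBlocks₂₁) _ ?_ z1⟩
    convert z2 using 2 with u
    ext (a | a) (b | b)
    · simp [Triv.tm_apply, a1, I, S, ← h3, hr]
    · simp [Triv.tm_apply, a1, I, S, h2]
    · rfl
    · simp [Triv.tm_apply, a2, I, S, h2, hs']

theorem ch_chain {P : Type} [AddCommGroup P] [Module A P] {e : ℕ} (M : ℕ → Submodule A P)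
    (h0 : M 0 = ⊥) (hm : ∀ j, M j ≤ M (j + 1)) (hF : ∀ j, FR A e (M j)) (ν : U → P →ₗ[A] P)
    (h : ∀ u j, ∀ x ∈ M (j + 1), ν u x ∈ M j) (k : ℕ) :
    Ch' A U e k (M k) fun u => (ν u).restrict fun x hx => h u k x (hm k hx) := by
  induction k with
  | zero =>
    intro u
    ext x
    have : ∀ y ∈ M 0, y = 0 := fun y hy => by simpa [h0] using hy
    exact this _ (Subtype.prop _)
  | succ k ih =>
    exact ⟨M k, inferInstance, inferInstance, Submodule.inclusion (hm k),
      fun u => (ν u).restrict (h u k), hF k, rfl, ih⟩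

variable {R S L W n : Type} [Ring R] [Ring S] [Ring L] [AddCommGroup W] [Fintype n]

theorem row_tors [DecidableEq n] (c : FG.Inv S W) (f : S →+* L) (hf : Injective f)
    (hd : ∀ x : L, ∃ d : ℕ, 0 < d ∧ ∃ y, f y = d • x) {e : ℕ} (m : ℕ)
    (M : ℕ → Submodule L (n → L)) (h0 : M 0 = ⊥) (hm : ∀ j, M j ≤ M (j + 1))
    (hF : ∀ j, FR L e (M j)) (Z : Matrix n n S) (h1 : ∀ x, x ᵥ* Z.map f ∈ M m)
    (h2 : ∀ j, ∀ x ∈ M (j + 1), x ᵥ* Z.map f ∈ M j) : IsOfFinAddOrder (c.c (1 + Z)) := by
  have p0 : ∀ i (x : n → L), x ᵥ* (Z ^ (i + 1)).map f = (x ᵥ* Z.map f) ᵥ* (Z ^ i).map f :=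
    fun i x => by rw [pow_succ', Matrix.map_mul, vecMul_vecMul]
  have p1 : ∀ i j, ∀ x ∈ M j, x ᵥ* (Z ^ i).map f ∈ M j := fun i j => by
    induction i with
    | zero => exact fun x hx => by simpa using hx
    | succ i ih => exact fun x hx => p0 i x ▸ ih _ (h2 j x (hm j hx))
  have p2 : ∀ j, ∀ x ∈ M j, x ᵥ* (Z ^ j).map f = 0 := fun j => by
    induction j with
    | zero => exact fun x hx => by simpa [h0] using hx
    | succ j ih => exact fun x hx => p0 j x ▸ ih _ (h2 j x hx)
  have hk : Z ^ (m + 1) = 0 := Matrix.map_injective hf (by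
    ext p q
    have := congrFun ((p0 m (Pi.single p 1)).trans (p2 m _ (h1 _))) q
    simpa using this)
  let Y : Fin (m + 1) → Matrix n n L := fun u => (Z ^ (u.1 + 1)).map f
  let ν : Fin (m + 1) → (n → L) →ₗ[L] n → L := fun u => toLinearMapRight' (Y u)
  have z : (triv (U := Fin (m + 1)) (RingHom.id S) c f hf hd).Z Y := by
    have := Triv.Z'.move (j := LinearMap.id) (ν' := ν)
      ((triv (U := Fin (m + 1)) (RingHom.id S) c f hf hd).ch_all' e (m + 1) _ _
        ⟨M m, inferInstance, inferInstance, (M m).subtype, fun u => (ν u).codRestrict _ fun x =>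
          show x ᵥ* Y u ∈ M m from p0 u x ▸ p1 _ _ _ (h1 x), hF m, rfl,
          ch_chain M h0 hm hF ν (fun u j x hx =>
            show x ᵥ* Y u ∈ M j from p0 u x ▸ p1 _ _ _ (h2 j x hx)) m⟩) LinearMap.id LinearMap.id rfl
    simpa [ν] using this
  obtain ⟨d, d0, hd'⟩ := z
  obtain ⟨q, q0, Z', hZ', e⟩ := pow_cong
    (T := .span ℤ (Set.range fun u : Fin (m + 1) => Z ^ (u.1 + 1))) (fun j => by
      by_cases hj : j < m + 1
      · exact Submodule.subset_span ⟨⟨j, hj⟩, rfl⟩
      · rw [pow_eq_zero_of_le (by omega) hk]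
        exact zero_mem _) hk d0
  obtain ⟨s, rfl⟩ := (Submodule.mem_span_range_iff_exists_fun ℤ).1 hZ'
  refine isOfFinAddOrder_iff_nsmul_eq_zero.2 ⟨q, q0, ?_⟩
  rw [← c.pow (IsNilpotent.isUnit_one_add ⟨_, hk⟩), e,
    ← (hd' d dvd_rfl (fun u => (s u : S)) (fun u r => (Int.cast_commute _ _).symm)
      (fun u => d • Z ^ (u.1 + 1)) fun u => map_nsmul f.mapMatrix d _).2]
  congr 2
  ext p q
  simp only [E, Matrix.smul_apply, of_apply, Finset.smul_sum, Matrix.sum_apply, RingHom.id_apply,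
    smul_mul_assoc, natCast_zsmul]
  simp only [zsmul_eq_mul, Int.cast_comm]

theorem map_vm (ψ : R →+* L) {a b : Type} [Fintype a] (y : a → R) (G : Matrix a b R) :
    (ψ ∘ y) ᵥ* G.map ψ = ψ ∘ (y ᵥ* G) := funext fun i => (ψ.map_vecMul G y i).symm

theorem fr_span [IsNoetherianRing R] (ψ : R →+* L) (h : Fl ψ) (e : ℕ) :
    ∀ (n : Type) [Fintype n] (K : Submodule R (n → R)), PD R K e →
      FR L e (Submodule.span L ((fun y => ψ ∘ y) '' (K : Set (n → R)))) := by
  have key : ∀ (n : Type) [Fintype n] (K : Submodule R (n → R)),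
      ∃ (a : ℕ) (g : (Fin a → R) →ₗ[R] K) (G : Matrix (Fin a) n R)
        (γ : (Fin a → L) →ₗ[L] Submodule.span L ((fun y => ψ ∘ y) '' (K : Set (n → R)))), Surjective g ∧
        (∀ y, y ᵥ* G = (g y).1) ∧ (∀ x, (γ x).1 = x ᵥ* G.map ψ) ∧ Surjective γ ∧
        LinearMap.ker γ = Submodule.span L ((fun y => ψ ∘ y) '' (LinearMap.ker g : Set (Fin a → R))) := by
    intro n _ K
    obtain ⟨a, g, hg⟩ := Module.Finite.exists_fin' R K
    let G := toMatrixRight' (K.subtype ∘ₗ g)
    have hG : ∀ y, y ᵥ* G = (g y).1 := fun y =>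
      LinearMap.congr_fun (toMatrixRight'.symm_apply_apply (K.subtype ∘ₗ g)) y
    have hr : LinearMap.range (G.map ψ).vecMulLinear =
        Submodule.span L ((fun y => ψ ∘ y) '' (K : Set (n → R))) := by
      refine le_antisymm ?_ (Submodule.span_le.2 ?_)
      · rw [range_vecMulLinear, Submodule.span_le]
        rintro _ ⟨i, rfl⟩
        exact Submodule.subset_span ⟨_, (g (Pi.single i 1)).2, rfl⟩
      · rintro _ ⟨y, hy, rfl⟩
        obtain ⟨x, hx⟩ := hg ⟨y, hy⟩
        exact ⟨ψ ∘ x, by rw [vecMulLinear_apply, map_vm, hG, hx]⟩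
    refine ⟨a, g, G, (G.map ψ).vecMulLinear.codRestrict _ fun x => hr ▸ ⟨x, rfl⟩, hg, hG,
      fun _ => rfl, fun y => ?_, ?_⟩
    · obtain ⟨x, hx⟩ := hr.ge y.2
      exact ⟨x, Subtype.ext hx⟩
    · rw [ker_codRestrict]
      refine le_antisymm (fun x hx => Submodule.span_mono (Set.image_mono fun y hy => ?_)
        (h _ _ G x hx)) (Submodule.span_le.2 ?_)
      · exact Subtype.ext ((hG y).symm.trans hy)
      · rintro _ ⟨y, hy, rfl⟩
        change (ψ ∘ y) ᵥ* G.map ψ = 0
        rw [map_vm, hG, show g y = 0 from hy]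
        ext i
        simp
  induction e with
  | zero =>
    intro n _ K hK
    obtain ⟨a, g, G, γ, hg, hG, hγ, h1, h2⟩ := key n K
    have := pd_zero.1 hK
    obtain ⟨s, hs⟩ := Module.projective_lifting_property g LinearMap.id hg
    have hs' : ∀ x, g (s x) = x := LinearMap.congr_fun hs
    let D := toMatrixRight' (s ∘ₗ g)
    have hD : ∀ y, y ᵥ* D = s (g y) := fun y =>
      LinearMap.congr_fun (toMatrixRight'.symm_apply_apply (s ∘ₗ g)) y
    have e1 : D * G = G := by
      ext p q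
      have := congrFun ((vecMul_vecMul (Pi.single p 1) D G).symm.trans (by
        rw [hD, hG, hs', ← hG])) q
      simpa using this
    have e2 : LinearMap.ker γ ≤ LinearMap.ker (D.map ψ).vecMulLinear := by
      rw [h2, Submodule.span_le]
      rintro _ ⟨y, hy, rfl⟩
      change (ψ ∘ y) ᵥ* D.map ψ = 0
      rw [map_vm, hD, show g y = 0 from hy, map_zero]
      ext i
      simp
    refine ⟨.of_surjective γ h1, .of_split ((LinearMap.ker γ).liftQ _ e2 ∘ₗ
      (γ.quotKerEquivOfSurjective h1).symm.toLinearMap) γ (LinearMap.ext fun y => ?_)⟩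
    obtain ⟨x, rfl⟩ := h1 y
    refine Subtype.ext ?_
    simp only [LinearMap.comp_apply, LinearEquiv.coe_coe, quotKerEquivOfSurjective_symm_apply,
      Submodule.liftQ_apply, hγ, vecMulLinear_apply, vecMul_vecMul, ← Matrix.map_mul, e1,
      LinearMap.id_apply]
  | succ e ih =>
    intro n _ K hK
    obtain ⟨a, g, G, γ, hg, -, -, h1, h2⟩ := key n K
    refine ⟨_, inferInstance, inferInstance, γ, inferInstance, inferInstance, h1, ?_⟩
    rw [h2]
    exact ih _ _ (PD.ker hg (PD.of_proj e) hK)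

theorem row_chain {R S L W n : Type} [Ring R] [Ring S] [Ring L] [AddCommGroup W] [Fintype n]
    [DecidableEq n] [IsNoetherianRing R] {e : ℕ} (hR : Fam.GD R e) (ψ : R →+* L) (hψ : Fam.Fl ψ)
    (c : FG.Inv S W) (f : S →+* L) (hf : Injective f)
    (hd : ∀ x : L, ∃ d : ℕ, 0 < d ∧ ∃ y, f y = d • x) (m : ℕ) (K : ℕ → Set (n → R))
    (h0 : ∀ y ∈ K 0, y = 0) (hm : ∀ j, K j ⊆ K (j + 1)) (Z : Matrix n n S)
    (h1 : ∀ x, x ᵥ* Z.map f ∈ Submodule.span L ((fun y => ψ ∘ y) '' K m))
    (h2 : ∀ j, ∀ y ∈ K (j + 1), (ψ ∘ y) ᵥ* Z.map f ∈ Submodule.span L ((fun y => ψ ∘ y) '' K j)) :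
    IsOfFinAddOrder (c.c (1 + Z)) := by
  refine row_tors c f hf hd (e := e) m (fun j => Submodule.span L ((fun y => ψ ∘ y) '' K j)) ?_
    (fun j => Submodule.span_mono (Set.image_mono (hm j))) (fun j => ?_) Z h1 fun j x hx => ?_
  · rw [Submodule.span_eq_bot]
    rintro _ ⟨y, hy, rfl⟩
    rw [h0 y hy]
    ext i
    simp
  · have : Submodule.span L ((fun y => ψ ∘ y) '' K j) =
        Submodule.span L ((fun y => ψ ∘ y) '' (Submodule.span R (K j) : Set (n → R))) := by
      refine le_antisymm (Submodule.span_mono (Set.image_mono Submodule.subset_span))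
        (Submodule.span_le.2 ?_)
      rintro _ ⟨y, hy, rfl⟩
      change ψ ∘ y ∈ Submodule.span L ((fun y => ψ ∘ y) '' K j)
      induction hy using Submodule.span_induction with
      | mem y hy => exact Submodule.subset_span ⟨y, hy, rfl⟩
      | zero => exact (show (ψ ∘ (0 : n → R)) = 0 by ext; simp) ▸ zero_mem _
      | add a b _ _ p q => exact (show ψ ∘ (a + b) = ψ ∘ a + ψ ∘ b by ext; simp) ▸ add_mem p q
      | smul r a _ p =>
        exact (show ψ ∘ (r • a) = ψ r • (ψ ∘ a) by ext; simp) ▸ Submodule.smul_mem _ _ p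
    rw [this]
    exact fr_span ψ hψ e n _ (hR _)
  · refine (Submodule.span_le (p := Submodule.comap (Z.map f).vecMulLinear
      (Submodule.span L ((fun y => ψ ∘ y) '' K j)))).2 ?_ hx
    rintro _ ⟨y, hy, rfl⟩
    exact h2 j y hy

end Pool.Agent.Lib.MP_2add11_gt.IG.Fam
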