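import Pool.Agent.Lib.MP_2add11_gt.IG.NilDim

/-!
Nilpotent families of matrices over a left noetherian ring of finite global dimension.
-/

noncomputable section

namespace Pool.Agent.Lib.MP_2add11_gt.IG.Fam

open CategoryTheory TensorProduct Function Matrix LinearMap

/-- Projective dimension at most `m`. -/
def PD (A M : Type) [Ring A] [AddCommGroup M] [Module A M] (m : ℕ) : Prop :=
  HasProjectiveDimensionLE (ModuleCat.of A M) m

/-- Left global dimension at most `m`. -/
def GD (A : Type) [Ring A] (m : ℕ) : Prop :=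
  ∀ (M : Type) [AddCommGroup M] [Module A M], PD A M m

section

variable {A : Type} [Ring A] {K L M : Type} [AddCommGroup K] [AddCommGroup L] [AddCommGroup M]
  [Module A K] [Module A L] [Module A M]

theorem pd_zero : PD A M 0 ↔ Module.Projective A M := by
  rw [PD, ← projective_iff_hasProjectiveDimensionLE_zero, ← IsProjective.iff_projective]

theorem PD.of_proj [h : Module.Projective A M] (m : ℕ) : PD A M m := by
  have : HasProjectiveDimensionLT (ModuleCat.of A M) 1 := pd_zero.2 h
  exact hasProjectiveDimensionLT_of_ge _ 1 _ (by omega)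

theorem PD.coker {f : K →ₗ[A] L} {g : L →ₗ[A] M} (h : Exact f g) (hf : Injective f)
    (hg : Surjective g) {m : ℕ} (h1 : PD A K m) (h2 : PD A L (m + 1)) : PD A M (m + 1) :=
  (ModuleCat.shortComplex_shortExact
    (ModuleCat.shortComplexOfCompEqZero f g h.linearMap_comp_eq_zero) h hf
      hg).hasProjectiveDimensionLT_X₃ (m + 1) h1 h2

theorem PD.ker {g : L →ₗ[A] M} (hg : Surjective g) {m : ℕ} (h1 : PD A L m)
    (h2 : PD A M (m + 1)) : PD A (LinearMap.ker g) m :=
  (LinearMap.shortExact_shortComplexKer hg).hasProjectiveDimensionLT_X₁ (m + 1) h1 h2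

theorem PD.retract (s : M →ₗ[A] L) (g : L →ₗ[A] M) (h : ∀ x, g (s x) = x) {m : ℕ}
    (h1 : PD A L m) : PD A M m := by
  have : HasProjectiveDimensionLT (ModuleCat.of A L) (m + 1) := h1
  exact Retract.hasProjectiveDimensionLT (X := ModuleCat.of A M) (Y := ModuleCat.of A L)
    ⟨ModuleCat.ofHom s, ModuleCat.ofHom g, by ext x; exact h x⟩ (m + 1)

end

theorem PD.base {A B : Type} [CommRing A] [Ring B] [Algebra A B] [Module.Free A B] (m : ℕ) :
    ∀ (M : Type) [AddCommGroup M] [Module A M], PD A M m → PD B (B ⊗[A] M) m := by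
  induction m with
  | zero =>
    intro M _ _ h
    have := pd_zero.1 h
    exact pd_zero.2 inferInstance
  | succ m ih =>
    intro M _ _ h
    let g : (M →₀ A) →ₗ[A] M := Finsupp.linearCombination A id
    have hg : Surjective g := fun x => ⟨Finsupp.single x 1, by simp [g]⟩
    have ex := lTensor_exact (M := LinearMap.ker g) B g.exact_subtype_ker_map hg
    exact PD.coker (f := (LinearMap.ker g).subtype.baseChange B) (g := g.baseChange B) ex
      (Module.Flat.lTensor_preserves_injective_linearMap _ (LinearMap.ker g).injective_subtype)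
      (LinearMap.lTensor_surjective B hg) (ih _ (PD.ker hg (PD.of_proj m) h)) (PD.of_proj _)

theorem gd_group {A : Type} [CommRing A] {m : ℕ} (h : IG.GD A m) (F : Type) [Group F] [Finite F]
    (hu : IsUnit (Nat.card F : A)) : GD (MonoidAlgebra A F) m := by
  intro M _ _
  have := Fintype.ofFinite F
  let : Module A M := Module.compHom M (algebraMap A (MonoidAlgebra A F))
  have : IsScalarTower A (MonoidAlgebra A F) M := IsScalarTower.of_algebraMap_smul fun _ _ => rfl
  have : SMulCommClass A (MonoidAlgebra A F) M := IsScalarTower.to_smulCommClass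
  let ε : MonoidAlgebra A F ⊗[A] M →ₗ[MonoidAlgebra A F] M :=
    AlgebraTensorModule.lift (toSpanSingleton (MonoidAlgebra A F) (M →ₗ[A] M) LinearMap.id)
  have hε : ∀ (b : MonoidAlgebra A F) (y : M), ε (b ⊗ₜ y) = b • y := fun _ _ => rfl
  refine PD.retract ((TensorProduct.mk A (MonoidAlgebra A F) M 1).equivariantProjection F) ε
    (fun x => ?_) (PD.base m M (h M))
  rw [equivariantProjection_apply, LinearMap.map_smul_of_tower, map_sum,
    Finset.sum_congr rfl (g := fun _ => x) fun g _ => ?_]
  · rw [Finset.sum_const, Finset.card_univ, ← Nat.cast_smul_eq_nsmul A, smul_smul,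
      Fintype.card_eq_nat_card, Ring.inverse_mul_cancel _ hu, one_smul]
  · rw [conjugate_apply, map_smul, mk_apply, hε, one_smul, smul_smul,
      MonoidAlgebra.single_mul_single, inv_mul_cancel, one_mul, ← MonoidAlgebra.one_def, one_smul]

/-- A property of families of square matrices that holds for zero and is closed under two
moves. -/
structure Triv (A U : Type) [Ring A] where
  Z : ∀ {n : Type} [Fintype n] [DecidableEq n], (U → Matrix n n A) → Prop
  zero : ∀ {n : Type} [Fintype n] [DecidableEq n], Z fun _ => (0 : Matrix n n A)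
  swap : ∀ {m n : Type} [Fintype m] [DecidableEq m] [Fintype n] [DecidableEq n]
    (H : Matrix m n A) (X : U → Matrix n m A), (Z fun u => H * X u) → Z fun u => X u * H
  tri : ∀ {m n : Type} [Fintype m] [DecidableEq m] [Fintype n] [DecidableEq n]
    (P : U → Matrix m m A) (X : U → Matrix n m A) (Q : U → Matrix n n A),
    (Z fun u => fromBlocks (P u) 0 (X u) (Q u)) → Z P → Z Q

variable {A U : Type} [Ring A]

/-- A chain of shift moves of length `k` through finite modules of projective dimension `≤ m`. -/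
def Ch (A U : Type) [Ring A] (m : ℕ) :
    ℕ → ∀ (M : Type) [AddCommGroup M] [Module A M], (U → M →ₗ[A] M) → Prop
  | 0, _, _, _, ν => ∀ u, ν u = 0
  | k + 1, M, _, _, ν => ∃ (K : Type) (_ : AddCommGroup K) (_ : Module A K) (j : K →ₗ[A] M)
      (ν' : U → M →ₗ[A] K), Module.Finite A K ∧ PD A K m ∧ (fun u => j ∘ₗ ν' u) = ν ∧
        Ch A U m k K fun u => ν' u ∘ₗ j

theorem ch_of_nil [IsNoetherianRing A] {m : ℕ} (h : GD A m) (k : ℕ) :
    ∀ (M : Type) [AddCommGroup M] [Module A M] [Module.Finite A M] (ν : U → M →ₗ[A] M),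
      (∀ w : List U, w.length = k + 1 → ((w.map ν).prod : Module.End A M) = 0) →
      Ch A U m k M ν := by
  induction k with
  | zero => exact fun M _ _ _ ν hν u => by simpa using hν [u] rfl
  | succ k ih =>
    intro M _ _ _ ν hν
    let K : Submodule A M := ⨆ u, LinearMap.range (ν u)
    let ν' : U → M →ₗ[A] K := fun u => (ν u).codRestrict K fun x =>
      Submodule.mem_iSup_of_mem u (LinearMap.mem_range_self _ x)
    refine ⟨K, inferInstance, inferInstance, K.subtype, ν', inferInstance, h _, rfl,
      ih _ _ fun w hw => ?_⟩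
    have key : ∀ (w : List U) (x : K), (((w.map fun u => ν' u ∘ₗ K.subtype).prod :
        Module.End A K) x).1 = ((w.map ν).prod : Module.End A M) x.1 := by
      intro w
      induction w with
      | nil => exact fun _ => rfl
      | cons u w ih' =>
        intro x
        rw [List.map_cons, List.map_cons, List.prod_cons, List.prod_cons, Module.End.mul_apply,
          Module.End.mul_apply, ← ih']
        rfl
    have hK : K ≤ LinearMap.ker ((w.map ν).prod : Module.End A M) := iSup_le fun u => by
      rintro _ ⟨x, rfl⟩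
      have := hν (w ++ [u]) (by simp [hw])
      rw [List.map_append, List.prod_append, List.map_singleton, List.prod_singleton] at this
      exact LinearMap.congr_fun this x
    ext x
    rw [key]
    exact hK x.2

theorem ch_res {m : ℕ} [IsNoetherianRing A] (k : ℕ) :
    ∀ (M : Type) [AddCommGroup M] [Module A M] [Module.Finite A M] (ν : U → M →ₗ[A] M),
      Ch A U (m + 1) k M ν → ∃ (Q : Type) (_ : AddCommGroup Q) (_ : Module A Q) (p : Q →ₗ[A] M)
        (N : U → Q →ₗ[A] Q) (μ : U → LinearMap.ker p →ₗ[A] LinearMap.ker p), Module.Finite A Q ∧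
        Module.Projective A Q ∧ Surjective p ∧ (∀ u x, p (N u x) = ν u (p x)) ∧
        (∀ u x, (μ u x).1 = N u x.1) ∧ Ch A U 0 k Q N ∧ Ch A U m k _ μ := by
  induction k with
  | zero =>
    intro M _ _ _ ν hν
    obtain ⟨n, g, hg⟩ := Module.Finite.exists_fin' A M
    exact ⟨_, inferInstance, inferInstance, g, 0, 0, inferInstance, inferInstance, hg,
      fun u x => by simp [hν u], fun _ _ => rfl, fun _ => rfl, fun _ => rfl⟩
  | succ k ih =>
    rintro M _ _ _ _ ⟨K, _, _, j, ν', _, hK, rfl, hc⟩
    obtain ⟨Q, _, _, p, N, μ, _, _, h1, h2, h3, h4, h5⟩ := ih K _ hc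
    obtain ⟨n, g, hg⟩ := Module.Finite.exists_fin' A M
    choose h hh using fun u => Module.projective_lifting_property p (ν' u ∘ₗ g) h1
    let p' : (Fin n → A) × Q →ₗ[A] M := g.coprod (j ∘ₗ p)
    let N' : U → (Fin n → A) × Q →ₗ[A] Q := fun u => (h u).coprod (N u)
    have e1 : ∀ u x, p (N' u x) = ν' u (p' x) := fun u x => by
      have a1 : p (h u x.1) = ν' u (g x.1) := LinearMap.congr_fun (hh u) x.1
      simp [p', N', a1, h2]
    let J : LinearMap.ker p →ₗ[A] LinearMap.ker p' :=
      (inr A _ Q ∘ₗ (LinearMap.ker p).subtype).codRestrict _ fun x => by simp [p']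
    let N'' : U → LinearMap.ker p' →ₗ[A] LinearMap.ker p := fun u =>
      (N' u ∘ₗ (LinearMap.ker p').subtype).codRestrict _ fun x => by
        rw [mem_ker, LinearMap.comp_apply, e1, Submodule.subtype_apply, x.2, map_zero]
    refine ⟨_, inferInstance, inferInstance, p', fun u => inr A _ Q ∘ₗ N' u, fun u => J ∘ₗ N'' u,
      inferInstance, inferInstance, fun y => ?_, fun u x => ?_, fun _ _ => rfl,
      ⟨Q, inferInstance, inferInstance, inr A _ Q, N', inferInstance, PD.of_proj 0, rfl, ?_⟩,
      ⟨_, inferInstance, inferInstance, J, N'', inferInstance, PD.ker h1 (PD.of_proj m) hK, rfl,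
        ?_⟩⟩
    · obtain ⟨x, rfl⟩ := hg y
      exact ⟨(x, 0), by simp [p']⟩
    · simp only [LinearMap.comp_apply, ← e1]
      simp [p']
    · simpa only [N', coprod_inr] using h4
    · convert h5 using 2 with u
      ext x
      rw [h3]
      simp [N'', J, N']

namespace Triv

variable (T : Triv A U)

/-- The property for a family of endomorphisms of a finite projective module. -/
def Z' {P : Type} [AddCommGroup P] [Module A P] (ν : U → P →ₗ[A] P) : Prop :=
  ∃ (n : Type) (_ : Fintype n) (_ : DecidableEq n) (i : P →ₗ[A] n → A) (π : (n → A) →ₗ[A] P),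
    π ∘ₗ i = LinearMap.id ∧ T.Z fun u => toMatrixRight' (i ∘ₗ ν u ∘ₗ π)

variable {T} {P K : Type} [AddCommGroup P] [Module A P] [AddCommGroup K] [Module A K]

theorem Z'.move {j : K →ₗ[A] P} {ν' : U → P →ₗ[A] K} (h : T.Z' fun u => ν' u ∘ₗ j) {n : Type}
    [Fintype n] [DecidableEq n] (i : P →ₗ[A] n → A) (π : (n → A) →ₗ[A] P)
    (e : π ∘ₗ i = LinearMap.id) : T.Z fun u => toMatrixRight' (i ∘ₗ (j ∘ₗ ν' u) ∘ₗ π) := by
  obtain ⟨l, _, _, i', π', e', h⟩ := h
  have := T.swap (toMatrixRight' (i ∘ₗ j ∘ₗ π')) (fun u => toMatrixRight' (i' ∘ₗ ν' u ∘ₗ π)) (by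
    convert h using 2 with u
    rw [← toMatrixRight'_comp]
    congr 1
    refine LinearMap.ext fun x => ?_
    have h1 : ∀ y, π (i y) = y := LinearMap.congr_fun e
    simp [h1])
  convert this using 2 with u
  rw [← toMatrixRight'_comp]
  congr 1
  refine LinearMap.ext fun x => ?_
  have h1 : ∀ y, π' (i' y) = y := LinearMap.congr_fun e'
  simp [h1]

theorem ch_zero (k : ℕ) : ∀ (P : Type) [AddCommGroup P] [Module A P] [Module.Finite A P]
    [Module.Projective A P] (ν : U → P →ₗ[A] P), Ch A U 0 k P ν → T.Z' ν := by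
  induction k with
  | zero =>
    intro P _ _ _ _ ν hν
    obtain ⟨n, π, i, -, -, e⟩ := Module.Finite.exists_comp_eq_id_of_projective A P
    have h0 : ∀ u, ν u = 0 := hν
    exact ⟨_, inferInstance, inferInstance, i, π, e, by simpa [h0] using T.zero⟩
  | succ k ih =>
    rintro P _ _ _ _ _ ⟨K, _, _, j, ν', _, hK, rfl, hc⟩
    have := pd_zero.1 hK
    obtain ⟨n, π, i, -, -, e⟩ := Module.Finite.exists_comp_eq_id_of_projective A P
    exact ⟨_, inferInstance, inferInstance, i, π, e, (ih K _ hc).move i π e⟩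

theorem tm_apply {m n : Type} [Fintype m] [DecidableEq m] (f : (m → A) →ₗ[A] n → A) (a : m)
    (b : n) : toMatrixRight' f a b = f (Pi.single a 1) b := rfl

theorem ch_all [IsNoetherianRing A] (m k : ℕ) : ∀ (P : Type) [AddCommGroup P] [Module A P]
    [Module.Finite A P] [Module.Projective A P] (ν : U → P →ₗ[A] P), Ch A U m k P ν → T.Z' ν := by
  induction m with
  | zero => exact ch_zero k
  | succ m ih =>
    intro P _ _ _ _ ν hν
    obtain ⟨Q, _, _, p, N, μ, _, _, h1, h2, h3, h4, h5⟩ := ch_res k P ν hν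
    obtain ⟨s, hs⟩ := Module.projective_lifting_property p LinearMap.id h1
    have hs' : ∀ x, p (s x) = x := LinearMap.congr_fun hs
    let r : Q →ₗ[A] LinearMap.ker p :=
      (LinearMap.id - s ∘ₗ p).codRestrict _ fun x => by simp [hs']
    have hr : ∀ x : LinearMap.ker p, r x.1 = x := fun x => Subtype.ext (by simp [r])
    have : Module.Projective A (LinearMap.ker p) :=
      .of_split (LinearMap.ker p).subtype r (LinearMap.ext hr)
    obtain ⟨l, _, _, i', π', e', z1⟩ := ih _ μ h5
    obtain ⟨n, π, i, -, -, e⟩ := Module.Finite.exists_comp_eq_id_of_projective A P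
    have e1 : ∀ x, π (i x) = x := LinearMap.congr_fun e
    have e2 : ∀ x, π' (i' x) = x := LinearMap.congr_fun e'
    let S := LinearEquiv.sumArrowLequivProdArrow l (Fin n) A A
    let I : Q →ₗ[A] l ⊕ Fin n → A := S.symm.toLinearMap ∘ₗ (i' ∘ₗ r).prod (i ∘ₗ p)
    let Pr : (l ⊕ Fin n → A) →ₗ[A] Q :=
      ((LinearMap.ker p).subtype ∘ₗ π').coprod (s ∘ₗ π) ∘ₗ S.toLinearMap
    have z2 := Z'.move (T := T) (j := LinearMap.id) (ν' := N) (ch_zero k Q N h4) I Pr
      (LinearMap.ext fun x => by simp [I, Pr, e1, e2, r])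
    have a1 : ∀ b : l, Pr (Pi.single (.inl b) 1) = (π' (Pi.single b 1)).1 := fun b => by
      have : S (Pi.single (.inl b) 1) = (Pi.single b 1, 0) := by
        ext a <;> simp [S, Pi.single_apply]
      simp [Pr, this]
    have a2 : ∀ b : Fin n, Pr (Pi.single (.inr b) 1) = s (π (Pi.single b 1)) := fun b => by
      have : S (Pi.single (.inr b) 1) = (0, Pi.single b 1) := by
        ext a <;> simp [S, Pi.single_apply]
      simp [Pr, this]
    refine ⟨_, inferInstance, inferInstance, i, π, e, T.tri _
      (fun u => (toMatrixRight' (I ∘ₗ (LinearMap.id ∘ₗ N u) ∘ₗ Pr)).toBlocks₂₁) _ ?_ z1⟩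
    convert z2 using 2 with u
    ext (a | a) (b | b)
    · simp [tm_apply, a1, I, S, ← h3, hr]
    · simp [tm_apply, a1, I, S, h2]
    · rfl
    · simp [tm_apply, a2, I, S, h2, hs']

theorem nil [IsNoetherianRing A] {m : ℕ} (h : GD A m) {n : Type} [Fintype n] [DecidableEq n]
    {J : Submodule ℤ (Matrix n n A)} {k : ℕ} (hJ : J ^ (k + 1) = ⊥) {Y : U → Matrix n n A}
    (hY : ∀ u, Y u ∈ J) : T.Z Y := by
  have key : ∀ w : List U, ∃ X ∈ J ^ w.length, ((w.map fun u => toLinearMapRight' (Y u)).prod :
      Module.End A (n → A)) = toLinearMapRight' X := fun w => by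
    induction w with
    | nil => exact ⟨1, Submodule.one_le.1 le_rfl, by simp [Module.End.one_eq_id]⟩
    | cons u w ih =>
      obtain ⟨X, h1, h2⟩ := ih
      refine ⟨X * Y u, ?_, ?_⟩
      · rw [List.length_cons, pow_succ]
        exact Submodule.mul_mem_mul h1 (hY u)
      · rw [List.map_cons, List.prod_cons, h2, toLinearMapRight'_mul]
        rfl
  have := Z'.move (j := LinearMap.id) (ν' := fun u => toLinearMapRight' (Y u))
    (ch_all (T := T) m k _ _ (ch_of_nil h k _ (fun u => toLinearMapRight' (Y u)) fun w hw => by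
      obtain ⟨X, h1, h2⟩ := key w
      rw [hw, hJ, Submodule.mem_bot] at h1
      rw [h2, h1, map_zero])) LinearMap.id LinearMap.id rfl
  simpa using this

end Triv

end Pool.Agent.Lib.MP_2add11_gt.IG.Fam
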