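import Pool.Agent.Lib.MP_2add11_gt.IG.FamCP

/-!
The chain property of finitely generated virtually abelian groups.
-/

noncomputable section

namespace Pool.Agent.Lib.MP_2add11_gt.IG

open Matrix MonoidAlgebra FG Function

theorem ct_of (B : Type) [Group B] [IsNoetherianRing (MonoidAlgebra ℚ B)] {d : ℕ}
    (hR : Fam.GD (MonoidAlgebra ℚ B) d) : CT B := by
  intro Γ W n _ _ _ _ s hs c m V h0 hm Z h1 h2
  let ψ := mapDomainRingHom ℚ s
  let f := mapRingHom Γ (Int.castRingHom ℚ)
  let ι := mapRingHom B (Int.castRingHom ℚ)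
  let φ := mapDomainRingHom ℤ s
  have hι : ∀ x, ψ (ι x) = f (φ x) := fun x =>
    (DFunLike.congr_fun (mapRingHom_comp_mapDomainRingHom (Int.castRingHom ℚ) s) x).symm
  let K : ℕ → Set (n → MonoidAlgebra ℚ B) :=
    fun j => {y | ∃ X ∈ V j, ∃ i, y = fun l => ι (Fam.st X i l)}
  have row : ∀ (X : Matrix n n (MonoidAlgebra ℤ B)) i,
      (ψ ∘ fun l => ι (Fam.st X i l)) = (Fam.st (φ.mapMatrix X)).map f i := fun X i => by
    funext l
    exact (hι _).trans (congrArg f (Fam.bar_map s _).symm)
  have key : ∀ j, ∀ Y ∈ Rg φ (V j), ∀ x, x ᵥ* (Fam.st Y).map f ∈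
      Submodule.span (MonoidAlgebra ℚ Γ) ((fun y => ψ ∘ y) '' K j) := by
    intro j Y hY
    induction hY using Submodule.span_induction with
    | mem Y hY =>
      obtain ⟨X, hX, t, rfl⟩ := hY
      intro x
      rw [Fam.st_mul, Matrix.map_mul, ← vecMul_vecMul, vecMul_eq_sum]
      exact Submodule.sum_mem _ fun i _ => Submodule.smul_mem _ _
        (Submodule.subset_span ⟨_, ⟨X, hX, i, rfl⟩, row X i⟩)
    | zero =>
      intro x
      rw [Fam.st_zero, Matrix.map_zero _ (map_zero f), vecMul_zero]
      exact zero_mem _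
    | add a b _ _ p q =>
      intro x
      rw [Fam.st_add, Matrix.map_add _ (map_add f), vecMul_add]
      exact add_mem (p x) (q x)
    | smul a b _ p =>
      intro x
      have e2 : x ᵥ* (Fam.st (a • b)).map f = a • (x ᵥ* (Fam.st b).map f) := by
        rw [Fam.st_smul]
        funext l
        simp only [vecMul, dotProduct, Matrix.map_apply, Matrix.smul_apply, map_zsmul,
          Pi.smul_apply, Finset.smul_sum, mul_smul_comm]
      rw [e2]
      exact zsmul_mem (p x) a
  have := Fam.row_chain hR ψ (Fam.fl_group ℚ s hs) (Fam.invSt c) f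
    (MonoidAlgebra.map_injective _ Int.cast_injective) den_clear m K
    (by
      rintro _ ⟨X, hX, i, rfl⟩
      rw [h0, AddSubgroup.mem_bot] at hX
      funext l
      rw [hX, Fam.st_zero]
      exact map_zero ι)
    (fun j _ ⟨X, hX, e⟩ => ⟨X, hm j hX, e⟩) (Fam.st Z) (key m Z h1) (by
      rintro j _ ⟨X, hX, i, rfl⟩
      have k := key j _ (h2 j X hX) (Pi.single i 1)
      rw [Fam.st_mul, Matrix.map_mul, ← vecMul_vecMul, single_one_vecMul] at k
      rw [row]
      exact k)
  change IsOfFinAddOrder (c.c (Fam.st (1 + Fam.st Z))) at this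
  rwa [Fam.st_add, Fam.st_one, Fam.st_st] at this


namespace Fam

/-- Projective dimension passes to an overring when sections can be averaged. -/
theorem pd_up {R S : Type} [Ring R] [Ring S] [Module R S] [IsScalarTower R S S]
    [Module.Projective R S]
    (havg : ∀ (M P : Type) [AddCommGroup M] [Module S M] [Module R M] [IsScalarTower R S M]
      [AddCommGroup P] [Module S P] [Module R P] [IsScalarTower R S P] (g : P →ₗ[S] M)
      (σ : M →ₗ[R] P), (∀ x, g (σ x) = x) → ∃ τ : M →ₗ[S] P, ∀ x, g (τ x) = x) (m : ℕ) :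
    ∀ (M : Type) [AddCommGroup M] [Module S M] [Module R M] [IsScalarTower R S M],
      PD R M m → PD S M m := by
  classical
  induction m with
  | zero =>
    intro M _ _ _ _ h
    have := pd_zero.1 h
    let g : (M →₀ S) →ₗ[S] M := Finsupp.linearCombination S id
    have hg : Surjective g := fun x => ⟨Finsupp.single x 1, by simp [g]⟩
    obtain ⟨σ, hσ⟩ := Module.projective_lifting_property (g.restrictScalars R) LinearMap.id hg
    obtain ⟨τ, hτ⟩ := havg M _ g σ fun x => DFunLike.congr_fun hσ x
    exact pd_zero.2 (Module.Projective.of_split τ g (LinearMap.ext hτ))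
  | succ m ih =>
    intro M _ _ _ _ h
    let g : (M →₀ S) →ₗ[S] M := Finsupp.linearCombination S id
    have hg : Surjective g := fun x => ⟨Finsupp.single x 1, by simp [g]⟩
    have : Module.Projective R (M →₀ S) :=
      Module.Projective.of_equiv' (finsuppLequivDFinsupp R).symm
    have k := PD.ker (g := g.restrictScalars R) hg (PD.of_proj m) h
    exact PD.coker g.exact_subtype_ker_map (LinearMap.ker g).injective_subtype hg
      (ih (LinearMap.ker g) k) (PD.of_proj _)

theorem fin_index {A B : Type} [CommGroup A] [Group B] [Group.FG A] (s : A →* B)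
    (hs : Injective s) [Finite (B ⧸ s.range)] :
    IsNoetherianRing (MonoidAlgebra ℚ B) ∧ ∃ d, GD (MonoidAlgebra ℚ B) d := by
  classical
  have := Fintype.ofFinite (B ⧸ s.range)
  obtain ⟨d, hd⟩ := gd_fg A
  have : IsNoetherianRing (MonoidAlgebra ℚ A) := Algebra.FiniteType.isNoetherianRing ℚ _
  let ι := mapDomainRingHom ℚ s
  have ps : ∀ b r, ι (single b r) = single (s b) r := fun b r => mapDomain_single
  let : Module (MonoidAlgebra ℚ A) (MonoidAlgebra ℚ B) := Module.compHom _ ι
  have sm : ∀ (r : MonoidAlgebra ℚ A) (x : MonoidAlgebra ℚ B), r • x = ι r * x := fun _ _ => rfl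
  have : IsScalarTower (MonoidAlgebra ℚ A) (MonoidAlgebra ℚ B) (MonoidAlgebra ℚ B) :=
    ⟨fun r x y => mul_assoc (ι r) x y⟩
  have inj : ∀ γ : B, Injective fun b => s b * γ := fun γ => (mul_left_injective γ).comp hs
  let co : B → MonoidAlgebra ℚ B →+ MonoidAlgebra ℚ A :=
    fun γ => comapDomainAddMonoidHom _ (inj γ)
  have c1 : ∀ γ b r, co γ (single (s b * γ) r) = single b r := fun γ b r =>
    comapDomain_single_map (fun b => s b * γ) (inj γ) b r
  have c0 : ∀ γ g r, (¬ ∃ b, s b * γ = g) → co γ (single g r) = 0 := fun γ g r h =>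
    comapDomain_single_of_not_mem_range h (inj γ)
  have cm : ∀ γ x r, co γ (ι r * x) = r * co γ x := by
    intro γ x r
    induction x using induction_linear with
    | zero => simp only [mul_zero, map_zero]
    | add u v p q => simp only [mul_add, map_add, p, q]
    | single g u =>
      induction r using induction_linear with
      | zero => simp only [zero_mul, map_zero]
      | add u v p q => simp only [map_add, add_mul, p, q]
      | single b v =>
        rw [ps, single_mul_single]
        by_cases h : ∃ b0, s b0 * γ = g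
        · obtain ⟨b0, rfl⟩ := h
          rw [← mul_assoc, ← map_mul, c1, c1, single_mul_single]
        · rw [c0 _ _ _ h, mul_zero, c0]
          rintro ⟨b1, e⟩
          exact h ⟨b⁻¹ * b1, by rw [map_mul, map_inv, mul_assoc, e, inv_mul_cancel_left]⟩
  have dec : ∀ x : MonoidAlgebra ℚ B,
      ∑ q : B ⧸ s.range, ι (co q.out⁻¹ x) * single q.out⁻¹ 1 = x := by
    intro x
    induction x using induction_linear with
    | zero => simp only [map_zero, zero_mul, Finset.sum_const_zero]
    | add u v p q => simp only [map_add, add_mul, Finset.sum_add_distrib, p, q]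
    | single g u =>
      rw [Finset.sum_eq_single ((g⁻¹ : B) : B ⧸ s.range)]
      · obtain ⟨⟨_, b, rfl⟩, e⟩ := QuotientGroup.mk_out_eq_mul s.range g⁻¹
        have e2 : s b * ((g⁻¹ : B) : B ⧸ s.range).out⁻¹ = g := by
          rw [e, _root_.mul_inv_rev, inv_inv]
          exact mul_inv_cancel_left (s b) g
        have e3 := c1 ((g⁻¹ : B) : B ⧸ s.range).out⁻¹ b u
        rw [e2] at e3
        rw [e3, ps, single_mul_single, e2, mul_one]
      · intro q _ hq
        rw [c0, map_zero, zero_mul]
        rintro ⟨b, rfl⟩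
        exact hq (by
          rw [_root_.mul_inv_rev, inv_inv, QuotientGroup.mk_mul_of_mem _
            (inv_mem (show s b ∈ s.range from ⟨b, rfl⟩)), QuotientGroup.out_eq'])
      · intro hq
        exact absurd (Finset.mem_univ _) hq
  let i : MonoidAlgebra ℚ B →ₗ[MonoidAlgebra ℚ A] (B ⧸ s.range → MonoidAlgebra ℚ A) :=
    { toFun := fun x q => co q.out⁻¹ x
      map_add' := fun x y => funext fun q => map_add _ x y
      map_smul' := fun r x => funext fun q => cm _ x r }
  let p : (B ⧸ s.range → MonoidAlgebra ℚ A) →ₗ[MonoidAlgebra ℚ A] MonoidAlgebra ℚ B :=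
    { toFun := fun y => ∑ q, ι (y q) * single q.out⁻¹ 1
      map_add' := fun x y => by simp only [Pi.add_apply, map_add, add_mul, Finset.sum_add_distrib]
      map_smul' := fun r y => by
        simp only [Pi.smul_apply, smul_eq_mul, map_mul, RingHom.id_apply, sm, Finset.mul_sum,
          mul_assoc] }
  have : Module.Projective (MonoidAlgebra ℚ A) (MonoidAlgebra ℚ B) :=
    Module.Projective.of_split i p (LinearMap.ext dec)
  have : Module.Finite (MonoidAlgebra ℚ A) (MonoidAlgebra ℚ B) :=
    Module.Finite.of_surjective p fun x => ⟨i x, dec x⟩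
  refine ⟨IsNoetherianRing.of_finite (MonoidAlgebra ℚ A) _, d, fun M _ _ => ?_⟩
  let : Module (MonoidAlgebra ℚ A) M := Module.compHom _ ι
  have : IsScalarTower (MonoidAlgebra ℚ A) (MonoidAlgebra ℚ B) M :=
    ⟨fun r x y => mul_smul (ι r) x y⟩
  refine pd_up (fun M P _ _ _ _ _ _ _ _ g σ hσ => ?_) d M (hd M)
  have lin : ∀ r x, σ (ι r • x) = ι r • σ x := fun r x => by
    rw [← mul_one (ι r), ← sm, smul_one_smul, smul_one_smul, map_smul]
  let c : ℚ := (Fintype.card (B ⧸ s.range) : ℚ)⁻¹
  let φ : B → M → P := fun b x =>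
    (single b c : MonoidAlgebra ℚ B) • σ ((single b⁻¹ 1 : MonoidAlgebra ℚ B) • x)
  have f1 : ∀ b a x, φ (b * s a) x = φ b x := fun b a x => by
    have e : (single (b * s a)⁻¹ 1 : MonoidAlgebra ℚ B) = ι (single a⁻¹ 1) * single b⁻¹ 1 := by
      rw [ps, single_mul_single, _root_.mul_inv_rev, map_inv, mul_one]
    simp only [φ]
    rw [e, mul_smul, lin, smul_smul, ps, single_mul_single, map_inv, mul_inv_cancel_right, mul_one]
  have f2 : ∀ b g u x, φ b ((single g u : MonoidAlgebra ℚ B) • x) =
      (single g u : MonoidAlgebra ℚ B) • φ (g⁻¹ * b) x := fun b g u x => by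
    have e : (single b⁻¹ 1 * single g u : MonoidAlgebra ℚ B) =
        ι (single 1 u) * single (g⁻¹ * b)⁻¹ 1 := by
      rw [ps, single_mul_single, single_mul_single, _root_.mul_inv_rev, inv_inv, map_one, one_mul,
        one_mul, mul_one]
    simp only [φ]
    rw [smul_smul, e, mul_smul, lin, smul_smul, smul_smul, ps, single_mul_single,
      single_mul_single, map_one, mul_one, mul_inv_cancel_left, mul_comm]
  have f3 : ∀ b x y, φ b (x + y) = φ b x + φ b y := fun b x y => by
    simp only [φ, smul_add, map_add]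
  refine ⟨{ toFun := fun x => ∑ q : B ⧸ s.range, φ q.out x
            map_add' := fun x y => by simp only [f3, Finset.sum_add_distrib]
            map_smul' := fun r x => ?_ }, fun x => ?_⟩
  · induction r using induction_linear with
    | zero => simp [φ]
    | add u v p q =>
      simp only [RingHom.id_apply] at p q ⊢
      simp only [add_smul, f3, Finset.sum_add_distrib, p, q]
    | single g u =>
      simp only [RingHom.id_apply, f2, ← Finset.smul_sum]
      congr 1
      refine Fintype.sum_equiv (MulAction.toPerm g⁻¹) _ _ fun q => ?_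
      obtain ⟨⟨_, a, rfl⟩, e⟩ := QuotientGroup.mk_out_eq_mul s.range (g⁻¹ * q.out)
      have e2 : MulAction.toPerm g⁻¹ q = ((g⁻¹ * q.out : B) : B ⧸ s.range) := by
        rw [MulAction.toPerm_apply]
        exact (MulAction.Quotient.coe_smul_out s.range g⁻¹ q).symm
      rw [e2, e]
      exact (f1 _ a x).symm
  · change g (∑ q : B ⧸ s.range, φ q.out x) = x
    simp only [φ, map_sum, map_smul, hσ, smul_smul, single_mul_single, mul_inv_cancel, mul_one]
    rw [Finset.sum_const, Finset.card_univ, ← Nat.cast_smul_eq_nsmul (MonoidAlgebra ℚ B),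
      smul_smul, natCast_def, single_mul_single, one_mul,
      mul_inv_cancel₀ (Nat.cast_ne_zero.2 Fintype.card_ne_zero), ← one_def, one_smul]

end Fam

theorem ct_va (B : Type) [Group B] [Group.FG B] (A : Subgroup B) [A.FiniteIndex]
    [IsMulCommutative A] : CT B := by
  let : CommGroup A := { (inferInstance : Group A) with mul_comm := mul_comm' }
  have : Finite (B ⧸ A.subtype.range) := by
    rw [Subgroup.range_subtype]
    infer_instance
  obtain ⟨h, d, hd⟩ := Fam.fin_index A.subtype A.subtype_injective
  exact ct_of B hd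

end Pool.Agent.Lib.MP_2add11_gt.IG
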