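import Pool.Agent.Lib.MP_2add11_gt.IG.GpVf
import Pool.Agent.Lib.MP_7eef47_al.GP.Defs

/-!
An induction principle for graph products: a graph product is built vertex by vertex from amalgams
over link groups, which are retracts.
-/

noncomputable section

namespace Pool.Agent.Lib.MP_2add11_gt.IG

open Monoid Subgroup Pool.Agent.Lib.MP_7eef47_al.GP Classical

/-- A family of two types. -/
def Two (G H : Type) : Bool → Type
  | true => G
  | false => H

instance (G H : Type) [g : Group G] [h : Group H] : ∀ b, Group (Two G H b)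
  | true => g
  | false => h

variable {V : Type} (Γ : SimpleGraph V) (A : V → Type) [∀ v, Group (A v)]

def ginc (v : V) : A v →* GraphProduct Γ A := (QuotientGroup.mk' _).comp CoprodI.of

/-- The subgroup generated by the vertex groups of `s`. -/
def gsub (s : Set V) : Subgroup (GraphProduct Γ A) := closure {x | ∃ v ∈ s, ∃ a, x = ginc Γ A v a}

variable {Γ A}

theorem ginc_comm {u v : V} (h : Γ.Adj u v) (a : A u) (b : A v) :
    Commute (ginc Γ A u a) (ginc Γ A v b) := by
  have : ginc Γ A u a * ginc Γ A v b * (ginc Γ A u a)⁻¹ * (ginc Γ A v b)⁻¹ = 1 := by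
    simp only [ginc, MonoidHom.comp_apply, ← map_inv, ← map_mul]
    exact (QuotientGroup.eq_one_iff _).2 (subset_normalClosure ⟨u, v, h, a, b, rfl⟩)
  rw [mul_inv_eq_one, mul_inv_eq_iff_eq_mul] at this
  exact this

def glift {K : Type} [Group K] (f : ∀ v, A v →* K)
    (h : ∀ u v, Γ.Adj u v → ∀ a b, Commute (f u a) (f v b)) : GraphProduct Γ A →* K :=
  QuotientGroup.lift _ (CoprodI.lift f) (by
    refine normalClosure_le_normal ?_
    rintro _ ⟨u, v, huv, a, b, rfl⟩
    simp only [SetLike.mem_coe, MonoidHom.mem_ker, map_mul, map_inv, CoprodI.lift_of]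
    rw [(h u v huv a b).eq]
    group)

theorem glift_inc {K : Type} [Group K] (f : ∀ v, A v →* K)
    (h : ∀ u v, Γ.Adj u v → ∀ a b, Commute (f u a) (f v b)) (v : V) (a : A v) :
    glift f h (ginc Γ A v a) = f v a := by
  simp [glift, ginc]

theorem ginc_mem {s : Set V} {v : V} (hv : v ∈ s) (a : A v) : ginc Γ A v a ∈ gsub Γ A s :=
  subset_closure ⟨v, hv, a, rfl⟩

theorem gsub_mono {s t : Set V} (h : s ⊆ t) : gsub Γ A s ≤ gsub Γ A t :=
  closure_mono fun _ ⟨v, hv, e⟩ => ⟨v, h hv, e⟩

theorem gsub_ext {K : Type} [Group K] {s : Set V} {f g : gsub Γ A s →* K}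
    (h : ∀ v (hv : v ∈ s) a, f ⟨_, ginc_mem hv a⟩ = g ⟨_, ginc_mem hv a⟩) : f = g := by
  ext ⟨x, hx⟩
  induction hx using closure_induction with
  | mem x hx => obtain ⟨v, hv, a, rfl⟩ := hx; exact h v hv a
  | one => exact (map_one f).trans (map_one g).symm
  | mul x y hx hy p q =>
    exact (map_mul f ⟨x, hx⟩ ⟨y, hy⟩).trans ((congrArg₂ _ p q).trans
      (map_mul g ⟨x, hx⟩ ⟨y, hy⟩).symm)
  | inv x hx p =>
    exact (map_inv f ⟨x, hx⟩).trans ((congrArg _ p).trans (map_inv g ⟨x, hx⟩).symm)

theorem gsub_univ : gsub Γ A Set.univ = ⊤ := by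
  refine top_unique fun x _ => ?_
  obtain ⟨y, rfl⟩ := QuotientGroup.mk'_surjective _ x
  induction y using CoprodI.induction_on with
  | one => exact one_mem _
  | of i a => exact ginc_mem (Set.mem_univ i) a
  | mul a b ha hb => rw [map_mul]; exact mul_mem (ha trivial) (hb trivial)

/-- The vertex group of `v` inside `gsub s`, or the trivial map. -/
def gin (s : Set V) (v : V) : A v →* gsub Γ A s :=
  if h : v ∈ s then (ginc Γ A v).codRestrict _ (ginc_mem h) else 1

theorem gin_mem {s : Set V} {v : V} (h : v ∈ s) (a : A v) :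
    gin s v a = (⟨_, ginc_mem h a⟩ : gsub Γ A s) := by
  rw [gin, dif_pos h]; rfl

theorem gin_not {s : Set V} {v : V} (h : v ∉ s) (a : A v) : gin s v a = (1 : gsub Γ A s) := by
  rw [gin, dif_neg h]; rfl

theorem gin_comm (s : Set V) (u v : V) (h : Γ.Adj u v) (a : A u) (b : A v) :
    Commute (gin (Γ := Γ) s u a) (gin s v b) := by
  by_cases hu : u ∈ s
  · by_cases hv : v ∈ s
    · rw [gin_mem hu, gin_mem hv]
      exact Subtype.ext (ginc_comm h a b)
    · rw [gin_not hv]; exact Commute.one_right _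
  · rw [gin_not hu]; exact Commute.one_left _

/-- The retraction onto `gsub s`. -/
def gret (s : Set V) : GraphProduct Γ A →* gsub Γ A s := glift (gin s) (gin_comm s)

theorem gret_sub (s : Set V) (x : gsub Γ A s) : gret s (x : GraphProduct Γ A) = x := by
  have : (gret s).comp (gsub Γ A s).subtype = MonoidHom.id _ := gsub_ext fun v hv a => by
    change gret s (ginc Γ A v a) = _
    rw [gret, glift_inc, gin_mem hv]; rfl
  exact DFunLike.congr_fun this x

theorem ginc_comm_sub {v : V} {t : Set V} (ht : ∀ u ∈ t, Γ.Adj v u) (a : A v) (x : gsub Γ A t) :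
    Commute (ginc Γ A v a) (x : GraphProduct Γ A) := by
  obtain ⟨x, hx⟩ := x
  induction hx using closure_induction with
  | mem x hx => obtain ⟨u, hu, b, rfl⟩ := hx; exact ginc_comm (ht u hu) a b
  | one => exact Commute.one_right _
  | mul x y _ _ p q => exact p.mul_right q
  | inv x _ p => exact p.inv_right

/-- One step: `gsub (insert v s)` is a retract of an amalgam over the link of `v` in `s`. -/
theorem gp_step (s : Set V) (v : V) (hv : v ∉ s) :
    ∃ (φ : ∀ b, gsub Γ A {u | u ∈ s ∧ Γ.Adj v u} →*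
        Two (gsub Γ A s) (A v × gsub Γ A {u | u ∈ s ∧ Γ.Adj v u}) b)
      (ρ : ∀ b, Two (gsub Γ A s) (A v × gsub Γ A {u | u ∈ s ∧ Γ.Adj v u}) b →*
        gsub Γ A {u | u ∈ s ∧ Γ.Adj v u})
      (f : gsub Γ A (insert v s) →* PushoutI φ) (g : PushoutI φ →* gsub Γ A (insert v s)),
      (∀ i b, ρ i (φ i b) = b) ∧ ∀ x, g (f x) = x := by
  set t : Set V := {u | u ∈ s ∧ Γ.Adj v u}
  have hts : gsub Γ A t ≤ gsub Γ A s := gsub_mono fun _ h => h.1
  have hs : gsub Γ A s ≤ gsub Γ A (insert v s) := gsub_mono (Set.subset_insert v s)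
  let φ : ∀ b, gsub Γ A t →* Two (gsub Γ A s) (A v × gsub Γ A t) b
    | true => inclusion hts
    | false => MonoidHom.inr (A v) _
  let ρ : ∀ b, Two (gsub Γ A s) (A v × gsub Γ A t) b →* gsub Γ A t
    | true => (gret t).comp (gsub Γ A s).subtype
    | false => MonoidHom.snd (A v) _
  let o₁ : gsub Γ A s →* PushoutI φ := PushoutI.of (φ := φ) true
  let o₂ : A v × gsub Γ A t →* PushoutI φ := PushoutI.of (φ := φ) false
  have ho : ∀ b : gsub Γ A t, o₁ (inclusion hts b) = o₂ (1, b) := fun b =>
    (PushoutI.of_apply_eq_base φ true b).trans (PushoutI.of_apply_eq_base φ false b).symm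
  let F : ∀ u, A u →* PushoutI φ := fun u =>
    if h : u = v then (o₂.comp (MonoidHom.inl _ _)).comp (h ▸ MonoidHom.id (A u))
    else o₁.comp (gin s u)
  have hF1 : ∀ a, F v a = o₂ (a, 1) := fun a => by simp only [F, dif_pos rfl]; rfl
  have hF2 : ∀ u, u ≠ v → ∀ a, F u a = o₁ (gin s u a) := fun u h a => by
    simp only [F, dif_neg h]; rfl
  have hc : ∀ u, Γ.Adj v u → ∀ a b, Commute (F v a) (F u b) := fun u h a b => by
    rw [hF1, hF2 u h.ne.symm]
    by_cases hu : u ∈ s
    · have : gin s u b = inclusion hts ⟨_, ginc_mem (s := t) ⟨hu, h⟩ b⟩ := gin_mem hu b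
      rw [this, ho]
      exact Commute.map (by simp [Commute, SemiconjBy]) o₂
    · rw [gin_not hu, map_one]; exact Commute.one_right _
  have hF : ∀ u w, Γ.Adj u w → ∀ a b, Commute (F u a) (F w b) := fun u w h a b => by
    by_cases hu : u = v
    · subst hu; exact hc w h a b
    · by_cases hw : w = v
      · subst hw; exact (hc u h.symm b a).symm
      · rw [hF2 u hu, hF2 w hw]
        exact (gin_comm s u w h a b).map o₁
  let g₂ : A v × gsub Γ A t →* gsub Γ A (insert v s) :=
    MonoidHom.noncommCoprod (gin _ v) (inclusion (hts.trans hs)) fun a b => by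
      rw [gin_mem (Set.mem_insert v s)]
      exact Subtype.ext (ginc_comm_sub (fun _ h => h.2) a b)
  let γ : ∀ b, Two (gsub Γ A s) (A v × gsub Γ A t) b →* gsub Γ A (insert v s)
    | true => inclusion hs
    | false => g₂
  have hγ : ∀ b, (γ b).comp (φ b) = inclusion (hts.trans hs) := by
    rintro (_ | _)
    · refine MonoidHom.ext fun x => ?_
      change g₂ (1, x) = _
      simp [g₂]
    · rfl
  refine ⟨φ, ρ, (glift F hF).comp (gsub Γ A _).subtype, PushoutI.lift γ _ hγ, ?_, ?_⟩
  · rintro (_ | _) b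
    · rfl
    · exact gret_sub t b
  · have : (PushoutI.lift γ _ hγ).comp ((glift F hF).comp (gsub Γ A _).subtype) =
        MonoidHom.id _ := gsub_ext fun u hu a => by
      change PushoutI.lift γ _ hγ (glift F hF (ginc Γ A u a)) = ⟨_, ginc_mem hu a⟩
      rw [glift_inc]
      by_cases h : u = v
      · subst h
        rw [hF1]
        refine (PushoutI.lift_of γ _ hγ (i := false) (a, 1)).trans ?_
        change g₂ (a, 1) = _
        simp [g₂, gin_mem hu]
      · rw [hF2 u h, gin_mem (hu.resolve_left h)]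
        exact PushoutI.lift_of γ _ hγ (i := true) _
    exact DFunLike.congr_fun this

/-- The group of an independent set of vertices embeds in the free product. -/
theorem gsub_inj (t : Set V) (ht : ∀ u ∈ t, ∀ w ∈ t, ¬ Γ.Adj u w) :
    ∃ j : gsub Γ A t →* CoprodI A, Function.Injective j := by
  let F : ∀ u, A u →* CoprodI A := fun u => if u ∈ t then CoprodI.of else 1
  have hF : ∀ u w, Γ.Adj u w → ∀ a b, Commute (F u a) (F w b) := fun u w h a b => by
    by_cases hu : u ∈ t
    · simp only [F, if_neg fun hw => ht u hu w hw h]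
      exact Commute.one_right _
    · simp only [F, if_neg hu]
      exact Commute.one_left _
  have : (QuotientGroup.mk' _).comp ((glift F hF).comp (gsub Γ A t).subtype) =
      (gsub Γ A t).subtype := gsub_ext fun u hu a => by
    change QuotientGroup.mk' _ (glift F hF (ginc Γ A u a)) = ginc Γ A u a
    rw [glift_inc]
    simp only [F, if_pos hu]
    rfl
  refine ⟨(glift F hF).comp (gsub Γ A t).subtype, fun x y e => Subtype.ext ?_⟩
  exact (DFunLike.congr_fun this x).symm.trans
    ((congrArg (QuotientGroup.mk' _) e).trans (DFunLike.congr_fun this y))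

/-- Induction principle. `P` is closed under retracts and under amalgams over retracts that
satisfy `R`; link groups satisfy `R`. -/
theorem gp_ind' [Finite V] (P R : ∀ (G : Type) [Group G], Prop)
    (triv : ∀ (G : Type) [Group G] [Subsingleton G], P G)
    (retr : ∀ (G C : Type) [Group G] [Group C], P C → ∀ (f : G →* C) (g : C →* G),
      (∀ x, g (f x) = x) → P G)
    (push : ∀ (B : Type) [Group B] (G : Bool → Type) [∀ i, Group (G i)] (φ : ∀ i, B →* G i)
      (ρ : ∀ i, G i →* B), (∀ i b, ρ i (φ i b) = b) → R B → (∀ i, P (G i)) → P (PushoutI φ))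
    (link : ∀ v (t : Set V), (∀ u ∈ t, Γ.Adj v u) → R (gsub Γ A t))
    (prod : ∀ v (t : Set V), (∀ u ∈ t, Γ.Adj v u) → P (gsub Γ A t) → P (A v × gsub Γ A t)) :
    P (GraphProduct Γ A) := by
  have key : ∀ s : Set V, s.Finite → P (gsub Γ A s) := by
    intro s hs
    induction s, hs using Set.Finite.induction_on with
    | empty =>
      have : gsub Γ A ∅ = ⊥ := by simp [gsub]
      rw [this]
      exact triv _
    | @insert v s hv _ ih =>
      obtain ⟨φ, ρ, f, g, h1, h2⟩ := gp_step (Γ := Γ) (A := A) s v hv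
      have hR := link v {u | u ∈ s ∧ Γ.Adj v u} fun _ h => h.2
      refine retr _ _ (push _ _ φ ρ h1 hR ?_) f g h2
      rintro (_ | _)
      · exact prod v _ (fun _ h => h.2) (retr _ _ ih (φ true) (ρ true) (h1 true))
      · exact ih
  exact retr _ _ (key _ Set.finite_univ) (gret _) (gsub Γ A _).subtype fun x =>
    congrArg Subtype.val (gret_sub Set.univ ⟨x, by rw [gsub_univ]; exact mem_top x⟩)

/-- Link groups of a triangle-free graph of virtually free groups are virtually free. -/
theorem link_vfree [Finite V] (hΓ : Γ.CliqueFree 3) (hA : ∀ v, VFree (A v)) (v : V) (t : Set V)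
    (ht : ∀ u ∈ t, Γ.Adj v u) : VFree (gsub Γ A t) := by
  obtain ⟨j, hj⟩ := gsub_inj (Γ := Γ) (A := A) t fun u hu w hw h =>
    hΓ {v, u, w} (SimpleGraph.is3Clique_triple_iff.2 ⟨ht u hu, ht w hw, h⟩)
  exact (VFree.coprodI A hA).of_inj j hj

end Pool.Agent.Lib.MP_2add11_gt.IG
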