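import Pool.Agent.Lib.MP_7eef47_al.GP.Defs

namespace Pool.Agent.Lib.MP_2add11_gt

open Pool.Agent.Lib.MP_7eef47_al.GP

/-- The graph product is isomorphic to a virtually free group times a finite product of virtually
cyclic groups. -/
def Split {W : Type} (Δ : SimpleGraph W) (B : W → Type) [∀ w, Group (B w)] : Prop :=
  ∃ (Q : Type) (_ : Group Q) (M : Subgroup Q) (J : Type) (_ : Finite J) (E : J → Type)
    (_ : ∀ j, Group (E j)), M.FiniteIndex ∧ IsFreeGroup M ∧
      (∀ j, ∃ t : E j, (Subgroup.zpowers t).FiniteIndex) ∧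
      Nonempty (GraphProduct Δ B ≃* Q × ∀ j, E j)

end Pool.Agent.Lib.MP_2add11_gt
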