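import Pool.Agent.Lib.MP_2add11_gt.IG.HerA
import Pool.Agent.Lib.MP_2add11_gt.IG.ClsA

/-!
Closure of the algebraic model under inverses for amalgamated products over a virtually free
retract.
-/

noncomputable section

namespace Pool.Agent.Lib.MP_2add11_gt.IG

open Matrix MonoidAlgebra Monoid FG

section Ker

variable {Γ B n : Type} [Group Γ] [Group B] [Fintype n] [DecidableEq n]

/-- Coefficients along a left coset. -/
def crt (s : B →* Γ) (hs : Function.Injective s) (γ : Γ) : MonoidAlgebra ℤ Γ →+ MonoidAlgebra ℤ B where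
  toFun x := .ofCoeff (x.coeff.comapDomain (fun b => γ * s b) fun _ _ _ _ h => hs (mul_left_cancel h))
  map_zero' := by ext; simp
  map_add' x y := by ext; rfl

theorem crt_coeff (s : B →* Γ) (hs : Function.Injective s) (γ : Γ) (x : MonoidAlgebra ℤ Γ) (b : B) :
    (crt s hs γ x).coeff b = x.coeff (γ * s b) := rfl

theorem crt_mul (s : B →* Γ) (hs : Function.Injective s) (γ : Γ) (x : MonoidAlgebra ℤ Γ)
    (r : MonoidAlgebra ℤ B) : crt s hs γ (x * mapDomainRingHom ℤ s r) = crt s hs γ x * r := by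
  induction r using MonoidAlgebra.induction_linear with
  | zero => simp
  | add a b ha hb => rw [map_add, mul_add, map_add, ha, hb, mul_add]
  | single g a =>
    ext h
    simp [crt_coeff, coeff_mul_single_apply, mul_assoc]

theorem Proj.ker (hP : Proj B) (s : B →* Γ) (hs : Function.Injective s)
    (Z : Matrix n n (MonoidAlgebra ℤ Γ)) : ∃ (d : ℕ) (E : Matrix n n (MonoidAlgebra ℤ B)), 0 < d ∧
      Z * (mapDomainRingHom ℤ s).mapMatrix E = 0 ∧
        ∀ X, Z * (mapDomainRingHom ℤ s).mapMatrix X = 0 → E * X = (d : ℤ) • X := by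
  classical
  let T : Finset Γ := Finset.univ.biUnion fun p : n × n => (Z p.1 p.2).coeff.support
  have k : ∀ γ (X : Matrix n n (MonoidAlgebra ℤ B)) p r,
      crt s hs γ ((Z * (mapDomainRingHom ℤ s).mapMatrix X) p r) = ∑ q, crt s hs γ (Z p q) * X q r :=
    fun γ X p r => by
      simp only [Matrix.mul_apply, map_sum, RingHom.mapMatrix_apply, map_apply, crt_mul]
  obtain ⟨d, E, hd, h1, h2⟩ := hP (T × n) n (.of fun a q => crt s hs a.1 (Z a.2 q))
  refine ⟨d, E, hd, ?_, fun X hX => h2 X ?_⟩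
  · ext p r γ
    by_cases h : ∃ q b, (Z p q).coeff (γ * s b) ≠ 0
    · obtain ⟨q, b, h⟩ := h
      have h3 := (k (γ * s b) E p r).trans (congrFun (congrFun h1 (⟨γ * s b, Finset.mem_biUnion.2
        ⟨(p, q), Finset.mem_univ _, Finsupp.mem_support_iff.2 h⟩⟩, p)) r)
      simpa [crt_coeff] using congrArg (fun x => x.coeff b⁻¹) h3
    · have h3 := k γ E p r
      rw [Finset.sum_eq_zero fun q _ => by
        rw [show crt s hs γ (Z p q) = 0 by
          ext b
          by_contra e
          exact h ⟨q, b, e⟩, zero_mul]] at h3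
      simpa [crt_coeff] using congrArg (fun x => x.coeff 1) h3
  · ext1 a r
    have h3 := k a.1 X a.2 r
    rw [hX, Matrix.zero_apply, map_zero] at h3
    exact h3.symm

end Ker

section Chain

variable {F S W n : Type} [Group F] [Ring S] [AddCommGroup W] [Fintype n]
  [DecidableEq n] (φ : MonoidAlgebra ℤ F →+* S)

theorem chain_torsP (hP : ∀ Z : Matrix n n S, ∃ (d : ℕ) (E : Matrix n n (MonoidAlgebra ℤ F)), 0 < d ∧
      Z * φ.mapMatrix E = 0 ∧ ∀ X, Z * φ.mapMatrix X = 0 → E * X = (d : ℤ) • X)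
    (c : Inv S W) (m : ℕ) :
    ∀ V : ℕ → AddSubgroup (Matrix n n (MonoidAlgebra ℤ F)), V 0 = ⊥ → (∀ j, V j ≤ V (j + 1)) →
      ∀ Z ∈ Rg φ (V m), (∀ j, ∀ X ∈ V (j + 1), Z * φ.mapMatrix X ∈ Rg φ (V j)) →
        IsUnit (1 + Z) ∧ IsOfFinAddOrder (c.c (1 + Z)) := by
  induction m with
  | zero =>
    intro V h _ Z hZ _
    rw [Rg_bot φ (Z := Z) (h ▸ hZ), add_zero, c.one]
    exact ⟨isUnit_one, .zero⟩
  | succ m ih =>
    intro V h0 hm Z hZ hZ'
    obtain ⟨d, E, hd, hE', hE0⟩ := hP Z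
    have hE : ∀ X ∈ V 1, E * X = (d : ℤ) • X := fun X hX =>
      hE0 X (Rg_bot φ (h0 ▸ hZ' 0 X hX))
    let T : Submodule ℤ (Matrix n n S) :=
      { carrier := {Z | Z ∈ Rg φ (V (m + 1)) ∧
          (∀ j, ∀ X ∈ V (j + 1), Z * φ.mapMatrix X ∈ Rg φ (V j)) ∧ Z * φ.mapMatrix E = 0}
        zero_mem' := ⟨zero_mem _, fun _ _ _ => by simp, zero_mul _⟩
        add_mem' := fun p q => ⟨add_mem p.1 q.1, fun j X hX => by
          rw [add_mul]; exact add_mem (p.2.1 j X hX) (q.2.1 j X hX), by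
          rw [add_mul, p.2.2, q.2.2, add_zero]⟩
        smul_mem' := fun a b p => ⟨Submodule.smul_mem _ _ p.1, fun j X hX => by
          rw [smul_mul_assoc]; exact Submodule.smul_mem _ _ (p.2.1 j X hX), by
          rw [smul_mul_assoc, p.2.2, smul_zero]⟩ }
    have h1 : ∀ j, ∀ Y ∈ Rg φ (V j), Z * Y ∈ Rg φ (V j) := fun j Y hY =>
      Rg_left φ (fun X hX => hZ' j X (hm j hX)) hY
    have h2 : ∀ k, Z ^ (k + 1) ∈ T := fun k => by
      induction k with
      | zero => simpa using ⟨hZ, hZ', hE'⟩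
      | succ k ih =>
        rw [pow_succ']
        exact ⟨Rg_mul φ hZ _, fun j X hX => by rw [mul_assoc]; exact h1 j _ (ih.2.1 j X hX), by
          rw [mul_assoc, ih.2.2, mul_zero]⟩
    have h3 : ∀ k, ∀ Y ∈ Rg φ (V k), Z ^ k * Y = 0 := fun k => by
      induction k with
      | zero => exact fun Y hY => by rw [Rg_bot φ (Z := Y) (h0 ▸ hY), mul_zero]
      | succ k ih =>
        intro Y hY
        rw [pow_succ, mul_assoc]
        exact ih _ (Rg_left φ (hZ' k) hY)
    have h4 : Z ^ (m + 1 + 1) = 0 := (pow_succ _ _).trans (h3 _ _ hZ)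
    have hu : IsUnit (1 + Z) := IsNilpotent.isUnit_one_add ⟨_, h4⟩
    obtain ⟨q, hq, Z', hT, e⟩ := pow_cong h2 h4 hd
    let D := (d : ℤ) • 1 - E
    have h5 : Z' * φ.mapMatrix D = (d : ℤ) • Z' := by
      rw [map_sub, map_zsmul, map_one, mul_sub, hT.2.2, sub_zero, mul_smul_comm, mul_one]
    have h6 : ∀ j, ∀ Y ∈ Rg φ (V j), φ.mapMatrix D * Y ∈
        Rg φ ((V j).map (AddMonoidHom.mulLeft D)) := fun j Y hY =>
      Rg_left φ (fun X hX => Submodule.subset_span
        ⟨D * X, AddSubgroup.mem_map.2 ⟨X, hX, rfl⟩, 1, by simp⟩) hY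
    obtain ⟨h8, h9⟩ := ih (fun j => (V (j + 1)).map (AddMonoidHom.mulLeft D))
      (eq_bot_iff.2 (by
        rintro _ ⟨X, hX, rfl⟩
        change D * X = 0
        rw [sub_mul, hE X hX, smul_mul_assoc, one_mul, sub_self]))
      (fun j => AddSubgroup.map_mono (hm _)) _ (h6 _ _ hT.1) (by
        rintro j _ ⟨X, hX, rfl⟩
        change _ * φ.mapMatrix (D * X) ∈ _
        rw [map_mul, mul_assoc, ← mul_assoc Z', h5, smul_mul_assoc]
        exact h6 _ _ (Submodule.smul_mem _ _ (hT.2.1 _ X hX)))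
    rw [← c.one_add_swap h8, h5, ← e, c.pow hu] at h9
    exact ⟨hu, (isOfFinAddOrder_nsmul.1 h9).resolve_right hq.ne'⟩

end Chain

section Rec

variable {K M : Type} {G : K → Type} [∀ i, Group (G i)] [AddCommGroup M] {ν : CoprodI G → M →+ M}

open Classical in
theorem rec_nilP (T : Finset (CoprodI G)) (U : CoprodI G → M)
    (hT' : ∀ γ, γ ≠ 1 → γ ∉ T → ∀ w, ν γ (U w) = 0)
    (hlet : ∀ γ ∈ T, ∃ (c : K) (g : G c), g ≠ 1 ∧ γ = CoprodI.of g)
    (hzero : ∀ (c : K) (g x : G c), g ≠ 1 → x ≠ 1 → ∀ X,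
      ν (CoprodI.of g) (ν (CoprodI.of x) X) = 0)
    (o : M) (L : ℕ) (hL : ∀ w, L < len w → U w = 0)
    (hrec : ∀ w, U w = (if w = 1 then o else 0) + ∑ γ ∈ T, ν γ (U (γ⁻¹ * w) - U w)) :
    o ∈ Vn ν (L + 1) := by
  have hne : ∀ {c : K} {g : G c}, g ≠ 1 → (CoprodI.of g : CoprodI G) ≠ 1 := fun hg e =>
    hg (CoprodI.of_injective _ (by rw [e, map_one]))
  have hT : ∀ γ ∈ T, γ ≠ 1 := fun γ h => by
    obtain ⟨c, g, hg, rfl⟩ := hlet γ h
    exact hne hg
  have key : ∀ j w, L < len w + j → U w ∈ Vn ν j := fun j => by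
    induction j with
    | zero =>
      intro w hw
      rw [hL w hw]
      exact zero_mem _
    | succ j ih =>
      intro w hw
      have ih' : ∀ v, len w < len v → U v ∈ Vn ν j := fun v hv => ih v (by omega)
      have cA : ∀ (c : K), (∀ x : G c, x ≠ 1 → len w < len (CoprodI.of x * w)) →
          ∀ g : G c, g ≠ 1 → ν (CoprodI.of g) (U w) ∈ Vn ν j := fun c hcw g hg => by
        by_cases hgT : CoprodI.of g ∈ T
        swap
        · rw [hT' _ (hne hg) hgT]
          exact zero_mem _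
        have h1 := hcw g hg
        have h2 := ih' _ h1
        have h3 := hrec (CoprodI.of g * w)
        rw [if_neg (fun e => by rw [e, len_one] at h1; omega), zero_add,
          ← Finset.add_sum_erase _ _ hgT, inv_mul_cancel_left, map_sub] at h3
        have h4 : ∑ γ ∈ T.erase (CoprodI.of g), ν γ
            (U (γ⁻¹ * (CoprodI.of g * w)) - U (CoprodI.of g * w)) ∈ Vn ν j := by
          refine sum_mem fun γ hγ => ?_
          obtain ⟨h5, h6⟩ := Finset.mem_erase.1 hγ
          refine Vn_left (sub_mem (ih' _ ?_) h2) (hT γ h6)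
          obtain ⟨c', x, hx, rfl⟩ := hlet γ h6
          by_cases e : c' = c
          · subst e
            rw [← mul_assoc, ← map_inv, ← map_mul]
            exact hcw _ fun e => h5 (by rw [inv_mul_eq_one.1 e])
          · rw [← map_inv]
            exact h1.trans (len_second hg h1 e (inv_ne_one.2 hx))
        have h7 := add_mem (sub_mem h2 h4) (Vn_left h2 (hT _ hgT))
        rwa [sub_eq_iff_eq_add.2 h3, sub_add_cancel] at h7
      refine mem_Vn.2 fun γ h1 => ?_
      by_cases hγ : γ ∈ T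
      swap
      · rw [hT' γ h1 hγ]
        exact zero_mem _
      obtain ⟨c, g, hg, rfl⟩ := hlet γ hγ
      by_cases hw1 : w = 1
      · refine cA c (fun x hx => ?_) g hg
        rw [hw1, len_one, mul_one]
        exact len_pos (hne hx)
      obtain ⟨c0, -, h0⟩ := exists_first w c
      by_cases e : c = c0
      swap
      · exact cA c (h0 c e) g hg
      rw [hrec w, if_neg hw1, zero_add, map_sum]
      refine sum_mem fun η hη => ?_
      obtain ⟨c', x, hx, rfl⟩ := hlet η hη
      by_cases e' : c' = c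
      · subst e'
        rw [hzero _ g x hg hx]
        exact zero_mem _
      · have h2 := h0 c' (e ▸ e')
        refine Vn_left ?_ h1
        rw [map_sub]
        refine sub_mem (Vn_left (ih' _ ?_) (hT _ hη)) (cA c' h2 x hx)
        rw [← map_inv]
        exact h2 _ (inv_ne_one.2 hx)
  have all : ∀ w, U w ∈ Vn ν (L + 1) := fun w => key _ w (by omega)
  have h1 := hrec 1
  rw [if_pos rfl] at h1
  rw [← sub_eq_iff_eq_add.2 h1]
  exact sub_mem (all 1) (sum_mem fun γ hγ => Vn_left (sub_mem (all _) (all _)) (hT γ hγ))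

end Rec

namespace Amal

open Classical

variable {Γ B K W n : Type} [Group Γ] [Group B] {G : K → Type} [∀ i, Group (G i)]
  [AddCommGroup W] [Fintype n] [DecidableEq n] (A : Amal Γ B G)

theorem colouredP (hP : Proj B) (c : Inv (MonoidAlgebra ℤ Γ) W) (col : n → K)
    (N : Matrix n n (MonoidAlgebra ℤ Γ)) (ha : ∀ p q, A.e (col p) (N p q) = N p q)
    (hb : A.ag.mapMatrix N = 0) (hc : ∀ p q, col p = col q → N p q = 0) (hu : IsUnit (1 - N)) :
    IsOfFinAddOrder (c.c (1 - N)) := by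
  obtain ⟨U, hU⟩ := hu.exists_right_inv
  let ν : CoprodI G → Matrix n n (MonoidAlgebra ℤ B) →+ Matrix n n (MonoidAlgebra ℤ B) := fun γ =>
    (A.co γ).comp ((AddMonoidHom.mulLeft N).comp A.φ.mapMatrix.toAddMonoidHom)
  have hν : ∀ γ X, ν γ X = A.co γ (N * A.φ.mapMatrix X) := fun _ _ => rfl
  have hrow : ∀ γ X p q, ν γ X p q ≠ 0 → ∃ g : G (col p), γ = CoprodI.of g := fun γ X p q h =>
    A.cw_letter (x := (N * A.φ.mapMatrix X) p q) (by
      simp [Matrix.mul_apply, map_sum, ha, e_φ]) h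
  choose T0 hT0 using fun X : Matrix n n (MonoidAlgebra ℤ B) => A.exists_supp (N * A.φ.mapMatrix X)
  obtain ⟨TU, hTU⟩ := A.exists_supp U
  obtain ⟨T, hT, hT'⟩ : ∃ T : Finset (CoprodI G), (∀ γ ∈ T, γ ≠ 1 ∧ ν γ ≠ 0) ∧
      ∀ γ, γ ≠ 1 → γ ∉ T → ∀ w, ν γ (A.co w U) = 0 := by
    refine ⟨(TU.biUnion fun w => T0 (A.co w U)).filter fun γ => γ ≠ 1 ∧ ν γ ≠ 0,
      fun γ h => (Finset.mem_filter.1 h).2, fun γ h1 h2 w => ?_⟩
    by_cases hw : w ∈ TU
    · by_contra h3
      exact h3 (hT0 _ γ fun h => h2 (Finset.mem_filter.2 ⟨Finset.mem_biUnion.2 ⟨w, hw, h⟩, h1,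
        fun e => h3 (by rw [e]; rfl)⟩))
    · rw [hTU w hw, map_zero]
  have h1T : (1 : CoprodI G) ∉ T := fun h => (hT 1 h).1 rfl
  have hout : ∀ γ, γ ∉ insert 1 T → ∀ w, ν γ (A.co w U) = 0 := fun γ h =>
    hT' γ (fun e => h (e ▸ Finset.mem_insert_self _ _)) fun e => h (Finset.mem_insert_of_mem e)
  have hsum : ∀ X (T : Finset (CoprodI G)), 1 ∉ T → (∀ γ, γ ∉ insert 1 T → ν γ X = 0) →
      ν 1 X = -∑ γ ∈ T, ν γ X := fun X T h1 h2 => by
    have := congrArg A.ag.mapMatrix (A.expand (N * A.φ.mapMatrix X) _ h2)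
    rw [map_mul, hb, zero_mul, map_sum, Finset.sum_congr rfl (g := fun γ => ν γ X) fun γ _ => by
      ext1 p q
      simp [sc, ag_φ, hν,
        show A.ag (single (A.j γ) 1) = 1 by simp [ag, A.πj, MonoidAlgebra.one_def]],
      Finset.sum_insert h1] at this
    exact eq_neg_of_add_eq_zero_left this.symm
  have hmul : ∀ v Y, (∀ γ, γ ∉ insert 1 T → ∀ w, ν γ (A.co w Y) = 0) →
      A.co v (N * Y) = ∑ γ ∈ insert 1 T, ν γ (A.co (γ⁻¹ * v) Y) := fun v Y hY => by
    obtain ⟨T', h'⟩ := A.exists_supp Y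
    rw [A.expand Y T' h']
    simp only [Finset.mul_sum, map_sum]
    rw [Finset.sum_comm]
    refine Finset.sum_congr rfl fun w _ => ?_
    rw [← mul_assoc, co_sc, ← hν, Finset.sum_eq_single (v * w⁻¹) (fun γ _ h => by
      rw [co_term, if_neg fun e => h (by rw [← e]; group), map_zero])
      fun h => by rw [co_term, if_pos (by group), hY _ h], co_term, if_pos (by group)]
  have key := rec_nilP (ν := ν) T (fun w => A.co w U) hT' (fun γ hγ => by
      obtain ⟨h1, h2⟩ := hT γ hγ
      by_contra h3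
      refine h2 (AddMonoidHom.ext fun X => ?_)
      ext1 p q
      by_contra h4
      obtain ⟨g, rfl⟩ := hrow γ X p q h4
      exact h3 ⟨_, g, fun e => h1 (by rw [e, map_one]), rfl⟩)
    (fun c g x hg hx X => by
      ext1 p r
      by_contra h0
      obtain ⟨g', e1⟩ := hrow _ _ p r h0
      refine h0 ?_
      change A.cw _ ((N * A.φ.mapMatrix (ν (CoprodI.of x) X)) p r) = 0
      rw [Matrix.mul_apply, Finset.sum_eq_zero fun q _ => ?_, map_zero]
      by_cases h2 : ν (CoprodI.of x) X q r = 0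
      · simp [h2]
      · obtain ⟨x', e2⟩ := hrow _ _ q r h2
        rw [hc p q ((col_unique hg e1).symm.trans (col_unique hx e2)), zero_mul])
    1 (TU.sup len) (fun w hw => hTU w fun h => by
      have := Finset.le_sup (f := len) h
      omega)
    fun w => by
      have e : U = 1 + N * U := by rw [← hU, sub_mul, one_mul, sub_add_cancel]
      conv_lhs => rw [e, map_add, co_one, hmul _ _ hout, Finset.sum_insert h1T,
        hsum _ T h1T fun γ h => hout γ h _]
      simp only [map_sub, Finset.sum_sub_distrib, inv_one, one_mul]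
      abel
  have hN : ∀ j, ∀ X ∈ Vn ν (j + 1), -N * A.φ.mapMatrix X ∈ Rg A.φ (Vn ν j) := fun j X hX => by
    have h2 : ∀ γ, γ ∉ insert 1 ((T0 X).erase 1) → ν γ X = 0 := fun γ h =>
      hT0 X γ fun e => h (Finset.insert_erase_subset _ _ e)
    rw [neg_mul, A.expand (N * A.φ.mapMatrix X) _ h2]
    refine neg_mem (sum_mem fun γ _ => Submodule.subset_span ⟨_, ?_, _, rfl⟩)
    by_cases h : γ = 1
    · rw [h, ← hν, hsum X _ (Finset.notMem_erase _ _) h2]
      exact neg_mem (sum_mem fun γ hγ => mem_Vn.1 hX γ (Finset.mem_erase.1 hγ).1)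
    · exact mem_Vn.1 hX γ h
  rw [sub_eq_add_neg]
  exact (chain_torsP A.φ (hP.ker A.s fun a b e => by rw [← A.πs a, e, A.πs]) c _ (Vn ν) rfl Vn_mono _
    (by simpa using hN _ _ key) hN).2

variable [Fintype K]

theorem torsP (hP : Proj B) (c : Inv (MonoidAlgebra ℤ Γ) W)
    (h0 : ∀ (n : Type) [Fintype n] [DecidableEq n] (M : Matrix n n (MonoidAlgebra ℤ Γ)),
      IsUnit M → c.c (M.map A.ε) = 0)
    (h1 : ∀ i (n : Type) [Fintype n] [DecidableEq n] (M : Matrix n n (MonoidAlgebra ℤ Γ)),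
      IsUnit M → c.c (M.map (A.e i)) = 0)
    {M : Matrix n n (MonoidAlgebra ℤ Γ)} (hM : IsUnit M) : IsOfFinAddOrder (c.c M) := by
  let S : Submodule ℤ (MonoidAlgebra ℤ Γ) :=
    { carrier := {x | x = A.ε x + ∑ k, (A.e k x - A.ε x)}
      zero_mem' := by simp
      add_mem' := fun {a b} ha hb => by
        change a = _ at ha
        change b = _ at hb
        change a + b = _
        conv_lhs => rw [ha, hb]
        simp only [map_add, Finset.sum_sub_distrib, Finset.sum_add_distrib]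
        abel
      smul_mem' := fun k a ha => by
        change a = _ at ha
        change k • a = _
        conv_lhs => rw [ha]
        simp only [map_zsmul, smul_add, Finset.smul_sum, smul_sub] }
  have s2 : ∀ i b (g : G i) (a : ℤ), MonoidAlgebra.single (A.s b * A.j (CoprodI.of g)) a ∈ S := by
    intro i b g a
    change _ = _
    rw [Finset.sum_eq_single i (fun k _ hk => by
      rw [e_single, ε_single, retr_ne hk.symm, map_one CoprodI.of, sub_self]) (by simp), e_single,
      retr_same, add_sub_cancel]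
  have s0 : ∀ b (a : ℤ), MonoidAlgebra.single (A.s b * A.j 1) a ∈ S := fun b a => by
    change _ = _
    simp only [e_single, ε_single, map_one (retr _), map_one CoprodI.of, sub_self,
      Finset.sum_const_zero, add_zero]
  have s1 : (1 : MonoidAlgebra ℤ Γ) ∈ S := by simpa [MonoidAlgebra.one_def] using s0 1 1
  have s3 : ∀ w : CoprodI G, ∃ k, MonoidAlgebra.single (A.j w) (1 : ℤ) ∈ S ^ k := fun g => by
    induction g using CoprodI.induction_left with
    | one => exact ⟨1, by rw [pow_one, map_one]; exact s1⟩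
    | mul m x ih =>
      obtain ⟨k, hk⟩ := ih
      refine ⟨k + 1, ?_⟩
      rw [pow_succ', ← mul_one (1 : ℤ), map_mul, ← single_mul_single]
      exact Submodule.mul_mem_mul (by simpa using s2 _ 1 m 1) hk
  let d := c.map (QuotientAddGroup.mk' (AddCommGroup.torsion W))
  have hd : ∀ {n : Type} (M : Matrix n n (MonoidAlgebra ℤ Γ)),
      d.c M = 0 ↔ IsOfFinAddOrder (c.c M) := fun M => QuotientAddGroup.eq_zero_iff _
  refine (hd M).1 (higman d S s1 (fun x => ?_) (fun n _ _ M hM hS => block_step d A.e A.ε A.εε A.eε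
    (fun n _ _ M hM => (hd _).2 (h0 n M hM ▸ .zero))
    (fun i n _ _ M hM => (hd _).2 (h1 i n M hM ▸ .zero))
    (fun n _ _ col N g1 g2 g3 => (hd _).2 (A.colouredP hP c col N (fun p q => ?_) ?_ g2 g3)) hM hS) hM)
  · induction x using MonoidAlgebra.induction_linear with
    | zero => exact ⟨0, zero_mem _⟩
    | add a b ha hb =>
      obtain ⟨k, hk⟩ := ha
      obtain ⟨l, hl⟩ := hb
      exact ⟨max k l, add_mem (pow_mono s1 (le_max_left _ _) hk) (pow_mono s1 (le_max_right _ _) hl)⟩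
    | single g a =>
      obtain ⟨b, w, rfl⟩ := A.surj g
      obtain ⟨k, hk⟩ := s3 w
      refine ⟨k + 1, ?_⟩
      rw [pow_succ', ← mul_one a, ← single_mul_single]
      exact Submodule.mul_mem_mul (by simpa using s0 b a) hk
  · obtain ⟨x, hx⟩ := g1 p q
    rw [hx, map_sub, ee, eε]
  · ext1 p q
    obtain ⟨x, hx⟩ := g1 p q
    change A.ag (N p q) = 0
    rw [← A.ag_φ (A.ag _), φ_ag, hx, map_sub, εe, εε, sub_self, map_zero]

theorem splitP (hP : Proj B) (c : Inv (MonoidAlgebra ℤ Γ) W) {M : Matrix n n (MonoidAlgebra ℤ Γ)}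
    (hM : IsUnit M) : IsOfFinAddOrder (c.c M - (c.c (M.map A.ε) +
      ∑ i, (c.c (M.map (A.e i)) - c.c (M.map A.ε)))) := by
  let d : Inv (MonoidAlgebra ℤ Γ) W :=
    { c := fun M => c.c M - ((c.pull A.ε).c M + ∑ i, ((c.pull (A.e i)).c M - (c.pull A.ε).c M))
      mul := fun hA hB => by
        simp only [c.mul hA hB, (c.pull _).mul hA hB, Finset.sum_sub_distrib,
          Finset.sum_add_distrib]
        abel
      sub := fun e _ hA => by simp only [c.sub e hA, (c.pull _).sub e hA]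
      stab := fun hA => by simp only [c.stab hA, (c.pull _).stab hA] }
  have m : ∀ {f g h : MonoidAlgebra ℤ Γ →+* MonoidAlgebra ℤ Γ}, (∀ x, g (f x) = h x) →
      ∀ {n : Type} (M : Matrix n n (MonoidAlgebra ℤ Γ)), (M.map f).map g = M.map h := by
    intro f g h hh n M
    ext1 i j
    exact hh _
  refine A.torsP hP d (fun n _ _ M _ => ?_) (fun i n _ _ M _ => ?_) hM
  · change c.c _ - (c.c ((M.map A.ε).map A.ε) + ∑ i,
      (c.c ((M.map A.ε).map (A.e i)) - c.c ((M.map A.ε).map A.ε))) = 0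
    rw [m A.εε, Finset.sum_eq_zero fun j _ => by rw [m (A.eε j), sub_self]]
    simp
  · change c.c _ - (c.c ((M.map (A.e i)).map A.ε) + ∑ j,
      (c.c ((M.map (A.e i)).map (A.e j)) - c.c ((M.map (A.e i)).map A.ε))) = 0
    rw [m (A.εe i), Finset.sum_eq_single i
      (fun j _ hj => by rw [m (A.ee' hj.symm), sub_self]) (by simp), m (A.ee i)]
    simp

theorem negClP (hP : Proj B) (hB : NegCl B) {C : K → Type} [∀ i, Group (C i)] (h : ∀ i, NegCl (C i)) (r : ∀ i, Γ →* C i)
    (g : ∀ i, C i →* Γ) (hf : ∀ i, A.f i = (g i).comp (r i)) : NegCl Γ := by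
  rintro W _ c _ ⟨ι, _, _, x, h1, h2, rfl⟩
  have k0 : c.c ((jac x).map A.ε) ∈ symm c := hB.via c _ _ h1 h2
  have k1 : ∀ i, c.c ((jac x).map (A.e i)) ∈ symm c := fun i => by
    rw [e, hf]
    exact (h i).via c _ _ h1 h2
  obtain ⟨k, hk, hz⟩ := isOfFinAddOrder_iff_nsmul_eq_zero.1 (A.splitP hP c h2)
  rw [nsmul_sub, sub_eq_zero] at hz
  refine neg_mem_of hk ⟨ι, _, _, x, h1, h2, rfl⟩ ?_
  rw [hz]
  exact ((symm c).nsmul_mem (add_mem k0 (sum_mem fun i _ => sub_mem (k1 i) k0)) k).2

end Amal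

theorem NegCl.pushoutI_proj {K B : Type} {G : K → Type} [∀ i, Group (G i)] [Group B]
    (φ : ∀ i, B →* G i) (ρ : ∀ i, G i →* B) (h : ∀ i b, ρ i (φ i b) = b) [Finite K] (hP : Proj B)
    (hB : NegCl B) (hG : ∀ i, NegCl (G i)) : NegCl (PushoutI φ) :=
  have := Fintype.ofFinite K
  (amal φ ρ h).negClP hP hB hG (rr φ ρ h) PushoutI.of fun _ => rfl

theorem proj_prod (F : Type) {B : Type} [Group F] [Finite F] [Group B] (H : Subgroup B)
    [H.FiniteIndex] [IsFreeGroup H] : Proj (F × B) := by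
  have : (H.map (MonoidHom.inr F B)).FiniteIndex := ⟨by
    rw [show H.map (MonoidHom.inr F B) = (⊥ : Subgroup F).prod H by
      ext x
      simp [Subgroup.mem_prod, Prod.ext_iff, eq_comm, and_comm], Subgroup.index_prod]
    exact mul_ne_zero Subgroup.index_ne_zero_of_finite Subgroup.FiniteIndex.index_ne_zero⟩
  have := IsFreeGroup.ofMulEquiv (H.equivMapOfInjective (MonoidHom.inr F B)
    fun a b e => congrArg Prod.snd e)
  exact proj_vf (H.map (MonoidHom.inr F B))

theorem NegF.pushoutI_vf {K B : Type} {G : K → Type} [Finite K] [Group B]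
    [∀ i, Group (G i)] (φ : ∀ i, B →* G i) (ρ : ∀ i, G i →* B) (h : ∀ i b, ρ i (φ i b) = b)
    (H : Subgroup B) [H.FiniteIndex] [IsFreeGroup H] (hB : NegF B)
    (hG : ∀ i, NegF (G i)) : NegF (PushoutI φ) := fun F _ _ => by
  let ψ : ∀ i, F × B →* F × G i := fun i => (MonoidHom.id F).prodMap (φ i)
  let u : PushoutI φ →* PushoutI ψ :=
    PushoutI.lift (fun i => (PushoutI.of i).comp (MonoidHom.inr _ _))
      ((PushoutI.base ψ).comp (MonoidHom.inr _ _)) fun i => by
        ext b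
        exact PushoutI.of_apply_eq_base ψ i (1, b)
  have hu : ∀ (a : F) (y : PushoutI φ),
      Commute (((PushoutI.base ψ).comp (MonoidHom.inl _ _)) a) (u y) := fun a y => by
    induction y using PushoutI.induction_on with
    | of i g =>
      simp only [u, PushoutI.lift_of, MonoidHom.comp_apply, ← PushoutI.of_apply_eq_base ψ i]
      exact Commute.map (by simp [ψ, Commute, SemiconjBy]) _
    | base b =>
      simp only [u, PushoutI.lift_base, MonoidHom.comp_apply]
      exact Commute.map (by simp [Commute, SemiconjBy]) _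
    | mul x y p q => rw [map_mul]; exact p.mul_right q
  let v : PushoutI ψ →* F × PushoutI φ :=
    PushoutI.lift (fun i => (MonoidHom.id F).prodMap (PushoutI.of i))
      ((MonoidHom.id F).prodMap (PushoutI.base φ)) fun i => by
        ext b <;> simp [ψ, PushoutI.of_apply_eq_base]
  refine (NegCl.pushoutI_proj ψ (fun i => (MonoidHom.id F).prodMap (ρ i))
    (fun i b => Prod.ext rfl (h i b.2)) (proj_prod F H) (hB F) fun i => hG i F).retract (MonoidHom.noncommCoprod _ u hu) v fun x => ?_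
  have : ∀ y, v (u y) = (1, y) := fun y => by
    induction y using PushoutI.induction_on with
    | of i g => simp [u, v]
    | base b => simp [u, v]
    | mul x y p q => rw [map_mul, map_mul, p, q, Prod.mk_mul_mk, one_mul]
  rw [MonoidHom.noncommCoprod_apply, map_mul, this]
  simp [v]

end Pool.Agent.Lib.MP_2add11_gt.IG
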