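import Pool.Agent.Lib.MP_2add11_gt.IG.Gp
import Pool.Agent.Lib.MP_2add11_gt.IG.HerB
import Pool.Agent.Lib.MP_2add11_gt.IG.FPclo

/-!
Graph products over triangle-free graphs.
-/

noncomputable section

namespace Pool.Agent.Lib.MP_2add11_gt.IG

open Monoid Subgroup Pool.Agent.Lib.MP_7eef47_al.GP Classical

variable {V : Type} {Γ : SimpleGraph V} {A : V → Type} [∀ v, Group (A v)]

/-- `C × gsub t` for an independent set `t` is a retract of the amalgam of the `C × A u`. -/
theorem prod_gsub (C : Type) [Group C] (t : Set V) (ht : ∀ u ∈ t, ∀ w ∈ t, ¬ Γ.Adj u w) :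
    ∃ (f : C × gsub Γ A t →* PushoutI fun u : t => MonoidHom.inl C (A u))
      (g : (PushoutI fun u : t => MonoidHom.inl C (A u)) →* C × gsub Γ A t),
      ∀ x, g (f x) = x := by
  let φ := fun u : t => MonoidHom.inl C (A u)
  let F : ∀ u, A u →* PushoutI φ := fun u =>
    if h : u ∈ t then (PushoutI.of (φ := φ) ⟨u, h⟩).comp (MonoidHom.inr _ _) else 1
  have hF1 : ∀ u (h : u ∈ t) a, F u a = PushoutI.of (φ := φ) ⟨u, h⟩ (1, a) := fun u h a => by
    simp only [F, dif_pos h]; rfl
  have hF : ∀ u w, Γ.Adj u w → ∀ a b, Commute (F u a) (F w b) := fun u w h a b => by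
    by_cases hu : u ∈ t
    · simp only [F, dif_neg fun hw => ht u hu w hw h]
      exact Commute.one_right _
    · simp only [F, dif_neg hu]
      exact Commute.one_left _
  let j := (glift F hF).comp (gsub Γ A t).subtype
  have hj : ∀ u (h : u ∈ t) a, j ⟨_, ginc_mem h a⟩ = PushoutI.of (φ := φ) ⟨u, h⟩ (1, a) :=
    fun u h a => (glift_inc F hF u a).trans (hF1 u h a)
  have hc : ∀ c x, Commute (PushoutI.base φ c) (j x) := fun c x => by
    have : (MulAut.conj (PushoutI.base φ c)).toMonoidHom.comp j = j := gsub_ext fun u h a => by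
      change PushoutI.base φ c * j _ * (PushoutI.base φ c)⁻¹ = _
      rw [hj u h, ← PushoutI.of_apply_eq_base φ ⟨u, h⟩, ← map_inv, ← map_mul, ← map_mul]
      simp [φ]
    exact mul_inv_eq_iff_eq_mul.1 (DFunLike.congr_fun this x)
  have hγ : ∀ u : t, ((MonoidHom.id C).prodMap (gin (Γ := Γ) (A := A) t u)).comp (φ u) =
      MonoidHom.inl _ _ := fun u => MonoidHom.ext fun c => by simp [φ]
  refine ⟨MonoidHom.noncommCoprod _ j hc, PushoutI.lift _ _ hγ, fun x => ?_⟩
  have : (PushoutI.lift _ _ hγ).comp j = MonoidHom.inr _ _ := gsub_ext fun u h a => by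
    rw [MonoidHom.comp_apply, hj u h, PushoutI.lift_of]
    exact Prod.ext rfl (gin_mem h a)
  have h2 := DFunLike.congr_fun this x.2
  rw [MonoidHom.comp_apply] at h2
  rw [MonoidHom.noncommCoprod_apply, map_mul, h2, PushoutI.lift_base]
  simp

theorem indep_of_link (hΓ : Γ.CliqueFree 3) {v : V} {t : Set V} (ht : ∀ u ∈ t, Γ.Adj v u) :
    ∀ u ∈ t, ∀ w ∈ t, ¬ Γ.Adj u w := fun u hu w hw h =>
  hΓ {v, u, w} (SimpleGraph.is3Clique_triple_iff.2 ⟨ht u hu, ht w hw, h⟩)

/-- Graph products of virtually free groups over a finite triangle-free graph. -/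
theorem NegF.graphProduct_of [Finite V] (hΓ : Γ.CliqueFree 3) (hA : ∀ v, VFree (A v))
    (h1 : ∀ v, NegF (A v)) (h2 : ∀ u v, Γ.Adj u v → NegF (A u × A v)) :
    NegF (GraphProduct Γ A) := by
  refine gp_ind' (fun G _ => NegF G) (fun G _ => VFree G) (fun G _ _ => NegF.finite G)
    (fun _ _ _ _ h f g e => h.retract f g e) ?_ (link_vfree hΓ hA) fun v t ht _ => ?_
  · rintro B _ G _ φ ρ e ⟨H, _, _⟩ hG
    exact NegF.pushoutI_vf φ ρ e H ((hG true).retract (φ true) (ρ true) (e true)) hG
  · obtain ⟨f, g, e⟩ := prod_gsub (Γ := Γ) (A := A) (A v) t (indep_of_link hΓ ht)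
    obtain ⟨H, _, _⟩ := hA v
    exact (NegF.pushoutI_vf _ (fun u : t => MonoidHom.fst (A v) (A u)) (fun _ _ => rfl) H (h1 v)
      fun u => h2 v u (ht u u.2)).retract f g e

/-- Graph products of finitely presented groups over a finite graph are finitely presented. -/
theorem fp_graphProduct [Finite V] (hA : ∀ v, Group.IsFinitelyPresented (A v)) :
    Group.IsFinitelyPresented (GraphProduct Γ A) := by
  refine gp_ind' (fun G _ => Group.IsFinitelyPresented G) (fun _ _ => True)
    (fun _ _ _ => inferInstance) (fun _ _ _ _ _ f g e => fp_retract f g e) ?_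
    (fun _ _ _ => trivial) fun v t _ h => fp_prod _ _
  intro B _ G _ φ ρ e _ hG
  have := fp_retract (φ true) (ρ true) (e true)
  exact fp_pushoutI φ

theorem VFree.cyclic (G : Type) [Group G] [IsCyclic G] : VFree G := by
  rcases finite_or_infinite G with h | h
  · exact VFree.finite G
  · obtain ⟨g, hg⟩ := IsCyclic.exists_generator (α := G)
    have e := intEquivOfZPowersEqTop g ((eq_top_iff' _).2 hg)
    have : IsFreeGroup (Multiplicative ℤ) :=
      IsFreeGroup.ofMulEquiv (FreeGroup.mulEquivIntOfUnique : FreeGroup Unit ≃* _)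
    exact ⟨⊤, inferInstance, free_of_inj (e.symm.toMonoidHom.comp (⊤ : Subgroup G).subtype)
      (e.symm.injective.comp Subtype.val_injective)⟩

theorem fg_cyclic (G : Type) [Group G] [IsCyclic G] : Group.FG G := by
  obtain ⟨g, hg⟩ := IsCyclic.exists_generator (α := G)
  exact Group.fg_iff.2 ⟨{g}, by rw [← zpowers_eq_closure]; exact (eq_top_iff' _).2 hg,
    Set.finite_singleton g⟩

theorem NegF.cyclic (G : Type) [Group G] [IsCyclic G] : NegF G := by
  have := fg_cyclic G
  let _ := IsCyclic.commGroup (α := G)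
  exact NegF.abelian G

theorem NegF.cyclic_prod (G H : Type) [Group G] [IsCyclic G] [Group H] [IsCyclic H] :
    NegF (G × H) := by
  have := fg_cyclic G
  have := fg_cyclic H
  let _ := IsCyclic.commGroup (α := G)
  let _ := IsCyclic.commGroup (α := H)
  exact NegF.abelian (G × H)

/-- Graph products of finite and cyclic groups over a finite triangle-free graph. -/
theorem NegF.graphProduct [Finite V] (hΓ : Γ.CliqueFree 3)
    (hA : ∀ v, Finite (A v) ∨ IsCyclic (A v)) : NegF (GraphProduct Γ A) := by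
  have h1 : ∀ v, NegF (A v) := fun v =>
    (hA v).elim (fun _ => NegF.finite _) fun _ => NegF.cyclic _
  refine NegF.graphProduct_of hΓ
    (fun v => (hA v).elim (fun _ => VFree.finite _) fun _ => VFree.cyclic _) h1 fun u v _ => ?_
  rcases hA u with hu | hu
  · exact (h1 v).prod _
  · rcases hA v with hv | hv
    · exact ((h1 u).prod (A v)).retract (MulEquiv.prodComm (M := A u)).toMonoidHom
        (MulEquiv.prodComm (M := A v)).toMonoidHom fun _ => rfl
    · exact NegF.cyclic_prod _ _

theorem fp_graphProduct' [Finite V] (hA : ∀ v, Finite (A v) ∨ IsCyclic (A v)) :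
    Group.IsFinitelyPresented (GraphProduct Γ A) :=
  fp_graphProduct fun v => by
    obtain ⟨H, _, _⟩ := (hA v).elim (fun _ => VFree.finite _) fun _ => VFree.cyclic (A v)
    have : Group.FG (A v) := (hA v).elim (fun _ => inferInstance) fun _ => fg_cyclic _
    exact fp_virtFree H

end Pool.Agent.Lib.MP_2add11_gt.IG
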