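import Pool.Agent.Lib.MP_2add11_gt.IG.GpNeg
import Pool.Agent.Lib.MP_2add11_gt.IG.FamAmal

/-!
Graph products over triangle-free graphs times a fixed group.
-/

noncomputable section

namespace Pool.Agent.Lib.MP_2add11_gt.IG

open Monoid Subgroup Pool.Agent.Lib.MP_7eef47_al.GP

theorem NegCl.graphProduct_prod (D : Type) [Group D]
    (hct : ∀ (B : Type) [Group B] [Group.FG B] (H : Subgroup B) [H.FiniteIndex] [IsFreeGroup H],
      CT (B × D))
    (h1 : ∀ (P : Type) [Group P] [Group.FG P] (N : Subgroup P) [N.FiniteIndex] [IsFreeGroup N],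
      NegCl (P × D))
    (h2 : ∀ (P P' : Type) [Group P] [Group.FG P] [Group P'] [Group.FG P'] (N : Subgroup P)
      [N.FiniteIndex] [IsFreeGroup N] (N' : Subgroup P') [N'.FiniteIndex] [IsFreeGroup N'],
      NegCl ((P × P') × D))
    {V : Type} [Finite V] {Γ : SimpleGraph V} {A : V → Type} [∀ v, Group (A v)]
    [∀ v, Group.FG (A v)] (hΓ : Γ.CliqueFree 3) (hA : ∀ v, VFree (A v)) :
    NegCl (GraphProduct Γ A × D) := by
  have : Group.IsFinitelyPresented (GraphProduct Γ A) := fp_graphProduct fun v => by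
    obtain ⟨M, _, _⟩ := hA v
    exact fp_virtFree M
  have := fg_of_fp (GraphProduct Γ A)
  have hfg : ∀ t : Set V, Group.FG (gsub Γ A t) := fun t =>
    Group.fg_of_surjective (f := gret t) fun x => ⟨x, gret_sub t x⟩
  refine gp_ind' (fun G _ => NegCl (G × D)) (fun G _ => Group.FG G ∧ VFree G)
    (fun G _ _ => ?_) (fun _ _ _ _ h f g e => h.retract (f.prodMap (MonoidHom.id D))
      (g.prodMap (MonoidHom.id D)) fun x => Prod.ext (e x.1) rfl) ?_
    (fun v t ht => ⟨hfg t, link_vfree hΓ hA v t ht⟩) fun v t ht _ => ?_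
  · obtain ⟨N, _, _⟩ := VFree.finite G
    exact h1 G N
  · rintro B _ G _ φ ρ e ⟨_, H, _, _⟩ hG
    exact NegCl.pushoutI_ct_prod φ ρ e D (hct B H) (h1 B H) hG
  · have := hfg t
    obtain ⟨N, _, _⟩ := hA v
    obtain ⟨N', _, _⟩ := link_vfree hΓ hA v t ht
    exact h2 _ _ N N'

end Pool.Agent.Lib.MP_2add11_gt.IG
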