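import Pool.Agent.Lib.MP_2add11_gt.IG.HerC
import Pool.Agent.Lib.MP_2add11_gt.IG.FamAmal

/-!
Amalgamated products over a retract with the chain property.
-/

noncomputable section

namespace Pool.Agent.Lib.MP_2add11_gt.IG

open Matrix MonoidAlgebra Monoid FG

theorem Proj.ct {B : Type} [Group B] (h : Proj B) : CT B :=
  fun _ _ _ _ _ _ _ s hs c m V h0 hm Z h1 h2 => (chain_torsP _ (h.ker s hs) c m V h0 hm Z h1 h2).2

theorem NegF.pushoutI_ct {K B : Type} {G : K → Type} [Finite K] [Group B]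
    [∀ i, Group (G i)] (φ : ∀ i, B →* G i) (ρ : ∀ i, G i →* B) (h : ∀ i b, ρ i (φ i b) = b)
    (hC : ∀ (F : Type) [Group F] [Finite F], CT (F × B)) (hB : NegF B) (hG : ∀ i, NegF (G i)) :
    NegF (PushoutI φ) := fun F _ _ =>
  (NegCl.pushoutI_ct_prod φ ρ h F ((hC F).equiv MulEquiv.prodComm) ((hB F).equiv MulEquiv.prodComm)
    fun i => (hG i F).equiv MulEquiv.prodComm).equiv MulEquiv.prodComm

theorem NegClS.pushoutI_ct {K B : Type} {G : K → Type} [Finite K] [Group B]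
    [∀ i, Group (G i)] (φ : ∀ i, B →* G i) (ρ : ∀ i, G i →* B) (h : ∀ i b, ρ i (φ i b) = b)
    (hC : ∀ (F A : Type) [Group F] [Finite F] [CommGroup A] [Group.FG A], CT (B × (F × A)))
    (hB : NegClS B) (hG : ∀ i, NegClS (G i)) : NegClS (PushoutI φ) := fun F A _ _ _ _ =>
  NegCl.pushoutI_ct_prod φ ρ h (F × A) (hC F A) (hB F A) fun i => hG i F A

end Pool.Agent.Lib.MP_2add11_gt.IG
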