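import Pool.Agent.Lib.MP_2add11_gt.IG.GpNeg
import Pool.Agent.Lib.MP_2add11_gt.IG.HerD
import Pool.Agent.Lib.MP_2add11_gt.IG.FamAll

/-!
Graph products over triangle-free graphs times finite and finitely generated abelian groups.
-/

noncomputable section

namespace Pool.Agent.Lib.MP_2add11_gt.IG

open Monoid Subgroup Pool.Agent.Lib.MP_7eef47_al.GP

/-- The chain property for all products of a virtually free and an abelian group. -/
def CTVf : Prop :=
  ∀ (B A : Type) [Group B] [Group.FG B] (H : Subgroup B) [H.FiniteIndex] [IsFreeGroup H]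
    [CommGroup A] [Group.FG A], CT (B × A)

theorem VFree.prod_fin {B : Type} [Group B] (h : VFree B) (F : Type) [Group F] [Finite F] :
    VFree (B × F) := by
  obtain ⟨H, hH, _⟩ := h
  refine ⟨H.prod ⊥, ⟨?_⟩, free_of_inj (C := H)
    (((MonoidHom.fst B F).comp (H.prod ⊥).subtype).codRestrict H fun x => x.2.1) fun x y e =>
      Subtype.ext (Prod.ext (congrArg Subtype.val e) (x.2.2.trans y.2.2.symm))⟩
  rw [index_prod, index_bot]
  exact mul_ne_zero hH.index_ne_zero Nat.card_pos.ne'

theorem CTVf.base (hct : CTVf) {B : Type} [Group B] [Group.FG B] (h : VFree B) (F A : Type)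
    [Group F] [Finite F] [CommGroup A] [Group.FG A] : CT (B × (F × A)) := by
  obtain ⟨H, _, _⟩ := h.prod_fin F
  exact (hct (B × F) A H).equiv MulEquiv.prodAssoc.symm

theorem NegClS.vfree_prod (hct : CTVf) {P B : Type} [Group P] [Group.FG P] [Group B] [Group.FG B]
    (hP : VFree P) (hB : VFree B) : NegClS (P × B) := by
  obtain ⟨N, _, _⟩ := hP
  obtain ⟨M, _, _⟩ := id hB
  obtain ⟨V, _, T, s, a, b, c, d, e, -⟩ := tree_of_free P N
  obtain ⟨Q, E, _, _, _, _, H, _, f, g, hfg⟩ := tree_retract' P V T a b s c d N e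
  have h1 : NegClS (Wr (Multiplicative (ZMod 2)) Q E × B) := fun F A _ _ _ _ => by
    have e1 : Q × (B × (F × A)) ≃* B × ((Q × F) × A) :=
      { toFun := fun x => (x.2.1, (x.1, x.2.2.1), x.2.2.2)
        invFun := fun x => (x.2.1.1, x.1, x.2.1.2, x.2.2)
        left_inv := fun _ => rfl
        right_inv := fun _ => rfl
        map_mul' := fun _ _ => rfl }
    have e2 : Multiplicative (ZMod 2) × (Q × (B × (F × A))) ≃*
        B × ((Multiplicative (ZMod 2) × (Q × F)) × A) :=
      { toFun := fun x => (x.2.2.1, (x.1, x.2.1, x.2.2.2.1), x.2.2.2.2)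
        invFun := fun x => (x.2.1.1, x.2.1.2.1, x.1, x.2.1.2.2, x.2.2)
        left_inv := fun _ => rfl
        right_inv := fun _ => rfl
        map_mul' := fun _ _ => rfl }
    exact (NegCl.wr_prod (B × (F × A)) ((hct.base hB (Q × F) A).equiv e1)
      ((NegClS.vf B M _ A).equiv e2)).equiv MulEquiv.prodAssoc
  have : (H.subtype.prodMap (MonoidHom.id B)).range.FiniteIndex := by
    rw [MonoidHom.range_prodMap, (MonoidHom.id B).range_eq_top_of_surjective fun x => ⟨x, rfl⟩]
    exact ⟨by simp [Subgroup.index_prod, Subgroup.FiniteIndex.index_ne_zero]⟩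
  exact (h1.of_finiteIndex (H.subtype.prodMap (MonoidHom.id B))
    (H.subtype_injective.prodMap Function.injective_id)).retract
    (f.prodMap (MonoidHom.id B)) (g.prodMap (MonoidHom.id B)) fun x => Prod.ext (hfg x.1) rfl

theorem NegClS.graphProduct (hct : CTVf) {V : Type} [Finite V] {Γ : SimpleGraph V}
    {A : V → Type} [∀ v, Group (A v)] [∀ v, Group.FG (A v)] (hΓ : Γ.CliqueFree 3)
    (hA : ∀ v, VFree (A v)) : NegClS (GraphProduct Γ A) := by
  have : Group.IsFinitelyPresented (GraphProduct Γ A) := fp_graphProduct fun v => by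
    obtain ⟨M, _, _⟩ := hA v
    exact fp_virtFree M
  have := fg_of_fp (GraphProduct Γ A)
  have hfg : ∀ t : Set V, Group.FG (gsub Γ A t) := fun t =>
    Group.fg_of_surjective (f := gret t) fun x => ⟨x, gret_sub t x⟩
  refine gp_ind' (fun G _ => NegClS G) (fun G _ => Group.FG G ∧ VFree G)
    (fun G _ _ => NegClS.finite G) (fun _ _ _ _ h f g e => h.retract f g e) ?_
    (fun v t ht => ⟨hfg t, link_vfree hΓ hA v t ht⟩) fun v t ht _ => ?_
  · rintro B _ G _ φ ρ e ⟨_, hB⟩ hG
    exact NegClS.pushoutI_ct φ ρ e (fun F A _ _ _ _ => hct.base hB F A)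
      ((hG true).retract (φ true) (ρ true) (e true)) hG
  · have := hfg t
    exact NegClS.vfree_prod hct (hA v) (link_vfree hΓ hA v t ht)

end Pool.Agent.Lib.MP_2add11_gt.IG
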