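import Pool.Agent.Lib.MP_2add11_gt.IG.ClsA
import Pool.Agent.Lib.MP_2add11_gt.IG.Kps
import Pool.Agent.Lib.MP_2add11_gt.IG.FPclo

/-!
Finitely generated virtually free groups: the algebraic model is closed under inverses.
-/

namespace Pool.Agent.Lib.MP_2add11_gt.IG

theorem NegF.vf (G : Type) [Group G] [Group.FG G] (N : Subgroup G) [N.FiniteIndex]
    [IsFreeGroup N] : NegF G := by
  obtain ⟨V, _, T, s, a, b, c, d, e, -⟩ := tree_of_free G N
  exact NegF.tree G V T a b s c d N e

theorem whStar_vf (G : Type) [Group G] [Group.FG G] (N : Subgroup G) [N.FiniteIndex]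
    [IsFreeGroup N] : ∃ H : AddSubgroup (Wh G), (H : Set (Wh G)) = WhStar G :=
  have := fp_virtFree N
  (NegF.vf G N).negCl.whStar

end Pool.Agent.Lib.MP_2add11_gt.IG
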