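import Pool.Agent.Lib.MP_2add11_gt.IG.WrVfA
import Pool.Agent.Lib.MP_2add11_gt.IG.HerB
import Pool.Agent.Lib.MP_2add11_gt.IG.KpsNeg

/-!
Free wreath products over virtually free groups; products of two virtually free groups.
-/

noncomputable section

namespace Pool.Agent.Lib.MP_2add11_gt.IG

open Matrix MonoidAlgebra Monoid FG

theorem chainAt_proj {B Γ : Type} [Group B] [Group Γ] (hP : Proj B) (s : B →* Γ)
    (hs : Function.Injective s) : ChainAt (mapDomainRingHom ℤ s) :=
  fun _ _ _ _ _ c m V h0 hm Z hZ hZ' => (chain_torsP _ (hP.ker s hs) c m V h0 hm Z hZ hZ').2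

variable {K Q E : Type} [Group K] [Group Q] [MulAction Q E] [Finite E]

theorem NegCl.wr_proj (hP : Proj Q) (h : NegCl (K × Q)) : NegCl (Wr K Q E) := by
  classical
  have := Fintype.ofFinite E
  exact NegCl.wr_of (chainAt_proj hP _ SemidirectProduct.inr_injective) h

theorem NegCl.wr_vf (H : Subgroup Q) [H.FiniteIndex] [IsFreeGroup H] (h : NegCl (K × Q)) :
    NegCl (Wr K Q E) := NegCl.wr_proj (proj_vf H) h

theorem NegF.wr_vf (H : Subgroup Q) [H.FiniteIndex] [IsFreeGroup H] (h : NegF (K × Q)) :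
    NegF (Wr K Q E) := fun F _ _ => by
  let _ : MulAction (F × Q) E := MulAction.compHom E (MonoidHom.snd F Q)
  exact (NegCl.wr_proj (E := E) (proj_prod F H) ((h F).equiv (MulEquiv.prodAssoc.symm.trans
    ((MulEquiv.prodComm.prodCongr (MulEquiv.refl Q)).trans MulEquiv.prodAssoc)))).retract
    { toFun := fun x => ⟨x.2.left, (x.1, x.2.right)⟩
      map_one' := rfl
      map_mul' := fun _ _ => rfl }
    { toFun := fun x => (x.right.1, ⟨x.left, x.right.2⟩)
      map_one' := rfl
      map_mul' := fun _ _ => rfl } fun _ => rfl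

theorem NegF.wr_prod_vf [Finite Q] {B : Type} [Group B] (H : Subgroup B) [H.FiniteIndex]
    [IsFreeGroup H] (h : NegF (K × B)) : NegF (Wr K Q E × B) := fun F _ _ => by
  let _ : MulAction ((F × Q) × B) E :=
    MulAction.compHom E ((MonoidHom.snd F Q).comp (MonoidHom.fst _ B))
  exact (NegCl.wr_proj (E := E) (proj_prod (F × Q) H) ((h (F × Q)).equiv
    (MulEquiv.prodAssoc.symm.trans
      ((MulEquiv.prodComm.prodCongr (MulEquiv.refl B)).trans MulEquiv.prodAssoc)))).retract
    { toFun := fun x => ⟨x.2.1.left, ((x.1, x.2.1.right), x.2.2)⟩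
      map_one' := rfl
      map_mul' := fun _ _ => rfl }
    { toFun := fun x => (x.right.1.1, ⟨x.left, x.right.1.2⟩, x.right.2)
      map_one' := rfl
      map_mul' := fun _ _ => rfl } fun _ => rfl

theorem NegF.tree_prod_vf (G V : Type) [Group G] [MulAction G V] (T : SimpleGraph V)
    (hT : T.IsTree) (hG : ∀ (g : G) x y, T.Adj x y → T.Adj (g • x) (g • y))
    (s : Set (V × V)) (hs : s.Finite) (hc : ∀ x y, T.Adj x y → ∃ g : G, (g • x, g • y) ∈ s)
    (N : Subgroup G) [N.FiniteIndex] (h1 : ∀ n ∈ N, ∀ x : V, n • x = x → n = 1)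
    {B : Type} [Group B] (H : Subgroup B) [H.FiniteIndex] [IsFreeGroup H] (hB : NegF B) :
    NegF (G × B) := by
  obtain ⟨Q, E, _, _, _, _, H', _, f, g, hfg⟩ := tree_retract' G V T hT hG s hs hc N h1
  have : (H'.subtype.prodMap (MonoidHom.id B)).range.FiniteIndex := by
    rw [MonoidHom.range_prodMap, (MonoidHom.id B).range_eq_top_of_surjective fun x => ⟨x, rfl⟩]
    exact ⟨by simp [Subgroup.index_prod, Subgroup.FiniteIndex.index_ne_zero]⟩
  exact ((NegF.wr_prod_vf (Q := Q) (E := E) H (hB.prod (Multiplicative (ZMod 2)))).sub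
    (H'.subtype.prodMap (MonoidHom.id B))
    (H'.subtype_injective.prodMap Function.injective_id)).retract
    (f.prodMap (MonoidHom.id B)) (g.prodMap (MonoidHom.id B)) fun x => Prod.ext (hfg x.1) rfl

/-- The product of two finitely generated virtually free groups. -/
theorem NegF.vf_prod_vf (G B : Type) [Group G] [Group.FG G] (N : Subgroup G) [N.FiniteIndex]
    [IsFreeGroup N] [Group B] [Group.FG B] (H : Subgroup B) [H.FiniteIndex] [IsFreeGroup H] :
    NegF (G × B) := by
  obtain ⟨V, _, T, s, a, b, c, d, e, -⟩ := tree_of_free G N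
  exact NegF.tree_prod_vf G V T a b s c d N e H (NegF.vf B H)

end Pool.Agent.Lib.MP_2add11_gt.IG
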