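import Pool.Agent.Lib.MP_2add11_gt.IG.CohMain
import Pool.Agent.Lib.MP_2add11_gt.IG.WrVf
import Pool.Agent.Lib.MP_2add11_gt.IG.FamWr
import Pool.Agent.Lib.MP_2add11_gt.IG.FPab

/-!
Products of virtually free groups with finitely many virtually cyclic groups.
-/

noncomputable section

namespace Pool.Agent.Lib.MP_2add11_gt.IG

open Function

theorem negCl_vf_ct (G B : Type) [Group G] [Group.FG G] (N : Subgroup G) [N.FiniteIndex]
    [IsFreeGroup N] [Group B] (hC : ∀ (F : Type) [Group F] [Finite F], CT (F × B)) (hB : NegF B) :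
    NegCl (G × B) := by
  obtain ⟨V, _, T, s, a, b, c, d, e, -⟩ := tree_of_free G N
  obtain ⟨Q, E, _, _, _, _, H', _, f, g, hfg⟩ := tree_retract' G V T a b s c d N e
  have : (H'.subtype.prodMap (MonoidHom.id B)).range.FiniteIndex := by
    rw [MonoidHom.range_prodMap, (MonoidHom.id B).range_eq_top_of_surjective fun x => ⟨x, rfl⟩]
    exact ⟨by simp [Subgroup.index_prod, Subgroup.FiniteIndex.index_ne_zero]⟩
  exact ((NegCl.wr_prod (K := Multiplicative (ZMod 2)) (E := E) B (hC Q)
    ((hB (_ × Q)).equiv MulEquiv.prodAssoc.symm)).of_finiteIndex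
    (H'.subtype.prodMap (MonoidHom.id B))
    (H'.subtype_injective.prodMap Function.injective_id)).retract
    (f.prodMap (MonoidHom.id B)) (g.prodMap (MonoidHom.id B)) fun x => Prod.ext (hfg x.1) rfl

theorem vf_fin_prod (F P : Type) [Group F] [Finite F] [Group P] (N : Subgroup P) [N.FiniteIndex]
    [IsFreeGroup N] : ∃ M : Subgroup (F × P), M.FiniteIndex ∧ IsFreeGroup M :=
  ⟨N.map (MonoidHom.inr F P), ⟨by
    rw [show N.map (MonoidHom.inr F P) = (⊥ : Subgroup F).prod N by
      ext x
      simp [Subgroup.mem_prod, Prod.ext_iff, eq_comm, and_comm], Subgroup.index_prod]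
    exact mul_ne_zero Subgroup.index_ne_zero_of_finite Subgroup.FiniteIndex.index_ne_zero⟩,
    IsFreeGroup.ofMulEquiv (N.equivMapOfInjective (MonoidHom.inr F P) fun a b e =>
      congrArg Prod.snd e)⟩

/-- A finitely generated abelian subgroup of finite index. -/
def VAb (D : Type) [Group D] : Prop :=
  ∃ (A : Type) (_ : CommGroup A) (_ : Group.FG A) (s : A →* D), Injective s ∧ s.range.FiniteIndex

theorem VAb.ct {D : Type} [Group D] (h : VAb D) (B : Type) [Group B] [Group.FG B] (H : Subgroup B)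
    [H.FiniteIndex] [IsFreeGroup H] : CT (B × D) := by
  obtain ⟨A, _, _, s, hs, _⟩ := h
  obtain ⟨d, hd⟩ := gd_fg A
  have : IsNoetherianRing (MonoidAlgebra ℚ A) := Algebra.FiniteType.isNoetherianRing ℚ _
  obtain ⟨h1, h2⟩ := Fam.vf_ab B A H (fun X _ a n _ g => coh_free _ X a n g)
    fun X _ => Fam.gd_free hd (FreeGroup X)
  have : ((MonoidHom.id B).prodMap s).range.FiniteIndex := by
    rw [MonoidHom.range_prodMap, (MonoidHom.id B).range_eq_top_of_surjective fun x => ⟨x, rfl⟩]
    exact ⟨by simp [Subgroup.index_prod, Subgroup.FiniteIndex.index_ne_zero]⟩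
  obtain ⟨h3, h4⟩ := Fam.up ((MonoidHom.id B).prodMap s) (injective_id.prodMap hs)
  exact ct_of_coh _ (h3 h1) fun _ _ K _ => h4 _ h2 K

theorem VAb.fp {D : Type} [Group D] (h : VAb D) : Group.IsFinitelyPresented D := by
  obtain ⟨A, _, _, s, hs, _⟩ := h
  have := _root_.IG.fp_commGroup A
  have := fp_retract (MonoidHom.ofInjective hs).symm.toMonoidHom
    (MonoidHom.ofInjective hs).toMonoidHom (MonoidHom.ofInjective hs).apply_symm_apply
  exact fp_up s.range

/-- The properties that are carried through the induction. -/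
def VcG (D : Type) [Group D] : Prop := VAb D ∧ ∀ (P : Type) [Group P] [Group.FG P] (N : Subgroup P)
  [N.FiniteIndex] [IsFreeGroup N], NegCl (P × D)

theorem VcG.two {D : Type} [Group D] (h : VcG D) (P P' : Type) [Group P] [Group.FG P]
    (N : Subgroup P) [N.FiniteIndex] [IsFreeGroup N] [Group P'] [Group.FG P'] (N' : Subgroup P')
    [N'.FiniteIndex] [IsFreeGroup N'] : NegCl (P × (P' × D)) :=
  negCl_vf_ct P _ N (fun F _ _ => by
    obtain ⟨M, _, _⟩ := vf_fin_prod F P' N'
    exact (h.1.ct (F × P') M).equiv MulEquiv.prodAssoc.symm) fun F _ _ => by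
    obtain ⟨M, _, _⟩ := vf_fin_prod F P' N'
    exact (h.2 (F × P') M).equiv MulEquiv.prodAssoc.symm

theorem VcG.equiv {D D' : Type} [Group D] [Group D'] (h : VcG D) (e : D ≃* D') : VcG D' := by
  obtain ⟨⟨A, _, _, s, hs, _⟩, h⟩ := h
  refine ⟨⟨A, _, inferInstance, e.toMonoidHom.comp s, e.injective.comp hs, ⟨?_⟩⟩,
    fun P _ _ N _ _ => (h P N).equiv ((MulEquiv.refl P).prodCongr e.symm)⟩
  rw [MonoidHom.range_comp, Subgroup.index_map_of_bijective e.bijective]
  exact Subgroup.FiniteIndex.index_ne_zero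

theorem fg_zpowers {V : Type} [Group V] (t : V) : Group.FG (Subgroup.zpowers t) :=
  (Group.fg_iff_subgroup_fg _).2 ⟨{t}, by simp [Subgroup.zpowers_eq_closure]⟩

theorem vf_of_vc {V : Type} [Group V] (t : V) [(Subgroup.zpowers t).FiniteIndex] :
    ∃ N : Subgroup V, N.FiniteIndex ∧ IsFreeGroup N := by
  by_cases h : IsOfFinOrder t
  · have : Finite (Subgroup.zpowers t) := h.finite_zpowers
    have : Finite V := Finite.of_equiv _ (Subgroup.groupEquivQuotientProdSubgroup
      (s := Subgroup.zpowers t)).symm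
    exact ⟨⊥, inferInstance, IsFreeGroup.ofMulEquiv (MulEquiv.ofUnique : FreeGroup Empty ≃* _)⟩
  · refine ⟨Subgroup.zpowers t, inferInstance, ?_⟩
    have : IsFreeGroup (Multiplicative ℤ) :=
      IsFreeGroup.ofMulEquiv (FreeGroup.mulEquivIntOfUnique (α := Unit))
    exact IsFreeGroup.ofMulEquiv (MonoidHom.ofInjective (f := zpowersHom V t)
      fun a b e => injective_zpow_iff_not_isOfFinOrder.2 h e)

theorem VcG.step {D V : Type} [Group D] [Group V] (h : VcG D) (t : V)
    [(Subgroup.zpowers t).FiniteIndex] : VcG (V × D) := by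
  have := fg_zpowers t
  have := fg_up (Subgroup.zpowers t)
  obtain ⟨N, _, _⟩ := vf_of_vc t
  refine ⟨?_, fun P _ _ M _ _ => h.two P V M N⟩
  obtain ⟨A, _, _, s, hs, _⟩ := h.1
  let : CommGroup (Subgroup.zpowers t) := { (inferInstance : Group _) with mul_comm := mul_comm' }
  refine ⟨Subgroup.zpowers t × A, inferInstance, inferInstance,
    (Subgroup.zpowers t).subtype.prodMap s, (Subgroup.subtype_injective _).prodMap hs, ⟨?_⟩⟩
  rw [MonoidHom.range_prodMap, Subgroup.range_subtype, Subgroup.index_prod]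
  exact mul_ne_zero Subgroup.FiniteIndex.index_ne_zero Subgroup.FiniteIndex.index_ne_zero

theorem vcG_pi (I : Type) [Finite I] : ∀ (V : I → Type) [∀ i, Group (V i)],
    (∀ i, ∃ t : V i, (Subgroup.zpowers t).FiniteIndex) → VcG (∀ i, V i) := by
  induction I using Finite.induction_empty_option with
  | of_equiv e ih =>
    intro V _ hV
    exact (ih (fun a => V (e a)) fun a => hV (e a)).equiv
      ({ (Equiv.piCongrLeft V e).symm with map_mul' := fun _ _ => rfl } :
        (∀ b, V b) ≃* ∀ a, V (e a)).symm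
  | h_empty =>
    intro V _ _
    refine ⟨⟨Unit, inferInstance, inferInstance, 1, fun _ _ _ => rfl, inferInstance⟩,
      fun P _ _ N _ _ => (NegF.vf P N _).equiv MulEquiv.prodComm⟩
  | h_option ih =>
    intro V _ hV
    obtain ⟨t, _⟩ := hV none
    exact ((ih (fun a => V (some a)) fun a => hV (some a)).step t).equiv
      ({ Equiv.piOptionEquivProd with map_mul' := fun _ _ => rfl } :
        (∀ b, V b) ≃* V none × ∀ a, V (some a)).symm

variable {I : Type} [Finite I] (V : I → Type) [∀ i, Group (V i)]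
  (hV : ∀ i, ∃ t : V i, (Subgroup.zpowers t).FiniteIndex)

include hV

theorem ct_vc (B : Type) [Group B] [Group.FG B] (H : Subgroup B) [H.FiniteIndex] [IsFreeGroup H] :
    CT (B × ∀ i, V i) := (vcG_pi I V hV).1.ct B H

theorem negCl_vc1 (P : Type) [Group P] [Group.FG P] (N : Subgroup P) [N.FiniteIndex]
    [IsFreeGroup N] : NegCl (P × ∀ i, V i) := (vcG_pi I V hV).2 P N

theorem negCl_vc2 (P P' : Type) [Group P] [Group.FG P] [Group P'] [Group.FG P'] (N : Subgroup P)
    [N.FiniteIndex] [IsFreeGroup N] (N' : Subgroup P') [N'.FiniteIndex] [IsFreeGroup N'] :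
    NegCl ((P × P') × ∀ i, V i) := ((vcG_pi I V hV).two P P' N N').equiv MulEquiv.prodAssoc

theorem fp_vc : Group.IsFinitelyPresented (∀ i, V i) := (vcG_pi I V hV).1.fp

end Pool.Agent.Lib.MP_2add11_gt.IG
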