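import Pool.Agent.Lib.MP_2add11_gt.IG.GpNegD
import Pool.Agent.Lib.MP_2add11_gt.IG.VcProd

/-!
Graph products built along an order of the vertices, with a condition on the earlier neighbours.
-/

noncomputable section

namespace Pool.Agent.Lib.MP_2add11_gt.IG

open Monoid Subgroup Pool.Agent.Lib.MP_7eef47_al.GP

theorem VcG.pi {D : Type} [Group D] (h : VcG D) (I : Type) [Finite I] :
    ∀ (V : I → Type) [∀ i, Group (V i)],
      (∀ i, ∃ t : V i, (Subgroup.zpowers t).FiniteIndex) → VcG ((∀ i, V i) × D) := by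
  induction I using Finite.induction_empty_option with
  | of_equiv e ih =>
    intro V _ hV
    exact (ih (fun a => V (e a)) fun a => hV (e a)).equiv
      (({ (Equiv.piCongrLeft V e).symm with map_mul' := fun _ _ => rfl } :
        (∀ b, V b) ≃* ∀ a, V (e a)).symm.prodCongr (MulEquiv.refl D))
  | h_empty =>
    intro V _ _
    exact h.equiv MulEquiv.uniqueProd.symm
  | h_option ih =>
    intro V _ hV
    obtain ⟨t, _⟩ := hV none
    exact ((ih (fun a => V (some a)) fun a => hV (some a)).step t).equiv
      (MulEquiv.prodAssoc.symm.trans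
        (({ Equiv.piOptionEquivProd with map_mul' := fun _ _ => rfl } :
          (∀ b, V b) ≃* V none × ∀ a, V (some a)).symm.prodCongr (MulEquiv.refl D)))

variable {V : Type} {Γ : SimpleGraph V} {A : V → Type} [∀ v, Group (A v)]

/-- The subgroup generated by the vertex groups of `t` is the graph product over the induced
graph. -/
theorem gsub_induce (t : Set V) :
    Nonempty (gsub Γ A t ≃* GraphProduct (Γ.induce t) fun u => A u) := by
  classical
  let F : ∀ u, A u →* GraphProduct (Γ.induce t) fun u : t => A u := fun u =>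
    if h : u ∈ t then ginc (Γ.induce t) (fun u : t => A u) ⟨u, h⟩ else 1
  have hF1 : ∀ u (h : u ∈ t) a, F u a = ginc (Γ.induce t) (fun u : t => A u) ⟨u, h⟩ a :=
    fun u h a => by simp only [F, dif_pos h]
  have hF : ∀ u w, Γ.Adj u w → ∀ a b, Commute (F u a) (F w b) := fun u w h a b => by
    by_cases hu : u ∈ t
    · by_cases hw : w ∈ t
      · rw [hF1 u hu, hF1 w hw]
        exact ginc_comm (Γ := Γ.induce t) (A := fun u : t => A u) (u := ⟨u, hu⟩) (v := ⟨w, hw⟩)
          h a b
      · simp only [F, dif_neg hw]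
        exact Commute.one_right _
    · simp only [F, dif_neg hu]
      exact Commute.one_left _
  let f := (glift F hF).comp (gsub Γ A t).subtype
  let g : (GraphProduct (Γ.induce t) fun u : t => A u) →* gsub Γ A t :=
    glift (fun u : t => gin t u) fun u w h a b => gin_comm t u w h a b
  have hf : ∀ u (h : u ∈ t) a, f ⟨_, ginc_mem h a⟩ =
      ginc (Γ.induce t) (fun u : t => A u) ⟨u, h⟩ a := fun u h a =>
    (glift_inc F hF u a).trans (hF1 u h a)
  have hg : ∀ (u : t) a, g (ginc (Γ.induce t) (fun u : t => A u) u a) = ⟨_, ginc_mem u.2 a⟩ :=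
    fun u a => (glift_inc (Γ := Γ.induce t) (A := fun u : t => A u) (fun u : t => gin t u)
      (fun u w h a b => gin_comm t u w h a b) u a).trans (gin_mem u.2 a)
  refine ⟨MonoidHom.toMulEquiv f g (gsub_ext fun u h a => ?_) ?_⟩
  · rw [MonoidHom.comp_apply, hf u h, hg]
    rfl
  · refine QuotientGroup.monoidHom_ext _ (CoprodI.ext_hom _ _ fun u => MonoidHom.ext fun a => ?_)
    change f (g (ginc (Γ.induce t) (fun u : t => A u) u a)) = ginc (Γ.induce t) _ u a
    rw [hg, hf u u.2]

theorem NegCl.graphProduct_ord [Finite V] [LinearOrder V] [∀ v, Group.FG (A v)]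
    (hA : ∀ v, VFree (A v))
    (hL : ∀ v, ∃ (Q : Type) (_ : Group Q) (M : Subgroup Q) (J : Type) (_ : Finite J)
      (E : J → Type) (_ : ∀ j, Group (E j)), M.FiniteIndex ∧ IsFreeGroup M ∧
        (∀ j, ∃ t : E j, (Subgroup.zpowers t).FiniteIndex) ∧
        Nonempty ((GraphProduct (Γ.induce {u | u < v ∧ Γ.Adj v u}) fun u => A u) ≃*
          Q × ∀ j, E j))
    {D : Type} [Group D] (hD : VcG D) : NegCl (GraphProduct Γ A × D) := by
  classical
  have : Group.IsFinitelyPresented (GraphProduct Γ A) := fp_graphProduct fun v => by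
    obtain ⟨M, _, _⟩ := hA v
    exact fp_virtFree M
  have := fg_of_fp (GraphProduct Γ A)
  have hfg : ∀ t : Set V, Group.FG (gsub Γ A t) := fun t =>
    Group.fg_of_surjective (f := gret t) fun x => ⟨x, gret_sub t x⟩
  have retr : ∀ (G C : Type) [Group G] [Group C], NegCl (C × D) → ∀ (f : G →* C) (g : C →* G),
      (∀ x, g (f x) = x) → NegCl (G × D) := fun _ _ _ _ h f g e =>
    h.retract (f.prodMap (MonoidHom.id D)) (g.prodMap (MonoidHom.id D)) fun x =>
      Prod.ext (e x.1) rfl
  have key : ∀ s : Finset V, (∀ x ∈ s, ∀ y < x, y ∈ s) → NegCl (gsub Γ A s × D) := by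
    intro s
    induction s using Finset.induction_on_max with
    | empty =>
      intro _
      have : gsub Γ A ((∅ : Finset V) : Set V) = ⊥ := by simp [gsub]
      rw [this]
      obtain ⟨N, _, _⟩ := VFree.finite (⊥ : Subgroup (GraphProduct Γ A))
      have := Group.fg_of_finite (G := (⊥ : Subgroup (GraphProduct Γ A)))
      exact hD.2 _ N
    | insert v s hv ih =>
      intro hl
      have ih := ih fun x hx y hy => (Finset.mem_insert.1 (hl x (Finset.mem_insert_of_mem hx) y
        hy)).resolve_left (hy.trans (hv x hx)).ne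
      obtain ⟨φ, ρ, f, g, h1, h2⟩ := gp_step (Γ := Γ) (A := A) (s : Set V) v
        fun h => (hv v h).false
      obtain ⟨Q, _, M, J, _, E, _, _, _, hE, ⟨e⟩⟩ := hL v
      have ht : {u | u ∈ (s : Set V) ∧ Γ.Adj v u} = {u | u < v ∧ Γ.Adj v u} :=
        Set.ext fun u => and_congr_left fun _ => ⟨hv u, fun h =>
          (Finset.mem_insert.1 (hl v (Finset.mem_insert_self _ _) u h)).resolve_left h.ne⟩
      have e' : gsub Γ A {u | u ∈ (s : Set V) ∧ Γ.Adj v u} ≃* Q × ∀ j, E j := by
        rw [ht]
        exact (gsub_induce _).some.trans e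
      have := hfg {u | u ∈ (s : Set V) ∧ Γ.Adj v u}
      have : Group.FG Q := Group.fg_of_surjective
        (f := (MonoidHom.fst _ _).comp e'.toMonoidHom) (Prod.fst_surjective.comp e'.surjective)
      have hE := hD.pi J E hE
      let e2 := (e'.prodCongr (MulEquiv.refl D)).trans MulEquiv.prodAssoc
      obtain ⟨N, _, _⟩ := hA v
      rw [Finset.coe_insert]
      refine retr _ _ (NegCl.pushoutI_ct_prod φ ρ h1 D ((hE.1.ct Q M).equiv e2)
        ((hE.2 Q M).equiv e2) ?_) f g h2
      rintro (_ | _)
      · exact (hE.two (A v) Q N M).equiv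
          (MulEquiv.prodAssoc.trans ((MulEquiv.refl (A v)).prodCongr e2))
      · exact ih
  have := Fintype.ofFinite V
  have h := key Finset.univ fun _ _ _ _ => Finset.mem_univ _
  rw [Finset.coe_univ] at h
  exact retr _ _ h (gret _) (gsub Γ A _).subtype fun x =>
    congrArg Subtype.val (gret_sub Set.univ ⟨x, by rw [gsub_univ]; exact mem_top x⟩)

end Pool.Agent.Lib.MP_2add11_gt.IG
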