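import Mathlib

/-!
Virtually free groups: subgroups and finite free products (classical).
-/

namespace Pool.Agent.Lib.MP_2add11_gt.IG

open Monoid Subgroup

/-- `G` has a free subgroup of finite index. -/
def VFree (G : Type) [Group G] : Prop := ∃ F : Subgroup G, F.FiniteIndex ∧ IsFreeGroup F

theorem free_of_inj {B C : Type} [Group B] [Group C] [IsFreeGroup C] (j : B →* C)
    (hj : Function.Injective j) : IsFreeGroup B :=
  IsFreeGroup.ofMulEquiv (MonoidHom.ofInjective hj).symm

theorem VFree.of_inj {B C : Type} [Group B] [Group C] (h : VFree C) (j : B →* C)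
    (hj : Function.Injective j) : VFree B := by
  obtain ⟨F, _, _⟩ := h
  refine ⟨F.comap j, ⟨?_⟩, free_of_inj (j.subgroupComap F) fun x y e =>
    Subtype.ext (hj (congrArg Subtype.val e))⟩
  rw [index_comap]
  exact (inferInstance : (F.subgroupOf j.range).FiniteIndex).index_ne_zero

theorem VFree.finite (G : Type) [Group G] [Finite G] : VFree G :=
  ⟨⊥, inferInstance, free_of_inj (1 : (⊥ : Subgroup G) →* FreeGroup Unit)
    fun _ _ _ => Subsingleton.elim _ _⟩

theorem VFree.coprodI {K : Type} [Finite K] (A : K → Type) [∀ i, Group (A i)]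
    (h : ∀ i, VFree (A i)) : VFree (CoprodI A) := by
  classical
  choose F hF hfree using h
  let N : ∀ i, Subgroup (A i) := fun i => (F i).normalCore
  have hN : ∀ i, IsFreeGroup (N i) := fun i =>
    free_of_inj (inclusion (F i).normalCore_le) (inclusion_injective _)
  let X := ∀ i, A i ⧸ N i
  let σ : ∀ i, A i →* X := fun i =>
    (MonoidHom.mulSingle (fun i => A i ⧸ N i) i).comp (QuotientGroup.mk' (N i))
  have hk : ∀ i (a : A i) (x : X), (x i).out⁻¹ * a * (((σ i a)⁻¹ * x) i).out ∈ N i := by
    intro i a x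
    rw [← QuotientGroup.eq_one_iff]
    simp [σ, X]
  let k : ∀ i, A i → X → N i := fun i a x => ⟨_, hk i a x⟩
  let L := FreeGroup (Σ i, X ⊕ IsFreeGroup.Generators (N i))
  let ι : ∀ i, N i →* L := fun i => IsFreeGroup.lift fun g => FreeGroup.of ⟨i, .inr g⟩
  let p : ∀ _ : K, X → L := fun i x => FreeGroup.of ⟨i, .inl x⟩
  let ρ : L →* CoprodI A := FreeGroup.lift fun y => CoprodI.of (i := y.1)
    (Sum.elim (fun x : X => (x y.1).out) (fun g => ((IsFreeGroup.of g : N y.1) : A y.1)) y.2)
  have hp : ∀ i x, ρ (p i x) = CoprodI.of (x i).out := fun i x => FreeGroup.lift_apply_of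
  have hι : ∀ i n, ρ (ι i n) = CoprodI.of (n : A i) := fun i => by
    have : ρ.comp (ι i) = (CoprodI.of (M := A) (i := i)).comp (N i).subtype :=
      IsFreeGroup.ext_hom fun g => by
        simp only [MonoidHom.comp_apply, ι, IsFreeGroup.lift_of]
        exact FreeGroup.lift_apply_of
    exact DFunLike.congr_fun this
  let u : ∀ i, A i →* RegularWreathProduct L X := fun i => MonoidHom.mk'
    (fun a => ⟨fun x => p i x * ι i (k i a x) * (p i ((σ i a)⁻¹ * x))⁻¹, σ i a⟩) fun a b => by
      refine RegularWreathProduct.ext (funext fun x => ?_) (map_mul _ _ _)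
      have h1 : (σ i (a * b))⁻¹ * x = (σ i b)⁻¹ * ((σ i a)⁻¹ * x) := by
        rw [map_mul, mul_inv_rev, mul_assoc]
      have h2 : k i (a * b) x = k i a x * k i b ((σ i a)⁻¹ * x) := Subtype.ext (by
        simp only [k, coe_mul, h1]
        group)
      simp only [RegularWreathProduct.mul_left, Pi.mul_apply]
      rw [h1, h2, map_mul]
      simp only [mul_assoc]
      exact congrArg _ (congrArg _ (inv_mul_cancel_left _ _).symm)
  let Φ := CoprodI.lift u
  have hΦ : ∀ g x, ρ ((Φ g).left x) = g := by
    intro g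
    induction g using CoprodI.induction_on with
    | one => intro x; simp
    | of i a =>
      intro x
      have : (Φ (CoprodI.of a)).left x = p i x * ι i (k i a x) * (p i ((σ i a)⁻¹ * x))⁻¹ := by
        rw [CoprodI.lift_of]; rfl
      rw [this, map_mul, map_mul, ρ.map_inv, hp, hp, hι]
      simp only [k, map_mul, map_inv]
      group
    | mul a b ha hb =>
      intro x
      rw [map_mul, RegularWreathProduct.mul_left, Pi.mul_apply, map_mul, ha, hb]
  refine ⟨(RegularWreathProduct.rightHom.comp Φ).ker, inferInstance, free_of_inj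
    (C := L) (MonoidHom.mk' (fun g => (Φ g).left 1) fun a b => ?_) fun a b e => Subtype.ext ?_⟩
  · have : (Φ a).right = 1 := a.2
    simp [this]
  · have e' : (Φ a).left 1 = (Φ b).left 1 := e
    rw [← hΦ a 1, e', hΦ]

end Pool.Agent.Lib.MP_2add11_gt.IG
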