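import Pool.Agent.Lib.MP_2add11_gt.IG.Amal

/-!
Over the rational group ring of a virtually free group, kernels of matrices are direct summands.
-/

noncomputable section

namespace Pool.Agent.Lib.MP_2add11_gt.IG

open Matrix MonoidAlgebra

section Free

variable {F U P : Type} [Group F] [AddCommGroup U] [Module ℚ U] [AddCommGroup P] [Module ℚ P]

theorem end_inv (α : F →* Module.End ℚ U) (g : F) (v : U) : α g⁻¹ (α g v) = v := by
  rw [← Module.End.mul_apply, ← map_mul, inv_mul_cancel, map_one, Module.End.one_apply]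

theorem end_inv' (α : F →* Module.End ℚ U) (g : F) (v : U) : α g (α g⁻¹ v) = v := by
  rw [← Module.End.mul_apply, ← map_mul, mul_inv_cancel, map_one, Module.End.one_apply]

theorem intertwine [IsFreeGroup F] (α : F →* Module.End ℚ U) (β : F →* Module.End ℚ P)
    (L : U →ₗ[ℚ] P) (h : ∀ x v, L (α (IsFreeGroup.of x) v) = β (IsFreeGroup.of x) (L v))
    (g : F) (v : U) : L (α g v) = β g (L v) := by
  let H : Subgroup F :=
    { carrier := {g | ∀ v, L (α g v) = β g (L v)}
      one_mem' := fun v => by simp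
      mul_mem' := fun {a b} p q v => by
        rw [map_mul, map_mul, Module.End.mul_apply, Module.End.mul_apply, p, q]
      inv_mem' := fun {a} p v => by
        have := p (α a⁻¹ v)
        rw [end_inv'] at this
        rw [this, end_inv] }
  have : H.subtype.comp (IsFreeGroup.lift fun x => (⟨IsFreeGroup.of x, h x⟩ : H)) =
      MonoidHom.id F := IsFreeGroup.ext_hom fun x => by simp
  have h2 := (IsFreeGroup.lift (fun x => (⟨IsFreeGroup.of x, h x⟩ : H)) g).2
  rw [show (IsFreeGroup.lift (fun x => (⟨IsFreeGroup.of x, h x⟩ : H)) g).1 = g from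
    DFunLike.congr_fun this g] at h2
  exact h2 v

theorem split_free [IsFreeGroup F] (α : F →* Module.End ℚ U) (β : F →* Module.End ℚ P)
    (π : U →ₗ[ℚ] P) (hπ : ∀ g v, π (α g v) = β g (π v)) {Y : Type} (b : Module.Basis Y ℚ P)
    (μ : F → Y → Y) (r : Y → Y) (t : Y → F) (h1 : ∀ g y, β g (b y) = b (μ g y))
    (h2 : ∀ y, μ (t y) (r y) = y) (h3 : ∀ g y, r (μ g y) = r y) (h4 : ∀ g y, t (μ g y) = g * t y) :
    ∃ e : U →ₗ[ℚ] U, (∀ g v, e (α g v) = α g (e v)) ∧ (∀ v, π (e v) = 0) ∧
      ∀ v, π v = 0 → e v = v := by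
  obtain ⟨s1, hs1⟩ := π.rangeRestrict.exists_rightInverse_of_surjective
    (LinearMap.range_rangeRestrict π)
  obtain ⟨s0, hs0⟩ := s1.exists_extend
  have hs : ∀ v, π (s0 (π v)) = π v := fun v => by
    have e1 := DFunLike.congr_fun hs0 ⟨π v, v, rfl⟩
    have e2 := congrArg Subtype.val (DFunLike.congr_fun hs1 ⟨π v, v, rfl⟩)
    exact (congrArg π e1).trans e2
  let κ : U →ₗ[ℚ] U := LinearMap.id - s0 ∘ₗ π
  have k1 : ∀ v, π (κ v) = 0 := fun v => by simp [κ, hs]
  have k2 : ∀ v, π v = 0 → κ v = v := fun v h => by simp [κ, h]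
  let D : F → U →ₗ[ℚ] U := fun g => α g⁻¹ ∘ₗ κ ∘ₗ α g - κ
  have d1 : ∀ g v, π (D g v) = 0 := fun g v => by simp [D, hπ, k1]
  have d2 : ∀ g v, D g (s0 (π v)) = D g v := fun g v => by
    have h : π (κ v) = 0 := k1 v
    have : D g (κ v) = 0 := by
      simp only [D, LinearMap.sub_apply, LinearMap.comp_apply]
      rw [k2 _ (by rw [hπ, h, map_zero]), end_inv, k2 _ h, sub_self]
    rw [← sub_eq_zero, ← map_sub, ← neg_sub, map_neg, neg_eq_zero]
    exact this
  let γ : F →* Module.End ℚ (P × U) :=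
    { toFun := fun g => (β g).prodMap (α g)
      map_one' := by simp only [map_one]; rfl
      map_mul' := fun a b => by simp only [map_mul]; rfl }
  let N : F → Module.End ℚ (P × U) := fun g =>
    LinearMap.inr ℚ P U ∘ₗ D g ∘ₗ s0 ∘ₗ LinearMap.fst ℚ P U
  have hN : ∀ g, N g * N g = 0 := fun g => LinearMap.ext fun z => by simp [N]
  let Θ : F →* Module.End ℚ (P × U) := (Units.coeHom _).comp (IsFreeGroup.lift fun x =>
    γ.toHomUnits (IsFreeGroup.of x) * ⟨1 + N (IsFreeGroup.of x), 1 - N (IsFreeGroup.of x),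
      by rw [add_mul, mul_sub, mul_sub, hN]; simp, by rw [sub_mul, mul_add, mul_add, hN]; simp⟩)
  have hΘ : ∀ x z, Θ (IsFreeGroup.of x) z = (β (IsFreeGroup.of x) z.1,
      α (IsFreeGroup.of x) (z.2 + D (IsFreeGroup.of x) (s0 z.1))) := fun x z => by
    simp [Θ, γ, N]
  have t1 := intertwine Θ β (LinearMap.fst ℚ P U) fun x z => by simp [hΘ]
  have t2 := intertwine Θ β (π ∘ₗ LinearMap.snd ℚ P U) fun x z => by simp [hΘ, hπ, d1]
  have t3 := intertwine α Θ (π.prod κ) fun x v => by
    rw [hΘ]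
    simp only [LinearMap.prod_apply, Function.prod_apply, d2, hπ]
    simp [D]
  have t4 := intertwine α Θ (LinearMap.inr ℚ P U) fun x v => by simp [hΘ]
  let σ : P →ₗ[ℚ] P × U := b.constr ℚ fun y => Θ (t y) (b (r y), 0)
  have s1 : ∀ p, (σ p).1 = p := fun p =>
    DFunLike.congr_fun (b.ext (f₁ := LinearMap.fst ℚ P U ∘ₗ σ) (f₂ := LinearMap.id) fun y => by
      simp only [σ, LinearMap.comp_apply, Module.Basis.constr_basis, t1]
      simp [h1, h2]) p
  have s2 : ∀ p, π (σ p).2 = 0 := fun p =>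
    DFunLike.congr_fun (b.ext (f₁ := (π ∘ₗ LinearMap.snd ℚ P U) ∘ₗ σ) (f₂ := 0) fun y => by
      rw [LinearMap.comp_apply, Module.Basis.constr_basis, t2]
      simp) p
  have s3 : ∀ g p, σ (β g p) = Θ g (σ p) := fun g p =>
    DFunLike.congr_fun (b.ext (f₁ := σ ∘ₗ β g) (f₂ := Θ g ∘ₗ σ) fun y => by
      simp only [σ, LinearMap.comp_apply, h1, Module.Basis.constr_basis, h3, h4, map_mul,
        Module.End.mul_apply]) p
  let e : U →ₗ[ℚ] U := κ - LinearMap.snd ℚ P U ∘ₗ σ ∘ₗ π
  have he : ∀ v, LinearMap.inr ℚ P U (e v) = π.prod κ v - σ (π v) := fun v =>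
    Prod.ext (by simp [s1]) (by simp [e])
  refine ⟨e, fun g v => LinearMap.inr_injective (R := ℚ) (M := P) ?_, fun v => by simp [e, k1, s2],
    fun v h => by simp [e, h, k2 v h]⟩
  rw [t4, he, he, map_sub, t3, hπ, s3]

theorem split_avg (H : Subgroup F) [H.FiniteIndex] (α : F →* Module.End ℚ U)
    (β : F →* Module.End ℚ P) (π : U →ₗ[ℚ] P) (hπ : ∀ g v, π (α g v) = β g (π v))
    (e : U →ₗ[ℚ] U) (h1 : ∀ g ∈ H, ∀ v, e (α g v) = α g (e v)) (h2 : ∀ v, π (e v) = 0)
    (h3 : ∀ v, π v = 0 → e v = v) : ∃ (d : ℕ) (e : U →ₗ[ℚ] U), 0 < d ∧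
      (∀ g v, e (α g v) = α g (e v)) ∧ (∀ v, π (e v) = 0) ∧ ∀ v, π v = 0 → e v = (d : ℤ) • v := by
  have := Fintype.ofFinite (F ⧸ H)
  let T : F → U →ₗ[ℚ] U := fun g => α g ∘ₗ e ∘ₗ α g⁻¹
  have hT : ∀ g : F, T (g : F ⧸ H).out = T g := fun g => by
    obtain ⟨h, e'⟩ := QuotientGroup.mk_out_eq_mul H g
    ext v
    simp only [T, e', LinearMap.comp_apply, _root_.mul_inv_rev, map_mul, Module.End.mul_apply]
    rw [h1 _ (H.inv_mem h.2), end_inv']
  refine ⟨Fintype.card (F ⧸ H), ∑ c : F ⧸ H, T c.out, Fintype.card_pos, fun g v => ?_,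
    fun v => ?_, fun v h => ?_⟩
  · rw [LinearMap.sum_apply, LinearMap.sum_apply, map_sum, ← Equiv.sum_comp (MulAction.toPerm g)]
    refine Finset.sum_congr rfl fun c _ => ?_
    have : MulAction.toPerm g c = ((g * c.out : F) : F ⧸ H) := by
      conv_lhs => rw [← QuotientGroup.out_eq' c]
      rfl
    rw [this, hT]
    simp only [T, LinearMap.comp_apply, _root_.mul_inv_rev, map_mul, Module.End.mul_apply, end_inv]
  · simp [T, hπ, h2]
  · rw [LinearMap.sum_apply, Finset.sum_congr rfl (g := fun _ => v) fun c _ => by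
      simp only [T, LinearMap.comp_apply]
      rw [h3 _ (by rw [hπ, h, map_zero]), end_inv']]
    simp

end Free

variable {B : Type} [Group B]

/-- Kernels of matrices over `ℤB` split up to a positive integer. -/
def Proj (B : Type) [Group B] : Prop :=
  ∀ (m n : Type) [Fintype m] [Fintype n] [DecidableEq n] (Y : Matrix m n (MonoidAlgebra ℤ B)),
    ∃ (d : ℕ) (E : Matrix n n (MonoidAlgebra ℤ B)), 0 < d ∧ Y * E = 0 ∧
      ∀ X : Matrix n n (MonoidAlgebra ℤ B), Y * X = 0 → E * X = (d : ℤ) • X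

def rmul (B n : Type) [Group B] : B →* Module.End ℚ (n → MonoidAlgebra ℚ B) where
  toFun g := LinearMap.pi fun i => LinearMap.mulRight ℚ (single g⁻¹ 1) ∘ₗ LinearMap.proj i
  map_one' := LinearMap.ext fun v => funext fun i => by simp [← MonoidAlgebra.one_def]
  map_mul' a b := LinearMap.ext fun v => funext fun i => by simp [mul_assoc, single_mul_single]

theorem rmul_apply {n : Type} (g : B) (v : n → MonoidAlgebra ℚ B) (i : n) :
    rmul B n g v i = v i * single g⁻¹ 1 := rfl

theorem clear_den (x : MonoidAlgebra ℚ B) : ∃ (d : ℕ) (y : MonoidAlgebra ℤ B), 0 < d ∧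
    mapRingHom B (Int.castRingHom ℚ) y = (d : ℤ) • x := by
  induction x using MonoidAlgebra.induction_linear with
  | zero => exact ⟨1, 0, one_pos, by simp⟩
  | add a b p q =>
    obtain ⟨d, y, h1, h2⟩ := p
    obtain ⟨d', y', h1', h2'⟩ := q
    refine ⟨d * d', (d' : ℤ) • y + (d : ℤ) • y', mul_pos h1 h1', ?_⟩
    rw [map_add, map_zsmul, map_zsmul, h2, h2', smul_smul, smul_smul, smul_add, Nat.cast_mul,
      mul_comm]
  | single g a =>
    refine ⟨a.den, single g a.num, a.den_pos, ?_⟩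
    simp [Rat.den_mul_eq_num]

theorem proj_vf (H : Subgroup B) [H.FiniteIndex] [IsFreeGroup H] : Proj B := by
  intro m n _ _ _ Y
  classical
  let ι := mapRingHom B (Int.castRingHom ℚ)
  have inj : ∀ {k l : Type} {A A' : Matrix k l (MonoidAlgebra ℤ B)}, A.map ι = A'.map ι → A = A' :=
    fun h => by
      ext i j g
      have := congrArg (fun Z => (Z i j).coeff g) h
      simpa [ι] using this
  let π : (n → MonoidAlgebra ℚ B) →ₗ[ℚ] m → MonoidAlgebra ℚ B :=
    { toFun := fun v => Y.map ι *ᵥ v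
      map_add' := mulVec_add _
      map_smul' := fun a v => mulVec_smul _ a v }
  have hπ : ∀ g v, π (rmul B n g v) = rmul B m g (π v) := fun g v => by
    funext i
    simp [π, rmul_apply, mulVec, dotProduct, Finset.sum_mul, mul_assoc]
  obtain ⟨e0, a1, a2, a3⟩ := split_free ((rmul B n).comp H.subtype) ((rmul B m).comp H.subtype) π
    (fun g v => hπ g v) (Pi.basis fun _ : m => MonoidAlgebra.basis B ℚ)
    (fun g y => ⟨y.1, y.2 * g.1⁻¹⟩) (fun y => ⟨y.1, (y.2 : B ⧸ H).out⟩)
    (fun y => ⟨y.2⁻¹ * (y.2 : B ⧸ H).out, QuotientGroup.eq.1 (QuotientGroup.out_eq' _).symm⟩)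
    (fun g y => by
      funext i
      simp only [MonoidHom.comp_apply, rmul_apply, Pi.basis_apply, basis_apply]
      by_cases h : i = y.1
      · subst h
        simp [single_mul_single]
      · simp [h])
    (fun y => by simp)
    (fun g y => by rw [QuotientGroup.mk_mul_of_mem _ (H.inv_mem g.2)])
    fun g y => Subtype.ext (by
      simp only [QuotientGroup.mk_mul_of_mem _ (H.inv_mem g.2)]
      simp [mul_assoc])
  obtain ⟨d, e, hd, b1, b2, b3⟩ := split_avg H (rmul B n) (rmul B m) π hπ e0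
    (fun g hg => a1 ⟨g, hg⟩) a2 a3
  let E : Matrix n n (MonoidAlgebra ℚ B) := .of fun i j => e (Pi.single j 1) i
  have h1 : ∀ j x i, e (Pi.single j x) i = E i j * x := fun j x i => by
    induction x using MonoidAlgebra.induction_linear with
    | zero => simp
    | add a b p q => rw [Pi.single_add, map_add, Pi.add_apply, p, q, mul_add]
    | single g a =>
      have : (Pi.single j (single g a) : n → MonoidAlgebra ℚ B) =
          a • rmul B n g⁻¹ (Pi.single j 1) := by
        funext k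
        by_cases h : k = j
        · subst h
          simp [rmul_apply]
        · simp [rmul_apply, h]
      rw [this, map_smul, b1, Pi.smul_apply, rmul_apply, inv_inv, ← mul_smul_comm]
      simp [E]
  have h2 : ∀ v, e v = E *ᵥ v := fun v => by
    funext i
    conv_lhs => rw [← Finset.univ_sum_single v, map_sum, Finset.sum_apply]
    simp only [h1]
    rfl
  choose dd y hy1 hy2 using fun p : n × n => clear_den (E p.1 p.2)
  let D := ∏ p, dd p
  let E' : Matrix n n (MonoidAlgebra ℤ B) := .of fun i j => ((D / dd (i, j) : ℕ) : ℤ) • y (i, j)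
  have h3 : E'.map ι = (D : ℤ) • E := by
    ext1 i j
    simp only [E', map_apply, Matrix.of_apply, map_zsmul, Matrix.smul_apply]
    rw [hy2, smul_smul, ← Nat.cast_mul,
      Nat.div_mul_cancel (Finset.dvd_prod_of_mem dd (Finset.mem_univ _))]
  refine ⟨D * d, E', mul_pos (Finset.prod_pos fun p _ => hy1 p) hd, inj ?_, fun X hX => inj ?_⟩
  · rw [Matrix.map_mul, h3, Matrix.mul_smul, Matrix.map_zero _ (map_zero ι), show Y.map ι * E = 0 by
      ext1 i j
      exact congrFun (b2 (Pi.single j 1)) i, smul_zero]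
  · rw [Matrix.map_mul, h3, Matrix.smul_mul]
    ext1 i j
    have h4 : π (fun k => ι (X k j)) = 0 := by
      funext l
      have := congrArg (fun Z => ι (Z l j)) hX
      simpa [π, Matrix.mul_apply, mulVec, dotProduct] using this
    have h5 := congrFun ((h2 _).symm.trans (b3 _ h4)) i
    simp only [map_apply, Matrix.smul_apply, map_zsmul, Nat.cast_mul, mul_smul]
    congr 1

end Pool.Agent.Lib.MP_2add11_gt.IG
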