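import Pool.Agent.Lib.MP_2add11_gt.IG.HerB

/-!
The splitting property of rational representations; it is closed under finite extensions and
amalgams over finite groups.
-/

noncomputable section

namespace Pool.Agent.Lib.MP_2add11_gt.IG

open Matrix MonoidAlgebra Monoid FG

/-- Kernels of equivariant maps to free rational modules have equivariant retractions. -/
def SP (B : Type) [Group B] : Prop :=
  ∀ (U P : Type) [AddCommGroup U] [Module ℚ U] [AddCommGroup P] [Module ℚ P]
    (α : B →* Module.End ℚ U) (β : B →* Module.End ℚ P) (π : U →ₗ[ℚ] P),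
    (∀ g v, π (α g v) = β g (π v)) → ∀ (Y : Type) (b : Module.Basis Y ℚ P) (μ : B →* Equiv.Perm Y),
      (∀ g y, β g (b y) = b (μ g y)) → (∀ g y, μ g y = y → g = 1) →
        ∃ e : U →ₗ[ℚ] U, (∀ g v, e (α g v) = α g (e v)) ∧ (∀ v, π (e v) = 0) ∧
          ∀ v, π v = 0 → e v = v

section

variable {B : Type} [Group B]

theorem exists_rt {Y : Type} (μ : B →* Equiv.Perm Y) (h : ∀ g y, μ g y = y → g = 1) :
    ∃ (r : Y → Y) (t : Y → B), (∀ y, μ (t y) (r y) = y) ∧ (∀ g y, r (μ g y) = r y) ∧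
      ∀ g y, t (μ g y) = g * t y := by
  let _ : MulAction B Y := MulAction.compHom Y μ
  let r : Y → Y := fun y => (Quotient.mk (MulAction.orbitRel B Y) y).out
  have : ∀ y, ∃ g : B, μ g (r y) = y := fun y =>
    (MulAction.orbitRel B Y).symm (Quotient.exact (Quotient.out_eq (Quotient.mk _ y)))
  choose t ht using this
  have h3 : ∀ g y, r (μ g y) = r y := fun g y =>
    congrArg Quotient.out (Quotient.sound (s := MulAction.orbitRel B Y) ⟨g, rfl⟩)
  refine ⟨r, t, ht, h3, fun g y => ?_⟩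
  have h4 := ht (μ g y)
  rw [h3] at h4
  refine (inv_mul_eq_one.1 (h _ (r y) ?_)).symm
  rw [map_mul, Equiv.Perm.mul_apply, h4, map_inv, Equiv.Perm.inv_eq_iff_eq, map_mul,
    Equiv.Perm.mul_apply, ht]

theorem SP.free [IsFreeGroup B] : SP B := fun _ _ _ _ _ _ α β π hπ _ b μ h1 h2 => by
  obtain ⟨r, t, a, a', a''⟩ := exists_rt μ h2
  exact split_free α β π hπ b (fun g y => μ g y) r t h1 a a' a''

theorem split_avg' {U P : Type} [AddCommGroup U] [Module ℚ U] [AddCommGroup P] [Module ℚ P]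
    (H : Subgroup B) [H.FiniteIndex] (α : B →* Module.End ℚ U)
    (β : B →* Module.End ℚ P) (π : U →ₗ[ℚ] P) (hπ : ∀ g v, π (α g v) = β g (π v))
    (e : U →ₗ[ℚ] U) (h1 : ∀ g ∈ H, ∀ v, e (α g v) = α g (e v)) (h2 : ∀ v, π (e v) = 0)
    (h3 : ∀ v, π v = 0 → e v = v) : ∃ e : U →ₗ[ℚ] U,
      (∀ g v, e (α g v) = α g (e v)) ∧ (∀ v, π (e v) = 0) ∧ ∀ v, π v = 0 → e v = v := by
  obtain ⟨d, e, hd, a1, a2, a3⟩ := split_avg H α β π hπ e h1 h2 h3
  refine ⟨(d : ℚ)⁻¹ • e, fun g v => by simp [a1], fun v => by simp [a2], fun v h => ?_⟩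
  rw [LinearMap.smul_apply, a3 v h, natCast_zsmul, ← Nat.cast_smul_eq_nsmul ℚ, smul_smul,
    inv_mul_cancel₀ (by exact_mod_cast hd.ne'), one_smul]

theorem SP.up {H : Type} [Group H] (h : SP H) (i : H →* B) (hi : Function.Injective i)
    [i.range.FiniteIndex] : SP B := fun _ _ _ _ _ _ α β π hπ _ b μ h1 h2 => by
  obtain ⟨e, a1, a2, a3⟩ := h _ _ (α.comp i) (β.comp i) π (fun g v => hπ _ v) _ b (μ.comp i)
    (fun g y => h1 _ y) fun g y e => hi ((h2 _ y e).trans (map_one i).symm)
  exact split_avg' i.range α β π hπ e (by rintro _ ⟨g, rfl⟩; exact a1 g) a2 a3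

theorem SP.equiv {H : Type} [Group H] (h : SP H) (e : H ≃* B) : SP B :=
  have : e.toMonoidHom.range.FiniteIndex := by
    rw [MonoidHom.range_eq_top.2 e.surjective]
    infer_instance
  h.up e.toMonoidHom e.injective

theorem SP.vf (H : Subgroup B) [H.FiniteIndex] [IsFreeGroup H] : SP B :=
  have : H.subtype.range.FiniteIndex := by rwa [Subgroup.range_subtype]
  SP.free.up H.subtype H.subtype_injective

theorem SP.prod (h : SP B) (F : Type) [Group F] [Finite F] : SP (F × B) :=
  have : (MonoidHom.inr F B).range.FiniteIndex := ⟨by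
    rw [show (MonoidHom.inr F B).range = (⊥ : Subgroup F).prod ⊤ by
      ext x
      simp [Subgroup.mem_prod, Prod.ext_iff, eq_comm], Subgroup.index_prod]
    exact mul_ne_zero Subgroup.index_ne_zero_of_finite Subgroup.FiniteIndex.index_ne_zero⟩
  h.up (MonoidHom.inr F B) fun a b e => congrArg Prod.snd e

theorem exists_s0 {U P : Type} [AddCommGroup U] [Module ℚ U] [AddCommGroup P] [Module ℚ P]
    (π : U →ₗ[ℚ] P) : ∃ s0 : P →ₗ[ℚ] U, ∀ v, π (s0 (π v)) = π v := by
  obtain ⟨s1, hs1⟩ := π.rangeRestrict.exists_rightInverse_of_surjective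
    (LinearMap.range_rangeRestrict π)
  obtain ⟨s0, hs0⟩ := s1.exists_extend
  refine ⟨s0, fun v => ?_⟩
  have e1 := DFunLike.congr_fun hs0 ⟨π v, v, rfl⟩
  have e2 := congrArg Subtype.val (DFunLike.congr_fun hs1 ⟨π v, v, rfl⟩)
  exact (congrArg π e1).trans e2

theorem split_fin [Finite B] {U P : Type} [AddCommGroup U] [Module ℚ U] [AddCommGroup P]
    [Module ℚ P] (α : B →* Module.End ℚ U) (β : B →* Module.End ℚ P) (π : U →ₗ[ℚ] P)
    (hπ : ∀ g v, π (α g v) = β g (π v)) : ∃ e : U →ₗ[ℚ] U,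
      (∀ g v, e (α g v) = α g (e v)) ∧ (∀ v, π (e v) = 0) ∧ ∀ v, π v = 0 → e v = v := by
  obtain ⟨s0, hs⟩ := exists_s0 π
  exact split_avg' ⊥ α β π hπ (LinearMap.id - s0 ∘ₗ π) (fun g hg v => by
    simp [Subgroup.mem_bot.1 hg]) (fun v => by simp [hs]) fun v h => by simp [h]

theorem SP.finite [Finite B] : SP B := fun _ _ _ _ _ _ α β π hπ _ _ _ _ _ => split_fin α β π hπ

theorem SP.glue {C K : Type} [Group C] [Finite C] {G : K → Type} [∀ i, Group (G i)]
    (φ : ∀ i, C →* G i) (j : ∀ i, G i →* B) (k : C →* B) (hj : ∀ i, Function.Injective (j i))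
    (hk : ∀ i c, j i (φ i c) = k c)
    (lift : ∀ (M : Type) [Monoid M] (f : ∀ i, G i →* M) (f0 : C →* M), (∀ i c, f i (φ i c) = f0 c) →
      ∃ Θ : B →* M, (∀ i g, Θ (j i g) = f i g) ∧ ∀ c, Θ (k c) = f0 c)
    (gen : ∀ p : B → Prop, (∀ i g, p (j i g)) → (∀ c, p (k c)) → (∀ x y, p x → p y → p (x * y)) →
      ∀ x, p x) (hG : ∀ i, SP (G i)) : SP B := by
  intro U P _ _ _ _ α β π hπ Y b μ h1 hμ
  obtain ⟨r, t, h2, h3, h4⟩ := exists_rt μ hμ
  obtain ⟨s0, hs⟩ := exists_s0 π
  obtain ⟨κ, k0, k1, k2⟩ := split_fin (α.comp k) (β.comp k) π fun g v => hπ _ v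
  choose κ' l0 l1 l2 using fun i => hG i _ _ (α.comp (j i)) (β.comp (j i)) π (fun g v => hπ _ v) _ b
    (μ.comp (j i)) (fun g y => h1 _ y) fun g y e => hj i ((hμ _ y e).trans (map_one _).symm)
  simp only [MonoidHom.comp_apply] at k0 l0
  have := Fintype.ofFinite C
  have hc : (Fintype.card C : ℚ) ≠ 0 := by exact_mod_cast Fintype.card_ne_zero
  obtain ⟨L, m1, m2, m3⟩ : ∃ L : K → P →ₗ[ℚ] U, (∀ i v, L i (π v) = κ' i v - κ v) ∧
      (∀ i p, π (L i p) = 0) ∧ ∀ i c p, L i (β (k c) p) = α (k c) (L i p) := by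
    refine ⟨fun i => (Fintype.card C : ℚ)⁻¹ • ∑ c, α (k c) ∘ₗ (κ' i - κ) ∘ₗ s0 ∘ₗ β (k c)⁻¹,
      fun i v => ?_, fun i p => by simp [hπ, k1, l1], fun i c p => ?_⟩
    · have h5 : ∀ w, (κ' i - κ) (s0 (π w)) = (κ' i - κ) w := fun w => by
        have : π (w - s0 (π w)) = 0 := by rw [map_sub, hs, sub_self]
        rw [eq_comm, ← sub_eq_zero, ← map_sub, LinearMap.sub_apply, l2 i _ this, k2 _ this, sub_self]
      rw [LinearMap.smul_apply, LinearMap.sum_apply,
        Finset.sum_congr rfl (g := fun _ => κ' i v - κ v) fun c _ => by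
          simp only [LinearMap.comp_apply]
          rw [← hπ, h5, LinearMap.sub_apply, map_sub, ← k0, end_inv', ← hk i, ← l0, end_inv'],
        Finset.sum_const, Finset.card_univ, ← Nat.cast_smul_eq_nsmul ℚ, smul_smul,
        inv_mul_cancel₀ hc, one_smul]
    · rw [LinearMap.smul_apply, LinearMap.smul_apply, map_smul, LinearMap.sum_apply,
        LinearMap.sum_apply, map_sum, ← Equiv.sum_comp (Equiv.mulLeft c)]
      congr 1
      refine Finset.sum_congr rfl fun c' _ => ?_
      simp only [LinearMap.comp_apply, Equiv.coe_mulLeft, map_mul, _root_.mul_inv_rev,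
        Module.End.mul_apply, end_inv]
  obtain ⟨Θ, θ1, θ2⟩ := lift (Module.End ℚ (P × U)) (fun i =>
    { toFun := fun g => (β (j i g)).prodMap (α (j i g)) + LinearMap.inr ℚ P U ∘ₗ
        (α (j i g) ∘ₗ L i - L i ∘ₗ β (j i g)) ∘ₗ LinearMap.fst ℚ P U
      map_one' := LinearMap.ext fun z => by simp
      map_mul' := fun x y => LinearMap.ext fun z => by
        simp only [map_mul, Module.End.mul_apply]
        refine Prod.ext (by simp) ?_
        simp
        abel })
    { toFun := fun c => (β (k c)).prodMap (α (k c))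
      map_one' := LinearMap.ext fun z => by simp
      map_mul' := fun x y => LinearMap.ext fun z => by simp }
    fun i c => LinearMap.ext fun z => by simp [hk, m3]
  have key : ∀ g, (∀ z, (Θ g z).1 = β g z.1) ∧ (∀ z, π (Θ g z).2 = β g (π z.2)) ∧
      (∀ v, Θ g (π v, κ v) = (π (α g v), κ (α g v))) ∧ ∀ v, Θ g (0, v) = (0, α g v) := by
    refine gen _ (fun i g => ?_) (fun c => ?_) fun x y p q => ?_
    · rw [θ1]
      refine ⟨fun z => by simp, fun z => by simp [hπ, m2], fun v => Prod.ext (by simp [hπ]) ?_,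
        fun v => by simp⟩
      simp [← hπ, m1, l0]
    · rw [θ2]
      exact ⟨fun z => by simp, fun z => by simp [hπ], fun v => by simp [hπ, k0], fun v => by simp⟩
    · simp only [map_mul, Module.End.mul_apply]
      exact ⟨fun z => by rw [p.1, q.1], fun z => by rw [p.2.1, q.2.1],
        fun v => by rw [q.2.2.1, p.2.2.1], fun v => by rw [q.2.2.2, p.2.2.2]⟩
  let σ : P →ₗ[ℚ] P × U := b.constr ℚ fun y => Θ (t y) (b (r y), 0)
  have s1 : ∀ p, (σ p).1 = p := fun p =>
    DFunLike.congr_fun (b.ext (f₁ := LinearMap.fst ℚ P U ∘ₗ σ) (f₂ := LinearMap.id) fun y => by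
      simp [σ, (key _).1, h1, h2]) p
  have s2 : ∀ p, π (σ p).2 = 0 := fun p =>
    DFunLike.congr_fun (b.ext (f₁ := (π ∘ₗ LinearMap.snd ℚ P U) ∘ₗ σ) (f₂ := 0) fun y => by
      simp [σ, (key _).2.1]) p
  have s3 : ∀ g p, σ (β g p) = Θ g (σ p) := fun g p =>
    DFunLike.congr_fun (b.ext (f₁ := σ ∘ₗ β g) (f₂ := Θ g ∘ₗ σ) fun y => by
      simp only [σ, LinearMap.comp_apply, h1, Module.Basis.constr_basis, h3, h4, map_mul,
        Module.End.mul_apply]) p
  let e : U →ₗ[ℚ] U := κ - LinearMap.snd ℚ P U ∘ₗ σ ∘ₗ π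
  have he : ∀ v, ((0, e v) : P × U) = (π v, κ v) - σ (π v) := fun v =>
    Prod.ext (by simp [s1]) (by simp [e])
  refine ⟨e, fun g v => (Prod.ext_iff.1 (?_ : ((0, e (α g v)) : P × U) = (0, α g (e v)))).2,
    fun v => by simp [e, k1, s2], fun v h => by simp [e, h, k2 v h]⟩
  rw [← (key g).2.2.2, he, he, map_sub, (key g).2.2.1, hπ, s3]

end

theorem SP.pushoutI {C K : Type} [Group C] [Finite C] {G : K → Type} [∀ i, Group (G i)]
    (φ : ∀ i, C →* G i) (hφ : ∀ i, Function.Injective (φ i)) (hG : ∀ i, SP (G i)) :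
    SP (PushoutI φ) :=
  SP.glue φ PushoutI.of (PushoutI.base φ) (PushoutI.of_injective hφ) (PushoutI.of_apply_eq_base φ)
    (fun _ _ f f0 h => ⟨PushoutI.lift f f0 fun i => MonoidHom.ext (h i), by simp, by simp⟩)
    (fun _ a b c x => PushoutI.induction_on x a b c) hG

theorem SP.coprodI {K : Type} {G : K → Type} [∀ i, Group (G i)] (hG : ∀ i, SP (G i)) :
    SP (CoprodI G) :=
  SP.glue (C := Unit) (fun _ => 1) (fun _ => CoprodI.of) 1 CoprodI.of_injective (by simp)
    (fun _ _ f f0 _ => ⟨CoprodI.lift f, by simp, fun c => by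
      rw [MonoidHom.one_apply, map_one, show c = 1 from rfl, map_one]⟩)
    (fun _ a b c x => CoprodI.induction_on x (b 1) a c) hG

theorem SP.proj {B : Type} [Group B] (hB : SP B) : Proj B := by
  intro m n _ _ _ Y
  classical
  let ι := mapRingHom B (Int.castRingHom ℚ)
  have inj : ∀ {k l : Type} {A A' : Matrix k l (MonoidAlgebra ℤ B)}, A.map ι = A'.map ι → A = A' :=
    fun h => by
      ext i j g
      have := congrArg (fun Z => (Z i j).coeff g) h
      simpa [ι] using this
  let π : (n → MonoidAlgebra ℚ B) →ₗ[ℚ] m → MonoidAlgebra ℚ B :=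
    { toFun := fun v => Y.map ι *ᵥ v
      map_add' := mulVec_add _
      map_smul' := fun a v => mulVec_smul _ a v }
  have hπ : ∀ g v, π (rmul B n g v) = rmul B m g (π v) := fun g v => by
    funext i
    simp [π, rmul_apply, mulVec, dotProduct, Finset.sum_mul, mul_assoc]
  obtain ⟨e, b1, b2, b3⟩ := hB _ _ (rmul B n) (rmul B m) π hπ _
    (Pi.basis fun _ : m => MonoidAlgebra.basis B ℚ)
    (MonoidHom.mk' (fun g => Equiv.sigmaCongrRight fun _ => Equiv.mulRight g⁻¹) fun a b =>
      Equiv.ext fun y => by simp [mul_assoc])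
    (fun g y => by
      funext i
      simp only [rmul_apply, Pi.basis_apply, basis_apply]
      by_cases h : i = y.1
      · subst h
        simp [single_mul_single]
      · simp [h])
    fun g y h => by simpa using congrArg (fun z : (_ : m) × B => z.2) h
  let E : Matrix n n (MonoidAlgebra ℚ B) := .of fun i j => e (Pi.single j 1) i
  have h1 : ∀ j x i, e (Pi.single j x) i = E i j * x := fun j x i => by
    induction x using MonoidAlgebra.induction_linear with
    | zero => simp
    | add a b p q => rw [Pi.single_add, map_add, Pi.add_apply, p, q, mul_add]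
    | single g a =>
      have : (Pi.single j (single g a) : n → MonoidAlgebra ℚ B) =
          a • rmul B n g⁻¹ (Pi.single j 1) := by
        funext k
        by_cases h : k = j
        · subst h
          simp [rmul_apply]
        · simp [rmul_apply, h]
      rw [this, map_smul, b1, Pi.smul_apply, rmul_apply, inv_inv, ← mul_smul_comm]
      simp [E]
  have h2 : ∀ v, e v = E *ᵥ v := fun v => by
    funext i
    conv_lhs => rw [← Finset.univ_sum_single v, map_sum, Finset.sum_apply]
    simp only [h1]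
    rfl
  choose dd y hy1 hy2 using fun p : n × n => clear_den (E p.1 p.2)
  let D := ∏ p, dd p
  let E' : Matrix n n (MonoidAlgebra ℤ B) := .of fun i j => ((D / dd (i, j) : ℕ) : ℤ) • y (i, j)
  have h3 : E'.map ι = (D : ℤ) • E := by
    ext1 i j
    simp only [E', map_apply, Matrix.of_apply, map_zsmul, Matrix.smul_apply]
    rw [hy2, smul_smul, ← Nat.cast_mul,
      Nat.div_mul_cancel (Finset.dvd_prod_of_mem dd (Finset.mem_univ _))]
  refine ⟨D, E', Finset.prod_pos fun p _ => hy1 p, inj ?_, fun X hX => inj ?_⟩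
  · rw [Matrix.map_mul, h3, Matrix.mul_smul, Matrix.map_zero _ (map_zero ι), show Y.map ι * E = 0 by
      ext1 i j
      exact congrFun (b2 (Pi.single j 1)) i, smul_zero]
  · rw [Matrix.map_mul, h3, Matrix.smul_mul]
    ext1 i j
    have h4 : π (fun k => ι (X k j)) = 0 := by
      funext l
      have := congrArg (fun Z => ι (Z l j)) hX
      simpa [π, Matrix.mul_apply, mulVec, dotProduct] using this
    have h5 := congrFun ((h2 _).symm.trans (b3 _ h4)) i
    simp only [map_apply, Matrix.smul_apply, map_zsmul]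
    congr 1

theorem NegF.pushoutI_sp {K B : Type} {G : K → Type} [Finite K] [Group B]
    [∀ i, Group (G i)] (φ : ∀ i, B →* G i) (ρ : ∀ i, G i →* B) (h : ∀ i b, ρ i (φ i b) = b)
    (hS : SP B) (hB : NegF B)
    (hG : ∀ i, NegF (G i)) : NegF (PushoutI φ) := fun F _ _ => by
  let ψ : ∀ i, F × B →* F × G i := fun i => (MonoidHom.id F).prodMap (φ i)
  let u : PushoutI φ →* PushoutI ψ :=
    PushoutI.lift (fun i => (PushoutI.of i).comp (MonoidHom.inr _ _))
      ((PushoutI.base ψ).comp (MonoidHom.inr _ _)) fun i => by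
        ext b
        exact PushoutI.of_apply_eq_base ψ i (1, b)
  have hu : ∀ (a : F) (y : PushoutI φ),
      Commute (((PushoutI.base ψ).comp (MonoidHom.inl _ _)) a) (u y) := fun a y => by
    induction y using PushoutI.induction_on with
    | of i g =>
      simp only [u, PushoutI.lift_of, MonoidHom.comp_apply, ← PushoutI.of_apply_eq_base ψ i]
      exact Commute.map (by simp [ψ, Commute, SemiconjBy]) _
    | base b =>
      simp only [u, PushoutI.lift_base, MonoidHom.comp_apply]
      exact Commute.map (by simp [Commute, SemiconjBy]) _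
    | mul x y p q => rw [map_mul]; exact p.mul_right q
  let v : PushoutI ψ →* F × PushoutI φ :=
    PushoutI.lift (fun i => (MonoidHom.id F).prodMap (PushoutI.of i))
      ((MonoidHom.id F).prodMap (PushoutI.base φ)) fun i => by
        ext b <;> simp [ψ, PushoutI.of_apply_eq_base]
  refine (NegCl.pushoutI_proj ψ (fun i => (MonoidHom.id F).prodMap (ρ i))
    (fun i b => Prod.ext rfl (h i b.2)) (hS.prod F).proj (hB F) fun i => hG i F).retract (MonoidHom.noncommCoprod _ u hu) v fun x => ?_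
  have : ∀ y, v (u y) = (1, y) := fun y => by
    induction y using PushoutI.induction_on with
    | of i g => simp [u, v]
    | base b => simp [u, v]
    | mul x y p q => rw [map_mul, map_mul, p, q, Prod.mk_mul_mk, one_mul]
  rw [MonoidHom.noncommCoprod_apply, map_mul, this]
  simp [v]

end Pool.Agent.Lib.MP_2add11_gt.IG
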