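import Pool.Agent.Lib.MP_2add11_gt.FG.Words

/-!
Groups whose algebraic model is closed under inverses; linearisation of invertible matrices.
-/

noncomputable section

namespace Pool.Agent.Lib.MP_2add11_gt.IG

open Matrix MonoidAlgebra FG

/-- For every additive stable invariant the classes of the algebraic model are closed under
negation. -/
def NegCl (G : Type) [Group G] : Prop :=
  ∀ (W : Type) [AddCommGroup W] (c : Inv (MonoidAlgebra ℤ G) W) (x : W), x ∈ Alg c → -x ∈ Alg c

theorem NegCl.finite (G : Type) [Group G] [Finite G] : NegCl G := fun _ _ c _ hx => Alg.neg c hx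

variable {G C W : Type} [Group G] [Group C] [AddCommGroup W]

/-- The classes that lie in the model together with their negatives. -/
def symm (c : Inv (MonoidAlgebra ℤ G) W) : AddSubgroup W where
  carrier := {y | y ∈ Alg c ∧ -y ∈ Alg c}
  zero_mem' := ⟨zero_mem _, by simp⟩
  add_mem' := fun ha hb => ⟨add_mem ha.1 hb.1, by rw [neg_add]; exact add_mem ha.2 hb.2⟩
  neg_mem' := fun ha => ⟨ha.2, by simpa using ha.1⟩

theorem push_mem (c : Inv (MonoidAlgebra ℤ G) W) (f : G →* G) {ι : Type} [Fintype ι]
    [DecidableEq ι] {r : ι → FreeGroup (G × ι)} (h1 : NS r) (h2 : IsUnit (jac r)) :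
    c.c ((jac r).map (mapDomainRingHom ℤ f)) ∈ Alg c :=
  Alg.push c f ⟨ι, _, _, r, h1, h2, rfl⟩

theorem NegCl.via (hC : NegCl C) (c : Inv (MonoidAlgebra ℤ G) W) (f : G →* C) (g : C →* G)
    {ι : Type} [Fintype ι] [DecidableEq ι] {r : ι → FreeGroup (G × ι)} (h1 : NS r)
    (h2 : IsUnit (jac r)) : c.c ((jac r).map (mapDomainRingHom ℤ (g.comp f))) ∈ symm c := by
  have h3 : c.c ((jac r).map (mapDomainRingHom ℤ (g.comp f))) ∈
      Alg (c.pull (mapDomainRingHom ℤ g)) := by
    refine Alg.push _ f ⟨ι, _, _, r, h1, h2, ?_⟩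
    change _ = c.c (((jac r).map _).map _)
    rw [Matrix.map_map, mapDomainRingHom_comp]
    rfl
  exact ⟨Alg.push c g h3, Alg.push c g (hC _ _ _ h3)⟩

theorem NegCl.retract (hC : NegCl C) (f : G →* C) (g : C →* G) (h : ∀ x, g (f x) = x) :
    NegCl G := by
  rintro W _ c _ ⟨ι, _, _, r, h1, h2, rfl⟩
  have := (hC.via c f g h1 h2).2
  rwa [show g.comp f = MonoidHom.id G from MonoidHom.ext h, mapDomainRingHom_id,
    RingHom.coe_id, Matrix.map_id] at this

theorem NegCl.equiv (hC : NegCl C) (e : G ≃* C) : NegCl G :=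
  hC.retract e.toMonoidHom e.symm.toMonoidHom e.symm_apply_apply

variable {R : Type} [Ring R] {m n : Type} [Fintype m] [DecidableEq m] [Fintype n] [DecidableEq n]

theorem inv_up (c : Inv R W) (H : Matrix m n R) :
    c.c (fromBlocks (1 : Matrix m m R) H 0 (1 : Matrix n n R)) = 0 := by
  rw [← c.low H, ← c.sub (Equiv.sumComm m n) (isUnit_low H)]
  congr 1
  ext (i | i) (j | j) <;> rfl

omit [DecidableEq n] in
theorem exists_factor {Q T : Submodule ℤ R} {A : Matrix n n R} (h : ∀ i j, A i j ∈ Q * T) :
    ∃ (k : Type) (_ : Fintype k) (_ : DecidableEq k) (X : Matrix n k R) (Y : Matrix k n R),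
      (∀ i j, X i j ∈ Q) ∧ (∀ i j, Y i j ∈ T) ∧ A = X * Y := by
  classical
  let S : AddSubmonoid (Matrix n n R) :=
    { carrier := {A | ∃ (k : Type) (_ : Fintype k) (_ : DecidableEq k) (X : Matrix n k R)
        (Y : Matrix k n R), (∀ i j, X i j ∈ Q) ∧ (∀ i j, Y i j ∈ T) ∧ A = X * Y}
      zero_mem' := ⟨Empty, inferInstance, inferInstance, 0, 0, fun _ j => j.elim,
        fun i => i.elim, by simp⟩
      add_mem' := by
        rintro _ _ ⟨k, _, _, X, Y, a, b, rfl⟩ ⟨k', _, _, X', Y', a', b', rfl⟩
        refine ⟨k ⊕ k', inferInstance, inferInstance, fromCols X X', fromRows Y Y', ?_, ?_,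
          (fromCols_mul_fromRows _ _ _ _).symm⟩
        · rintro i (j | j)
          exacts [a i j, a' i j]
        · rintro (i | i) j
          exacts [b i j, b' i j] }
  have key : ∀ i j, ∀ x ∈ Q * T, Matrix.single i j x ∈ S := fun i j x hx => by
    refine Submodule.mul_induction_on hx (fun y hy z hz => ?_) fun y z hy hz => ?_
    · refine ⟨Unit, inferInstance, inferInstance, Matrix.single i () y, Matrix.single () j z,
        fun p q => ?_, fun p q => ?_, (Matrix.single_mul_single_same ..).symm⟩
      · rw [Matrix.single_apply]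
        split_ifs
        exacts [hy, zero_mem _]
      · rw [Matrix.single_apply]
        split_ifs
        exacts [hz, zero_mem _]
    · rw [Matrix.single_add]
      exact add_mem hy hz
  have : A ∈ S := by
    rw [matrix_eq_sum_single A]
    exact sum_mem fun i _ => sum_mem fun j _ => key i j _ (h i j)
  exact this

/-- Linearisation: a property of classes that holds for the invertible matrices with entries in
an additive subgroup containing the unit holds for those with entries in the subring it
generates. -/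
theorem linearize (c : Inv R W) (Q : Submodule ℤ R) (h1 : (1 : R) ∈ Q) (U : W → Prop)
    (h : ∀ (n : Type) [Fintype n] [DecidableEq n] (A : Matrix n n R), IsUnit A →
      (∀ i j, A i j ∈ Q) → U (c.c A)) {A : Matrix n n R} (hA : IsUnit A)
    (hQ : ∀ i j, A i j ∈ Subring.closure (Q : Set R)) : U (c.c A) := by
  have mono : Monotone fun k : ℕ => Q ^ k := monotone_nat_of_le_succ fun k x hx => by
    rw [pow_succ, ← mul_one x]
    exact Submodule.mul_mem_mul hx h1
  have key : ∀ (k : ℕ) (n : Type) [Fintype n] [DecidableEq n] (A : Matrix n n R), IsUnit A →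
      (∀ i j, A i j ∈ Q ^ (k + 1)) → U (c.c A) := fun k => by
    induction k with
    | zero => simpa using h
    | succ k ih =>
      intro n _ _ A hA hk
      obtain ⟨l, _, _, X, Y, hX, hY, rfl⟩ := exists_factor (Q := Q) (T := Q ^ (k + 1))
        (A := A) fun i j => by simpa only [← pow_succ'] using hk i j
      have e : fromBlocks 0 (-X) Y (1 : Matrix l l R) =
          fromBlocks 1 (-X) 0 1 * fromBlocks (X * Y) 0 Y 1 := by
        simp [fromBlocks_multiply]
      have h3 := c.tri hA (isUnit_one (M := Matrix l l R)) Y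
      have h4 := ih _ (fromBlocks 0 (-X) Y (1 : Matrix l l R)) (e ▸ (isUnit_up _).mul h3.1) (by
        have hq : Q ≤ Q ^ (k + 1) := by simpa using mono (Nat.le_add_left 1 k)
        rintro (i | i) (j | j)
        · exact zero_mem _
        · exact neg_mem (hq (hX i j))
        · exact hY i j
        · rw [fromBlocks_apply₂₂, Matrix.one_apply]
          split_ifs
          exacts [hq h1, zero_mem _])
      rwa [e, c.mul (isUnit_up _) h3.1, inv_up, h3.2, c.one, zero_add, add_zero] at h4
  have ex : ∀ x ∈ Subring.closure (Q : Set R), ∃ k : ℕ, x ∈ Q ^ k := fun x hx => by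
    induction hx using Subring.closure_induction with
    | mem x hx => exact ⟨1, by simpa using hx⟩
    | zero => exact ⟨0, zero_mem _⟩
    | one => exact ⟨1, by simpa using h1⟩
    | add x y _ _ a b =>
      obtain ⟨k, a⟩ := a
      obtain ⟨l, b⟩ := b
      exact ⟨k + l, add_mem (mono (Nat.le_add_right k l) a) (mono (Nat.le_add_left l k) b)⟩
    | neg x _ a => exact a.imp fun _ => neg_mem
    | mul x y _ _ a b =>
      obtain ⟨k, a⟩ := a
      obtain ⟨l, b⟩ := b
      exact ⟨k + l, pow_add Q k l ▸ Submodule.mul_mem_mul a b⟩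
  choose k hk using fun p : n × n => ex _ (hQ p.1 p.2)
  exact key (Finset.univ.sup k) n A hA fun i j =>
    mono ((Finset.le_sup (Finset.mem_univ (i, j))).trans (Nat.le_succ _)) (hk (i, j))

end Pool.Agent.Lib.MP_2add11_gt.IG
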