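import Pool.Agent.Lib.MP_2add11_gt.IG.StMain
import Pool.Agent.Lib.MP_2add11_gt.IG.Push
import Pool.Agent.Lib.MP_2add11_gt.IG.NegCl

/-!
Closure under inverses in the Whitehead group holds for a free product exactly when it holds for
every factor.
-/

noncomputable section

namespace Pool.Agent.Lib.MP_2add11_gt.IG

open Matrix MonoidAlgebra Monoid FG

/-- The classes in `Wh G` of the algebraic model are closed under negation. -/
def WCl (G : Type) [Group G] : Prop := ∀ x ∈ Alg (whInv G), -x ∈ Alg (whInv G)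

theorem NegCl.wcl {G : Type} [Group G] (h : NegCl G) : WCl G := fun x hx => h _ _ x hx

variable {G C : Type} [Group G] [Group C]

theorem WCl.via (hC : WCl C) (f : G →* C) (g : C →* G) {ι : Type} [Fintype ι] [DecidableEq ι]
    {r : ι → FreeGroup (G × ι)} (h1 : NS r) (h2 : IsUnit (jac r)) :
    (whInv G).c ((jac r).map (mapDomainRingHom ℤ (g.comp f))) ∈ symm (whInv G) := by
  have h3 : (whInv G).c ((jac r).map (mapDomainRingHom ℤ (g.comp f))) ∈
      Alg ((whInv G).pull (mapDomainRingHom ℤ g)) := by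
    refine Alg.push _ f ⟨ι, _, _, r, h1, h2, ?_⟩
    rw [mapDomainRingHom_comp]
    rfl
  exact ⟨Alg.push _ g h3, neg_pull hC g h3⟩

theorem WCl.retract (hC : WCl C) (f : G →* C) (g : C →* G) (h : ∀ x, g (f x) = x) : WCl G := by
  rintro _ ⟨ι, _, _, r, h1, h2, rfl⟩
  have := (hC.via f g h1 h2).2
  rwa [show g.comp f = MonoidHom.id G from MonoidHom.ext h, mapDomainRingHom_id,
    RingHom.coe_id, Matrix.map_id] at this

theorem WCl.coprodI_iff {K : Type} [Finite K] (G : K → Type) [∀ i, Group (G i)] :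
    WCl (CoprodI G) ↔ ∀ i, WCl (G i) := by
  classical
  have := Fintype.ofFinite K
  refine ⟨fun h i => h.retract CoprodI.of (retr i) (retr_same i), fun h => ?_⟩
  rintro _ ⟨ι, _, _, r, h1, h2, rfl⟩
  have k0 := (NegCl.finite PUnit).wcl.via (G := CoprodI G) 1 1 h1 h2
  rw [show (1 : PUnit →* CoprodI G).comp (1 : CoprodI G →* PUnit) = 1 from rfl] at k0
  have : (whInv (CoprodI G)).c (jac r) ∈ symm (whInv (CoprodI G)) := by
    rw [split _ h2]
    exact add_mem k0 (sum_mem fun i _ => sub_mem ((h i).via (retr i) CoprodI.of h1 h2) k0)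
  exact this.2

end Pool.Agent.Lib.MP_2add11_gt.IG
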