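import Pool.Agent.Lib.MP_435286_al.CF.Defs

/-!
Tree-like inequalities for the word length of a free group and for sums of such lengths.
-/

namespace Pool.Agent.Lib.MP_2add11_gt.IG

open FreeGroup

variable {X : Type} [DecidableEq X]

/-- The distance in the free group. -/
def fd (u v : FreeGroup X) : ℕ := norm (u⁻¹ * v)

theorem fd_symm (u v : FreeGroup X) : fd u v = fd v u := by
  rw [fd, fd, ← norm_inv_eq, mul_inv_rev, inv_inv]

theorem fd_tri (u v w : FreeGroup X) : fd u w ≤ fd u v + fd v w := by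
  have := norm_mul_le (u⁻¹ * v) (v⁻¹ * w)
  simpa only [fd, mul_assoc, mul_inv_cancel_left] using this

theorem fd_mul (g u v : FreeGroup X) : fd (g * u) (g * v) = fd u v := by
  simp only [fd, mul_inv_rev, mul_assoc, inv_mul_cancel_left]

theorem fd_self (u : FreeGroup X) : fd u u = 0 := by simp [fd]

/-- The two reduced words begin with the same letter. -/
def Same (u v : FreeGroup X) : Prop := ∃ x, u.toWord.head? = some x ∧ v.toWord.head? = some x

theorem split_head {u : FreeGroup X} {x : X × Bool} (h : u.toWord.head? = some x) :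
    ∃ u', u = mk [x] * u' ∧ norm u' + 1 ≤ norm u := by
  obtain ⟨l, hl⟩ := List.head?_eq_some_iff.1 h
  refine ⟨mk l, ?_, ?_⟩
  · rw [mul_mk, List.singleton_append, ← hl, mk_toWord]
  · have := norm_mk_le (L₁ := l)
    rw [show norm u = u.toWord.length from rfl, hl, List.length_cons]
    omega

theorem Same.lt {u v : FreeGroup X} (h : Same u v) : fd u v + 2 ≤ norm u + norm v := by
  obtain ⟨x, hu, hv⟩ := h
  obtain ⟨u', rfl, h1⟩ := split_head hu
  obtain ⟨v', rfl, h2⟩ := split_head hv
  have := norm_mul_le u'⁻¹ v'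
  rw [norm_inv_eq] at this
  rw [fd_mul, fd]
  omega

theorem ge_of_not_same {u v : FreeGroup X} (h : ¬ Same u v) : norm u + norm v ≤ fd u v := by
  have h1 : IsReduced (u⁻¹.toWord ++ v.toWord) := by
    refine List.IsChain.append isReduced_toWord isReduced_toWord fun a ha b hb e => ?_
    by_contra hne
    refine h ⟨b, ?_, hb⟩
    rw [toWord_inv, invRev, List.getLast?_reverse, List.head?_map] at ha
    obtain ⟨c, hc, rfl⟩ := Option.map_eq_some_iff.1 ha
    rw [hc]
    obtain ⟨c1, c2⟩ := c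
    obtain ⟨b1, b2⟩ := b
    obtain rfl : c1 = b1 := e
    cases c2 <;> cases b2 <;> simp_all
  have h2 : u⁻¹ * v = mk (u⁻¹.toWord ++ v.toWord) := by rw [← mul_mk, mk_toWord, mk_toWord]
  have h3 : fd u v = (u⁻¹.toWord ++ v.toWord).length := by
    rw [fd, h2, FreeGroup.norm, toWord_mk, h1.reduce_eq]
  rw [h3, List.length_append]
  exact Nat.add_le_add_right (norm_inv_eq (x := u)).ge _

theorem fd_one (u : FreeGroup X) : fd 1 u = norm u := by simp [fd]

theorem exists_step (m : FreeGroup X) (y : ℕ → FreeGroup X) (n : ℕ)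
    (h : fd m (y 0) + fd m (y (n + 1)) ≤ fd (y 0) (y (n + 1))) :
    ∃ i ≤ n, fd m (y i) + fd m (y (i + 1)) ≤ fd (y i) (y (i + 1)) := by
  by_contra hc
  have h1 : ∀ i ≤ n, Same (m⁻¹ * y i) (m⁻¹ * y (i + 1)) := fun i hi => by
    by_contra h2
    exact hc ⟨i, hi, (ge_of_not_same h2).trans_eq (fd_mul _ _ _)⟩
  have h2 : ∀ i ≤ n, Same (m⁻¹ * y 0) (m⁻¹ * y (i + 1)) := fun i => by
    induction i with
    | zero => exact h1 0
    | succ i ih =>
      intro hi
      obtain ⟨x, a, b⟩ := ih (by omega)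
      obtain ⟨x', a', b'⟩ := h1 _ hi
      exact ⟨x, a, by rw [b', ← a', b]⟩
  have := (h2 n le_rfl).lt
  rw [fd_mul] at this
  simp only [fd] at this h
  omega

theorem exists_centre1 (k : ℕ) : ∀ u v : FreeGroup X, u.norm ≤ k → ∃ m : FreeGroup X,
    m.norm + fd m u ≤ u.norm ∧ m.norm + fd m v ≤ v.norm ∧ fd m u + fd m v ≤ fd u v := by
  induction k with
  | zero =>
    intro u v h
    obtain rfl := norm_eq_zero.1 (Nat.le_zero.1 h)
    exact ⟨1, by simp [fd], by simp [fd], by simp [fd]⟩
  | succ k ih =>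
    intro u v h
    by_cases hs : Same u v
    · obtain ⟨x, hu, hv⟩ := hs
      obtain ⟨u', rfl, h1⟩ := split_head hu
      obtain ⟨v', rfl, h2⟩ := split_head hv
      obtain ⟨m, a, b, c⟩ := ih u' v' (by omega)
      have h3 := norm_mul_le (mk [x]) m
      have h4 := norm_mk_le (L₁ := [x])
      rw [List.length_singleton] at h4
      refine ⟨mk [x] * m, ?_, ?_, ?_⟩ <;> simp only [fd_mul] <;> omega
    · exact ⟨1, by simp [fd], by simp [fd], by simpa only [fd_one] using ge_of_not_same hs⟩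

theorem exists_centre (o u v : FreeGroup X) : ∃ m, fd m o + fd m u ≤ fd o u ∧
    fd m o + fd m v ≤ fd o v ∧ fd m u + fd m v ≤ fd u v := by
  obtain ⟨m, a, b, c⟩ := exists_centre1 _ (o⁻¹ * u) (o⁻¹ * v) le_rfl
  have e : ∀ w, fd (o * m) w = fd m (o⁻¹ * w) := fun w => by
    rw [← fd_mul o m, mul_inv_cancel_left]
  have e1 : fd m (o⁻¹ * o) = norm m := by simp [fd]
  rw [fd_mul] at c
  exact ⟨o * m, by rw [e, e, e1]; exact a, by rw [e, e, e1]; exact b, by rw [e, e]; exact c⟩

theorem exists_geo (u v : FreeGroup X) : ∃ (n : ℕ) (z : ℕ → FreeGroup X), z 0 = u ∧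
    z (n + 1) = v ∧ ∀ j, fd (z j) (z (j + 1)) ≤ 1 ∧ fd u (z j) + fd (z j) v ≤ fd u v := by
  let w := (u⁻¹ * v).toWord
  have hw : mk w = u⁻¹ * v := mk_toWord
  refine ⟨w.length, fun j => u * mk (w.take j), by simp [← one_eq_mk], ?_, fun j => ⟨?_, ?_⟩⟩
  · simp only [List.take_of_length_le (Nat.le_succ _), hw, mul_inv_cancel_left]
  · rw [fd_mul, List.take_add_one, ← mul_mk, fd, inv_mul_cancel_left]
    refine norm_mk_le.trans ?_
    cases w[j]? <;> simp
  · have e : v = u * mk (w.take j) * mk (w.drop j) := by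
      rw [mul_assoc, mul_mk, List.take_append_drop, hw, mul_inv_cancel_left]
    have h1 : fd u (u * mk (w.take j)) ≤ (w.take j).length := by
      rw [fd, inv_mul_cancel_left]
      exact norm_mk_le
    have h2 : fd (u * mk (w.take j)) v ≤ (w.drop j).length := by
      conv_lhs => rw [e]
      rw [fd, ← e, show (u * mk (w.take j))⁻¹ * v = mk (w.drop j) by
        rw [inv_mul_eq_iff_eq_mul]; exact e]
      exact norm_mk_le
    have h3 : fd u v = w.length := rfl
    have h4 := congrArg List.length (List.take_append_drop j w)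
    rw [List.length_append] at h4
    beta_reduce
    omega

theorem ball_finite [Finite X] (r : ℕ) : {u : FreeGroup X | norm u ≤ r}.Finite :=
  (List.finite_length_le (X × Bool) r).preimage toWord_injective.injOn

variable {V κ : Type} [Fintype κ] (π : κ → V → FreeGroup X)

omit [Fintype κ] in
theorem lift_geo {k : κ} (hs : Function.Surjective (π k)) (a b : V) : ∃ (n : ℕ) (y : ℕ → V),
    y 0 = a ∧ y (n + 1) = b ∧ ∀ j ≤ n, fd (π k (y j)) (π k (y (j + 1))) ≤ 1 ∧
      fd (π k a) (π k (y j)) + fd (π k (y j)) (π k b) ≤ fd (π k a) (π k b) := by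
  obtain ⟨n, z, h0, h1, h⟩ := exists_geo (π k a) (π k b)
  choose σ hσ using hs
  have e : ∀ j, π k (if j = 0 then a else if j = n + 1 then b else σ (z j)) = z j := fun j => by
    split_ifs with c1 c2
    · rw [c1, h0]
    · rw [c2, h1]
    · exact hσ _
  exact ⟨n, fun j => if j = 0 then a else if j = n + 1 then b else σ (z j), by simp, by simp,
    fun j _ => by simpa only [e] using h j⟩

/-- The sum of the pulled back distances. -/
def sd (a b : V) : ℕ := ∑ k, fd (π k a) (π k b)

theorem sd_symm (a b : V) : sd π a b = sd π b a := Finset.sum_congr rfl fun _ _ => fd_symm _ _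

theorem sd_tri (a b c : V) : sd π a c ≤ sd π a b + sd π b c := by
  rw [sd, sd, sd, ← Finset.sum_add_distrib]
  exact Finset.sum_le_sum fun _ _ => fd_tri _ _ _

theorem le_sd (k : κ) (a b : V) : fd (π k a) (π k b) ≤ sd π a b :=
  Finset.single_le_sum (f := fun k => fd (π k a) (π k b)) (fun _ _ => Nat.zero_le _)
    (Finset.mem_univ k)

theorem sd_chain (k0 : κ) (hs : ∀ k, Function.Surjective (π k))
    (hq : ∀ r, ∃ r', ∀ k a b, fd (π k a) (π k b) ≤ r → sd π a b ≤ r') :
    ∃ K, MP_435286_al.CF.Chain (sd π) K := by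
  obtain ⟨L, hL⟩ := hq 1
  obtain ⟨L', hL'⟩ := hq L
  have bcl : ∀ m a b, fd (π k0 m) (π k0 a) + fd (π k0 m) (π k0 b) ≤ fd (π k0 a) (π k0 b) →
      sd π m a + sd π m b ≤ sd π a b + Fintype.card κ * (2 * L') := fun m a b h => by
    have : ∀ l, fd (π l m) (π l a) + fd (π l m) (π l b) ≤ fd (π l a) (π l b) + 2 * L' :=
      fun l => by
        obtain ⟨n, y, rfl, rfl, hy⟩ := lift_geo π (hs l) a b
        obtain ⟨j, hj, h1⟩ := exists_step (π k0 m) (fun j => π k0 (y j)) n h
        have h2 := (le_sd π k0 _ _).trans (hL l _ _ (hy j hj).1)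
        have h3 := (le_sd π l _ _).trans (hL' k0 m (y j) (by omega))
        have h4 := (hy j hj).2
        have h5 := fd_tri (π l m) (π l (y j)) (π l (y 0))
        have h6 := fd_tri (π l m) (π l (y j)) (π l (y (n + 1)))
        have h7 := fd_symm (π l (y j)) (π l (y 0))
        omega
    have := Finset.sum_le_sum fun l (_ : l ∈ Finset.univ) => this l
    rwa [Finset.sum_add_distrib, Finset.sum_add_distrib, Finset.sum_const, Finset.card_univ,
      smul_eq_mul] at this
  refine ⟨3 * (Fintype.card κ * (2 * L')), fun o x n => ?_⟩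
  obtain ⟨m, a, b, c⟩ := exists_centre (π k0 o) (π k0 (x 0)) (π k0 (x (n + 1)))
  obtain ⟨m, rfl⟩ := hs k0 m
  obtain ⟨i, hi, h⟩ := exists_step _ (fun j => π k0 (x j)) n c
  refine ⟨i, hi, ?_⟩
  have h1 := bcl _ _ _ a
  have h2 := bcl _ _ _ b
  have h3 := bcl _ _ _ h
  have h4 := sd_tri π o m (x i)
  have h5 := sd_tri π o m (x (i + 1))
  have h6 := sd_tri π (x 0) m (x (n + 1))
  have h7 := sd_symm π o m
  have h8 := sd_symm π (x 0) m
  omega

end Pool.Agent.Lib.MP_2add11_gt.IG
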