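import Pool.Agent.Lib.MP_2add11_gt.IG.NegCl

/-!
Unipotent matrices built from a nilpotent ring of matrices over the integral group ring of a
finite group have classes of finite order.
-/

noncomputable section

namespace Pool.Agent.Lib.MP_2add11_gt.IG

open Matrix MonoidAlgebra FG

variable {F S W n : Type} [Group F] [Finite F] [Ring S] [AddCommGroup W] [Fintype n]
  [DecidableEq n]

theorem exists_proj (J : Set (Matrix n n (MonoidAlgebra ℤ F))) :
    ∃ (d : ℕ) (D : Matrix n n (MonoidAlgebra ℤ F)), 0 < d ∧ (∀ X ∈ J, X * D = (d : ℤ) • X) ∧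
      ∀ Y, (∀ X ∈ J, X * Y = 0) → D * Y = 0 := by
  have : NeZero (Nat.card F : ℚ) := ⟨by exact_mod_cast Nat.card_pos.ne'⟩
  let ι := (mapRingHom F (Int.castRingHom ℚ)).mapMatrix (m := n)
  have inj : Function.Injective ι := fun A B h => by
    ext i j g
    have := congrArg (fun Z => (Z i j).coeff g) h
    simpa [ι] using this
  obtain ⟨e, he, hI⟩ := IsSemisimpleRing.ideal_eq_span_idempotent (Ideal.span (ι '' J))
  have := Fintype.ofFinite F
  let d : ℕ := ∏ x : n × n × F, ((e x.1 x.2.1).coeff x.2.2).den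
  let D : Matrix n n (MonoidAlgebra ℤ F) := .of fun i j => .ofCoeff (Finsupp.equivFunOnFinite.symm
    fun g => (d / ((e i j).coeff g).den : ℕ) * ((e i j).coeff g).num)
  have hD : ι D = (d : ℤ) • e := by
    ext i j g
    obtain ⟨q, hq⟩ := Finset.dvd_prod_of_mem
      (fun x : n × n × F => ((e x.1 x.2.1).coeff x.2.2).den) (Finset.mem_univ (i, j, g))
    have hq' : d = ((e i j).coeff g).den * q := hq
    simp only [ι, D, RingHom.mapMatrix_apply, map_apply, Matrix.of_apply, coeff_mapRingHom,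
      Matrix.smul_apply, coeff_smul_apply, Finsupp.equivFunOnFinite_symm_apply_apply, eq_intCast]
    rw [hq', Nat.mul_div_cancel_left _ ((e i j).coeff g).den_pos, zsmul_eq_mul]
    push_cast
    rw [mul_right_comm, Rat.den_mul_eq_num, mul_comm]
  refine ⟨d, D, Finset.prod_pos fun x _ => Rat.den_pos _, fun X hX => inj ?_, fun Y hY => inj ?_⟩
  · have h1 : ι X ∈ Ideal.span (ι '' J) := Ideal.subset_span ⟨X, hX, rfl⟩
    obtain ⟨a, ha⟩ := Ideal.mem_span_singleton'.1 (hI ▸ h1)
    rw [map_mul, hD, map_zsmul, mul_smul_comm, ← ha, mul_assoc, he.eq]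
  · have h1 : e ∈ Ideal.span (ι '' J) := hI ▸ Ideal.subset_span rfl
    have h2 : ∀ a ∈ Ideal.span (ι '' J), a * ι Y = 0 := fun a ha => by
      induction ha using Submodule.span_induction with
      | mem a ha =>
        obtain ⟨X, hX, rfl⟩ := ha
        rw [← map_mul, hY X hX, map_zero]
      | zero => exact zero_mul _
      | add a b _ _ p q => rw [add_mul, p, q, add_zero]
      | smul a b _ p => rw [smul_eq_mul, mul_assoc, p, mul_zero]
    rw [map_mul, hD, smul_mul_assoc, h2 e h1, smul_zero, map_zero]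

theorem pow_cong {A : Type} [Ring A] {T : Submodule ℤ A} {Z : A} (hZ : ∀ j, Z ^ (j + 1) ∈ T)
    {N : ℕ} (hN : Z ^ N = 0) {d : ℕ} (hd : 0 < d) :
    ∃ q : ℕ, 0 < q ∧ ∃ Z' ∈ T, (1 + Z) ^ q = 1 + (d : ℤ) • Z' := by
  obtain ⟨q, hq⟩ := Nat.exists_eq_add_one_of_ne_zero (mul_pos hd N.factorial_pos).ne'
  have : ∑ j ∈ Finset.range (q + 1), Z ^ (j + 1) * 1 ^ (q + 1 - (j + 1)) * ((q + 1).choose (j + 1) : A) ∈
      T.map ((d : ℤ) • LinearMap.id) := sum_mem fun j _ => by
    rcases le_or_gt N (j + 1) with h | h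
    · rw [pow_eq_zero_of_le h hN, zero_mul, zero_mul]
      exact zero_mem _
    · obtain ⟨u, hu⟩ := Nat.dvd_factorial j.succ_pos h.le
      have h1 : (q + 1).choose (j + 1) = d * (u * q.choose j) := by
        refine Nat.eq_of_mul_eq_mul_right j.succ_pos ?_
        rw [← Nat.add_one_mul_choose_eq, ← hq, hu]
        ring
      refine ⟨((u * q.choose j : ℕ) : ℤ) • Z ^ (j + 1), T.smul_mem _ (hZ j), ?_⟩
      rw [h1, one_pow, mul_one, LinearMap.smul_apply, LinearMap.id_apply, smul_smul,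
        zsmul_eq_mul']
      push_cast
      rfl
  obtain ⟨Z', h1, h2⟩ := this
  refine ⟨q + 1, q.succ_pos, Z', h1, ?_⟩
  rw [add_comm 1 Z, (Commute.one_right Z).add_pow, Finset.sum_range_succ', ← h2, add_comm]
  simp

variable (φ : MonoidAlgebra ℤ F →+* S)

/-- Sums of images of matrices of `J` times scalars that commute with the image ring. -/
def Zs (J : Submodule ℤ (Matrix n n (MonoidAlgebra ℤ F))) : Submodule ℤ (Matrix n n S) :=
  .span ℤ {Y | ∃ X ∈ J, ∃ s, (∀ r, Commute (φ r) s) ∧ Y = φ.mapMatrix X * scalar n s}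

omit [Finite F] in
theorem comm_scalar {s : S} (hs : ∀ r, Commute (φ r) s) (X : Matrix n n (MonoidAlgebra ℤ F)) :
    scalar n s * φ.mapMatrix X = φ.mapMatrix X * scalar n s := by
  ext i j
  simp [(hs _).eq]

omit [Finite F] in
theorem Zs_mul (J J' : Submodule ℤ (Matrix n n (MonoidAlgebra ℤ F))) :
    Zs φ J * Zs φ J' ≤ Zs φ (J * J') := by
  rw [Zs, Zs, Submodule.span_mul_span, Submodule.span_le]
  rintro _ ⟨_, ⟨X, hX, s, hs, rfl⟩, _, ⟨X', hX', s', hs', rfl⟩, rfl⟩
  refine Submodule.subset_span ⟨X * X', Submodule.mul_mem_mul hX hX', s * s',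
    fun r => (hs r).mul_right (hs' r), ?_⟩
  simp only [map_mul, mul_assoc]
  rw [← mul_assoc (scalar n s), comm_scalar φ hs, mul_assoc]

omit [Finite F] in
theorem Zs_mono {J J' : Submodule ℤ (Matrix n n (MonoidAlgebra ℤ F))} (h : J ≤ J') :
    Zs φ J ≤ Zs φ J' := Submodule.span_mono fun _ ⟨X, hX, e⟩ => ⟨X, h hX, e⟩

omit [Finite F] in
theorem Zs_bot {Z : Matrix n n S} (h : Z ∈ Zs φ ⊥) : Z = 0 := by
  rw [← Submodule.mem_bot ℤ]
  refine Submodule.span_le.2 ?_ h
  rintro _ ⟨X, hX, s, -, rfl⟩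
  simp [(Submodule.mem_bot ℤ).1 hX]

theorem nil_tors (c : Inv S W) (m : ℕ) : ∀ J : Submodule ℤ (Matrix n n (MonoidAlgebra ℤ F)),
    J * J ≤ J → J ^ (m + 1) = ⊥ → ∀ Z ∈ Zs φ J,
      IsUnit (1 + Z) ∧ IsOfFinAddOrder (c.c (1 + Z)) := by
  induction m with
  | zero =>
    intro J _ h Z hZ
    rw [zero_add, pow_one] at h
    rw [Zs_bot φ (Z := Z) (h ▸ hZ), add_zero, c.one]
    exact ⟨isUnit_one, .zero⟩
  | succ m ih =>
    intro J hJ h Z hZ
    have h1 : ∀ j, Z ^ (j + 1) ∈ Zs φ (J ^ (j + 1)) := fun j => by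
      induction j with
      | zero => simpa using hZ
      | succ j ih =>
        rw [pow_succ, pow_succ J]
        exact Zs_mul φ _ _ (Submodule.mul_mem_mul ih hZ)
    have h2 : ∀ j, J ^ (j + 1) ≤ J := fun j => by
      induction j with
      | zero => simp
      | succ j ih => exact (pow_succ J _).le.trans ((mul_le_mul_left ih J).trans hJ)
    have h3 : Z ^ (m + 1 + 1) = 0 := Zs_bot φ (h ▸ h1 _)
    have hu : IsUnit (1 + Z) := IsNilpotent.isUnit_one_add ⟨_, h3⟩
    obtain ⟨d, D, hd, hD, hD'⟩ := exists_proj (J : Set (Matrix n n (MonoidAlgebra ℤ F)))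
    obtain ⟨q, hq, Z', hZ', e⟩ := pow_cong (fun j => Zs_mono φ (h2 j) (h1 j)) h3 hd
    let J' := J.map (LinearMap.mulLeft ℤ D)
    have h4 : ∀ K : Submodule ℤ (Matrix n n (MonoidAlgebra ℤ F)),
        J' * K.map (LinearMap.mulLeft ℤ D) ≤ (J * K).map (LinearMap.mulLeft ℤ D) := fun K => by
      rw [Submodule.mul_le]
      rintro _ ⟨X, hX, rfl⟩ _ ⟨Y, hY, rfl⟩
      refine ⟨(d : ℤ) • (X * Y), Submodule.smul_mem _ _ (Submodule.mul_mem_mul hX hY), ?_⟩
      simp only [LinearMap.mulLeft_apply]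
      rw [← smul_mul_assoc, ← hD X hX]
      simp only [mul_assoc]
    have h5 : ∀ j, J' ^ (j + 1) ≤ (J ^ (j + 1)).map (LinearMap.mulLeft ℤ D) := fun j => by
      induction j with
      | zero => simp [J']
      | succ j ih =>
        rw [pow_succ' J', pow_succ' J]
        exact (mul_le_mul_right ih J').trans (h4 _)
    have h6 : J' ^ (m + 1) = ⊥ := by
      refine eq_bot_iff.2 ((h5 m).trans ?_)
      rintro _ ⟨Y, hY, rfl⟩
      refine hD' Y fun X hX => ?_
      rw [← Submodule.mem_bot ℤ, ← h, pow_succ']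
      exact Submodule.mul_mem_mul hX hY
    have h7 : ∀ Y ∈ Zs φ J, Y * φ.mapMatrix D = (d : ℤ) • Y ∧ φ.mapMatrix D * Y ∈ Zs φ J' :=
      fun Y hY => by
        induction hY using Submodule.span_induction with
        | mem Y hY =>
          obtain ⟨X, hX, s, hs, rfl⟩ := hY
          refine ⟨?_, Submodule.subset_span ⟨D * X, ⟨X, hX, rfl⟩, s, hs, ?_⟩⟩
          · rw [mul_assoc, comm_scalar φ hs, ← mul_assoc, ← map_mul, hD X hX, map_zsmul,
              smul_mul_assoc]
          · rw [map_mul, mul_assoc]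
        | zero => simp
        | add a b _ _ p q => exact ⟨by rw [add_mul, p.1, q.1, smul_add],
            by rw [mul_add]; exact add_mem p.2 q.2⟩
        | smul a b _ p => exact ⟨by rw [smul_mul_assoc, p.1, smul_comm],
            by rw [mul_smul_comm]; exact Submodule.smul_mem _ _ p.2⟩
    obtain ⟨h8, h9⟩ := ih J' ((h4 J).trans (Submodule.map_mono hJ)) h6 _ (h7 Z' hZ').2
    rw [← c.one_add_swap h8, (h7 Z' hZ').1, ← e, c.pow hu] at h9
    exact ⟨hu, (isOfFinAddOrder_nsmul.1 h9).resolve_right hq.ne'⟩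

end Pool.Agent.Lib.MP_2add11_gt.IG
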