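import Mathlib

/-!
Finite global dimension passes to Laurent polynomial rings.
-/

noncomputable section

namespace Pool.Agent.Lib.MP_2add11_gt.IG

open CategoryTheory TensorProduct Function

/-- Projective dimension at most `m`. -/
def PD (A M : Type) [CommRing A] [AddCommGroup M] [Module A M] (m : ℕ) : Prop :=
  HasProjectiveDimensionLE (ModuleCat.of A M) m

/-- Global dimension at most `m`. -/
def GD (A : Type) [CommRing A] (m : ℕ) : Prop :=
  ∀ (M : Type) [AddCommGroup M] [Module A M], PD A M m

variable {A B : Type} [CommRing A] [CommRing B] {K L M : Type} [AddCommGroup K] [AddCommGroup L]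
  [AddCommGroup M]

section

variable [Module A K] [Module A L] [Module A M]

theorem pd_zero : PD A M 0 ↔ Module.Projective A M := by
  rw [PD, ← projective_iff_hasProjectiveDimensionLE_zero, ← IsProjective.iff_projective]

theorem PD.of_proj [h : Module.Projective A M] (m : ℕ) : PD A M m := by
  have : HasProjectiveDimensionLT (ModuleCat.of A M) 1 := pd_zero.2 h
  exact hasProjectiveDimensionLT_of_ge _ 1 _ (by omega)

theorem PD.succ {m : ℕ} (h : PD A M m) : PD A M (m + 1) := by
  have : HasProjectiveDimensionLT (ModuleCat.of A M) (m + 1) := h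
  exact hasProjectiveDimensionLT_of_ge _ (m + 1) _ (by omega)

theorem PD.coker {f : K →ₗ[A] L} {g : L →ₗ[A] M} (h : Exact f g) (hf : Injective f)
    (hg : Surjective g) {m : ℕ} (h1 : PD A K m) (h2 : PD A L (m + 1)) : PD A M (m + 1) :=
  (ModuleCat.shortComplex_shortExact
    (ModuleCat.shortComplexOfCompEqZero f g h.linearMap_comp_eq_zero) h hf
      hg).hasProjectiveDimensionLT_X₃ (m + 1) h1 h2

theorem PD.ker {g : L →ₗ[A] M} (hg : Surjective g) {m : ℕ} (h1 : PD A L m)
    (h2 : PD A M (m + 1)) : PD A (LinearMap.ker g) m :=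
  (LinearMap.shortExact_shortComplexKer hg).hasProjectiveDimensionLT_X₁ (m + 1) h1 h2

end

theorem PD.base [Algebra A B] [Module.Free A B] (m : ℕ) :
    ∀ (M : Type) [AddCommGroup M] [Module A M], PD A M m → PD B (B ⊗[A] M) m := by
  induction m with
  | zero =>
    intro M _ _ h
    have := pd_zero.1 h
    exact pd_zero.2 inferInstance
  | succ m ih =>
    intro M _ _ h
    let g : (M →₀ A) →ₗ[A] M := Finsupp.linearCombination A id
    have hg : Surjective g := fun x => ⟨Finsupp.single x 1, by simp [g]⟩
    have ex := lTensor_exact (M := LinearMap.ker g) B g.exact_subtype_ker_map hg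
    exact PD.coker (f := (LinearMap.ker g).subtype.baseChange B) (g := g.baseChange B) ex
      (Module.Flat.lTensor_preserves_injective_linearMap _ (LinearMap.ker g).injective_subtype)
      (LinearMap.lTensor_surjective B hg) (ih _ (PD.ker hg (PD.of_proj m) h)) (PD.of_proj _)

theorem GD.equiv {m : ℕ} (h : GD A m) (e : A ≃+* B) : GD B m := fun M _ _ => by
  let : Algebra A B := e.toRingHom.toAlgebra
  let : Module A M := Module.compHom M (algebraMap A B)
  have : IsScalarTower A B M := IsScalarTower.of_algebraMap_smul fun _ _ => rfl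
  let e' : A ≃ₗ[A] B := { e with map_smul' := fun a b => map_mul e a b }
  have : Module.Free A B := Module.Free.of_equiv e'
  have h1 := PD.base (B := B) m M (h M)
  have hb : Bijective ((LinearMap.id : M →ₗ[A] M).liftBaseChange B) := by
    have key : ∀ x : B ⊗[A] M,
        x = 1 ⊗ₜ ((LinearMap.id : M →ₗ[A] M).liftBaseChange B x) := fun x => by
      induction x with
      | zero => simp
      | tmul b y =>
        obtain ⟨a, rfl⟩ : ∃ a, algebraMap A B a = b := e.surjective b
        rw [LinearMap.liftBaseChange_tmul, LinearMap.id_apply, algebraMap_smul, ← smul_tmul,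
          Algebra.algebraMap_eq_smul_one]
      | add x y hx hy => rw [map_add, tmul_add, ← hx, ← hy]
    exact ⟨fun x y hxy => by rw [key x, key y, hxy], fun y => ⟨1 ⊗ₜ y, by simp⟩⟩
  have : HasProjectiveDimensionLE (ModuleCat.of B (B ⊗[A] M)) m := h1
  exact ModuleCat.hasProjectiveDimensionLE_of_linearEquiv (M := ModuleCat.of B (B ⊗[A] M))
    (N := ModuleCat.of B M) (LinearEquiv.ofBijective _ hb) m

theorem GD.laurent {m : ℕ} (h : GD A m) : GD (MonoidAlgebra A (Multiplicative ℤ)) (m + 1) := by
  intro M _ _
  set B := MonoidAlgebra A (Multiplicative ℤ)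
  let : Module A M := Module.compHom M (algebraMap A B)
  have : IsScalarTower A B M := IsScalarTower.of_algebraMap_smul fun _ _ => rfl
  have : SMulCommClass B A M := IsScalarTower.to_smulCommClass'
  have h1 := PD.base (B := B) m M (h M)
  let T : ℤ → B := fun n => MonoidAlgebra.single (Multiplicative.ofAdd n) 1
  have hT : ∀ a b, T (a + b) = T a * T b := fun a b => by
    change MonoidAlgebra.single _ _ = MonoidAlgebra.single _ _ * MonoidAlgebra.single _ _
    rw [MonoidAlgebra.single_mul_single, one_mul, ofAdd_add]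
  have hT0 : T 0 = 1 := rfl
  let ε : B ⊗[A] M →ₗ[B] M := (LinearMap.id : M →ₗ[A] M).liftBaseChange B
  let τ : M →ₗ[A] M := (LinearMap.lsmul B M (T 1)).restrictScalars A
  let δ : B ⊗[A] M →ₗ[B] B ⊗[A] M := T 1 • LinearMap.id - τ.baseChange B
  have hδ : ∀ (b : B) (y : M), δ (b ⊗ₜ y) = (T 1 * b) ⊗ₜ y - b ⊗ₜ (T 1 • y) := fun b y => by
    simp [δ, τ, smul_tmul']
  have hε : ∀ (b : B) (y : M), ε (b ⊗ₜ y) = b • y := fun _ _ => rfl
  have k1 : ∀ (n : ℤ) (y : M), T n ⊗ₜ[A] y - 1 ⊗ₜ (T n • y) ∈ LinearMap.range δ := by
    intro n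
    induction n using Int.induction_on with
    | zero => simp [hT0]
    | succ n ih =>
      intro y
      have := add_mem (LinearMap.mem_range_self δ (T n ⊗ₜ y)) (ih (T 1 • y))
      rwa [hδ, sub_add_sub_cancel, ← mul_smul, ← hT, ← hT, add_comm] at this
    | pred n ih =>
      intro y
      have := sub_mem (ih (T (-1) • y)) (LinearMap.mem_range_self δ (T (-n - 1) ⊗ₜ (T (-1) • y)))
      rw [hδ, ← hT, ← mul_smul, ← mul_smul, ← hT, ← hT, add_neg_cancel, hT0, one_smul,
        show (1 : ℤ) + (-n - 1) = -n by ring, ← sub_eq_add_neg] at this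
      convert this using 1
      abel
  have k2 : ∀ x, x - 1 ⊗ₜ (ε x) ∈ LinearMap.range δ := fun x => by
    induction x with
    | zero => simp
    | add x y hx hy =>
      rw [map_add, tmul_add, add_sub_add_comm]
      exact add_mem hx hy
    | tmul b y =>
      rw [hε]
      induction b using MonoidAlgebra.induction_on with
      | of g => exact k1 g.toAdd y
      | add a b ha hb =>
        rw [add_smul, add_tmul, tmul_add, add_sub_add_comm]
        exact add_mem ha hb
      | smul a b hb =>
        rw [smul_assoc, tmul_smul, ← smul_tmul']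
        have := Submodule.smul_of_tower_mem _ a hb
        rw [smul_sub] at this
        exact this
  have ex : Exact δ ε := fun x => by
    refine ⟨fun hx => by simpa [hx] using k2 x, ?_⟩
    rintro ⟨x, rfl⟩
    induction x with
    | zero => simp
    | add x y hx hy => rw [map_add, map_add, hx, hy, add_zero]
    | tmul b y => rw [hδ, map_sub, hε, hε, mul_comm, mul_smul, sub_self]
  have inj : Injective δ := by
    rw [injective_iff_map_eq_zero]
    intro x hx
    let E := equivFinsuppOfBasisLeft (N := M) (MonoidAlgebra.basis (Multiplicative ℤ) A)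
    have k3 : ∀ (x : B ⊗[A] M) (g : Multiplicative ℤ), E (δ x) (Multiplicative.ofAdd 1 * g) =
        E x g - T 1 • E x (Multiplicative.ofAdd 1 * g) := fun x g => by
      induction x with
      | zero => simp
      | add x y hx hy =>
        simp only [map_add, Finsupp.add_apply, hx, hy, smul_add]
        abel
      | tmul b y =>
        rw [hδ, map_sub, Finsupp.sub_apply, equivFinsuppOfBasisLeft_apply_tmul_apply,
          equivFinsuppOfBasisLeft_apply_tmul_apply, equivFinsuppOfBasisLeft_apply_tmul_apply,
          equivFinsuppOfBasisLeft_apply_tmul_apply, smul_comm (T 1)]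
        congr 2
        exact (MonoidAlgebra.coeff_single_mul_mul b 1 _ g).trans (one_mul _)
    by_contra h0
    have hne : (E x).support.Nonempty := by
      rw [Finsupp.support_nonempty_iff]
      exact fun e => h0 (E.map_eq_zero_iff.1 e)
    obtain ⟨g, hg, hmax⟩ := (E x).support.exists_max_image (fun g => g.toAdd) hne
    have h2 : E x (Multiplicative.ofAdd 1 * g) = 0 := by
      by_contra h'
      have := hmax _ (Finsupp.mem_support_iff.2 h')
      simp at this
    have := k3 x g
    rw [hx, map_zero, h2, smul_zero, sub_zero] at this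
    exact Finsupp.mem_support_iff.1 hg this.symm
  exact PD.coker ex inj (fun y => ⟨1 ⊗ₜ y, by rw [hε, one_smul]⟩) h1 h1.succ

theorem gd_finite (F : Type) [CommGroup F] [Finite F] : GD (MonoidAlgebra ℚ F) 0 := fun M _ _ => by
  have : NeZero (Nat.card F : ℚ) := ⟨Nat.cast_ne_zero.2 Nat.card_pos.ne'⟩
  exact pd_zero.2 (Module.projective_of_isSemisimpleRing _ _)

theorem GD.prod {H : Type} [CommGroup H] {m : ℕ} (h : GD (MonoidAlgebra ℚ H) m) :
    GD (MonoidAlgebra ℚ (H × Multiplicative ℤ)) (m + 1) :=
  h.laurent.equiv (MonoidAlgebra.curryRingEquiv.symm.trans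
    (MonoidAlgebra.mapDomainRingEquiv ℚ (MulEquiv.prodComm)))

theorem GD.iso {G H : Type} [CommGroup G] [CommGroup H] {m : ℕ} (e : G ≃* H)
    (h : GD (MonoidAlgebra ℚ H) m) : GD (MonoidAlgebra ℚ G) m :=
  h.equiv (MonoidAlgebra.mapDomainRingEquiv ℚ e.symm)

end Pool.Agent.Lib.MP_2add11_gt.IG
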