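import Pool.Agent.Lib.MP_2add11_gt.IG.NilDim

/-!
Over a noetherian ring of finite global dimension every nilpotent matrix is trivial for shift
moves and triangular cancellation.
-/

noncomputable section

namespace Pool.Agent.Lib.MP_2add11_gt.IG

open Function Matrix LinearMap

/-- A property of square matrices that holds for zero and is closed under two moves. -/
structure Triv (A : Type) [CommRing A] where
  Z : ∀ {n : Type} [Fintype n] [DecidableEq n], Matrix n n A → Prop
  zero : ∀ {n : Type} [Fintype n] [DecidableEq n], Z (0 : Matrix n n A)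
  swap : ∀ {m n : Type} [Fintype m] [DecidableEq m] [Fintype n] [DecidableEq n]
    (H : Matrix m n A) (X : Matrix n m A), Z (X * H) → Z (H * X)
  tri : ∀ {m n : Type} [Fintype m] [DecidableEq m] [Fintype n] [DecidableEq n]
    (P : Matrix m m A) (X : Matrix m n A) (Q : Matrix n n A), Z (fromBlocks P X 0 Q) → Z P → Z Q

variable {A : Type} [CommRing A]

/-- A chain of shift moves of length `k` through finite modules of projective dimension `≤ m`. -/
def Ch (A : Type) [CommRing A] (m : ℕ) :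
    ℕ → ∀ (M : Type) [AddCommGroup M] [Module A M], (M →ₗ[A] M) → Prop
  | 0, _, _, _, ν => ν = 0
  | k + 1, M, _, _, ν => ∃ (K : Type) (_ : AddCommGroup K) (_ : Module A K) (j : K →ₗ[A] M)
      (ν' : M →ₗ[A] K), Module.Finite A K ∧ PD A K m ∧ j ∘ₗ ν' = ν ∧ Ch A m k K (ν' ∘ₗ j)

theorem ch_of_nil [IsNoetherianRing A] {m : ℕ} (h : GD A m) (k : ℕ) :
    ∀ (M : Type) [AddCommGroup M] [Module A M] [Module.Finite A M] (ν : M →ₗ[A] M),
      ν ^ (k + 1) = 0 → Ch A m k M ν := by
  induction k with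
  | zero => exact fun M _ _ _ ν hν => by simpa [Ch] using hν
  | succ k ih =>
    intro M _ _ _ ν hν
    refine ⟨LinearMap.range ν, inferInstance, inferInstance, (LinearMap.range ν).subtype,
      ν.rangeRestrict, inferInstance, h _, rfl, ih _ _ ?_⟩
    have key : ∀ (i : ℕ) (x : LinearMap.range ν),
        (((ν.rangeRestrict ∘ₗ (LinearMap.range ν).subtype) ^ i) x).1 = (ν ^ i) x.1 := by
      intro i
      induction i with
      | zero => exact fun _ => rfl
      | succ i ih' =>
        intro x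
        rw [pow_succ, pow_succ, Module.End.mul_apply, Module.End.mul_apply, ih']
        rfl
    ext ⟨_, x, rfl⟩
    rw [key, ← Module.End.mul_apply, ← pow_succ, hν]
    rfl

theorem ch_res {m : ℕ} [IsNoetherianRing A] (k : ℕ) :
    ∀ (M : Type) [AddCommGroup M] [Module A M] [Module.Finite A M] (ν : M →ₗ[A] M),
      Ch A (m + 1) k M ν → ∃ (Q : Type) (_ : AddCommGroup Q) (_ : Module A Q) (p : Q →ₗ[A] M)
        (N : Q →ₗ[A] Q) (μ : LinearMap.ker p →ₗ[A] LinearMap.ker p), Module.Finite A Q ∧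
        Module.Projective A Q ∧ Surjective p ∧ p ∘ₗ N = ν ∘ₗ p ∧ (∀ x, (μ x).1 = N x.1) ∧
        Ch A 0 k Q N ∧ Ch A m k _ μ := by
  induction k with
  | zero =>
    intro M _ _ _ ν hν
    obtain ⟨n, g, hg⟩ := Module.Finite.exists_fin' A M
    obtain rfl : ν = 0 := hν
    exact ⟨_, inferInstance, inferInstance, g, 0, 0, inferInstance, inferInstance, hg, by simp,
      fun _ => rfl, rfl, rfl⟩
  | succ k ih =>
    rintro M _ _ _ _ ⟨K, _, _, j, ν', _, hK, rfl, hc⟩
    obtain ⟨Q, _, _, p, N, μ, _, _, h1, h2, h3, h4, h5⟩ := ih K _ hc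
    obtain ⟨n, g, hg⟩ := Module.Finite.exists_fin' A M
    obtain ⟨h, hh⟩ := Module.projective_lifting_property p (ν' ∘ₗ g) h1
    let p' : (Fin n → A) × Q →ₗ[A] M := g.coprod (j ∘ₗ p)
    let N' : (Fin n → A) × Q →ₗ[A] Q := h.coprod N
    have e1 : ∀ x, p (N' x) = ν' (p' x) := fun x => by
      have a1 : p (h x.1) = ν' (g x.1) := LinearMap.congr_fun hh x.1
      have a2 : p (N x.2) = ν' (j (p x.2)) := LinearMap.congr_fun h2 x.2
      simp [p', N', a1, a2]
    let J : LinearMap.ker p →ₗ[A] LinearMap.ker p' :=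
      (inr A _ Q ∘ₗ (LinearMap.ker p).subtype).codRestrict _ fun x => by simp [p']
    let N'' : LinearMap.ker p' →ₗ[A] LinearMap.ker p :=
      (N' ∘ₗ (LinearMap.ker p').subtype).codRestrict _ fun x => by
        rw [mem_ker, LinearMap.comp_apply, e1, Submodule.subtype_apply, x.2, map_zero]
    refine ⟨_, inferInstance, inferInstance, p', inr A _ Q ∘ₗ N', J ∘ₗ N'', inferInstance,
      inferInstance, fun y => ?_, LinearMap.ext fun x => ?_, fun _ => rfl,
      ⟨Q, inferInstance, inferInstance, inr A _ Q, N', inferInstance, PD.of_proj 0, rfl, ?_⟩,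
      ⟨_, inferInstance, inferInstance, J, N'', inferInstance, PD.ker h1 (PD.of_proj m) hK, rfl,
        ?_⟩⟩
    · obtain ⟨x, rfl⟩ := hg y
      exact ⟨(x, 0), by simp [p']⟩
    · simp only [LinearMap.comp_apply, ← e1]
      simp [p']
    · rwa [coprod_inr]
    · convert h5 using 1
      ext x
      rw [h3]
      simp [N'', J, N']

namespace Triv

variable (T : Triv A)

/-- The property for an endomorphism of a finite projective module. -/
def Z' {P : Type} [AddCommGroup P] [Module A P] (ν : P →ₗ[A] P) : Prop :=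
  ∃ (n : Type) (_ : Fintype n) (_ : DecidableEq n) (i : P →ₗ[A] n → A) (π : (n → A) →ₗ[A] P),
    π ∘ₗ i = LinearMap.id ∧ T.Z (toMatrix' (i ∘ₗ ν ∘ₗ π))

variable {T} {P K : Type} [AddCommGroup P] [Module A P] [AddCommGroup K] [Module A K]

theorem Z'.move {j : K →ₗ[A] P} {ν' : P →ₗ[A] K} (h : T.Z' (ν' ∘ₗ j)) {n : Type} [Fintype n]
    [DecidableEq n] (i : P →ₗ[A] n → A) (π : (n → A) →ₗ[A] P) (e : π ∘ₗ i = LinearMap.id) :
    T.Z (toMatrix' (i ∘ₗ (j ∘ₗ ν') ∘ₗ π)) := by
  obtain ⟨l, _, _, i', π', e', h⟩ := h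
  have := T.swap (toMatrix' (i ∘ₗ j ∘ₗ π')) (toMatrix' (i' ∘ₗ ν' ∘ₗ π)) (by
    rw [← toMatrix'_comp]
    convert h using 2
    refine LinearMap.ext fun x => ?_
    have h1 : ∀ y, π (i y) = y := LinearMap.congr_fun e
    simp [h1])
  rw [← toMatrix'_comp] at this
  convert this using 2
  refine LinearMap.ext fun x => ?_
  have h1 : ∀ y, π' (i' y) = y := LinearMap.congr_fun e'
  simp [h1]

theorem ch_zero (k : ℕ) : ∀ (P : Type) [AddCommGroup P] [Module A P] [Module.Finite A P]
    [Module.Projective A P] (ν : P →ₗ[A] P), Ch A 0 k P ν → T.Z' ν := by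
  induction k with
  | zero =>
    intro P _ _ _ _ ν hν
    obtain ⟨n, π, i, -, -, e⟩ := Module.Finite.exists_comp_eq_id_of_projective A P
    obtain rfl : ν = 0 := hν
    exact ⟨_, inferInstance, inferInstance, i, π, e, by simpa using T.zero⟩
  | succ k ih =>
    rintro P _ _ _ _ _ ⟨K, _, _, j, ν', _, hK, rfl, hc⟩
    have := pd_zero.1 hK
    obtain ⟨n, π, i, -, -, e⟩ := Module.Finite.exists_comp_eq_id_of_projective A P
    exact ⟨_, inferInstance, inferInstance, i, π, e, (ih K _ hc).move i π e⟩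

theorem ch_all [IsNoetherianRing A] (m k : ℕ) : ∀ (P : Type) [AddCommGroup P] [Module A P]
    [Module.Finite A P] [Module.Projective A P] (ν : P →ₗ[A] P), Ch A m k P ν → T.Z' ν := by
  induction m with
  | zero => exact ch_zero k
  | succ m ih =>
    intro P _ _ _ _ ν hν
    obtain ⟨Q, _, _, p, N, μ, _, _, h1, h2, h3, h4, h5⟩ := ch_res k P ν hν
    obtain ⟨s, hs⟩ := Module.projective_lifting_property p LinearMap.id h1
    have hs' : ∀ x, p (s x) = x := LinearMap.congr_fun hs
    have h2' : ∀ x, p (N x) = ν (p x) := LinearMap.congr_fun h2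
    let r : Q →ₗ[A] LinearMap.ker p :=
      (LinearMap.id - s ∘ₗ p).codRestrict _ fun x => by simp [hs']
    have hr : ∀ x : LinearMap.ker p, r x.1 = x := fun x => Subtype.ext (by simp [r])
    have : Module.Projective A (LinearMap.ker p) :=
      .of_split (LinearMap.ker p).subtype r (LinearMap.ext hr)
    obtain ⟨l, _, _, i', π', e', z1⟩ := ih _ μ h5
    obtain ⟨n, π, i, -, -, e⟩ := Module.Finite.exists_comp_eq_id_of_projective A P
    have e1 : ∀ x, π (i x) = x := LinearMap.congr_fun e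
    have e2 : ∀ x, π' (i' x) = x := LinearMap.congr_fun e'
    let S := LinearEquiv.sumArrowLequivProdArrow l (Fin n) A A
    let I : Q →ₗ[A] l ⊕ Fin n → A := S.symm.toLinearMap ∘ₗ (i' ∘ₗ r).prod (i ∘ₗ p)
    let Pr : (l ⊕ Fin n → A) →ₗ[A] Q :=
      ((LinearMap.ker p).subtype ∘ₗ π').coprod (s ∘ₗ π) ∘ₗ S.toLinearMap
    have z2 := Z'.move (T := T) (j := LinearMap.id) (ν' := N) (ch_zero k Q N h4) I Pr
      (LinearMap.ext fun x => by simp [I, Pr, e1, e2, r])
    have a1 : ∀ b : l, Pr (Pi.single (.inl b) 1) = (π' (Pi.single b 1)).1 := fun b => by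
      have : S (Pi.single (.inl b) 1) = (Pi.single b 1, 0) := by
        ext a <;> simp [S, Pi.single_apply]
      simp [Pr, this]
    have a2 : ∀ b : Fin n, Pr (Pi.single (.inr b) 1) = s (π (Pi.single b 1)) := fun b => by
      have : S (Pi.single (.inr b) 1) = (0, Pi.single b 1) := by
        ext a <;> simp [S, Pi.single_apply]
      simp [Pr, this]
    refine ⟨_, inferInstance, inferInstance, i, π, e, T.tri _
      (toMatrix' (I ∘ₗ (LinearMap.id ∘ₗ N) ∘ₗ Pr)).toBlocks₁₂ _ ?_ z1⟩
    convert z2 using 1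
    ext (a | a) (b | b)
    · simp [toMatrix'_apply, a1, I, S, ← h3, hr]
    · rfl
    · simp [toMatrix'_apply, a1, I, S, h2']
    · simp [toMatrix'_apply, a2, I, S, h2', hs']

theorem nil [IsNoetherianRing A] {m : ℕ} (h : GD A m) {n : Type} [Fintype n] [DecidableEq n]
    {Y : Matrix n n A} (hY : IsNilpotent Y) : T.Z Y := by
  obtain ⟨k, hk⟩ := hY
  have := Z'.move (j := LinearMap.id) (ν' := toLin' Y) (ch_all (T := T) m k _ _
    (ch_of_nil h k _ (toLin' Y) (by rw [← toLin'_pow, pow_succ, hk, zero_mul, map_zero])))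
    LinearMap.id LinearMap.id rfl
  simpa using this

end Triv

end Pool.Agent.Lib.MP_2add11_gt.IG
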