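import Mathlib

/-! Potentials on trees. -/

namespace Pool.Agent.Lib.MP_2add11_gt.IG

open SimpleGraph

variable {V C : Type} [Group C] {T : SimpleGraph V}

/-- product of the edge labels along a walk -/
def wprod (u : V → V → C) : ∀ {x y : V}, T.Walk x y → C
  | _, _, .nil => 1
  | _, _, .cons (u := x) (v := z) _ p => u x z * wprod u p

theorem wprod_concat (u : V → V → C) {x y z : V} (p : T.Walk x y) (h : T.Adj y z) :
    wprod u (p.concat h) = wprod u p * u y z := by
  induction p with
  | nil => simp [Walk.concat, wprod]
  | cons h' p ih => rw [Walk.concat_cons, wprod, wprod, ih, mul_assoc]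

/-- labels that invert under reversal come from a potential, normalised at a base point -/
theorem tree_pot' (hT : T.IsTree) (u : V → V → C) (hu : ∀ x y, T.Adj x y → u x y * u y x = 1)
    (v0 : V) : ∃ om : V → C, om v0 = 1 ∧ ∀ x y, T.Adj x y → om y = om x * u x y := by
  classical
  choose p hp hq using fun x => hT.existsUnique_path v0 x
  refine ⟨fun x => wprod u (p x), ?_, fun x y h => ?_⟩
  · show wprod u (p v0) = 1
    rw [← hq v0 .nil Walk.IsPath.nil]
    rfl
  · by_cases hy : y ∈ (p x).support
    · have e := hT.isAcyclic.path_concat (hp y) (hp x) h.symm hy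
      show wprod u (p y) = wprod u (p x) * u x y
      rw [e, wprod_concat, mul_assoc, hu y x h.symm, mul_one]
    · show wprod u (p y) = wprod u (p x) * u x y
      rw [← hq y ((p x).concat h) ((hp x).concat hy h), wprod_concat]

theorem tree_pot (hT : T.IsTree) (u : V → V → C) (hu : ∀ x y, T.Adj x y → u x y * u y x = 1) :
    ∃ om : V → C, ∀ x y, T.Adj x y → om y = om x * u x y := by
  obtain ⟨v0⟩ := hT.connected.nonempty
  obtain ⟨om, -, h⟩ := tree_pot' hT u hu v0
  exact ⟨om, h⟩

/-- two potentials of the same labels differ by a constant left factor -/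
theorem pot_unique (hT : T.Preconnected) {u : V → V → C} {a b : V → C}
    (ha : ∀ x y, T.Adj x y → a y = a x * u x y) (hb : ∀ x y, T.Adj x y → b y = b x * u x y)
    (x y : V) : (a x)⁻¹ * a y = (b x)⁻¹ * b y := by
  obtain ⟨p⟩ := hT x y
  induction p with
  | nil => simp
  | @cons x z y h p ih =>
    rw [ha x z h, hb x z h] at ih
    simp only [mul_inv_rev, mul_assoc] at ih
    exact mul_left_cancel ih

end Pool.Agent.Lib.MP_2add11_gt.IG
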