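import Pool.Agent.Lib.MP_2add11_gt.IG.ProdNil

/-!
Closure of the algebraic model under inverses for the product of a free product with a finite
group.
-/

noncomputable section

namespace Pool.Agent.Lib.MP_2add11_gt.IG

open Matrix MonoidAlgebra Monoid FG

variable {K W F : Type} [Fintype K] [DecidableEq K] {G : K → Type} [∀ i, Group (G i)]
  [AddCommGroup W] [Group F]

theorem hom_ext3 {R S H : Type} [Ring R] [Ring S] [Group H] {f g : MonoidAlgebra R H →+* S}
    (h : ∀ x a, f (single x a) = g (single x a)) (x : MonoidAlgebra R H) : f x = g x := by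
  induction x using MonoidAlgebra.induction_linear with
  | zero => simp
  | add a b ha hb => rw [map_add, map_add, ha, hb]
  | single x a => exact h x a

def eeR (R : Type) [Ring R] (G : K → Type) [∀ i, Group (G i)] (i : K) :
    MonoidAlgebra R (CoprodI G) →+* MonoidAlgebra R (CoprodI G) :=
  mapDomainRingHom R (CoprodI.of.comp (retr i))

def epsR (R : Type) [Ring R] (H : Type) [Group H] : MonoidAlgebra R H →+* MonoidAlgebra R H :=
  mapDomainRingHom R 1

omit [Fintype K] in
theorem eeR_single {R : Type} [Ring R] (i : K) (g : CoprodI G) (a : R) :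
    eeR R G i (single g a) = single (CoprodI.of (retr i g)) a := by simp [eeR]

theorem epsR_single {R H : Type} [Ring R] [Group H] (g : H) (a : R) :
    epsR R H (single g a) = single 1 a := by simp [epsR]

omit [Fintype K] in
theorem eeR_sub {R : Type} [Ring R] (i : K) (x : MonoidAlgebra R (CoprodI G)) :
    (∀ γ, (eeR R G i x - epsR R _ x).coeff γ ≠ 0 → ∃ g : G i, γ = CoprodI.of g) ∧
      ((eeR R G i x - epsR R _ x).coeff.sum fun _ a => a) = 0 := by
  classical
  induction x using MonoidAlgebra.induction_linear with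
  | zero => simp
  | add a b ha hb =>
    have e : eeR R G i (a + b) - epsR R _ (a + b) =
        (eeR R G i a - epsR R _ a) + (eeR R G i b - epsR R _ b) := by
      rw [map_add, map_add]
      abel
    rw [e, coeff_add]
    refine ⟨fun γ h => ?_, ?_⟩
    · by_cases h1 : (eeR R G i a - epsR R _ a).coeff γ = 0
      · rw [Finsupp.add_apply, h1, zero_add] at h
        exact hb.1 γ h
      · exact ha.1 γ h1
    · rw [Finsupp.sum_add_index' (fun _ => rfl) (fun _ _ _ => rfl), ha.2, hb.2, add_zero]
  | single g a =>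
    rw [eeR_single, epsR_single, coeff_sub, coeff_single, coeff_single]
    refine ⟨fun γ h => ?_, ?_⟩
    · by_cases h1 : CoprodI.of (retr i g) = γ
      · exact ⟨_, h1.symm⟩
      · by_cases h2 : 1 = γ
        · exact ⟨1, by rw [map_one, h2]⟩
        · simp [h1, h2] at h
    · rw [Finsupp.sum_sub_index (fun _ _ _ => rfl)]
      simp

theorem stallings_tors [Finite F] (c : Inv (MonoidAlgebra (MonoidAlgebra ℤ F) (CoprodI G)) W)
    (h0 : ∀ (n : Type) [Fintype n] [DecidableEq n]
      (A : Matrix n n (MonoidAlgebra (MonoidAlgebra ℤ F) (CoprodI G))),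
      IsUnit A → c.c (A.map (epsR _ _)) = 0)
    (h1 : ∀ i (n : Type) [Fintype n] [DecidableEq n]
      (A : Matrix n n (MonoidAlgebra (MonoidAlgebra ℤ F) (CoprodI G))),
      IsUnit A → c.c (A.map (eeR _ G i)) = 0)
    {n : Type} [Fintype n] [DecidableEq n]
    {A : Matrix n n (MonoidAlgebra (MonoidAlgebra ℤ F) (CoprodI G))} (hA : IsUnit A) :
    IsOfFinAddOrder (c.c A) := by
  let S : Submodule ℤ (MonoidAlgebra (MonoidAlgebra ℤ F) (CoprodI G)) :=
    { carrier := {x | x = epsR _ _ x + ∑ k, (eeR _ G k x - epsR _ _ x)}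
      zero_mem' := by simp
      add_mem' := fun {a b} ha hb => by
        change a = _ at ha
        change b = _ at hb
        change a + b = _
        conv_lhs => rw [ha, hb]
        simp only [map_add, Finset.sum_sub_distrib, Finset.sum_add_distrib]
        abel
      smul_mem' := fun k a ha => by
        change a = _ at ha
        change k • a = _
        conv_lhs => rw [ha]
        simp only [map_zsmul, smul_add, Finset.smul_sum, smul_sub] }
  have s0 : ∀ a : MonoidAlgebra ℤ F, single (1 : CoprodI G) a ∈ S := fun a => by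
    change _ = _
    simp [eeR_single, epsR_single]
  have s1 : (1 : MonoidAlgebra (MonoidAlgebra ℤ F) (CoprodI G)) ∈ S := s0 1
  have s2 : ∀ i (g : G i), single (CoprodI.of g) (1 : MonoidAlgebra ℤ F) ∈ S := fun i g => by
    change _ = _
    rw [Finset.sum_eq_single i (fun k _ hk => by
      rw [eeR_single, epsR_single, retr_ne hk.symm, map_one, sub_self]) (by simp), eeR_single,
      retr_same, add_sub_cancel]
  have s3 : ∀ (g : CoprodI G) (a : MonoidAlgebra ℤ F), ∃ k, single g a ∈ S ^ k := fun g a => by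
    induction g using CoprodI.induction_left with
    | one => exact ⟨1, by rw [pow_one]; exact s0 a⟩
    | mul m x ih =>
      obtain ⟨k, hk⟩ := ih
      refine ⟨k + 1, ?_⟩
      rw [pow_succ', ← one_mul a, ← single_mul_single]
      exact Submodule.mul_mem_mul (s2 _ m) hk
  let d := c.map (QuotientAddGroup.mk' (AddCommGroup.torsion W))
  have hd : ∀ {n : Type} (A : Matrix n n (MonoidAlgebra (MonoidAlgebra ℤ F) (CoprodI G))),
      d.c A = 0 ↔ IsOfFinAddOrder (c.c A) := fun A => QuotientAddGroup.eq_zero_iff _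
  refine (hd A).1 (higman d S s1 (fun x => ?_) (fun n _ _ A hA hS => block_step d (eeR _ G)
    (epsR _ _) (hom_ext3 (f := (epsR _ (CoprodI G)).comp (epsR _ (CoprodI G)))
      (g := epsR _ (CoprodI G)) fun x a => by simp [epsR_single])
    (fun i => hom_ext3 (f := (eeR _ G i).comp (epsR _ (CoprodI G))) (g := epsR _ (CoprodI G))
      fun x a => by simp [epsR_single, eeR_single])
    (fun n _ _ A hA => (hd _).2 (h0 n A hA ▸ .zero))
    (fun i n _ _ A hA => (hd _).2 (h1 i n A hA ▸ .zero))
    (fun n _ _ col N g1 g2 g3 => (hd _).2 (coloured_tors c col N (fun p q => ?_) (fun p q => ?_)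
      g2 g3)) hA hS) hA)
  · induction x using MonoidAlgebra.induction_linear with
    | zero => exact ⟨0, zero_mem _⟩
    | add a b ha hb =>
      obtain ⟨k, hk⟩ := ha
      obtain ⟨l, hl⟩ := hb
      exact ⟨max k l, add_mem (pow_mono s1 (le_max_left _ _) hk) (pow_mono s1 (le_max_right _ _) hl)⟩
    | single g a => exact s3 g a
  · obtain ⟨x, hx⟩ := g1 p q
    rw [hx]
    exact (eeR_sub _ x).1
  · obtain ⟨x, hx⟩ := g1 p q
    rw [hx]
    exact (eeR_sub _ x).2

theorem split_tors [Finite F] (c : Inv (MonoidAlgebra (MonoidAlgebra ℤ F) (CoprodI G)) W)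
    {n : Type} [Fintype n] [DecidableEq n]
    {A : Matrix n n (MonoidAlgebra (MonoidAlgebra ℤ F) (CoprodI G))} (hA : IsUnit A) :
    IsOfFinAddOrder (c.c A - (c.c (A.map (epsR _ _)) +
      ∑ i, (c.c (A.map (eeR _ G i)) - c.c (A.map (epsR _ _))))) := by
  let d : Inv (MonoidAlgebra (MonoidAlgebra ℤ F) (CoprodI G)) W :=
    { c := fun A => c.c A - ((c.pull (epsR _ _)).c A +
        ∑ i, ((c.pull (eeR _ G i)).c A - (c.pull (epsR _ _)).c A))
      mul := fun hA hB => by
        simp only [c.mul hA hB, (c.pull _).mul hA hB, Finset.sum_sub_distrib,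
          Finset.sum_add_distrib]
        abel
      sub := fun e _ hA => by simp only [c.sub e hA, (c.pull _).sub e hA]
      stab := fun hA => by simp only [c.stab hA, (c.pull _).stab hA] }
  have m : ∀ {f g h : MonoidAlgebra (MonoidAlgebra ℤ F) (CoprodI G) →+*
      MonoidAlgebra (MonoidAlgebra ℤ F) (CoprodI G)},
      (∀ x a, g (f (single x a)) = h (single x a)) → ∀ {n : Type}
      (A : Matrix n n (MonoidAlgebra (MonoidAlgebra ℤ F) (CoprodI G))),
      (A.map f).map g = A.map h := by
    intro f g h hh n A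
    ext1 i j
    exact hom_ext3 (f := g.comp f) hh _
  refine stallings_tors d (fun n _ _ A _ => ?_) (fun i n _ _ A _ => ?_) hA
  · change c.c _ - (c.c ((A.map (epsR _ _)).map (epsR _ _)) + ∑ i,
      (c.c ((A.map (epsR _ _)).map (eeR _ G i)) - c.c ((A.map (epsR _ _)).map (epsR _ _)))) = 0
    rw [m (h := epsR _ _) (by simp [epsR_single]), Finset.sum_eq_zero fun j _ => by
      rw [m (h := epsR _ _) (by simp [epsR_single, eeR_single]), sub_self]]
    simp
  · change c.c _ - (c.c ((A.map (eeR _ G i)).map (epsR _ _)) + ∑ j,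
      (c.c ((A.map (eeR _ G i)).map (eeR _ G j)) - c.c ((A.map (eeR _ G i)).map (epsR _ _)))) = 0
    rw [m (h := epsR _ _) (by simp [epsR_single, eeR_single]), Finset.sum_eq_single i
      (fun j _ hj => by
        rw [m (h := epsR _ _) (by simp [epsR_single, eeR_single, retr_ne hj.symm]), sub_self])
      (by simp), m (h := eeR _ G i) (by simp [eeR_single, retr_same])]
    simp

omit [DecidableEq K] in
theorem NegCl.coprodI_prod [Finite F] (h : ∀ i, NegCl (G i × F)) : NegCl (CoprodI G × F) := by
  classical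
  rintro W _ c _ ⟨ι, _, _, r, h1, h2, rfl⟩
  let Φ : MonoidAlgebra ℤ (CoprodI G × F) ≃+* MonoidAlgebra (MonoidAlgebra ℤ F) (CoprodI G) :=
    curryRingEquiv
  have m : ∀ {e : MonoidAlgebra (MonoidAlgebra ℤ F) (CoprodI G) →+*
      MonoidAlgebra (MonoidAlgebra ℤ F) (CoprodI G)} {f : CoprodI G × F →* CoprodI G × F},
      (∀ x y a, e (single x (single y a)) = single (f (x, y)).1 (single (f (x, y)).2 a)) →
      (c.pull Φ.symm.toRingHom).c (((jac r).map Φ.toRingHom).map e) =
        c.c ((jac r).map (mapDomainRingHom ℤ f)) := by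
    intro e f hf
    refine congrArg c.c ?_
    ext1 i j
    refine hom_ext3 (f := Φ.symm.toRingHom.comp (e.comp Φ.toRingHom))
      (g := mapDomainRingHom ℤ f) (fun x a => ?_) (jac r i j)
    obtain ⟨x, y⟩ := x
    simp [Φ, hf]
  have t := split_tors (c.pull Φ.symm.toRingHom) (h2.map Φ.toRingHom.mapMatrix)
  have e0 : (c.pull Φ.symm.toRingHom).c (Φ.toRingHom.mapMatrix (jac r)) = c.c (jac r) := by
    refine congrArg c.c ?_
    ext1 i j
    exact Φ.symm_apply_apply _
  have k0 : (c.pull Φ.symm.toRingHom).c ((Φ.toRingHom.mapMatrix (jac r)).map (epsR _ _)) ∈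
      symm c := by
    rw [RingHom.mapMatrix_apply, m (f := (MonoidHom.inr _ F).comp (MonoidHom.snd _ F))
      (by simp [epsR_single])]
    exact (NegCl.finite F).via c _ _ h1 h2
  have k1 : ∀ i, (c.pull Φ.symm.toRingHom).c
      ((Φ.toRingHom.mapMatrix (jac r)).map (eeR _ G i)) ∈ symm c := fun i => by
    rw [RingHom.mapMatrix_apply, m (f := (MonoidHom.prodMap CoprodI.of (MonoidHom.id F)).comp
      (MonoidHom.prodMap (retr i) (MonoidHom.id F))) (by simp [eeR_single])]
    exact (h i).via c _ _ h1 h2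
  obtain ⟨k, hk, hz⟩ := isOfFinAddOrder_iff_nsmul_eq_zero.1 t
  rw [e0, nsmul_sub, sub_eq_zero] at hz
  refine neg_mem_of hk ⟨ι, _, _, r, h1, h2, rfl⟩ ?_
  rw [hz]
  exact ((symm c).nsmul_mem (add_mem k0 (sum_mem fun i _ => sub_mem (k1 i) k0)) k).2

omit [DecidableEq K] in
theorem NegCl.prod_coprodI [Finite F] (h : ∀ i, NegCl (F × G i)) : NegCl (F × CoprodI G) :=
  (NegCl.coprodI_prod fun i => (h i).equiv MulEquiv.prodComm).equiv MulEquiv.prodComm

end Pool.Agent.Lib.MP_2add11_gt.IG
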