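import Pool.Agent.Lib.MP_2add11_gt.IG.StMain
import Pool.Agent.Lib.MP_2add11_gt.IG.Nil

/-!
Coloured matrices over the group ring of a free product with coefficients in any ring: if `1 - N`
is invertible, the coefficient matrices of `N` generate a nilpotent ring.
-/

noncomputable section

namespace Pool.Agent.Lib.MP_2add11_gt.IG

open Matrix MonoidAlgebra Monoid FG

section Kill

variable {A : Type} [Ring A]

/-- The elements killed from the left by the `j`-th power of `J`. -/
def Kl (J : Submodule ℤ A) (j : ℕ) : AddSubgroup A where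
  carrier := {X | ∀ Y ∈ J ^ j, Y * X = 0}
  zero_mem' := fun Y _ => mul_zero Y
  add_mem' := fun ha hb Y hY => by rw [mul_add, ha Y hY, hb Y hY, add_zero]
  neg_mem' := fun ha Y hY => by rw [mul_neg, ha Y hY, neg_zero]

theorem Kl_left {J : Submodule ℤ A} {j : ℕ} {X Z : A} (hX : X ∈ Kl J j) (hZ : Z ∈ J) :
    Z * X ∈ Kl J j := by
  intro Y hY
  have h : Y * Z ∈ J * J ^ j := by
    rw [← pow_succ', pow_succ]
    exact Submodule.mul_mem_mul hY hZ
  rw [← mul_assoc]
  refine Submodule.mul_induction_on h (fun a _ b hb => ?_) fun a b ha hb => ?_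
  · rw [mul_assoc, hX b hb, mul_zero]
  · rw [add_mul, ha, hb, add_zero]

theorem Kl_step {s : Set A} {j : ℕ} {X : A}
    (h : ∀ Z ∈ s, Z * X ∈ Kl (Submodule.span ℤ s) j) : X ∈ Kl (Submodule.span ℤ s) (j + 1) := by
  intro Y hY
  rw [pow_succ] at hY
  refine Submodule.mul_induction_on hY (fun a ha b hb => ?_) fun a b ha hb => ?_
  · have : b * X ∈ Kl (Submodule.span ℤ s) j := by
      induction hb using Submodule.span_induction with
      | mem Z hZ => exact h Z hZ
      | zero => rw [zero_mul]; exact zero_mem _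
      | add u v _ _ p q => rw [add_mul]; exact add_mem p q
      | smul k u _ p => rw [smul_mul_assoc]; exact zsmul_mem p k
    rw [mul_assoc]
    exact this a ha
  · rw [add_mul, ha, hb, add_zero]

theorem exists_nil_ring (J : Submodule ℤ A) {m : ℕ} (h : J ^ (m + 1) = ⊥) :
    ∃ J' : Submodule ℤ A, J ≤ J' ∧ J' * J' ≤ J' ∧ J' ^ (m + 1) = ⊥ := by
  have key : ∀ j, (⨆ k, J ^ (k + 1)) ^ (j + 1) ≤ ⨆ k, J ^ (k + (j + 1)) := fun j => by
    induction j with
    | zero => simp
    | succ j ih =>
      rw [pow_succ]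
      refine (mul_le_mul_left ih _).trans ?_
      rw [Submodule.iSup_mul]
      refine iSup_le fun a => ?_
      rw [Submodule.mul_iSup]
      refine iSup_le fun b => le_iSup_of_le (a + b) (le_of_eq ?_)
      rw [← pow_add]
      congr 1
      omega
  refine ⟨⨆ k, J ^ (k + 1), le_iSup_of_le 0 (by simp), ?_, eq_bot_iff.2 ((key m).trans ?_)⟩
  · rw [← pow_two]
    exact (key 1).trans (iSup_le fun k => le_iSup_of_le (k + 1) le_rfl)
  · refine iSup_le fun k => ?_
    rw [pow_add, h, Submodule.mul_bot]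

end Kill

variable {K : Type} {G : K → Type} [∀ i, Group (G i)]

theorem len_pos {w : CoprodI G} (h : w ≠ 1) : 0 < len w := by
  classical
  rw [Nat.pos_iff_ne_zero]
  intro e
  apply h
  apply (CoprodI.Word.equiv (M := G)).injective
  apply CoprodI.Word.ext
  rw [List.length_eq_zero_iff.1 e, List.length_eq_zero_iff.1 (len_one (G := G))]

theorem len_second {w : CoprodI G} {c c' : K} {g : G c} (hg : g ≠ 1)
    (h : len w < len (CoprodI.of g * w)) (hc : c' ≠ c) {x : G c'} (hx : x ≠ 1) :
    len (CoprodI.of g * w) < len (CoprodI.of x * (CoprodI.of g * w)) := by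
  obtain ⟨c0, -, h0⟩ := exists_first (CoprodI.of g * w) c
  by_cases e : c = c0
  · exact h0 c' (e ▸ hc) x hx
  · have := h0 c e g⁻¹ (inv_ne_one.2 hg)
    rw [map_inv, inv_mul_cancel_left] at this
    omega

theorem col_unique {c c' : K} {g : G c} (hg : g ≠ 1) {x : G c'}
    (h : (CoprodI.of g : CoprodI G) = CoprodI.of x) : c = c' := by
  classical
  by_contra e
  have := congrArg (retr c) h
  rw [retr_same, retr_ne (Ne.symm e)] at this
  exact hg this

variable {R n : Type} [Ring R] [Fintype n] [DecidableEq n]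

/-- The matrix of the coefficients at a group element. -/
def cfm {H : Type} (w : H) : Matrix n n (MonoidAlgebra R H) →+ Matrix n n R where
  toFun X := .of fun p q => (X p q).coeff w
  map_zero' := by ext; simp
  map_add' X Y := by ext; simp

omit [Fintype n] [DecidableEq n] in
theorem cfm_apply {H : Type} (w : H) (X : Matrix n n (MonoidAlgebra R H)) (p q : n) :
    cfm w X p q = (X p q).coeff w := rfl

theorem cfm_mul {H : Type} [Group H] (w γ : H) (X : Matrix n n R)
    (U : Matrix n n (MonoidAlgebra R H)) :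
    cfm w ((singleOneRingHom : R →+* MonoidAlgebra R H).mapMatrix X *
      scalar n (single γ 1 - 1) * U) = X * (cfm (γ⁻¹ * w) U - cfm w U) := by
  ext p q
  rw [cfm_apply, Matrix.mul_apply, Matrix.mul_apply, coeff_sum, Finsupp.finsetSum_apply]
  refine Finset.sum_congr rfl fun r _ => ?_
  rw [scalar_apply, mul_diagonal]
  change ((single 1 (X p r) * (single γ 1 - 1)) * U r q).coeff w =
    X p r * ((U r q).coeff (γ⁻¹ * w) - (U r q).coeff w)
  rw [mul_sub, mul_one, single_mul_single, one_mul, mul_one, sub_mul, coeff_sub,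
    Finsupp.sub_apply, coeff_single_mul_apply, coeff_single_mul_apply, inv_one, one_mul, mul_sub]

theorem expand {H : Type} [Group H] (N : Matrix n n (MonoidAlgebra R H))
    (hb : ∀ p q, ((N p q).coeff.sum fun _ a => a) = 0) :
    ∃ T : Finset H, (∀ γ ∈ T, γ ≠ 1 ∧ ∃ p q, (N p q).coeff γ ≠ 0) ∧
      (∀ γ, γ ≠ 1 → γ ∉ T → cfm γ N = 0) ∧
      N = ∑ γ ∈ T, (singleOneRingHom : R →+* MonoidAlgebra R H).mapMatrix (cfm γ N) *
        scalar n (single γ 1 - 1) := by
  classical
  let T0 : Finset H := Finset.univ.biUnion fun p : n × n => (N p.1 p.2).coeff.support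
  have hT : ∀ p q, (N p q).coeff.support ⊆ T0 := fun p q γ hγ =>
    Finset.mem_biUnion.2 ⟨(p, q), Finset.mem_univ _, hγ⟩
  refine ⟨T0.erase 1, fun γ hγ => ?_, fun γ h1 h2 => ?_, ?_⟩
  · obtain ⟨h1, h2⟩ := Finset.mem_erase.1 hγ
    obtain ⟨p, -, hp⟩ := Finset.mem_biUnion.1 h2
    exact ⟨h1, p.1, p.2, Finsupp.mem_support_iff.1 hp⟩
  · ext p q
    by_contra h
    exact h2 (Finset.mem_erase.2 ⟨h1, hT p q (Finsupp.mem_support_iff.2 h)⟩)
  · rw [Finset.sum_erase _ (by simp [MonoidAlgebra.one_def])]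
    ext1 p q
    have e1 : N p q = ∑ γ ∈ T0, single γ ((N p q).coeff γ) := by
      conv_lhs => rw [← sum_coeff_single (N p q)]
      exact Finsupp.sum_of_support_subset _ (hT p q) _ (by simp)
    have e2 : ∑ γ ∈ T0, (N p q).coeff γ = 0 := by
      rw [← hb p q]
      exact (Finsupp.sum_of_support_subset _ (hT p q) (fun _ a => a) fun _ _ => rfl).symm
    have e3 : ∑ γ ∈ T0, (single 1 ((N p q).coeff γ) : MonoidAlgebra R H) = 0 := by
      have := map_sum (singleAddHom (1 : H)) (fun γ => (N p q).coeff γ) T0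
      rw [e2, map_zero] at this
      exact this.symm
    rw [Matrix.sum_apply]
    have e4 : ∀ γ : H, ((singleOneRingHom : R →+* MonoidAlgebra R H).mapMatrix (cfm γ N) *
        scalar n (MonoidAlgebra.single γ 1 - 1) : Matrix n n (MonoidAlgebra R H)) p q =
          MonoidAlgebra.single γ ((N p q).coeff γ) -
            MonoidAlgebra.single 1 ((N p q).coeff γ) := fun γ => by
      rw [scalar_apply, mul_diagonal]
      change MonoidAlgebra.single 1 ((N p q).coeff γ) * (MonoidAlgebra.single γ 1 - 1) = _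
      rw [mul_sub, mul_one, single_mul_single, one_mul, mul_one]
    rw [Finset.sum_congr rfl fun γ _ => e4 γ, Finset.sum_sub_distrib, ← e1, e3, sub_zero]

theorem coeff_nil (col : n → K) (N : Matrix n n (MonoidAlgebra R (CoprodI G)))
    (ha : ∀ p q γ, (N p q).coeff γ ≠ 0 → ∃ g : G (col p), γ = CoprodI.of g)
    (hb : ∀ p q, ((N p q).coeff.sum fun _ a => a) = 0)
    (hc : ∀ p q, col p = col q → N p q = 0) (hu : IsUnit (1 - N)) :
    ∃ m, Submodule.span ℤ {X | ∃ γ, γ ≠ 1 ∧ X = cfm γ N} ^ (m + 1) = ⊥ := by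
  classical
  obtain ⟨U, hU⟩ := hu.exists_right_inv
  obtain ⟨T, hT, hT', hN⟩ := expand N hb
  set J := Submodule.span ℤ {X | ∃ γ, γ ≠ 1 ∧ X = cfm γ N} with hJ
  have hmem : ∀ γ, γ ≠ 1 → cfm γ N ∈ J := fun γ h => Submodule.subset_span ⟨γ, h, rfl⟩
  have hrec : ∀ w, cfm w U = cfm w 1 + ∑ γ ∈ T, cfm γ N * (cfm (γ⁻¹ * w) U - cfm w U) := fun w => by
    have e : U = 1 + N * U := by rw [← hU, sub_mul, one_mul, sub_add_cancel]
    have e' : cfm w (N * U) = ∑ γ ∈ T, cfm γ N * (cfm (γ⁻¹ * w) U - cfm w U) := by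
      rw [congrArg (· * U) hN, Finset.sum_mul, map_sum]
      exact Finset.sum_congr rfl fun γ _ => cfm_mul w γ _ U
    rw [← e', ← map_add, ← e]
  have hone : ∀ w : CoprodI G, w ≠ 1 → cfm w (1 : Matrix n n (MonoidAlgebra R (CoprodI G))) = 0 :=
    fun w hw => by
      ext p q
      by_cases h : p = q <;> simp [cfm_apply, h, MonoidAlgebra.one_def, hw.symm]
  have hlet : ∀ γ ∈ T, ∃ (c : K) (g : G c), g ≠ 1 ∧ γ = CoprodI.of g := fun γ hγ => by
    obtain ⟨h1, p, q, h2⟩ := hT γ hγ
    obtain ⟨g, rfl⟩ := ha p q γ h2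
    exact ⟨_, g, fun e => h1 (by rw [e, map_one]), rfl⟩
  have hzero : ∀ (c : K) (g x : G c), g ≠ 1 → x ≠ 1 →
      cfm (CoprodI.of g) N * cfm (CoprodI.of x) N = 0 := fun c g x hg hx => by
    ext p r
    rw [Matrix.mul_apply]
    refine Finset.sum_eq_zero fun q _ => ?_
    by_cases h1 : (N p q).coeff (CoprodI.of g) = 0
    · rw [cfm_apply, h1, zero_mul]
    by_cases h2 : (N q r).coeff (CoprodI.of x) = 0
    · rw [cfm_apply (p := q), h2, mul_zero]
    obtain ⟨g', e1⟩ := ha p q _ h1
    obtain ⟨x', e2⟩ := ha q r _ h2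
    rw [hc p q ((col_unique hg e1).symm.trans (col_unique hx e2))] at h1
    exact absurd rfl h1
  let L : ℕ := (Finset.univ.biUnion fun p : n × n => (U p.1 p.2).coeff.support).sup len
  have key : ∀ j w, L < len w + j → cfm w U ∈ Kl J j := fun j => by
    induction j with
    | zero =>
      intro w hw
      have : cfm w U = 0 := by
        ext p q
        by_contra h
        have := Finset.le_sup (f := len) (Finset.mem_biUnion.2
          ⟨(p, q), Finset.mem_univ _, Finsupp.mem_support_iff.2 h⟩ :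
            w ∈ Finset.univ.biUnion fun p : n × n => (U p.1 p.2).coeff.support)
        omega
      rw [this]
      exact zero_mem _
    | succ j ih =>
      intro w hw
      have ih' : ∀ v, len w < len v → cfm v U ∈ Kl J j := fun v hv => ih v (by omega)
      have cA : ∀ (c : K), (∀ x : G c, x ≠ 1 → len w < len (CoprodI.of x * w)) →
          ∀ g : G c, g ≠ 1 → cfm (CoprodI.of g) N * cfm w U ∈ Kl J j := fun c hcw g hg => by
        by_cases hgT : CoprodI.of g ∈ T
        swap
        · rw [hT' _ (fun e => hg (CoprodI.of_injective c (by rw [e, map_one]))) hgT, zero_mul]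
          exact zero_mem _
        have h1 := hcw g hg
        have h2 := ih' _ h1
        have h3 := hrec (CoprodI.of g * w)
        rw [hone _ (fun e => by rw [e, len_one] at h1; omega), zero_add,
          ← Finset.add_sum_erase _ _ hgT, inv_mul_cancel_left, mul_sub] at h3
        have h4 : ∑ γ ∈ T.erase (CoprodI.of g), cfm γ N *
            (cfm (γ⁻¹ * (CoprodI.of g * w)) U - cfm (CoprodI.of g * w) U) ∈ Kl J j := by
          refine sum_mem fun γ hγ => ?_
          obtain ⟨h5, h6⟩ := Finset.mem_erase.1 hγ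
          refine Kl_left (sub_mem (ih' _ ?_) h2) (hmem γ (hT γ h6).1)
          obtain ⟨c', x, hx, rfl⟩ := hlet γ h6
          by_cases e : c' = c
          · subst e
            rw [← mul_assoc, ← map_inv, ← map_mul]
            exact hcw _ fun e => h5 (by rw [inv_mul_eq_one.1 e])
          · rw [← map_inv]
            exact h1.trans (len_second hg h1 e (inv_ne_one.2 hx))
        have h7 := add_mem (sub_mem h2 h4) (Kl_left h2 (hmem _ (hT _ hgT).1))
        rwa [sub_eq_iff_eq_add.2 h3, sub_add_cancel] at h7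
      refine Kl_step ?_
      rintro _ ⟨γ, h1, rfl⟩
      by_cases hγ : γ ∈ T
      swap
      · rw [hT' γ h1 hγ, zero_mul]
        exact zero_mem _
      obtain ⟨c, g, hg, rfl⟩ := hlet γ hγ
      by_cases hw1 : w = 1
      · refine cA c (fun x hx => ?_) g hg
        rw [hw1, len_one, mul_one]
        exact len_pos fun e => hx (CoprodI.of_injective c (by rw [e, map_one]))
      obtain ⟨c0, -, h0⟩ := exists_first w c
      by_cases e : c = c0
      swap
      · exact cA c (h0 c e) g hg
      rw [hrec w, hone w hw1, zero_add, Finset.mul_sum]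
      refine sum_mem fun η hη => ?_
      obtain ⟨c', x, hx, rfl⟩ := hlet η hη
      by_cases e' : c' = c
      · subst e'
        rw [← mul_assoc, hzero _ g x hg hx, zero_mul]
        exact zero_mem _
      · have h2 := h0 c' (e ▸ e')
        refine Kl_left ?_ (hmem _ h1)
        rw [mul_sub]
        refine sub_mem (Kl_left (ih' _ ?_) (hmem _ (hT _ hη).1)) (cA c' h2 x hx)
        rw [← map_inv]
        exact h2 _ (inv_ne_one.2 hx)
  have all : ∀ w, cfm w U ∈ Kl J (L + 1) := fun w => key _ w (by omega)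
  have h1 : cfm (1 : CoprodI G) (1 : Matrix n n (MonoidAlgebra R (CoprodI G))) = 1 := by
    ext p q
    by_cases h : p = q <;> simp [cfm_apply, h, MonoidAlgebra.one_def, Matrix.one_apply]
  have h2 : (1 : Matrix n n R) ∈ Kl J (L + 1) := by
    rw [← h1, ← sub_eq_iff_eq_add.2 (hrec 1)]
    exact sub_mem (all 1) (sum_mem fun γ hγ =>
      Kl_left (sub_mem (all _) (all _)) (hmem γ (hT γ hγ).1))
  refine ⟨L, eq_bot_iff.2 fun Y hY => ?_⟩
  rw [Submodule.mem_bot, ← mul_one Y]
  exact h2 Y hY

theorem coloured_tors {F W : Type} [Group F] [Finite F] [AddCommGroup W]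
    (c : Inv (MonoidAlgebra (MonoidAlgebra ℤ F) (CoprodI G)) W) (col : n → K)
    (N : Matrix n n (MonoidAlgebra (MonoidAlgebra ℤ F) (CoprodI G)))
    (ha : ∀ p q γ, (N p q).coeff γ ≠ 0 → ∃ g : G (col p), γ = CoprodI.of g)
    (hb : ∀ p q, ((N p q).coeff.sum fun _ a => a) = 0)
    (hc : ∀ p q, col p = col q → N p q = 0) (hu : IsUnit (1 - N)) :
    IsOfFinAddOrder (c.c (1 - N)) := by
  obtain ⟨m, hm⟩ := coeff_nil col N ha hb hc hu
  obtain ⟨J, h1, h2, h3⟩ := exists_nil_ring _ hm
  obtain ⟨T, hT, -, hN⟩ := expand N hb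
  rw [sub_eq_add_neg]
  refine (nil_tors singleOneRingHom c m J h2 h3 _ (neg_mem ?_)).2
  rw [hN]
  refine sum_mem fun γ hγ => Submodule.subset_span ⟨_, h1 (Submodule.subset_span
    ⟨γ, (hT γ hγ).1, rfl⟩), _, fun r => ?_, rfl⟩
  refine Commute.sub_right ?_ (Commute.one_right _)
  change single 1 r * single γ 1 = single γ 1 * single 1 r
  simp [single_mul_single]

end Pool.Agent.Lib.MP_2add11_gt.IG
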