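import Pool.Agent.Lib.MP_2add11_gt.IG.StLin

/-!
The splitting of additive stable invariants over the group ring of a free product.
-/

noncomputable section

namespace Pool.Agent.Lib.MP_2add11_gt.IG

open Matrix MonoidAlgebra Monoid FG

section Block

variable {R W K : Type} [Ring R] [AddCommGroup W] [Fintype K] [DecidableEq K]

theorem block_diag (c : Inv R W) {n : Type} [Fintype n] [DecidableEq n] (M : K → Matrix n n R)
    (hu : ∀ i, IsUnit (1 + M i)) (h : ∀ i, c.c (1 + M i) = 0) :
    IsUnit (1 + Matrix.of fun p q : K × n => if p.1 = q.1 then M p.1 p.2 q.2 else 0) ∧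
      c.c (1 + Matrix.of fun p q : K × n => if p.1 = q.1 then M p.1 p.2 q.2 else 0) = 0 := by
  have key : ∀ s : Finset K,
      IsUnit (1 + Matrix.of fun p q : K × n => if p.1 = q.1 ∧ p.1 ∈ s then M p.1 p.2 q.2 else 0) ∧
      c.c (1 + Matrix.of fun p q : K × n => if p.1 = q.1 ∧ p.1 ∈ s then M p.1 p.2 q.2 else 0) = 0 := by
    intro s
    induction s using Finset.induction_on with
    | empty =>
      have : (Matrix.of fun p q : K × n =>
          if p.1 = q.1 ∧ p.1 ∈ (∅ : Finset K) then M p.1 p.2 q.2 else 0) = 0 := by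
        ext; simp
      rw [this, add_zero]
      exact ⟨isUnit_one, c.one⟩
    | insert a s ha ih =>
      let H : Matrix (K × n) n R := Matrix.of fun p y => if p.1 = a then M a p.2 y else 0
      let X : Matrix n (K × n) R := Matrix.of fun x q => if q = (a, x) then 1 else 0
      have e2 : X * H = M a := by
        ext x y
        rw [Matrix.mul_apply, Finset.sum_eq_single (a, x) (fun q _ hq => by simp [X, hq]) (by simp)]
        simp [X, H]
      have e3 : (Matrix.of fun p q : K × n =>
          if p.1 = q.1 ∧ p.1 ∈ s then M p.1 p.2 q.2 else 0) * H = 0 := by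
        ext p y
        rw [Matrix.mul_apply]
        refine Finset.sum_eq_zero fun q _ => ?_
        by_cases h1 : q.1 = a
        · have : ¬(p.1 = q.1 ∧ p.1 ∈ s) := fun h2 => ha (h1 ▸ h2.1 ▸ h2.2)
          simp [this]
        · simp [H, h1]
      have e : (1 + Matrix.of fun p q : K × n =>
          if p.1 = q.1 ∧ p.1 ∈ insert a s then M p.1 p.2 q.2 else 0) =
          (1 + Matrix.of fun p q : K × n => if p.1 = q.1 ∧ p.1 ∈ s then M p.1 p.2 q.2 else 0) *
            (1 + H * X) := by
        rw [Matrix.mul_add, Matrix.mul_one, ← Matrix.mul_assoc, Matrix.add_mul, Matrix.one_mul, e3,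
          add_zero, add_assoc]
        congr 1
        ext ⟨i, x⟩ ⟨j, y⟩
        by_cases h1 : i = a
        · subst h1
          by_cases h2 : j = i
          · subst h2
            simp [X, H, Matrix.mul_apply, ha]
          · simp [X, H, Matrix.mul_apply, h2, Ne.symm h2]
        · simp [X, H, Matrix.mul_apply, h1]
      have hu' : IsUnit (1 + X * H) := e2 ▸ hu a
      rw [e, c.mul ih.1 (isUnit_swap hu'), ih.2, c.one_add_swap hu', e2, h, add_zero]
      exact ⟨ih.1.mul (isUnit_swap hu'), rfl⟩
  simpa using key Finset.univ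

theorem block_step (c : Inv R W) (e : K → R →+* R) (ε : R →+* R)
    (hεε : ∀ x, ε (ε x) = ε x) (heε : ∀ i x, e i (ε x) = ε x)
    (h0 : ∀ (n : Type) [Fintype n] [DecidableEq n] (A : Matrix n n R), IsUnit A →
      c.c (A.map ε) = 0)
    (h1 : ∀ i (n : Type) [Fintype n] [DecidableEq n] (A : Matrix n n R), IsUnit A →
      c.c (A.map (e i)) = 0)
    (hN : ∀ (n : Type) [Fintype n] [DecidableEq n] (col : n → K) (N : Matrix n n R),
      (∀ p q, ∃ x, N p q = e (col p) x - ε x) → (∀ p q, col p = col q → N p q = 0) →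
        IsUnit (1 - N) → c.c (1 - N) = 0)
    {n : Type} [Fintype n] [DecidableEq n] {A : Matrix n n R} (hA : IsUnit A)
    (hl : ∀ i j, A i j = ε (A i j) + ∑ k, (e k (A i j) - ε (A i j))) : c.c A = 0 := by
  obtain ⟨u, rfl⟩ := hA
  let E := ε.mapMatrix (m := n)
  let F := fun i => (e i).mapMatrix (m := n)
  have EE : ∀ x, E (E x) = E x := fun x => by ext; exact hεε _
  have FE : ∀ i x, F i (E x) = E x := fun i x => by ext; exact heε _ _
  have hl' : u.val = E u.val + ∑ k, (F k u.val - E u.val) := by
    ext i j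
    rw [Matrix.add_apply, Matrix.sum_apply]
    exact hl i j
  have hE : IsUnit (E u.inv) := (u⁻¹).isUnit.map E
  have hv : IsUnit (u.val * E u.inv) := u.isUnit.mul hE
  have s1 : c.c (u.val * E u.inv) = c.c u.val := by
    rw [c.mul u.isUnit hE, show c.c (E u.inv) = 0 from h0 n _ (u⁻¹).isUnit, add_zero]
  have one : E u.val * E u.inv = 1 := by rw [← map_mul, u.val_inv, map_one]
  obtain ⟨v, hv'⟩ := id hv
  have Ev : E v.val = 1 := by rw [hv', map_mul, EE, one]
  have Ev' : E v.inv = 1 := by
    have := congrArg E v.val_inv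
    rwa [map_mul, Ev, one_mul, map_one] at this
  have lin : v.val = 1 + ∑ k, (F k v.val - 1) := by
    rw [hv']
    conv_lhs => rw [hl', add_mul, Finset.sum_mul, one]
    congr 1
    exact Finset.sum_congr rfl fun k _ => by rw [sub_mul, one, map_mul, FE]
  let M := fun k => F k v.val - 1
  let H : Matrix (K × n) n R := Matrix.of fun p y => M p.1 p.2 y
  let X : Matrix n (K × n) R := Matrix.of fun x q => if q.2 = x then 1 else 0
  have e2 : 1 + X * H = v.val := by
    rw [lin]
    congr 1
    ext x y
    rw [Matrix.mul_apply, Matrix.sum_apply, Fintype.sum_prod_type]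
    exact Finset.sum_congr rfl fun k _ => by simp [X, H, M]
  have hu' : IsUnit (1 + X * H) := e2 ▸ v.isUnit
  obtain ⟨d1, d2⟩ := block_diag c (fun k => F k v.inv - 1)
    (fun k => by rw [add_sub_cancel]; exact (v⁻¹).isUnit.map (F k))
    (fun k => by rw [add_sub_cancel]; exact h1 k n _ (v⁻¹).isUnit)
  let N : Matrix (K × n) (K × n) R :=
    Matrix.of fun p q => if p.1 = q.1 then 0 else (F p.1 v.inv - 1 : Matrix n n R) p.2 q.2
  have e3 : (1 + Matrix.of fun p q : K × n =>
      if p.1 = q.1 then (F p.1 v.inv - 1 : Matrix n n R) p.2 q.2 else 0) * (1 + H * X) = 1 - N := by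
    have a1 : H * X = Matrix.of fun p q : K × n => M p.1 p.2 q.2 := by
      ext p q
      simp [X, H, Matrix.mul_apply]
    have a2 : ∀ k, (F k v.inv - 1) * M k = -(F k v.inv - 1) - M k := fun k => by
      have : F k v.inv * F k v.val = 1 := by rw [← map_mul, v.inv_val, map_one]
      simp only [M, sub_mul, mul_sub, this, one_mul, mul_one]
      abel
    have a3 : (Matrix.of fun p q : K × n =>
        if p.1 = q.1 then (F p.1 v.inv - 1 : Matrix n n R) p.2 q.2 else 0) *
        (Matrix.of fun p q : K × n => M p.1 p.2 q.2) =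
        Matrix.of fun p q : K × n => ((F p.1 v.inv - 1) * M p.1) p.2 q.2 := by
      ext p q
      simp only [Matrix.mul_apply, Matrix.of_apply, Fintype.sum_prod_type, ite_mul, zero_mul]
      rw [Finset.sum_eq_single p.1 (fun j _ hj => by simp [hj.symm]) (by simp)]
      simp
    rw [a1, mul_add, mul_one, add_mul, one_mul, a3]
    ext p q
    simp only [a2, N, Matrix.add_apply, Matrix.sub_apply, Matrix.neg_apply, Matrix.of_apply]
    split_ifs <;> abel
  have := hN (K × n) Prod.fst N (fun p q => by
    by_cases h : p.1 = q.1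
    · exact ⟨0, by simp [N, h]⟩
    · refine ⟨v.inv p.2 q.2, ?_⟩
      simp only [N, Matrix.of_apply, if_neg h]
      rw [← Ev']
      rfl) (fun p q h => by simp [N, h]) (e3 ▸ d1.mul (isUnit_swap hu'))
  rwa [← e3, c.mul d1 (isUnit_swap hu'), d2, zero_add, c.one_add_swap hu', e2, hv', s1] at this

end Block

section Main

variable {K W : Type} [Fintype K] [DecidableEq K] {G : K → Type} [∀ i, Group (G i)]
  [AddCommGroup W]

def retr (i : K) : CoprodI G →* G i :=
  CoprodI.lift fun j => if h : j = i then h ▸ MonoidHom.id (G j) else 1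

omit [Fintype K] in
theorem retr_same (i : K) (g : G i) : retr i (CoprodI.of g) = g := by
  simp [retr]

omit [Fintype K] in
theorem retr_ne {i j : K} (h : j ≠ i) (g : G j) : retr i (CoprodI.of g) = 1 := by
  simp [retr, h]

def ee (G : K → Type) [∀ i, Group (G i)] (i : K) :
    MonoidAlgebra ℤ (CoprodI G) →+* MonoidAlgebra ℤ (CoprodI G) :=
  mapDomainRingHom ℤ (CoprodI.of.comp (retr i))

def eps (H : Type) [Group H] : MonoidAlgebra ℤ H →+* MonoidAlgebra ℤ H := mapDomainRingHom ℤ 1

omit [Fintype K] in
theorem ee_single (i : K) (g : CoprodI G) (a : ℤ) :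
    ee G i (single g a) = single (CoprodI.of (retr i g)) a := by simp [ee]

theorem eps_single {H : Type} [Group H] (g : H) (a : ℤ) : eps H (single g a) = single 1 a := by
  simp [eps]

theorem hom_ext2 {H H' : Type} [Group H] [Group H'] {f g : MonoidAlgebra ℤ H →+* MonoidAlgebra ℤ H'}
    (h : ∀ x a, f (single x a) = g (single x a)) (x : MonoidAlgebra ℤ H) : f x = g x := by
  induction x using MonoidAlgebra.induction_linear with
  | zero => simp
  | add a b ha hb => rw [map_add, map_add, ha, hb]
  | single x a => exact h x a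

omit [Fintype K] in
theorem ee_sub_eps (i : K) (x : MonoidAlgebra ℤ (CoprodI G)) : ∃ y : MonoidAlgebra ℤ (G i),
    ee G i x - eps _ x = mapDomainRingHom ℤ CoprodI.of y ∧ (y.coeff.sum fun _ a => a) = 0 := by
  change ∃ y, _ ∧ aug (G i) y = 0
  induction x using MonoidAlgebra.induction_linear with
  | zero => exact ⟨0, by simp, map_zero _⟩
  | add a b ha hb =>
    obtain ⟨y, h1, h2⟩ := ha
    obtain ⟨z, h3, h4⟩ := hb
    refine ⟨y + z, ?_, by rw [map_add, h2, h4, add_zero]⟩
    rw [map_add, map_add, map_add, ← h1, ← h3]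
    abel
  | single g a =>
    refine ⟨single (retr i g) a - single 1 a, ?_, ?_⟩
    · rw [ee_single, eps_single, map_sub]
      simp
    · rw [map_sub]
      simp [aug_eq]

theorem stallings (c : Inv (MonoidAlgebra ℤ (CoprodI G)) W)
    (h0 : ∀ (n : Type) [Fintype n] [DecidableEq n] (A : Matrix n n (MonoidAlgebra ℤ (CoprodI G))),
      IsUnit A → c.c (A.map (eps _)) = 0)
    (h1 : ∀ i (n : Type) [Fintype n] [DecidableEq n]
      (A : Matrix n n (MonoidAlgebra ℤ (CoprodI G))), IsUnit A → c.c (A.map (ee G i)) = 0)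
    {n : Type} [Fintype n] [DecidableEq n] {A : Matrix n n (MonoidAlgebra ℤ (CoprodI G))}
    (hA : IsUnit A) : c.c A = 0 := by
  let S : Submodule ℤ (MonoidAlgebra ℤ (CoprodI G)) :=
    { carrier := {x | x = eps _ x + ∑ k, (ee G k x - eps _ x)}
      zero_mem' := by simp
      add_mem' := fun {a b} ha hb => by
        change a = _ at ha
        change b = _ at hb
        change a + b = _
        conv_lhs => rw [ha, hb]
        simp only [map_add, Finset.sum_sub_distrib, Finset.sum_add_distrib]
        abel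
      smul_mem' := fun k a ha => by
        change a = _ at ha
        change k • a = _
        conv_lhs => rw [ha]
        simp only [map_zsmul, smul_add, Finset.smul_sum, smul_sub] }
  have s1 : (1 : MonoidAlgebra ℤ (CoprodI G)) ∈ S := by
    change _ = _
    simp
  have s2 : ∀ i (g : G i), single (CoprodI.of g) (1 : ℤ) ∈ S := fun i g => by
    change _ = _
    rw [Finset.sum_eq_single i (fun k _ hk => by
      rw [ee_single, eps_single, retr_ne hk.symm, map_one, sub_self]) (by simp), ee_single,
      retr_same, add_sub_cancel]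
  have s3 : ∀ g : CoprodI G, ∃ k, single g (1 : ℤ) ∈ S ^ k := fun g => by
    induction g using CoprodI.induction_left with
    | one => exact ⟨1, by rw [pow_one]; exact s1⟩
    | mul m x ih =>
      obtain ⟨k, hk⟩ := ih
      refine ⟨k + 1, ?_⟩
      rw [pow_succ', ← mul_one (1 : ℤ), ← single_mul_single]
      exact Submodule.mul_mem_mul (s2 _ m) hk
  refine higman c S s1 (fun x => ?_) (fun n _ _ A hA hS => block_step c (ee G) (eps _)
    (hom_ext2 (f := (eps _).comp (eps _)) fun x a => by simp [eps_single])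
    (fun i => hom_ext2 (f := (ee G i).comp (eps _)) fun x a => by simp [eps_single, ee_single])
    h0 h1 (fun n _ _ col N g1 g2 g3 => nil_zero c col N (fun p q => ?_) g2 g3) hA hS) hA
  · induction x using MonoidAlgebra.induction_linear with
    | zero => exact ⟨0, zero_mem _⟩
    | add a b ha hb =>
      obtain ⟨k, hk⟩ := ha
      obtain ⟨l, hl⟩ := hb
      exact ⟨max k l, add_mem (pow_mono s1 (le_max_left _ _) hk) (pow_mono s1 (le_max_right _ _) hl)⟩
    | single g a =>
      obtain ⟨k, hk⟩ := s3 g
      exact ⟨k, by simpa using (S ^ k).smul_mem a hk⟩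
  · obtain ⟨x, hx⟩ := g1 p q
    rw [hx]
    exact ee_sub_eps _ x

theorem split (c : Inv (MonoidAlgebra ℤ (CoprodI G)) W) {n : Type} [Fintype n] [DecidableEq n]
    {A : Matrix n n (MonoidAlgebra ℤ (CoprodI G))} (hA : IsUnit A) :
    c.c A = c.c (A.map (eps _)) + ∑ i, (c.c (A.map (ee G i)) - c.c (A.map (eps _))) := by
  let d : Inv (MonoidAlgebra ℤ (CoprodI G)) W :=
    { c := fun A => c.c A - ((c.pull (eps _)).c A +
        ∑ i, ((c.pull (ee G i)).c A - (c.pull (eps _)).c A))
      mul := fun hA hB => by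
        simp only [c.mul hA hB, (c.pull _).mul hA hB, Finset.sum_sub_distrib,
          Finset.sum_add_distrib]
        abel
      sub := fun e _ hA => by simp only [c.sub e hA, (c.pull _).sub e hA]
      stab := fun hA => by simp only [c.stab hA, (c.pull _).stab hA] }
  have m : ∀ {f g h : MonoidAlgebra ℤ (CoprodI G) →+* MonoidAlgebra ℤ (CoprodI G)},
      (∀ x a, g (f (single x a)) = h (single x a)) → ∀ {n : Type}
      (A : Matrix n n (MonoidAlgebra ℤ (CoprodI G))), (A.map f).map g = A.map h := by
    intro f g h hh n A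
    ext1 i j
    exact hom_ext2 (f := g.comp f) hh _
  refine sub_eq_zero.1 (stallings d (fun n _ _ A _ => ?_) (fun i n _ _ A _ => ?_) hA)
  · change c.c _ - (c.c ((A.map (eps _)).map (eps _)) +
      ∑ i, (c.c ((A.map (eps _)).map (ee G i)) - c.c ((A.map (eps _)).map (eps _)))) = 0
    rw [m (h := eps _) (by simp [eps_single]), Finset.sum_eq_zero fun j _ => by
      rw [m (h := eps _) (by simp [eps_single, ee_single]), sub_self]]
    simp
  · change c.c _ - (c.c ((A.map (ee G i)).map (eps _)) +
      ∑ j, (c.c ((A.map (ee G i)).map (ee G j)) - c.c ((A.map (ee G i)).map (eps _)))) = 0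
    rw [m (h := eps _) (by simp [eps_single, ee_single]), Finset.sum_eq_single i (fun j _ hj => by
      rw [m (h := eps _) (by simp [eps_single, ee_single, retr_ne hj.symm]), sub_self]) (by simp),
      m (h := ee G i) (by simp [ee_single, retr_same])]
    simp

omit [DecidableEq K] in
theorem neg_coprodI
    (h : ∀ i (c : Inv (MonoidAlgebra ℤ (G i)) W) x, x ∈ Alg c → -x ∈ Alg c)
    (c : Inv (MonoidAlgebra ℤ (CoprodI G)) W) {x : W} (hx : x ∈ Alg c) : -x ∈ Alg c := by
  classical
  obtain ⟨ι, _, _, r, h1, h2, rfl⟩ := hx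
  have key : ∀ {H : Type} [Group H] (f : CoprodI G →* H) (g : H →* CoprodI G),
      (∀ (c : Inv (MonoidAlgebra ℤ H) W) x, x ∈ Alg c → -x ∈ Alg c) →
      c.c ((jac r).map (mapDomainRingHom ℤ (g.comp f))) ∈ Alg c ∧
        -c.c ((jac r).map (mapDomainRingHom ℤ (g.comp f))) ∈ Alg c := by
    intro H _ f g hH
    have a1 : c.c ((jac r).map (mapDomainRingHom ℤ (g.comp f))) ∈
        Alg (c.pull (mapDomainRingHom ℤ g)) := by
      refine Alg.push _ f ⟨ι, _, _, r, h1, h2, ?_⟩
      rw [mapDomainRingHom_comp]
      rfl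
    exact ⟨Alg.push c g a1, Alg.push c g (hH _ _ a1)⟩
  have k0 := key (H := PUnit) 1 1 fun c x hx => Alg.neg c hx
  rw [show (1 : PUnit →* CoprodI G).comp (1 : CoprodI G →* PUnit) = 1 from rfl] at k0
  rw [split c h2, neg_add, ← Finset.sum_neg_distrib]
  refine add_mem k0.2 (sum_mem fun i _ => ?_)
  rw [neg_sub, sub_eq_add_neg]
  exact add_mem k0.1 (key (retr i) CoprodI.of (h i)).2

end Main

end Pool.Agent.Lib.MP_2add11_gt.IG
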