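import Pool.Agent.Lib.MP_2add11_gt.FG.Five
import Pool.Agent.Lib.MP_2add11_gt.IG.StMain
import Pool.Agent.Lib.MP_2add11_gt.IG.NegCl

/-!
Rational realisation of Whitehead torsions over free products of finite groups whose elements have
order at most six.
-/

noncomputable section

namespace Pool.Agent.Lib.MP_2add11_gt.IG

open Matrix MonoidAlgebra Monoid FG

/-- The elements having a positive multiple in an additive subgroup. -/
def root {W : Type} [AddCommGroup W] (U : AddSubgroup W) : AddSubgroup W where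
  carrier := {y | ∃ k : ℕ, 0 < k ∧ k • y ∈ U}
  zero_mem' := ⟨1, one_pos, by simp⟩
  add_mem' := by
    rintro a b ⟨k, hk, ha⟩ ⟨l, hl, hb⟩
    refine ⟨k * l, mul_pos hk hl, ?_⟩
    rw [nsmul_add]
    exact add_mem (by rw [mul_nsmul]; exact U.nsmul_mem ha l)
      (by rw [mul_nsmul']; exact U.nsmul_mem hb k)
  neg_mem' := by
    rintro a ⟨k, hk, ha⟩
    exact ⟨k, hk, by rw [neg_nsmul]; exact U.neg_mem ha⟩

theorem root_via {G C : Type} [Group G] [Group C] [Finite C] (h6 : ∀ x : C, orderOf x ≤ 6)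
    (f : G →* C) (g : C →* G) {n : Type} [Fintype n] [DecidableEq n]
    {A : Matrix n n (MonoidAlgebra ℤ G)} (hA : IsUnit A) :
    (whInv G).c (A.map (mapDomainRingHom ℤ (g.comp f))) ∈ root (symm (whInv G)) := by
  obtain ⟨φ, hφ⟩ := FG.factor ((whInv G).pull (mapDomainRingHom ℤ g))
    (pull_triv _ _ fun g _ hx => (whInv_triv g hx).2)
  have hB : IsUnit (A.map (mapDomainRingHom ℤ f)) := hA.map (mapDomainRingHom ℤ f).mapMatrix
  have hm : ∀ x ∈ Alg (whInv C), φ x ∈ Alg (whInv G) := by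
    rintro _ ⟨ι, _, _, r, h1, h2, rfl⟩
    exact Alg.push _ g ⟨ι, _, _, r, h1, h2, hφ h2⟩
  obtain ⟨k, hk, h⟩ := mem_sat h6 ((whInv C).c (A.map (mapDomainRingHom ℤ f)))
  have e : (whInv G).c (A.map (mapDomainRingHom ℤ (g.comp f))) =
      φ ((whInv C).c (A.map (mapDomainRingHom ℤ f))) := by
    rw [hφ hB, mapDomainRingHom_comp]
    rfl
  refine ⟨k, hk, ?_⟩
  rw [e, ← map_nsmul]
  exact ⟨hm _ h, by rw [← map_neg]; exact hm _ (Alg.neg _ h)⟩

theorem root_coprodI {K : Type} [Finite K] {G : K → Type} [∀ i, Group (G i)] [∀ i, Finite (G i)]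
    (h6 : ∀ i (x : G i), orderOf x ≤ 6) (τ : Wh (CoprodI G)) :
    τ ∈ root (symm (whInv (CoprodI G))) := by
  classical
  have := Fintype.ofFinite K
  have key : ∀ {n : ℕ} (A : GL (Fin n) (MonoidAlgebra ℤ (CoprodI G))),
      Wh.cls A ∈ root (symm (whInv (CoprodI G))) := fun A => by
    have h0 : (whInv (CoprodI G)).c (A.val.map (eps _)) ∈ root (symm (whInv (CoprodI G))) :=
      root_via (C := Unit) (fun x => by rw [Subsingleton.elim x 1, orderOf_one]; norm_num) 1 1 A.isUnit
    rw [← whInv_val, split _ A.isUnit]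
    exact add_mem h0 (sum_mem fun i _ =>
      sub_mem (root_via (h6 i) (retr i) CoprodI.of A.isUnit) h0)
  obtain ⟨x, rfl⟩ := QuotientAddGroup.mk_surjective τ
  obtain ⟨y, rfl⟩ := QuotientAddGroup.mk_surjective x
  induction y using FreeAbelianGroup.induction_on with
  | zero => exact zero_mem _
  | of x => exact key x.2
  | neg x h => exact neg_mem h
  | add x y hx hy => exact add_mem hx hy

end Pool.Agent.Lib.MP_2add11_gt.IG
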