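import Pool.Agent.Lib.MP_2add11_gt.IG.WrCoc

/-!
Cocycles that are conjugate on stabilisers give the same classes; Artin induction with support.
-/

noncomputable section

namespace Pool.Agent.Lib.MP_2add11_gt.IG

open Matrix MonoidAlgebra FG Subgroup

namespace Coc

variable {G C X W : Type} [Group G] [Group C] [AddCommGroup W]

theorem act_inv (T : Coc C G X) (x : X) (a : C) : T.act (T.act x a) a⁻¹ = x := by
  rw [← T.act_mul, mul_inv_cancel, T.act_one]

theorem u_inv (T : Coc C G X) (x : X) (a : C) : T.u (T.act x a) a⁻¹ = (T.u x a)⁻¹ := by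
  rw [eq_inv_iff_mul_eq_one, ← inv_mul_cancel (T.u x a), eq_comm, inv_mul_eq_iff_eq_mul,
    ← mul_assoc, ← T.u_mul, mul_inv_cancel, T.u_one, one_mul]

theorem exists_cob (T T' : Coc C G X) (ha : T.act = T'.act)
    (h : ∀ x, ∃ p : G, ∀ a, T.act x a = x → T.u x a = p * T'.u x a * p⁻¹) :
    ∃ P : X → G, ∀ x a, T.u x a = P x * T'.u x a * (P (T.act x a))⁻¹ := by
  choose p hp using h
  let s : Setoid X := ⟨fun x y => ∃ a, T.act x a = y, fun x => ⟨1, T.act_one x⟩,
    fun ⟨a, e⟩ => ⟨a⁻¹, e ▸ T.act_inv _ a⟩,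
    fun ⟨a, e⟩ ⟨b, e'⟩ => ⟨a * b, by rw [T.act_mul, e, e']⟩⟩
  let r : X → X := fun x => (Quotient.mk s x).out
  have h1 : ∀ x, ∃ a, T.act (r x) a = x := fun x => Quotient.mk_out (s := s) x
  have h2 : ∀ x a, r (T.act x a) = r x := fun x a =>
    congrArg Quotient.out (Quotient.sound (s := s) ⟨a⁻¹, T.act_inv x a⟩)
  choose b hb using h1
  refine ⟨fun x => (T.u (r x) (b x))⁻¹ * p (r x) * T'.u (r x) (b x), fun x a => ?_⟩
  have h3 := hb (T.act x a)
  beta_reduce
  rw [h2] at h3 ⊢
  have h4 : T.act (T.act x a) (b (T.act x a))⁻¹ = r x := by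
    have := T.act_inv (r x) (b (T.act x a))
    rwa [h3] at this
  have h5 := hp (r x) (b x * a * (b (T.act x a))⁻¹) (by rw [T.act_mul, T.act_mul, hb, h4])
  have h6 := T.u_inv (r x) (b (T.act x a))
  have h7 := T'.u_inv (r x) (b (T.act x a))
  rw [← ha] at h7
  rw [h3] at h6 h7
  rw [T.u_mul, T.u_mul, T'.u_mul, T'.u_mul, T'.act_mul, T.act_mul, ← ha, hb, h6, h7] at h5
  rw [eq_inv_mul_iff_mul_eq.2 (mul_inv_eq_iff_eq_mul.1 h5)]
  group

variable [Fintype X] [DecidableEq X] {n : Type} [Fintype n] [DecidableEq n]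

theorem cob (T T' : Coc C G X) (ha : T.act = T'.act) (P : X → G)
    (hP : ∀ x a, T.u x a = P x * T'.u x a * (P (T.act x a))⁻¹) (c : Inv (MonoidAlgebra ℤ G) W)
    {B : Matrix n n (MonoidAlgebra ℤ C)} (hB : IsUnit B) :
    (c.comap T.hom).c B = (c.comap T'.hom).c B := by
  have key : ∀ (a : MonoidAlgebra ℤ C) (k l : X), T.hom a k l =
      .single (P k) 1 * T'.hom a k l * .single (P l)⁻¹ 1 := fun a k l => by
    induction a using MonoidAlgebra.induction_linear with
    | zero => simp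
    | add a b ha hb => rw [map_add, map_add, Matrix.add_apply, Matrix.add_apply, ha, hb, mul_add,
        add_mul]
    | single g a =>
      rw [hom_single, hom_single, ← ha]
      split_ifs with h
      · simp [single_mul_single, hP k g, h]
      · simp
  refine Eq.trans (congrArg c.c ?_) (c.conj (P := diagonal fun p : n × X => .single (P p.2) 1)
    (Q := diagonal fun p : n × X => .single (P p.2)⁻¹ 1) (isUnit_cm _ hB) ?_ ?_)
  · ext1 p q
    rw [mul_diagonal, diagonal_mul]
    exact key _ _ _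
  · simp [single_mul_single, ← MonoidAlgebra.one_def]
  · simp [single_mul_single, ← MonoidAlgebra.one_def]

theorem coh (T T' : Coc C G X) (ha : T.act = T'.act)
    (h : ∀ x, ∃ p : G, ∀ a, T.act x a = x → T.u x a = p * T'.u x a * p⁻¹)
    (c : Inv (MonoidAlgebra ℤ G) W) {B : Matrix n n (MonoidAlgebra ℤ C)} (hB : IsUnit B) :
    (c.comap T.hom).c B = (c.comap T'.hom).c B := by
  obtain ⟨P, hP⟩ := exists_cob T T' ha h
  exact cob T T' ha P hP c hB

end Coc

theorem span_indS {G : Type} [Group G] [Finite G] (S : AddSubgroup (G → ℤ)) (Z0 : Set G)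
    (hZ0 : ∀ h ∈ Z0, ∀ x ∈ zpowers h, x ∈ Z0) (hS : ∀ h ∈ Z0, ind h ∈ S)
    (f : G → ℤ) (hf : ∀ x y, zpowers x = zpowers y → f x = f y) (h0 : ∀ x, x ∉ Z0 → f x = 0) :
    f ∈ S := by
  classical
  have key : ∀ (k : ℕ) (Z : Set G), Z.ncard = k → Z ⊆ Z0 → (∀ h ∈ Z, ∀ x ∈ zpowers h, x ∈ Z) →
      ∀ f : G → ℤ, (∀ x y, zpowers x = zpowers y → f x = f y) → (∀ x, x ∉ Z → f x = 0) →
      f ∈ S := by
    intro k
    induction k using Nat.strong_induction_on with
    | _ k ih =>
    intro Z hk hs hZ f hf h0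
    rcases Z.eq_empty_or_nonempty with rfl | hne
    · rw [show f = 0 from funext fun x => h0 x (Set.notMem_empty x)]
      exact S.zero_mem
    obtain ⟨g, hg, hmax⟩ := Set.Finite.exists_maximalFor zpowers Z (Set.toFinite Z) hne
    have := ih _ (hk ▸ Set.ncard_lt_ncard (s := {x ∈ Z | zpowers x ≠ zpowers g}) (t := Z)
      ⟨fun x hx => hx.1, fun h => (h hg).2 rfl⟩ (Set.toFinite Z)) {x ∈ Z | zpowers x ≠ zpowers g} rfl
      (fun x hx => hs hx.1)
      (fun h hh x hx => ⟨hZ h hh.1 x hx, fun e => hh.2 (by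
        have h1 : zpowers g ≤ zpowers h := e ▸ zpowers_le_of_mem hx
        exact le_antisymm (hmax hh.1 h1) h1)⟩) (f - f g • ind g)
      (fun x y e => by
        have : x ∈ zpowers g ↔ y ∈ zpowers g := by
          rw [← zpowers_le, ← zpowers_le, e]
        simp [ind, hf x y e, this])
      (fun x hx => by
        by_cases h1 : x ∈ Z
        · have e : zpowers x = zpowers g := by
            by_contra h2
            exact hx ⟨h1, h2⟩
          simp [ind, hf x g e, ← e]
        · have : x ∉ zpowers g := fun h2 => h1 (hZ g hg x h2)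
          simp [ind, h0 x h1, this])
    simpa using S.add_mem this (S.zsmul_mem (hS g (hs hg)) (f g))
  exact key _ Z0 rfl subset_rfl hZ0 f hf h0

end Pool.Agent.Lib.MP_2add11_gt.IG
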