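import Pool.Agent.Lib.MP_2add11_gt.IG.WrCoc
import Pool.Agent.Lib.MP_2add11_gt.IG.Iff

/-!
Two properties of a group: rational generation of the Whitehead group by finite subgroups, and
separation of conjugacy classes of elements of finite order by finite quotients.
-/

noncomputable section

namespace Pool.Agent.Lib.MP_2add11_gt.IG

open Matrix MonoidAlgebra FG

/-- The classes in `Wh G` of invertible matrices over the group rings of finite subgroups. -/
def FinCls (G : Type) [Group G] : Set (Wh G) :=
  {τ | ∃ (F : Subgroup G) (_ : Finite F) (n : ℕ) (B : GL (Fin n) (MonoidAlgebra ℤ F))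
    (A : GL (Fin n) (MonoidAlgebra ℤ G)),
      A.val = B.val.map (mapDomainRingHom ℤ F.subtype) ∧ τ = Wh.cls A}

/-- Every element of `Wh G` has a positive multiple that comes from the finite subgroups. -/
def RG (G : Type) [Group G] : Prop :=
  ∀ τ : Wh G, ∃ k : ℕ, 0 < k ∧ k • τ ∈ AddSubgroup.closure (FinCls G)

/-- Elements of finite order that are conjugate in every finite quotient are conjugate. -/
def TCS (G : Type) [Group G] : Prop :=
  ∀ a b : G, IsOfFinOrder a → IsOfFinOrder b →
    (∀ (N : Subgroup G) [N.Normal] [N.FiniteIndex], IsConj (a : G ⧸ N) (b : G ⧸ N)) → IsConj a b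

/-- The classes that come from finite cyclic groups. -/
def CycCls (G : Type) [Group G] : Set (Wh G) :=
  {τ | ∃ (C : Type) (_ : Group C) (_ : Finite C) (_ : IsCyclic C) (i : C →* G) (n : Type)
    (_ : Fintype n) (_ : DecidableEq n) (B : Matrix n n (MonoidAlgebra ℤ C)), IsUnit B ∧
      τ = (whInv G).c (B.map (mapDomainRingHom ℤ i))}

/-- The permutation representation under a cocycle. -/
def Coc.perm {G C X : Type} [Group G] [Group C] [DecidableEq X] [Fintype X] (T : Coc G C X) :
    G →* Matrix X X ℤ where
  toFun g := .of fun x y => if T.act x g = y then 1 else 0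
  map_one' := by
    ext x y
    simp [T.act_one, Matrix.one_apply]
  map_mul' g h := by
    ext x y
    simp only [Matrix.mul_apply, Matrix.of_apply, ite_mul, one_mul, zero_mul, Finset.sum_ite_eq,
      Finset.mem_univ, if_true, T.act_mul]

end Pool.Agent.Lib.MP_2add11_gt.IG
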