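import Pool.Agent.Lib.MP_2add11_gt.IG.Sep7A
import Pool.Agent.Lib.MP_2add11_gt.IG.SepCoh
import Pool.Agent.Lib.MP_2add11_gt.IG.SepDef
import Pool.Agent.Lib.MP_2add11_gt.IG.Sat

/-!
A cocycle on a cyclic group agrees with the tautological one up to classes coming from groups whose
elements have order at most six.
-/

noncomputable section

namespace Pool.Agent.Lib.MP_2add11_gt.IG

open Matrix MonoidAlgebra FG Subgroup

variable {G : Type} [Group G]

/-- Restriction of a cocycle to an invariant subset. -/
def Coc.partB {C X : Type} [Group C] (T : Coc C G X) (p : X → Prop)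
    (hp : ∀ x g, p x → p (T.act x g)) : Coc C G {x // p x} where
  act x g := ⟨T.act x.1 g, hp _ _ x.2⟩
  u x g := T.u x.1 g
  act_one x := Subtype.ext (T.act_one _)
  act_mul x g h := Subtype.ext (T.act_mul _ _ _)
  u_one x := T.u_one _
  u_mul x g h := T.u_mul _ _ _

theorem Coc.partB_add {W C X n : Type} [AddCommGroup W] [Group C] [Fintype X] [DecidableEq X]
    [Fintype n] [DecidableEq n] (T : Coc C G X) (p : X → Prop) [DecidablePred p]
    (hp : ∀ x g, p x → p (T.act x g)) (hq : ∀ x g, ¬ p x → ¬ p (T.act x g))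
    (c : Inv (MonoidAlgebra ℤ G) W) {B : Matrix n n (MonoidAlgebra ℤ C)} (hB : IsUnit B) :
    (c.comap T.hom).c B =
      (c.comap (T.partB p hp).hom).c B + (c.comap (T.partB (fun x => ¬ p x) hq).hom).c B := by
  have key : ∀ a : MonoidAlgebra ℤ C, (T.hom a).submatrix (Equiv.sumCompl p) (Equiv.sumCompl p) =
      fromBlocks ((T.partB p hp).hom a) 0 0 ((T.partB (fun x => ¬ p x) hq).hom a) := fun a => by
    induction a using MonoidAlgebra.induction_linear with
    | zero => simp
    | add a b ha hb =>
      rw [map_add, map_add, map_add, submatrix_add, Pi.add_apply, Pi.add_apply, ha, hb,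
        fromBlocks_add, add_zero, add_zero]
    | single g a =>
      ext1 (k | k) (l | l)
      · simp [Coc.hom_single, Coc.partB, Subtype.ext_iff]
      · simp only [submatrix_apply, Coc.hom_single, Equiv.sumCompl_apply_inl,
          Equiv.sumCompl_apply_inr, fromBlocks_apply₁₂, Matrix.zero_apply]
        exact if_neg fun e : T.act k.1 g = l.1 => l.2 (e ▸ hp _ g k.2)
      · simp only [submatrix_apply, Coc.hom_single, Equiv.sumCompl_apply_inl,
          Equiv.sumCompl_apply_inr, fromBlocks_apply₂₁, Matrix.zero_apply]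
        exact if_neg fun e : T.act k.1 g = l.1 => hq _ g k.2 (e ▸ l.2)
      · simp [Coc.hom_single, Coc.partB, Subtype.ext_iff]
  refine Eq.trans ?_ ((c.sub (Equiv.prodSumDistrib n {x // p x} {x // ¬ p x})
    (isUnit_blocks (isUnit_cm _ hB) (isUnit_cm _ hB))).trans
    (c.blocks (isUnit_cm _ hB) (isUnit_cm _ hB)))
  refine (c.sub ((Equiv.refl n).prodCongr (Equiv.sumCompl p)) (isUnit_cm _ hB)).symm.trans
    (congrArg c.c ?_)
  ext1 ⟨i, k⟩ ⟨j, l⟩
  have := congrFun (congrFun (key (B i j)) k) l
  rcases k with k | k <;> rcases l with l | l <;> exact this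

theorem coc_taut7 {X C n : Type} [Fintype X] [DecidableEq X] [Group C] [Finite C] [IsCyclic C]
    [Fintype n] [DecidableEq n] (T : Coc G G X) (i : C →* G)
    (h : ∀ x g, T.act x (i g) = x → (6 < orderOf (i g) → IsConj (T.u x (i g)) (i g)) ∧
      (orderOf (i g) ≤ 6 → orderOf (T.u x (i g)) ≤ 6))
    {B : Matrix n n (MonoidAlgebra ℤ C)} (hB : IsUnit B) :
    ((whInv G).comap T.hom).c (B.map (mapDomainRingHom ℤ i)) -
      (((whInv G).pull (mapDomainRingHom ℤ i)).comap (theta (T.perm.comp i))).c B ∈
        root (symm (whInv G)) := by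
  classical
  let T1 : Coc C G X := ⟨fun x g => T.act x (i g), fun x g => T.u x (i g),
    fun x => by rw [map_one, T.act_one], fun x g k => by rw [map_mul, T.act_mul],
    fun x => by rw [map_one, T.u_one], fun x g k => by rw [map_mul, T.u_mul]⟩
  let T2 : Coc C G X := ⟨T1.act, fun _ g => i g, T1.act_one, T1.act_mul,
    fun _ => map_one i, fun _ g k => map_mul i g k⟩
  have e1 : ((whInv G).comap T.hom).c (B.map (mapDomainRingHom ℤ i)) =
      ((whInv G).comap T1.hom).c B := by
    have : ∀ a, T.hom (mapDomainRingHom ℤ i a) = T1.hom a := fun a => by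
      induction a using MonoidAlgebra.induction_linear with
      | zero => simp
      | add a b ha hb => simp only [map_add, ha, hb]
      | single g a =>
        ext1 k l
        rw [show mapDomainRingHom ℤ i (single g a) = single (i g) a by simp, Coc.hom_single,
          Coc.hom_single]
    refine congrArg (whInv G).c ?_
    ext1 p q
    exact congrFun (congrFun (this _) _) _
  have e2 : (((whInv G).pull (mapDomainRingHom ℤ i)).comap (theta (T.perm.comp i))).c B =
      ((whInv G).comap T2.hom).c B := by
    have : ∀ a k l, mapDomainRingHom ℤ i (theta (T.perm.comp i) a k l) = T2.hom a k l :=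
      fun a k l => by
      induction a using MonoidAlgebra.induction_linear with
      | zero => simp
      | add a b ha hb => simp only [map_add, Matrix.add_apply, ha, hb]
      | single g a =>
        rw [Coc.hom_single, theta_single]
        by_cases h : T.act k (i g) = l
        · simp [Coc.perm, h, T1, T2]
        · simp [Coc.perm, h, T1, T2]
    refine congrArg (whInv G).c ?_
    ext1 p q
    exact this _ _ _
  have comm : ∀ a b : C, a * b = b * a := (IsCyclic.commGroup (α := C)).mul_comm
  let p : X → Prop := fun x => ∃ g, T1.act x g = x ∧ 6 < orderOf (i g)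
  have hp : ∀ x g, p x → p (T1.act x g) := by
    rintro x g ⟨k, h1, h2⟩
    exact ⟨k, by rw [← T1.act_mul, comm, T1.act_mul, h1], h2⟩
  have hq : ∀ x g, ¬ p x → ¬ p (T1.act x g) := fun x g h1 h2 =>
    h1 (T1.act_inv x g ▸ hp _ g⁻¹ h2)
  have e3 : ((whInv G).comap (T1.partB p hp).hom).c B =
      ((whInv G).comap (T2.partB p hp).hom).c B := by
    refine Coc.coh (T1.partB p hp) (T2.partB p hp) rfl ?_ (whInv G) hB
    rintro ⟨x, g0, h1, h2⟩
    let St : Subgroup C :=
      { carrier := {g | T1.act x g = x}
        one_mem' := T1.act_one x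
        mul_mem' := fun {a b} (p : T1.act x a = x) (q : T1.act x b = x) => by
          change T1.act x (a * b) = x
          rw [T1.act_mul, p, q]
        inv_mem' := fun {a} (p : T1.act x a = x) => by
          have := T1.act_inv x a
          rwa [p] at this }
    let f : St →* G :=
      { toFun := fun g => T1.u x g
        map_one' := T1.u_one x
        map_mul' := fun a b => by
          rw [Subgroup.coe_mul, T1.u_mul, show T1.act x a = x from a.2] }
    obtain ⟨s, hs⟩ := IsCyclic.exists_generator (α := St)
    have h6 : 6 < orderOf (i s) := by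
      obtain ⟨k, hk⟩ := hs ⟨g0, h1⟩
      have e : g0 = (s : C) ^ k := congrArg Subtype.val hk.symm
      refine h2.trans_le (Nat.le_of_dvd (i.isOfFinOrder (isOfFinOrder_of_finite _)).orderOf_pos ?_)
      rw [e, map_zpow]
      exact orderOf_dvd_of_mem_zpowers ⟨k, rfl⟩
    obtain ⟨t, ht⟩ := isConj_iff.1 ((h x s s.2).1 h6).symm
    refine ⟨t, fun g hg => ?_⟩
    obtain ⟨k, hk⟩ := hs ⟨g, congrArg Subtype.val hg⟩
    have e1 : g = (s : C) ^ k := congrArg Subtype.val hk.symm
    have e2 : T1.u x g = f s ^ k := by rw [← map_zpow]; exact congrArg f hk.symm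
    change T1.u x g = t * i g * t⁻¹
    rw [e2, e1, map_zpow, ← conj_zpow, ht]
    rfl
  have sm : ∀ (x : {x // ¬ p x}) (g : C), T1.act x.1 g = x.1 → orderOf (i g) ≤ 6 :=
    fun x g e => not_lt.1 fun h6 => x.2 ⟨g, e, h6⟩
  have s1 := coc_small (T1.partB (fun x => ¬ p x) hq) (fun x g e =>
    (h x.1 g (congrArg Subtype.val e)).2 (sm x g (congrArg Subtype.val e))) hB
  have s2 := coc_small (T2.partB (fun x => ¬ p x) hq)
    (fun x g e => sm x g (congrArg Subtype.val e)) hB
  rw [e1, e2, T1.partB_add p hp hq (whInv G) hB, T2.partB_add p hp hq (whInv G) hB, e3,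
    add_sub_add_left_eq_sub]
  exact sub_mem s1 s2

end Pool.Agent.Lib.MP_2add11_gt.IG
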