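import Pool.Agent.Lib.MP_2add11_gt.IG.SepDef

/-!
Separation of conjugacy classes asked only for powers of elements of order greater than six.
-/

noncomputable section

namespace Pool.Agent.Lib.MP_2add11_gt.IG

open Matrix MonoidAlgebra FG Subgroup

variable {G : Type} [Group G]

/-- Powers of elements of finite order > 6 that are conjugate in all finite quotients are conjugate. -/
def TCS7 (G : Type) [Group G] : Prop :=
  ∀ a b : G, 6 < orderOf a → 6 < orderOf b → ∀ x ∈ zpowers a, ∀ y ∈ zpowers b,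
    (∀ (N : Subgroup G) [N.Normal] [N.FiniteIndex], IsConj (x : G ⧸ N) (y : G ⧸ N)) → IsConj x y

theorem op_of {Q : Type} [Group Q] [Fintype Q] (q : G →* Q) (d : G) (j : zpowers (q d) →* G) :
    ∃ (X : Type) (_ : Fintype X) (_ : DecidableEq X) (T : Coc G G X) (m : ℕ),
      (∀ (W : Type) [AddCommGroup W] (c : Inv (MonoidAlgebra ℤ G) W),
        ∀ y ∈ Alg (c.comap T.hom), y ∈ symm c) ∧
      (∀ x g, T.act x g = x → ∃ z : zpowers (q d), T.u x g = j z ∧ IsConj (z : Q) (q g)) ∧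
      ∀ g, ∑ x : Q, ind (q d) (x * q g * x⁻¹) = m * (T.perm g).trace := by
  have := Fintype.ofFinite (zpowers (q d))
  obtain ⟨T0, hT⟩ := exists_tr (zpowers (q d))
  let T1 : Coc G (zpowers (q d)) T0.κ :=
    { act := fun x g => (T0.e (T0.t x * q g)).2
      u := fun x g => (T0.e (T0.t x * q g)).1
      act_one := fun x => by rw [q.map_one, mul_one, T0.e_t]
      act_mul := fun x g h => by rw [q.map_mul, T0.e_mul]
      u_one := fun x => by rw [q.map_one, mul_one, T0.e_t]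
      u_mul := fun x g h => by rw [q.map_mul, T0.e_mul] }
  let T : Coc G G T0.κ :=
    { act := T1.act
      u := fun x g => j (T1.u x g)
      act_one := T1.act_one
      act_mul := T1.act_mul
      u_one := fun x => by rw [T1.u_one, map_one]
      u_mul := fun x g h => by rw [T1.u_mul, map_mul] }
  have hh : ∀ a k l, T.hom a k l = mapDomainRingHom ℤ j (T1.hom a k l) := fun a k l => by
    induction a using MonoidAlgebra.induction_linear with
    | zero => simp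
    | add a b ha hb => simp only [map_add, Matrix.add_apply, ha, hb]
    | single g a =>
      rw [Coc.hom_single, Coc.hom_single]
      change (if T1.act k g = l then _ else _) = _
      split_ifs <;> simp [T]
  refine ⟨T0.κ, inferInstance, inferInstance, T, Fintype.card (zpowers (q d)), ?_, ?_,
    fun g => T0.trace_perm (q d) (by simp [hT]) (q g)⟩
  · rintro W _ c _ ⟨ι, _, _, r, h1, h2, rfl⟩
    have h3 : (c.comap T.hom).c (jac r) ∈ Alg (c.pull (mapDomainRingHom ℤ j)) := by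
      refine T1.alg _ ⟨ι, _, _, r, h1, h2, congrArg c.c ?_⟩
      ext1 p p'
      exact hh _ _ _
    exact ⟨Alg.push c j h3, Alg.push c j (NegCl.finite _ _ _ _ h3)⟩
  · intro x g h
    have s := T0.spec (T0.t x * q g)
    rw [show (T0.e (T0.t x * q g)).2 = x from h, hT] at s
    refine ⟨_, rfl, isConj_iff.2 ⟨(T0.t x)⁻¹, ?_⟩⟩
    rw [inv_inv, mul_assoc]
    exact inv_mul_eq_iff_eq_mul.2 s

theorem exists_op7 {Q : Type} [Group Q] [Fintype Q] (q : G →* Q) (S : Set G)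
    (hsep : ∀ a ∈ S, ∀ b ∈ S, 6 < orderOf a → 6 < orderOf b → ∀ x ∈ zpowers a, ∀ y ∈ zpowers b,
      IsConj (q x) (q y) → IsConj x y) {d : G} (hd : d ∈ S) (hf : IsOfFinOrder d) :
    ∃ (X : Type) (_ : Fintype X) (_ : DecidableEq X) (T : Coc G G X) (m : ℕ),
      (∀ (W : Type) [AddCommGroup W] (c : Inv (MonoidAlgebra ℤ G) W),
        ∀ y ∈ Alg (c.comap T.hom), y ∈ symm c) ∧
      (∀ x, ∀ g ∈ S, IsOfFinOrder g → T.act x g = x → (6 < orderOf g → IsConj (T.u x g) g) ∧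
        (orderOf g ≤ 6 → orderOf (T.u x g) ≤ 6)) ∧
      ∀ g, ∑ x : Q, ind (q d) (x * q g * x⁻¹) = m * (T.perm g).trace := by
  have inj : ∀ a ∈ S, 6 < orderOf a → ∀ x ∈ zpowers a, q x = 1 → x = 1 := fun a ha h6 x hx e =>
    isConj_one_left.1 (hsep a ha a ha h6 h6 x hx 1 (one_mem _) (by rw [e, q.map_one]))
  have small : ∀ (j : zpowers (q d) →* G) (z : zpowers (q d)) (g : G), IsOfFinOrder g →
      IsConj (z : Q) (q g) → orderOf g ≤ 6 → orderOf (j z) ≤ 6 := fun j z g hg hc h6 => by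
    refine (orderOf_le_of_pow_eq_one hg.orderOf_pos ?_).trans h6
    have := hc.pow (orderOf g)
    rw [← q.map_pow, pow_orderOf_eq_one, q.map_one, isConj_one_left] at this
    rw [← j.map_pow, show z ^ orderOf g = 1 from Subtype.ext this, j.map_one]
  by_cases h6 : 6 < orderOf d
  · let φ : zpowers d →* zpowers (q d) := (q.comp (zpowers d).subtype).codRestrict _ (by
      rintro ⟨_, k, rfl⟩
      exact ⟨k, (map_zpow q d k).symm⟩)
    have hφ : Function.Bijective φ := by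
      refine ⟨(injective_iff_map_eq_one φ).2 fun a h => Subtype.ext ?_, ?_⟩
      · exact inj d hd h6 a a.2 (congrArg Subtype.val h)
      · rintro ⟨_, k, rfl⟩
        exact ⟨⟨_, k, rfl⟩, Subtype.ext (map_zpow q d k)⟩
    let e := MulEquiv.ofBijective φ hφ
    let j : zpowers (q d) →* G := (zpowers d).subtype.comp e.symm.toMonoidHom
    have j1 : ∀ z, q (j z) = z := fun z => congrArg Subtype.val (e.apply_symm_apply z)
    obtain ⟨X, _, _, T, m, a, b, c⟩ := op_of q d j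
    refine ⟨X, _, _, T, m, a, fun x g hg fg h => ?_, c⟩
    obtain ⟨z, e1, e2⟩ := b x g h
    rw [e1]
    exact ⟨fun g6 => hsep d hd g hg h6 g6 _ (e.symm z).2 g (mem_zpowers g) (j1 z ▸ e2),
      small j z g fg e2⟩
  · obtain ⟨X, _, _, T, m, a, b, c⟩ := op_of q d 1
    refine ⟨X, _, _, T, m, a, fun x g hg fg h => ?_, c⟩
    obtain ⟨⟨_, k, rfl⟩, e1, e2⟩ := b x g h
    rw [e1]
    refine ⟨fun g6 => absurd (g6.trans_le (orderOf_le_of_pow_eq_one hf.orderOf_pos
      (inj g hg g6 _ (pow_mem (mem_zpowers g) _) ?_))) h6, small 1 _ g fg e2⟩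
    have := e2.pow (orderOf d)
    change IsConj ((q d ^ k) ^ orderOf d) _ at this
    rw [← _root_.zpow_natCast, ← _root_.zpow_mul, mul_comm, _root_.zpow_mul, _root_.zpow_natCast,
      ← q.map_pow, pow_orderOf_eq_one, q.map_one, _root_.one_zpow, isConj_one_right] at this
    rw [q.map_pow, this]

theorem exists_sep7 (h : TCS7 G) (S0 : Set G) (h0 : S0.Finite) (h1 : ∀ a ∈ S0, IsOfFinOrder a) :
    ∃ (Q : Type) (_ : Group Q) (_ : Fintype Q) (q : G →* Q) (S : Set G),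
      Function.Surjective q ∧ S0 ⊆ S ∧ (∀ a ∈ S, IsOfFinOrder a) ∧
      (∀ a ∈ S, ∀ b ∈ zpowers a, b ∈ S) ∧ (∀ a ∈ S, ∀ x, x * a * x⁻¹ ∈ S) ∧
      ∀ a ∈ S, ∀ b ∈ S, 6 < orderOf a → 6 < orderOf b → ∀ x ∈ zpowers a, ∀ y ∈ zpowers b,
        IsConj (q x) (q y) → IsConj x y := by
  let P : Set G := ⋃ a ∈ S0, (zpowers a : Set G)
  let Big : G → Prop := fun x => ∃ a, 6 < orderOf a ∧ x ∈ zpowers a
  have hP : P.Finite := h0.biUnion fun a ha => (h1 a ha).finite_zpowers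
  have hPf : ∀ p ∈ P, IsOfFinOrder p := fun p hp => by
    obtain ⟨a, ha, k, rfl⟩ := Set.mem_iUnion₂.1 hp
    exact (h1 a ha).zpow
  have hPp : ∀ p ∈ P, ∀ k : ℤ, p ^ k ∈ P := fun p hp k => by
    obtain ⟨a, ha, hp⟩ := Set.mem_iUnion₂.1 hp
    exact Set.mem_iUnion₂.2 ⟨a, ha, (zpowers a).zpow_mem hp k⟩
  have := hP.to_subtype
  have key : ∀ z : P × P, ∃ (N : Subgroup G) (_ : N.Normal), N.FiniteIndex ∧ (Big z.1 → Big z.2 →
      IsConj ((z.1 : G) : G ⧸ N) ((z.2 : G) : G ⧸ N) → IsConj (z.1 : G) z.2) := fun z => by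
    by_contra hn
    refine hn ⟨⊤, inferInstance, inferInstance, fun ⟨a, a6, ha⟩ ⟨b, b6, hb⟩ _ =>
      h a b a6 b6 _ ha _ hb fun N _ _ => ?_⟩
    by_contra hc
    exact hn ⟨N, inferInstance, inferInstance, fun _ _ e => absurd e hc⟩
  choose N hN hI hS using key
  have : (⨅ z, N z).Normal := Subgroup.normal_iInf_normal hN
  have : (⨅ z, N z).FiniteIndex := Subgroup.finiteIndex_iInf hI
  have red : ∀ a p, p ∈ P → IsConj p a → 6 < orderOf a → ∀ x ∈ zpowers a,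
      ∃ p' ∈ P, Big p' ∧ IsConj p' x := by
    rintro a p hp e a6 _ ⟨k, rfl⟩
    obtain ⟨x, rfl⟩ := isConj_iff.1 e
    refine ⟨p ^ k, hPp p hp k, ⟨p, ?_, k, rfl⟩, isConj_iff.2 ⟨x, conj_zpow.symm⟩⟩
    rwa [SemiconjBy.orderOf_eq x (SemiconjBy.conj_mk x p)]
  refine ⟨G ⧸ ⨅ z, N z, inferInstance, Fintype.ofFinite _, QuotientGroup.mk' _,
    {g | ∃ p ∈ P, IsConj p g}, QuotientGroup.mk'_surjective _,
    fun a ha => ⟨a, Set.mem_iUnion₂.2 ⟨a, ha, mem_zpowers a⟩, .refl a⟩, ?_, ?_, ?_, ?_⟩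
  · rintro a ⟨p, hp, e⟩
    obtain ⟨x, rfl⟩ := isConj_iff.1 e
    exact (MulAut.conj x).toMonoidHom.isOfFinOrder (hPf p hp)
  · rintro a ⟨p, hp, e⟩ _ ⟨k, rfl⟩
    obtain ⟨x, rfl⟩ := isConj_iff.1 e
    exact ⟨p ^ k, hPp p hp k, isConj_iff.2 ⟨x, conj_zpow.symm⟩⟩
  · rintro a ⟨p, hp, e⟩ x
    exact ⟨p, hp, e.trans (isConj_iff.2 ⟨x, rfl⟩)⟩
  · rintro a ⟨p0, hp0, e0⟩ b ⟨p1, hp1, e1⟩ a6 b6 x hx y hy hc
    obtain ⟨p, hp, bp, e⟩ := red a p0 hp0 e0 a6 x hx
    obtain ⟨p', hp', bp', e'⟩ := red b p1 hp1 e1 b6 y hy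
    have h2 := (((QuotientGroup.mk' _).map_isConj e).trans hc).trans
      ((QuotientGroup.mk' _).map_isConj e').symm
    have := hN (⟨p, hp⟩, ⟨p', hp'⟩)
    have h3 := (QuotientGroup.map (⨅ z, N z) (N (⟨p, hp⟩, ⟨p', hp'⟩)) (MonoidHom.id G)
      (iInf_le N _)).map_isConj h2
    exact (e.symm.trans (hS (⟨p, hp⟩, ⟨p', hp'⟩) bp bp' h3)).trans e'

end Pool.Agent.Lib.MP_2add11_gt.IG
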