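import Pool.Agent.Lib.MP_2add11_gt.IG.SepSix
import Pool.Agent.Lib.MP_2add11_gt.IG.SepCoh

/-!
Cocycles split along invariant subsets; cocycles whose values at fixed points have order at most
six give classes with a symmetric positive multiple.
-/

noncomputable section

namespace Pool.Agent.Lib.MP_2add11_gt.IG

open Matrix MonoidAlgebra FG Subgroup

namespace Coc

variable {G C X W : Type} [Group G] [Group C] [AddCommGroup W]

/-- The restriction of a cocycle to an invariant subset. -/
def sub (T : Coc C G X) (p : X → Prop) (hp : ∀ x a, p x → p (T.act x a)) :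
    Coc C G {x // p x} where
  act x a := ⟨T.act x.1 a, hp _ _ x.2⟩
  u x a := T.u x.1 a
  act_one x := Subtype.ext (T.act_one x.1)
  act_mul x g h := Subtype.ext (T.act_mul x.1 g h)
  u_one x := T.u_one x.1
  u_mul x g h := T.u_mul x.1 g h

theorem not_inv (T : Coc C G X) {p : X → Prop} (hp : ∀ x a, p x → p (T.act x a)) (x : X) (a : C)
    (h : ¬ p x) : ¬ p (T.act x a) := fun h' => h (T.act_inv x a ▸ hp _ a⁻¹ h')

variable [Fintype X] [DecidableEq X] {n : Type} [Fintype n] [DecidableEq n]

theorem sub_hom (T : Coc C G X) (p : X → Prop) [DecidablePred p]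
    (hp : ∀ x a, p x → p (T.act x a)) (a : MonoidAlgebra ℤ C) (k l : {x // p x}) :
    T.hom a k.1 l.1 = (T.sub p hp).hom a k l := by
  induction a using MonoidAlgebra.induction_linear with
  | zero => simp
  | add a b ha hb => simp only [map_add, Matrix.add_apply, ha, hb]
  | single g a =>
    rw [hom_single, hom_single]
    exact if_congr (Subtype.ext_iff (a1 := (T.sub p hp).act k g) (a2 := l)).symm rfl rfl

theorem hom_off (T : Coc C G X) {p : X → Prop} (hp : ∀ x a, p x → p (T.act x a))
    (a : MonoidAlgebra ℤ C) {k l : X} (hk : p k) (hl : ¬ p l) : T.hom a k l = 0 := by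
  induction a using MonoidAlgebra.induction_linear with
  | zero => simp
  | add a b ha hb => simp only [map_add, Matrix.add_apply, ha, hb, add_zero]
  | single g a =>
    rw [hom_single, if_neg]
    rintro rfl
    exact hl (hp _ _ hk)

theorem split (T : Coc C G X) (p : X → Prop) [DecidablePred p]
    (hp : ∀ x a, p x → p (T.act x a)) (c : Inv (MonoidAlgebra ℤ G) W)
    {B : Matrix n n (MonoidAlgebra ℤ C)} (hB : IsUnit B) :
    (c.comap T.hom).c B = (c.comap (T.sub p hp).hom).c B +
      (c.comap (T.sub (fun x => ¬ p x) (T.not_inv hp)).hom).c B := by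
  let D : (n × {x // p x}) ⊕ (n × {x // ¬ p x}) ≃ n × X :=
    (Equiv.prodSumDistrib _ _ _).symm.trans ((Equiv.refl n).prodCongr (Equiv.sumCompl p))
  have e : (comp _ _ _ _ _ (B.map T.hom)).submatrix D D =
      fromBlocks (comp _ _ _ _ _ (B.map (T.sub p hp).hom)) 0 0
        (comp _ _ _ _ _ (B.map (T.sub (fun x => ¬ p x) (T.not_inv hp)).hom)) := by
    ext1 (⟨i, k⟩ | ⟨i, k⟩) (⟨j, l⟩ | ⟨j, l⟩)
    · exact T.sub_hom p hp (B i j) k l
    · exact T.hom_off hp (B i j) k.2 l.2
    · exact T.hom_off (T.not_inv hp) (B i j) k.2 (not_not.2 l.2)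
    · exact T.sub_hom _ (T.not_inv hp) (B i j) k l
  refine (c.sub D (isUnit_cm _ hB)).symm.trans ?_
  rw [e]
  exact c.blocks (isUnit_cm _ hB) (isUnit_cm _ hB)

end Coc

variable {G : Type} [Group G]

theorem coc_small_orbit {X C n : Type} [Fintype X] [DecidableEq X] [Group C] [Finite C] [Fintype n]
    [DecidableEq n] (T : Coc C G X) (x0 : X) (ht : ∀ x, ∃ a, T.act x0 a = x)
    (h : ∀ g, T.act x0 g = x0 → orderOf (T.u x0 g) ≤ 6)
    {B : Matrix n n (MonoidAlgebra ℤ C)} (hB : IsUnit B) :
    ((whInv G).comap T.hom).c B ∈ root (symm (whInv G)) := by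
  choose b hb using ht
  let H : Subgroup G :=
    { carrier := {y | ∃ g, T.act x0 g = x0 ∧ T.u x0 g = y}
      one_mem' := ⟨1, T.act_one _, T.u_one _⟩
      mul_mem' := by
        rintro _ _ ⟨g, e, rfl⟩ ⟨g', e', rfl⟩
        exact ⟨g * g', by rw [T.act_mul, e, e'], by rw [T.u_mul, e]⟩
      inv_mem' := by
        rintro _ ⟨g, e, rfl⟩
        exact ⟨g⁻¹, by simpa only [e] using T.act_inv x0 g, by simpa only [e] using T.u_inv x0 g⟩ }
  have : Finite H := ((Set.finite_range (T.u x0)).subset (t := (H : Set G)) (by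
    rintro _ ⟨g, _, e⟩
    exact ⟨g, e⟩)).to_subtype
  have hm : ∀ x a, T.u x0 (b x) * T.u x a * (T.u x0 (b (T.act x a)))⁻¹ ∈ H := fun x a => by
    have h1 := T.act_inv x0 (b (T.act x a))
    have h2 := T.u_inv x0 (b (T.act x a))
    rw [hb] at h1 h2
    exact ⟨b x * a * (b (T.act x a))⁻¹, by rw [T.act_mul, T.act_mul, hb, h1],
      by rw [T.u_mul, T.u_mul, T.act_mul, hb, h2]⟩
  let T1 : Coc C H X :=
    { act := T.act
      u := fun x a => ⟨_, hm x a⟩
      act_one := T.act_one
      act_mul := T.act_mul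
      u_one := fun x => Subtype.ext (by simp [T.u_one, T.act_one])
      u_mul := fun x g g' => Subtype.ext (by
        simp only [T.u_mul x, T.act_mul, Subgroup.coe_mul]
        group) }
  let T2 : Coc C G X :=
    { act := T.act
      u := fun x a => T1.u x a
      act_one := T.act_one
      act_mul := T.act_mul
      u_one := fun x => congrArg Subtype.val (T1.u_one x)
      u_mul := fun x g g' => congrArg Subtype.val (T1.u_mul x g g') }
  have key : ∀ (a : MonoidAlgebra ℤ C) (k l : X),
      T2.hom a k l = mapDomainRingHom ℤ H.subtype (T1.hom a k l) := fun a k l => by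
    induction a using MonoidAlgebra.induction_linear with
    | zero => simp
    | add a b ha hb => simp only [map_add, Matrix.add_apply, ha, hb]
    | single g a =>
      rw [Coc.hom_single, Coc.hom_single]
      by_cases e : T.act k g = l
      · rw [if_pos (show T2.act k g = l from e), if_pos (show T1.act k g = l from e)]
        simp [T2]
      · rw [if_neg (show ¬ T2.act k g = l from e), if_neg (show ¬ T1.act k g = l from e), map_zero]
  rw [Coc.cob T T2 rfl (fun x => (T.u x0 (b x))⁻¹) (fun x a => by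
    change _ = _ * (T.u x0 (b x) * T.u x a * (T.u x0 (b (T.act x a)))⁻¹) * _
    group) _ hB]
  have := root_push (C := H) (fun ⟨y, g, e, e'⟩ => by
    rw [← Subgroup.orderOf_coe]
    exact e' ▸ h g e) H.subtype (isUnit_cm T1.hom hB)
  refine (congrArg (· ∈ root (symm (whInv G))) (congrArg (whInv G).c ?_)).mpr this
  ext1 p q
  exact key _ _ _

theorem coc_small {X C n : Type} [Fintype X] [DecidableEq X] [Group C] [Finite C] [Fintype n]
    [DecidableEq n] (T : Coc C G X) (h : ∀ x g, T.act x g = x → orderOf (T.u x g) ≤ 6)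
    {B : Matrix n n (MonoidAlgebra ℤ C)} (hB : IsUnit B) :
    ((whInv G).comap T.hom).c B ∈ root (symm (whInv G)) := by
  classical
  induction hk : Fintype.card X using Nat.strong_induction_on generalizing X with
  | _ k ih =>
  rcases isEmpty_or_nonempty X with _ | ⟨⟨x0⟩⟩
  · have e : ((whInv G).comap T.hom).c B = (whInv G).c (1 : Matrix (n × X) (n × X) _) :=
      congrArg (whInv G).c (Subsingleton.elim _ _)
    rw [e, Inv.one]
    exact zero_mem _
  have hp : ∀ x a, (∃ g, T.act x0 g = x) → ∃ g, T.act x0 g = T.act x a := by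
    rintro _ a ⟨g, rfl⟩
    exact ⟨g * a, T.act_mul _ _ _⟩
  rw [T.split _ hp _ hB]
  refine add_mem (coc_small_orbit _ ⟨x0, 1, T.act_one _⟩ (fun ⟨x, g, e⟩ => ⟨g, Subtype.ext e⟩)
    (fun g e => h x0 g (congrArg Subtype.val e)) hB) (ih _ ?_ _
      (fun x g e => h x.1 g (congrArg Subtype.val e)) rfl)
  exact hk ▸ Fintype.card_subtype_lt (x := x0) (not_not.2 ⟨1, T.act_one _⟩)

end Pool.Agent.Lib.MP_2add11_gt.IG
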