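import Pool.Agent.Lib.MP_2add11_gt.IG.Sep7
import Pool.Agent.Lib.MP_2add11_gt.IG.ClsA

/-!
The separation criterion, element by element.
-/

noncomputable section

namespace Pool.Agent.Lib.MP_2add11_gt.IG

open Matrix MonoidAlgebra FG Subgroup

variable {G : Type} [Group G]

theorem cyc_loc {τ : Wh G} (h : τ ∈ root (AddSubgroup.closure (FinCls G))) :
    ∃ k : ℕ, 0 < k ∧ k • τ ∈ AddSubgroup.closure (CycCls G) := by
  obtain ⟨k, hk, h1⟩ := h
  have h2 : AddSubgroup.closure (FinCls G) ≤ root (AddSubgroup.closure (CycCls G)) := by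
    rw [AddSubgroup.closure_le]
    rintro _ ⟨F, _, n, B, A, e, rfl⟩
    rw [← whInv_val, e]
    refine artin ((whInv G).pull (mapDomainRingHom ℤ F.subtype)) B.isUnit _ fun x T => ?_
    refine AddSubgroup.subset_closure ⟨zpowers x, inferInstance, inferInstance, inferInstance,
      F.subtype.comp T.i, Fin n × T.κ, inferInstance, inferInstance, _,
      isUnit_cm T.res B.isUnit, ?_⟩
    rw [mapDomainRingHom_comp]
    rfl
  obtain ⟨l, hl, h3⟩ := h2 h1
  exact ⟨l * k, mul_pos hl hk, by rwa [mul_nsmul']⟩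

theorem neg_loc (h2 : TCS7 G) {x : Wh G} (hx : x ∈ Alg (whInv G))
    (h1 : x ∈ root (AddSubgroup.closure (FinCls G))) : -x ∈ Alg (whInv G) := by
  classical
  obtain ⟨ι, _, _, r, hr1, hr2, rfl⟩ := hx
  obtain ⟨k, hk, hτ⟩ := cyc_loc h1
  obtain ⟨S0, a1, a2, a3⟩ := exists_cycIn hτ
  obtain ⟨Q, _, _, q, S, hq, hS0, hf, hp, hc, hs⟩ := exists_sep7 h2 S0 a1 a2
  let π := QuotientAddGroup.mk' (root (symm (whInv G)))
  let c := (whInv G).map π
  have hπ : ∀ y, π y = 0 ↔ y ∈ root (symm (whInv G)) := fun y => QuotientAddGroup.eq_zero_iff y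
  have hW : ∀ w : Wh G ⧸ root (symm (whInv G)), IsOfFinAddOrder w → w = 0 := fun w hw => by
    obtain ⟨y, rfl⟩ := QuotientAddGroup.mk'_surjective _ w
    obtain ⟨j, hj, e⟩ := isOfFinAddOrder_iff_nsmul_eq_zero.1 hw
    obtain ⟨l, hl, e'⟩ := (hπ (j • y)).1 (by rw [map_nsmul]; exact e)
    exact (hπ y).2 ⟨l * j, mul_pos hl hj, by rwa [mul_nsmul']⟩
  let Φ : (Q → ℤ) →+ (Q → ℤ) :=
    { toFun := fun f g => ∑ x, f (x * g * x⁻¹)
      map_zero' := by ext; simp
      map_add' := fun f f' => by ext; simp [Finset.sum_add_distrib] }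
  let V : AddSubgroup ((Q → ℤ) × (Wh G →+ Wh G ⧸ root (symm (whInv G)))) :=
    { carrier := {p | p.2 ((whInv G).c (jac r)) = 0 ∧
        ∀ (C : Type) [Group C] [Finite C] [IsCyclic C] (i : C →* G) (n : Type) [Fintype n]
          [DecidableEq n] (B : Matrix n n (MonoidAlgebra ℤ C)) (hB : IsUnit B), (∀ a, i a ∈ S) →
          ((fun a => Φ p.1 (q (i a))), p.2 ((whInv G).c (B.map (mapDomainRingHom ℤ i)))) ∈
            vir (c.pull (mapDomainRingHom ℤ i)) hB}
      zero_mem' := ⟨rfl, fun C _ _ _ i n _ _ B hB _ => by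
        rw [Prod.fst_zero, map_zero]
        exact (vir (c.pull (mapDomainRingHom ℤ i)) hB).zero_mem⟩
      add_mem' := fun {x y} hx hy => ⟨by
        rw [Prod.snd_add, AddMonoidHom.add_apply, hx.1, hy.1, add_zero], fun C _ _ _ i n _ _ B hB hi => by
        rw [Prod.fst_add, map_add]
        exact add_mem (hx.2 C i n B hB hi) (hy.2 C i n B hB hi)⟩
      neg_mem' := fun {x} hx => ⟨by
        rw [Prod.snd_neg, AddMonoidHom.neg_apply, hx.1, neg_zero], fun C _ _ _ i n _ _ B hB hi => by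
        rw [Prod.fst_neg, map_neg]
        exact neg_mem (hx.2 C i n B hB hi)⟩ }
  obtain ⟨⟨f, φ⟩, ⟨b1, b2⟩, b3⟩ := span_indZ (V.map (AddMonoidHom.fst _ _)) (q '' S)
    (by
      rintro _ ⟨d, hd, rfl⟩ _ ⟨j, rfl⟩
      exact ⟨d ^ j, hp d hd _ ⟨j, rfl⟩, map_zpow q d j⟩)
    (by
      rintro _ ⟨d, hd, rfl⟩
      obtain ⟨X, _, _, T, m, e1, e2, e3⟩ := exists_op7 q S hs hd (hf d hd)
      obtain ⟨ψ, hψ⟩ := exists_whLift (c.comap T.hom) (coc_triv c hW
        (fun g x hx => by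
          change π _ = 0
          rw [(whInv_triv g hx).2, map_zero]) T)
      have e4 : ψ ((whInv G).c (jac r)) = 0 := (hψ _ _ hr2).trans ((hπ _).2 ⟨1, one_pos, by
        rw [one_nsmul]
        exact e1 _ (whInv G) _ ⟨ι, _, _, r, hr1, hr2, rfl⟩⟩)
      refine ⟨(ind (q d), m • ψ), ⟨by rw [AddMonoidHom.nsmul_apply, e4, nsmul_zero],
        fun C _ _ _ i n _ _ B hB hi => ?_⟩, rfl⟩
      have e5 : (c.comap T.hom).c (B.map (mapDomainRingHom ℤ i)) =
          ((c.pull (mapDomainRingHom ℤ i)).comap (theta (T.perm.comp i))).c B :=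
        sub_eq_zero.1 ((map_sub π _ _).symm.trans ((hπ _).2
          (coc_taut7 T i (fun x g => e2 x _ (hi g) (hf _ (hi g))) hB)))
      have := nsmul_mem (mem_vir (c.pull (mapDomainRingHom ℤ i)) hB (T.perm.comp i)) m
      rw [← e5,
        ← hψ _ (B.map (mapDomainRingHom ℤ i)) (hB.map (mapDomainRingHom ℤ i).mapMatrix)] at this
      convert this using 1
      refine Prod.ext (funext fun a => ?_) rfl
      simpa [Φ] using e3 (i a))
  have b4 : ∀ y ∈ AddSubgroup.closure (CycIn S), φ y = Fintype.card Q • π y := fun y hy => by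
    induction hy using AddSubgroup.closure_induction with
    | mem y hy =>
      obtain ⟨C, _, _, _, i, n, _, _, B, hB, hi, rfl⟩ := hy
      refine (sub_eq_zero.1 (hW _ (vir_const (c.pull (mapDomainRingHom ℤ i)) hB _ _ ?_))).symm
      convert b2 C i n B hB hi using 3 with a
      rw [show f = (q '' S).indicator 1 from b3]
      change _ = ∑ x, (q '' S).indicator 1 (x * q (i a) * x⁻¹)
      rw [Finset.sum_congr rfl fun x _ => Set.indicator_of_mem (by
        obtain ⟨x, rfl⟩ := hq x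
        exact ⟨_, hc _ (hi a) x, by simp⟩) _]
      simp
    | zero => simp
    | add x y _ _ hx hy => rw [map_add, map_add, hx, hy, nsmul_add]
    | neg x _ hx => rw [map_neg, map_neg, hx, neg_nsmul]
  have s3 := b4 _ (cycIn_mono hS0 a3)
  rw [map_nsmul, show φ _ = 0 from b1, nsmul_zero, ← map_nsmul] at s3
  obtain ⟨j, hj, e⟩ := (hπ _).1 s3.symm
  refine neg_mem_of (k := j * (Fintype.card Q * k)) (mul_pos hj (mul_pos Fintype.card_pos hk))
    ⟨ι, _, _, r, hr1, hr2, rfl⟩ ?_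
  rw [mul_nsmul', mul_nsmul']
  exact e.2

theorem whStar_loc [Group.IsFinitelyPresented G] (h2 : TCS7 G) :
    ∃ H : AddSubgroup (Wh G), (H : Set (Wh G)) = WhStar G ∩
      {τ | ∃ k : ℕ, 0 < k ∧ k • τ ∈ AddSubgroup.closure (FinCls G)} := by
  refine ⟨symm (whInv G) ⊓ root (AddSubgroup.closure (FinCls G)), Set.ext fun x =>
    ⟨fun e => ⟨?_, e.2⟩, fun e => ⟨⟨?_, neg_mem_alg e.1⟩, e.2⟩⟩⟩
  · have := mem_whStarI e.1.2
    rwa [neg_neg] at this
  · have := neg_loc h2 (neg_mem_alg e.1) (neg_mem (show x ∈ root _ from e.2))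
    rwa [neg_neg] at this

end Pool.Agent.Lib.MP_2add11_gt.IG
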