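import Pool.Agent.Lib.MP_2add11_gt.IG.SepDef
import Pool.Agent.Lib.MP_2add11_gt.IG.Sat

/-!
Reduction of rational generation to finite cyclic groups; closure under inverses passes from the
Whitehead group to all invariants.
-/

noncomputable section

namespace Pool.Agent.Lib.MP_2add11_gt.IG

open Matrix MonoidAlgebra FG Subgroup

variable {G W : Type} [Group G] [AddCommGroup W]

theorem rg_cyc (h : RG G) (τ : Wh G) :
    ∃ k : ℕ, 0 < k ∧ k • τ ∈ AddSubgroup.closure (CycCls G) := by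
  obtain ⟨k, hk, h1⟩ := h τ
  have h2 : AddSubgroup.closure (FinCls G) ≤ root (AddSubgroup.closure (CycCls G)) := by
    rw [AddSubgroup.closure_le]
    rintro _ ⟨F, _, n, B, A, e, rfl⟩
    rw [← whInv_val, e]
    refine artin ((whInv G).pull (mapDomainRingHom ℤ F.subtype)) B.isUnit _ fun x T => ?_
    refine AddSubgroup.subset_closure ⟨zpowers x, inferInstance, inferInstance, inferInstance,
      F.subtype.comp T.i, Fin n × T.κ, inferInstance, inferInstance, _,
      isUnit_cm T.res B.isUnit, ?_⟩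
    rw [mapDomainRingHom_comp]
    rfl
  obtain ⟨l, hl, h3⟩ := h2 h1
  exact ⟨l * k, mul_pos hl hk, by rwa [mul_nsmul']⟩

theorem triv_alg (c : Inv (MonoidAlgebra ℤ G) W) (g : G) :
    c.c (Matrix.of fun _ _ : Unit => (.single g 1 : MonoidAlgebra ℤ G)) ∈ Alg c ∧
      c.c (Matrix.of fun _ _ : Unit => (-.single g 1 : MonoidAlgebra ℤ G)) ∈ Alg c := by
  have hu : ∀ x : MonoidAlgebra ℤ G, IsUnit x → IsUnit (Matrix.of fun _ _ : Unit => x) :=
    fun x hx => hx.map (scalar Unit)
  have e1 : jac (fun _ : Unit => FreeGroup.of (g, ())) =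
      Matrix.of fun _ _ : Unit => (.single g 1 : MonoidAlgebra ℤ G) := by
    ext1 i j
    simp [jac, FG.fox]
  have e2 : jac (fun _ : Unit => (FreeGroup.of (g, ()))⁻¹) =
      Matrix.of fun _ _ : Unit => (-.single g 1 : MonoidAlgebra ℤ G) := by
    ext1 i j
    simp [jac, FG.fox]
  exact ⟨⟨Unit, inferInstance, inferInstance, _, fun Γ _ γ h x => by
      simpa using h (x.1 * g⁻¹) (), e1 ▸ hu _ (whInv_triv g (.inl rfl)).1, by rw [e1]⟩,
    ⟨Unit, inferInstance, inferInstance, _, fun Γ _ γ h x => by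
      simpa using h (x.1 * g⁻¹) (), e2 ▸ hu _ (whInv_triv g (.inr rfl)).1, by rw [e2]⟩⟩

theorem triv_symm (c : Inv (MonoidAlgebra ℤ G) W) (g : G) (x : MonoidAlgebra ℤ G)
    (hx : x = .single g 1 ∨ x = -.single g 1) : c.c (Matrix.of fun _ _ : Unit => x) ∈ symm c := by
  have key : ∀ y z : MonoidAlgebra ℤ G, y * z = 1 → z * y = 1 →
      -c.c (Matrix.of fun _ _ : Unit => y) = c.c (Matrix.of fun _ _ : Unit => z) :=
    fun y z h1 h2 => by
      have a : (Matrix.of fun _ _ : Unit => y) * (Matrix.of fun _ _ : Unit => z) = 1 := by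
        ext1 i j
        simp [Matrix.mul_apply, h1]
      have b : (Matrix.of fun _ _ : Unit => z) * (Matrix.of fun _ _ : Unit => y) = 1 := by
        ext1 i j
        simp [Matrix.mul_apply, h2]
      have := c.mul (isUnit_of_inv a b) (isUnit_of_inv b a)
      rw [a, c.one] at this
      exact neg_eq_of_add_eq_zero_right this.symm
  have p : ∀ a b : G, a * b = 1 → (.single a 1 * .single b 1 : MonoidAlgebra ℤ G) = 1 :=
    fun a b h => by rw [single_mul_single, h, mul_one, MonoidAlgebra.one_def]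
  rcases hx with rfl | rfl
  · exact ⟨(triv_alg c g).1, key _ _ (p g g⁻¹ (by simp)) (p g⁻¹ g (by simp)) ▸ (triv_alg c g⁻¹).1⟩
  · exact ⟨(triv_alg c g).2, key _ (-.single g⁻¹ 1) (by rw [neg_mul_neg, p g g⁻¹ (by simp)])
      (by rw [neg_mul_neg, p g⁻¹ g (by simp)]) ▸ (triv_alg c g⁻¹).2⟩

theorem WCl.negCl (h : WCl G) : NegCl G := by
  rintro W _ c _ ⟨ι, _, _, r, h1, h2, rfl⟩
  obtain ⟨ι', _, _, r', h1', h2', e⟩ := neg_of_wh h (c.map (QuotientAddGroup.mk' (symm c)))
    (fun g x hx => (QuotientAddGroup.eq_zero_iff _).2 (triv_symm c g x hx))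
    ⟨ι, _, _, r, h1, h2, rfl⟩
  have h3 : c.c (jac r) + c.c (jac r') ∈ symm c := by
    rw [← QuotientAddGroup.eq_zero_iff, QuotientAddGroup.mk_add]
    exact add_eq_zero_iff_neg_eq.2 e
  have := add_mem h3.2 (show c.c (jac r') ∈ Alg c from ⟨ι', _, _, r', h1', h2', rfl⟩)
  rwa [neg_add, neg_add_cancel_right] at this

end Pool.Agent.Lib.MP_2add11_gt.IG
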