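import Pool.Agent.Lib.MP_2add11_gt.IG.SepDef
import Pool.Agent.Lib.MP_2add11_gt.IG.StMain

/-!
Groups whose Whitehead group is generated by the finite subgroups: finite groups, finite free
products of finite groups, retracts.
-/

noncomputable section

namespace Pool.Agent.Lib.MP_2add11_gt.IG

open Matrix MonoidAlgebra Monoid FG

theorem finCls_via {G H C : Type} [Group G] [Group H] [Group C] [Finite C] (f : H →* C)
    (g : C →* G) {n : ℕ} (A : GL (Fin n) (MonoidAlgebra ℤ H)) :
    (whInv G).c (A.val.map (mapDomainRingHom ℤ (g.comp f))) ∈ FinCls G := by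
  have h1 : IsUnit (A.val.map (mapDomainRingHom ℤ (g.rangeRestrict.comp f))) :=
    A.isUnit.map (mapDomainRingHom ℤ (g.rangeRestrict.comp f)).mapMatrix
  have h2 : IsUnit (A.val.map (mapDomainRingHom ℤ (g.comp f))) :=
    A.isUnit.map (mapDomainRingHom ℤ (g.comp f)).mapMatrix
  refine ⟨g.range, Finite.of_surjective _ g.rangeRestrict_surjective, n, h1.unit, h2.unit, ?_,
    by rw [← whInv_val, h2.unit_spec]⟩
  rw [h1.unit_spec, h2.unit_spec, Matrix.map_map, ← RingHom.coe_comp, ← mapDomainRingHom_comp]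
  rfl

theorem wh_ind {G : Type} [Group G] (U : AddSubgroup (Wh G))
    (h : ∀ (n : ℕ) (A : GL (Fin n) (MonoidAlgebra ℤ G)), Wh.cls A ∈ U) (τ : Wh G) : τ ∈ U := by
  obtain ⟨x, rfl⟩ := QuotientAddGroup.mk_surjective τ
  obtain ⟨y, rfl⟩ := QuotientAddGroup.mk_surjective x
  induction y using FreeAbelianGroup.induction_on with
  | zero => exact zero_mem _
  | of p => exact h _ p.2
  | neg p hp => exact neg_mem hp
  | add a b ha hb => exact add_mem ha hb

theorem RG.finite (G : Type) [Group G] [Finite G] : RG G := fun τ =>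
  ⟨1, one_pos, by
    rw [one_nsmul]
    refine wh_ind _ (fun n A => AddSubgroup.subset_closure ?_) τ
    have := finCls_via (MonoidHom.id G) (MonoidHom.id G) A
    rwa [MonoidHom.comp_id, mapDomainRingHom_id, RingHom.coe_id, Matrix.map_id, whInv_val] at this⟩

theorem RG.coprodI {K : Type} [Finite K] (G : K → Type) [∀ i, Group (G i)] [∀ i, Finite (G i)] :
    RG (CoprodI G) := fun τ => by
  classical
  have := Fintype.ofFinite K
  refine ⟨1, one_pos, ?_⟩
  rw [one_nsmul]
  refine wh_ind _ (fun n A => ?_) τ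
  have h0 : (whInv (CoprodI G)).c (A.val.map (eps _)) ∈ FinCls (CoprodI G) :=
    finCls_via (G := CoprodI G) (H := CoprodI G) (C := Unit) 1 1 A
  have h1 : ∀ i, (whInv (CoprodI G)).c (A.val.map (ee G i)) ∈ FinCls (CoprodI G) := fun i =>
    finCls_via (G := CoprodI G) (H := CoprodI G) (C := G i) (retr i) CoprodI.of A
  rw [← whInv_val A, split (whInv (CoprodI G)) A.isUnit]
  exact add_mem (AddSubgroup.subset_closure h0) (sum_mem fun i _ =>
    sub_mem (AddSubgroup.subset_closure (h1 i)) (AddSubgroup.subset_closure h0))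

end Pool.Agent.Lib.MP_2add11_gt.IG
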