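import Pool.Agent.Lib.MP_2add11_gt.IG.SepDef

/-!
The operator that pushes to a finite quotient, restricts to a cyclic subgroup and lifts back.
-/

noncomputable section

namespace Pool.Agent.Lib.MP_2add11_gt.IG

open Matrix MonoidAlgebra FG Subgroup

variable {G W : Type} [Group G] [AddCommGroup W]

theorem exists_op {Q : Type} [Group Q] [Fintype Q] (q : G →* Q) (S : Set G)
    (hfin : ∀ a ∈ S, IsOfFinOrder a) (hpow : ∀ a ∈ S, ∀ b ∈ zpowers a, b ∈ S)
    (hsep : ∀ a ∈ S, ∀ b ∈ S, IsConj (q a) (q b) → IsConj a b) {d : G} (hd : d ∈ S) :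
    ∃ (X : Type) (_ : Fintype X) (_ : DecidableEq X) (T : Coc G G X) (m : ℕ),
      (∀ (W : Type) [AddCommGroup W] (c : Inv (MonoidAlgebra ℤ G) W),
        ∀ y ∈ Alg (c.comap T.hom), y ∈ symm c) ∧
      (∀ x, ∀ g ∈ S, T.act x g = x → IsConj (T.u x g) g) ∧
      ∀ g, ∑ x : Q, ind (q d) (x * q g * x⁻¹) = m * (T.perm g).trace := by
  have _ := hfin
  have := Fintype.ofFinite (zpowers (q d))
  obtain ⟨T0, hT⟩ := exists_tr (zpowers (q d))
  let φ : zpowers d →* zpowers (q d) := (q.comp (zpowers d).subtype).codRestrict _ (by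
    rintro ⟨_, k, rfl⟩
    exact ⟨k, (map_zpow q d k).symm⟩)
  have hφ : Function.Bijective φ := by
    refine ⟨(injective_iff_map_eq_one φ).2 fun a h => Subtype.ext ?_, ?_⟩
    · have e : q a = q 1 := (congrArg Subtype.val h).trans (map_one q).symm
      exact isConj_one_left.1 (hsep _ (hpow d hd _ a.2) _ (hpow d hd _ (one_mem _))
        (e ▸ IsConj.refl _))
    · rintro ⟨_, k, rfl⟩
      exact ⟨⟨_, k, rfl⟩, Subtype.ext (map_zpow q d k)⟩
  let e := MulEquiv.ofBijective φ hφ
  let j : zpowers (q d) →* G := (zpowers d).subtype.comp e.symm.toMonoidHom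
  have j1 : ∀ z, q (j z) = z := fun z => congrArg Subtype.val (e.apply_symm_apply z)
  have j2 : ∀ z, j z ∈ S := fun z => hpow d hd _ (e.symm z).2
  let T1 : Coc G (zpowers (q d)) T0.κ :=
    { act := fun x g => (T0.e (T0.t x * q g)).2
      u := fun x g => (T0.e (T0.t x * q g)).1
      act_one := fun x => by rw [q.map_one, mul_one, T0.e_t]
      act_mul := fun x g h => by rw [q.map_mul, T0.e_mul]
      u_one := fun x => by rw [q.map_one, mul_one, T0.e_t]
      u_mul := fun x g h => by rw [q.map_mul, T0.e_mul] }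
  let T : Coc G G T0.κ :=
    { act := T1.act
      u := fun x g => j (T1.u x g)
      act_one := T1.act_one
      act_mul := T1.act_mul
      u_one := fun x => by rw [T1.u_one, map_one]
      u_mul := fun x g h => by rw [T1.u_mul, map_mul] }
  have hh : ∀ a k l, T.hom a k l = mapDomainRingHom ℤ j (T1.hom a k l) := fun a k l => by
    induction a using MonoidAlgebra.induction_linear with
    | zero => simp
    | add a b ha hb => simp only [map_add, Matrix.add_apply, ha, hb]
    | single g a =>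
      rw [Coc.hom_single, Coc.hom_single]
      change (if T1.act k g = l then _ else _) = _
      split_ifs <;> simp [T]
  refine ⟨T0.κ, inferInstance, inferInstance, T, Fintype.card (zpowers (q d)), ?_, ?_,
    fun g => T0.trace_perm (q d) (by simp [hT]) (q g)⟩
  · rintro W _ c _ ⟨ι, _, _, r, h1, h2, rfl⟩
    have h3 : (c.comap T.hom).c (jac r) ∈ Alg (c.pull (mapDomainRingHom ℤ j)) := by
      refine T1.alg _ ⟨ι, _, _, r, h1, h2, congrArg c.c ?_⟩
      ext1 p p'
      exact hh _ _ _
    exact ⟨Alg.push c j h3, Alg.push c j (NegCl.finite _ _ _ _ h3)⟩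
  · intro x g hg h
    have s := T0.spec (T0.t x * q g)
    rw [show (T0.e (T0.t x * q g)).2 = x from h, hT] at s
    refine hsep _ (j2 _) _ hg (isConj_iff.2 ⟨(T0.t x)⁻¹, ?_⟩)
    rw [j1, inv_inv, mul_assoc]
    exact inv_mul_eq_iff_eq_mul.2 s

end Pool.Agent.Lib.MP_2add11_gt.IG
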