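import Pool.Agent.Lib.MP_2add11_gt.IG.SepDef
import Pool.Agent.Lib.MP_2add11_gt.IG.SepCoh

/-!
A finite quotient separating finitely many conjugacy classes; indicator functions of power-closed
sets; monomial matrices.
-/

noncomputable section

namespace Pool.Agent.Lib.MP_2add11_gt.IG

open Matrix MonoidAlgebra FG Subgroup

variable {G W : Type} [Group G] [AddCommGroup W]

theorem exists_sep (h : TCS G) (S0 : Set G) (h0 : S0.Finite) (h1 : ∀ a ∈ S0, IsOfFinOrder a) :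
    ∃ (Q : Type) (_ : Group Q) (_ : Fintype Q) (q : G →* Q) (S : Set G),
      Function.Surjective q ∧ S0 ⊆ S ∧ (∀ a ∈ S, IsOfFinOrder a) ∧
      (∀ a ∈ S, ∀ b ∈ zpowers a, b ∈ S) ∧ (∀ a ∈ S, ∀ x, x * a * x⁻¹ ∈ S) ∧
      ∀ a ∈ S, ∀ b ∈ S, IsConj (q a) (q b) → IsConj a b := by
  let P : Set G := ⋃ a ∈ S0, (zpowers a : Set G)
  have hP : P.Finite := h0.biUnion fun a ha => (h1 a ha).finite_zpowers
  have hPf : ∀ p ∈ P, IsOfFinOrder p := fun p hp => by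
    obtain ⟨a, ha, k, rfl⟩ := Set.mem_iUnion₂.1 hp
    exact (h1 a ha).zpow
  have hPp : ∀ p ∈ P, ∀ k : ℤ, p ^ k ∈ P := fun p hp k => by
    obtain ⟨a, ha, hp⟩ := Set.mem_iUnion₂.1 hp
    exact Set.mem_iUnion₂.2 ⟨a, ha, (zpowers a).zpow_mem hp k⟩
  have := hP.to_subtype
  have key : ∀ z : P × P, ∃ (N : Subgroup G) (_ : N.Normal), N.FiniteIndex ∧
      (IsConj ((z.1 : G) : G ⧸ N) ((z.2 : G) : G ⧸ N) → IsConj (z.1 : G) z.2) := fun z => by
    by_contra hn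
    refine hn ⟨⊤, inferInstance, inferInstance, fun _ =>
      h _ _ (hPf _ z.1.2) (hPf _ z.2.2) fun N _ _ => ?_⟩
    by_contra hc
    exact hn ⟨N, inferInstance, inferInstance, fun e => absurd e hc⟩
  choose N hN hI hS using key
  have : (⨅ z, N z).Normal := Subgroup.normal_iInf_normal hN
  have : (⨅ z, N z).FiniteIndex := Subgroup.finiteIndex_iInf hI
  refine ⟨G ⧸ ⨅ z, N z, inferInstance, Fintype.ofFinite _, QuotientGroup.mk' _,
    {g | ∃ p ∈ P, IsConj p g}, QuotientGroup.mk'_surjective _,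
    fun a ha => ⟨a, Set.mem_iUnion₂.2 ⟨a, ha, mem_zpowers a⟩, .refl a⟩, ?_, ?_, ?_, ?_⟩
  · rintro a ⟨p, hp, e⟩
    obtain ⟨x, rfl⟩ := isConj_iff.1 e
    exact (MulAut.conj x).toMonoidHom.isOfFinOrder (hPf p hp)
  · rintro a ⟨p, hp, e⟩ _ ⟨k, rfl⟩
    obtain ⟨x, rfl⟩ := isConj_iff.1 e
    exact ⟨p ^ k, hPp p hp k, isConj_iff.2 ⟨x, conj_zpow.symm⟩⟩
  · rintro a ⟨p, hp, e⟩ x
    exact ⟨p, hp, e.trans (isConj_iff.2 ⟨x, rfl⟩)⟩
  · rintro a ⟨p, hp, e⟩ b ⟨p', hp', e'⟩ hc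
    have h2 := (((QuotientGroup.mk' _).map_isConj e).trans hc).trans
      ((QuotientGroup.mk' _).map_isConj e').symm
    have := hN (⟨p, hp⟩, ⟨p', hp'⟩)
    have h3 := (QuotientGroup.map (⨅ z, N z) (N (⟨p, hp⟩, ⟨p', hp'⟩)) (MonoidHom.id G)
      (iInf_le N _)).map_isConj h2
    exact (e.symm.trans (hS (⟨p, hp⟩, ⟨p', hp'⟩) h3)).trans e'

theorem span_indZ {Q : Type} [Group Q] [Finite Q] (U : AddSubgroup (Q → ℤ)) (Z : Set Q)
    (hZ : ∀ h ∈ Z, ∀ x ∈ zpowers h, x ∈ Z) (hU : ∀ h ∈ Z, ind h ∈ U) :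
    Z.indicator (1 : Q → ℤ) ∈ U := by
  classical
  refine span_indS U Z hZ hU _ (fun x y e => ?_) fun x hx => Set.indicator_of_notMem hx _
  have : x ∈ Z ↔ y ∈ Z :=
    ⟨fun h => hZ x h y (e ▸ mem_zpowers y), fun h => hZ y h x (e ▸ mem_zpowers x)⟩
  simp [Set.indicator_apply, this]

theorem coc_triv (c : Inv (MonoidAlgebra ℤ G) W) (hW : ∀ w : W, IsOfFinAddOrder w → w = 0)
    (hc : ∀ (g : G) (x : MonoidAlgebra ℤ G), x = .single g 1 ∨ x = -.single g 1 →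
      c.c (Matrix.of fun _ _ : Unit => x) = 0) {X : Type} [Fintype X] [DecidableEq X]
    (T : Coc G G X) (g : G) (x : MonoidAlgebra ℤ G) (hx : x = .single g 1 ∨ x = -.single g 1) :
    (c.comap T.hom).c (Matrix.of fun _ _ : Unit => x) = 0 := by
  obtain ⟨N, hN, hT⟩ : ∃ N : ℕ, 0 < N ∧ ∀ y, T.act y (g ^ N) = y := by
    have key : ∀ i j : ℕ, i < j → (fun y => T.act y (g ^ i)) = (fun y => T.act y (g ^ j)) →
        ∃ N : ℕ, 0 < N ∧ ∀ y, T.act y (g ^ N) = y := fun i j hij e => by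
      obtain ⟨k, rfl⟩ := Nat.exists_eq_add_of_lt hij
      refine ⟨k + 1, k.succ_pos, fun y => ?_⟩
      have h1 : T.act (T.act y (g ^ i)⁻¹) (g ^ i) = y := by
        rw [← T.act_mul, inv_mul_cancel, T.act_one]
      have := congrFun e (T.act y (g ^ i)⁻¹)
      beta_reduce at this
      rwa [add_assoc, pow_add, T.act_mul, h1, eq_comm] at this
    obtain ⟨i, j, hij, e⟩ := Finite.exists_ne_map_eq_of_infinite
      fun k : ℕ => fun y => T.act y (g ^ k)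
    rcases hij.lt_or_gt with h | h
    exacts [key i j h e, key j i h e.symm]
  have hT2 : ∀ y, T.act y (g ^ (2 * N)) = y := fun y => by
    rw [two_mul, pow_add, T.act_mul, hT, hT]
  let f : MonoidAlgebra ℤ G →+* Matrix Unit Unit (MonoidAlgebra ℤ G) := Matrix.scalar Unit
  have hf : ∀ y, (Matrix.of fun _ _ : Unit => y) = f y := fun y => by
    ext1 i j
    simp [f]
  have hp : x ^ (2 * N) = .single (g ^ (2 * N)) 1 := by
    rcases hx with rfl | rfl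
    · rw [single_pow, one_pow]
    · rw [(even_two_mul N).neg_pow, single_pow, one_pow]
  refine hW _ (isOfFinAddOrder_iff_nsmul_eq_zero.2 ⟨2 * N, by omega, ?_⟩)
  rw [hf, ← Inv.pow _ ((whInv_triv g hx).1.map f), ← map_pow, hp, ← hf,
    ← (c.diag (d := fun p : Unit × X => .single (T.u p.2 (g ^ (2 * N))) 1)
      (fun p => (whInv_triv _ (.inl rfl)).1) fun p => hc _ _ (.inl rfl)).2]
  refine congrArg c.c ?_
  ext1 ⟨i, k⟩ ⟨j, l⟩
  change T.hom (.single _ 1) k l = _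
  rw [Coc.hom_single, hT2, diagonal_apply]
  simp

end Pool.Agent.Lib.MP_2add11_gt.IG
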