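import Pool.Agent.Lib.MP_2add11_gt.IG.SepDef

/-!
A cocycle whose values at fixed points are conjugate to the acting elements is, on a cyclic group,
cohomologous to the tautological one.
-/

noncomputable section

namespace Pool.Agent.Lib.MP_2add11_gt.IG

open Matrix MonoidAlgebra FG Subgroup

variable {G W : Type} [Group G] [AddCommGroup W]

theorem coc_base {X C : Type} [Group C] [IsCyclic C] (T : Coc G G X) (i : C →* G)
    (h : ∀ x g, T.act x (i g) = x → IsConj (T.u x (i g)) (i g)) (x : X) :
    ∃ t : G, ∀ g, T.act x (i g) = x → T.u x (i g) = t * i g * t⁻¹ := by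
  let St : Subgroup C :=
    { carrier := {g | T.act x (i g) = x}
      one_mem' := by simp [T.act_one]
      mul_mem' := fun {a b} (p : T.act x (i a) = x) (q : T.act x (i b) = x) => by
        change T.act x (i (a * b)) = x
        rw [map_mul, T.act_mul, p, q]
      inv_mem' := fun {a} (p : T.act x (i a) = x) => by
        change T.act x (i a⁻¹) = x
        conv_lhs => rw [← p, ← T.act_mul, ← map_mul, mul_inv_cancel, map_one, T.act_one] }
  let f : St →* G :=
    { toFun := fun g => T.u x (i g)
      map_one' := by simp [T.u_one]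
      map_mul' := fun a b => by
        rw [Subgroup.coe_mul, map_mul, T.u_mul, show T.act x (i a) = x from a.2] }
  obtain ⟨s, hs⟩ := IsCyclic.exists_generator (α := St)
  obtain ⟨t, ht⟩ := isConj_iff.1 (h x s s.2).symm
  refine ⟨t, fun g hg => ?_⟩
  obtain ⟨k, hk⟩ := hs ⟨g, hg⟩
  have e1 : g = (s : C) ^ k := congrArg Subtype.val hk.symm
  have e2 : T.u x (i g) = f s ^ k := by rw [← map_zpow]; exact congrArg f hk.symm
  rw [e2, e1, map_zpow, ← conj_zpow, ht]
  rfl

theorem coc_cob {X C : Type} [Group C] [IsCyclic C] (T : Coc G G X) (i : C →* G)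
    (h : ∀ x g, T.act x (i g) = x → IsConj (T.u x (i g)) (i g)) :
    ∃ t : X → G, ∀ x g, T.u x (i g) = t x * i g * (t (T.act x (i g)))⁻¹ := by
  choose t0 h0 using coc_base T i h
  have inv : ∀ x (g : C), T.act (T.act x (i g)) (i g⁻¹) = x := fun x g => by
    rw [← T.act_mul, ← map_mul, mul_inv_cancel, map_one, T.act_one]
  let S : Setoid X := ⟨fun x y => ∃ g : C, T.act x (i g) = y,
    fun x => ⟨1, by rw [map_one, T.act_one]⟩, by
      rintro x _ ⟨g, rfl⟩
      exact ⟨_, inv x g⟩, by
      rintro x _ _ ⟨g, rfl⟩ ⟨g', rfl⟩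
      exact ⟨g * g', by rw [map_mul, T.act_mul]⟩⟩
  let b : X → X := fun x => (Quotient.mk S x).out
  have ex : ∀ x, ∃ g : C, T.act (b x) (i g) = x := fun x => Quotient.mk_out (s := S) x
  choose γ hγ using ex
  refine ⟨fun x => (T.u (b x) (i (γ x)))⁻¹ * t0 (b x) * i (γ x), fun x g => ?_⟩
  have hb : b (T.act x (i g)) = b x := congrArg Quotient.out (Quotient.sound (S.symm ⟨g, rfl⟩))
  have h1 := hγ (T.act x (i g))
  rw [hb] at h1
  have h2 : T.act (b x) (i (γ x * g * (γ (T.act x (i g)))⁻¹)) = b x := by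
    rw [map_mul, map_mul, T.act_mul, T.act_mul, hγ]
    conv_lhs => enter [2]; rw [← h1]
    exact inv _ _
  have h3 := T.u_mul (b x) (i (γ x * g * (γ (T.act x (i g)))⁻¹)) (i (γ (T.act x (i g))))
  rw [h2, h0 _ _ h2, ← map_mul, inv_mul_cancel_right, map_mul, T.u_mul, hγ] at h3
  simp only [hb]
  rw [← inv_mul_cancel_left (T.u (b x) (i (γ x))) (T.u x (i g)), h3]
  simp only [map_mul, map_inv, _root_.mul_inv_rev, inv_inv, mul_assoc]

theorem coc_taut (c : Inv (MonoidAlgebra ℤ G) W) {X C n : Type} [Fintype X] [DecidableEq X]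
    [Group C] [Finite C] [IsCyclic C] [Fintype n] [DecidableEq n] (T : Coc G G X) (i : C →* G)
    (h : ∀ x g, T.act x (i g) = x → IsConj (T.u x (i g)) (i g))
    {B : Matrix n n (MonoidAlgebra ℤ C)} (hB : IsUnit B) :
    (c.comap T.hom).c (B.map (mapDomainRingHom ℤ i)) =
      ((c.pull (mapDomainRingHom ℤ i)).comap (theta (T.perm.comp i))).c B := by
  obtain ⟨t, ht⟩ := coc_cob T i h
  have key : ∀ (a : MonoidAlgebra ℤ C) (k l : X), T.hom (mapDomainRingHom ℤ i a) k l =
      .single (t k) 1 * mapDomainRingHom ℤ i (theta (T.perm.comp i) a k l) *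
        .single (t l)⁻¹ 1 := fun a k l => by
    induction a using MonoidAlgebra.induction_linear with
    | zero => simp
    | add a b ha hb =>
      simp only [map_add, Matrix.add_apply, ha, hb, mul_add, add_mul]
    | single g a =>
      have : mapDomainRingHom ℤ i (single g a) = single (i g) a := by simp
      rw [this, Coc.hom_single, theta_single]
      by_cases h : T.act k (i g) = l
      · simp [Coc.perm, h, single_mul_single, ht]
      · simp [Coc.perm, h]
  refine Eq.trans (congrArg c.c ?_) (c.conj (P := diagonal fun p : n × X => .single (t p.2) 1)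
    (Q := diagonal fun p : n × X => .single (t p.2)⁻¹ 1)
    ((isUnit_cm _ hB).map (mapDomainRingHom ℤ i).mapMatrix) ?_ ?_)
  · ext1 p q
    rw [mul_diagonal, diagonal_mul]
    exact key _ _ _
  · simp [single_mul_single, ← MonoidAlgebra.one_def]
  · simp [single_mul_single, ← MonoidAlgebra.one_def]

end Pool.Agent.Lib.MP_2add11_gt.IG
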