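import Pool.Agent.Lib.MP_2add11_gt.IG.SepCyc
import Pool.Agent.Lib.MP_2add11_gt.IG.SepTaut
import Pool.Agent.Lib.MP_2add11_gt.IG.SepOp
import Pool.Agent.Lib.MP_2add11_gt.IG.SepQ

/-!
Rational generation by finite subgroups and separation of torsion classes give closure under
inverses.
-/

noncomputable section

namespace Pool.Agent.Lib.MP_2add11_gt.IG

open Matrix MonoidAlgebra FG Subgroup

variable {G W : Type} [Group G] [AddCommGroup W]

theorem vir_const [Finite G] (c : Inv (MonoidAlgebra ℤ G) W) {n : Type} [Fintype n]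
    [DecidableEq n] {A : Matrix n n (MonoidAlgebra ℤ G)} (hA : IsUnit A) (m : ℕ) (w : W)
    (h : ((fun _ => (m : ℤ)), w) ∈ vir c hA) : IsOfFinAddOrder (m • c.c A - w) := by
  have h5 := (vir c hA).nsmul_mem (mem_vir c hA (m := Unit) 1) m
  obtain ⟨r, s, h6, h7⟩ := (vir c hA).sub_mem h5 h
  have h8 := theta_char c hA r.ρ s.ρ fun g => by
    have := h6 g
    simp at this
    linarith
  rw [← h7] at h8
  have h9 : (c.comap (theta (m := Unit) 1)).c A = c.c A := by
    rw [← c.sub (Equiv.prodUnique n Unit) hA]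
    refine congrArg c.c ?_
    ext1 p q
    have : ∀ a : MonoidAlgebra ℤ G, theta (m := Unit) 1 a p.2 q.2 = a := fun a => by
      induction a using MonoidAlgebra.induction_linear with
      | zero => simp
      | add a b ha hb => rw [map_add, Matrix.add_apply, ha, hb]
      | single g a => simp [theta_single]
    exact this _
  simpa only [Prod.smul_mk, Prod.mk_sub_mk, h9] using h8

/-- The classes from finite cyclic groups with image in `S`. -/
def CycIn (S : Set G) : Set (Wh G) :=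
  {τ | ∃ (C : Type) (_ : Group C) (_ : Finite C) (_ : IsCyclic C) (i : C →* G) (n : Type)
    (_ : Fintype n) (_ : DecidableEq n) (B : Matrix n n (MonoidAlgebra ℤ C)), IsUnit B ∧
      (∀ a, i a ∈ S) ∧ τ = (whInv G).c (B.map (mapDomainRingHom ℤ i))}

theorem cycIn_mono {S S' : Set G} (h : S ⊆ S') :
    AddSubgroup.closure (CycIn S) ≤ AddSubgroup.closure (CycIn S') :=
  AddSubgroup.closure_mono fun _ ⟨C, a, b, c, i, n, d, e, B, h1, h2, h3⟩ =>
    ⟨C, a, b, c, i, n, d, e, B, h1, fun x => h (h2 x), h3⟩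

theorem exists_cycIn {y : Wh G} (h : y ∈ AddSubgroup.closure (CycCls G)) :
    ∃ S : Set G, S.Finite ∧ (∀ a ∈ S, IsOfFinOrder a) ∧ y ∈ AddSubgroup.closure (CycIn S) := by
  induction h using AddSubgroup.closure_induction with
  | mem y hy =>
    obtain ⟨C, a, b, c, i, n, d, e, B, h1, h3⟩ := hy
    refine ⟨Set.range i, Set.finite_range _, ?_,
      AddSubgroup.subset_closure ⟨C, a, b, c, i, n, d, e, B, h1, fun x => ⟨x, rfl⟩, h3⟩⟩
    rintro _ ⟨x, rfl⟩
    exact i.isOfFinOrder (isOfFinOrder_of_finite x)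
  | zero => exact ⟨∅, Set.finite_empty, by simp, zero_mem _⟩
  | add x y _ _ hx hy =>
    obtain ⟨S, a, b, c⟩ := hx
    obtain ⟨S', a', b', c'⟩ := hy
    exact ⟨S ∪ S', a.union a', fun x h => h.elim (b x) (b' x),
      add_mem (cycIn_mono Set.subset_union_left c) (cycIn_mono Set.subset_union_right c')⟩
  | neg x _ hx =>
    obtain ⟨S, a, b, c⟩ := hx
    exact ⟨S, a, b, neg_mem c⟩

theorem WCl.sep (h1 : RG G) (h2 : TCS G) : WCl G := by
  classical
  rintro _ ⟨ι, _, _, r, hr1, hr2, rfl⟩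
  obtain ⟨k, hk, hτ⟩ := rg_cyc h1 ((whInv G).c (jac r))
  obtain ⟨S0, a1, a2, a3⟩ := exists_cycIn hτ
  obtain ⟨Q, _, _, q, S, hq, hS0, hf, hp, hc, hs⟩ := exists_sep h2 S0 a1 a2
  let π := QuotientAddGroup.mk' (AddCommGroup.torsion (Wh G))
  let c := (whInv G).map π
  have hπ : ∀ y, π y = 0 ↔ IsOfFinAddOrder y := fun y => QuotientAddGroup.eq_zero_iff y
  have hW : ∀ w : Wh G ⧸ AddCommGroup.torsion (Wh G), IsOfFinAddOrder w → w = 0 := fun w hw => by
    obtain ⟨y, rfl⟩ := QuotientAddGroup.mk'_surjective _ w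
    obtain ⟨j, hj, e⟩ := isOfFinAddOrder_iff_nsmul_eq_zero.1 hw
    exact (hπ y).2 (((hπ (j • y)).1 (by rw [map_nsmul]; exact e)).of_nsmul hj.ne')
  let Φ : (Q → ℤ) →+ (Q → ℤ) :=
    { toFun := fun f g => ∑ x, f (x * g * x⁻¹)
      map_zero' := by ext; simp
      map_add' := fun f f' => by ext; simp [Finset.sum_add_distrib] }
  let V : AddSubgroup ((Q → ℤ) × (Wh G →+ Wh G ⧸ AddCommGroup.torsion (Wh G))) :=
    { carrier := {p | p.2 ((whInv G).c (jac r)) ∈ symm c ∧
        ∀ (C : Type) [Group C] [Finite C] [IsCyclic C] (i : C →* G) (n : Type) [Fintype n]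
          [DecidableEq n] (B : Matrix n n (MonoidAlgebra ℤ C)) (hB : IsUnit B), (∀ a, i a ∈ S) →
          ((fun a => Φ p.1 (q (i a))), p.2 ((whInv G).c (B.map (mapDomainRingHom ℤ i)))) ∈
            vir (c.pull (mapDomainRingHom ℤ i)) hB}
      zero_mem' := ⟨zero_mem _, fun C _ _ _ i n _ _ B hB _ => by
        rw [Prod.fst_zero, map_zero]
        exact (vir (c.pull (mapDomainRingHom ℤ i)) hB).zero_mem⟩
      add_mem' := fun {x y} hx hy => ⟨add_mem hx.1 hy.1, fun C _ _ _ i n _ _ B hB hi => by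
        rw [Prod.fst_add, map_add]
        exact add_mem (hx.2 C i n B hB hi) (hy.2 C i n B hB hi)⟩
      neg_mem' := fun {x} hx => ⟨neg_mem hx.1, fun C _ _ _ i n _ _ B hB hi => by
        rw [Prod.fst_neg, map_neg]
        exact neg_mem (hx.2 C i n B hB hi)⟩ }
  obtain ⟨⟨f, φ⟩, ⟨b1, b2⟩, b3⟩ := span_indZ (V.map (AddMonoidHom.fst _ _)) (q '' S)
    (by
      rintro _ ⟨d, hd, rfl⟩ _ ⟨j, rfl⟩
      exact ⟨d ^ j, hp d hd _ ⟨j, rfl⟩, map_zpow q d j⟩)
    (by
      rintro _ ⟨d, hd, rfl⟩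
      obtain ⟨X, _, _, T, m, e1, e2, e3⟩ := exists_op q S hf hp hs hd
      obtain ⟨ψ, hψ⟩ := exists_whLift (c.comap T.hom) (coc_triv c hW
        (fun g x hx => by
          change π _ = 0
          rw [(whInv_triv g hx).2, map_zero]) T)
      refine ⟨(ind (q d), m • ψ), ⟨nsmul_mem (e1 _ c _ ⟨ι, _, _, r, hr1, hr2, hψ _ _ hr2⟩) m,
        fun C _ _ _ i n _ _ B hB hi => ?_⟩, rfl⟩
      have := nsmul_mem (mem_vir (c.pull (mapDomainRingHom ℤ i)) hB (T.perm.comp i)) m
      rw [← coc_taut c T i (fun x g => e2 x _ (hi g)) hB,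
        ← hψ _ (B.map (mapDomainRingHom ℤ i)) (hB.map (mapDomainRingHom ℤ i).mapMatrix)] at this
      convert this using 1
      refine Prod.ext (funext fun a => ?_) rfl
      simpa [Φ] using e3 (i a))
  have b4 : ∀ y ∈ AddSubgroup.closure (CycIn S), φ y = Fintype.card Q • π y := fun y hy => by
    induction hy using AddSubgroup.closure_induction with
    | mem y hy =>
      obtain ⟨C, _, _, _, i, n, _, _, B, hB, hi, rfl⟩ := hy
      refine (sub_eq_zero.1 (hW _ (vir_const (c.pull (mapDomainRingHom ℤ i)) hB _ _ ?_))).symm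
      convert b2 C i n B hB hi using 3 with a
      rw [show f = (q '' S).indicator 1 from b3]
      change _ = ∑ x, (q '' S).indicator 1 (x * q (i a) * x⁻¹)
      rw [Finset.sum_congr rfl fun x _ => Set.indicator_of_mem (by
        obtain ⟨x, rfl⟩ := hq x
        exact ⟨_, hc _ (hi a) x, by simp⟩) _]
      simp
    | zero => simp
    | add x y _ _ hx hy => rw [map_add, map_add, hx, hy, nsmul_add]
    | neg x _ hx => rw [map_neg, map_neg, hx, neg_nsmul]
  obtain ⟨ι', _, _, r', s1, s2, s3⟩ := (nsmul_mem b1 k).2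
  rw [← map_nsmul, b4 _ (cycIn_mono hS0 a3), ← map_nsmul, ← map_neg] at s3
  obtain ⟨j, hj, e⟩ := isOfFinAddOrder_iff_nsmul_eq_zero.1
    ((hπ _).1 ((map_sub π _ _).trans (sub_eq_zero.2 s3)))
  refine neg_mem_of (k := j * (Fintype.card Q * k)) (mul_pos hj (mul_pos Fintype.card_pos hk))
    ⟨ι, _, _, r, hr1, hr2, rfl⟩ ?_
  rw [nsmul_sub, sub_eq_zero] at e
  rw [mul_nsmul', mul_nsmul', ← neg_nsmul, e]
  exact nsmul_mem (show _ ∈ Alg (whInv G) from ⟨ι', _, _, r', s1, s2, rfl⟩) j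

theorem NegCl.sep (h1 : RG G) (h2 : TCS G) : NegCl G := (WCl.sep h1 h2).negCl

end Pool.Agent.Lib.MP_2add11_gt.IG
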