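import Pool.Agent.Lib.MP_2add11_gt.IG.SepCyc

/-!
Groups with `RG` whose elements of finite order have order at most six: no separation property is
needed.
-/

noncomputable section

namespace Pool.Agent.Lib.MP_2add11_gt.IG

open Matrix MonoidAlgebra FG

variable {G : Type} [Group G]

theorem root_push {C : Type} [Group C] [Finite C] (h6 : ∀ x : C, orderOf x ≤ 6) (g : C →* G)
    {n : Type} [Fintype n] [DecidableEq n] {B : Matrix n n (MonoidAlgebra ℤ C)} (hB : IsUnit B) :
    (whInv G).c (B.map (mapDomainRingHom ℤ g)) ∈ root (symm (whInv G)) := by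
  obtain ⟨φ, hφ⟩ := FG.factor ((whInv G).pull (mapDomainRingHom ℤ g))
    (pull_triv _ _ fun g _ hx => (whInv_triv g hx).2)
  have hm : ∀ x ∈ Alg (whInv C), φ x ∈ Alg (whInv G) := by
    rintro _ ⟨ι, _, _, r, h1, h2, rfl⟩
    exact Alg.push _ g ⟨ι, _, _, r, h1, h2, hφ h2⟩
  obtain ⟨k, hk, h⟩ := mem_sat h6 ((whInv C).c B)
  have e : (whInv G).c (B.map (mapDomainRingHom ℤ g)) = φ ((whInv C).c B) := (hφ hB).symm
  refine ⟨k, hk, ?_⟩
  rw [e, ← map_nsmul]
  exact ⟨hm _ h, by rw [← map_neg]; exact hm _ (Alg.neg _ h)⟩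

/-- Every class has a positive multiple that lies in the model together with its negative. -/
theorem root_rg (h : RG G) (h6 : ∀ g : G, orderOf g ≤ 6) (τ : Wh G) :
    τ ∈ root (symm (whInv G)) := by
  obtain ⟨k, hk, h1⟩ := h τ
  have h2 : AddSubgroup.closure (FinCls G) ≤ root (symm (whInv G)) := by
    rw [AddSubgroup.closure_le]
    rintro _ ⟨F, _, n, B, A, e, rfl⟩
    rw [SetLike.mem_coe, ← whInv_val, e]
    exact root_push (fun x => Subgroup.orderOf_coe x ▸ h6 x) F.subtype B.isUnit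
  obtain ⟨l, hl, h3⟩ := h2 h1
  exact ⟨k * l, mul_pos hk hl, by rwa [mul_nsmul]⟩

theorem NegCl.six (h : RG G) (h6 : ∀ g : G, orderOf g ≤ 6) : NegCl G :=
  WCl.negCl fun x hx => by
    obtain ⟨k, hk, h1⟩ := root_rg h h6 x
    obtain ⟨j, rfl⟩ := Nat.exists_eq_succ_of_ne_zero hk.ne'
    have := add_mem (nsmul_mem hx j) h1.2
    rwa [succ_nsmul, neg_add, add_neg_cancel_left] at this

end Pool.Agent.Lib.MP_2add11_gt.IG
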