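import Pool.Agent.Lib.MP_2add11_gt.IG.SepDef
import Pool.Agent.Lib.MP_2add11_gt.IG.FPab

/-!
Groups with the property `TCS`: finite groups, retracts, direct and free products, finitely
generated virtually abelian groups (all classical).
-/

noncomputable section

namespace Pool.Agent.Lib.MP_2add11_gt.IG

open Monoid Subgroup

variable {G H : Type} [Group G] [Group H]

/-- Conjugate in every finite quotient. -/
def QC (a b : G) : Prop :=
  ∀ (N : Subgroup G) [N.Normal] [N.FiniteIndex], IsConj (a : G ⧸ N) (b : G ⧸ N)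

theorem QC.map {a b : G} (h : QC a b) (f : G →* H) : QC (f a) (f b) := fun N _ _ => by
  have : (N.comap f).FiniteIndex := ⟨by
    rw [index_comap]
    exact (inferInstance : (N.subgroupOf f.range).FiniteIndex).index_ne_zero⟩
  exact (QuotientGroup.map (N.comap f) N f le_rfl).map_isConj (h (N.comap f))

theorem QC.of_isConj {a b : G} (h : IsConj a b) : QC a b := fun N _ _ =>
  (QuotientGroup.mk' N).map_isConj h

theorem QC.trans {a b c : G} (h : QC a b) (k : QC b c) : QC a c := fun N _ _ => (h N).trans (k N)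

theorem TCS.finite (G : Type) [Group G] [Finite G] : TCS G := fun _ _ _ _ h =>
  (QuotientGroup.quotientBot (G := G)).toMonoidHom.map_isConj (h ⊥)

theorem TCS.retract (hH : TCS H) (f : G →* H) (g : H →* G) (e : ∀ x, g (f x) = x) : TCS G :=
  fun a b ha hb h => by
    have := g.map_isConj (hH _ _ (f.isOfFinOrder ha) (f.isOfFinOrder hb) (QC.map h f))
    rwa [e, e] at this

theorem TCS.prod (hG : TCS G) (hH : TCS H) : TCS (G × H) := fun a b ha hb h => by
  obtain ⟨x, hx⟩ := isConj_iff.1 (hG _ _ ((MonoidHom.fst G H).isOfFinOrder ha)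
    ((MonoidHom.fst G H).isOfFinOrder hb) (QC.map h (MonoidHom.fst G H)))
  obtain ⟨y, hy⟩ := isConj_iff.1 (hH _ _ ((MonoidHom.snd G H).isOfFinOrder ha)
    ((MonoidHom.snd G H).isOfFinOrder hb) (QC.map h (MonoidHom.snd G H)))
  exact isConj_iff.2 ⟨(x, y), Prod.ext hx hy⟩

section free

variable {K : Type} {A : K → Type} [∀ i, Group (A i)]

/-- The product of a list of letters. -/
def lpr (l : List (Σ i, A i)) : CoprodI A := (l.map fun p => CoprodI.of p.2).prod

theorem lpr_append (l m : List (Σ i, A i)) : lpr (l ++ m) = lpr l * lpr m := by simp [lpr]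

theorem lpr_cons (x : Σ i, A i) (m : List (Σ i, A i)) :
    lpr (x :: m) = CoprodI.of x.2 * lpr m := by simp [lpr]

theorem lpr_inf (x y : Σ i, A i) (m : List (Σ i, A i)) (h1 : ∀ p ∈ x :: (m ++ [y]), p.2 ≠ 1)
    (h2 : (x :: (m ++ [y])).IsChain fun a b => a.1 ≠ b.1) (h3 : y.1 ≠ x.1) :
    ¬ IsOfFinOrder (lpr (x :: (m ++ [y]))) := by
  classical
  have key : ∀ k : ℕ, ∃ t : List (Σ i, A i), (∀ p ∈ x :: t, p.2 ≠ 1) ∧
      ((x :: t).IsChain fun a b => a.1 ≠ b.1) ∧
      lpr (x :: t) = lpr (x :: (m ++ [y])) ^ (k + 1) := by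
    intro k
    induction k with
    | zero => exact ⟨_, h1, h2, (pow_one _).symm⟩
    | succ k ih =>
      obtain ⟨t, p, q, r⟩ := ih
      refine ⟨(m ++ [y]) ++ x :: t, fun z hz => ?_, ?_, ?_⟩
      · rw [← List.cons_append, List.mem_append] at hz
        exact hz.elim (h1 z) (p z)
      · rw [← List.cons_append]
        refine h2.append q fun a ha b hb => ?_
        rw [← List.cons_append, List.getLast?_concat] at ha
        obtain rfl : y = a := Option.some.inj ha
        obtain rfl : x = b := Option.some.inj hb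
        exact h3
      · rw [← List.cons_append, lpr_append, r, ← pow_succ']
  intro h
  obtain ⟨k, hk, e⟩ := isOfFinOrder_iff_pow_eq_one.1 h
  obtain ⟨t, p, q, r⟩ := key (k - 1)
  rw [Nat.sub_add_cancel hk, e] at r
  have := CoprodI.Word.equiv.symm.injective (a₁ := ⟨x :: t, p, q⟩) (a₂ := CoprodI.Word.empty) r
  exact List.cons_ne_nil _ _ (congrArg CoprodI.Word.toList this)

/-- An element of finite order of a free product is conjugate into a factor. -/
theorem torsion_coprodI (g : CoprodI A) (hg : IsOfFinOrder g) :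
    g = 1 ∨ ∃ (i : K) (x : A i), IsConj g (CoprodI.of x) := by
  classical
  have key : ∀ (n : ℕ) (l : List (Σ i, A i)), l.length ≤ n → (∀ p ∈ l, p.2 ≠ 1) →
      (l.IsChain fun a b => a.1 ≠ b.1) → IsOfFinOrder (lpr l) →
      lpr l = 1 ∨ ∃ (i : K) (x : A i), IsConj (lpr l) (CoprodI.of x) := by
    intro n
    induction n with
    | zero => intro l h _ _ _; obtain rfl := List.length_eq_zero_iff.1 (Nat.le_zero.1 h); exact .inl rfl
    | succ n ih =>
      rintro (_ | ⟨x, t⟩) hl h1 h2 h3
      · exact .inl rfl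
      rcases t.eq_nil_or_concat' with rfl | ⟨m, y, rfl⟩
      · exact .inr ⟨x.1, x.2, by rw [lpr_cons, show lpr [] = 1 from rfl, mul_one]⟩
      by_cases h : y.1 = x.1
      swap
      · exact (lpr_inf x y m h1 h2 h h3).elim
      obtain ⟨i, x⟩ := x
      obtain ⟨j, y⟩ := y
      obtain rfl : j = i := h
      have hc : IsConj (lpr (⟨j, x⟩ :: (m ++ [⟨j, y⟩]))) (CoprodI.of (y * x) * lpr m) :=
        isConj_iff.2 ⟨CoprodI.of y, by simp [lpr, mul_assoc]⟩
      have h4 : IsOfFinOrder (CoprodI.of (y * x) * lpr m) := hc.isOfFinOrder h3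
      have h5 : (⟨j, x⟩ :: m).IsChain fun a b : Σ i, A i => a.1 ≠ b.1 :=
        (List.cons_append ▸ h2).left_of_append
      have h6 : ∀ p ∈ m, p.2 ≠ 1 := fun p hp => h1 p (by simp [hp])
      have h7 : m.length + 1 ≤ n := by simpa using hl
      have fin : ∀ z, IsConj (lpr (⟨j, x⟩ :: (m ++ [⟨j, y⟩]))) z →
          (z = 1 ∨ ∃ (i : K) (x : A i), IsConj z (CoprodI.of x)) →
          lpr (⟨j, x⟩ :: (m ++ [⟨j, y⟩])) = 1 ∨
            ∃ (i : K) (u : A i), IsConj (lpr (⟨j, x⟩ :: (m ++ [⟨j, y⟩]))) (CoprodI.of u) := by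
        rintro z hz (rfl | ⟨i, u, hu⟩)
        · exact .inl (isConj_one_left.1 hz)
        · exact .inr ⟨i, u, hz.trans hu⟩
      by_cases e : y * x = 1
      · rw [e, map_one, one_mul] at hc h4
        exact fin _ hc (ih m (by omega) h6 h5.tail h4)
      · refine fin _ hc ?_
        rw [← lpr_cons ⟨j, y * x⟩] at h4 ⊢
        refine ih _ h7 (fun p hp => ?_) (List.isChain_cons.2 (List.isChain_cons.1 h5)) h4
        rcases List.mem_cons.1 hp with rfl | hp
        · exact e
        · exact h6 p hp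
  have e : lpr (CoprodI.Word.equiv g).toList = g := CoprodI.Word.equiv.symm_apply_apply g
  rw [← e] at hg ⊢
  exact key _ _ le_rfl (CoprodI.Word.ne_one _) (CoprodI.Word.chain_ne _) hg

theorem TCS.coprodI (h : ∀ i, TCS (A i)) : TCS (CoprodI A) := by
  classical
  have one : ∀ i (x : A i), IsOfFinOrder (CoprodI.of x) → ∀ b, QC (CoprodI.of x) b →
      retr i b = 1 → CoprodI.of x = (1 : CoprodI A) := fun i x hx b q e => by
    have h1 := (retr i).isOfFinOrder hx
    have h2 := q.map (retr i)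
    rw [retr_same] at h1 h2
    rw [e] at h2
    rw [isConj_one_left.1 (h i x 1 h1 IsOfFinOrder.one h2), map_one]
  have key : ∀ i (x : A i) b, IsOfFinOrder (CoprodI.of x) → IsOfFinOrder b →
      QC (CoprodI.of x) b → IsConj (CoprodI.of x) b := fun i x b hx hb q => by
    rcases torsion_coprodI b hb with rfl | ⟨j, y, hy⟩
    · rw [one i x hx 1 q (map_one _)]
    · have q' := q.trans (QC.of_isConj hy)
      have hy' := hy.isOfFinOrder hb
      refine IsConj.trans ?_ hy.symm
      by_cases e : j = i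
      · subst e
        have h1 := (retr j).isOfFinOrder hx
        have h2 := (retr j).isOfFinOrder hy'
        have h3 := q'.map (retr j)
        simp only [retr_same] at h1 h2 h3
        exact CoprodI.of.map_isConj (h j x y h1 h2 h3)
      · rw [one i x hx _ q' (retr_ne e y),
          one j y hy' (CoprodI.of x) (fun N _ _ => (q' N).symm) (retr_ne (Ne.symm e) x)]
  intro a b ha hb q
  rcases torsion_coprodI a ha with rfl | ⟨i, x, hx⟩
  · rcases torsion_coprodI b hb with rfl | ⟨j, y, hy⟩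
    · exact IsConj.refl _
    · exact (key j y 1 (hy.isOfFinOrder hb) ha fun N _ _ =>
        ((QC.trans q (QC.of_isConj hy)) N).symm).symm.trans hy.symm
  · exact hx.trans (key i x b (hx.isOfFinOrder ha) hb ((QC.of_isConj hx.symm).trans q))

end free

theorem rf_comm (A : Type) [CommGroup A] [Group.FG A] : Group.ResiduallyFinite A := by
  have hZ : Group.ResiduallyFinite (Multiplicative ℤ) :=
    Group.residuallyFinite_of_forall_exists_finite_monoidHom fun g hg =>
      ⟨Multiplicative (ZMod (g.toAdd.natAbs + 1)), inferInstance, inferInstance,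
        (Int.castAddHom _).toMultiplicative, fun e => by
        have h1 : ((g.toAdd : ℤ) : ZMod (g.toAdd.natAbs + 1)) = 0 := e
        rw [ZMod.intCast_zmod_eq_zero_iff_dvd] at h1
        have h2 := Int.eq_zero_of_dvd_of_natAbs_lt_natAbs h1 (by omega)
        exact hg (toAdd_eq_zero.1 h2)⟩
  refine _root_.IG.fg_induction (fun G _ => Group.ResiduallyFinite G) (fun _ _ _ => inferInstance)
    (fun _ _ _ _ => inferInstance) (fun G H _ _ e h => ?_) A
  refine Group.residuallyFinite_iff_exists_finiteIndex.2 fun g hg => ?_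
  obtain ⟨N, hN, hg⟩ := Group.residuallyFinite_iff_exists_finiteIndex.1 h (e g) (by simpa using hg)
  exact ⟨N.comap e.toMonoidHom, ⟨by
    rw [index_comap_of_surjective _ e.surjective]; exact hN.index_ne_zero⟩, hg⟩

/-- Finitely generated virtually abelian groups are conjugacy separable. -/
theorem conj_of_qc (A : Subgroup G) [hn : A.Normal] [A.FiniteIndex] [IsMulCommutative A]
    [Group.FG A] {a b : G} (h : QC a b) : IsConj a b := by
  let _ : CommGroup A := { (inferInstance : Group A) with mul_comm := fun x y => mul_comm' x y }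
  let δ : A →* A := MonoidHom.id A / (MulAut.conjNormal (H := A) a).toMonoidHom
  have sep : ∀ x : G, x ∉ δ.range.map A.subtype → ∃ M : Subgroup G, M.FiniteIndex ∧
      δ.range.map A.subtype ≤ M ∧ x ∉ M := fun x hx => by
    by_cases hA : x ∈ A
    · have := rf_comm (A ⧸ δ.range)
      obtain ⟨N, hN, hx'⟩ := Group.residuallyFinite_iff_exists_finiteIndex.1 this
        (QuotientGroup.mk ⟨x, hA⟩) fun e => hx ⟨_, (QuotientGroup.eq_one_iff _).1 e, rfl⟩
      refine ⟨(N.comap (QuotientGroup.mk' _)).map A.subtype, ⟨?_⟩, map_mono fun y hy => ?_, ?_⟩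
      · rw [index_map_subtype, index_comap_of_surjective _ (QuotientGroup.mk'_surjective _)]
        exact mul_ne_zero hN.index_ne_zero FiniteIndex.index_ne_zero
      · rw [mem_comap, QuotientGroup.mk'_apply, (QuotientGroup.eq_one_iff _).2 hy]
        exact N.one_mem
      · rintro ⟨y, hy, rfl⟩
        exact hx' hy
    · exact ⟨A, inferInstance, map_subtype_le _, hA⟩
  by_contra hc
  have h1 : ∀ c : G ⧸ A, c.out⁻¹ * b * c.out * a⁻¹ ∉ δ.range.map A.subtype := by
    rintro c ⟨_, ⟨y, rfl⟩, e⟩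
    refine hc (isConj_iff.2 ⟨c.out * y, ?_⟩)
    have e' : (y : G) * (a * y * a⁻¹)⁻¹ = c.out⁻¹ * b * c.out * a⁻¹ := by
      rw [← e]; simp [δ, div_eq_mul_inv]
    calc c.out * y * a * (c.out * y)⁻¹ = c.out * (y * (a * y * a⁻¹)⁻¹) * a * c.out⁻¹ := by group
      _ = b := by rw [e']; group
  choose M hM hM1 hM2 using fun c => sep _ (h1 c)
  have : (⨅ c, M c).FiniteIndex := finiteIndex_iInf hM
  obtain ⟨g, hg⟩ := isConj_iff.1 (h (⨅ c, M c).normalCore)
  obtain ⟨g, rfl⟩ := QuotientGroup.mk_surjective g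
  obtain ⟨y, hy⟩ := QuotientGroup.mk_out_eq_mul A g
  have h2 : (g * a * g⁻¹)⁻¹ * b ∈ (⨅ c, M c).normalCore := QuotientGroup.eq.1 hg
  have h3 := (normalCore_normal _).conj_mem _ h2 (a * g⁻¹)
  have h4 := (normalCore_normal _).conj_mem _ h3 y⁻¹
  have h5 := mem_iInf.1 (normalCore_le _ h4) (QuotientGroup.mk g)
  have h6 : ((δ y⁻¹ : A) : G) ∈ M (QuotientGroup.mk g) := hM1 _ ⟨_, ⟨_, rfl⟩, rfl⟩
  refine hM2 (QuotientGroup.mk g) ?_
  have h7 : ((δ y⁻¹ : A) : G) = y⁻¹ * (a * y⁻¹ * a⁻¹)⁻¹ := by
    simp [δ, div_eq_mul_inv, mul_assoc]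
  rw [hy]
  convert mul_mem h5 h6 using 1
  rw [h7]
  simp only [coe_inv]
  group

theorem TCS.virtAb (A : Subgroup G) [A.Normal] [A.FiniteIndex] [IsMulCommutative A]
    [Group.FG A] : TCS G := fun _ _ _ _ h => conj_of_qc A h

end Pool.Agent.Lib.MP_2add11_gt.IG
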