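import Pool.Agent.Lib.MP_2add11_gt.FG.Retr

/-!
The Cayley complex of a finite presentation mapping to an arbitrary group: the closed cells form a
locally finite family, so the group acts properly discontinuously; orbit space and CW structure.
-/

noncomputable section

namespace Pool.Agent.Lib.MP_2add11_gt.FG

open Set Metric Topology Classical

namespace Pres

variable {G S T : Type} [Group G] (P : Pres G S T)

theorem wp_supp (w : List (S × Bool)) : ∃ B : Set G, B.Finite ∧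
    ∀ g s k, (P.wp g w s k).1 ≠ 0 → g⁻¹ * k ∈ B := by
  induction w with
  | nil =>
    refine ⟨{1}, finite_singleton _, fun g s k h => ?_⟩
    obtain rfl : k = g := by simpa [wp, vtx] using h
    simp
  | cons l w ih =>
    obtain ⟨B, hB, h⟩ := ih
    refine ⟨{1, nxt P.d 1 l} ∪ (fun x => nxt P.d 1 l * x) '' B,
      (toFinite _).union (hB.image _), fun g s k hk => ?_⟩
    have e : nxt P.d g l = g * nxt P.d 1 l := by unfold nxt; split_ifs <;> simp
    rw [wp] at hk
    split_ifs at hk with hs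
    · refine .inl ?_
      by_contra hc
      simp only [mem_insert_iff, mem_singleton_iff, not_or, inv_mul_eq_iff_eq_mul, mul_one] at hc
      rw [← e] at hc
      refine hk ?_
      unfold lp
      unfold nxt at hc
      split_ifs at hc ⊢ <;> simp [edge, hc.1, hc.2]
    · exact .inr ⟨_, h _ _ _ hk, by rw [e]; group⟩

theorem face_pos (g : G) (c : T) (z : Sq) : ∃ k, (P.face g c z.1 k).1 ≠ 0 := by
  obtain ⟨h, b, s, h0, h1, e⟩ := P.wp_mem g (P.R c) ((P.R c).length * ((z.1 0 + 1) / 2))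
  have hb := z.bounds 1
  have e1 : ∀ k, (P.face g c z.1 k).1 = (1 - (z.1 1 + 1) / 2) * (P.edge h b s k).1 +
      (z.1 1 + 1) / 2 * (if k = g then 1 else 0) := fun k => by
    simp [face, ← e, vtx]
  have e2 : ∀ k, 0 ≤ (P.edge h b s k).1 := fun k => by
    simp only [edge]
    split_ifs <;> linarith
  by_cases hz : z.1 1 = -1
  · by_cases hs : s = 1
    · refine ⟨h * P.d b, ?_⟩
      rw [e1, hz, hs, edge_one]
      simp [vtx]
    · refine ⟨h, ?_⟩
      have : 0 < (P.edge h b s h).1 := by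
        have : 0 < 1 - s := sub_pos.2 (lt_of_le_of_ne h1 hs)
        simp only [edge, if_true]
        split_ifs <;> linarith
      rw [e1, hz]
      simpa using this.ne'
  · refine ⟨g, ne_of_gt ?_⟩
    have : -1 < z.1 1 := lt_of_le_of_ne hb.1 (Ne.symm hz)
    have h3 := mul_nonneg (show 0 ≤ 1 - (z.1 1 + 1) / 2 by linarith [hb.2]) (e2 g)
    rw [e1, if_pos rfl]
    linarith

theorem locFin [Finite T] : LocallyFinite fun p : G × T => range (P.eF p.1 p.2) := by
  intro x
  obtain ⟨g, c, z, rfl⟩ := P.exists_eF x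
  obtain ⟨k, hk⟩ := P.face_pos g c z
  choose B hB h using fun c => P.wp_supp (P.R c)
  have hc : Continuous fun y : P.E => (y.1 k).1 :=
    continuous_fst.comp ((continuous_apply k).comp (continuous_subtype_val (p := fun x : VV G S T =>
      ∃ (g : G) (c : T) (z : Sq), P.face g c z.1 = x)))
  refine ⟨{y | (y.1 k).1 ≠ 0}, (isOpen_ne_fun hc continuous_const).mem_nhds hk,
    ((((finite_iUnion hB).insert 1).image fun x => k * x⁻¹).prod (toFinite univ)).subset ?_⟩
  rintro ⟨g', c'⟩ ⟨_, ⟨z', rfl⟩, hy⟩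
  refine ⟨⟨g'⁻¹ * k, ?_, by group⟩, trivial⟩
  by_contra hn
  simp only [mem_insert_iff, mem_iUnion, not_or, not_exists, inv_mul_eq_one] at hn
  have h1 : (P.wp g' (P.R c') ((P.R c').length * ((z'.1 0 + 1) / 2)) k).1 = 0 := by
    by_contra h1
    exact hn.2 c' (h _ _ _ _ h1)
  refine hy ?_
  change (P.face g' c' z'.1 k).1 = 0
  simp [face, h1, vtx, Ne.symm hn.1]

instance lcE [Finite T] : LocallyCompactSpace P.E := by
  have : WeaklyLocallyCompactSpace P.E := ⟨fun x => by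
    obtain ⟨U, hU, hf⟩ := P.locFin x
    refine ⟨_, hf.isCompact_biUnion fun p _ => isCompact_range (P.continuous_eF p.1 p.2),
      Filter.mem_of_superset hU fun y hy => ?_⟩
    obtain ⟨g, c, z, rfl⟩ := P.exists_eF y
    exact mem_biUnion (x := (g, c)) ⟨_, ⟨z, rfl⟩, hy⟩ ⟨z, rfl⟩⟩
  infer_instance

instance pdE [Finite T] : ProperlyDiscontinuousSMul G P.E := ⟨fun {K L} hK hL => by
  have h1 := P.locFin.finite_nonempty_inter_compact hK
  have h2 := P.locFin.finite_nonempty_inter_compact hL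
  refine ((h1.prod h2).image fun x => x.2.1 * x.1.1⁻¹).subset ?_
  rintro γ ⟨_, ⟨y, hy, rfl⟩, hy'⟩
  obtain ⟨g, c, z, rfl⟩ := P.exists_eF y
  exact ⟨((g, c), (γ * g, c)), ⟨⟨_, ⟨z, rfl⟩, hy⟩, ⟨_, ⟨z, (P.smul_eF _ _ _ _).symm⟩, hy'⟩⟩,
    by simp⟩⟩

variable [Finite T]

theorem pr_coverI : IsQuotientCoveringMap P.pr G :=
  isQuotientCoveringMap_quotientMk_of_properlyDiscontinuousSMul

@[fun_prop] theorem continuous_prI : Continuous P.pr := P.pr_coverI.continuous

variable {P} in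
theorem pr_eqI {a b : P.E} (h : P.pr a = P.pr b) : ∃ g : G, sh g b.1 = a.1 := by
  obtain ⟨g, e⟩ := P.pr_coverI.apply_eq_iff_mem_orbit.1 h
  exact ⟨g, congrArg Subtype.val e⟩

theorem pr_smulI (g : G) (a : P.E) : P.pr (g • a) = P.pr a := P.pr_coverI.map_smul g

theorem pr_eFI (g : G) (c : T) (z : Sq) : P.pr (P.eF g c z) = P.pr (P.eF 1 c z) := by
  rw [← P.pr_smulI g (P.eF 1 c z), smul_eF, mul_one]
theorem pr_eEI (g : G) (b : S) (s : ℝ) : P.pr (P.eE g b s) = P.pr (P.eE 1 b s) := by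
  rw [← P.pr_smulI g (P.eE 1 b s), smul_eE, mul_one]
theorem pr_eVI (g : G) : P.pr (P.eV g) = P.pr (P.eV 1) := P.pr_eEI _ _ _

variable {P} in
theorem pr_F_injI {c c' : T} {z z' : Sq} (h : ‖z.1‖ ≠ 1)
    (e : P.pr (P.eF 1 c z) = P.pr (P.eF 1 c' z')) : c = c' ∧ z = z' := by
  obtain ⟨g, e⟩ := pr_eqI e
  have := face_inj (Sq.rho_ne h) (e.symm.trans (P.sh_face _ _ _ _))
  exact ⟨this.2.1, Subtype.ext this.2.2⟩

variable {P} in
theorem pr_F_neI {c : T} {b : S} {z : Sq} {s : ℝ} (h : ‖z.1‖ ≠ 1) :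
    P.pr (P.eF 1 c z) ≠ P.pr (P.eE 1 b s) :=
  fun e => by
    obtain ⟨g, e⟩ := pr_eqI e
    exact face_not_mem (Sq.rho_ne h)
      ⟨_, _, _, clamp_nonneg s, clamp_le_one s, (P.sh_edge _ _ _ _).symm.trans e⟩

variable {P} in
theorem pr_E_injI {b b' : S} {s s' : ℝ} (h0 : 0 < s) (h1 : s < 1)
    (e : P.pr (P.eE 1 b s) = P.pr (P.eE 1 b' s')) : b = b' ∧ s = clamp s' := by
  obtain ⟨g, e⟩ := pr_eqI e
  have e' : P.edge 1 b (clamp s) = _ := e.symm.trans (P.sh_edge _ _ _ _)
  rw [clamp_of_mem h0.le h1.le] at e'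
  exact (edge_inj h0 h1 e').2

theorem pr_sphereI (c : T) {z : Sq} (h : ‖z.1‖ = 1) : P.pr (P.eF 1 c z) = P.pr (P.eV 1) ∨
    ∃ l ∈ P.R c, ∃ s, 0 < s ∧ s < 1 ∧ P.pr (P.eF 1 c z) = P.pr (P.eE 1 l.1 s) := by
  obtain ⟨u, -, -, e⟩ := P.face_sphere 1 c h
  rcases P.wp_cases 1 (P.R c) ((P.R c).length * u) with ⟨k, e'⟩ | ⟨l, hl, k, s, h0, h1, e'⟩
  · refine .inl ?_
    rw [← P.pr_eVI k]
    exact congrArg P.pr (Subtype.ext ((e.trans e').trans (P.eV_val k).symm))
  · have e2 : P.pr (P.eF 1 c z) = P.pr (P.eE 1 l.1 s) := by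
      rw [← P.pr_eEI k]
      refine congrArg P.pr (Subtype.ext (e.trans (e'.symm.trans ?_)))
      simp [eE, clamp_of_mem h0 h1]
    rcases h0.eq_or_lt with rfl | h0
    · exact .inl (by rw [e2, P.eE_le _ _ le_rfl])
    · rcases h1.eq_or_lt with rfl | h1
      · exact .inl (by rw [e2, P.eE_ge _ _ le_rfl, pr_eVI])
      · exact .inr ⟨l, hl, s, h0, h1, e2⟩

theorem pr_E_FI {b : S} {c : T} (hc : (b, true) ∈ P.R c) (s : ℝ) :
    ∃ z : Sq, ‖z.1‖ = 1 ∧ P.pr (P.eE 1 b s) = P.pr (P.eF 1 c z) := by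
  obtain ⟨h, z, hz, e⟩ := P.edge_face 1 hc (clamp_nonneg s) (clamp_le_one s)
  exact ⟨z, hz, by rw [← P.pr_eFI h]; exact congrArg P.pr (Subtype.ext e.symm)⟩

theorem exists_prI (x : P.K) : ∃ c z, P.pr (P.eF 1 c z) = x := by
  obtain ⟨a, rfl⟩ := P.pr_coverI.surjective x
  obtain ⟨g, c, z, rfl⟩ := P.exists_eF a
  exact ⟨c, z, (P.pr_eFI g c z).symm⟩

end Pres

namespace Pres

variable {G S T : Type} [Group G] (P : Pres G S T)

variable [Finite T]

theorem chi_injI : ∀ (n : ℕ) (i j : Cel S T n), ∀ z ∈ ball (0 : Fin n → ℝ) 1,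
    ∀ z' ∈ closedBall (0 : Fin n → ℝ) 1, P.pr (P.chi n i z) = P.pr (P.chi n j z') → i = j ∧ z = z'
  | 0, _, _, _, _, _, _, _ => ⟨rfl, Subsingleton.elim _ _⟩
  | 1, _, _, z, hz, z', hz', e => by
    have := pr_E_injI (ball1 hz).1 (ball1 hz).2 e
    rw [clamp_of_mem (cball1 hz').1 (cball1 hz').2] at this
    refine ⟨this.1, funext fun i => ?_⟩
    rw [Subsingleton.elim i 0]
    linarith [this.2]
  | 2, _, _, z, hz, z', hz', e => by
    have := pr_F_injI (ball2 hz) e
    rw [prj_of_mem (ball_subset_closedBall hz), prj_of_mem hz'] at this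
    exact ⟨this.1, congrArg Subtype.val this.2⟩
  | _ + 3, i, _, _, _, _, _, _ => i.elim

theorem chi_neI : ∀ (n m : ℕ) (i : Cel S T n) (j : Cel S T m), m < n →
    ∀ z ∈ ball (0 : Fin n → ℝ) 1, ∀ z', P.pr (P.chi n i z) ≠ P.pr (P.chi m j z')
  | 1, 0, _, _, _, z, hz, _ => fun e => by
    have := (pr_E_injI (ball1 hz).1 (ball1 hz).2 e).2
    rw [clamp_of_le le_rfl] at this
    exact (ball1 hz).1.ne' this
  | 2, 0, _, _, _, _, hz, _ => pr_F_neI (ball2 hz)
  | 2, 1, _, _, _, _, hz, _ => pr_F_neI (ball2 hz)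
  | _ + 3, _, i, _, _, _, _, _ => i.elim

theorem vec1_memI {s : ℝ} (h0 : 0 < s) (h1 : s < 1) : vec1 s ∈ ball (0 : Fin 1 → ℝ) 1 := by
  rw [mem_ball_zero_iff, norm_fin1, abs_lt, vec1]
  constructor <;> linarith

theorem chi_sphereI : ∀ (n : ℕ) (i : Cel S T n), ∀ z ∈ sphere (0 : Fin n → ℝ) 1,
    ∃ m < n, ∃ j : Cel S T m, ∃ z' ∈ closedBall (0 : Fin m → ℝ) 1,
      P.pr (P.chi m j z') = P.pr (P.chi n i z)
  | 0, _, z, hz => by
    rw [Subsingleton.elim z 0, mem_sphere_zero_iff_norm, norm_zero] at hz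
    exact absurd hz zero_ne_one
  | 1, b, z, hz => by
    refine ⟨0, zero_lt_one, (), 0, by simp, ?_⟩
    rw [mem_sphere_zero_iff_norm, norm_fin1, abs_eq zero_le_one] at hz
    rcases hz with h | h
    · rw [chi, chi, P.eE_ge _ _ (by simp [h]), P.pr_eVI (1 * _)]
    · rw [chi, chi, P.eE_le _ _ (by simp [h])]
  | 2, c, z, hz => by
    rcases P.pr_sphereI c (z := prj z) (by
      rw [prj_of_mem (sphere_subset_closedBall hz)]
      exact mem_sphere_zero_iff_norm.1 hz) with e | ⟨l, -, s, h0, h1, e⟩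
    · exact ⟨0, two_pos, (), 0, by simp, e.symm⟩
    · exact ⟨1, one_lt_two, l.1, vec1 s, ball_subset_closedBall (vec1_memI h0 h1),
        by rw [chi_vec1]; exact e.symm⟩
  | _ + 3, i, _, _ => i.elim

theorem chi_injOnI (n : ℕ) (i : Cel S T n) : InjOn (fun z => P.pr (P.chi n i z)) (ball 0 1) :=
  fun z hz z' hz' e => (P.chi_injI n i i z hz z' (ball_subset_closedBall hz') e).2

def cmapI (n : ℕ) (i : Cel S T n) : PartialEquiv (Fin n → ℝ) P.K :=
  (P.chi_injOnI n i).toPartialEquiv _ _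

theorem cmap_applyI (n : ℕ) (i : Cel S T n) (z : Fin n → ℝ) : P.cmapI n i z = P.pr (P.chi n i z) :=
  rfl

theorem cmap_contI (n : ℕ) (i : Cel S T n) : ContinuousOn (P.cmapI n i) (closedBall 0 1) :=
  (P.continuous_prI.comp (P.continuous_chi n i)).continuousOn

theorem cmap_symmI (n : ℕ) (i : Cel S T n) : ContinuousOn (P.cmapI n i).symm (P.cmapI n i).target :=
  continuousOn_inv_cell (P.cmap_contI n i) (fun z hz z' hz' e => (P.chi_injI n i i z hz z' hz' e).2)
    fun _ hz => (P.cmapI n i).left_inv hz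

theorem cmap_disjI : (univ : Set (Σ n, Cel S T n)).PairwiseDisjoint
    fun ni => P.cmapI ni.1 ni.2 '' ball 0 1 := by
  rintro ⟨n, i⟩ - ⟨m, j⟩ - hne
  refine disjoint_left.2 ?_
  rintro _ ⟨z, hz, rfl⟩ ⟨z', hz', e⟩
  rcases lt_trichotomy n m with h | rfl | h
  · exact P.chi_neI m n j i h z' hz' z e
  · obtain ⟨rfl, -⟩ := P.chi_injI n j i z' hz' z (ball_subset_closedBall hz) e
    exact hne rfl
  · exact P.chi_neI n m i j h z hz z' e.symm

theorem cmap_mapsToI (n : ℕ) (i : Cel S T n) : MapsTo (P.cmapI n i) (sphere 0 1)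
    (⋃ m, ⋃ (_ : m < n), ⋃ j : Cel S T m, P.cmapI m j '' closedBall 0 1) := fun z hz => by
  obtain ⟨m, hm, j, z', hz', e⟩ := P.chi_sphereI n i z hz
  simp only [mem_iUnion]
  exact ⟨m, hm, j, z', hz', e⟩

theorem cmap_unionI : ⋃ n, ⋃ j : Cel S T n, P.cmapI n j '' closedBall 0 1 = univ :=
  eq_univ_of_forall fun x => by
    obtain ⟨c, z, rfl⟩ := P.exists_prI x
    simp only [mem_iUnion]
    exact ⟨2, c, z.1, z.2, by rw [cmap_applyI, chi, prj_val]⟩

variable [Finite S]

instance cwKI : CWComplex (univ : Set P.K) :=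
  CWComplex.mkFinite univ (Cel S T) P.cmapI cel_empty cel_finite (fun _ _ => rfl) P.cmap_contI
    P.cmap_symmI P.cmap_disjI P.cmap_mapsToI P.cmap_unionI

theorem finiteKI : CWComplex.Finite (univ : Set P.K) :=
  CWComplex.finite_mkFinite univ (Cel S T) P.cmapI cel_empty cel_finite (fun _ _ => rfl) P.cmap_contI
    P.cmap_symmI P.cmap_disjI P.cmap_mapsToI P.cmap_unionI

end Pres

open unitInterval ML

namespace Pres

variable {G S T : Type} [Group G] (P : Pres G S T)

variable [Finite T]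

def x0I : P.K := P.pr (P.eV 1)

def loopEI (b : S) : ML P.x0I :=
  mk' (fun s => P.pr (P.eE 1 b s)) 1 (by fun_prop) zero_le_one
    (fun s hs => by rw [P.eE_le _ _ hs]; rfl) fun s hs => by rw [P.eE_ge _ _ hs, pr_eVI]; rfl

theorem pr_wpI (w : List (S × Bool)) (g : G) (s : ℝ) (e : P.E) (he : e.1 = P.wp g w s) :
    P.pr e = (wl P.loopEI w).f s := by
  induction w generalizing g s with
  | nil =>
    rw [show e = P.eV g from Subtype.ext (he.trans (P.eV_val g).symm), pr_eVI]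
    rfl
  | cons l w ih =>
    rw [wl_cons, mul_f, letter_len fun _ => rfl]
    rw [wp] at he
    split_ifs with h h'
    · rw [if_pos h, lp, if_pos h'] at he
      rw [show e = P.eE g l.1 s from Subtype.ext he, pr_eEI]
      rfl
    · rw [if_pos h, lp, if_neg h', ← clamp_one_sub] at he
      rw [show e = P.eE _ l.1 (1 - s) from Subtype.ext he, pr_eEI]
      rfl
    · rw [if_neg h] at he
      exact ih _ _ he

theorem pr_restI (c : T) {z : Sq} (h : z.1 0 = -1 ∨ z.1 0 = 1 ∨ z.1 1 = 1) :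
    P.pr (P.eF 1 c z) = P.x0I :=
  congrArg P.pr (Subtype.ext ((P.face_rest 1 c h).trans (P.eV_val 1).symm))

def facePathI (c : T) (hp : (0 : ℝ) < (P.R c).length) :
    Path (wl P.loopEI (P.R c)) (cst (P.R c).length hp.le) where
  toFun v := mk' (fun s => P.pr (P.eF 1 c (prj ![2 * (s / (P.R c).length) - 1, 2 * v - 1])))
    (P.R c).length (by fun_prop) hp.le
    (fun s hs => P.pr_restI c (.inl (max_eq_left ((min_le_right _ _).trans (by
      have := div_nonpos_of_nonpos_of_nonneg hs hp.le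
      simp only [Matrix.cons_val_zero]
      linarith)))))
    fun s hs => P.pr_restI c (.inr (.inl (by
      have := (one_le_div hp).2 hs
      simp only [prj, Matrix.cons_val_zero]
      rw [min_eq_left (by linarith), max_eq_right (by norm_num)])))
  continuous_toFun := continuous_into (show Continuous fun x : I × ℝ =>
    P.pr (P.eF 1 c (prj ![2 * (x.2 / (P.R c).length) - 1, 2 * x.1 - 1])) by fun_prop)
      continuous_const
  source' := ext' (fun s => by
    refine P.pr_wpI _ 1 s _ ((P.face_bottom 1 c (by simp [prj])).trans ?_)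
    simp only [prj, Matrix.cons_val_zero]
    rcases le_total s 0 with h | h
    · have := div_nonpos_of_nonpos_of_nonneg h hp.le
      rw [max_eq_left ((min_le_right _ _).trans (by linarith)), P.wp_le _ _ h,
        P.wp_le _ _ (by simp)]
    · rcases le_total s (P.R c).length with h' | h'
      · have h1 := (div_le_one hp).2 h'
        have h2 := div_nonneg h hp.le
        rw [min_eq_right (by linarith), max_eq_right (by linarith)]
        congr 1
        field_simp
        ring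
      · have := (one_le_div hp).2 h'
        rw [min_eq_left (by linarith), max_eq_right (by norm_num), P.wp_ge _ _ h',
          P.wp_ge _ _ (by simp)]) (wl_len (fun _ => rfl) _).symm
  target' := ext' (fun s => P.pr_restI c (.inr (.inr (by simp [prj]; norm_num)))) rfl

theorem facePath_fI (c : T) (hp : (0 : ℝ) < (P.R c).length) (v : I) (s : ℝ) :
    (P.facePathI c hp v).f s =
      P.pr (P.eF 1 c (prj ![2 * (s / (P.R c).length) - 1, 2 * v - 1])) := rfl

def H0I (a : S → ML P.x0I) (x : P.K) : P.K :=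
  if h : ∃ p : S × ℝ, 0 < p.2 ∧ p.2 < 1 ∧ P.pr (P.eE 1 p.1 p.2) = x then
    (a h.choose.1).f h.choose.2 else x

theorem H0_x0I (a : S → ML P.x0I) : P.H0I a P.x0I = P.x0I :=
  dif_neg fun ⟨_, h0, h1, e⟩ => by
    have := (pr_E_injI h0 h1 e).2
    rw [clamp_of_le le_rfl] at this
    exact h0.ne' this

theorem H0_edgeI {a : S → ML P.x0I} (ha : ∀ b, (a b).len = 1) (b : S) (s : ℝ) :
    P.H0I a (P.pr (P.eE 1 b s)) = (a b).f s := by
  rcases le_or_gt s 0 with h0 | h0
  · rw [P.eE_le _ _ h0, (a b).f_le h0]; exact P.H0_x0I a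
  rcases le_or_gt 1 s with h1 | h1
  · rw [P.eE_ge _ _ h1, pr_eVI, (a b).f_ge (ha b ▸ h1)]; exact P.H0_x0I a
  have h : ∃ p : S × ℝ, 0 < p.2 ∧ p.2 < 1 ∧ P.pr (P.eE 1 p.1 p.2) = P.pr (P.eE 1 b s) :=
    ⟨(b, s), h0, h1, rfl⟩
  have := pr_E_injI h.choose_spec.1 h.choose_spec.2.1 h.choose_spec.2.2
  rw [H0I, dif_pos h, this.2, this.1, clamp_of_mem h0.le h1.le]

theorem H0_wlI {a : S → ML P.x0I} (ha : ∀ b, (a b).len = 1) (w : List (S × Bool)) (s : ℝ) :
    P.H0I a ((wl P.loopEI w).f s) = (wl a w).f s := by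
  induction w generalizing s with
  | nil => exact P.H0_x0I a
  | cons l w ih =>
    rw [wl_cons, wl_cons, mul_f, mul_f, letter_len fun _ => rfl, letter_len ha]
    split_ifs
    · exact P.H0_edgeI ha _ _
    · exact (P.H0_edgeI ha _ _).trans (by simp [ha]; rfl)
    · exact ih _

theorem deformI (hp : ∀ c, (0 : ℝ) < (P.R c).length) (A : I → S → ML P.x0I)
    (F : T → C(I × I, ML P.x0I)) (hA : ∀ s b, (A s b).len = 1)
    (F1 : ∀ c s, F c (s, 0) = wl (A s) (P.R c)) (F2 : ∀ c s u, (F c (s, 1)).f u = P.x0I) :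
    ∃ H : C(I × P.K, P.K), ∀ s c (z : Sq), ∃ v : I, (∃ u, H (s, P.pr (P.eF 1 c z)) =
      (F c (s, v)).f u) ∧ (F c (s, v) = P.facePathI c (hp c) v →
        H (s, P.pr (P.eF 1 c z)) = P.pr (P.eF 1 c z)) := by
  let : TopologicalSpace T := ⊥
  have : DiscreteTopology T := ⟨rfl⟩
  let v : Sq → I := fun z => ⟨(z.1 1 + 1) / 2, by
    constructor <;> linarith [z.bounds 1]⟩
  have h0 : Continuous fun z : Sq => z.1 0 := (continuous_apply 0).comp continuous_subtype_val
  have h1 : Continuous fun z : Sq => z.1 1 := (continuous_apply 1).comp continuous_subtype_val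
  have hv : Continuous v := Continuous.subtype_mk ((h1.add continuous_const).div_const _) _
  have hu : Continuous fun x : I × Sq => (x.2.1 0 + 1) / 2 :=
    ((h0.comp continuous_snd).add continuous_const).div_const _
  let q : T × Sq → P.K := fun x => P.pr (P.eF 1 x.1 x.2)
  have hqc : Continuous q := continuous_prod_of_discrete_left.2 fun c =>
    show Continuous fun z => P.pr (P.eF 1 c z) by fun_prop
  have hq : IsQuotientMap q := hqc.isClosedMap.isQuotientMap hqc fun x => by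
    obtain ⟨c, z, e⟩ := P.exists_prI x
    exact ⟨(c, z), e⟩
  let Fd : T × (I × Sq) → P.K := fun x =>
    (F x.1 (x.2.1, v x.2.2)).f ((F x.1 (x.2.1, v x.2.2)).len * ((x.2.2.1 0 + 1) / 2))
  have hFd : Continuous Fd := continuous_prod_of_discrete_left.2 fun c =>
    continuous_f (g := fun x : I × Sq => F c (x.1, v x.2)) (by fun_prop)
      (Continuous.mul (continuous_len (g := fun x : I × Sq => F c (x.1, v x.2)) (by fun_prop)) hu)
  have hb : ∀ s c (z : Sq), ‖z.1‖ = 1 → Fd (c, s, z) = P.H0I (A s) (q (c, z)) := fun s c z hz => by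
    simp only [Fd, q]
    rcases z.cases with h | ⟨-, h | h⟩
    · exact absurd hz h.2.ne
    · have : v z = 0 := Subtype.ext (by simp [v, h])
      rw [this, F1, wl_len (hA s), P.pr_wpI _ 1 _ (P.eF 1 c z) (P.face_bottom 1 c h),
        P.H0_wlI (hA s)]
    · rw [P.pr_restI _ h, H0_x0I]
      rcases h with h | h | h
      · exact f_le _ (by simp [h])
      · exact f_ge _ (by simp [h])
      · have : v z = 1 := Subtype.ext (by simp [v, h])
        rw [this, F2]
  obtain ⟨H, hH⟩ := descend hq (fun x => Fd (x.2.1, x.1, x.2.2)) (hFd.comp (by fun_prop)) (by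
    rintro s ⟨c, z⟩ ⟨c', z'⟩ e
    by_cases h1 : ‖z.1‖ = 1
    · by_cases h2 : ‖z'.1‖ = 1
      · rw [hb _ _ _ h1, hb _ _ _ h2, e]
      · obtain ⟨rfl, rfl⟩ := pr_F_injI h2 e.symm
        rfl
    · obtain ⟨rfl, rfl⟩ := pr_F_injI h1 e
      rfl)
  refine ⟨H, fun s c z => ⟨v z, ⟨_, hH s (c, z)⟩, fun e => (hH s (c, z)).trans ?_⟩⟩
  simp only [Fd, e]
  change (P.facePathI c (hp c) (v z)).f (((P.R c).length : ℝ) * _) = _
  rw [facePath_fI, mul_div_cancel_left₀ _ (hp c).ne']
  congr 2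
  rw [← prj_val z]
  congr 1
  funext i
  fin_cases i <;> simp [v, prj_val] <;> ring

end Pres

end Pool.Agent.Lib.MP_2add11_gt.FG
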