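import Pool.Agent.Lib.MP_2add11_gt.IG.StTop

/-!
Higman linearisation for additive stable invariants.
-/

noncomputable section

namespace Pool.Agent.Lib.MP_2add11_gt.IG

open Matrix FG

variable {R W : Type} [Ring R] [AddCommGroup W]

theorem factor (S T : Submodule ℤ R) {n : Type} [Fintype n] [DecidableEq n] (A : Matrix n n R)
    (hA : ∀ i j, A i j ∈ S * T) : ∃ (m : Type) (_ : Fintype m) (_ : DecidableEq m)
      (X : Matrix n m R) (Y : Matrix m n R), (∀ i j, X i j ∈ S) ∧ (∀ i j, Y i j ∈ T) ∧ A = X * Y := by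
  let M : AddSubmonoid (Matrix n n R) :=
    { carrier := {A | ∃ (m : Type) (_ : Fintype m) (_ : DecidableEq m)
        (X : Matrix n m R) (Y : Matrix m n R), (∀ i j, X i j ∈ S) ∧ (∀ i j, Y i j ∈ T) ∧ A = X * Y}
      zero_mem' := ⟨Empty, inferInstance, inferInstance, 0, 0, fun _ _ => S.zero_mem,
        fun _ _ => T.zero_mem, by simp⟩
      add_mem' := by
        rintro _ _ ⟨m, _, _, X, Y, h1, h2, rfl⟩ ⟨m', _, _, X', Y', h1', h2', rfl⟩
        refine ⟨m ⊕ m', inferInstance, inferInstance, fromCols X X', fromRows Y Y', ?_, ?_,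
          (fromCols_mul_fromRows _ _ _ _).symm⟩
        · rintro i (j | j)
          exacts [h1 i j, h1' i j]
        · rintro (i | i) j
          exacts [h2 i j, h2' i j] }
  change A ∈ M
  rw [matrix_eq_sum_single A]
  refine sum_mem fun i _ => sum_mem fun j _ => ?_
  refine Submodule.mul_induction_on (hA i j) (fun s hs t ht => ?_) fun x y hx hy => ?_
  · refine ⟨Unit, inferInstance, inferInstance, Matrix.single i () s, Matrix.single () j t,
      fun a b => ?_, fun a b => ?_, (Matrix.single_mul_single_same _ _ _ _ _).symm⟩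
    · rw [Matrix.single, of_apply]
      split_ifs
      exacts [hs, S.zero_mem]
    · rw [Matrix.single, of_apply]
      split_ifs
      exacts [ht, T.zero_mem]
  · rw [Matrix.single_add]
    exact add_mem hx hy

theorem pow_mono {S : Submodule ℤ R} (h1 : (1 : R) ∈ S) {a b : ℕ} (h : a ≤ b) : S ^ a ≤ S ^ b := by
  induction h with
  | refl => exact le_rfl
  | step _ ih =>
    intro x hx
    rw [pow_succ, ← mul_one x]
    exact Submodule.mul_mem_mul (ih hx) h1

theorem higman (c : Inv R W) (S : Submodule ℤ R) (h1 : (1 : R) ∈ S) (hgen : ∀ x, ∃ k, x ∈ S ^ k)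
    (h : ∀ (n : Type) [Fintype n] [DecidableEq n] (A : Matrix n n R), IsUnit A →
      (∀ i j, A i j ∈ S) → c.c A = 0)
    {n : Type} [Fintype n] [DecidableEq n] {A : Matrix n n R} (hA : IsUnit A) : c.c A = 0 := by
  have key : ∀ k : ℕ, ∀ (n : Type) [Fintype n] [DecidableEq n] (A : Matrix n n R), IsUnit A →
      (∀ i j, A i j ∈ S ^ (k + 1)) → c.c A = 0 := by
    intro k
    induction k with
    | zero => simpa using h
    | succ k ih =>
      intro n _ _ A hA hS
      obtain ⟨m, _, _, X, Y, hX, hY, rfl⟩ := factor S (S ^ (k + 1)) A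
        (fun i j => by rw [← pow_succ']; exact hS i j)
      obtain ⟨t1, t2⟩ := c.tri hA (isUnit_one (M := Matrix m m R)) Y
      have e : fromBlocks (0 : Matrix n n R) (-X) Y (1 : Matrix m m R) =
          fromBlocks 1 (-X) 0 1 * fromBlocks (X * Y) 0 Y 1 := by
        simp [fromBlocks_multiply]
      have hup : c.c (fromBlocks (1 : Matrix n n R) (-X) 0 (1 : Matrix m m R)) = 0 := by
        rw [← c.low (-X), ← c.sub (Equiv.sumComm n m) (isUnit_low _)]
        congr 1
        ext (i | i) (j | j) <;> rfl
      have hle : S ≤ S ^ (k + 1) := by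
        simpa using pow_mono h1 (show 1 ≤ k + 1 by omega)
      have := ih _ _ (e ▸ (isUnit_up _).mul t1 :
        IsUnit (fromBlocks (0 : Matrix n n R) (-X) Y (1 : Matrix m m R))) (by
          rintro (i | i) (j | j)
          · exact zero_mem _
          · exact neg_mem (hle (hX i j))
          · exact hY i j
          · rw [fromBlocks_apply₂₂, one_apply]
            split_ifs
            exacts [hle h1, zero_mem _])
      rwa [e, c.mul (isUnit_up _) t1, hup, t2, c.one, zero_add, add_zero] at this
  choose f hf using hgen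
  exact key (Finset.univ.sup fun p : n × n => f (A p.1 p.2)) n A hA fun i j =>
    pow_mono h1 ((Finset.le_sup (f := fun p : n × n => f (A p.1 p.2))
      (Finset.mem_univ (i, j))).trans (Nat.le_succ _)) (hf _)

end Pool.Agent.Lib.MP_2add11_gt.IG
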