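import Pool.Agent.Lib.MP_2add11_gt.FG.Words

/-!
Coloured nilpotent matrices over the group ring of a free product have trivial class.
-/

noncomputable section

namespace Pool.Agent.Lib.MP_2add11_gt.IG

open Matrix MonoidAlgebra Monoid FG

section Euclid

variable {R W K : Type} [Ring R] [AddCommGroup W] (c : Inv R W) (I : K → AddSubgroup R)

def Col {n : Type} (col : n → K) (N : Matrix n n R) : Prop :=
  (∀ p q, N p q ∈ I (col p)) ∧ ∀ p q, col p = col q → N p q = 0

theorem col_step {n m : Type} [Fintype n] [DecidableEq n] [Fintype m] [DecidableEq m]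
    {col : n → K} {col' : m → K} {N : Matrix n n R} (h : Col I col N) (σ : Matrix n m ℤ)
    (π : Matrix m n ℤ) (hσ : ∀ q b, σ q b ≠ 0 → col q = col' b)
    (hπ : ∀ a p, π a p ≠ 0 → col p = col' a)
    (e : N * σ.map (Int.castRingHom R) * π.map (Int.castRingHom R) = N) (hu : IsUnit (1 - N)) :
    Col I col' (π.map (Int.castRingHom R) * (N * σ.map (Int.castRingHom R))) ∧
      IsUnit (1 - π.map (Int.castRingHom R) * (N * σ.map (Int.castRingHom R))) ∧
      c.c (1 - π.map (Int.castRingHom R) * (N * σ.map (Int.castRingHom R))) = c.c (1 - N) := by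
  have e1 : 1 + (-(N * σ.map (Int.castRingHom R))) * π.map (Int.castRingHom R) = 1 - N := by
    rw [Matrix.neg_mul, e, sub_eq_add_neg]
  have e2 : 1 + π.map (Int.castRingHom R) * (-(N * σ.map (Int.castRingHom R))) =
      1 - π.map (Int.castRingHom R) * (N * σ.map (Int.castRingHom R)) := by
    rw [Matrix.mul_neg, sub_eq_add_neg]
  have e3 : ∀ a b, (π.map (Int.castRingHom R) * (N * σ.map (Int.castRingHom R))) a b =
      ∑ p, ∑ q, (π a p * σ q b) • N p q := by
    intro a b
    simp only [Matrix.mul_apply, Matrix.map_apply, eq_intCast, Finset.mul_sum]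
    refine Finset.sum_congr rfl fun p _ => Finset.sum_congr rfl fun q _ => ?_
    rw [← zsmul_eq_mul, ← zsmul_eq_mul', mul_smul]
  refine ⟨⟨fun a b => ?_, fun a b hab => ?_⟩, e2 ▸ isUnit_swap (e1 ▸ hu), ?_⟩
  · rw [e3]
    refine sum_mem fun p _ => sum_mem fun q _ => ?_
    by_cases h0 : π a p = 0
    · simp [h0]
    · exact zsmul_mem (hπ a p h0 ▸ h.1 p q) _
  · rw [e3]
    refine Finset.sum_eq_zero fun p _ => Finset.sum_eq_zero fun q _ => ?_
    by_cases h0 : π a p = 0
    · simp [h0]
    · by_cases h1 : σ q b = 0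
      · simp [h1]
      · rw [h.2 p q ((hπ a p h0).trans (hab.trans (hσ q b h1).symm)), smul_zero]
  · rw [← e2, c.one_add_swap (e1 ▸ hu), e1]

theorem euclid (tf : ∀ (x : R) (k : ℤ), k ≠ 0 → x * k = 0 → x = 0)
    (ker : ∀ (n : Type) [Fintype n] [DecidableEq n] (col : n → K) (N : Matrix n n R), Nonempty n →
      Col I col N → IsUnit (1 - N) → ∃ (v : n → ℤ) (c0 : K), v ≠ 0 ∧ (∀ p, v p ≠ 0 → col p = c0) ∧
        N *ᵥ (fun q => (v q : R)) = 0)
    {n : Type} [Fintype n] [DecidableEq n] (col : n → K) (N : Matrix n n R) (h : Col I col N)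
    (hu : IsUnit (1 - N)) : c.c (1 - N) = 0 := by
  induction hn : Fintype.card n using Nat.strong_induction_on generalizing n with
  | _ k ih =>
  subst hn
  rcases isEmpty_or_nonempty n with he | he
  · rw [Subsingleton.elim (1 - N) 1, c.one]
  obtain ⟨v, c0, h0, h1, h2⟩ := ker n col N he h hu
  induction hs : ∑ p, (v p).natAbs using Nat.strong_induction_on generalizing N v with
  | _ s ihs =>
  subst hs
  by_cases hex : ∃ p0 p1, p0 ≠ p1 ∧ v p1 ≠ 0 ∧ (v p1).natAbs ≤ (v p0).natAbs
  · obtain ⟨p0, p1, hne, hv1, hle⟩ := hex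
    have hv0 : v p0 ≠ 0 := by omega
    obtain ⟨t, ht⟩ : ∃ t : ℤ, (v p0 - t * v p1).natAbs < (v p0).natAbs := by
      by_cases h' : (v p0 - 1 * v p1).natAbs < (v p0).natAbs
      · exact ⟨1, h'⟩
      · exact ⟨-1, by omega⟩
    have hc : col p0 = col p1 := (h1 _ hv0).trans (h1 _ hv1).symm
    have hcol : ∀ (s : ℤ) a b, (1 + Matrix.single p0 p1 s : Matrix n n ℤ) a b ≠ 0 →
        col a = col b := by
      intro s a b hab
      by_cases e : a = b
      · rw [e]
      · rw [Matrix.add_apply, one_apply_ne e, zero_add] at hab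
        by_cases e' : p0 = a ∧ p1 = b
        · rw [← e'.1, ← e'.2, hc]
        · exact absurd (by simp [Matrix.single, e']) hab
    have hinv : (1 + Matrix.single p0 p1 t : Matrix n n ℤ) * (1 + Matrix.single p0 p1 (-t)) = 1 := by
      rw [add_mul, mul_add, mul_add, one_mul, one_mul, mul_one,
        Matrix.single_mul_single_of_ne _ _ _ _ hne.symm, add_zero, add_assoc,
        ← Matrix.single_add]
      simp
    have hinv' : (1 + Matrix.single p0 p1 t : Matrix n n ℤ).map (Int.castRingHom R) *
        (1 + Matrix.single p0 p1 (-t) : Matrix n n ℤ).map (Int.castRingHom R) = 1 := by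
      rw [← Matrix.map_mul, hinv]
      simp
    obtain ⟨g1, g2, g3⟩ := col_step c I h (1 + Matrix.single p0 p1 t) (1 + Matrix.single p0 p1 (-t))
      (hcol _) (fun a p hh => (hcol _ a p hh).symm)
      (by rw [Matrix.mul_assoc, hinv', Matrix.mul_one]) hu
    have hv' : ∀ p, ((1 + Matrix.single p0 p1 (-t) : Matrix n n ℤ) *ᵥ v) p =
        if p = p0 then v p0 - t * v p1 else v p := by
      intro p
      rw [add_mulVec, one_mulVec, Matrix.single_mulVec]
      by_cases e : p = p0
      · subst e
        simp [sub_eq_add_neg]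
      · simp [e]
    rw [← g3]
    refine ihs _ ?_ _ g1 g2 ((1 + Matrix.single p0 p1 (-t) : Matrix n n ℤ) *ᵥ v) ?_ ?_ ?_ rfl
    · refine Finset.sum_lt_sum (fun p _ => ?_) ⟨p0, Finset.mem_univ _, ?_⟩
      · rw [hv']
        split_ifs with e
        · rw [e]; exact ht.le
        · exact le_rfl
      · rw [hv', if_pos rfl]; exact ht
    · intro e
      have := hv' p1
      rw [e, if_neg hne.symm] at this
      exact hv1 this.symm
    · intro p hp
      rw [hv'] at hp
      split_ifs at hp with e
      · rw [e]; exact h1 _ hv0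
      · exact h1 _ hp
    · have e : (fun q => ((((1 + Matrix.single p0 p1 (-t) : Matrix n n ℤ) *ᵥ v) q : ℤ) : R)) =
          (1 + Matrix.single p0 p1 (-t) : Matrix n n ℤ).map (Int.castRingHom R) *ᵥ
            fun q => (v q : R) := by
        funext q
        exact RingHom.map_mulVec (Int.castRingHom R) _ v q
      rw [e, mulVec_mulVec, Matrix.mul_assoc, Matrix.mul_assoc, hinv', Matrix.mul_one,
        ← mulVec_mulVec, h2, mulVec_zero]
  · obtain ⟨p0, hp0⟩ := Function.ne_iff.1 h0
    have hz : ∀ p, p ≠ p0 → v p = 0 := by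
      intro p hp
      by_contra hv
      rcases le_total (v p).natAbs (v p0).natAbs with h' | h'
      · exact hex ⟨p0, p, hp.symm, hv, h'⟩
      · exact hex ⟨p, p0, hp, hp0, h'⟩
    have hN : ∀ p, N p p0 = 0 := by
      intro p
      have := congrFun h2 p
      rw [mulVec, dotProduct, Finset.sum_eq_single p0 (fun q _ hq => by simp [hz q hq])
        (by simp)] at this
      exact tf _ _ hp0 this
    obtain ⟨g1, g2, g3⟩ := col_step c I (m := {p // p ≠ p0}) (col' := fun a => col a.1) h
      (Matrix.of fun q b => if q = b.1 then 1 else 0) (Matrix.of fun a p => if p = a.1 then 1 else 0)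
      (fun q b hh => by
        by_cases e : q = b.1
        · rw [e]
        · simp [e] at hh)
      (fun a p hh => by
        by_cases e : p = a.1
        · rw [e]
        · simp [e] at hh)
      (by
        ext p q
        by_cases e : q = p0
        · subst e
          rw [hN, Matrix.mul_apply]
          exact Finset.sum_eq_zero fun a _ => by simp [a.2.symm]
        · rw [Matrix.mul_apply, Finset.sum_eq_single ⟨q, e⟩]
          · simp [Matrix.mul_apply]
          · intro a _ ha
            have : q ≠ a.1 := fun e' => ha (Subtype.ext e'.symm)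
            simp [this]
          · simp) hu
    rw [← g3]
    exact ih _ (Fintype.card_subtype_lt (x := p0) (by simp)) _ _ g1 g2 rfl

end Euclid

section Top

variable {K : Type} {G : K → Type} [∀ i, Group (G i)]

def aug (H : Type) : MonoidAlgebra ℤ H →+ ℤ :=
  (Finsupp.liftAddHom fun _ : H => AddMonoidHom.id ℤ).comp
    (MonoidAlgebra.coeffAddEquiv (R := ℤ) (M := H)).toAddMonoidHom

theorem aug_eq {H : Type} (y : MonoidAlgebra ℤ H) : aug H y = y.coeff.sum fun _ a => a := rfl

theorem eq_zero_of_aug {H : Type} [Group H] {z : MonoidAlgebra ℤ H} (h : ∀ g, g ≠ 1 → z.coeff g = 0)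
    (h0 : aug H z = 0) : z = 0 := by
  rw [aug_eq, Finsupp.sum_eq_single 1 (fun g hg h1 => absurd (h g h1) hg) (fun _ => rfl)] at h0
  ext g
  by_cases e : g = 1
  · rw [e, h0]; rfl
  · rw [h g e]; rfl

open Classical in
def len (w : CoprodI G) : ℕ := (CoprodI.Word.equiv w).toList.length

theorem len_one : len (1 : CoprodI G) = 0 := by
  classical
  simp [len, CoprodI.Word.equiv]

theorem exists_first (w : CoprodI G) (d : K) : ∃ c0, (w = 1 → c0 = d) ∧
    ∀ c, c ≠ c0 → ∀ g : G c, g ≠ 1 → len w < len (CoprodI.of g * w) := by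
  classical
  have key : ∀ c, (CoprodI.Word.equiv w).fstIdx ≠ some c → ∀ g : G c, g ≠ 1 →
      len w < len (CoprodI.of g * w) := by
    intro c hc g hg
    have : CoprodI.Word.equiv (CoprodI.of g * w) =
        CoprodI.Word.cons g (CoprodI.Word.equiv w) hc hg := by
      rw [CoprodI.Word.cons_eq_smul]
      exact mul_smul (CoprodI.of g) w (CoprodI.Word.empty : CoprodI.Word G)
    unfold len
    rw [this]
    simp [CoprodI.Word.cons]
  rcases h : (CoprodI.Word.equiv w).fstIdx with _ | c0
  · exact ⟨d, fun _ => rfl, fun c _ => key c (by rw [h]; simp)⟩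
  · refine ⟨c0, fun e => ?_, fun c hc => key c (by rw [h]; simpa using hc.symm)⟩
    subst e
    simp [CoprodI.Word.equiv, CoprodI.Word.fstIdx] at h

theorem coeff_top {c : K} (y : MonoidAlgebra ℤ (G c)) (u : MonoidAlgebra ℤ (CoprodI G))
    (w : CoprodI G) (hu : ∀ h : G c, h ≠ 1 → u.coeff (CoprodI.of h * w) = 0) (g : G c) :
    (mapDomainRingHom ℤ CoprodI.of y * u).coeff (CoprodI.of g * w) = y.coeff g * u.coeff w := by
  classical
  induction y using MonoidAlgebra.induction_linear with
  | zero => simp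
  | add a b ha hb =>
    rw [map_add, add_mul, coeff_add, coeff_add, Finsupp.add_apply, Finsupp.add_apply, ha, hb,
      add_mul]
  | single h a =>
    have : mapDomainRingHom ℤ (CoprodI.of : G c →* CoprodI G) (single h a) =
        single (CoprodI.of h) a := by simp
    rw [this, coeff_single_mul_apply, ← mul_assoc, ← map_inv, ← map_mul, coeff_single,
      Finsupp.single_apply]
    split_ifs with e
    · simp [e]
    · rw [hu _ (fun e' => e (inv_mul_eq_one.1 e')), mul_zero, zero_mul]

def Ic (G : K → Type) [∀ i, Group (G i)] (c : K) : AddSubgroup (MonoidAlgebra ℤ (CoprodI G)) :=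
  (aug (G c)).ker.map (mapDomainRingHom ℤ (CoprodI.of : G c →* CoprodI G)).toAddMonoidHom

theorem top_word (n : Type) [Fintype n] [DecidableEq n] (col : n → K)
    (N : Matrix n n (MonoidAlgebra ℤ (CoprodI G))) (he : Nonempty n) (h : Col (Ic G) col N)
    (hu : IsUnit (1 - N)) : ∃ (v : n → ℤ) (c0 : K), v ≠ 0 ∧ (∀ p, v p ≠ 0 → col p = c0) ∧
      N *ᵥ (fun q => (v q : MonoidAlgebra ℤ (CoprodI G))) = 0 := by
  classical
  obtain ⟨q⟩ := he
  obtain ⟨U, hU⟩ := hu.exists_right_inv
  choose y hy0 hy using h.1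
  have hrec : ∀ p, U p q = (if p = q then 1 else 0) + ∑ r, N p r * U r q := by
    intro p
    have := congrFun (congrFun hU p) q
    rw [Matrix.sub_mul, Matrix.one_mul, Matrix.sub_apply, Matrix.mul_apply, one_apply] at this
    rw [← this, sub_add_cancel]
  have hne : (Finset.univ.biUnion fun p => (U p q).coeff.support).Nonempty := by
    by_contra h0
    have h1 : ∀ p, U p q = 0 := fun p => by
      rw [← coeff_eq_zero, ← Finsupp.support_eq_empty]
      by_contra h2
      obtain ⟨x, hx⟩ := Finset.nonempty_iff_ne_empty.2 h2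
      exact h0 ⟨x, Finset.mem_biUnion.2 ⟨p, Finset.mem_univ _, hx⟩⟩
    have := hrec q
    simp [h1] at this
  obtain ⟨w, hw, hmax⟩ := Finset.exists_max_image _ len hne
  have hz : ∀ p x, len w < len x → (U p q).coeff x = 0 := fun p x hx => by
    by_contra h0
    exact absurd (hmax x (Finset.mem_biUnion.2 ⟨p, Finset.mem_univ _,
      Finsupp.mem_support_iff.2 h0⟩)) (not_le.2 hx)
  obtain ⟨c0, hc0, hlen⟩ := exists_first w (col q)
  have hco : ∀ p, col p ≠ c0 → ∀ g : G (col p), (U p q).coeff (CoprodI.of g * w) =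
      (if p = q then (1 : MonoidAlgebra ℤ (CoprodI G)) else 0).coeff (CoprodI.of g * w) +
        (∑ r, (U r q).coeff w • y p r).coeff g := by
    intro p hp g
    conv_lhs => rw [hrec p]
    rw [coeff_add, Finsupp.add_apply, coeff_sum, coeff_sum, Finsupp.finsetSum_apply,
      Finsupp.finsetSum_apply]
    congr 1
    refine Finset.sum_congr rfl fun r _ => ?_
    rw [← hy p r, coeff_smul_apply, smul_eq_mul, mul_comm]
    exact coeff_top _ _ _ (fun h hh => hz _ _ (hlen _ hp h hh)) g
  have hone : ∀ p x, x ≠ 1 → (if p = q then (1 : MonoidAlgebra ℤ (CoprodI G)) else 0).coeff x = 0 := by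
    intro p x hx
    split_ifs
    · rw [MonoidAlgebra.one_def, coeff_single, Finsupp.single_apply, if_neg hx.symm]
    · rfl
  have hzero : ∀ p, col p ≠ c0 → ∑ r, (U r q).coeff w • y p r = 0 := by
    intro p hp
    refine eq_zero_of_aug (fun g hg => ?_) ?_
    · have h1 := hlen _ hp g hg
      have := hco p hp g
      rw [hz _ _ h1, hone p _ (fun e => by rw [e, len_one] at h1; omega), zero_add] at this
      exact this.symm
    · rw [map_sum]
      exact Finset.sum_eq_zero fun r _ => by rw [map_zsmul, hy0 p r, smul_zero]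
  have hsupp : ∀ p, (U p q).coeff w ≠ 0 → col p = c0 := by
    intro p hp
    by_contra hc
    have := hco p hc 1
    rw [hzero p hc, map_one, one_mul] at this
    by_cases e : w = 1
    · rw [if_neg (fun e' => hc (by rw [e', hc0 e]))] at this
      exact hp (by simpa using this)
    · rw [hone p _ e] at this
      exact hp (by simpa using this)
  refine ⟨fun p => (U p q).coeff w, c0, ?_, hsupp, ?_⟩
  · obtain ⟨p, -, hp⟩ := Finset.mem_biUnion.1 hw
    exact fun e => Finsupp.mem_support_iff.1 hp (congrFun e p)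
  · funext p
    rw [mulVec, dotProduct, Pi.zero_apply]
    by_cases hp : col p = c0
    · refine Finset.sum_eq_zero fun r _ => ?_
      by_cases hr : (U r q).coeff w = 0
      · simp [hr]
      · rw [h.2 p r (hp.trans (hsupp r hr).symm), zero_mul]
    · have := congrArg (mapDomainRingHom ℤ (CoprodI.of : G (col p) →* CoprodI G)).toAddMonoidHom
        (hzero p hp)
      rw [map_sum, map_zero] at this
      rw [← this]
      refine Finset.sum_congr rfl fun r _ => ?_
      rw [map_zsmul, hy p r, zsmul_eq_mul']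

theorem nil_zero {W : Type} [AddCommGroup W] (c : Inv (MonoidAlgebra ℤ (CoprodI G)) W) {n : Type}
    [Fintype n] [DecidableEq n] (col : n → K) (N : Matrix n n (MonoidAlgebra ℤ (CoprodI G)))
    (h1 : ∀ p q, ∃ y : MonoidAlgebra ℤ (G (col p)),
      N p q = mapDomainRingHom ℤ CoprodI.of y ∧ (y.coeff.sum fun _ a => a) = 0)
    (h2 : ∀ p q, col p = col q → N p q = 0) (hu : IsUnit (1 - N)) : c.c (1 - N) = 0 := by
  refine euclid c (Ic G) (fun x k hk hx => ?_) top_word col N ⟨fun p q => ?_, h2⟩ hu
  · rw [← zsmul_eq_mul'] at hx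
    ext g
    have := congrArg (fun z : MonoidAlgebra ℤ (CoprodI G) => z.coeff g) hx
    simp only [coeff_smul_apply, smul_eq_mul, coeff_zero, Finsupp.zero_apply] at this
    exact (mul_eq_zero.1 this).resolve_left hk
  · obtain ⟨y, e, h0⟩ := h1 p q
    exact ⟨y, h0, e.symm⟩

end Top

end Pool.Agent.Lib.MP_2add11_gt.IG
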