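import Pool.Agent.Lib.MP_2add11_gt.IG.SepMain
import Pool.Agent.Lib.MP_2add11_gt.IG.SepSix
import Pool.Agent.Lib.MP_2add11_gt.IG.WrVf
import Pool.Agent.Lib.MP_2add11_gt.IG.HerD
import Pool.Agent.Lib.MP_2add11_gt.IG.FPext
import Pool.Agent.Lib.MP_2add11_gt.IG.FamVa

/-!
`Wh*(G)` is a subgroup of `Wh(G)` for a class of groups that contains the finitely generated
virtually free groups.
-/

namespace Pool.Agent.Lib.MP_2add11_gt.IG.Tame

open Pool.Agent.Lib.MP_2add11_gt Monoid

/-- Finitely generated with a free subgroup of finite index. -/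
def VF (G : Type) [Group G] : Prop :=
  Group.FG G ∧ ∃ N : Subgroup G, N.FiniteIndex ∧ IsFreeGroup N

/-- Finitely generated with an abelian subgroup of finite index. -/
def VA (G : Type) [Group G] : Prop :=
  Group.FG G ∧ ∃ N : Subgroup G, N.FiniteIndex ∧ IsMulCommutative N

/-- The class of the theorem. -/
inductive Cls : (G : Type) → [Group G] → Prop
  | vf (P : Type) [Group P] : VF P → Cls P
  | vf2 (P P' : Type) [Group P] [Group P'] : VF P → VF P' → Cls (P × P')
  | vfa (P A : Type) [Group P] [CommGroup A] [Group.FG A] : VF P → Cls (P × A)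
  | sep (G : Type) [Group G] [Group.IsFinitelyPresented G] :
      IG.RG G → (IG.TCS G ∨ ∀ g : G, orderOf g ≤ 6) → Cls G
  | amal (K B : Type) [Finite K] [Group B] (G : K → Type) [∀ i, Group (G i)]
      (φ : ∀ i, B →* G i) (ρ : ∀ i, G i →* B) (h : ∀ i b, ρ i (φ i b) = b) :
      VF B ∨ VA B → Cls B → (∀ i, Cls (G i)) → Cls (PushoutI φ)
  | wr (K Q E : Type) [Group K] [Group Q] [MulAction Q E] [Finite E] :
      VF Q ∨ VA Q → Cls (K × Q) → Cls (IG.Wr K Q E)
  | ret (G H : Type) [Group G] [Group H] (N : Subgroup G) [N.FiniteIndex] (f : H →* N)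
      (g : N →* H) (h : ∀ x, g (f x) = x) : Cls G → Cls H

/-- Finite groups lie in the class. -/
theorem Cls.fin (F : Type) [Group F] [Finite F] : Cls F :=
  .vf F ⟨inferInstance, ⊥, inferInstance,
    IsFreeGroup.ofMulEquiv (MulEquiv.ofUnique : FreeGroup Empty ≃* _)⟩

theorem ct {B : Type} [Group B] (h : VF B ∨ VA B) : IG.CT B := by
  rcases h with ⟨_, N, _, _⟩ | ⟨_, N, _, _⟩
  exacts [(IG.proj_vf N).ct, IG.ct_va B N]

theorem Cls.neg {G : Type} [Group G] (h : Cls G) : IG.NegCl G := by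
  induction h with
  | vf P h =>
    obtain ⟨_, N, _, _⟩ := h
    exact (IG.NegF.vf P N).negCl
  | vf2 P P' h h' =>
    obtain ⟨_, N, _, _⟩ := h
    obtain ⟨_, N', _, _⟩ := h'
    exact (IG.NegF.vf_prod_vf P P' N N').negCl
  | vfa P A h =>
    obtain ⟨_, N, _, _⟩ := h
    obtain ⟨V, _, T, s, a, b, c, d, e, -⟩ := IG.tree_of_free P N
    exact ((IG.NegClS.tree IG.ctAll P V T a b s c d N e).prod_comm A).negCl
  | sep G h1 h2 => exact h2.elim (.sep h1) (.six h1)
  | amal K B G φ ρ h hB _ _ i1 i2 => exact .pushoutI_ct φ ρ h (ct hB) i1 i2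
  | wr K Q E hQ _ ih => exact .wr' (ct hQ) ih
  | ret G H N f g h _ ih => exact (ih.subgroup N).retract f g h

theorem Cls.fp {G : Type} [Group G] (h : Cls G) : Group.IsFinitelyPresented G := by
  induction h with
  | vf P h =>
    obtain ⟨_, N, _, _⟩ := h
    exact IG.fp_virtFree N
  | vf2 P P' h h' =>
    obtain ⟨_, N, _, _⟩ := h
    obtain ⟨_, N', _, _⟩ := h'
    have := IG.fp_virtFree N
    have := IG.fp_virtFree N'
    exact IG.fp_prod P P'
  | vfa P A h =>
    obtain ⟨_, N, _, _⟩ := h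
    have := IG.fp_virtFree N
    have := _root_.IG.fp_commGroup A
    exact IG.fp_prod P A
  | sep G => assumption
  | amal K B G φ ρ h hB _ _ i1 i2 => exact IG.fp_pushoutI φ
  | wr K Q E hQ _ ih =>
    have := IG.fp_retract (MonoidHom.inl K Q) (MonoidHom.fst K Q) fun _ => rfl
    have := IG.fp_retract (MonoidHom.inr K Q) (MonoidHom.snd K Q) fun _ => rfl
    exact IG.fp_wr' K Q E
  | ret G H N f g h _ ih =>
    have := IG.fp_down N
    exact IG.fp_retract f g h

theorem result (G : Type) [Group G] (h : Cls G) :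
    ∃ H : AddSubgroup (Wh G), (H : Set (Wh G)) = WhStar G :=
  have := h.fp
  h.neg.whStar

end Pool.Agent.Lib.MP_2add11_gt.IG.Tame
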