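import Pool.Agent.Lib.MP_2add11_gt.IG.TreeNeg
import Pool.Agent.Lib.MP_2add11_gt.IG.Stab

/-!
Groups acting on trees with finite stabilisers and finitely many orbits of edges.
-/

noncomputable section

namespace Pool.Agent.Lib.MP_2add11_gt.IG

theorem NegCl.treeFin (G V : Type) [Group G] [MulAction G V] (T : SimpleGraph V) (hT : T.IsTree)
    (hG : ∀ (g : G) x y, T.Adj x y → T.Adj (g • x) (g • y))
    (s : Set (V × V)) (hs : s.Finite) (hc : ∀ x y, T.Adj x y → ∃ g : G, (g • x, g • y) ∈ s)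
    (hf : ∀ x : V, Finite (MulAction.stabilizer G x)) : NegCl G := by
  obtain ⟨N, _, h1, _⟩ := tree_free G V T hT hG s hs hc hf
  exact NegCl.tree G V T hT hG s hs hc N h1

theorem NegCl.treeFin_prod (F G V : Type) [Group F] [Finite F] [Group G] [MulAction G V]
    (T : SimpleGraph V) (hT : T.IsTree) (hG : ∀ (g : G) x y, T.Adj x y → T.Adj (g • x) (g • y))
    (s : Set (V × V)) (hs : s.Finite) (hc : ∀ x y, T.Adj x y → ∃ g : G, (g • x, g • y) ∈ s)
    (hf : ∀ x : V, Finite (MulAction.stabilizer G x)) : NegCl (F × G) := by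
  obtain ⟨N, _, h1, _⟩ := tree_free G V T hT hG s hs hc hf
  exact NegCl.tree_prod F G V T hT hG s hs hc N h1

end Pool.Agent.Lib.MP_2add11_gt.IG
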