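import Pool.Agent.Lib.MP_2add11_gt.IG.WrNeg
import Pool.Agent.Lib.MP_2add11_gt.IG.Tree

/-!
Groups acting on trees: the algebraic model is closed under inverses.
-/

noncomputable section

namespace Pool.Agent.Lib.MP_2add11_gt.IG

/-- Groups that act on a tree with finitely many orbits of edges and have a subgroup of finite
index acting freely on the vertices. -/
theorem NegCl.tree (G V : Type) [Group G] [MulAction G V] (T : SimpleGraph V) (hT : T.IsTree)
    (hG : ∀ (g : G) x y, T.Adj x y → T.Adj (g • x) (g • y))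
    (s : Set (V × V)) (hs : s.Finite) (hc : ∀ x y, T.Adj x y → ∃ g : G, (g • x, g • y) ∈ s)
    (N : Subgroup G) [N.FiniteIndex] (h1 : ∀ n ∈ N, ∀ x : V, n • x = x → n = 1) : NegCl G := by
  classical
  obtain ⟨Q, E, _, _, _, _, H, _, f, g, hfg⟩ := tree_retract' G V T hT hG s hs hc N h1
  have := Fintype.ofFinite E
  exact (((NegCl.finite (Multiplicative (ZMod 2) × Q)).wr (E := E)).subgroup H).retract f g hfg

/-- The same for the product with a finite group. -/
theorem NegCl.tree_prod (F G V : Type) [Group F] [Finite F] [Group G] [MulAction G V]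
    (T : SimpleGraph V) (hT : T.IsTree) (hG : ∀ (g : G) x y, T.Adj x y → T.Adj (g • x) (g • y))
    (s : Set (V × V)) (hs : s.Finite) (hc : ∀ x y, T.Adj x y → ∃ g : G, (g • x, g • y) ∈ s)
    (N : Subgroup G) [N.FiniteIndex] (h1 : ∀ n ∈ N, ∀ x : V, n • x = x → n = 1) :
    NegCl (F × G) := by
  letI : MulAction (F × G) V := MulAction.compHom V (MonoidHom.snd F G)
  have : ((⊥ : Subgroup F).prod N).FiniteIndex := ⟨by
    rw [Subgroup.index_prod]
    exact mul_ne_zero Subgroup.FiniteIndex.index_ne_zero Subgroup.FiniteIndex.index_ne_zero⟩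
  exact NegCl.tree (F × G) V T hT (fun g => hG g.2) s hs
    (fun x y h => (hc x y h).elim fun g hg => ⟨(1, g), hg⟩) ((⊥ : Subgroup F).prod N)
    fun n hn x hx => Prod.ext (Subgroup.mem_bot.1 hn.1) (h1 n.2 hn.2 x hx)

end Pool.Agent.Lib.MP_2add11_gt.IG
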