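import Pool.Agent.Lib.MP_2add11_gt.IG.Wr
import Pool.Agent.Lib.MP_2add11_gt.IG.Mackey

/-!
Cocycles over finite right actions give monomial representations that preserve the algebraic
model; application to the two representations of the free wreath product.
-/

noncomputable section

namespace Pool.Agent.Lib.MP_2add11_gt.IG

open Matrix MonoidAlgebra Monoid FG

/-- A right action of `G` on `X` with a cocycle in `C`. -/
structure Coc (G C X : Type) [Group G] [Group C] where
  act : X → G → X
  u : X → G → C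
  act_one : ∀ x, act x 1 = x
  act_mul : ∀ x g h, act x (g * h) = act (act x g) h
  u_one : ∀ x, u x 1 = 1
  u_mul : ∀ x g h, u x (g * h) = u x g * u (act x g) h

namespace Coc

variable {G C X W : Type} [Group G] [Group C] [DecidableEq X] [AddCommGroup W] (T : Coc G C X)

def mat (g : G) : Matrix X X (MonoidAlgebra ℤ C) :=
  .of fun e f => if T.act e g = f then .single (T.u e g) 1 else 0

variable [Fintype X]

/-- The monomial representation of a cocycle. -/
def hom : MonoidAlgebra ℤ G →+* Matrix X X (MonoidAlgebra ℤ C) :=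
  (MonoidAlgebra.lift ℤ _ G
    { toFun := T.mat
      map_one' := by
        ext1 e f
        simp [mat, T.act_one, T.u_one, Matrix.one_apply, MonoidAlgebra.one_def]
      map_mul' := fun g h => by
        ext1 e f
        simp only [mat, Matrix.mul_apply, Matrix.of_apply, ite_mul, zero_mul, Finset.sum_ite_eq,
          Finset.mem_univ, if_true, T.u_mul, T.act_mul]
        split_ifs <;> simp [single_mul_single] }).toRingHom

theorem hom_single (g : G) (a : ℤ) (e f : X) :
    T.hom (.single g a) e f = if T.act e g = f then .single (T.u e g) a else 0 := by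
  simp [hom, mat]

theorem alg (c : Inv (MonoidAlgebra ℤ C) W) : Alg (c.comap T.hom) ≤ Alg c := by
  rintro _ ⟨ι, _, _, r, h1, h2, rfl⟩
  let s : ι × X → FreeGroup (C × (ι × X)) := fun p => FreeGroup.map
    (fun x => (T.u p.2 x.1, x.2, T.act p.2 x.1)) (r p.1)
  have e : jac s = comp _ _ _ _ _ ((jac r).map T.hom) := by
    ext1 ⟨i, k⟩ ⟨j, l⟩
    exact fox_map _ ((entryAddMonoidHom _ k l).comp T.hom.toAddMonoidHom) j (j, l) (fun x => by
      by_cases h : x.2 = j <;> simp [h, T.hom_single]) _
  refine ⟨ι × X, inferInstance, inferInstance, s, fun Γ _ γ h x => ?_, e ▸ isUnit_cm _ h2,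
    congrArg c.c e.symm⟩
  obtain ⟨g0, j, k⟩ := x
  have := h1 Γ (fun y => γ (g0 * T.u k y.1, y.2, T.act k y.1)) (fun g i => by
    have := h (g0 * T.u k g) (i, T.act k g)
    rw [lift_map] at this
    rw [← this]
    congr 2
    funext y
    simp only [T.u_mul, T.act_mul, mul_assoc]) (1, j)
  simpa [T.u_one, T.act_one] using this

end Coc

variable {K Q E W : Type} [Group K] [Group Q] [MulAction Q E] [DecidableEq E] [Fintype E]
  [AddCommGroup W]

variable (K Q E) in
omit [DecidableEq E] [Fintype E] in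
/-- The cocycle that forgets all letters. -/
def coc0 : Coc (Wr K Q E) (Wr K Q E) E where
  act e g := g.right⁻¹ • e
  u _ g := SemidirectProduct.inr g.right
  act_one _ := by simp
  act_mul _ _ _ := by simp [mul_smul]
  u_one _ := by simp
  u_mul _ _ _ := by simp

variable (K Q E) in
omit [Fintype E] in
/-- The cocycle that reads the letters of one copy. -/
def coc1 : Coc (Wr K Q E) (K × Q) E where
  act e g := g.right⁻¹ • e
  u e g := (retr (G := fun _ : E => K) e g.left, g.right)
  act_one _ := by simp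
  act_mul _ _ _ := by simp [mul_smul]
  u_one _ := by simp
  u_mul e g h := by
    ext
    · simp only [SemidirectProduct.mul_left, map_mul, Prod.fst_mul]
      rw [← retr_wrAut g.right (g.right⁻¹ • e), smul_inv_smul]
    · rfl

variable (K Q E) in
omit [DecidableEq E] [Fintype E] in
/-- The cocycle that writes a letter into one copy. -/
def coc2 : Coc (K × Q) (Wr K Q E) E where
  act e g := g.2⁻¹ • e
  u e g := ⟨Fp.of e g.1, g.2⟩
  act_one _ := by simp
  act_mul _ _ _ := by simp [mul_smul]
  u_one _ := by ext <;> simp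
  u_mul e g h := by
    ext
    · simp only [SemidirectProduct.mul_left, map_mul, Prod.fst_mul, wrAut_of, smul_inv_smul]
    · rfl

variable (K Q E) in
omit [Fintype E] in
/-- The cocycle that reads one copy and writes into another one. -/
def coc3 : Coc (Wr K Q E) (Wr K Q E) {p : E × E // p.1 ≠ p.2} where
  act p g := ⟨(g.right⁻¹ • p.1.1, g.right⁻¹ • p.1.2), fun h => p.2 (smul_left_cancel _ h)⟩
  u p g := ⟨Fp.of p.1.2 (retr (G := fun _ : E => K) p.1.1 g.left), g.right⟩
  act_one _ := by simp
  act_mul _ _ _ := by simp [mul_smul]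
  u_one _ := by ext <;> simp
  u_mul p g h := by
    ext
    · simp only [SemidirectProduct.mul_left, map_mul, wrAut_of, smul_inv_smul]
      rw [← retr_wrAut g.right (g.right⁻¹ • p.1.1), smul_inv_smul]
    · rfl

theorem th0_mem (c : Inv (MonoidAlgebra ℤ (Wr K Q E)) W) {ι : Type} [Fintype ι] [DecidableEq ι]
    {r : ι → FreeGroup (Wr K Q E × ι)} (h1 : NS r) (h2 : IsUnit (jac r)) :
    (c.comap (Th0 K Q E)).c (jac r) ∈ Alg c :=
  (coc0 K Q E).alg c ⟨ι, _, _, r, h1, h2, rfl⟩

theorem coc21_single (g : Wr K Q E) (a : ℤ) (e f e' f' : E) :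
    (coc2 K Q E).hom ((coc1 K Q E).hom (.single g a) e f) e' f' =
      if g.right⁻¹ • e = f ∧ g.right⁻¹ • e' = f' then
        .single ⟨Fp.of e' (retr (G := fun _ : E => K) e g.left), g.right⟩ a else 0 := by
  rw [Coc.hom_single]
  by_cases h : g.right⁻¹ • e = f
  · rw [if_pos (show (coc1 K Q E).act e g = f from h), Coc.hom_single]
    simp only [h, true_and]
    rfl
  · rw [if_neg (show ¬ (coc1 K Q E).act e g = f from h), map_zero, if_neg fun h' => h h'.1]
    rfl

theorem th_neg (h : NegCl (K × Q)) (c : Inv (MonoidAlgebra ℤ (Wr K Q E)) W) {ι : Type} [Fintype ι]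
    [DecidableEq ι] {r : ι → FreeGroup (Wr K Q E × ι)} (h1 : NS r) (h2 : IsUnit (jac r)) :
    -(c.comap (Th K Q E)).c (jac r) ∈ Alg c := by
  have hx := (coc2 K Q E).alg c (h _ _ _ ((coc1 K Q E).alg (c.comap (coc2 K Q E).hom)
    ⟨ι, _, _, r, h1, h2, rfl⟩))
  have hz : (c.comap (coc3 K Q E).hom).c (jac r) ∈ Alg c :=
    (coc3 K Q E).alg c ⟨ι, _, _, r, h1, h2, rfl⟩
  let D : (ι × E) ⊕ ι × {p : E × E // p.1 ≠ p.2} ≃ (ι × E) × E :=
    { toFun := Sum.elim (fun p => (p, p.2)) fun p => ((p.1, p.2.1.1), p.2.1.2)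
      invFun := fun p => if h : p.1.2 = p.2 then .inl p.1 else .inr (p.1.1, ⟨(p.1.2, p.2), h⟩)
      left_inv := by
        rintro (i | ⟨i, ⟨k, l⟩, hk⟩)
        · simp
        · simp only [Sum.elim_inr]
          rw [dif_neg hk]
      right_inv := by
        rintro ⟨⟨i, k⟩, l⟩
        by_cases h : k = l <;> simp [h] }
  have b1 : ∀ (a : MonoidAlgebra ℤ (Wr K Q E)) (e f : E),
      (coc2 K Q E).hom ((coc1 K Q E).hom a e f) e f = Th K Q E a e f := fun a e f => by
    induction a using MonoidAlgebra.induction_linear with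
    | zero => simp
    | add a b ha hb => simp only [map_add, Matrix.add_apply, ha, hb]
    | single g a =>
      rw [coc21_single, Th, thHom_single]
      simp only [and_self]
      rfl
  have b2 : ∀ (a : MonoidAlgebra ℤ (Wr K Q E)) (e f e' f' : E), ¬ (e = e' ↔ f = f') →
      (coc2 K Q E).hom ((coc1 K Q E).hom a e f) e' f' = 0 := fun a e f e' f' hn => by
    induction a using MonoidAlgebra.induction_linear with
    | zero => simp
    | add a b ha hb => simp only [map_add, Matrix.add_apply, ha, hb, add_zero]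
    | single g a =>
      rw [coc21_single, if_neg]
      rintro ⟨rfl, rfl⟩
      exact hn (smul_left_cancel_iff _).symm
  have b3 : ∀ (a : MonoidAlgebra ℤ (Wr K Q E)) (p q : {p : E × E // p.1 ≠ p.2}),
      (coc2 K Q E).hom ((coc1 K Q E).hom a p.1.1 q.1.1) p.1.2 q.1.2 = (coc3 K Q E).hom a p q :=
    fun a p q => by
    induction a using MonoidAlgebra.induction_linear with
    | zero => simp
    | add a b ha hb => simp only [map_add, Matrix.add_apply, ha, hb]
    | single g a =>
      rw [coc21_single, Coc.hom_single]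
      exact if_congr (by simp [coc3, Subtype.ext_iff, Prod.ext_iff]) rfl rfl
  have e : (comp _ _ _ _ _ ((comp _ _ _ _ _ ((jac r).map (coc1 K Q E).hom)).map
      (coc2 K Q E).hom)).submatrix D D = fromBlocks (comp _ _ _ _ _ ((jac r).map (Th K Q E))) 0 0
        (comp _ _ _ _ _ ((jac r).map (coc3 K Q E).hom)) := by
    ext1 (⟨i, k⟩ | ⟨i, k⟩) (⟨j, l⟩ | ⟨j, l⟩)
    · exact b1 (jac r i j) k l
    · exact b2 (jac r i j) k l.1.1 k l.1.2 fun h => l.2 (h.1 rfl)
    · exact b2 (jac r i j) k.1.1 l k.1.2 l fun h => k.2 (h.2 rfl)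
    · exact b3 (jac r i j) k l
  have ey : ((c.comap (coc2 K Q E).hom).comap (coc1 K Q E).hom).c (jac r) =
      (c.comap (Th K Q E)).c (jac r) + (c.comap (coc3 K Q E).hom).c (jac r) := by
    refine (c.sub D (isUnit_cm _ (isUnit_cm _ h2))).symm.trans ?_
    rw [e]
    exact c.blocks (isUnit_cm _ h2) (isUnit_cm _ h2)
  have := add_mem hx hz
  rwa [ey, neg_add, neg_add_cancel_right] at this

end Pool.Agent.Lib.MP_2add11_gt.IG
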